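import Mathlib

/-!
# Rational curves on general hypersurfaces: definitions

`K ⊆ Ω` are fields, `Ω` is algebraically closed of infinite transcendence degree over `K`
(`Big K Ω`).  Varieties are studied through their generic points with coordinates in `Ω`.
-/

namespace Pool.Agent.Helper30.RY

open MvPolynomial

/-! ### transcendence degrees of finite sets -/

section Ranks

variable (K : Type*) {Ω : Type*} [Field K] [Field Ω] [Algebra K Ω]

/-- the transcendence degree of `K(s)` over `K` -/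
noncomputable def rk (s : Finset Ω) : ℕ :=
  ((AlgebraicIndependent.matroid K Ω).eRk (s : Set Ω)).toNat

/-- the algebraic closure of `K(s)` in `Ω` -/
noncomputable def cl (s : Finset Ω) : IntermediateField K Ω :=
  (algebraicClosure (IntermediateField.adjoin K (s : Set Ω)) Ω).restrictScalars K

variable (Ω) in
/-- infinite transcendence degree -/
def Big : Prop := ∀ s : Finset Ω, ∃ x, x ∉ cl K s

/-- the coordinates of a tuple -/
def rg {Ω : Type*} [DecidableEq Ω] {ι : Type*} [Fintype ι] (a : ι → Ω) : Finset Ω :=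
  Finset.univ.image a

/-- the coordinates of the vectors `a 0, ..., a e` -/
def rga {Ω : Type*} [DecidableEq Ω] {ι : Type*} [Fintype ι] (a : ℕ → ι → Ω) (e : ℕ) : Finset Ω :=
  (Finset.range (e + 1)).biUnion fun l => rg (a l)

/-- the elements `τ 1, ..., τ (e-1)` -/
def rgt {Ω : Type*} [DecidableEq Ω] (τ : ℕ → Ω) (e : ℕ) : Finset Ω := (Finset.Ico 1 e).image τ

/-- the point `b` is a specialisation of the point `a` over `K` -/
def Spc {Ω' : Type*} [Field Ω'] [Algebra K Ω'] {ι : Type*} (a : ι → Ω) (b : ι → Ω') : Prop :=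
  ∀ p : MvPolynomial ι K, aeval a p = 0 → aeval b p = 0

end Ranks

/-! ### forms and curves -/

section Curves

/-- the monomials of degree `d` in `n + 1` variables -/
abbrev Mon (n d : ℕ) : Type := {m : Fin (n + 1) →₀ ℕ // m.degree = d}

noncomputable instance (n d : ℕ) : Fintype (Mon n d) :=
  Set.Finite.fintype (s := {m : Fin (n + 1) →₀ ℕ | m.degree = d})
    ((Finsupp.finite_of_degree_le (σ := Fin (n + 1)) d).subset
      fun _ hm => le_of_eq (Set.mem_ofPred.mp hm))

variable {A : Type*} [CommRing A] {n d : ℕ}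

/-- the form of degree `d` with coefficients `c` -/
noncomputable def fm (c : Mon n d → A) : MvPolynomial (Fin (n + 1)) A :=
  ∑ m : Mon n d, monomial m.1 (c m)

/-- the polynomials `F_i = ∑_{l ≤ e} (a l i) T^l` -/
noncomputable def cv (a : ℕ → Fin (n + 1) → A) (e : ℕ) (i : Fin (n + 1)) : Polynomial A :=
  ∑ l ∈ Finset.range (e + 1), Polynomial.C (a l i) * Polynomial.X ^ l

/-- the curve `cv a e` lies on `f = 0` -/
def Vanp (f : MvPolynomial (Fin (n + 1)) A) (a : ℕ → Fin (n + 1) → A) (e : ℕ) : Prop :=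
  aeval (cv a e) f = 0

/-- the curve `cv a e` lies on the hypersurface with coefficients `c` -/
def Van (c : Mon n d → A) (a : ℕ → Fin (n + 1) → A) (e : ℕ) : Prop := Vanp (fm c) a e

/-- all partial derivatives of the form vanish along the curve -/
def SingC (c : Mon n d → A) (a : ℕ → Fin (n + 1) → A) (e : ℕ) : Prop :=
  ∀ i, Vanp (pderiv i (fm c)) a e

/-- all partial derivatives of the form vanish at the point -/
def SingP (c : Mon n d → A) (z : Fin (n + 1) → A) : Prop :=
  ∀ i, eval z (pderiv i (fm c)) = 0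

/-- the polynomial `f(g X)` -/
noncomputable def sbs (g : Matrix (Fin (n + 1)) (Fin (n + 1)) A)
    (f : MvPolynomial (Fin (n + 1)) A) : MvPolynomial (Fin (n + 1)) A :=
  aeval (fun i => ∑ j, C (g i j) * X j) f

/-- the coefficients of `f(g X)` -/
noncomputable def act (g : Matrix (Fin (n + 1)) (Fin (n + 1)) A) (c : Mon n d → A) : Mon n d → A :=
  fun m => coeff m.1 (sbs g (fm c))

open Classical in
/-- `1` if the point is singular -/
noncomputable def bet (c : Mon n d → A) (z : Fin (n + 1) → A) : ℕ := if SingP c z then 1 else 0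

open Classical in
/-- `1` if the starting point is singular but the curve is not contained in the singular locus -/
noncomputable def rho (c : Mon n d → A) (a : ℕ → Fin (n + 1) → A) (e : ℕ) : ℕ :=
  if SingP c (a 0) ∧ ¬ SingC c a e then 1 else 0

/-! ### chains in fine coordinates -/

/-- the product of the `τ i ^ (l - i)` for `1 ≤ i < e` (truncated subtraction) -/
def wt (e : ℕ) (τ : ℕ → A) (l : ℕ) : A := ∏ i ∈ Finset.Ico 1 e, τ i ^ (l - i)

/-- the curve seen from the `j`-th place: the coefficient of `T^l` is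
`a l * ∏_{1 ≤ i ≤ j} τ_i^{(i-l)^+} * ∏_{j < i < e} τ_i^{(l-i)^+}` -/
def pcc (j e : ℕ) (τ : ℕ → A) (a : ℕ → Fin (n + 1) → A) (l : ℕ) (i : Fin (n + 1)) : A :=
  a l i * (∏ s ∈ Finset.Ico 1 (j + 1), τ s ^ (s - l)) * ∏ s ∈ Finset.Ico (j + 1) e, τ s ^ (l - s)

/-- all the curves `pcc j`, `j < e`, lie on `f = 0` -/
def FCp (f : MvPolynomial (Fin (n + 1)) A) (τ : ℕ → A) (a : ℕ → Fin (n + 1) → A) (e : ℕ) : Prop :=
  ∀ j < e, Vanp f (pcc j e τ a) e

/-- a form, the `τ i` and the vectors `a l`, as one point -/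
def pt (c : Mon n d → A) (τ : ℕ → A) (a : ℕ → Fin (n + 1) → A) (e : ℕ) :
    Mon n d ⊕ (Fin (e - 1) ⊕ (Fin (e + 1) × Fin (n + 1))) → A :=
  Sum.elim c (Sum.elim (fun i => τ (i + 1)) fun p => a p.1 p.2)

/-- the set of breaks -/
def brk {Ω : Type*} [Field Ω] [DecidableEq Ω] (τ : ℕ → Ω) (e : ℕ) : Finset ℕ :=
  (Finset.Ico 1 e).filter fun i => τ i = 0

/-- the nodes of the chain are nonzero -/
def Nod {Ω : Type*} [Field Ω] [DecidableEq Ω] (τ : ℕ → Ω) (a : ℕ → Fin (n + 1) → Ω) (e : ℕ) :
    Prop :=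
  a 0 ≠ 0 ∧ a e ≠ 0 ∧ ∀ i ∈ brk τ e, a i ≠ 0

end Curves

/-- a primitive vector with respect to a valuation ring -/
def Prim {Ω : Type*} [Field Ω] (O : ValuationSubring Ω) {ι : Type*} (v : ι → Ω) : Prop :=
  (∀ i, v i ∈ O) ∧ ∃ i, v i ≠ 0 ∧ (v i)⁻¹ ∈ O

/-! ### the main notion -/

section Lay

variable (K : Type*) {Ω : Type*} [Field K] [Field Ω] [DecidableEq Ω] [Algebra K Ω] {n d : ℕ}

/-- the spaces of curves of degree `e' ≤ e` through a point have the expected dimension (with one
more dimension allowed at singular points, for curves outside the singular locus) -/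
def Lay (m e : ℕ) (c : Mon n d → Ω) : Prop :=
  ∀ e' ≤ e, ∀ a : ℕ → Fin (n + 1) → Ω, a 0 ≠ 0 → Van c a e' →
    rk K (rg c ∪ rga a e') ≤ rk K (rg c ∪ rg (a 0)) + m * e' + rho c a e'

/-- the closed set generated by the forms which are not layered -/
def NL (m e : ℕ) (c : Mon n d → Ω) : Prop := ∃ c₀ : Mon n d → Ω, ¬ Lay K m e c₀ ∧ Spc K c₀ c

end Lay

end Pool.Agent.Helper30.RY
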