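import Mathlib
import Pool.Agent.Helper30.RY.Base

/-!
# Block RY-CUR: elementary facts on curves, forms and chains

`f` is a homogeneous polynomial, `Vanp f a e` says that `f(F) = 0` for the curve
`F_i = cv a e i = ∑_{l ≤ e} a l i T^l`.

* `vanp_map`: `Polynomial.map φ (aeval (cv a e) f) = aeval (cv (φ ∘ a) e) (map φ f)`.
* `vanp_smul`: for `f` homogeneous of degree `q`, `f(η F) = η^q f(F)`.
* `vanp_scale`: `T ↦ θ T` is a ring automorphism-like map of `A[T]` (`Polynomial.comp`, `scaleRoots`-
  free): `aeval (cv (θ^l a l)) f = (aeval (cv a) f).comp (C θ * X)`; for `θ` invertible this is an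
  equivalence.
* `vanp_rev`: reversal `T^e F(1/T)`, i.e. `a l ↦ a (e - l)`: for `f` homogeneous of degree `q`,
  `f(rev F) = T^{qe} f(F)(1/T)`.  (Over a field one can work in `K(T)` or `K[T, 1/T]`; for a general ring
  use `Polynomial.reverse`/`reflect`, or prove the identity for monomials `f`, where it is
  `Polynomial.reflect` of a product; `Polynomial.reflect_mul`.)
* `vanp_shift`: if the coefficients `a l`, `l < j`, vanish then `F = T^j G` with
  `G = cv (fun l => a (l + j)) (e - j)` and `f(F) = T^{qj} f(G)`.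
* `vanp_trunc`: only the `a l`, `l ≤ e`, matter; if `a l = 0` for `j < l ≤ e` then `e` may be replaced by
  `j`.
* `eval_of_vanp`: the constant coefficient and the leading coefficient: `f(a 0) = 0`, `f(a e) = 0`
  (the coefficient of `T^{qe}` of `f(F)` is `f(a e)`: use `vanp_rev` or the top coefficient).
* `fm_hom`, `pderiv_hom`: `fm c` is homogeneous of degree `d`, its partial derivatives are homogeneous
  of degree `d - 1` (`MvPolynomial.IsHomogeneous.pderiv`).
-/

namespace Pool.Agent.Helper30.RY

open MvPolynomial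

section Ring

variable {A B : Type*} [CommRing A] [CommRing B] {n d : ℕ}

theorem fm_hom (c : Mon n d → A) : (fm c).IsHomogeneous d := by
  unfold fm
  exact IsHomogeneous.sum _ _ _ fun m _ => isHomogeneous_monomial _ m.2

theorem coeff_fm (c : Mon n d → A) (m : Mon n d) : coeff m.1 (fm c) = c m := by
  classical
  unfold fm
  rw [coeff_sum, Finset.sum_eq_single m]
  · rw [coeff_monomial, if_pos rfl]
  · intro b _ hb
    rw [coeff_monomial, if_neg fun h => hb (Subtype.ext h)]
  · intro h
    exact absurd (Finset.mem_univ m) h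

theorem fm_coeff (f : MvPolynomial (Fin (n + 1)) A) (hf : f.IsHomogeneous d) :
    fm (fun m : Mon n d => coeff m.1 f) = f := by
  ext m
  by_cases hm : m.degree = d
  · exact coeff_fm (fun m : Mon n d => coeff m.1 f) ⟨m, hm⟩
  · rw [(fm_hom _).coeff_eq_zero hm, hf.coeff_eq_zero hm]

theorem pderiv_fm_hom (c : Mon n d → A) (i : Fin (n + 1)) :
    (pderiv i (fm c)).IsHomogeneous (d - 1) :=
  (fm_hom c).pderiv

theorem map_fm (φ : A →+* B) (c : Mon n d → A) : map φ (fm c) = fm (fun m => φ (c m)) := by
  unfold fm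
  rw [map_sum]
  refine Finset.sum_congr rfl fun m _ => ?_
  rw [map_monomial]

theorem fm_smul (t : A) (c : Mon n d → A) : fm (fun m => t * c m) = C t * fm c := by
  unfold fm
  rw [Finset.mul_sum]
  refine Finset.sum_congr rfl fun m _ => ?_
  rw [C_mul_monomial]

theorem map_cv (φ : A →+* B) (a : ℕ → Fin (n + 1) → A) (e : ℕ) (i : Fin (n + 1)) :
    (cv a e i).map φ = cv (fun l i => φ (a l i)) e i := by
  unfold cv
  rw [Polynomial.map_sum]
  refine Finset.sum_congr rfl fun l _ => ?_
  rw [Polynomial.map_mul, Polynomial.map_C, Polynomial.map_pow, Polynomial.map_X]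

private theorem key57 (φ : A →+* B) (f : MvPolynomial (Fin (n + 1)) A) (a : ℕ → Fin (n + 1) → A)
    (e : ℕ) : aeval (cv (fun l i => φ (a l i)) e) (map φ f) = (aeval (cv a e) f).map φ := by
  have h1 : cv (fun l i => φ (a l i)) e = fun i => Polynomial.mapRingHom φ (cv a e i) := by
    funext i
    exact (map_cv φ a e i).symm
  rw [h1, aeval_def, eval₂_map, ← Polynomial.coe_mapRingHom, aeval_def, hom_eval₂]
  congr 1
  ext x
  simp

theorem vanp_map (φ : A →+* B) {f : MvPolynomial (Fin (n + 1)) A} {a : ℕ → Fin (n + 1) → A}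
    {e : ℕ} (h : Vanp f a e) : Vanp (map φ f) (fun l i => φ (a l i)) e := by
  unfold Vanp at h ⊢
  rw [key57, h, Polynomial.map_zero]

theorem vanp_of_map (φ : A →+* B) (hφ : Function.Injective φ)
    {f : MvPolynomial (Fin (n + 1)) A} {a : ℕ → Fin (n + 1) → A}
    {e : ℕ} (h : Vanp (map φ f) (fun l i => φ (a l i)) e) : Vanp f a e := by
  unfold Vanp at h ⊢
  rw [key57] at h
  exact Polynomial.map_injective φ hφ (by rw [h, Polynomial.map_zero])

theorem pcc_map (φ : A →+* B) (j e : ℕ) (τ : ℕ → A) (a : ℕ → Fin (n + 1) → A) (l : ℕ)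
    (i : Fin (n + 1)) :
    φ (pcc j e τ a l i) = pcc j e (fun s => φ (τ s)) (fun l i => φ (a l i)) l i := by
  unfold pcc
  simp only [map_mul, map_prod, map_pow]

theorem fcp_map (φ : A →+* B) {f : MvPolynomial (Fin (n + 1)) A} {τ : ℕ → A}
    {a : ℕ → Fin (n + 1) → A} {e : ℕ} (h : FCp f τ a e) :
    FCp (map φ f) (fun s => φ (τ s)) (fun l i => φ (a l i)) e := by
  intro j hj
  have h1 := vanp_map φ (h j hj)
  simp only [pcc_map] at h1
  exact h1

theorem fcp_of_map (φ : A →+* B) (hφ : Function.Injective φ)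
    {f : MvPolynomial (Fin (n + 1)) A} {τ : ℕ → A} {a : ℕ → Fin (n + 1) → A} {e : ℕ}
    (h : FCp (map φ f) (fun s => φ (τ s)) (fun l i => φ (a l i)) e) : FCp f τ a e := by
  intro j hj
  refine vanp_of_map φ hφ ?_
  simp only [pcc_map]
  exact h j hj

theorem vanp_congr {f : MvPolynomial (Fin (n + 1)) A} {a a' : ℕ → Fin (n + 1) → A} {e : ℕ}
    (h : ∀ l ≤ e, ∀ i, a l i = a' l i) : Vanp f a e ↔ Vanp f a' e := by
  have h1 : cv a e = cv a' e := by
    funext i
    unfold cv
    refine Finset.sum_congr rfl fun l hl => ?_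
    rw [Finset.mem_range] at hl
    rw [h l (by omega) i]
  unfold Vanp
  rw [h1]

/-- Homogeneity for values in an algebra. -/
private theorem aev57 {S : Type*} [CommRing S] [Algebra A S] {q : ℕ}
    {f : MvPolynomial (Fin (n + 1)) A} (hf : f.IsHomogeneous q) (t : S) (g : Fin (n + 1) → S) :
    aeval (fun i => t * g i) f = t ^ q * aeval g f := by
  rw [aeval_def, aeval_def, eval₂_eq', eval₂_eq', Finset.mul_sum]
  refine Finset.sum_congr rfl fun m hm => ?_
  have h1 : m.degree = q := by
    by_contra hcon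
    exact (mem_support_iff.mp hm) (hf.coeff_eq_zero hcon)
  have h2 : ∏ i, (t * g i) ^ m i = t ^ q * ∏ i, g i ^ m i := by
    simp only [mul_pow]
    rw [Finset.prod_mul_distrib, Finset.prod_pow_eq_pow_sum]
    congr 2
    rw [← h1, Finsupp.degree_eq_sum]
  rw [h2]
  ring

theorem vanp_smul {q : ℕ} {f : MvPolynomial (Fin (n + 1)) A} (hf : f.IsHomogeneous q) (t : A)
    {a : ℕ → Fin (n + 1) → A} {e : ℕ} (h : Vanp f a e) : Vanp f (fun l i => t * a l i) e := by
  have h1 : cv (fun l i => t * a l i) e = fun i => Polynomial.C t * cv a e i := by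
    funext i
    unfold cv
    rw [Finset.mul_sum]
    refine Finset.sum_congr rfl fun l _ => ?_
    rw [Polynomial.C_mul, mul_assoc]
  unfold Vanp at h ⊢
  rw [h1, aev57 hf, h, mul_zero]

theorem vanp_scale {f : MvPolynomial (Fin (n + 1)) A} (t : A)
    {a : ℕ → Fin (n + 1) → A} {e : ℕ} (h : Vanp f a e) :
    Vanp f (fun l i => t ^ l * a l i) e := by
  have h1 : cv (fun l i => t ^ l * a l i) e =
      fun i => Polynomial.aeval (Polynomial.C t * Polynomial.X) (cv a e i) := by
    funext i
    unfold cv
    rw [map_sum]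
    refine Finset.sum_congr rfl fun l _ => ?_
    simp only [map_mul, map_pow, Polynomial.aeval_X, Polynomial.aeval_C, mul_pow]
    change _ = Polynomial.C (a l i) * _
    ring
  unfold Vanp at h ⊢
  rw [h1, ← comp_aeval_apply, h, map_zero]

private theorem reflpow57 {F : Polynomial A} {e : ℕ} (hF : F.natDegree ≤ e) (k : ℕ) :
    Polynomial.reflect (k * e) (F ^ k) = Polynomial.reflect e F ^ k := by
  induction k with
  | zero =>
    rw [zero_mul, pow_zero, pow_zero, ← Polynomial.C_1, Polynomial.reflect_C, pow_zero, mul_one]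
  | succ k ih =>
    rw [pow_succ, pow_succ, Nat.succ_mul, Polynomial.reflect_mul _ _ _ hF, ih]
    exact (Polynomial.natDegree_pow_le).trans (Nat.mul_le_mul_left k hF)

private theorem reflprod57 {ι : Type*} (s : Finset ι) (G : ι → Polynomial A) (N : ι → ℕ)
    (h : ∀ i ∈ s, (G i).natDegree ≤ N i) :
    Polynomial.reflect (∑ i ∈ s, N i) (∏ i ∈ s, G i) = ∏ i ∈ s, Polynomial.reflect (N i) (G i) := by
  classical
  induction s using Finset.induction_on with
  | empty =>
    rw [Finset.sum_empty, Finset.prod_empty, Finset.prod_empty, ← Polynomial.C_1,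
      Polynomial.reflect_C, pow_zero, mul_one]
  | insert i s hi ih =>
    rw [Finset.sum_insert hi, Finset.prod_insert hi, Finset.prod_insert hi,
      Polynomial.reflect_mul _ _ (h i (Finset.mem_insert_self i s)),
      ih fun j hj => h j (Finset.mem_insert_of_mem hj)]
    refine (Polynomial.natDegree_prod_le s G).trans (Finset.sum_le_sum fun j hj => ?_)
    exact h j (Finset.mem_insert_of_mem hj)

private theorem deg57 (a : ℕ → Fin (n + 1) → A) (e : ℕ) (i : Fin (n + 1)) :
    (cv a e i).natDegree ≤ e := by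
  unfold cv
  refine Polynomial.natDegree_sum_le_of_forall_le _ _ fun l hl => ?_
  rw [Finset.mem_range] at hl
  exact (Polynomial.natDegree_C_mul_X_pow_le _ _).trans (by omega)

private theorem reflcv57 (a : ℕ → Fin (n + 1) → A) (e : ℕ) (i : Fin (n + 1)) :
    Polynomial.reflect e (cv a e i) = cv (fun l => a (e - l)) e i := by
  unfold cv
  have hadd : ∀ s : Finset ℕ, Polynomial.reflect e
      (∑ l ∈ s, Polynomial.C (a l i) * Polynomial.X ^ l) =
      ∑ l ∈ s, Polynomial.reflect e (Polynomial.C (a l i) * Polynomial.X ^ l) := by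
    intro s
    classical
    induction s using Finset.induction_on with
    | empty => rw [Finset.sum_empty, Finset.sum_empty, Polynomial.reflect_zero]
    | insert i s hi ih => rw [Finset.sum_insert hi, Finset.sum_insert hi, Polynomial.reflect_add, ih]
  rw [hadd, ← Finset.sum_range_reflect]
  refine Finset.sum_congr rfl fun l hl => ?_
  rw [Finset.mem_range] at hl
  have h1 : e + 1 - 1 - l = e - l := by omega
  rw [h1, Polynomial.reflect_C_mul_X_pow, Polynomial.revAt_le (by omega)]
  congr 2
  omega

theorem vanp_rev {q : ℕ} {f : MvPolynomial (Fin (n + 1)) A} (hf : f.IsHomogeneous q)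
    {a : ℕ → Fin (n + 1) → A} {e : ℕ} (h : Vanp f a e) : Vanp f (fun l => a (e - l)) e := by
  unfold Vanp at h ⊢
  have h1 : cv (fun l => a (e - l)) e = fun i => Polynomial.reflect e (cv a e i) := by
    funext i
    exact (reflcv57 a e i).symm
  have h2 : aeval (fun i => Polynomial.reflect e (cv a e i)) f =
      Polynomial.reflect (q * e) (aeval (cv a e) f) := by
    rw [aeval_def, aeval_def, eval₂_eq', eval₂_eq']
    have hadd : ∀ (s : Finset (Fin (n + 1) →₀ ℕ)) (G : (Fin (n + 1) →₀ ℕ) → Polynomial A),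
        Polynomial.reflect (q * e) (∑ l ∈ s, G l) = ∑ l ∈ s, Polynomial.reflect (q * e) (G l) := by
      intro s G
      classical
      induction s using Finset.induction_on with
      | empty => rw [Finset.sum_empty, Finset.sum_empty, Polynomial.reflect_zero]
      | insert i s hi ih =>
        rw [Finset.sum_insert hi, Finset.sum_insert hi, Polynomial.reflect_add, ih]
    rw [hadd]
    refine Finset.sum_congr rfl fun m hm => ?_
    have h3 : m.degree = q := by
      by_contra hcon
      exact (mem_support_iff.mp hm) (hf.coeff_eq_zero hcon)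
    have h4 : q * e = ∑ i, m i * e := by
      rw [← h3, Finsupp.degree_eq_sum, Finset.sum_mul]
    change Polynomial.C (coeff m f) * _ = Polynomial.reflect _ (Polynomial.C (coeff m f) * _)
    rw [Polynomial.reflect_C_mul, h4, reflprod57 _ _ _ fun i _ =>
      (Polynomial.natDegree_pow_le).trans (Nat.mul_le_mul_left _ (deg57 a e i))]
    congr 1
    refine Finset.prod_congr rfl fun i _ => ?_
    rw [reflpow57 (deg57 a e i)]
  rw [h1, h2, h, Polynomial.reflect_zero]

theorem vanp_shift {q : ℕ} {f : MvPolynomial (Fin (n + 1)) A} (hf : f.IsHomogeneous q)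
    {a : ℕ → Fin (n + 1) → A} {e j : ℕ} (hj : j ≤ e) (h0 : ∀ l < j, ∀ i, a l i = 0)
    (h : Vanp f a e) : Vanp f (fun l => a (l + j)) (e - j) := by
  unfold Vanp at h ⊢
  have h1 : cv a e = fun i => Polynomial.X ^ j * cv (fun l => a (l + j)) (e - j) i := by
    funext i
    unfold cv
    rw [show e + 1 = j + (e - j + 1) by omega, Finset.sum_range_add,
      Finset.sum_eq_zero fun l hl => by
        rw [Finset.mem_range] at hl
        rw [h0 l hl i, Polynomial.C_0, zero_mul], zero_add, Finset.mul_sum]
    refine Finset.sum_congr rfl fun l _ => ?_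
    rw [add_comm j l, pow_add]
    ring
  rw [h1, aev57 hf, ← pow_mul, mul_comm] at h
  exact Polynomial.mul_X_pow_eq_zero h

theorem vanp_trunc {f : MvPolynomial (Fin (n + 1)) A} {a : ℕ → Fin (n + 1) → A} {e j : ℕ}
    (hj : j ≤ e) (h0 : ∀ l, j < l → l ≤ e → ∀ i, a l i = 0) :
    Vanp f a e ↔ Vanp f a j := by
  have h1 : cv a e = cv a j := by
    funext i
    unfold cv
    symm
    refine Finset.sum_subset (Finset.range_mono (by omega)) fun l hl hl' => ?_
    rw [Finset.mem_range] at hl hl'
    rw [h0 l (by omega) (by omega) i, Polynomial.C_0, zero_mul]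
  unfold Vanp
  rw [h1]

/-- the value of the curve at a point -/
theorem eval_at_of_vanp {f : MvPolynomial (Fin (n + 1)) A} {a : ℕ → Fin (n + 1) → A} {e : ℕ}
    (h : Vanp f a e) (t : A) : eval (fun i => (cv a e i).eval t) f = 0 := by
  unfold Vanp at h
  have h1 := comp_aeval_apply (f := cv a e) (Polynomial.aeval t : Polynomial A →ₐ[A] A) f
  rw [h, map_zero] at h1
  rw [← MvPolynomial.coe_aeval_eq_eval]
  simpa [Polynomial.coe_aeval_eq_eval] using h1.symm

theorem eval_zero_of_vanp {f : MvPolynomial (Fin (n + 1)) A} {a : ℕ → Fin (n + 1) → A} {e : ℕ}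
    (h : Vanp f a e) : eval (a 0) f = 0 := by
  have h1 := eval_at_of_vanp h 0
  have h2 : (fun i => (cv a e i).eval 0) = a 0 := by
    funext i
    unfold cv
    rw [Polynomial.eval_finsetSum, Finset.sum_eq_single 0]
    · simp
    · intro l _ hl
      simp [hl]
    · intro hl
      exact absurd (Finset.mem_range.mpr (Nat.succ_pos e)) hl
  rwa [h2] at h1

theorem eval_top_of_vanp {q : ℕ} {f : MvPolynomial (Fin (n + 1)) A} (hf : f.IsHomogeneous q)
    {a : ℕ → Fin (n + 1) → A} {e : ℕ} (h : Vanp f a e) : eval (a e) f = 0 := by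
  have h1 := eval_zero_of_vanp (vanp_rev hf h)
  simpa using h1

end Ring

end Pool.Agent.Helper30.RY
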