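import Mathlib
import Pool.Agent.Helper30.RY.Base

/-!
# Block RY-TD: the calculus of transcendence degrees of finite sets

`rk K s` is the rank of the finite set `s` in the matroid `AlgebraicIndependent.matroid K Ω`
(see `Mathlib/RingTheory/AlgebraicIndependent/TranscendenceBasis.lean`, `matroid_closure_eq`,
and `Mathlib/Combinatorics/Matroid/Rank/ENat.lean`), `cl K s` is the algebraic closure of `K(s)` in
`Ω`; as a set it is the closure of `s` in the matroid (`closure_eq_cl` below: `matroid_closure_eq`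
uses `Algebra.adjoin` instead of `IntermediateField.adjoin`; an element is algebraic over a domain
iff it is algebraic over the fraction field, e.g. `IsFractionRing.isAlgebraic_iff`, or
`IntermediateField.algebraAdjoin...`).
All ranks of finite sets are finite (`Matroid.eRk_le_encard`), so `rk_coe` holds; everything else
follows from the corresponding statement about `Matroid.eRk` by casting.
`cl_le`: `Matroid.closure_subset_closure_of_subset_closure`.
`mem_cl_of_isAlgebraic`: transitivity of algebraicity (`algebraicClosure` is relatively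
algebraically closed).  `rk_submod`: `eRk_inter_add_eRk_union_le` for `s ∪ t`, `s ∪ u`.
-/

namespace Pool.Agent.Helper30.RY

section

variable (K : Type*) {Ω : Type*} [Field K] [Field Ω] [Algebra K Ω]

theorem rk_coe (s : Finset Ω) :
    ((rk K s : ℕ) : ℕ∞) = (AlgebraicIndependent.matroid K Ω).eRk (s : Set Ω) := by
  unfold rk
  refine ENat.natCast_toNat ?_
  refine ne_top_of_le_ne_top ?_ (Matroid.eRk_le_encard _ _)
  rw [Set.encard_coe_eq_coe_finsetCard]
  exact ENat.natCast_ne_top _

private theorem mem_cl_iff36 {s : Finset Ω} {x : Ω} :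
    x ∈ cl K s ↔ IsAlgebraic (IntermediateField.adjoin K (s : Set Ω)) x := by
  unfold cl
  rw [IntermediateField.mem_restrictScalars]
  exact mem_algebraicClosure_iff

open scoped IntermediateField.algebraAdjoinAdjoin in
theorem closure_eq_cl (s : Finset Ω) :
    (AlgebraicIndependent.matroid K Ω).closure (s : Set Ω) = (cl K s : Set Ω) := by
  rw [AlgebraicIndependent.matroid_closure_eq]
  ext x
  rw [SetLike.mem_coe, SetLike.mem_coe, Subalgebra.mem_algebraicClosure, mem_cl_iff36]
  exact IsFractionRing.isAlgebraic_iff (Algebra.adjoin K (s : Set Ω))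
    (IntermediateField.adjoin K (s : Set Ω)) Ω

theorem mem_cl_iff {s : Finset Ω} {x : Ω} :
    x ∈ cl K s ↔ IsAlgebraic (IntermediateField.adjoin K (s : Set Ω)) x := by
  exact mem_cl_iff36 K

theorem rk_mono {s t : Finset Ω} (h : s ⊆ t) : rk K s ≤ rk K t := by
  have h1 := (AlgebraicIndependent.matroid K Ω).eRk_mono (Finset.coe_subset.2 h)
  rw [← rk_coe, ← rk_coe] at h1
  exact_mod_cast h1

theorem rk_le_card (s : Finset Ω) : rk K s ≤ s.card := by
  have h1 := (AlgebraicIndependent.matroid K Ω).eRk_le_encard (s : Set Ω)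
  rw [← rk_coe, Set.encard_coe_eq_coe_finsetCard] at h1
  exact_mod_cast h1

theorem rk_empty : rk K (∅ : Finset Ω) = 0 := by
  have h1 := rk_le_card K (∅ : Finset Ω)
  rw [Finset.card_empty] at h1
  omega

theorem subset_cl (s : Finset Ω) : ∀ x ∈ s, x ∈ cl K s := by
  intro x hx
  rw [mem_cl_iff]
  exact isAlgebraic_algebraMap (⟨x, IntermediateField.subset_adjoin K (s : Set Ω)
    (Finset.mem_coe.2 hx)⟩ : IntermediateField.adjoin K (s : Set Ω))

theorem cl_le {s t : Finset Ω} (h : ∀ x ∈ s, x ∈ cl K t) : cl K s ≤ cl K t := by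
  have h1 : (s : Set Ω) ⊆ (AlgebraicIndependent.matroid K Ω).closure (t : Set Ω) := by
    intro x hx
    rw [closure_eq_cl]
    exact h x (Finset.mem_coe.1 hx)
  have h2 := Matroid.closure_subset_closure_of_subset_closure h1
  rw [closure_eq_cl, closure_eq_cl] at h2
  exact h2

theorem cl_mono {s t : Finset Ω} (h : s ⊆ t) : cl K s ≤ cl K t := by
  exact cl_le K fun x hx => subset_cl K t x (h hx)

theorem mem_cl_of_isAlgebraic {s : Finset Ω} {x : Ω} (h : IsAlgebraic (cl K s) x) :
    x ∈ cl K s := by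
  rw [mem_cl_iff]
  have h1 : IsAlgebraic (algebraicClosure (IntermediateField.adjoin K (s : Set Ω)) Ω) x := h
  exact h1.restrictScalars _

theorem mem_cl_of_pow_mem {s : Finset Ω} {x : Ω} {e : ℕ} (he : 0 < e) (h : x ^ e ∈ cl K s) :
    x ∈ cl K s := by
  refine mem_cl_of_isAlgebraic K ?_
  exact IsAlgebraic.of_pow he (isAlgebraic_algebraMap (⟨x ^ e, h⟩ : cl K s))

/-- roots of nonzero polynomials with coefficients in `cl K s` are in `cl K s` -/
theorem mem_cl_of_root {s : Finset Ω} {x : Ω} (p : Polynomial Ω) (hp : p ≠ 0)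
    (hc : ∀ i, p.coeff i ∈ cl K s) (hx : p.eval x = 0) : x ∈ cl K s := by
  refine mem_cl_of_isAlgebraic K ?_
  have h1 : p ∈ Polynomial.lifts (algebraMap (cl K s) Ω) := by
    rw [Polynomial.lifts_iff_coeff_lifts]
    intro i
    exact ⟨⟨p.coeff i, hc i⟩, rfl⟩
  obtain ⟨q, hq⟩ := h1
  have hq' : q.map (algebraMap (cl K s) Ω) = p := hq
  refine ⟨q, ?_, ?_⟩
  · rintro rfl
    rw [Polynomial.map_zero] at hq'
    exact hp hq'.symm
  · rw [← Polynomial.eval_map_algebraMap, hq', hx]

theorem rk_le_of_subset_cl {s t : Finset Ω} (h : ∀ x ∈ s, x ∈ cl K t) : rk K s ≤ rk K t := by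
  have h1 : (s : Set Ω) ⊆ (AlgebraicIndependent.matroid K Ω).closure (t : Set Ω) := by
    intro x hx
    rw [closure_eq_cl]
    exact h x (Finset.mem_coe.1 hx)
  have h2 := (AlgebraicIndependent.matroid K Ω).eRk_mono h1
  rw [Matroid.eRk_closure_eq, ← rk_coe, ← rk_coe] at h2
  exact_mod_cast h2

variable [DecidableEq Ω]

theorem rk_insert_of_mem {s : Finset Ω} {x : Ω} (h : x ∈ cl K s) :
    rk K (insert x s) = rk K s := by
  refine le_antisymm (rk_le_of_subset_cl K fun y hy => ?_) (rk_mono K (Finset.subset_insert x s))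
  rcases Finset.mem_insert.1 hy with rfl | hy
  · exact h
  · exact subset_cl K s y hy

theorem rk_insert_of_notMem {s : Finset Ω} {x : Ω} (h : x ∉ cl K s) :
    rk K (insert x s) = rk K s + 1 := by
  have h1 : x ∈ (AlgebraicIndependent.matroid K Ω).E \
      (AlgebraicIndependent.matroid K Ω).closure (s : Set Ω) := by
    rw [closure_eq_cl]
    exact ⟨Set.mem_univ x, h⟩
  have h2 := Matroid.eRk_insert_eq_add_one h1
  rw [← Finset.coe_insert, ← rk_coe, ← rk_coe] at h2
  exact_mod_cast h2

theorem rk_union_of_subset_cl {s t : Finset Ω} (h : ∀ x ∈ t, x ∈ cl K s) :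
    rk K (s ∪ t) = rk K s := by
  refine le_antisymm (rk_le_of_subset_cl K fun y hy => ?_) (rk_mono K Finset.subset_union_left)
  rcases Finset.mem_union.1 hy with hy | hy
  · exact subset_cl K s y hy
  · exact h y hy

theorem rk_union_le_card (s t : Finset Ω) : rk K (s ∪ t) ≤ rk K s + t.card := by
  have h1 := (AlgebraicIndependent.matroid K Ω).eRk_union_le_eRk_add_eRk (s : Set Ω) (t : Set Ω)
  rw [← Finset.coe_union, ← rk_coe, ← rk_coe, ← rk_coe] at h1
  have h2 : rk K (s ∪ t) ≤ rk K s + rk K t := by exact_mod_cast h1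
  have h3 := rk_le_card K t
  omega

theorem rk_union_le (s t : Finset Ω) : rk K (s ∪ t) ≤ rk K s + rk K t := by
  have h1 := (AlgebraicIndependent.matroid K Ω).eRk_union_le_eRk_add_eRk (s : Set Ω) (t : Set Ω)
  rw [← Finset.coe_union, ← rk_coe, ← rk_coe, ← rk_coe] at h1
  exact_mod_cast h1

theorem rk_submod (s t u : Finset Ω) :
    rk K (s ∪ t ∪ u) + rk K s ≤ rk K (s ∪ t) + rk K (s ∪ u) := by
  have h1 := (AlgebraicIndependent.matroid K Ω).eRk_inter_add_eRk_union_le
    ((s ∪ t : Finset Ω) : Set Ω) ((s ∪ u : Finset Ω) : Set Ω)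
  rw [← Finset.coe_union, ← Finset.coe_inter, ← rk_coe, ← rk_coe, ← rk_coe, ← rk_coe] at h1
  have h2 : rk K ((s ∪ t) ∩ (s ∪ u)) + rk K ((s ∪ t) ∪ (s ∪ u)) ≤
      rk K (s ∪ t) + rk K (s ∪ u) := by exact_mod_cast h1
  have h3 : rk K s ≤ rk K ((s ∪ t) ∩ (s ∪ u)) := by
    refine rk_mono K fun x hx => ?_
    rw [Finset.mem_inter, Finset.mem_union, Finset.mem_union]
    exact ⟨Or.inl hx, Or.inl hx⟩
  have h4 : rk K (s ∪ t ∪ u) ≤ rk K ((s ∪ t) ∪ (s ∪ u)) := by
    refine rk_mono K fun x hx => ?_
    simp only [Finset.mem_union] at hx ⊢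
    tauto
  omega

theorem exists_notMem_cl {s t : Finset Ω} (h : rk K s < rk K (s ∪ t)) : ∃ x ∈ t, x ∉ cl K s := by
  by_contra hcon
  push Not at hcon
  rw [rk_union_of_subset_cl K hcon] at h
  exact lt_irrefl _ h

theorem subset_cl_of_rk_le {s t : Finset Ω} (h : rk K (s ∪ t) ≤ rk K s) :
    ∀ x ∈ t, x ∈ cl K s := by
  intro x hx
  by_contra hcon
  have h1 := rk_insert_of_notMem K hcon
  have h2 : rk K (insert x s) ≤ rk K (s ∪ t) := by
    refine rk_mono K fun y hy => ?_
    rw [Finset.mem_union]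
    rcases Finset.mem_insert.1 hy with rfl | hy
    · exact Or.inr hx
    · exact Or.inl hy
  omega

/-- if all elements of `t` are in `cl s` and all elements of `s` are in `cl t`, then the ranks with
any further set agree -/
theorem rk_union_congr {s t : Finset Ω} (h : ∀ x ∈ t, x ∈ cl K s) (h' : ∀ x ∈ s, x ∈ cl K t)
    (u : Finset Ω) : rk K (s ∪ u) = rk K (t ∪ u) := by
  refine le_antisymm (rk_le_of_subset_cl K fun x hx => ?_) (rk_le_of_subset_cl K fun x hx => ?_)
  · rcases Finset.mem_union.1 hx with hx | hx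
    · exact cl_mono K Finset.subset_union_left (h' x hx)
    · exact subset_cl K _ x (Finset.mem_union_right _ hx)
  · rcases Finset.mem_union.1 hx with hx | hx
    · exact cl_mono K Finset.subset_union_left (h x hx)
    · exact subset_cl K _ x (Finset.mem_union_right _ hx)

end

end Pool.Agent.Helper30.RY
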