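import Mathlib
import Pool.Agent.Helper30.RY.Cur
import Pool.Agent.Helper30.RY.Td

/-!
# Block RY-ACT: linear substitutions

`sbs g f = f(g X)`, `act g c` = the coefficients of `fm c (g X)`.

* `sbs_hom`, `fm_act`: substituting linear forms keeps homogeneity; `fm_coeff`.
* `sbs_mul`: `f(g h X) = (f(g X))(h X)`; check on variables (`MvPolynomial.algHom_ext`).
* `vanp_sbs`: `aeval (cv a e) (sbs g f) = aeval (cv (g a) e) f` (`aeval_eq_bind₁`-like computation; both
  sides are algebra homomorphisms in `f`).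
* `pderiv_sbs`: chain rule `∂_i (f(gX)) = ∑_j g j i * (∂_j f)(gX)`; induction on `f`
  (`MvPolynomial.induction_on`) or `pderiv` as a derivation.
* `singC_act`, `singP_act`: the partial derivatives of `f(gX)` vanish along the curve `a` iff those of `f`
  vanish along `g a` (multiply by the inverse matrix `h` of `g`).
* `act_mem_cl`: the coefficients of `f(gX)` are polynomials in those of `f` and the entries of `g` (use
  that `cl K s` is a subring: `fm c` and the linear forms have coefficients in it; e.g. lift to the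
  subring and use `map`).
* `spc_act`: `act g c` is given by universal polynomials: in `R = K[X_m, Y_ij]` consider
  `act Y X : Mon n d → R`; `act` commutes with ring homomorphisms (`act_map`), so `Spc.poly`-like
  argument: a polynomial relation `p(act g c) = 0` is the relation `p(act Y X)` evaluated at `(c, g)`.
-/

namespace Pool.Agent.Helper30.RY

open MvPolynomial

section Ring

variable {A B : Type*} [CommRing A] [CommRing B] {n d q : ℕ}

theorem sbs_hom {f : MvPolynomial (Fin (n + 1)) A} (hf : f.IsHomogeneous q)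
    (g : Matrix (Fin (n + 1)) (Fin (n + 1)) A) : (sbs g f).IsHomogeneous q := by
  have h := hf.aeval (fun i => ∑ j, C (g i j) * X j) (n := 1) (fun i =>
    IsHomogeneous.sum _ _ _ fun j _ => isHomogeneous_C_mul_X _ _)
  rw [one_mul] at h
  exact h

theorem fm_act (g : Matrix (Fin (n + 1)) (Fin (n + 1)) A) (c : Mon n d → A) :
    fm (act g c) = sbs g (fm c) := by
  exact fm_coeff _ (sbs_hom (fm_hom c) g)

/-- substitution commutes with ring homomorphisms -/
private theorem map_sbs67 (φ : A →+* B) (g : Matrix (Fin (n + 1)) (Fin (n + 1)) A)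
    (f : MvPolynomial (Fin (n + 1)) A) : map φ (sbs g f) = sbs (g.map φ) (map φ f) := by
  unfold sbs
  induction f using MvPolynomial.induction_on with
  | C a => rw [algHom_C, algebraMap_eq, map_C, algHom_C, algebraMap_eq]
  | add p q hp hq => rw [map_add, map_add, hp, hq, map_add, map_add]
  | mul_X p k hp =>
    rw [map_mul, map_mul, hp, map_mul, map_mul, map_X, aeval_X, aeval_X, map_sum]
    congr 1
    refine Finset.sum_congr rfl fun j _ => ?_
    rw [map_mul, map_C, map_X, Matrix.map_apply]

theorem act_map (φ : A →+* B) (g : Matrix (Fin (n + 1)) (Fin (n + 1)) A) (c : Mon n d → A)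
    (m : Mon n d) : φ (act g c m) = act (g.map φ) (fun m => φ (c m)) m := by
  unfold act
  rw [← coeff_map, map_sbs67, map_fm]

theorem sbs_mul (g h : Matrix (Fin (n + 1)) (Fin (n + 1)) A)
    (f : MvPolynomial (Fin (n + 1)) A) : sbs (g * h) f = sbs h (sbs g f) := by
  unfold sbs
  rw [comp_aeval_apply]
  congr 2
  funext i
  rw [map_sum]
  simp only [map_mul, aeval_X, algHom_C, algebraMap_eq, Matrix.mul_apply, map_sum, Finset.sum_mul,
    Finset.mul_sum]
  rw [Finset.sum_comm]
  refine Finset.sum_congr rfl fun k _ => Finset.sum_congr rfl fun j _ => ?_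
  ring

theorem sbs_one (f : MvPolynomial (Fin (n + 1)) A) : sbs 1 f = f := by
  unfold sbs
  have h : (fun i => ∑ j, C ((1 : Matrix (Fin (n + 1)) (Fin (n + 1)) A) i j) * X j) =
      (X : Fin (n + 1) → MvPolynomial (Fin (n + 1)) A) := by
    funext i
    rw [Finset.sum_eq_single i]
    · rw [Matrix.one_apply_eq, C_1, one_mul]
    · intro j _ hj
      rw [Matrix.one_apply_ne (Ne.symm hj), C_0, zero_mul]
    · intro h
      exact absurd (Finset.mem_univ i) h
  rw [h, aeval_X_left_apply]

private theorem fm_act67 (g : Matrix (Fin (n + 1)) (Fin (n + 1)) A) (c : Mon n d → A) :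
    fm (fun m : Mon n d => coeff m.1 (sbs g (fm c))) = sbs g (fm c) :=
  fm_coeff _ (sbs_hom (fm_hom c) g)

theorem act_act (g h : Matrix (Fin (n + 1)) (Fin (n + 1)) A) (c : Mon n d → A) :
    act h (act g c) = act (g * h) c := by
  funext m
  unfold act
  rw [fm_act67, ← sbs_mul]

theorem act_one (c : Mon n d → A) : act 1 c = c := by
  funext m
  unfold act
  rw [sbs_one, coeff_fm]

theorem act_smul (t : A) (c : Mon n d → A) :
    act (t • (1 : Matrix (Fin (n + 1)) (Fin (n + 1)) A)) c = fun m => t ^ d * c m := by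
  have h : sbs (t • (1 : Matrix (Fin (n + 1)) (Fin (n + 1)) A)) (fm c) =
      fm (fun m => t ^ d * c m) := by
    unfold sbs fm
    rw [map_sum]
    refine Finset.sum_congr rfl fun m _ => ?_
    have h1 : (fun i => ∑ j, C ((t • (1 : Matrix (Fin (n + 1)) (Fin (n + 1)) A)) i j) * X j) =
        fun i => C t * (X i : MvPolynomial (Fin (n + 1)) A) := by
      funext i
      rw [Finset.sum_eq_single i]
      · rw [Matrix.smul_apply, Matrix.one_apply_eq, smul_eq_mul, mul_one]
      · intro j _ hj
        rw [Matrix.smul_apply, Matrix.one_apply_ne (Ne.symm hj), smul_zero, C_0, zero_mul]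
      · intro h
        exact absurd (Finset.mem_univ i) h
    rw [h1, aeval_monomial, monomial_eq, Finsupp.prod_fintype _ _ (fun _ => pow_zero _),
      Finsupp.prod_fintype _ _ (fun _ => pow_zero _), algebraMap_eq, C_mul, C_pow]
    simp only [mul_pow]
    rw [Finset.prod_mul_distrib, Finset.prod_pow_eq_pow_sum]
    have h2 : ∑ i, m.1 i = d := by
      rw [← Finsupp.degree_eq_sum]
      exact m.2
    rw [h2]
    ring
  funext m
  unfold act
  rw [h, coeff_fm]

private theorem aeval_cv_sbs67 (g : Matrix (Fin (n + 1)) (Fin (n + 1)) A)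
    (f : MvPolynomial (Fin (n + 1)) A) (a : ℕ → Fin (n + 1) → A) (e : ℕ) :
    aeval (cv a e) (sbs g f) = aeval (cv (fun l => g.mulVec (a l)) e) f := by
  unfold sbs
  rw [comp_aeval_apply]
  congr 2
  funext i
  rw [map_sum]
  simp only [map_mul, aeval_X, aeval_C]
  unfold cv
  simp only [Finset.mul_sum, Matrix.mulVec, dotProduct, map_sum, Finset.sum_mul]
  rw [Finset.sum_comm]
  refine Finset.sum_congr rfl fun l _ => Finset.sum_congr rfl fun j _ => ?_
  rw [Polynomial.algebraMap_eq, Polynomial.C_mul, mul_assoc]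

theorem vanp_sbs (g : Matrix (Fin (n + 1)) (Fin (n + 1)) A) (f : MvPolynomial (Fin (n + 1)) A)
    (a : ℕ → Fin (n + 1) → A) (e : ℕ) :
    Vanp (sbs g f) a e ↔ Vanp f (fun l => g.mulVec (a l)) e := by
  unfold Vanp
  rw [aeval_cv_sbs67]

theorem van_act (g : Matrix (Fin (n + 1)) (Fin (n + 1)) A) (c : Mon n d → A)
    (a : ℕ → Fin (n + 1) → A) (e : ℕ) :
    Van (act g c) a e ↔ Van c (fun l => g.mulVec (a l)) e := by
  unfold Van
  rw [fm_act, vanp_sbs]

theorem eval_sbs (g : Matrix (Fin (n + 1)) (Fin (n + 1)) A) (f : MvPolynomial (Fin (n + 1)) A)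
    (z : Fin (n + 1) → A) : eval z (sbs g f) = eval (g.mulVec z) f := by
  rw [← coe_aeval_eq_eval, ← coe_aeval_eq_eval]
  change aeval z (aeval _ f) = aeval (g.mulVec z) f
  rw [comp_aeval_apply]
  congr 2
  funext i
  rw [map_sum]
  simp only [map_mul, aeval_X, aeval_C, Algebra.algebraMap_self, RingHom.id_apply]
  rfl

theorem pderiv_sbs (g : Matrix (Fin (n + 1)) (Fin (n + 1)) A) (f : MvPolynomial (Fin (n + 1)) A)
    (i : Fin (n + 1)) : pderiv i (sbs g f) = ∑ j, C (g j i) * sbs g (pderiv j f) := by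
  induction f using MvPolynomial.induction_on with
  | C a =>
    have h : sbs g (C a : MvPolynomial (Fin (n + 1)) A) = C a := by
      unfold sbs
      rw [algHom_C, algebraMap_eq]
    rw [h, pderiv_C, Finset.sum_eq_zero]
    intro j _
    rw [pderiv_C]
    unfold sbs
    rw [map_zero, mul_zero]
  | add p q hp hq =>
    have h : ∀ p q : MvPolynomial (Fin (n + 1)) A, sbs g (p + q) = sbs g p + sbs g q := by
      intro p q
      unfold sbs
      rw [map_add]
    rw [h, map_add, hp, hq, ← Finset.sum_add_distrib]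
    refine Finset.sum_congr rfl fun j _ => ?_
    rw [map_add, h, mul_add]
  | mul_X p k hp =>
    have h : ∀ p q : MvPolynomial (Fin (n + 1)) A, sbs g (p + q) = sbs g p + sbs g q := by
      intro p q
      unfold sbs
      rw [map_add]
    have hm : ∀ p q : MvPolynomial (Fin (n + 1)) A, sbs g (p * q) = sbs g p * sbs g q := by
      intro p q
      unfold sbs
      rw [map_mul]
    have hX : pderiv i (sbs g (X k : MvPolynomial (Fin (n + 1)) A)) = C (g k i) := by
      unfold sbs
      rw [aeval_X, map_sum, Finset.sum_eq_single i]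
      · rw [pderiv_C_mul, pderiv_X_self, mul_one]
      · intro j _ hj
        rw [pderiv_C_mul, pderiv_X_of_ne hj, mul_zero]
      · intro h
        exact absurd (Finset.mem_univ i) h
    have h1 : ∀ j, C (g j i) * sbs g (pderiv j (p * X k)) =
        C (g j i) * sbs g (pderiv j p) * sbs g (X k) +
          (if j = k then C (g j i) * sbs g p else 0) := by
      intro j
      rw [pderiv_mul, h, hm, hm]
      by_cases hj : j = k
      · rw [if_pos hj, hj, pderiv_X_self]
        have h2 : sbs g (1 : MvPolynomial (Fin (n + 1)) A) = 1 := by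
          unfold sbs
          rw [map_one]
        rw [h2]
        ring
      · rw [if_neg hj, pderiv_X_of_ne (Ne.symm hj)]
        have h2 : sbs g (0 : MvPolynomial (Fin (n + 1)) A) = 0 := by
          unfold sbs
          rw [map_zero]
        rw [h2]
        ring
    rw [Finset.sum_congr rfl fun j _ => h1 j, Finset.sum_add_distrib, ← Finset.sum_mul, ← hp,
      Finset.sum_ite_eq' Finset.univ k, if_pos (Finset.mem_univ k), hm, pderiv_mul, hX]
    ring

/-- multiplication by the transpose of an invertible matrix -/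
private theorem inv67 {S : Type*} [CommRing S] [Algebra A S]
    {g h : Matrix (Fin (n + 1)) (Fin (n + 1)) A} (hgh : g * h = 1) (D : Fin (n + 1) → S) :
    (∀ i, ∑ j, algebraMap A S (g j i) * D j = 0) ↔ ∀ j, D j = 0 := by
  constructor
  · intro H k
    have h1 : ∑ i, algebraMap A S (h i k) * ∑ j, algebraMap A S (g j i) * D j = 0 :=
      Finset.sum_eq_zero fun i _ => by rw [H i, mul_zero]
    simp only [Finset.mul_sum] at h1
    rw [Finset.sum_comm] at h1
    have h2 : ∀ j, ∑ i, algebraMap A S (h i k) * (algebraMap A S (g j i) * D j) =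
        algebraMap A S ((g * h) j k) * D j := by
      intro j
      rw [Matrix.mul_apply, map_sum, Finset.sum_mul]
      refine Finset.sum_congr rfl fun i _ => ?_
      rw [map_mul]
      ring
    rw [Finset.sum_congr rfl fun j _ => h2 j, hgh, Finset.sum_eq_single k] at h1
    · rw [Matrix.one_apply_eq, map_one, one_mul] at h1
      exact h1
    · intro j _ hj
      rw [Matrix.one_apply_ne hj, map_zero, zero_mul]
    · intro h
      exact absurd (Finset.mem_univ k) h
  · intro H i
    exact Finset.sum_eq_zero fun j _ => by rw [H j, mul_zero]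

theorem singC_act {g h : Matrix (Fin (n + 1)) (Fin (n + 1)) A} (hgh : g * h = 1)
    (c : Mon n d → A) (a : ℕ → Fin (n + 1) → A) (e : ℕ) :
    SingC (act g c) a e ↔ SingC c (fun l => g.mulVec (a l)) e := by
  have h1 : ∀ i, aeval (cv a e) (pderiv i (fm (act g c))) =
      ∑ j, algebraMap A (Polynomial A) (g j i) *
        aeval (cv (fun l => g.mulVec (a l)) e) (pderiv j (fm c)) := by
    intro i
    rw [fm_act, pderiv_sbs, map_sum]
    refine Finset.sum_congr rfl fun j _ => ?_
    rw [map_mul, aeval_C, aeval_cv_sbs67]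
  unfold SingC Vanp
  rw [← inv67 hgh (fun j => aeval (cv (fun l => g.mulVec (a l)) e) (pderiv j (fm c)))]
  refine forall_congr' fun i => ?_
  rw [h1]

theorem singP_act {g h : Matrix (Fin (n + 1)) (Fin (n + 1)) A} (hgh : g * h = 1)
    (c : Mon n d → A) (z : Fin (n + 1) → A) :
    SingP (act g c) z ↔ SingP c (g.mulVec z) := by
  have h1 : ∀ i, eval z (pderiv i (fm (act g c))) =
      ∑ j, algebraMap A A (g j i) * eval (g.mulVec z) (pderiv j (fm c)) := by
    intro i
    rw [fm_act, pderiv_sbs, map_sum]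
    refine Finset.sum_congr rfl fun j _ => ?_
    rw [map_mul, eval_C, eval_sbs]
    rfl
  unfold SingP
  rw [← inv67 hgh (fun j => eval (g.mulVec z) (pderiv j (fm c)))]
  refine forall_congr' fun i => ?_
  rw [h1]

theorem rho_act {g h : Matrix (Fin (n + 1)) (Fin (n + 1)) A} (hgh : g * h = 1)
    (c : Mon n d → A) (a : ℕ → Fin (n + 1) → A) (e : ℕ) :
    rho (act g c) a e = rho c (fun l => g.mulVec (a l)) e := by
  unfold rho
  have h1 := and_congr (singP_act hgh c (a 0)) (not_congr (singC_act hgh c a e))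
  by_cases h2 : SingP c (g.mulVec (a 0)) ∧ ¬ SingC c (fun l => g.mulVec (a l)) e
  · rw [if_pos h2, if_pos (h1.2 h2)]
  · rw [if_neg h2, if_neg (fun h3 => h2 (h1.1 h3))]

end Ring

section Field

variable {K : Type*} [Field K] {Ω : Type*} [Field Ω] [Algebra K Ω] {Ω' : Type*} [Field Ω']
  [Algebra K Ω'] {n d : ℕ}

theorem act_mem_cl {s : Finset Ω} {g : Matrix (Fin (n + 1)) (Fin (n + 1)) Ω} {c : Mon n d → Ω}
    (hg : ∀ i j, g i j ∈ cl K s) (hc : ∀ m, c m ∈ cl K s) (m : Mon n d) :
    act g c m ∈ cl K s := by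
  have h := act_map (algebraMap (cl K s) Ω)
    (Matrix.of fun i j => (⟨g i j, hg i j⟩ : cl K s)) (fun m => (⟨c m, hc m⟩ : cl K s)) m
  have h1 : (Matrix.of fun i j => (⟨g i j, hg i j⟩ : cl K s)).map (algebraMap (cl K s) Ω) = g := by
    ext i j
    rfl
  rw [h1] at h
  change algebraMap (cl K s) Ω _ = act g c m at h
  rw [← h]
  exact SetLike.coe_mem _

/-- the universal substitution -/
private theorem univ67 {Ω₁ : Type*} [Field Ω₁] [Algebra K Ω₁] (p : MvPolynomial (Mon n d) K)
    (P : MvPolynomial (Mon n d ⊕ Fin (n + 1) × Fin (n + 1)) K)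
    (hP : P = aeval (act (Matrix.of fun i j => (X (Sum.inr (i, j)) :
      MvPolynomial (Mon n d ⊕ Fin (n + 1) × Fin (n + 1)) K)) fun m => X (Sum.inl m)) p)
    (c : Mon n d → Ω₁) (g : Matrix (Fin (n + 1)) (Fin (n + 1)) Ω₁) :
    aeval (Sum.elim c fun p : Fin (n + 1) × Fin (n + 1) => g p.1 p.2) P = aeval (act g c) p := by
  rw [hP, comp_aeval_apply]
  congr 2
  funext m
  have h := act_map (aeval (Sum.elim c fun p : Fin (n + 1) × Fin (n + 1) => g p.1 p.2) :
    MvPolynomial (Mon n d ⊕ Fin (n + 1) × Fin (n + 1)) K →ₐ[K] Ω₁).toRingHom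
    (Matrix.of fun i j => (X (Sum.inr (i, j)) :
      MvPolynomial (Mon n d ⊕ Fin (n + 1) × Fin (n + 1)) K)) (fun m => X (Sum.inl m)) m
  refine Eq.trans h ?_
  have h1 : (Matrix.of fun i j => (X (Sum.inr (i, j)) :
      MvPolynomial (Mon n d ⊕ Fin (n + 1) × Fin (n + 1)) K)).map
      (aeval (Sum.elim c fun p : Fin (n + 1) × Fin (n + 1) => g p.1 p.2) :
        MvPolynomial (Mon n d ⊕ Fin (n + 1) × Fin (n + 1)) K →ₐ[K] Ω₁).toRingHom = g := by
    ext i j
    rw [Matrix.map_apply, Matrix.of_apply]
    exact aeval_X _ _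
  have h2 : (fun m => (aeval (Sum.elim c fun p : Fin (n + 1) × Fin (n + 1) => g p.1 p.2) :
      MvPolynomial (Mon n d ⊕ Fin (n + 1) × Fin (n + 1)) K →ₐ[K] Ω₁).toRingHom
      (X (Sum.inl m) : MvPolynomial (Mon n d ⊕ Fin (n + 1) × Fin (n + 1)) K)) = c := by
    funext m
    exact aeval_X _ _
  rw [h1, h2]

theorem spc_act {c : Mon n d → Ω} {g : Matrix (Fin (n + 1)) (Fin (n + 1)) Ω} {c' : Mon n d → Ω'}
    {g' : Matrix (Fin (n + 1)) (Fin (n + 1)) Ω'}
    (h : Spc K (Sum.elim c fun p : Fin (n + 1) × Fin (n + 1) => g p.1 p.2)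
      (Sum.elim c' fun p : Fin (n + 1) × Fin (n + 1) => g' p.1 p.2)) :
    Spc K (act g c) (act g' c') := by
  intro p hp
  obtain ⟨P, hP⟩ : ∃ P, P = aeval (act (Matrix.of fun i j => (X (Sum.inr (i, j)) :
      MvPolynomial (Mon n d ⊕ Fin (n + 1) × Fin (n + 1)) K)) fun m => X (Sum.inl m)) p := ⟨_, rfl⟩
  have h2 := h P (by rw [univ67 p P hP c g]; exact hp)
  rwa [univ67 p P hP c' g'] at h2

end Field

end Pool.Agent.Helper30.RY
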