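import Mathlib
import Pool.Agent.Helper30.RY.Td

/-!
# Block RY-GEN: generic tuples

`t` is generic over the finite set `s` if `rk K (s ∪ rg t) = rk K s + card ι`.

* `exists_generic`: by induction on the finite type `ι` (e.g. for `Fin N`, then transport along
  an equivalence): choose the elements one after the other outside `cl` (`Big`), `rk_insert_of_notMem`.
* `generic_injective`, `generic_notMem`: if `t i ∈ cl K (s ∪ {t j, j ≠ i})` then the rank of
  `s ∪ rg t` would be at most `rk s + (card ι - 1)` (`rk_union_le_card`).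
* `algInd_of_generic`: the tuple `t` is algebraically independent over the field `cl K s`: otherwise
  some `t i` is algebraic over `(cl K s)(t j, j ≠ i)` (e.g. `AlgebraicIndependent` is equivalent
  to: independent in the matroid; or by induction with `algebraicIndependent_fin_succ`-like
  lemmas, `AlgebraicIndependent.option_iff...`), hence in `cl K (s ∪ {t j, j ≠ i})`.
* `eval_ne_zero_of_generic`: `p` comes from a nonzero polynomial over `cl K s`.
-/

namespace Pool.Agent.Helper30.RY

open MvPolynomial

variable (K : Type*) {Ω : Type*} [Field K] [Field Ω] [Algebra K Ω] [DecidableEq Ω]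

theorem exists_generic (hb : Big K Ω) (s : Finset Ω) (ι : Type*) [Fintype ι] :
    ∃ t : ι → Ω, rk K (s ∪ rg t) = rk K s + Fintype.card ι := by
  have h1 : ∀ n : ℕ, ∃ t : Fin n → Ω, rk K (s ∪ rg t) = rk K s + n := by
    intro n
    induction n with
    | zero =>
      refine ⟨fun i => i.elim0, ?_⟩
      have e : rg (fun i : Fin 0 => (i.elim0 : Ω)) = ∅ := rfl
      rw [e, Finset.union_empty, Nat.add_zero]
    | succ n ih =>
      obtain ⟨t, ht⟩ := ih
      obtain ⟨x, hx⟩ := hb (s ∪ rg t)
      refine ⟨Fin.snoc t x, ?_⟩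
      have e : rg (Fin.snoc t x : Fin (n + 1) → Ω) = insert x (rg t) := by
        ext y
        simp only [rg, Finset.mem_image, Finset.mem_univ, true_and, Finset.mem_insert]
        constructor
        · rintro ⟨i, rfl⟩
          refine Fin.lastCases ?_ (fun j => ?_) i
          · left; rw [Fin.snoc_last]
          · right; exact ⟨j, by rw [Fin.snoc_castSucc]⟩
        · rintro (rfl | ⟨j, rfl⟩)
          · exact ⟨Fin.last n, by rw [Fin.snoc_last]⟩
          · exact ⟨j.castSucc, by rw [Fin.snoc_castSucc]⟩
      rw [e, Finset.union_insert, rk_insert_of_notMem K hx, ht]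
      ring
  obtain ⟨t, ht⟩ := h1 (Fintype.card ι)
  refine ⟨t ∘ Fintype.equivFin ι, ?_⟩
  have e : rg (t ∘ Fintype.equivFin ι) = rg t := by
    ext y
    simp only [rg, Finset.mem_image, Finset.mem_univ, true_and, Function.comp]
    exact ⟨fun ⟨i, hi⟩ => ⟨_, hi⟩, fun ⟨i, hi⟩ => ⟨(Fintype.equivFin ι).symm i, by
      rw [Equiv.apply_symm_apply, hi]⟩⟩
  rw [e, ht]

variable {K} {s : Finset Ω} {ι : Type*} [Fintype ι] {t : ι → Ω}

theorem generic_injective (ht : rk K (s ∪ rg t) = rk K s + Fintype.card ι) :
    Function.Injective t := by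
  have h1 := rk_union_le_card K s (rg t)
  have h2 : (rg t).card ≤ Fintype.card ι := Finset.card_image_le
  have h3 : (Finset.univ.image t).card = (Finset.univ : Finset ι).card := by
    rw [ht] at h1
    exact le_antisymm Finset.card_image_le (Nat.le_of_add_le_add_left h1)
  exact fun x y h => Finset.card_image_iff.1 h3 (Finset.mem_coe.2 (Finset.mem_univ x))
    (Finset.mem_coe.2 (Finset.mem_univ y)) h

theorem generic_notMem [DecidableEq ι] (ht : rk K (s ∪ rg t) = rk K s + Fintype.card ι) (i : ι) :
    t i ∉ cl K (s ∪ (Finset.univ.erase i).image t) := by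
  intro h
  have e : s ∪ rg t = insert (t i) (s ∪ (Finset.univ.erase i).image t) := by
    ext y
    simp only [rg, Finset.mem_union, Finset.mem_insert, Finset.mem_image, Finset.mem_univ,
      Finset.mem_erase, true_and, and_true]
    constructor
    · rintro (h | ⟨j, rfl⟩)
      · exact Or.inr (Or.inl h)
      · by_cases hj : j = i
        · subst hj; exact Or.inl rfl
        · exact Or.inr (Or.inr ⟨j, hj, rfl⟩)
    · rintro (rfl | h | ⟨j, _, rfl⟩)
      · exact Or.inr ⟨i, rfl⟩
      · exact Or.inl h
      · exact Or.inr ⟨j, rfl⟩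
  have h1 := rk_union_le_card K s ((Finset.univ.erase i).image t)
  have h2 : ((Finset.univ.erase i).image t).card ≤ (Finset.univ.erase i).card :=
    Finset.card_image_le
  have h3 : (Finset.univ.erase i).card < Fintype.card ι := by
    rw [← Finset.card_univ]
    exact Finset.card_erase_lt_of_mem (Finset.mem_univ i)
  rw [e, rk_insert_of_mem K h] at ht
  omega

/-- a generic tuple over `s` is generic over any `s'` contained in `cl s` -/
theorem generic_of_subset_cl (ht : rk K (s ∪ rg t) = rk K s + Fintype.card ι) {s' : Finset Ω}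
    (h : ∀ x ∈ s', x ∈ cl K s) : rk K (s' ∪ rg t) = rk K s' + Fintype.card ι := by
  have h1 := rk_union_le_card K s' (rg t)
  have h2 : (rg t).card ≤ Fintype.card ι := Finset.card_image_le
  have h3 := rk_submod K s' s (rg t)
  have h4 : rk K (s' ∪ s) = rk K s := by
    rw [Finset.union_comm]
    exact rk_union_of_subset_cl K h
  have h5 : rk K (s ∪ rg t) ≤ rk K (s' ∪ s ∪ rg t) := by
    refine rk_mono K ?_
    exact Finset.union_subset_union_left Finset.subset_union_right
  omega

/-- a part of a generic tuple is generic -/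
theorem generic_comp (ht : rk K (s ∪ rg t) = rk K s + Fintype.card ι) {κ : Type*} [Fintype κ]
    (g : κ → ι) (hg : Function.Injective g) :
    rk K (s ∪ rg (t ∘ g)) = rk K s + Fintype.card κ := by
  classical
  have h1 := rk_union_le_card K s (rg (t ∘ g))
  have h2 : (rg (t ∘ g)).card ≤ Fintype.card κ := Finset.card_image_le
  have h3 := rk_union_le_card K (s ∪ rg (t ∘ g)) ((Finset.univ \ Finset.univ.image g).image t)
  have h4 : ((Finset.univ \ Finset.univ.image g).image t).card ≤
      (Finset.univ \ Finset.univ.image g).card := Finset.card_image_le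
  have h5 : (Finset.univ \ Finset.univ.image g).card = Fintype.card ι - Fintype.card κ := by
    rw [Finset.card_sdiff_of_subset (Finset.subset_univ _), Finset.card_image_of_injective _ hg,
      Finset.card_univ, Finset.card_univ]
  have h6 : Fintype.card κ ≤ Fintype.card ι := Fintype.card_le_of_injective g hg
  have h7 : s ∪ rg t ⊆ s ∪ rg (t ∘ g) ∪ (Finset.univ \ Finset.univ.image g).image t := by
    intro y hy
    rcases Finset.mem_union.1 hy with hy | hy
    · exact Finset.mem_union_left _ (Finset.mem_union_left _ hy)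
    · obtain ⟨i, _, rfl⟩ := Finset.mem_image.1 hy
      by_cases hi : i ∈ Finset.univ.image g
      · obtain ⟨j, _, rfl⟩ := Finset.mem_image.1 hi
        exact Finset.mem_union_left _ (Finset.mem_union_right _
          (Finset.mem_image.2 ⟨j, Finset.mem_univ j, rfl⟩))
      · exact Finset.mem_union_right _ (Finset.mem_image.2 ⟨i,
          Finset.mem_sdiff.2 ⟨Finset.mem_univ i, hi⟩, rfl⟩)
  have h8 := rk_mono K h7
  omega

theorem algInd_of_generic (ht : rk K (s ∪ rg t) = rk K s + Fintype.card ι) :
    AlgebraicIndependent (cl K s) t := by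
  classical
  refine algebraicIndependent_of_finite_type' (FaithfulSMul.algebraMap_injective (cl K s) Ω) ?_
  intro F _ _ i hi halg
  refine generic_notMem ht i ?_
  obtain ⟨p, hp, hpx⟩ := halg
  -- the ring is contained in the closure
  have h1 : ∀ x ∈ Algebra.adjoin (cl K s) (t '' F),
      x ∈ cl K (s ∪ (Finset.univ.erase i).image t) := by
    intro x hx
    induction hx using Algebra.adjoin_induction with
    | mem x hx =>
      obtain ⟨j, hj, rfl⟩ := hx
      refine subset_cl K _ _ (Finset.mem_union_right _ (Finset.mem_image.2 ⟨j, ?_, rfl⟩))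
      exact Finset.mem_erase.2 ⟨fun h => hi (h ▸ hj), Finset.mem_univ j⟩
    | algebraMap r => exact cl_mono K Finset.subset_union_left r.2
    | add x y _ _ hx hy => exact add_mem hx hy
    | mul x y _ _ hx hy => exact mul_mem hx hy
  refine mem_cl_of_root K (p.map (algebraMap _ Ω)) ?_ (fun k => ?_) ?_
  · exact (Polynomial.map_ne_zero_iff (FaithfulSMul.algebraMap_injective _ Ω)).2 hp
  · rw [Polynomial.coeff_map]
    exact h1 _ (p.coeff k).2
  · rw [Polynomial.eval_map_algebraMap]
    exact hpx

theorem eval_ne_zero_of_generic (ht : rk K (s ∪ rg t) = rk K s + Fintype.card ι)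
    (p : MvPolynomial ι Ω) (hp : p ≠ 0) (hc : ∀ m, coeff m p ∈ cl K s) : eval t p ≠ 0 := by
  have h1 : p ∈ Set.range (MvPolynomial.map (σ := ι) (algebraMap (cl K s) Ω)) := by
    rw [MvPolynomial.mem_range_map_iff_coeffs_subset]
    intro x hx
    obtain ⟨m, _, rfl⟩ := MvPolynomial.mem_coeffs_iff.1 (Finset.mem_coe.1 hx)
    exact ⟨⟨_, hc m⟩, rfl⟩
  obtain ⟨q, rfl⟩ := h1
  rw [MvPolynomial.eval_map]
  intro h
  have h2 := algebraicIndependent_iff.1 (algInd_of_generic ht) q h
  rw [h2, map_zero] at hp
  exact hp rfl

end Pool.Agent.Helper30.RY
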