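import Mathlib
import Pool.Agent.Helper30.RY.Gen

/-!
# Block RY-BCH: change of the base field

`K' = K(s)` for a finite set `s` in `Ω`.

* `mem_cl_adjoin`: an element is algebraic over `K'(t) = K(s ∪ t)`
  (`IntermediateField.adjoin_adjoin_left`, `mem_cl_iff`; the algebra structures
  on `Ω` agree).
* `rk_adjoin`: from `mem_cl_adjoin` by adding the elements of `t` one after the other
  (`rk_insert_of_mem`, `rk_insert_of_notMem` over both fields).
* `big_adjoin`: from `mem_cl_adjoin`.
-/

namespace Pool.Agent.Helper30.RY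

variable (K : Type*) {Ω : Type*} [Field K] [Field Ω] [Algebra K Ω] [DecidableEq Ω]

theorem mem_cl_adjoin (s t : Finset Ω) (x : Ω) :
    x ∈ cl (IntermediateField.adjoin K (s : Set Ω)) t ↔ x ∈ cl K (s ∪ t) := by
  rw [mem_cl_iff, mem_cl_iff, Finset.coe_union, ← IntermediateField.adjoin_adjoin_left]
  exact Iff.rfl

theorem rk_adjoin (s t : Finset Ω) :
    rk (IntermediateField.adjoin K (s : Set Ω)) t + rk K s = rk K (s ∪ t) := by
  induction t using Finset.induction_on with
  | empty => rw [rk_empty, Nat.zero_add, Finset.union_empty]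
  | insert a t _ ih =>
    rw [Finset.union_insert]
    by_cases h : a ∈ cl (IntermediateField.adjoin K (s : Set Ω)) t
    · rw [rk_insert_of_mem _ h, ih, rk_insert_of_mem K ((mem_cl_adjoin K s t a).1 h)]
    · rw [rk_insert_of_notMem _ h, rk_insert_of_notMem K (fun h' => h ((mem_cl_adjoin K s t a).2 h')),
        ← ih]
      omega

theorem big_adjoin (hb : Big K Ω) (s : Finset Ω) :
    Big (IntermediateField.adjoin K (s : Set Ω)) Ω := by
  intro t
  obtain ⟨x, hx⟩ := hb (s ∪ t)
  exact ⟨x, fun h => hx ((mem_cl_adjoin K s t x).1 h)⟩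

/-- a specialisation over a bigger field is a specialisation over `K` -/
theorem Spc.restrict {K : Type*} {Ω Ω' : Type*} [Field K] [Field Ω] [Algebra K Ω] [Field Ω']
    [Algebra K Ω'] (K' : Type*) [Field K'] [Algebra K K'] [Algebra K' Ω] [Algebra K' Ω']
    [IsScalarTower K K' Ω] [IsScalarTower K K' Ω'] {ι : Type*} {a : ι → Ω} {b : ι → Ω'}
    (h : Spc K' a b) : Spc K a b := by
  intro p hp
  rw [← MvPolynomial.aeval_map_algebraMap K'] at hp ⊢
  exact h _ hp

end Pool.Agent.Helper30.RY
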