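import Mathlib
import Pool.Agent.Helper30.RY.Bch

/-!
# Block RY-BCL: change of the base field to an algebraically closed one

`cl K Z` is the algebraic closure of `K(Z)` in `Ω`.

* `mem_cl_cl`: an element is algebraic over `(cl K Z)(X)` iff it is algebraic over `K(Z ∪ X)`
  (`cl K Z` is algebraic over `K(Z)`, `cl K Z ≤ cl K (Z ∪ X)`, `mem_cl_of_isAlgebraic`).
* `rk_cl`: add the elements of `X` one after the other (as in `rk_adjoin`).
* `isAlgClosed_cl`: `Ω` is algebraically closed and `cl K Z` is relatively algebraically closed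
  (`algebraicClosure.isAlgClosure`, or: a root in `Ω` of a polynomial over `cl K Z` is in `cl K Z`).
* `cl_empty`: if `K` is algebraically closed then `cl K ∅` is the image of `K`.
-/

namespace Pool.Agent.Helper30.RY

variable (K : Type*) {Ω : Type*} [Field K] [Field Ω] [Algebra K Ω]

/-- an element algebraic over an intermediate field is a root of a nonzero polynomial with
coefficients in this field -/
private theorem root33 {K : Type*} {Ω : Type*} [Field K] [Field Ω] [Algebra K Ω]
    (F : IntermediateField K Ω) {x : Ω} (h : IsAlgebraic F x) :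
    ∃ p : Polynomial Ω, p ≠ 0 ∧ (∀ i, p.coeff i ∈ F) ∧ p.eval x = 0 := by
  obtain ⟨q, hq, hx⟩ := h
  refine ⟨q.map (algebraMap F Ω), ?_, fun i => ?_, ?_⟩
  · rwa [Ne, Polynomial.map_eq_zero]
  · rw [Polynomial.coeff_map]
    exact (q.coeff i).2
  · rw [Polynomial.eval_map_algebraMap]
    exact hx

theorem isAlgClosed_cl [IsAlgClosed Ω] (Z : Finset Ω) : IsAlgClosed (cl K Z) := by
  refine IsAlgClosed.of_exists_root _ fun p hp hirr => ?_
  have hd : (p.map (algebraMap (cl K Z) Ω)).degree ≠ 0 := by
    rw [Polynomial.degree_map]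
    exact (Polynomial.degree_pos_of_irreducible hirr).ne'
  obtain ⟨x, hx⟩ := IsAlgClosed.exists_root _ hd
  have hx' : x ∈ cl K Z := by
    refine mem_cl_of_root K (p.map (algebraMap (cl K Z) Ω)) ?_ (fun i => ?_) hx
    · rw [Ne, Polynomial.map_eq_zero]
      exact hirr.ne_zero
    · rw [Polynomial.coeff_map]
      exact (p.coeff i).2
  refine ⟨⟨x, hx'⟩, ?_⟩
  have h1 : algebraMap (cl K Z) Ω (Polynomial.eval ⟨x, hx'⟩ p) = 0 := by
    rw [← Polynomial.eval_map_apply]
    exact hx
  exact Subtype.ext h1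

theorem mem_range_of_mem_cl [IsAlgClosed K] {x : Ω} (hx : x ∈ cl K (∅ : Finset Ω)) :
    ∃ y : K, algebraMap K Ω y = x := by
  rw [mem_cl_iff, Finset.coe_empty, IntermediateField.adjoin_empty] at hx
  obtain ⟨p, hp, hc, hx⟩ := root33 _ hx
  have h1 : p ∈ Polynomial.lifts (algebraMap K Ω) := by
    rw [Polynomial.lifts_iff_coeff_lifts]
    intro i
    exact IntermediateField.mem_bot.1 (hc i)
  obtain ⟨q, hq⟩ := h1
  have hq' : q.map (algebraMap K Ω) = p := hq
  have halg : IsAlgebraic K x := by
    refine ⟨q, ?_, ?_⟩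
    · rintro rfl
      rw [Polynomial.map_zero] at hq'
      exact hp hq'.symm
    · rw [← Polynomial.eval_map_algebraMap, hq', hx]
  have hint := halg.isIntegral
  exact minpoly.mem_range_of_degree_eq_one K x
    (IsAlgClosed.degree_eq_one_of_irreducible K (minpoly.irreducible hint))

variable [DecidableEq Ω]

theorem mem_cl_cl (Z X : Finset Ω) (x : Ω) : x ∈ cl (cl K Z) X ↔ x ∈ cl K (Z ∪ X) := by
  have hZ : cl K Z ≤ cl K (Z ∪ X) := cl_mono K Finset.subset_union_left
  constructor
  · intro h
    rw [mem_cl_iff] at h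
    obtain ⟨p, hp, hc, hx⟩ := root33 _ h
    refine mem_cl_of_root K p hp (fun i => ?_) hx
    have h1 : IntermediateField.adjoin (cl K Z) (X : Set Ω) ≤
        IntermediateField.extendScalars hZ := by
      rw [IntermediateField.adjoin_le_iff]
      intro y hy
      exact subset_cl K (Z ∪ X) y (Finset.mem_union_right _ (Finset.mem_coe.1 hy))
    exact h1 (hc i)
  · intro h
    rw [mem_cl_iff] at h
    obtain ⟨p, hp, hc, hx⟩ := root33 _ h
    refine mem_cl_of_root (cl K Z) p hp (fun i => ?_) hx
    have h1 : IntermediateField.adjoin K ((Z ∪ X : Finset Ω) : Set Ω) ≤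
        (cl (cl K Z) X).restrictScalars K := by
      rw [IntermediateField.adjoin_le_iff]
      intro y hy
      rcases Finset.mem_union.1 (Finset.mem_coe.1 hy) with hy | hy
      · exact (cl (cl K Z) X).algebraMap_mem ⟨y, subset_cl K Z y hy⟩
      · exact subset_cl (cl K Z) X y hy
    exact h1 (hc i)

theorem rk_cl (Z X : Finset Ω) : rk (cl K Z) X + rk K Z = rk K (Z ∪ X) := by
  induction X using Finset.induction_on with
  | empty => rw [rk_empty, Nat.zero_add, Finset.union_empty]
  | insert a t _ ih =>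
    rw [Finset.union_insert]
    by_cases h : a ∈ cl (cl K Z) t
    · rw [rk_insert_of_mem _ h, ih, rk_insert_of_mem K ((mem_cl_cl K Z t a).1 h)]
    · rw [rk_insert_of_notMem _ h, rk_insert_of_notMem K (fun h' => h ((mem_cl_cl K Z t a).2 h')),
        ← ih]
      omega

theorem big_cl (hb : Big K Ω) (Z : Finset Ω) : Big (cl K Z) Ω := by
  intro t
  obtain ⟨x, hx⟩ := hb (Z ∪ t)
  exact ⟨x, fun h => hx ((mem_cl_cl K Z t x).1 h)⟩

end Pool.Agent.Helper30.RY
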