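import Mathlib
import Pool.Agent.Helper30.RY.Base

/-!
# Block RY-HUL: the lower convex hull

`O` is a valuation ring of the algebraically closed field `Ω`, `a 0, ..., a e` are vectors, `a 0` is
primitive (`Prim`: coordinates in `O`, some coordinate a unit) and `a e ≠ 0`.  Then there are `θ ≠ 0`,
`τ 1, ..., τ (e-1)` in `O`, nonzero, and vectors `b l` with coordinates in `O`, such that
`θ^l a l = wt e τ l * b l` for `l ≤ e`; each `τ i` is `1` or a nonunit, and `b j` is primitive for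
`j = 0`, `j = e` and for all `j` with `τ j` a nonunit.

Proof by strong induction on `e`.  `e = 0`: `θ = 1`, `b = a`.  Let `e ≥ 1`.  For `1 ≤ l ≤ e` with
`a l ≠ 0` let `x_l` be a coordinate of `a l` of maximal value and `θ_l` a root of `θ_l^l = x_l⁻¹`
(`Ω` is algebraically closed, `IsAlgClosed.exists_pow_nat_eq`).  Choose `θ` among the `θ_l`
(`l = e` occurs) of minimal value: `θ / θ_l ∈ O` for all `l`.  Then
`θ^l a l = (θ/θ_l)^l * (a l / x_l)` has coordinates in `O` for all `l ≤ e`, and `θ^l a l` is primitive for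
some `l ≥ 1`.  Let `l₁ ≥ 1` be the largest such `l`.
If `l₁ = e`, take `τ = 1`, `b l = θ^l a l`.
If `l₁ < e`, apply the induction hypothesis to `a' l = θ^(l+l₁) a (l + l₁)`, `l ≤ e' = e - l₁`, to get
`θ', τ', b'`.  Claim: `θ' ∉ O`.  Let `j ≥ 1` be the smallest index with `j = e'` or `τ' j` a nonunit.
Then `wt e' τ' j = 1` (the `τ' i` with `i < j` are `1`), so `θ'^j a' j = b' j` is primitive; but `a' j` is
integral and not primitive (choice of `l₁`), so all its coordinates are nonunits, and `θ' ∈ O` would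
make `θ'^j a' j` non primitive.  So `θ'⁻¹` is a nonunit of `O` (in `O` as `θ' ∉ O`).
Define `τ i = 1` for `i < l₁`, `τ l₁ = θ'⁻¹`, `τ i = τ' (i - l₁)` for `i > l₁`; `b l = θ^l a l` for `l ≤ l₁`
(there `wt e τ l = 1`) and `b l = b' (l - l₁)` for `l ≥ l₁` (for `l = l₁`: `b' 0 = a' 0`, consistent because
`wt e' τ' 0 = 1`).  For `l = l₁ + l'`:
`θ^l a l = a' l' = θ'^{-l'} wt e' τ' l' b' l' = τ_{l₁}^{l'} ∏_i τ'_i^{l'-i} b' l' = wt e τ l b l`.
-/

namespace Pool.Agent.Helper30.RY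

variable {Ω : Type*} [Field Ω] [IsAlgClosed Ω] {n : ℕ}

private lemma h94_scale (O : ValuationSubring Ω) (e : ℕ) (he1 : 1 ≤ e) (a : ℕ → Fin (n + 1) → Ω)
    (he : a e ≠ 0) : ∃ θ : Ω, θ ≠ 0 ∧
      (∀ l, 1 ≤ l → l ≤ e → ∀ i, O.valuation (θ ^ l * a l i) ≤ 1) ∧
      ∃ l, 1 ≤ l ∧ l ≤ e ∧ ∃ i, O.valuation (θ ^ l * a l i) = 1 := by
  classical
  have h1 : ∀ (l : ℕ) (i : Fin (n + 1)), ∃ t : Ω, 1 ≤ l → t ^ l = (a l i)⁻¹ := by
    intro l i
    by_cases hl : 1 ≤ l
    · obtain ⟨t, ht⟩ := IsAlgClosed.exists_pow_nat_eq (a l i)⁻¹ (n := l) (by omega)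
      exact ⟨t, fun _ => ht⟩
    · exact ⟨0, fun h => absurd h hl⟩
  choose t ht using h1
  obtain ⟨i0, hi0⟩ : ∃ i, a e i ≠ 0 := by
    by_contra hcon
    push Not at hcon
    exact he (funext hcon)
  obtain ⟨p, hp, hmin⟩ := ((Finset.Icc 1 e ×ˢ (Finset.univ : Finset (Fin (n + 1)))).filter
    (fun p => a p.1 p.2 ≠ 0)).exists_min_image (fun p => O.valuation (t p.1 p.2))
    ⟨(e, i0), by simp [he1, hi0]⟩
  rw [Finset.mem_filter, Finset.mem_product, Finset.mem_Icc] at hp
  obtain ⟨⟨⟨hp1, hp2⟩, -⟩, hp3⟩ := hp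
  have hv : ∀ (l : ℕ) (i : Fin (n + 1)), 1 ≤ l → a l i ≠ 0 →
      O.valuation (t l i) ^ l * O.valuation (a l i) = 1 := by
    intro l i hl hli
    rw [← map_pow, ht l i hl, ← map_mul, inv_mul_cancel₀ hli, map_one]
  refine ⟨t p.1 p.2, ?_, ?_, p.1, hp1, hp2, p.2, ?_⟩
  · intro h0
    have h2 := ht p.1 p.2 hp1
    rw [h0, zero_pow (by omega)] at h2
    exact hp3 (inv_eq_zero.1 h2.symm)
  · intro l hl1 hl2 i
    by_cases hli : a l i = 0
    · rw [hli, mul_zero, map_zero]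
      exact zero_le_one
    · have h2 := hmin (l, i) (by
        rw [Finset.mem_filter, Finset.mem_product, Finset.mem_Icc]
        exact ⟨⟨⟨hl1, hl2⟩, Finset.mem_univ _⟩, hli⟩)
      rw [map_mul, map_pow, ← hv l i hl1 hli]
      exact mul_le_mul_left (pow_le_pow_left₀ zero_le h2 l) _
  · rw [map_mul, map_pow]
    exact hv p.1 p.2 hp1 hp3

omit [IsAlgClosed Ω] in
private lemma h94_prim {O : ValuationSubring Ω} {ι : Type*} {v : ι → Ω} :
    Prim O v ↔ (∀ i, O.valuation (v i) ≤ 1) ∧ ∃ i, O.valuation (v i) = 1 := by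
  unfold Prim
  simp only [← ValuationSubring.valuation_le_one_iff]
  refine and_congr_right fun _ => exists_congr fun i => ?_
  constructor
  · rintro ⟨h1, h2⟩
    have h3 : O.valuation (v i) ≠ 0 := (Valuation.ne_zero_iff _).2 h1
    rw [map_inv₀, inv_le_one₀ (zero_lt_iff.2 h3)] at h2
    exact le_antisymm (by tauto) h2
  · intro h1
    have h3 : v i ≠ 0 := by
      intro h
      rw [h, map_zero] at h1
      exact zero_ne_one h1
    refine ⟨h3, ?_⟩
    rw [map_inv₀, h1, inv_one]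

omit [IsAlgClosed Ω] in
private lemma h94_wt_one (e : ℕ) (τ : ℕ → Ω) (l : ℕ) (h : ∀ i, 1 ≤ i → i < e → i < l → τ i = 1) :
    wt e τ l = 1 := by
  unfold wt
  refine Finset.prod_eq_one fun i hi => ?_
  rw [Finset.mem_Ico] at hi
  by_cases hil : i < l
  · rw [h i hi.1 hi.2 hil, one_pow]
  · rw [Nat.sub_eq_zero_of_le (by omega), pow_zero]

theorem exists_hull (O : ValuationSubring Ω) (e : ℕ) (a : ℕ → Fin (n + 1) → Ω)
    (h0 : Prim O (a 0)) (he : a e ≠ 0) :
    ∃ (θ : Ω) (τ : ℕ → Ω) (b : ℕ → Fin (n + 1) → Ω), θ ≠ 0 ∧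
      (∀ l ≤ e, ∀ i, θ ^ l * a l i = wt e τ l * b l i) ∧
      (∀ i, 1 ≤ i → i < e → τ i ≠ 0 ∧ τ i ∈ O ∧ (τ i = 1 ∨ (τ i)⁻¹ ∉ O)) ∧
      (∀ l ≤ e, ∀ i, b l i ∈ O) ∧ Prim O (b 0) ∧ Prim O (b e) ∧
      (∀ i, 1 ≤ i → i < e → (τ i)⁻¹ ∉ O → Prim O (b i)) := by
  classical
  induction e using Nat.strong_induction_on generalizing a with
  | _ e ih =>
  rcases Nat.eq_zero_or_pos e with rfl | hepos
  · refine ⟨1, fun _ => 1, a, one_ne_zero, ?_, ?_, ?_, h0, h0, ?_⟩
    · intro l hl i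
      rw [h94_wt_one 0 _ l (fun i _ h _ => absurd h (by omega)), one_pow]
    · intro i h1 h2
      omega
    · intro l hl i
      obtain rfl : l = 0 := by omega
      exact h0.1 i
    · intro i h1 h2
      omega
  obtain ⟨θ, hθ, hint, hex⟩ := h94_scale O e hepos a he
  obtain ⟨c, hc⟩ : ∃ c : ℕ → Fin (n + 1) → Ω, ∀ l i, c l i = θ ^ l * a l i := ⟨_, fun _ _ => rfl⟩
  have hc0 : c 0 = a 0 := by
    funext i
    rw [hc, pow_zero, one_mul]
  have hcint : ∀ l ≤ e, ∀ i, O.valuation (c l i) ≤ 1 := by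
    intro l hl i
    rcases Nat.eq_zero_or_pos l with rfl | hl0
    · rw [hc0]
      exact (h94_prim.1 h0).1 i
    · rw [hc]
      exact hint l hl0 hl i
  -- the largest index with a primitive vector
  obtain ⟨l₁, hl₁, hmax⟩ := ((Finset.Icc 1 e).filter (fun l => Prim O (c l))).exists_max_image id (by
    obtain ⟨l, hl1, hl2, i, hi⟩ := hex
    refine ⟨l, ?_⟩
    rw [Finset.mem_filter, Finset.mem_Icc]
    refine ⟨⟨hl1, hl2⟩, h94_prim.2 ⟨hcint l hl2, i, ?_⟩⟩
    rw [hc]
    exact hi)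
  rw [Finset.mem_filter, Finset.mem_Icc] at hl₁
  obtain ⟨⟨hl1, hle⟩, hprim⟩ := hl₁
  have hmax' : ∀ l, l₁ < l → l ≤ e → ¬ Prim O (c l) := by
    intro l h1 h2 h3
    have h4 := hmax l (by
      rw [Finset.mem_filter, Finset.mem_Icc]
      exact ⟨⟨by omega, h2⟩, h3⟩)
    simp only [id] at h4
    omega
  rcases Nat.eq_or_lt_of_le hle with hle' | hlt
  · -- `l₁ = e`
    refine ⟨θ, fun _ => 1, c, hθ, ?_, ?_, ?_, ?_, ?_, ?_⟩
    · intro l hl i
      rw [h94_wt_one e _ l (fun _ _ _ _ => rfl), one_mul, hc]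
    · intro i _ _
      exact ⟨one_ne_zero, O.one_mem, Or.inl rfl⟩
    · intro l hl i
      exact (O.valuation_le_one_iff _).1 (hcint l hl i)
    · rw [hc0]
      exact h0
    · rw [← hle']
      exact hprim
    · intro i _ _ h
      exact absurd O.one_mem (by rwa [inv_one] at h)
  -- `l₁ < e`
  have hce : (fun l => c (l + l₁)) (e - l₁) ≠ 0 := by
    have h1 : e - l₁ + l₁ = e := by omega
    simp only [h1]
    intro h2
    apply he
    funext i
    have h3 := congrFun h2 i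
    rw [hc] at h3
    exact (mul_eq_zero.1 h3).resolve_left (pow_ne_zero _ hθ)
  obtain ⟨θ', τ', b', hθ', hrel, hτ', hb', hp0, hpe, hpi⟩ := ih (e - l₁) (by omega)
    (fun l => c (l + l₁)) (by simpa using hprim) hce
  have hθO : θ' ∉ O := by
    intro hθO
    have hP : ∃ j, 1 ≤ j ∧ (j = e - l₁ ∨ (j < e - l₁ ∧ (τ' j)⁻¹ ∉ O)) := ⟨e - l₁, by omega, Or.inl rfl⟩
    obtain ⟨hj1, hj2⟩ := Nat.find_spec hP
    have hjm : ∀ i, i < Nat.find hP → ¬ (1 ≤ i ∧ (i = e - l₁ ∨ (i < e - l₁ ∧ (τ' i)⁻¹ ∉ O))) :=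
      fun i hi => Nat.find_min hP hi
    generalize Nat.find hP = j at hj1 hj2 hjm
    have hje : j ≤ e - l₁ := by
      rcases hj2 with h | h
      · omega
      · omega
    have hw : wt (e - l₁) τ' j = 1 := by
      refine h94_wt_one _ _ _ fun i h1 h2 h3 => ?_
      have h4 := hjm i h3
      rcases (hτ' i h1 h2).2.2 with h5 | h5
      · exact h5
      · exact absurd ⟨h1, Or.inr ⟨h2, h5⟩⟩ h4
    have hpj : Prim O (b' j) := by
      rcases hj2 with h | h
      · rw [h]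
        exact hpe
      · exact hpi j hj1 h.1 h.2
    obtain ⟨i, hi⟩ := (h94_prim.1 hpj).2
    have h1 := hrel j hje i
    rw [hw, one_mul] at h1
    rw [← h1, map_mul, map_pow] at hi
    have h2 : O.valuation θ' ^ j ≤ 1 := pow_le_one₀ zero_le ((O.valuation_le_one_iff _).2 hθO)
    have h3 := hcint (j + l₁) (by omega)
    have h4 : O.valuation (c (j + l₁) i) = 1 := by
      refine le_antisymm (h3 i) ?_
      calc (1 : O.ValueGroup) = O.valuation θ' ^ j * O.valuation (c (j + l₁) i) := hi.symm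
        _ ≤ 1 * O.valuation (c (j + l₁) i) := mul_le_mul_left h2 _
        _ = _ := one_mul _
    exact hmax' (j + l₁) (by omega) (by omega) (h94_prim.2 ⟨h3, i, h4⟩)
  have hθi : θ'⁻¹ ∈ O := (O.mem_or_inv_mem θ').resolve_left hθO
  refine ⟨θ, fun i => if i < l₁ then 1 else if i = l₁ then θ'⁻¹ else τ' (i - l₁),
    fun l => if l < l₁ then c l else b' (l - l₁), hθ, ?_, ?_, ?_, ?_, ?_, ?_⟩
  · intro l hl i
    by_cases hll : l < l₁
    · rw [h94_wt_one e _ l fun i _ _ hi => by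
        rw [if_pos (by omega)]]
      simp only
      rw [if_pos hll, one_mul, hc]
    · obtain ⟨k, rfl⟩ : ∃ k, l = k + l₁ := ⟨l - l₁, by omega⟩
      have hke : k ≤ e - l₁ := by omega
      have h1 := hrel k hke i
      have h2 : wt e (fun i => if i < l₁ then (1 : Ω) else if i = l₁ then θ'⁻¹ else τ' (i - l₁)) (k + l₁) =
          (θ' ^ k)⁻¹ * wt (e - l₁) τ' k := by
        unfold wt
        rw [← Finset.prod_Ico_consecutive _ hl1 hle, Finset.prod_eq_prod_Ico_succ_bot hlt]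
        have h3 : ∏ i ∈ Finset.Ico 1 l₁, (if i < l₁ then (1 : Ω) else if i = l₁ then θ'⁻¹ else
            τ' (i - l₁)) ^ (k + l₁ - i) = 1 := by
          refine Finset.prod_eq_one fun i hi => ?_
          rw [Finset.mem_Ico] at hi
          rw [if_pos hi.2, one_pow]
        beta_reduce
        rw [h3, one_mul, if_neg (lt_irrefl _), if_pos rfl, Nat.add_sub_cancel, inv_pow]
        congr 1
        have h4 : Finset.Ico (l₁ + 1) e = Finset.Ico (1 + l₁) (e - l₁ + l₁) := by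
          rw [add_comm 1 l₁, Nat.sub_add_cancel hle]
        rw [h4, ← Finset.prod_Ico_add']
        refine Finset.prod_congr rfl fun i hi => ?_
        rw [Finset.mem_Ico] at hi
        rw [if_neg (by omega), if_neg (by omega), Nat.add_sub_cancel, Nat.add_sub_add_right]
      rw [h2]
      simp only
      rw [if_neg hll, Nat.add_sub_cancel, mul_assoc, ← h1, ← hc, ← mul_assoc,
        inv_mul_cancel₀ (pow_ne_zero _ hθ'), one_mul]
  · intro i h1 h2
    simp only
    by_cases h3 : i < l₁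
    · rw [if_pos h3]
      exact ⟨one_ne_zero, O.one_mem, Or.inl rfl⟩
    · rw [if_neg h3]
      by_cases h4 : i = l₁
      · rw [if_pos h4]
        exact ⟨inv_ne_zero hθ', hθi, Or.inr (by rwa [inv_inv])⟩
      · rw [if_neg h4]
        exact hτ' (i - l₁) (by omega) (by omega)
  · intro l hl i
    simp only
    by_cases h3 : l < l₁
    · rw [if_pos h3]
      exact (O.valuation_le_one_iff _).1 (hcint l hl i)
    · rw [if_neg h3]
      exact hb' (l - l₁) (by omega) i
  · simp only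
    rw [if_pos (by omega), hc0]
    exact h0
  · simp only
    rw [if_neg (by omega)]
    exact hpe
  · intro i h1 h2
    simp only
    by_cases h3 : i < l₁
    · rw [if_pos h3]
      intro h
      exact absurd O.one_mem (by rwa [inv_one] at h)
    · rw [if_neg h3, if_neg h3]
      by_cases h4 : i = l₁
      · rw [if_pos h4, h4, Nat.sub_self]
        intro _
        exact hp0
      · rw [if_neg h4]
        exact hpi (i - l₁) (by omega) (by omega)

end Pool.Agent.Helper30.RY
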