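import Mathlib
import Pool.Agent.Helper30.RY.Gen

/-!
# Block RY-VAL: valuation rings of `Ω`

* `exists_valuationSubring`: `E = cl K s` is a field algebraically closed in `Ω`, so `x ∉ E` is not
  integral over `E`, and `x` is not in the intersection of all valuation rings of `Ω` containing
  `E` (see `Mathlib/RingTheory/Valuation/LocalSubring.lean`, e.g.
  `LocalSubring.exists_valuationRing_of_isMax`, `LocalSubring.exists_le_valuationSubring`,
  `bijective_rangeRestrict_comp_of_valuationRing`, the integral closure is the intersection of the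
  valuation rings).  Direct proof: `x⁻¹` is not a unit in the ring `E[x⁻¹]` (otherwise
  `x = ∑ c_i x^{-i}` gives an integral equation for `x`), so it lies in a maximal ideal `M` of `E[x⁻¹]`;
  a valuation ring dominating `E[x⁻¹]_M` contains `x⁻¹` as a nonunit, hence does not contain `x`.
* `exists_max_coord`: choose `α` with `c α ≠ 0` of maximal value: for `x, y` in `Ω`, `x / y ∈ O` or
  `y / x ∈ O` (`ValuationSubring.mem_or_inv_mem`); induction on a finset, or use
  `O.valuation` and `Finite.exists_max`.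
* `exists_unit_generic`: choose `t` generic over `s` (`exists_generic`); replace `t i` by `t i`,
  `1 + t i` or `1 + (t i)⁻¹` according to whether `t i` is a unit of `O`, a nonunit of `O`, or not
  in `O`.  The new `t' i` is a unit of `O`, and `t i ∈ cl K (∅ ∪ {t' i})`, `t' i ∈ cl K {t i}`, so the
  rank does not change (`rk_union_congr`).
* `residue_eq_zero`: for a valuation subring the residue map kills exactly the nonunits.
-/

namespace Pool.Agent.Helper30.RY

variable {K : Type*} {Ω : Type*} [Field K] [Field Ω] [Algebra K Ω] [IsAlgClosed Ω]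

theorem exists_valuationSubring {s : Finset Ω} {x : Ω} (hx : x ∉ cl K s) :
    ∃ O : ValuationSubring Ω, (∀ y ∈ cl K s, y ∈ O) ∧ x ∉ O := by
  have hcl : IsIntegrallyClosedIn (cl K s).toSubring Ω := by
    rw [isIntegrallyClosedIn_iff]
    refine ⟨Subtype.coe_injective, ?_⟩
    intro y hy
    have h1 : IsAlgebraic (cl K s) y := by
      have h2 : IsIntegral (cl K s) y := hy
      exact h2.isAlgebraic
    exact ⟨⟨y, mem_cl_of_isAlgebraic K h1⟩, rfl⟩
  obtain ⟨V, h1, h2⟩ := Subring.exists_le_valuationSubring_of_isIntegrallyClosedIn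
    (R := (cl K s).toSubring) (x := x) hx
  exact ⟨V, fun y hy => h1 hy, h2⟩

omit [IsAlgClosed Ω] in
theorem exists_max_coord (O : ValuationSubring Ω) {ι : Type*} [Finite ι] (c : ι → Ω)
    (hc : c ≠ 0) : ∃ α, c α ≠ 0 ∧ ∀ m, c m / c α ∈ O := by
  have hne : Nonempty ι := by
    by_contra h
    rw [not_nonempty_iff] at h
    exact hc (funext fun i => (h.false i).elim)
  obtain ⟨α, hα⟩ := Finite.exists_max (fun i => O.valuation (c i))
  have hα0 : c α ≠ 0 := by
    intro h
    apply hc
    funext i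
    have h1 := hα i
    rw [h, map_zero, le_zero_iff, map_eq_zero] at h1
    exact h1
  refine ⟨α, hα0, fun m => ?_⟩
  rw [← O.valuation_le_one_iff, map_div₀]
  have h2 : 0 < O.valuation (c α) := by
    rw [zero_lt_iff]
    exact (Valuation.ne_zero_iff _).2 hα0
  exact (div_le_one₀ h2).2 (hα m)

omit [IsAlgClosed Ω] in
private lemma val_unit (O : ValuationSubring Ω) {x : Ω} (hx : x ∈ O) (hx' : x⁻¹ ∉ O) :
    1 + x ≠ 0 ∧ 1 + x ∈ O ∧ (1 + x)⁻¹ ∈ O := by
  have hx0 : x ≠ 0 := by
    rintro rfl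
    apply hx'
    rw [inv_zero]
    exact O.zero_mem
  have h1 : O.valuation x < 1 := by
    by_contra h
    rw [not_lt] at h
    apply hx'
    rw [← O.valuation_le_one_iff, map_inv₀]
    exact inv_le_one_of_one_le₀ h
  have h2 : O.valuation (1 + x) = 1 := Valuation.map_one_add_of_lt _ h1
  have h3 : 1 + x ≠ 0 := by
    intro h
    rw [h, map_zero] at h2
    exact zero_ne_one h2
  refine ⟨h3, O.add_mem _ _ O.one_mem hx, ?_⟩
  rw [← O.valuation_le_one_iff, map_inv₀, h2, inv_one]

omit [IsAlgClosed Ω] in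
theorem exists_unit_generic [DecidableEq Ω] (hb : Big K Ω) (O : ValuationSubring Ω)
    (s : Finset Ω) (ι : Type*) [Fintype ι] :
    ∃ t : ι → Ω, (∀ i, t i ≠ 0 ∧ t i ∈ O ∧ (t i)⁻¹ ∈ O) ∧
      rk K (s ∪ rg t) = rk K s + Fintype.card ι := by
  classical
  obtain ⟨t, ht⟩ := exists_generic K hb s ι
  have ht0 : ∀ i, t i ≠ 0 := by
    intro i h
    apply generic_notMem ht i
    rw [h]
    exact zero_mem _
  have hex : ∀ i, ∃ u : Ω, (u ≠ 0 ∧ u ∈ O ∧ u⁻¹ ∈ O) ∧ (∀ F : IntermediateField K Ω, t i ∈ F ↔ u ∈ F) := by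
    intro i
    by_cases h1 : t i ∈ O
    · by_cases h2 : (t i)⁻¹ ∈ O
      · exact ⟨t i, ⟨ht0 i, h1, h2⟩, fun F => Iff.rfl⟩
      · refine ⟨1 + t i, val_unit O h1 h2, fun F => ⟨fun h => F.add_mem F.one_mem h, fun h => ?_⟩⟩
        have h3 := F.sub_mem h F.one_mem
        rwa [add_sub_cancel_left] at h3
    · have h2 : (t i)⁻¹ ∈ O := (O.mem_or_inv_mem (t i)).resolve_left h1
      have h3 : ((t i)⁻¹)⁻¹ ∉ O := by rwa [inv_inv]
      refine ⟨1 + (t i)⁻¹, val_unit O h2 h3, fun F => ⟨fun h => F.add_mem F.one_mem (F.inv_mem h),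
        fun h => ?_⟩⟩
      have h4 := F.sub_mem h F.one_mem
      rw [add_sub_cancel_left] at h4
      have h5 := F.inv_mem h4
      rwa [inv_inv] at h5
  choose u hu1 hu2 using hex
  refine ⟨u, hu1, ?_⟩
  rw [← ht, Finset.union_comm s, Finset.union_comm s]
  refine rk_union_congr K ?_ ?_ s
  · intro x hx
    obtain ⟨i, -, rfl⟩ := Finset.mem_image.1 hx
    exact (hu2 i _).2 (subset_cl K _ _ (Finset.mem_image_of_mem _ (Finset.mem_univ i)))
  · intro x hx
    obtain ⟨i, -, rfl⟩ := Finset.mem_image.1 hx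
    exact (hu2 i _).1 (subset_cl K _ _ (Finset.mem_image_of_mem _ (Finset.mem_univ i)))

end Pool.Agent.Helper30.RY
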