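import Mathlib
import Pool.Agent.Helper30.RY.Val
import Pool.Agent.Helper30.RY.Hul
import Pool.Agent.Helper30.RY.Td

/-!
# Block RY-BLA: bend and break, the valuation theoretic part

`x`, `y` are nonzero vectors over `K`, `a 0 = x`, `a e = y`, and some coordinate of some `a l`
(`l ≤ e`) is not algebraic over `K`; `c ≠ 0`.  There are a valuation ring `O` of `Ω` containing `K`,
an index `α` with `c α ≠ 0`, all `c m / c α` in `O`, and `θ, τ, b` as in `exists_hull`, which are moreover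
generic.

Proof.  `exists_valuationSubring` (with `s = ∅`) gives `O ⊇ cl K ∅ ⊇ K` not containing that
coordinate; `exists_max_coord` gives `α`.  `a 0` and `a e` are primitive: their coordinates are in
`K`, so they and their inverses are in `O`.  `exists_hull` gives `θ₀, τ₀, b₀`.  Let `s` be the finite set
of all elements `c m / c α`, `a l i` (`l ≤ e`), `θ₀`, `τ₀ i` (`1 ≤ i < e`).  Choose units
`t_0, t_1, ..., t_{e-1}` of `O` generic over `s` (`exists_unit_generic` for `Fin e`).  Put `θ = t_0 θ₀`,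
`τ i = t_i τ₀ i`, `b l = (t_0^l / wt e t l) b₀ l`.  All claims are inherited (products with units of `O`;
`(τ i)⁻¹ ∉ O` iff `(τ₀ i)⁻¹ ∉ O`).
Some `(τ i)⁻¹ ∉ O`: otherwise all `τ₀ i` are `1` and `θ₀^l a l = b₀ l`; `a e` and `b₀ e` are primitive, so
`θ₀^e` is a unit, hence `θ₀` is a unit (`θ₀` or its inverse is in `O`, and then both: valuation rings
are integrally closed) and all `a l = θ₀^{-l} b₀ l` are in `O`, a contradiction.
Rank: `E = cl K (rg (c/cα) ∪ rgt τ e ∪ rga b e)` contains `θ^l a l i` for `l ≤ e`; `a e` has a nonzero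
coordinate in `K`, so `θ^e ∈ E`, `θ ∈ E`, all `a l i ∈ E`, hence
`rk (rg (c/cα) ∪ rga a e ∪ {θ, τ 1, ..., τ (e-1)}) ≤ rk (rg (c/cα) ∪ rgt τ e ∪ rga b e)`, and the
left hand side is `rk (rg (c/cα) ∪ rga a e) + e`, because `(θ, τ)` is generic over `s`
(`t` is generic over `s` and `cl K (s ∪ t) = cl K (s ∪ {θ, τ})`).
The case `e = 0` is excluded by the hypothesis on the `a l i` (`a 0 = x`); `e ≥ 1`.
-/

namespace Pool.Agent.Helper30.RY

variable {K : Type*} [Field K] {Ω : Type*} [Field Ω] [Algebra K Ω] [IsAlgClosed Ω]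
  [DecidableEq Ω] {n d : ℕ}

theorem bl_val (hb : Big K Ω) {e : ℕ} (he : 1 ≤ e) (x y : Fin (n + 1) → K) (hx : x ≠ 0)
    (hy : y ≠ 0) (c : Mon n d → Ω) (hc : c ≠ 0) (a : ℕ → Fin (n + 1) → Ω)
    (h0 : a 0 = fun i => algebraMap K Ω (x i)) (h1 : a e = fun i => algebraMap K Ω (y i))
    (hna : ∃ l ≤ e, ∃ i, a l i ∉ cl K (∅ : Finset Ω)) :
    ∃ (O : ValuationSubring Ω) (α : Mon n d) (θ : Ω) (τ : ℕ → Ω) (b : ℕ → Fin (n + 1) → Ω),
      (∀ y : K, algebraMap K Ω y ∈ O) ∧ c α ≠ 0 ∧ (∀ m, c m / c α ∈ O) ∧ θ ≠ 0 ∧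
      (∀ l ≤ e, ∀ i, θ ^ l * a l i = wt e τ l * b l i) ∧
      (∀ i, 1 ≤ i → i < e → τ i ≠ 0 ∧ τ i ∈ O) ∧
      (∃ i, 1 ≤ i ∧ i < e ∧ (τ i)⁻¹ ∉ O) ∧
      (∀ l ≤ e, ∀ i, b l i ∈ O) ∧ Prim O (b 0) ∧ Prim O (b e) ∧
      (∀ i, 1 ≤ i → i < e → (τ i)⁻¹ ∉ O → Prim O (b i)) ∧
      rk K (rg (fun m => c m / c α) ∪ rga a e) + e ≤
        rk K (rg (fun m => c m / c α) ∪ rgt τ e ∪ rga b e) := by
  classical
  obtain ⟨l₀, hl₀, i₀, hna⟩ := hna
  obtain ⟨O, hO, hx₀⟩ := exists_valuationSubring hna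
  have hK : ∀ z : K, algebraMap K Ω z ∈ O := fun z => hO _ ((cl K (∅ : Finset Ω)).algebraMap_mem z)
  obtain ⟨α, hα, hcα⟩ := exists_max_coord O c hc
  have hprim : ∀ z : Fin (n + 1) → K, z ≠ 0 → Prim O (fun i => algebraMap K Ω (z i)) := by
    intro z hz
    refine ⟨fun i => hK _, ?_⟩
    obtain ⟨i, hi⟩ := Function.ne_iff.1 hz
    refine ⟨i, ?_, ?_⟩
    · exact (map_ne_zero (algebraMap K Ω)).2 hi
    · rw [← map_inv₀]
      exact hK _
  have hp0 : Prim O (a 0) := by rw [h0]; exact hprim x hx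
  have hpe : Prim O (a e) := by rw [h1]; exact hprim y hy
  have hae : a e ≠ 0 := by
    obtain ⟨-, i, hi, -⟩ := hpe
    exact fun h => hi (by rw [h]; rfl)
  obtain ⟨θ₀, τ₀, b₀, hθ₀, hab, hτ₀, hb₀, hb0, hbe, hbi⟩ := exists_hull O e a hp0 hae
  set s : Finset Ω := (rg (fun m => c m / c α) ∪ rga a e) ∪ (insert θ₀ (rgt τ₀ e)) with hs
  obtain ⟨t, htu, htr⟩ := exists_unit_generic (K := K) hb O s (Fin e)
  rw [Fintype.card_fin] at htr
  set T : ℕ → Ω := fun i => if h : i < e then t ⟨i, h⟩ else 1 with hT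
  have hTu : ∀ i, T i ≠ 0 ∧ T i ∈ O ∧ (T i)⁻¹ ∈ O := by
    intro i
    simp only [hT]
    split_ifs with h
    · exact htu _
    · exact ⟨one_ne_zero, O.one_mem, by rw [inv_one]; exact O.one_mem⟩
  have hwu : ∀ l, wt e T l ≠ 0 ∧ wt e T l ∈ O ∧ (wt e T l)⁻¹ ∈ O := by
    intro l
    unfold wt
    refine ⟨?_, ?_, ?_⟩
    · exact Finset.prod_ne_zero_iff.2 fun i _ => pow_ne_zero _ (hTu i).1
    · exact prod_mem fun i _ => pow_mem (hTu i).2.1 _
    · rw [← Finset.prod_inv_distrib]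
      refine prod_mem fun i _ => ?_
      rw [← inv_pow]
      exact pow_mem (hTu i).2.2 _
  set u : ℕ → Ω := fun l => T 0 ^ l / wt e T l with hu
  have huu : ∀ l, u l ≠ 0 ∧ u l ∈ O ∧ (u l)⁻¹ ∈ O := by
    intro l
    refine ⟨div_ne_zero (pow_ne_zero _ (hTu 0).1) (hwu l).1, ?_, ?_⟩
    · simp only [hu, div_eq_mul_inv]
      exact mul_mem (pow_mem (hTu 0).2.1 _) (hwu l).2.2
    · simp only [hu]
      rw [inv_div, div_eq_mul_inv, ← inv_pow]
      exact mul_mem (hwu l).2.1 (pow_mem (hTu 0).2.2 _)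
  have hpm : ∀ l, Prim O (b₀ l) → Prim O (fun i => u l * b₀ l i) := by
    intro l hl
    refine ⟨fun i => mul_mem (huu l).2.1 (hl.1 i), ?_⟩
    obtain ⟨i, hi, hi'⟩ := hl.2
    refine ⟨i, mul_ne_zero (huu l).1 hi, ?_⟩
    rw [mul_inv]
    exact mul_mem (huu l).2.2 hi'
  have hwt : ∀ l, wt e (fun i => T i * τ₀ i) l = wt e T l * wt e τ₀ l := by
    intro l
    unfold wt
    rw [← Finset.prod_mul_distrib]
    exact Finset.prod_congr rfl fun i _ => mul_pow _ _ _
  have hinv : ∀ i, (T i * τ₀ i)⁻¹ ∉ O → (τ₀ i)⁻¹ ∉ O := by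
    intro i h h'
    apply h
    rw [mul_inv]
    exact mul_mem (hTu i).2.2 h'
  have hinv' : ∀ i, (T i * τ₀ i)⁻¹ ∈ O → (τ₀ i)⁻¹ ∈ O := by
    intro i h
    have h2 := mul_mem (hTu i).2.1 h
    rwa [mul_inv, ← mul_assoc, mul_inv_cancel₀ (hTu i).1, one_mul] at h2
  have hkey : ∀ l ≤ e, ∀ i, (T 0 * θ₀) ^ l * a l i = wt e (fun i => T i * τ₀ i) l * (u l * b₀ l i) := by
    intro l hl i
    rw [mul_pow, mul_assoc, hab l hl i, hwt]
    simp only [hu]
    field_simp [(hwu l).1]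
  refine ⟨O, α, T 0 * θ₀, fun i => T i * τ₀ i, fun l i => u l * b₀ l i, hK, hα, hcα,
    mul_ne_zero (hTu 0).1 hθ₀, hkey, ?_, ?_, ?_, hpm 0 hb0, hpm e hbe, ?_, ?_⟩
  · intro i h2 h3
    exact ⟨mul_ne_zero (hTu i).1 (hτ₀ i h2 h3).1, mul_mem (hTu i).2.1 (hτ₀ i h2 h3).2.1⟩
  · by_contra hcon
    push Not at hcon
    have h2 : ∀ i, 1 ≤ i → i < e → τ₀ i = 1 := by
      intro i h3 h4
      rcases (hτ₀ i h3 h4).2.2 with h5 | h5
      · exact h5
      · exact absurd (hinv' i (hcon i h3 h4)) h5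
    have h3 : ∀ l, wt e τ₀ l = 1 := by
      intro l
      unfold wt
      refine Finset.prod_eq_one fun i hi => ?_
      rw [Finset.mem_Ico] at hi
      rw [h2 i hi.1 hi.2, one_pow]
    have h4 : ∀ l ≤ e, ∀ i, θ₀ ^ l * a l i = b₀ l i := by
      intro l hl i
      rw [hab l hl i, h3, one_mul]
    have h5 : (θ₀ ^ e)⁻¹ ∈ O := by
      obtain ⟨-, i, hi, hi'⟩ := hbe
      have h6 := mul_mem (hpe.1 i) hi'
      rw [← h4 e le_rfl i] at hi h6
      have h7 : a e i ≠ 0 := right_ne_zero_of_mul hi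
      rw [mul_inv, mul_left_comm, mul_inv_cancel₀ h7, mul_one] at h6
      exact h6
    have h6 : θ₀⁻¹ ∈ O := by
      rw [← O.valuation_le_one_iff] at h5 ⊢
      rw [← inv_pow, map_pow] at h5
      exact (pow_le_one_iff (by omega)).1 h5
    apply hx₀
    have h7 : a l₀ i₀ = (θ₀⁻¹) ^ l₀ * b₀ l₀ i₀ := by
      rw [← h4 l₀ hl₀ i₀, ← mul_assoc, ← mul_pow, inv_mul_cancel₀ hθ₀, one_pow, one_mul]
    rw [h7]
    exact mul_mem (pow_mem h6 _) (hb₀ l₀ hl₀ i₀)
  · intro l hl i
    exact mul_mem (huu l).2.1 (hb₀ l hl i)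
  · intro i h2 h3 h4
    exact hpm i (hbi i h2 h3 (hinv i h4))
  · -- the ranks
    set θ : Ω := T 0 * θ₀ with hθ
    set τ : ℕ → Ω := fun i => T i * τ₀ i with hτ
    set b : ℕ → Fin (n + 1) → Ω := fun l i => u l * b₀ l i with hbd
    set A : Finset Ω := rg (fun m => c m / c α) ∪ rga a e with hA
    set Pf : Finset Ω := rg (fun m => c m / c α) ∪ rgt τ e ∪ rga b e with hPf
    set Q : Finset Ω := insert θ (rgt τ e) with hQ
    have hτP : ∀ i, 1 ≤ i → i < e → τ i ∈ cl K Pf := by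
      intro i h2 h3
      refine subset_cl K _ _ (Finset.mem_union_left _ (Finset.mem_union_right _ ?_))
      exact Finset.mem_image_of_mem _ (Finset.mem_Ico.2 ⟨h2, h3⟩)
    have hbP : ∀ l ≤ e, ∀ i, b l i ∈ cl K Pf := by
      intro l hl i
      refine subset_cl K _ _ (Finset.mem_union_right _ (Finset.mem_biUnion.2 ⟨l, ?_, ?_⟩))
      · exact Finset.mem_range.2 (by omega)
      · exact Finset.mem_image_of_mem _ (Finset.mem_univ i)
    have hwP : ∀ l, wt e τ l ∈ cl K Pf := by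
      intro l
      unfold wt
      refine prod_mem fun i hi => ?_
      rw [Finset.mem_Ico] at hi
      exact pow_mem (hτP i hi.1 hi.2) _
    have hθ0 : θ ≠ 0 := mul_ne_zero (hTu 0).1 hθ₀
    have hθP : θ ∈ cl K Pf := by
      refine mem_cl_of_pow_mem K (by omega : 0 < e) ?_
      obtain ⟨i, hi⟩ := Function.ne_iff.1 hy
      have h2 : a e i = algebraMap K Ω (y i) := by rw [h1]
      have h3 : a e i ≠ 0 := by
        rw [h2]
        exact (map_ne_zero (algebraMap K Ω)).2 hi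
      have h4 : θ ^ e = wt e τ e * b e i * (a e i)⁻¹ := by
        rw [← hkey e le_rfl i, mul_assoc, mul_inv_cancel₀ h3, mul_one]
      rw [h4]
      refine mul_mem (mul_mem (hwP e) (hbP e le_rfl i)) (inv_mem ?_)
      rw [h2]
      exact (cl K Pf).algebraMap_mem _
    have haP : ∀ l ≤ e, ∀ i, a l i ∈ cl K Pf := by
      intro l hl i
      have h2 : a l i = (θ ^ l)⁻¹ * (wt e τ l * b l i) := by
        rw [← hkey l hl i, ← mul_assoc, inv_mul_cancel₀ (pow_ne_zero l hθ0), one_mul]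
      rw [h2]
      exact mul_mem (inv_mem (pow_mem hθP _)) (mul_mem (hwP l) (hbP l hl i))
    have hstep1 : rk K (A ∪ Q) ≤ rk K Pf := by
      refine rk_le_of_subset_cl K fun z hz => ?_
      rcases Finset.mem_union.1 hz with hz | hz
      · rcases Finset.mem_union.1 hz with hz | hz
        · exact subset_cl K _ _ (Finset.mem_union_left _ (Finset.mem_union_left _ hz))
        · obtain ⟨l, hl, hz⟩ := Finset.mem_biUnion.1 hz
          obtain ⟨i, -, rfl⟩ := Finset.mem_image.1 hz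
          exact haP l (by rw [Finset.mem_range] at hl; omega) i
      · rcases Finset.mem_insert.1 hz with rfl | hz
        · exact hθP
        · obtain ⟨i, hi, rfl⟩ := Finset.mem_image.1 hz
          rw [Finset.mem_Ico] at hi
          exact hτP i hi.1 hi.2
    have hstep2 : rk K (s ∪ rg t) ≤ rk K (A ∪ s ∪ Q) := by
      refine rk_le_of_subset_cl K fun z hz => ?_
      rcases Finset.mem_union.1 hz with hz | hz
      · exact subset_cl K _ _ (Finset.mem_union_left _ (Finset.mem_union_right _ hz))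
      · obtain ⟨⟨i, hi⟩, -, rfl⟩ := Finset.mem_image.1 hz
        have h2 : t ⟨i, hi⟩ = T i := by
          simp only [hT]
          rw [dif_pos hi]
        rw [h2]
        rcases Nat.eq_zero_or_pos i with h3 | h3
        · subst h3
          have h4 : T 0 = θ * θ₀⁻¹ := by
            rw [hθ, mul_assoc, mul_inv_cancel₀ hθ₀, mul_one]
          rw [h4]
          refine mul_mem (subset_cl K _ _ ?_) (inv_mem (subset_cl K _ _ ?_))
          · exact Finset.mem_union_right _ (Finset.mem_insert_self _ _)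
          · exact Finset.mem_union_left _ (Finset.mem_union_right _ (Finset.mem_union_right _
              (Finset.mem_insert_self _ _)))
        · have h5 := (hτ₀ i h3 hi).1
          have h4 : T i = τ i * (τ₀ i)⁻¹ := by
            simp only [hτ]
            rw [mul_assoc, mul_inv_cancel₀ h5, mul_one]
          rw [h4]
          have h6 : i ∈ Finset.Ico 1 e := Finset.mem_Ico.2 ⟨h3, hi⟩
          refine mul_mem (subset_cl K _ _ ?_) (inv_mem (subset_cl K _ _ ?_))
          · exact Finset.mem_union_right _ (Finset.mem_insert_of_mem (Finset.mem_image_of_mem _ h6))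
          · exact Finset.mem_union_left _ (Finset.mem_union_right _ (Finset.mem_union_right _
              (Finset.mem_insert_of_mem (Finset.mem_image_of_mem _ h6))))
    have hstep3 := rk_submod K A s Q
    have hAs : A ∪ s = s := by
      rw [hs]
      exact Finset.union_eq_right.2 Finset.subset_union_left
    rw [hAs] at hstep2 hstep3
    omega

end Pool.Agent.Helper30.RY
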