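import Mathlib
import Pool.Agent.Helper30.RY.Cur

/-!
# Block RY-FCV: chains in fine coordinates

Recall `pcc j e τ a l i = a l i * ∏_{1 ≤ s ≤ j} τ_s^{s - l} * ∏_{j < s < e} τ_s^{l - s}` and
`wt e τ l = ∏_{1 ≤ s < e} τ_s^{l - s}` (truncated subtractions), `FCp f τ a e`: the curves
`pcc j e τ a`, `j < e`, lie on `f = 0`.

* `fcp_of_vanp`: if all `τ s ≠ 0` then, with `P = ∏_{1 ≤ s ≤ j} τ_s`,
  `pcc j e τ b l i = (∏_{s ≤ j} τ_s^s) * (P⁻¹)^l * (wt e τ l * b l i)`, because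
  `x^{s-l} = x^s x^{-l} x^{l-s}` (both cases `l ≤ s`, `l > s`).  Use `vanp_scale`, `vanp_smul`.
* `vanp_of_fcp`: the case `j = 0`.
* `fcp_left`: `τ j = 0`, `1 ≤ j < e`.  For `j' < j`: the coefficients of `pcc j' e τ a` with `l > j`
  contain the factor `τ_j^{l-j} = 0`; for `l ≤ j` the factors with `s ≥ j` are `τ_s^0`, so the
  coefficient is `pcc j' j τ a l i`.  Use `vanp_trunc`, `vanp_congr`.
* `fcp_right`: for `j'' < e - j` take `j' = j + j''`: the coefficients with `l < j` contain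
  `τ_j^{j-l} = 0`, then `vanp_shift`; the factors with `s ≤ j` are `τ_s^0` for `l ≥ j`.
* `brk_split`: the breaks of `τ` are those `< j`, `j`, and the shifted breaks `> j`.
* `wt_zero`: all exponents are `0`.
-/

namespace Pool.Agent.Helper30.RY

open MvPolynomial

section

variable {Ω : Type*} [Field Ω] {n q : ℕ} {f : MvPolynomial (Fin (n + 1)) Ω} {τ : ℕ → Ω}
  {a : ℕ → Fin (n + 1) → Ω} {e : ℕ}

theorem wt_zero (e : ℕ) (τ : ℕ → Ω) : wt e τ 0 = 1 := by
  unfold wt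
  refine Finset.prod_eq_one fun s _ => ?_
  rw [Nat.zero_sub, pow_zero]

theorem wt_ne_zero (hτ : ∀ s, 1 ≤ s → s < e → τ s ≠ 0) (l : ℕ) : wt e τ l ≠ 0 := by
  unfold wt
  refine Finset.prod_ne_zero_iff.mpr fun s hs => ?_
  rw [Finset.mem_Ico] at hs
  exact pow_ne_zero _ (hτ s hs.1 hs.2)

private theorem pw38 {x : Ω} (hx : x ≠ 0) (s l : ℕ) :
    x ^ (s - l) = x ^ s * x⁻¹ ^ l * x ^ (l - s) := by
  rcases le_total l s with h | h
  · rw [Nat.sub_eq_zero_of_le h, pow_zero, mul_one, pow_sub₀ x hx h, inv_pow]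
  · rw [Nat.sub_eq_zero_of_le h, pow_zero, pow_sub₀ x hx h, inv_pow]
    have h1 : x ^ s ≠ 0 := pow_ne_zero _ hx
    have h2 : x ^ l ≠ 0 := pow_ne_zero _ hx
    field_simp

private theorem pcc38 (hτ : ∀ s, 1 ≤ s → s < e → τ s ≠ 0) {j : ℕ} (hj : j < e) (l : ℕ)
    (i : Fin (n + 1)) : pcc j e τ a l i = (∏ s ∈ Finset.Ico 1 (j + 1), τ s ^ s) *
      ((∏ s ∈ Finset.Ico 1 (j + 1), (τ s)⁻¹) ^ l * (wt e τ l * a l i)) := by
  unfold pcc wt
  have h1 : ∏ s ∈ Finset.Ico 1 (j + 1), τ s ^ (s - l) =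
      (∏ s ∈ Finset.Ico 1 (j + 1), τ s ^ s) * (∏ s ∈ Finset.Ico 1 (j + 1), (τ s)⁻¹) ^ l *
        ∏ s ∈ Finset.Ico 1 (j + 1), τ s ^ (l - s) := by
    rw [← Finset.prod_pow, ← Finset.prod_mul_distrib, ← Finset.prod_mul_distrib]
    refine Finset.prod_congr rfl fun s hs => ?_
    rw [Finset.mem_Ico] at hs
    exact pw38 (hτ s hs.1 (by omega)) s l
  rw [h1, ← Finset.prod_Ico_consecutive (fun s => τ s ^ (l - s)) (Nat.le_add_left 1 j)
    (Nat.succ_le_of_lt hj)]
  ring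

theorem fcp_of_vanp (hf : f.IsHomogeneous q) (hτ : ∀ s, 1 ≤ s → s < e → τ s ≠ 0)
    (h : Vanp f (fun l i => wt e τ l * a l i) e) : FCp f τ a e := by
  intro j hj
  have h1 := vanp_smul hf (∏ s ∈ Finset.Ico 1 (j + 1), τ s ^ s)
    (vanp_scale (∏ s ∈ Finset.Ico 1 (j + 1), (τ s)⁻¹) h)
  exact (vanp_congr fun l _ i => (pcc38 hτ hj l i).symm).mp h1

theorem vanp_of_fcp (he : 1 ≤ e) (h : FCp f τ a e) :
    Vanp f (fun l i => wt e τ l * a l i) e := by
  refine (vanp_congr fun l _ i => ?_).mp (h 0 he)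
  unfold pcc wt
  rw [zero_add, Finset.Ico_self, Finset.prod_empty, mul_one, mul_comm]

theorem fcp_left {j : ℕ} (hj : 1 ≤ j) (hje : j < e) (h0 : τ j = 0) (h : FCp f τ a e) :
    FCp f τ a j := by
  intro j' hj'
  have h1 : Vanp f (pcc j' e τ a) j := by
    refine (vanp_trunc hje.le fun l hl hle i => ?_).mp (h j' (hj'.trans hje))
    unfold pcc
    have h2 : ∏ s ∈ Finset.Ico (j' + 1) e, τ s ^ (l - s) = 0 := by
      refine Finset.prod_eq_zero (i := j) (Finset.mem_Ico.mpr ⟨hj', hje⟩) ?_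
      rw [h0, zero_pow (by omega)]
    rw [h2, mul_zero]
  refine (vanp_congr fun l hl i => ?_).mp h1
  unfold pcc
  rw [← Finset.prod_Ico_consecutive (fun s => τ s ^ (l - s)) (Nat.succ_le_of_lt hj') hje.le]
  have h3 : ∏ s ∈ Finset.Ico j e, τ s ^ (l - s) = 1 := by
    refine Finset.prod_eq_one fun s hs => ?_
    rw [Finset.mem_Ico] at hs
    rw [Nat.sub_eq_zero_of_le (hl.trans hs.1), pow_zero]
  rw [h3, mul_one]

theorem fcp_right {j : ℕ} (hf : f.IsHomogeneous q) (hj : 1 ≤ j) (hje : j < e) (h0 : τ j = 0)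
    (h : FCp f τ a e) : FCp f (fun s => τ (s + j)) (fun l => a (l + j)) (e - j) := by
  intro k hk
  have h1 := vanp_shift hf hje.le (fun l hl i => ?_) (h (k + j) (by omega))
  · refine (vanp_congr fun l _ i => ?_).mp h1
    unfold pcc
    have h2 : ∏ s ∈ Finset.Ico 1 (k + j + 1), τ s ^ (s - (l + j)) =
        ∏ s ∈ Finset.Ico 1 (k + 1), τ (s + j) ^ (s - l) := by
      rw [← Finset.prod_Ico_consecutive (fun s => τ s ^ (s - (l + j))) (Nat.le_add_left 1 j)
        (show j + 1 ≤ k + j + 1 by omega)]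
      have h3 : ∏ s ∈ Finset.Ico 1 (j + 1), τ s ^ (s - (l + j)) = 1 := by
        refine Finset.prod_eq_one fun s hs => ?_
        rw [Finset.mem_Ico] at hs
        rw [Nat.sub_eq_zero_of_le (by omega), pow_zero]
      rw [h3, one_mul]
      have h4 := Finset.prod_Ico_add' (fun s => τ s ^ (s - (l + j))) 1 (k + 1) j
      rw [show j + 1 = 1 + j by omega, show k + j + 1 = k + 1 + j by omega, ← h4]
      refine Finset.prod_congr rfl fun s _ => ?_
      rw [Nat.add_sub_add_right]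
    have h5 : ∏ s ∈ Finset.Ico (k + j + 1) e, τ s ^ (l + j - s) =
        ∏ s ∈ Finset.Ico (k + 1) (e - j), τ (s + j) ^ (l - s) := by
      have h4 := Finset.prod_Ico_add' (fun s => τ s ^ (l + j - s)) (k + 1) (e - j) j
      rw [show k + j + 1 = k + 1 + j by omega]
      conv_lhs => rw [show e = e - j + j by omega]
      rw [← h4]
      refine Finset.prod_congr rfl fun s _ => ?_
      rw [Nat.add_sub_add_right]
    rw [h2, h5]
  · unfold pcc
    have h2 : ∏ s ∈ Finset.Ico 1 (k + j + 1), τ s ^ (s - l) = 0 := by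
      refine Finset.prod_eq_zero (i := j) (Finset.mem_Ico.mpr ⟨hj, by omega⟩) ?_
      rw [h0, zero_pow (by omega)]
    rw [h2, mul_zero, zero_mul]

variable [DecidableEq Ω]

theorem mem_brk {j : ℕ} : j ∈ brk τ e ↔ 1 ≤ j ∧ j < e ∧ τ j = 0 := by
  unfold brk
  rw [Finset.mem_filter, Finset.mem_Ico, and_assoc]

theorem brk_split {j : ℕ} (hj : j ∈ brk τ e) :
    (brk τ e).card = (brk τ j).card + 1 + (brk (fun s => τ (s + j)) (e - j)).card := by
  obtain ⟨h1, h2, h3⟩ := mem_brk.mp hj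
  unfold brk
  rw [Finset.card_filter, Finset.card_filter, Finset.card_filter,
    ← Finset.sum_Ico_consecutive (fun i => if τ i = 0 then 1 else 0) h1 h2.le,
    Finset.sum_eq_sum_Ico_succ_bot h2, if_pos h3, add_assoc]
  have h4 := Finset.sum_Ico_add' (fun i => if τ i = 0 then 1 else 0) 1 (e - j) j
  rw [h4, show 1 + j = j + 1 by omega, show e - j + j = e by omega]

theorem nod_left {j : ℕ} (hj : j ∈ brk τ e) (h : Nod τ a e) : Nod τ a j := by
  obtain ⟨h1, h2, h3⟩ := h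
  refine ⟨h1, h3 j hj, fun i hi => h3 i ?_⟩
  rw [mem_brk] at hi hj ⊢
  exact ⟨hi.1, hi.2.1.trans hj.2.1, hi.2.2⟩

theorem nod_right {j : ℕ} (hj : j ∈ brk τ e) (h : Nod τ a e) :
    Nod (fun s => τ (s + j)) (fun l => a (l + j)) (e - j) := by
  obtain ⟨h1, h2, h3⟩ := h
  have hj' := mem_brk.mp hj
  refine ⟨?_, ?_, fun i hi => ?_⟩
  · change a (0 + j) ≠ 0
    rw [zero_add]
    exact h3 j hj
  · change a (e - j + j) ≠ 0
    rw [Nat.sub_add_cancel hj'.2.1.le]
    exact h2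
  · change a (i + j) ≠ 0
    rw [mem_brk] at hi
    refine h3 (i + j) (mem_brk.mpr ⟨by omega, by omega, hi.2.2⟩)

omit [DecidableEq Ω] in
private theorem ev38 {g : MvPolynomial (Fin (n + 1)) Ω} (hg : g.IsHomogeneous q) (t : Ω)
    (z : Fin (n + 1) → Ω) : eval (fun i => t * z i) g = t ^ q * eval z g := by
  rw [eval_eq', eval_eq', Finset.mul_sum]
  refine Finset.sum_congr rfl fun m hm => ?_
  have h1 : m.degree = q := by
    by_contra hcon
    exact (mem_support_iff.mp hm) (hg.coeff_eq_zero hcon)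
  have h2 : ∏ i, (t * z i) ^ m i = t ^ q * ∏ i, z i ^ m i := by
    simp only [mul_pow]
    rw [Finset.prod_mul_distrib, Finset.prod_pow_eq_pow_sum]
    congr 2
    rw [← h1, Finsupp.degree_eq_sum]
  rw [h2]
  ring

omit [DecidableEq Ω] in
theorem bet_smul {d : ℕ} {c : Mon n d → Ω} {t : Ω} (ht : t ≠ 0) (z : Fin (n + 1) → Ω) :
    bet c (fun i => t * z i) = bet c z := by
  have h1 : SingP c (fun i => t * z i) ↔ SingP c z := by
    unfold SingP
    refine forall_congr' fun i => ?_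
    rw [ev38 (pderiv_fm_hom c i), mul_eq_zero]
    exact ⟨fun h => h.resolve_left (pow_ne_zero _ ht), fun h => Or.inr h⟩
  unfold bet
  by_cases h : SingP c z
  · rw [if_pos (h1.mpr h), if_pos h]
  · rw [if_neg fun h2 => h (h1.mp h2), if_neg h]

end

end Pool.Agent.Helper30.RY
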