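import Mathlib

/-!
# Block RY-KRUA: Krull's principal ideal theorem for algebras of finite type

`R` is a domain of finite type over a field `K`, `Q` a prime ideal, `h ∈ Q`.  There is a prime
ideal `P ≤ Q` containing `h` with `trdeg R ≤ trdeg (R / P) + 1`.

Proof.  Let `P` be a minimal prime ideal over `(h)` contained in `Q`
(`Ideal.exists_minimalPrimes_le`).  By Krull (`Ideal.height_le_one_of_isPrincipal_of_mem_minimalPrimes`
or `Ideal.height_le_spanFinrank`-type lemmas) the height of `P` is at most 1.  Noether normalisation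
(`exists_integral_inj_algHom_of_fg` or similar): there is an injective integral homomorphism
`A = K[t_1, ..., t_s] → R` (`R` a domain), and `s` is the transcendence degree of `R`.  `A` is a
unique factorisation domain, integrally closed, so going down holds
(`Mathlib/RingTheory/IntegralClosure/GoingDown.lean`) and the height of `p = P ∩ A` is at most the
height of `P` (if `0 < p' < p` is a chain of primes in `A`, going down gives a chain
`P'' < P' < P`; or `Ideal.height_eq...` in `Mathlib/RingTheory/Ideal/KrullsHeightTheorem.lean`).  So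
`p` is `0` or a prime of height one of a unique factorisation domain, generated by one prime element
`q`.  In both cases `trdeg (A / p) ≥ s - 1`: for `p = (q)`, `q` involves some variable `t_i`, and then
the other variables are algebraically independent modulo `q` (a nonzero polynomial in the other
variables is not divisible by `q`: compare degrees in `t_i`, `MvPolynomial.degreeOf_mul`).
`R / P` is integral over `A / p`, so it has the same transcendence degree; we only need
`trdeg (R / P) ≥ s - 1`: the `s - 1` elements of `A / p ⊆ R / P` are algebraically independent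
(`A / p → R / P` is injective).
If `h = 0` take `P = ⊥` (or note that the above still works).
-/

namespace Pool.Agent.Helper30.RY

universe u v

open MvPolynomial

private theorem hgt38 {s : ℕ} {K : Type u} [Field K] (p : Ideal (MvPolynomial (Fin s) K))
    [hpp : p.IsPrime] (hp : p.height ≤ 1) :
    ∃ q : MvPolynomial (Fin s) K, (q = 0 ∨ Prime q) ∧ p = Ideal.span {q} := by
  by_cases h0 : p = ⊥
  · exact ⟨0, Or.inl rfl, by rw [h0, Ideal.span_singleton_eq_bot.2 rfl]⟩
  · obtain ⟨q, hq, hqp⟩ := hpp.exists_mem_prime_of_ne_bot h0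
    refine ⟨q, Or.inr hqp, ?_⟩
    have hle : Ideal.span {q} ≤ p := (Ideal.span_singleton_le_iff_mem p).2 hq
    have i1 : (Ideal.span {q}).IsPrime := (Ideal.span_singleton_prime hqp.ne_zero).2 hqp
    by_contra hne
    have hlt : Ideal.span {q} < p := lt_of_le_of_ne hle (Ne.symm hne)
    have h1 := Ideal.height_add_one_le_of_lt_of_isPrime hlt
    have i2 : (⊥ : Ideal (MvPolynomial (Fin s) K)).IsPrime := Ideal.isPrime_bot
    have hbot : (⊥ : Ideal (MvPolynomial (Fin s) K)) < Ideal.span {q} := by
      rw [bot_lt_iff_ne_bot, Ne, Ideal.span_singleton_eq_bot]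
      exact hqp.ne_zero
    have h2 := Ideal.height_add_one_le_of_lt_of_isPrime hbot
    rw [Ideal.height_bot, zero_add] at h2
    have h3 : (1 : ℕ∞) + 1 ≤ 1 := ((add_le_add_left h2 1).trans h1).trans hp
    exact absurd h3 (by decide)

private theorem deg38 {s : ℕ} {K : Type u} [Field K] (hs : 0 < s) {q : MvPolynomial (Fin s) K}
    (hq : q = 0 ∨ Prime q) : ∃ i : Fin s, q = 0 ∨ 0 < degreeOf i q := by
  rcases hq with rfl | hq
  · exact ⟨⟨0, hs⟩, Or.inl rfl⟩
  · by_contra hcon
    push Not at hcon
    have h1 : q.totalDegree = 0 := by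
      rw [totalDegree_eq_zero_iff]
      intro m hm x
      have h2 := monomial_le_degreeOf x hm
      have h3 := (hcon x).2
      omega
    have h2 := totalDegree_eq_zero_iff_eq_C.1 h1
    have h3 : coeff 0 q ≠ 0 := by
      intro h4
      rw [h4, C_0] at h2
      exact hq.ne_zero h2
    apply hq.not_isUnit
    rw [h2]
    exact (isUnit_iff_ne_zero.2 h3).map C

private theorem ind38 {s : ℕ} {K : Type u} [Field K] {R : Type v} [CommRing R] [Algebra K R]
    (g : MvPolynomial (Fin s) K →ₐ[K] R) (P : Ideal R) {q : MvPolynomial (Fin s) K}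
    (hq : q = 0 ∨ Prime q) (hP : ∀ a, g a ∈ P → a ∈ Ideal.span {q}) (hs : 0 < s) :
    ∃ i : Fin s, AlgebraicIndependent K
      (fun j : {j : Fin s // j ≠ i} => Ideal.Quotient.mkₐ K P (g (X j.1))) := by
  obtain ⟨i, hi⟩ := deg38 hs hq
  refine ⟨i, ?_⟩
  rw [algebraicIndependent_iff]
  intro f hf
  have e : (aeval (fun j : {j : Fin s // j ≠ i} => Ideal.Quotient.mkₐ K P (g (X j.1))) :
      MvPolynomial {j : Fin s // j ≠ i} K →ₐ[K] R ⧸ P) =
      ((Ideal.Quotient.mkₐ K P).comp g).comp (rename Subtype.val) := by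
    apply MvPolynomial.algHom_ext
    intro j
    rw [aeval_X, AlgHom.comp_apply, AlgHom.comp_apply, rename_X]
  rw [e, AlgHom.comp_apply, AlgHom.comp_apply, Ideal.Quotient.mkₐ_eq_mk,
    Ideal.Quotient.eq_zero_iff_mem] at hf
  have h1 := Ideal.mem_span_singleton.1 (hP _ hf)
  apply rename_injective _ Subtype.val_injective
  rw [map_zero]
  rcases hi with rfl | hi
  · exact zero_dvd_iff.1 h1
  · by_contra h0
    obtain ⟨r, hr⟩ := h1
    have hq0 : q ≠ 0 := by
      rintro rfl
      exact h0 (by rw [hr, zero_mul])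
    have hr0 : r ≠ 0 := by
      rintro rfl
      exact h0 (by rw [hr, mul_zero])
    have h2 : degreeOf i (rename (Subtype.val : {j : Fin s // j ≠ i} → Fin s) f) = 0 := by
      rw [← Nat.le_zero, degreeOf_le_iff]
      intro m hm
      obtain ⟨u, hu, -⟩ := coeff_rename_ne_zero _ _ _ (mem_support_iff.1 hm)
      rw [← hu]
      exact (Finsupp.mapDomain_of_notMem_range _ _ (by
        rintro ⟨j, hj⟩
        exact j.2 hj)).le
    rw [hr, degreeOf_mul_eq hq0 hr0] at h2
    omega

theorem krull_one {K : Type u} [Field K] {R : Type v} [CommRing R] [IsDomain R] [Algebra K R]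
    [Algebra.FiniteType K R] (Q : Ideal R) [Q.IsPrime] (h : R) (hh : h ∈ Q) :
    ∃ P : Ideal R, P.IsPrime ∧ P ≤ Q ∧ h ∈ P ∧
      Algebra.trdeg K R ≤ Algebra.trdeg K (R ⧸ P) + 1 := by
  obtain ⟨P, hPmin, hPQ⟩ := Ideal.exists_minimalPrimes_le (I := Ideal.span {h}) (J := Q)
    ((Ideal.span_singleton_le_iff_mem Q).2 hh)
  have iP : P.IsPrime := hPmin.1.1
  have iN : IsNoetherianRing R := Algebra.FiniteType.isNoetherianRing K R
  have hht : P.height ≤ 1 :=
    Ideal.height_le_one_of_isPrincipal_of_mem_minimalPrimes (Ideal.span {h}) P hPmin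
  refine ⟨P, iP, hPQ, hPmin.1.2 (Ideal.mem_span_singleton_self h), ?_⟩
  obtain ⟨s, g, hinj, hint⟩ := exists_integral_inj_algHom_of_fg K R
  let _ : Algebra (MvPolynomial (Fin s) K) R := g.toRingHom.toAlgebra
  have i1 : IsScalarTower K (MvPolynomial (Fin s) K) R :=
    IsScalarTower.of_algebraMap_eq' g.comp_algebraMap.symm
  have i2 : FaithfulSMul (MvPolynomial (Fin s) K) R :=
    (faithfulSMul_iff_algebraMap_injective _ R).2 hinj
  have i3 : Algebra.IsIntegral (MvPolynomial (Fin s) K) R := ⟨fun r => hint r⟩
  have h1 := Ideal.height_eq_height_add_of_liesOver_of_hasGoingDown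
    (P.under (MvPolynomial (Fin s) K)) P
  have hp : (P.under (MvPolynomial (Fin s) K)).height ≤ 1 :=
    (le_self_add.trans_eq h1.symm).trans hht
  obtain ⟨q, hq, hpq⟩ := hgt38 (P.under (MvPolynomial (Fin s) K)) hp
  have htr : Algebra.trdeg K R = s := by
    have h2 := _root_.lift_trdeg_add_eq K (MvPolynomial (Fin s) K) R
    rw [_root_.trdeg_eq_zero (R := MvPolynomial (Fin s) K) (A := R),
      MvPolynomial.trdeg_of_isDomain] at h2
    simp only [Cardinal.mk_fin, Cardinal.lift_natCast, Cardinal.lift_zero, add_zero] at h2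
    exact Cardinal.lift_eq_nat_iff.1 h2.symm
  rw [htr]
  rcases Nat.eq_zero_or_pos s with hs | hs
  · subst hs
    rw [Nat.cast_zero]
    exact zero_le
  · obtain ⟨i, hi⟩ := ind38 g P hq (fun a ha => by
      rw [← hpq]
      exact ha) hs
    have h2 := hi.lift_cardinalMk_le_trdeg
    rw [Cardinal.mk_fintype, Fintype.card_subtype_compl, Fintype.card_fin,
      Fintype.card_subtype_eq, Cardinal.lift_natCast, Cardinal.lift_id'] at h2
    calc (s : Cardinal) = ((s - 1 : ℕ) : Cardinal) + 1 := by
          rw [← Nat.cast_succ, Nat.succ_eq_add_one, Nat.sub_add_cancel hs]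
      _ ≤ _ := add_le_add_left h2 1

end Pool.Agent.Helper30.RY
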