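import Mathlib
import Pool.Agent.Helper30.RY.Gen

/-!
# Block RY-SPC: specialisations

* `rk_le`: if `b i`, `i ∈ I`, are algebraically independent (a basis of `rg b` in the matroid, choose
  indices), then so are the `a i`, `i ∈ I`: a relation `p(a_I) = 0` specialises to `p(b_I) = 0`.
* `symm_of_rk`: let `b_I` be a basis of `rg b` (a maximal algebraically independent subfamily).  Then
  `a_I` is algebraically independent, and by the hypothesis on the ranks all `a i` are algebraic
  over `K(a_I)`.  Suppose `p(b) = 0` and `p(a) ≠ 0`.  The element `p(a)` is nonzero and algebraic over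
  `K(a_I)`, so it satisfies `∑_j q_j(a_I) p(a)^j = 0` with polynomials `q_j` over `K` and
  `q_0(a_I) ≠ 0` (divide by a power of `p(a)`).  Specialise: `q_0(b_I) = 0`, hence `q_0 = 0`, a
  contradiction.
* `elim_generic`: a relation `P(a, t) = 0`: as `t` is algebraically independent over `K(a)`
  (`algInd_of_generic`), `P(a, U) = 0` as a polynomial in `U`, so all its coefficients (polynomials
  in `a` over `K`) vanish at `a`, hence at `b`, hence `P(b, u) = 0`.  Use
  `MvPolynomial.sumAlgEquiv` or an explicit expansion.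
* `eval_zero`: polynomials with coefficients depending polynomially on the point.
-/

set_option linter.unusedSectionVars false

namespace Pool.Agent.Helper30.RY

open MvPolynomial

variable {K : Type*} {Ω Ω' Ω'' : Type*} [Field K] [Field Ω] [Algebra K Ω] [Field Ω'] [Algebra K Ω']
  [Field Ω''] [Algebra K Ω''] {ι : Type*}

theorem Spc.refl (a : ι → Ω) : Spc K a a := fun _ h => h

theorem Spc.trans {a : ι → Ω} {b : ι → Ω'} {c : ι → Ω''} (h : Spc K a b) (h' : Spc K b c) :
    Spc K a c := fun p hp => h' p (h p hp)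

theorem Spc.comp {a : ι → Ω} {b : ι → Ω'} (h : Spc K a b) {κ : Type*} (g : κ → ι) :
    Spc K (a ∘ g) (b ∘ g) := by
  intro p hp
  rw [← aeval_rename] at hp ⊢
  exact h _ hp

theorem Spc.poly {a : ι → Ω} {b : ι → Ω'} (h : Spc K a b) {κ : Type*} (p : κ → MvPolynomial ι K) :
    Spc K (fun j => aeval a (p j)) (fun j => aeval b (p j)) := by
  intro q hq
  rw [← aeval_bind₁] at hq ⊢
  exact h _ hq

/-- points given by homomorphisms of a ring of functions -/
theorem Spc.of_hom {R : Type*} [CommRing R] [Algebra K R] (φ : R →ₐ[K] Ω) (ψ : R →ₐ[K] Ω')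
    (h : ∀ x, φ x = 0 → ψ x = 0) (g : ι → R) : Spc K (fun i => φ (g i)) (fun i => ψ (g i)) := by
  intro p hp
  rw [← MvPolynomial.comp_aeval_apply] at hp ⊢
  exact h _ hp

/-- a specialisation is a homomorphism -/
theorem Spc.exists_hom {a : ι → Ω} {b : ι → Ω'} (h : Spc K a b) :
    ∃ φ : Algebra.adjoin K (Set.range a) →ₐ[K] Ω',
      ∀ i, φ ⟨a i, Algebra.subset_adjoin (Set.mem_range_self i)⟩ = b i := by
  set π : MvPolynomial ι K →ₐ[K] Algebra.adjoin K (Set.range a) :=
    aeval (fun i => (⟨a i, Algebra.subset_adjoin (Set.mem_range_self i)⟩ :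
      Algebra.adjoin K (Set.range a))) with hπdef
  have hval : ∀ p, ((π p : Algebra.adjoin K (Set.range a)) : Ω) = aeval a p := by
    intro p
    have h1 := MvPolynomial.comp_aeval_apply (Algebra.adjoin K (Set.range a)).val
      (f := fun i => (⟨a i, Algebra.subset_adjoin (Set.mem_range_self i)⟩ :
        Algebra.adjoin K (Set.range a))) p
    exact h1
  have hπ : Function.Surjective π := by
    rintro ⟨x, hx⟩
    have hx' := hx
    rw [Algebra.adjoin_range_eq_range_aeval] at hx'
    obtain ⟨p, hp⟩ := hx'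
    refine ⟨p, Subtype.ext ?_⟩
    rw [hval]
    exact hp
  have hker : ∀ p ∈ RingHom.ker π, (aeval b : MvPolynomial ι K →ₐ[K] Ω') p = 0 := by
    intro p hp
    refine h p ?_
    rw [← hval, (RingHom.mem_ker.1 hp : π p = 0)]
    rfl
  refine ⟨(Ideal.Quotient.liftₐ (RingHom.ker π) (aeval b) hker).comp
    (Ideal.quotientKerAlgEquivOfSurjective hπ).symm.toAlgHom, fun i => ?_⟩
  have h1 : (Ideal.quotientKerAlgEquivOfSurjective hπ).symm (π (X i)) =
      Ideal.Quotient.mk (RingHom.ker π) (X i) := by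
    rw [AlgEquiv.symm_apply_eq]
    rfl
  have h2 : π (X i) = ⟨a i, Algebra.subset_adjoin (Set.mem_range_self i)⟩ := by
    rw [hπdef, aeval_X]
  rw [← h2]
  show (Ideal.Quotient.liftₐ (RingHom.ker π) (aeval b) hker)
    ((Ideal.quotientKerAlgEquivOfSurjective hπ).symm (π (X i))) = b i
  rw [h1]
  show (aeval b : MvPolynomial ι K →ₐ[K] Ω') (X i) = b i
  rw [aeval_X]

/-- a coordinate which vanishes specialises to zero -/
theorem Spc.eq_zero {a : ι → Ω} {b : ι → Ω'} (h : Spc K a b) {i : ι} (hi : a i = 0) : b i = 0 := by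
  have h1 := h (X i) (by rw [aeval_X]; exact hi)
  rwa [aeval_X] at h1

variable [Fintype ι] [DecidableEq Ω] [DecidableEq Ω']

/-- the rank of an algebraically independent tuple -/
private theorem rk_indep68 {κ : Type*} [Fintype κ] {x : κ → Ω} (hx : AlgebraicIndependent K x) :
    rk K (rg x) = Fintype.card κ := by
  have h1 : (AlgebraicIndependent.matroid K Ω).Indep ((rg x : Finset Ω) : Set Ω) := by
    rw [AlgebraicIndependent.matroid_indep_iff]
    have h2 : ((rg x : Finset Ω) : Set Ω) = Set.range x := by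
      rw [rg, Finset.coe_image, Finset.coe_univ, Set.image_univ]
    rw [h2]
    exact hx.to_subtype_range
  have h2 := h1.eRk_eq_encard
  rw [← rk_coe, Set.encard_coe_eq_coe_finsetCard] at h2
  have h3 : rk K (rg x) = (rg x).card := by exact_mod_cast h2
  rw [h3, rg, Finset.card_image_of_injective _ hx.injective, Finset.card_univ]

/-- a basis of a tuple -/
private theorem exists_basis68 (b : ι → Ω) :
    ∃ (N : ℕ) (g : Fin N → ι), AlgebraicIndependent K (b ∘ g) ∧
      rk K (rg b) = Fintype.card (Fin N) := by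
  obtain ⟨I, hI⟩ := (AlgebraicIndependent.matroid K Ω).exists_isBasis ((rg b : Finset Ω) : Set Ω)
  have hsub : I ⊆ ((rg b : Finset Ω) : Set Ω) := hI.subset
  have hfin : I.Finite := (Finset.finite_toSet _).subset hsub
  have hind : AlgebraicIndepOn K id I := hI.indep
  have hch : ∀ x : I, ∃ i, b i = x.1 := by
    intro x
    obtain ⟨i, _, hi⟩ := Finset.mem_image.1 (Finset.mem_coe.1 (hsub x.2))
    exact ⟨i, hi⟩
  choose g hg using hch
  have : Fintype I := hfin.fintype
  refine ⟨Fintype.card I, g ∘ (Fintype.equivFin I).symm, ?_, ?_⟩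
  · have h1 : b ∘ (g ∘ (Fintype.equivFin I).symm) =
        (fun x : I => id x.1) ∘ (Fintype.equivFin I).symm := by
      funext x
      exact hg _
    rw [h1]
    exact AlgebraicIndependent.comp hind _ (Fintype.equivFin I).symm.injective
  · rw [Fintype.card_fin]
    have h1 := hI.encard_eq_eRk
    rw [← rk_coe] at h1
    have h2 : (I.encard : ℕ∞) = (Fintype.card I : ℕ) := by
      rw [Set.encard_eq_coe_toFinset_card, Set.toFinset_card]
    rw [h2] at h1
    exact_mod_cast h1.symm

private theorem indep_spc68 {a : ι → Ω} {b : ι → Ω'} (h : Spc K a b) {κ : Type*} {g : κ → ι}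
    (hb : AlgebraicIndependent K (b ∘ g)) : AlgebraicIndependent K (a ∘ g) := by
  rw [algebraicIndependent_iff] at hb ⊢
  intro p hp
  exact hb p (h.comp g p hp)

private theorem rg_comp68 (a : ι → Ω) {κ : Type*} [Fintype κ] (g : κ → ι) : rg (a ∘ g) ⊆ rg a := by
  intro x hx
  obtain ⟨k, _, rfl⟩ := Finset.mem_image.1 hx
  exact Finset.mem_image.2 ⟨g k, Finset.mem_univ _, rfl⟩

private theorem aeval_mem_cl68 (a : ι → Ω) (p : MvPolynomial ι K) {S : Finset Ω}
    (hS : ∀ i, a i ∈ cl K S) : aeval a p ∈ cl K S := by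
  induction p using MvPolynomial.induction_on with
  | C r =>
    rw [MvPolynomial.aeval_C]
    exact (cl K S).algebraMap_mem r
  | add p q hp hq =>
    rw [map_add]
    exact add_mem hp hq
  | mul_X p i hp =>
    rw [map_mul, aeval_X]
    exact mul_mem hp (hS i)

omit [Fintype ι] [DecidableEq Ω] [DecidableEq Ω'] in
private theorem aeval_sum68 {κ : Type*} (a : ι → Ω) (t : κ → Ω) (P : MvPolynomial (ι ⊕ κ) K) :
    aeval (Sum.elim a t) P = eval t (map ((aeval a : MvPolynomial ι K →ₐ[K] Ω) :
      MvPolynomial ι K →+* Ω) ((aeval (Sum.elim (fun i => C (X i)) (fun k => X k)) :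
        MvPolynomial (ι ⊕ κ) K →ₐ[K] MvPolynomial κ (MvPolynomial ι K)) P)) := by
  induction P using MvPolynomial.induction_on with
  | C r =>
    rw [MvPolynomial.aeval_C, MvPolynomial.aeval_C, MvPolynomial.algebraMap_apply, map_C, eval_C]
    rw [MvPolynomial.algebraMap_eq]
    exact (MvPolynomial.aeval_C a r).symm
  | add p q hp hq => rw [map_add, map_add, map_add, map_add, hp, hq]
  | mul_X p i hp =>
    rw [map_mul, map_mul, map_mul, map_mul, hp, aeval_X, aeval_X]
    congr 1
    rcases i with i | k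
    · rw [Sum.elim_inl, Sum.elim_inl, map_C, eval_C]
      exact (aeval_X a i).symm
    · rw [Sum.elim_inr, Sum.elim_inr, map_X, eval_X]

theorem Spc.rk_le {a : ι → Ω} {b : ι → Ω'} (h : Spc K a b) : rk K (rg b) ≤ rk K (rg a) := by
  obtain ⟨N, g, hg, hr⟩ := exists_basis68 (K := K) b
  rw [hr, ← rk_indep68 (indep_spc68 h hg)]
  exact rk_mono K (rg_comp68 a g)

theorem Spc.symm_of_rk {a : ι → Ω} {b : ι → Ω'} (h : Spc K a b)
    (hr : rk K (rg a) ≤ rk K (rg b)) : Spc K b a := by
  classical
  obtain ⟨N, g, hg, hrb⟩ := exists_basis68 (K := K) b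
  have hga := indep_spc68 h hg
  have hcl : ∀ x ∈ rg a, x ∈ cl K (rg (a ∘ g)) := by
    refine subset_cl_of_rk_le K ?_
    rw [Finset.union_eq_right.2 (rg_comp68 a g), rk_indep68 hga, ← hrb]
    exact hr
  intro p hp
  by_contra hne
  have hy : aeval a p ∈ cl K (rg (a ∘ g)) :=
    aeval_mem_cl68 a p fun i => hcl _ (Finset.mem_image.2 ⟨i, Finset.mem_univ i, rfl⟩)
  have hy' : aeval a p ∈ (AlgebraicIndependent.matroid K Ω).closure ((rg (a ∘ g) : Finset Ω) : Set Ω) := by
    rw [closure_eq_cl]
    exact hy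
  have hrange : ((rg (a ∘ g) : Finset Ω) : Set Ω) = Set.range (a ∘ g) := by
    rw [rg, Finset.coe_image, Finset.coe_univ, Set.image_univ]
  rw [hrange, AlgebraicIndependent.matroid_closure_eq, SetLike.mem_coe,
    Subalgebra.mem_algebraicClosure] at hy'
  obtain ⟨Q, hQ0, hQ⟩ := hy'.exists_nonzero_coeff_and_aeval_eq_zero
    (mem_nonZeroDivisors_of_ne_zero hne)
  have hq : ∀ j, ((Q.coeff j : Algebra.adjoin K (Set.range (a ∘ g))) : Ω) =
      aeval (a ∘ g) (hga.aevalEquiv.symm (Q.coeff j)) := by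
    intro j
    have h1 := hga.algebraMap_aevalEquiv (hga.aevalEquiv.symm (Q.coeff j))
    rw [AlgEquiv.apply_symm_apply] at h1
    exact h1
  have hT : aeval a (∑ j ∈ Finset.range (Q.natDegree + 1),
      rename g (hga.aevalEquiv.symm (Q.coeff j)) * p ^ j) = 0 := by
    rw [map_sum, ← hQ, Polynomial.aeval_eq_sum_range]
    refine Finset.sum_congr rfl fun j _ => ?_
    rw [map_mul, map_pow, aeval_rename, ← hq, Algebra.smul_def]
    rfl
  have hT' := h _ hT
  rw [map_sum, Finset.sum_eq_single 0] at hT'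
  · rw [pow_zero, mul_one, aeval_rename] at hT'
    have h1 := algebraicIndependent_iff.1 hg _ hT'
    have h2 := hq 0
    rw [h1, map_zero] at h2
    exact hQ0 (Subtype.ext h2)
  · intro j _ hj
    rw [map_mul, map_pow, hp, zero_pow hj, mul_zero]
  · intro h0
    exact absurd (Finset.mem_range.2 (Nat.succ_pos _)) h0

theorem Spc.elim_generic {a : ι → Ω} {b : ι → Ω'} (h : Spc K a b) {κ : Type*} [Fintype κ]
    (t : κ → Ω) (ht : rk K (rg a ∪ rg t) = rk K (rg a) + Fintype.card κ) (u : κ → Ω') :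
    Spc K (Sum.elim a t) (Sum.elim b u) := by
  intro P hP
  rw [aeval_sum68] at hP ⊢
  set P' := (aeval (Sum.elim (fun i => C (X i)) (fun k => X k)) :
        MvPolynomial (ι ⊕ κ) K →ₐ[K] MvPolynomial κ (MvPolynomial ι K)) P with hP'
  have h1 : map ((aeval a : MvPolynomial ι K →ₐ[K] Ω) : MvPolynomial ι K →+* Ω) P' = 0 := by
    by_contra hne
    refine eval_ne_zero_of_generic ht _ hne (fun m => ?_) hP
    rw [coeff_map]
    exact aeval_mem_cl68 a _ fun i =>
      subset_cl K _ _ (Finset.mem_image.2 ⟨i, Finset.mem_univ i, rfl⟩)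
  have h2 : map ((aeval b : MvPolynomial ι K →ₐ[K] Ω') : MvPolynomial ι K →+* Ω') P' = 0 := by
    ext m
    rw [coeff_map, coeff_zero]
    have h3 := congrArg (coeff m) h1
    rw [coeff_map, coeff_zero] at h3
    exact h _ h3
  rw [h2, map_zero]

theorem rg_elim {κ : Type*} [Fintype κ] (a : ι → Ω) (t : κ → Ω) :
    rg (Sum.elim a t) = rg a ∪ rg t := by
  ext x
  rw [Finset.mem_union]
  constructor
  · intro hx
    obtain ⟨i, _, rfl⟩ := Finset.mem_image.1 hx
    rcases i with i | k
    · exact Or.inl (Finset.mem_image.2 ⟨i, Finset.mem_univ i, rfl⟩)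
    · exact Or.inr (Finset.mem_image.2 ⟨k, Finset.mem_univ k, rfl⟩)
  · rintro (hx | hx)
    · obtain ⟨i, _, rfl⟩ := Finset.mem_image.1 hx
      exact Finset.mem_image.2 ⟨Sum.inl i, Finset.mem_univ _, rfl⟩
    · obtain ⟨k, _, rfl⟩ := Finset.mem_image.1 hx
      exact Finset.mem_image.2 ⟨Sum.inr k, Finset.mem_univ _, rfl⟩

end Pool.Agent.Helper30.RY
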