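import Mathlib
import Pool.Agent.Helper30.RY.Spc

/-!
# Block RY-REAL: prime ideals have generic points in `Ω`

* `exists_real`: `R / P` is a domain of finite type over `K`; let `F` be its fraction field and
  `x_1, ..., x_r` a (finite) transcendence basis of `F` over `K` (`exists_isTranscendenceBasis'`,
  `trdeg_lt_aleph0_of_finiteType`).  Choose a generic tuple `t` of length `r` in `Ω` over `∅`
  (`exists_generic`); it is algebraically independent over `K`.  The isomorphism
  `K[x] ≃ K[t]` (both polynomial rings) extends to the fields of fractions, and then to `F`, which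
  is algebraic over `K(x)` (`IsAlgClosed.lift`).  The composition `R → R / P → F → Ω` has kernel `P`.
* `rk_eq_trdeg`: if `φ : R →ₐ Ω` is injective and `g : J → R` generates the algebra `R`, then
  `rk K (rg (φ ∘ g))` is the transcendence degree of `R` over `K`: a basis of the finite set
  `rg (φ ∘ g)` in the matroid is a transcendence basis of `K[φ ∘ g] = φ(R) ≅ R`
  (`matroid_isBasis_iff`, `IsTranscendenceBasis`, `cardinalMk_eq_trdeg`, or
  `Algebra.trdeg` of the adjoin).
* `exists_real_over`: homogeneity.  Given points `a ~ b` over `K` (each a specialisation of the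
  other) and further coordinates `c`, there are `d` in `Ω` with `(a, c) ~ (b, d)`: the field
  `K(a)` is isomorphic to `K(b)`; extend the embedding `K(a) → Ω`, `a ↦ b`, to `K(a, c)`, which is of
  finite type over `K(a)`: choose a transcendence basis among the `c` over `K(a)`, send it to a tuple
  generic over `rg b` and use `IsAlgClosed.lift` (or apply `exists_real` over the base field
  `K(b)`).
-/

namespace Pool.Agent.Helper30.RY

open MvPolynomial

/-- A domain of finite type over `k` embeds into an algebraically closed field containing enough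
generic tuples. -/
theorem embed_33 {k D Ω : Type*} [CommRing k] [IsDomain k] [CommRing D] [IsDomain D] [Field Ω]
    [IsAlgClosed Ω] (i : k →+* D) (hi : Function.Injective i) (hft : i.FiniteType)
    (σ : k →+* Ω)
    (H : ∀ r : ℕ, ∃ t : Fin r → Ω, ∀ p : MvPolynomial (Fin r) k, eval₂ σ t p = 0 → p = 0) :
    ∃ φ : D →+* Ω, Function.Injective φ ∧ ∀ x, φ (i x) = σ x := by
  let : Algebra k D := i.toAlgebra
  let : Algebra k Ω := σ.toAlgebra
  have : FaithfulSMul k D := (faithfulSMul_iff_algebraMap_injective k D).2 hi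
  obtain ⟨s, hs⟩ : (⊤ : Subalgebra k D).FG := hft.out
  have hA : Algebra.IsAlgebraic (Algebra.adjoin k (s : Set D)) D := by
    rw [hs]
    exact ⟨fun x => isAlgebraic_algebraMap (⟨x, Algebra.mem_top⟩ : (⊤ : Subalgebra k D))⟩
  obtain ⟨u, hus, hu⟩ := exists_isTranscendenceBasis_subset (R := k) (A := D) (s : Set D)
  have : Finite u := (s.finite_toSet.subset hus)
  obtain ⟨r, ⟨e⟩⟩ := Finite.exists_equiv_fin u
  obtain ⟨t, ht⟩ := H r
  set x : Fin r → D := fun j => (e.symm j : D) with hx
  have hxt : IsTranscendenceBasis k x := by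
    have := hu.comp_equiv e.symm
    exact this
  have htinj : Function.Injective (aeval t : MvPolynomial (Fin r) k →ₐ[k] Ω) := by
    rw [injective_iff_map_eq_zero]
    intro p hp
    apply ht
    rw [aeval_def] at hp
    exact hp
  let A1 := Algebra.adjoin k (Set.range x)
  let g : A1 →ₐ[k] Ω := (aeval t).comp (hxt.1.aevalEquiv.symm : A1 →ₐ[k] MvPolynomial (Fin r) k)
  have hg : Function.Injective g := htinj.comp hxt.1.aevalEquiv.symm.injective
  let : Algebra A1 Ω := g.toRingHom.toAlgebra
  have : Algebra.IsAlgebraic A1 D := hxt.isAlgebraic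
  have : Module.IsTorsionFree A1 (FractionRing D) := by
    rw [Module.isTorsionFree_iff_algebraMap_injective]
    exact (IsFractionRing.injective D (FractionRing D)).comp Subtype.val_injective
  have : Module.IsTorsionFree A1 Ω := by
    rw [Module.isTorsionFree_iff_algebraMap_injective]
    exact hg
  have : Algebra.IsAlgebraic A1 (FractionRing D) :=
    (IsFractionRing.isAlgebraic_iff' A1 D (FractionRing D)).1 inferInstance
  let L : FractionRing D →ₐ[A1] Ω := IsAlgClosed.lift
  refine ⟨L.toRingHom.comp (algebraMap D (FractionRing D)), ?_, ?_⟩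
  · exact (RingHom.injective L.toRingHom).comp (IsFractionRing.injective D (FractionRing D))
  · intro y
    have h1 : algebraMap D (FractionRing D) (i y) =
        algebraMap A1 (FractionRing D) (algebraMap k A1 y) := rfl
    have h2 : L (algebraMap A1 (FractionRing D) (algebraMap k A1 y)) =
        algebraMap A1 Ω (algebraMap k A1 y) := L.commutes _
    have h3 : algebraMap A1 Ω (algebraMap k A1 y) = σ y := by
      change g (algebraMap k A1 y) = σ y
      rw [g.commutes]
      rfl
    change L (algebraMap D (FractionRing D) (i y)) = σ y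
    rw [h1, h2, h3]

variable {K : Type*} {Ω : Type*} [Field K] [Field Ω] [Algebra K Ω] [IsAlgClosed Ω] [DecidableEq Ω]

omit [IsAlgClosed Ω] in
theorem gen_33 (hb : Big K Ω) (s : Finset Ω) {k : Type*} [CommRing k] (σ : k →+* Ω)
    (hσ : Function.Injective σ) (hs : ∀ x, σ x ∈ cl K s) (r : ℕ) :
    ∃ t : Fin r → Ω, ∀ p : MvPolynomial (Fin r) k, eval₂ σ t p = 0 → p = 0 := by
  obtain ⟨t, ht⟩ := exists_generic K hb s (Fin r)
  have hi := algInd_of_generic ht
  refine ⟨t, fun p hp => ?_⟩
  let τ : k →+* cl K s := σ.codRestrict (cl K s).toSubring hs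
  have hτ : Function.Injective τ := by
    intro x y h
    apply hσ
    exact congrArg Subtype.val h
  have h1 : (algebraMap (cl K s) Ω).comp τ = σ := by
    ext x
    rfl
  have h2 : aeval t (MvPolynomial.map τ p) = 0 := by
    rw [aeval_def, eval₂_map, h1]
    exact hp
  have h3 : MvPolynomial.map τ p = 0 := hi.eq_zero_of_aeval_eq_zero _ h2
  exact (MvPolynomial.map_injective τ hτ) (by rw [h3, map_zero])

theorem exists_real (hb : Big K Ω) (R : Type*) [CommRing R] [Algebra K R]
    [Algebra.FiniteType K R] (P : Ideal R) [P.IsPrime] :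
    ∃ φ : R →ₐ[K] Ω, ∀ x, φ x = 0 ↔ x ∈ P := by
  obtain ⟨φ, hφ, hc⟩ := embed_33 (algebraMap K (R ⧸ P)) (algebraMap K (R ⧸ P)).injective
    (by
      rw [RingHom.finiteType_algebraMap]
      infer_instance) (algebraMap K Ω)
    (gen_33 hb ∅ (algebraMap K Ω) (algebraMap K Ω).injective (fun x => (cl K ∅).algebraMap_mem x))
  let φ' : (R ⧸ P) →ₐ[K] Ω := { φ with commutes' := hc }
  refine ⟨φ'.comp (Ideal.Quotient.mkₐ K P), fun x => ?_⟩
  rw [← Ideal.Quotient.eq_zero_iff_mem]
  change φ (Ideal.Quotient.mk P x) = 0 ↔ _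
  rw [map_eq_zero_iff φ hφ]

omit [IsAlgClosed Ω] in
theorem rk_eq_trdeg {R : Type*} [CommRing R] [Algebra K R] (φ : R →ₐ[K] Ω)
    (hφ : Function.Injective φ) {J : Type*} [Fintype J] (g : J → R)
    (hg : Algebra.adjoin K (Set.range g) = ⊤) :
    Cardinal.lift.{0} (Algebra.trdeg K R) = (rk K (rg fun j => φ (g j)) : ℕ) := by
  have : IsDomain R := hφ.isDomain φ.toRingHom
  have : Nontrivial R := inferInstance
  have : FaithfulSMul K R :=
    (faithfulSMul_iff_algebraMap_injective K R).2 (algebraMap K R).injective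
  have hA : Algebra.IsAlgebraic (Algebra.adjoin K (Set.range g)) R := by
    rw [hg]
    exact ⟨fun x => isAlgebraic_algebraMap (⟨x, Algebra.mem_top⟩ : (⊤ : Subalgebra K R))⟩
  obtain ⟨u, hus, hu⟩ := exists_isTranscendenceBasis_subset (R := K) (A := R) (Set.range g)
  have hfin : u.Finite := (Set.finite_range g).subset hus
  have hb : (AlgebraicIndependent.matroid K Ω).IsBasis (φ '' u)
      ((rg fun j => φ (g j) : Finset Ω) : Set Ω) := by
    rw [AlgebraicIndependent.matroid_isBasis_iff]
    refine ⟨?_, ?_, ?_⟩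
    · have h1 : AlgebraicIndependent K (fun x : u => φ (x : R)) := hu.1.map' hφ
      have h2 := h1.coe_range
      have h3 : Set.range (fun x : u => φ (x : R)) = φ '' u := by
        ext y; simp
      rw [h3] at h2
      exact h2
    · rintro _ ⟨x, hx, rfl⟩
      obtain ⟨j, rfl⟩ := hus hx
      simp [rg]
    · intro a ha
      obtain ⟨j, rfl⟩ : ∃ j, φ (g j) = a := by simpa [rg] using ha
      have h1 := hu.isAlgebraic.isAlgebraic (g j)
      have h2 : Set.range (fun x : u => (x : R)) = u := Subtype.range_coe
      have h1' : IsAlgebraic (Algebra.adjoin K u) (g j) := by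
        rw [h2] at h1
        exact h1
      let f : Algebra.adjoin K u →ₐ[K] Algebra.adjoin K (φ '' u) :=
        (φ.comp (Algebra.adjoin K u).val).codRestrict _ (by
          intro x
          have h4 : φ (x : R) ∈ (Algebra.adjoin K u).map φ := ⟨x, x.2, rfl⟩
          rw [AlgHom.map_adjoin] at h4
          exact h4)
      refine h1'.ringHom_of_comp_eq (f : Algebra.adjoin K u →+* Algebra.adjoin K (φ '' u))
        (φ : R →+* Ω) ?_ ?_
      · intro x y h
        have h5 : φ (x : R) = φ (y : R) := congrArg Subtype.val h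
        exact Subtype.ext (hφ h5)
      · rfl
  have h1 : (AlgebraicIndependent.matroid K Ω).eRk
      ((rg fun j => φ (g j) : Finset Ω) : Set Ω) = (φ '' u).encard := hb.encard_eq_eRk.symm
  have h2 : (φ '' u).encard = (u.ncard : ℕ∞) := by
    rw [hφ.injOn.encard_image, hfin.cast_ncard_eq]
  have h3 : rk K (rg fun j => φ (g j)) = u.ncard := by
    rw [rk, h1, h2]
    rfl
  rw [Cardinal.lift_uzero, h3, ← hu.cardinalMk_eq_trdeg, Set.cast_ncard hfin]

omit [IsAlgClosed Ω] [DecidableEq Ω] in
theorem exists_aeval_33 {ι : Type*} (a : ι → Ω) (x : Algebra.adjoin K (Set.range a)) :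
    ∃ p : MvPolynomial ι K, aeval a p = (x : Ω) := by
  obtain ⟨x, hx⟩ := x
  rw [Algebra.adjoin_range_eq_range_aeval] at hx
  obtain ⟨p, hp⟩ := hx
  exact ⟨p, hp⟩

theorem exists_real_over (hb : Big K Ω) {ι κ : Type*} [Fintype ι] [Fintype κ] {a b : ι → Ω}
    (h : Spc K a b) (h' : Spc K b a) (c : κ → Ω) :
    ∃ d : κ → Ω, Spc K (Sum.elim a c) (Sum.elim b d) ∧ Spc K (Sum.elim b d) (Sum.elim a c) := by
  obtain ⟨f, hf⟩ := h.exists_hom
  let A0 := Algebra.adjoin K (Set.range a)
  let D := Algebra.adjoin K (Set.range (Sum.elim a c))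
  -- `aeval b p = f (aeval a p)`
  have hev : ∀ p : MvPolynomial ι K, ∀ x : A0, aeval a p = (x : Ω) → aeval b p = f x := by
    intro p x hx
    have h1 : (aeval (fun i => (⟨a i, Algebra.subset_adjoin (Set.mem_range_self i)⟩ : A0)) p : A0)
        = x := by
      apply Subtype.ext
      rw [← hx]
      have := MvPolynomial.map_aeval (fun i =>
        (⟨a i, Algebra.subset_adjoin (Set.mem_range_self i)⟩ : A0)) (A0.val : A0 →+* Ω) p
      change A0.val (aeval _ p) = _
      rw [MvPolynomial.comp_aeval_apply]
      rfl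
    rw [← h1, MvPolynomial.comp_aeval_apply]
    congr 2
    funext i
    exact (hf i).symm
  have hfi : Function.Injective f := by
    rw [injective_iff_map_eq_zero]
    intro x hx
    obtain ⟨p, hp⟩ := exists_aeval_33 a x
    have h1 := hev p x hp
    rw [hx] at h1
    have h2 := h' p h1
    rw [hp] at h2
    exact Subtype.ext h2
  have hle : A0 ≤ D := by
    apply Algebra.adjoin_mono
    rintro _ ⟨i, rfl⟩
    exact ⟨Sum.inl i, rfl⟩
  let i : A0 →ₐ[K] D := Subalgebra.inclusion hle
  have hii : Function.Injective i := Subalgebra.inclusion_injective hle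
  have hft : (i : A0 →+* D).FiniteType := by
    have hKD : (algebraMap K D).FiniteType := by
      rw [RingHom.finiteType_algebraMap]
      exact (Subalgebra.fg_iff_finiteType _).1
        (Subalgebra.fg_def.2 ⟨_, Set.finite_range _, rfl⟩)
    have : ((i : A0 →+* D).comp (algebraMap K A0)) = algebraMap K D := i.comp_algebraMap
    exact RingHom.FiniteType.of_comp_finiteType (f := algebraMap K A0) (by rw [this]; exact hKD)
  have hcl : ∀ x : A0, f x ∈ cl K (rg b) := by
    intro x
    obtain ⟨p, hp⟩ := exists_aeval_33 a x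
    rw [← hev p x hp]
    have h1 : aeval b p ∈ Algebra.adjoin K (Set.range b) := by
      rw [Algebra.adjoin_range_eq_range_aeval]
      exact ⟨p, rfl⟩
    have h2 : Algebra.adjoin K (Set.range b) ≤ (cl K (rg b)).toSubalgebra := by
      apply Algebra.adjoin_le
      rintro _ ⟨j, rfl⟩
      exact subset_cl K (rg b) (b j) (by simp [rg])
    exact h2 h1
  obtain ⟨φ, hφ, hc⟩ := embed_33 (i : A0 →+* D) hii hft (f : A0 →+* Ω)
    (gen_33 hb (rg b) (f : A0 →+* Ω) hfi hcl)
  have hcomm : ∀ x : K, φ (algebraMap K D x) = algebraMap K Ω x := by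
    intro x
    have h1 := hc (algebraMap K A0 x)
    have h2 : (i : A0 →+* D) (algebraMap K A0 x) = algebraMap K D x := i.commutes x
    have h3 : (f : A0 →+* Ω) (algebraMap K A0 x) = algebraMap K Ω x := f.commutes x
    rw [h2, h3] at h1
    exact h1
  let φ' : D →ₐ[K] Ω := { φ with commutes' := hcomm }
  have hφ' : Function.Injective φ' := hφ
  let w : ι ⊕ κ → D := fun j => ⟨Sum.elim a c j, Algebra.subset_adjoin (Set.mem_range_self j)⟩
  have hw1 : (fun j => D.val (w j)) = Sum.elim a c := rfl
  have hw2 : (fun j => φ' (w j)) = Sum.elim b fun j => φ' (w (Sum.inr j)) := by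
    funext j
    rcases j with j | j
    · have h1 := hc ⟨a j, Algebra.subset_adjoin (Set.mem_range_self j)⟩
      have h2 : (i : A0 →+* D) ⟨a j, Algebra.subset_adjoin (Set.mem_range_self j)⟩ =
          w (Sum.inl j) := rfl
      rw [h2] at h1
      change φ (w (Sum.inl j)) = b j
      rw [h1]
      exact hf j
    · rfl
  refine ⟨fun j => φ' (w (Sum.inr j)), ?_, ?_⟩
  · rw [← hw2, ← hw1]
    apply Spc.of_hom D.val φ'
    intro x hx
    have : x = 0 := Subtype.ext hx
    rw [this, map_zero]
  · rw [← hw2, ← hw1]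
    apply Spc.of_hom φ' D.val
    intro x hx
    have : x = 0 := (map_eq_zero_iff φ' hφ').1 hx
    rw [this, map_zero]

end Pool.Agent.Helper30.RY
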