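import Mathlib
import Pool.Agent.Helper30.RY.KruA
import Pool.Agent.Helper30.RY.Real

/-!
# Block RY-KRUB: specialisations which satisfy additional equations

`R` is a `K`-algebra of finite type, embedded in `Ω` by `φ₀`; `ψ : R → L` is a homomorphism to a
field, and `h_1, ..., h_r` are elements of `R` with `ψ (h_i) = 0`.  Then there is a homomorphism
`φ : R → Ω` between `φ₀` and `ψ` (`φ x = 0` implies `ψ x = 0`) with `φ (h_i) = 0`, and the
transcendence degree drops by at most `r`.

Proof: by induction on `r` (for `Finset` or `Fin r`) one finds a prime ideal `P ≤ ker ψ` containing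
the `h_i` with `trdeg R ≤ trdeg (R / P) + r`: for the step apply `krull_one` to the domain `R / P`
(of finite type), its prime ideal `ker ψ / P` and the class of the next `h`; pull back.
Then `exists_real` gives `φ` with kernel `P`, and `rk_eq_trdeg` (for `R → Ω`, `φ₀`, and for
`R / P → Ω`) translates the transcendence degrees into ranks.
-/

namespace Pool.Agent.Helper30.RY

universe u v w

private theorem exists_quot46 {K : Type u} [Field K] {R : Type v} [CommRing R] [IsDomain R] [Algebra K R]
    [Algebra.FiniteType K R] {L : Type w} [Field L] [Algebra K L] [DecidableEq R] (ψ : R →ₐ[K] L) (S : Finset R) :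
    (∀ x ∈ S, ψ x = 0) → ∃ (R' : Type v) (_ : CommRing R') (_ : IsDomain R') (_ : Algebra K R')
      (f : R →ₐ[K] R') (ψ' : R' →ₐ[K] L), Function.Surjective f ∧ (∀ x, ψ x = ψ' (f x)) ∧
      (∀ x ∈ S, f x = 0) ∧ Algebra.trdeg K R ≤ Algebra.trdeg K R' + S.card := by
  induction S using Finset.induction_on with
  | empty =>
    intro _
    refine ⟨R, inferInstance, inferInstance, inferInstance, AlgHom.id K R, ψ, fun x => ⟨x, rfl⟩, fun _ => rfl,
      fun x hx => absurd hx (Finset.notMem_empty x), ?_⟩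
    rw [Finset.card_empty, Nat.cast_zero, add_zero]
  | insert h S hS ih =>
    intro hψ
    obtain ⟨R', i1, i2, i3, f, ψ', hf, hfψ, hfS, htr⟩ := ih fun x hx => hψ x (Finset.mem_insert_of_mem hx)
    have : Algebra.FiniteType K R' := Algebra.FiniteType.of_surjective f hf
    have hQ : (RingHom.ker ψ'.toRingHom).IsPrime := RingHom.ker_isPrime _
    have hh : f h ∈ RingHom.ker ψ'.toRingHom := by
      rw [RingHom.mem_ker]
      change ψ' (f h) = 0
      rw [← hfψ]
      exact hψ h (Finset.mem_insert_self _ _)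
    obtain ⟨P, hP, hPQ, hhP, htr'⟩ := krull_one (K := K) (RingHom.ker ψ'.toRingHom) (f h) hh
    have : IsDomain (R' ⧸ P) := Ideal.Quotient.isDomain P
    refine ⟨R' ⧸ P, inferInstance, inferInstance, inferInstance, (Ideal.Quotient.mkₐ K P).comp f,
      Ideal.Quotient.liftₐ P ψ' fun a ha => ?_, ?_, fun x => ?_, fun x hx => ?_, ?_⟩
    · exact (RingHom.mem_ker).1 (hPQ ha)
    · exact (Ideal.Quotient.mkₐ_surjective K P).comp hf
    · rw [hfψ]
      rfl
    · rcases Finset.mem_insert.1 hx with rfl | hx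
      · exact Ideal.Quotient.eq_zero_iff_mem.2 hhP
      · change Ideal.Quotient.mk P (f x) = 0
        rw [hfS x hx, map_zero]
    · rw [Finset.card_insert_of_notMem hS]
      calc Algebra.trdeg K R ≤ Algebra.trdeg K R' + S.card := htr
        _ ≤ (Algebra.trdeg K (R' ⧸ P) + 1) + S.card := by gcongr
        _ = Algebra.trdeg K (R' ⧸ P) + ((S.card + 1 : ℕ) : Cardinal) := by
            push_cast
            rw [add_assoc, add_comm (1 : Cardinal)]

theorem exists_between {K : Type*} {Ω : Type*} [Field K] [Field Ω] [Algebra K Ω] [IsAlgClosed Ω]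
    [DecidableEq Ω] (hb : Big K Ω) {R : Type*} [CommRing R] [Algebra K R]
    [Algebra.FiniteType K R] (φ₀ : R →ₐ[K] Ω) (hφ₀ : Function.Injective φ₀) {L : Type*} [Field L]
    [Algebra K L] (ψ : R →ₐ[K] L) (S : Finset R) (hS : ∀ x ∈ S, ψ x = 0) :
    ∃ φ : R →ₐ[K] Ω, (∀ x ∈ S, φ x = 0) ∧ (∀ x, φ x = 0 → ψ x = 0) ∧
      ∀ {J : Type} [Fintype J] (g : J → R), Algebra.adjoin K (Set.range g) = ⊤ →
        rk K (rg fun j => φ₀ (g j)) ≤ rk K (rg fun j => φ (g j)) + S.card := by
  classical
  have : IsDomain R := hφ₀.isDomain φ₀.toRingHom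
  obtain ⟨R', i1, i2, i3, f, ψ', hf, hfψ, hfS, htr⟩ := exists_quot46 ψ S hS
  have : Algebra.FiniteType K R' := Algebra.FiniteType.of_surjective f hf
  obtain ⟨φ', hφ'⟩ := exists_real hb R' (⊥ : Ideal R')
  have hinj : Function.Injective φ' := by
    rw [injective_iff_map_eq_zero]
    intro x hx
    exact Ideal.mem_bot.1 ((hφ' x).1 hx)
  refine ⟨φ'.comp f, fun x hx => ?_, fun x hx => ?_, fun g hg => ?_⟩
  · rw [AlgHom.comp_apply, hfS x hx, map_zero]
  · rw [AlgHom.comp_apply] at hx
    rw [hfψ, hinj (hx.trans (map_zero φ').symm), map_zero]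
  · have h1 := rk_eq_trdeg φ₀ hφ₀ g hg
    have hg' : Algebra.adjoin K (Set.range fun j => f (g j)) = ⊤ := by
      have h2 : Set.range (fun j => f (g j)) = f '' Set.range g := by
        rw [← Set.range_comp]
        rfl
      rw [h2, ← AlgHom.map_adjoin, hg, Algebra.map_top, AlgHom.range_eq_top]
      exact hf
    have h3 := rk_eq_trdeg φ' hinj (fun j => f (g j)) hg'
    rw [Cardinal.lift_uzero] at h1 h3
    rw [h1, h3] at htr
    have h4 : rk K (rg fun j => φ₀ (g j)) ≤ rk K (rg fun j => φ' (f (g j))) + S.card := by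
      exact_mod_cast htr
    exact h4

end Pool.Agent.Helper30.RY
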