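import Mathlib
import Pool.Agent.Helper30.RY.BlA
import Pool.Agent.Helper30.RY.KruB
import Pool.Agent.Helper30.RY.Fcv

/-!
# Block RY-BLB: bend and break

Notation of `bl_val`.  Let `c₁ m = c m / c α` and let `R` be the `K`-subalgebra of `Ω` generated by the
coordinates of the point `pt c₁ τ b e`; it is contained in `O` (note that `pt` only uses the
`τ i` with `1 ≤ i < e` and the `b l` with `l ≤ e`).  Let `ψ : R → κ` be the restriction of the residue map of
`O`, a `K`-algebra homomorphism (the `K`-algebra structure of the residue field `κ` comes from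
`K → O`).  Let `S ⊆ R` be the finite set of the `τ i` with `(τ i)⁻¹ ∉ O`, `1 ≤ i < e`; `ψ` vanishes on
`S`, and `S` has at most `B.card` elements, where `B` is the set of these `i`.
`exists_between` gives `φ : R →ₐ[K] Ω`; put `c' = φ ∘ c₁`, `τ' = φ ∘ τ`, `a' = φ ∘ b` (extended by, say, `1` and
`0` outside the relevant range of indices).

* `pt c₁ τ b e ⟶ pt c' τ' a' e` is `Spc.of_hom`.
* `c' α = φ 1 = 1`.
* For `1 ≤ i < e`: `τ' i = 0` iff `(τ i)⁻¹ ∉ O` (if `(τ i)⁻¹ ∈ O`, then `ψ (τ i) ≠ 0`, so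
  `φ (τ i) ≠ 0`).  So `brk τ' e = B`, nonempty.
* Chain equations: `Vanp (fm c₁) a e` (`fm_smul`: `fm c₁ = C (c α)⁻¹ * fm c`), so
  `Vanp (fm c₁) (fun l i => wt e τ l * b l i) e` (`vanp_scale`), so `FCp (fm c₁) τ b e` (`fcp_of_vanp`); lift to
  `R` (`fcp_of_map` for the inclusion `R → Ω`), apply `φ` (`fcp_map`).  The same with `pderiv i`.
* Nodes: for `j = 0`, `j = e`, `j ∈ B` some coordinate of `b j` is a unit of `O`, so `ψ` does not vanish
  on it, so `φ` does not vanish on it.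
* `b 0 = a 0 = x` (`wt_zero`), and `φ` fixes `K`.
* `b e = ζ • y` with `ζ ∈ Ω`; choose `i₀` with `y i₀ ≠ 0`; then `ζ = b e i₀ / y i₀ ∈ R`, so
  `a' e = φ(ζ) • y`, and `φ(ζ) ≠ 0` since `a' e ≠ 0`.
* Ranks: `exists_between` with `g = ` the coordinates of `pt c₁ τ b e` (indexed by a `Fintype` in
  `Type`) gives `rk (rg c₁ ∪ rgt τ e ∪ rga b e) ≤ rk (rg c' ∪ rgt τ' e ∪ rga a' e) + S.card`; together
  with the last claim of `bl_val`.
-/

namespace Pool.Agent.Helper30.RY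

open MvPolynomial

variable {K : Type*} [Field K] {Ω : Type*} [Field Ω] [Algebra K Ω] [IsAlgClosed Ω]
  [DecidableEq Ω] {n d : ℕ}

omit [Field K] [Algebra K Ω] [IsAlgClosed Ω] in
theorem rg_pt (c : Mon n d → Ω) (τ : ℕ → Ω) (a : ℕ → Fin (n + 1) → Ω) (e : ℕ) :
    rg (pt c τ a e) = rg c ∪ rgt τ e ∪ rga a e := by
  ext x
  simp only [rg, rgt, rga, Finset.mem_image, Finset.mem_univ, true_and, Finset.mem_union,
    Finset.mem_biUnion, Finset.mem_range, Finset.mem_Ico]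
  constructor
  · rintro ⟨j, rfl⟩
    rcases j with m | i | ⟨l, i⟩
    · exact Or.inl (Or.inl ⟨m, rfl⟩)
    · refine Or.inl (Or.inr ⟨i + 1, ⟨by omega, ?_⟩, rfl⟩)
      have := i.2
      omega
    · exact Or.inr ⟨l, l.2, i, rfl⟩
  · rintro ((⟨m, rfl⟩ | ⟨i, ⟨hi1, hi2⟩, rfl⟩) | ⟨l, hl, i, rfl⟩)
    · exact ⟨Sum.inl m, rfl⟩
    · refine ⟨Sum.inr (Sum.inl ⟨i - 1, by omega⟩), ?_⟩
      change τ (i - 1 + 1) = τ i
      rw [Nat.sub_add_cancel hi1]
    · exact ⟨Sum.inr (Sum.inr (⟨l, hl⟩, i)), rfl⟩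

omit [Algebra K Ω] [IsAlgClosed Ω] [DecidableEq Ω] [Field K] in
theorem fcp_key_33 {R : Type*} [CommRing R] (ι φ : R →+* Ω) (hι : Function.Injective ι)
    {f : MvPolynomial (Fin (n + 1)) R} {q : ℕ} (hf : (map ι f).IsHomogeneous q) {θ : Ω}
    {a : ℕ → Fin (n + 1) → Ω} {e : ℕ} (tR : ℕ → R) (bR : ℕ → Fin (n + 1) → R)
    (hτ : ∀ s, 1 ≤ s → s < e → ι (tR s) ≠ 0)
    (hab : ∀ l ≤ e, ∀ i, θ ^ l * a l i = wt e (fun s => ι (tR s)) l * ι (bR l i))
    (hV : Vanp (map ι f) a e) :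
    FCp (map φ f) (fun s => φ (tR s)) (fun l i => φ (bR l i)) e := by
  apply fcp_map
  apply fcp_of_map ι hι
  apply fcp_of_vanp hf hτ
  rw [vanp_congr (a' := fun l i => θ ^ l * a l i) (fun l hl i => (hab l hl i).symm)]
  exact vanp_scale θ hV

omit [Algebra K Ω] [IsAlgClosed Ω] [DecidableEq Ω] [Field K] in
theorem vanp_C_33 {t : Ω} {f : MvPolynomial (Fin (n + 1)) Ω} {a : ℕ → Fin (n + 1) → Ω} {e : ℕ}
    (h : Vanp f a e) : Vanp (C t * f) a e := by
  unfold Vanp at h ⊢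
  rw [map_mul, h, mul_zero]

theorem bend_break (hb : Big K Ω) {e : ℕ} (he : 1 ≤ e) (x y : Fin (n + 1) → K) (hx : x ≠ 0)
    (hy : y ≠ 0) (c : Mon n d → Ω) (hc : c ≠ 0) (a : ℕ → Fin (n + 1) → Ω)
    (h0 : a 0 = fun i => algebraMap K Ω (x i)) (h1 : a e = fun i => algebraMap K Ω (y i))
    (hV : Van c a e) (hna : ∃ l ≤ e, ∃ i, a l i ∉ cl K (∅ : Finset Ω)) :
    ∃ (α : Mon n d) (θ : Ω) (τ : ℕ → Ω) (b : ℕ → Fin (n + 1) → Ω) (c' : Mon n d → Ω)
      (τ' : ℕ → Ω) (a' : ℕ → Fin (n + 1) → Ω) (η : Ω),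
      c α ≠ 0 ∧ θ ≠ 0 ∧ (∀ i, 1 ≤ i → i < e → τ i ≠ 0) ∧
      (∀ l ≤ e, ∀ i, θ ^ l * a l i = wt e τ l * b l i) ∧
      Spc K (pt (fun m => c m / c α) τ b e) (pt c' τ' a' e) ∧ c' α = 1 ∧
      (brk τ' e).Nonempty ∧ FCp (fm c') τ' a' e ∧ Nod τ' a' e ∧
      (a' 0 = fun i => algebraMap K Ω (x i)) ∧ η ≠ 0 ∧
      (a' e = fun i => η * algebraMap K Ω (y i)) ∧
      (SingC c a e → ∀ i, FCp (pderiv i (fm c')) τ' a' e) ∧
      rk K (rg (fun m => c m / c α) ∪ rga a e) + e ≤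
        rk K (rg (fun m => c m / c α) ∪ rgt τ e ∪ rga b e) ∧
      rk K (rg (fun m => c m / c α) ∪ rgt τ e ∪ rga b e) ≤
        rk K (rg c' ∪ rgt τ' e ∪ rga a' e) + (brk τ' e).card := by
  classical
  obtain ⟨O, α, θ, τ, b, hKO, hα, hcO, hθ, hab, hτ, hbr, hbO, hP0, hPe, hPi, hrk⟩ :=
    bl_val hb he x y hx hy c hc a h0 h1 hna
  set c₁ : Mon n d → Ω := fun m => c m / c α with hc₁
  -- the ring `R`
  let p : Mon n d ⊕ (Fin (e - 1) ⊕ (Fin (e + 1) × Fin (n + 1))) → Ω := pt c₁ τ b e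
  let R := Algebra.adjoin K (Set.range p)
  let OA : Subalgebra K Ω := { O.toSubring with algebraMap_mem' := hKO }
  have hpO : ∀ j, p j ∈ O := by
    intro j
    rcases j with m | i | ⟨l, i⟩
    · exact hcO m
    · have := i.2
      exact (hτ (i + 1) (by omega) (by omega)).2
    · exact hbO l (by have := l.2; omega) i
  have hRO : R ≤ OA := by
    apply Algebra.adjoin_le
    rintro _ ⟨j, rfl⟩
    exact hpO j
  have hpR : ∀ j, p j ∈ R := fun j => Algebra.subset_adjoin (Set.mem_range_self j)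
  have hcR : ∀ m, c₁ m ∈ R := fun m => hpR (Sum.inl m)
  have hτR : ∀ i, 1 ≤ i ∧ i < e → τ i ∈ R := by
    intro i hi
    have := hpR (Sum.inr (Sum.inl ⟨i - 1, by omega⟩))
    have h2 : p (Sum.inr (Sum.inl ⟨i - 1, by omega⟩)) = τ (i - 1 + 1) := rfl
    rw [h2, Nat.sub_add_cancel hi.1] at this
    exact this
  have hbR : ∀ l, l ≤ e → ∀ i, b l i ∈ R := fun l hl i =>
    hpR (Sum.inr (Sum.inr (⟨l, by omega⟩, i)))
  let cR : Mon n d → R := fun m => ⟨c₁ m, hcR m⟩
  let tR : ℕ → R := fun i => if h : 1 ≤ i ∧ i < e then ⟨τ i, hτR i h⟩ else 1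
  let bR : ℕ → Fin (n + 1) → R := fun l i => if h : l ≤ e then ⟨b l i, hbR l h i⟩ else 0
  have htR : ∀ i, 1 ≤ i → i < e → (tR i : Ω) = τ i := by
    intro i h1 h2
    simp only [tR]
    rw [dif_pos ⟨h1, h2⟩]
  have hbRv : ∀ l, l ≤ e → ∀ i, (bR l i : Ω) = b l i := by
    intro l hl i
    simp only [bR]
    rw [dif_pos hl]
  -- the residue map
  let κ := IsLocalRing.ResidueField O
  let kO : K →+* O := (algebraMap K Ω).codRestrict O.toSubring hKO
  let _ : Algebra K κ := ((IsLocalRing.residue O).comp kO).toAlgebra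
  let iO : R →+* O := (R.val : R →+* Ω).codRestrict O.toSubring (fun z => hRO z.2)
  let ψ : R →ₐ[K] κ := { (IsLocalRing.residue O).comp iO with commutes' := fun r => rfl }
  have hψ : ∀ z : R, ψ z = 0 ↔ ((z : Ω) = 0 ∨ (z : Ω)⁻¹ ∉ O) := by
    intro z
    change IsLocalRing.residue O (iO z) = 0 ↔ _
    rw [IsLocalRing.residue_eq_zero_iff, ← ValuationSubring.coe_mem_nonunits_iff,
      ValuationSubring.mem_nonunits_iff_or]
    rfl
  -- the set of breaks
  let B : Finset ℕ := (Finset.Ico 1 e).filter fun i => (τ i)⁻¹ ∉ O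
  let S : Finset R := B.image tR
  have hS : ∀ z ∈ S, ψ z = 0 := by
    intro z hz
    obtain ⟨i, hi, rfl⟩ := Finset.mem_image.1 hz
    obtain ⟨hi1, hi2⟩ := Finset.mem_filter.1 hi
    obtain ⟨hi1, hi3⟩ := Finset.mem_Ico.1 hi1
    rw [hψ, htR i hi1 hi3]
    exact Or.inr hi2
  have : Algebra.FiniteType K R := (Subalgebra.fg_iff_finiteType _).1
        (Subalgebra.fg_def.2 ⟨_, Set.finite_range _, rfl⟩)
  obtain ⟨φ, hφS, hφψ, hφr⟩ := exists_between hb R.val Subtype.val_injective ψ S hS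
  have hφne : ∀ z : R, (z : Ω) ≠ 0 → (z : Ω)⁻¹ ∈ O → φ z ≠ 0 := by
    intro z hz1 hz2 hz
    rcases (hψ z).1 (hφψ z hz) with h | h
    · exact hz1 h
    · exact h hz2
  have hφ0 : ∀ i, 1 ≤ i → i < e → (φ (tR i) = 0 ↔ (τ i)⁻¹ ∉ O) := by
    intro i hi1 hi2
    constructor
    · intro h hO
      refine hφne (tR i) ?_ ?_ h
      · rw [htR i hi1 hi2]; exact (hτ i hi1 hi2).1
      · rw [htR i hi1 hi2]; exact hO
    · intro h
      exact hφS _ (Finset.mem_image.2 ⟨i, Finset.mem_filter.2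
        ⟨Finset.mem_Ico.2 ⟨hi1, hi2⟩, h⟩, rfl⟩)
  have hbrk : brk (fun s => φ (tR s)) e = B := by
    ext i
    simp only [brk, B, Finset.mem_filter, Finset.mem_Ico]
    constructor
    · rintro ⟨⟨h1, h2⟩, h3⟩
      exact ⟨⟨h1, h2⟩, (hφ0 i h1 h2).1 h3⟩
    · rintro ⟨⟨h1, h2⟩, h3⟩
      exact ⟨⟨h1, h2⟩, (hφ0 i h1 h2).2 h3⟩
  have hprim : ∀ l, l ≤ e → Prim O (b l) → (fun i => φ (bR l i)) ≠ 0 := by
    intro l hl hP h
    obtain ⟨i, hi1, hi2⟩ := hP.2
    refine hφne (bR l i) ?_ ?_ (congrFun h i)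
    · rw [hbRv l hl]; exact hi1
    · rw [hbRv l hl]; exact hi2
  have hae : (fun i => φ (bR e i)) ≠ 0 := hprim e le_rfl hPe
  have hwt : ∀ l, wt e (fun s => (tR s : Ω)) l = wt e τ l := by
    intro l
    unfold wt
    refine Finset.prod_congr rfl fun s hs => ?_
    obtain ⟨hs1, hs2⟩ := Finset.mem_Ico.1 hs
    exact congrArg (· ^ (l - s)) (htR s hs1 hs2)
  have hab' : ∀ l ≤ e, ∀ i, θ ^ l * a l i =
      wt e (fun s => (R.val : R →+* Ω) (tR s)) l * (R.val : R →+* Ω) (bR l i) := by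
    intro l hl i
    change _ = wt e (fun s => (tR s : Ω)) l * (bR l i : Ω)
    rw [hwt, hbRv l hl, hab l hl i]
  have hfm : map (R.val : R →+* Ω) (fm cR) = fm c₁ := map_fm _ _
  have hfm1 : fm c₁ = C (c α)⁻¹ * fm c := by
    rw [← fm_smul]
    congr 1
    funext m
    exact div_eq_inv_mul _ _
  have hτ' : ∀ s, 1 ≤ s → s < e → (R.val : R →+* Ω) (tR s) ≠ 0 := by
    intro s h1 h2
    change (tR s : Ω) ≠ 0
    rw [htR s h1 h2]
    exact (hτ s h1 h2).1
  have hbe : ∃ z : R, ∀ i, bR e i = z * algebraMap K R (y i) := by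
    obtain ⟨i₀, hi₀⟩ : ∃ i, y i ≠ 0 := by
      by_contra hcon
      push Not at hcon
      exact hy (funext hcon)
    have hw := wt_ne_zero (e := e) (τ := τ) (fun s h1 h2 => (hτ s h1 h2).1) e
    have hbv : ∀ i, b e i = θ ^ e / wt e τ e * algebraMap K Ω (y i) := by
      intro i
      have := hab e le_rfl i
      rw [h1] at this
      field_simp
      linear_combination -this
    refine ⟨bR e i₀ * algebraMap K R (y i₀)⁻¹, fun i => Subtype.ext ?_⟩
    change (bR e i : Ω) = (bR e i₀ : Ω) * algebraMap K Ω (y i₀)⁻¹ * algebraMap K Ω (y i)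
    have hy0 : algebraMap K Ω (y i₀) ≠ 0 := by
      rwa [Ne, map_eq_zero]
    rw [hbRv e le_rfl, hbRv e le_rfl, hbv i, hbv i₀, map_inv₀]
    field_simp
  obtain ⟨z, hz⟩ := hbe
  refine ⟨α, θ, τ, b, fun m => φ (cR m), fun s => φ (tR s), fun l i => φ (bR l i), φ z, hα, hθ,
    fun i h1 h2 => (hτ i h1 h2).1, hab, ?_, ?_, ?_, ?_, ?_, ?_, ?_, ?_, ?_, hrk, ?_⟩
  · -- specialisation
    have e1 : pt c₁ τ b e = fun j => R.val (pt cR tR bR e j) := by
      funext j
      rcases j with m | i | ⟨l, i⟩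
      · rfl
      · have := i.2
        exact (htR (i + 1) (by omega) (by omega)).symm
      · exact (hbRv l (by have := l.2; omega) i).symm
    have e2 : pt (fun m => φ (cR m)) (fun s => φ (tR s)) (fun l i => φ (bR l i)) e =
        fun j => φ (pt cR tR bR e j) := by
      funext j
      rcases j with m | i | ⟨l, i⟩ <;> rfl
    rw [e1, e2]
    apply Spc.of_hom R.val φ
    intro x hx
    have : x = 0 := Subtype.ext hx
    rw [this, map_zero]
  · have : cR α = 1 := Subtype.ext (div_self hα)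
    exact (congrArg φ this).trans (map_one φ)
  · rw [hbrk]
    obtain ⟨i, h1, h2, h3⟩ := hbr
    exact ⟨i, Finset.mem_filter.2 ⟨Finset.mem_Ico.2 ⟨h1, h2⟩, h3⟩⟩
  · have := fcp_key_33 (R.val : R →+* Ω) (φ : R →+* Ω) Subtype.val_injective (f := fm cR) (q := d)
      (θ := θ) (a := a) (by rw [hfm]; exact fm_hom _) tR bR hτ' hab'
      (by rw [hfm, hfm1]; exact vanp_C_33 hV)
    rw [map_fm] at this
    exact this
  · refine ⟨?_, hae, ?_⟩
    · exact hprim 0 (Nat.zero_le e) hP0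
    · intro i hi
      rw [hbrk] at hi
      obtain ⟨hi1, hi2⟩ := Finset.mem_filter.1 hi
      obtain ⟨hi1, hi3⟩ := Finset.mem_Ico.1 hi1
      exact hprim i hi3.le (hPi i hi1 hi3 hi2)
  · funext i
    have h2 : bR 0 i = algebraMap K R (x i) := by
      apply Subtype.ext
      change (bR 0 i : Ω) = algebraMap K Ω (x i)
      have := hab 0 (Nat.zero_le e) i
      rw [wt_zero, pow_zero, one_mul, one_mul, h0] at this
      rw [hbRv 0 (Nat.zero_le e)]
      exact this.symm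
    change φ (bR 0 i) = _
    rw [h2, φ.commutes]
  · intro hz0
    apply hae
    funext i
    change φ (bR e i) = 0
    rw [hz i, map_mul, hz0, zero_mul]
  · funext i
    change φ (bR e i) = _
    rw [hz i, map_mul, φ.commutes]
  · intro hs i
    have h2 : map (R.val : R →+* Ω) (pderiv i (fm cR)) = C (c α)⁻¹ * pderiv i (fm c) := by
      rw [← pderiv_map, hfm, hfm1, pderiv_C_mul]
    have := fcp_key_33 (R.val : R →+* Ω) (φ : R →+* Ω) Subtype.val_injective
      (f := pderiv i (fm cR)) (q := d - 1)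
      (θ := θ) (a := a) (by rw [← pderiv_map, hfm]; exact pderiv_fm_hom _ _) tR bR hτ' hab'
      (by rw [h2]; exact vanp_C_33 (hs i))
    rw [← pderiv_map, map_fm] at this
    exact this
  · have e1 : (fun j => R.val (pt cR tR bR e j)) = pt c₁ τ b e := by
      funext j
      rcases j with m | i | ⟨l, i⟩
      · rfl
      · have := i.2
        exact htR (i + 1) (by omega) (by omega)
      · exact hbRv l (by have := l.2; omega) i
    have e2 : (fun j => φ (pt cR tR bR e j)) =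
        pt (fun m => φ (cR m)) (fun s => φ (tR s)) (fun l i => φ (bR l i)) e := by
      funext j
      rcases j with m | i | ⟨l, i⟩ <;> rfl
    have hgen : Algebra.adjoin K (Set.range (pt cR tR bR e)) = ⊤ := by
      have h3 : Set.range (pt cR tR bR e) = ((↑) ⁻¹' Set.range p : Set R) := by
        ext w
        constructor
        · rintro ⟨j, rfl⟩
          exact ⟨j, (congrFun e1 j).symm⟩
        · rintro ⟨j, hj⟩
          exact ⟨j, Subtype.ext ((congrFun e1 j).trans hj)⟩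
      rw [h3]
      exact Algebra.adjoin_adjoin_coe_preimage
    have h4 := hφr (pt cR tR bR e) hgen
    rw [e1, e2, rg_pt, rg_pt] at h4
    refine h4.trans ?_
    rw [hbrk]
    exact Nat.add_le_add_left Finset.card_image_le _

end Pool.Agent.Helper30.RY
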