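import Mathlib
import Pool.Agent.Helper30.RY.Td
import Pool.Agent.Helper30.RY.Gen
import Pool.Agent.Helper30.RY.Cur
import Pool.Agent.Helper30.RY.Fcv

/-!
# Block RY-LCO: curves ending at a singular point

Reparametrisation `T ↦ T / (1 + t T)`: `rep t e a` has the coefficients of
`(1 + t T)^e F(T / (1 + t T)) = ∑_{l'} a l' T^{l'} (1 + t T)^{e - l'}`.

* `rep_zero`: `rep t e a 0 = a 0`.
* `vanp_rep`: for `f` homogeneous of degree `q`, `f(rep F) = (1 + t T)^{qe} f(F)(T / (1 + t T))`.  Clean
  proof: let `F̂_i(S, T) = ∑_l a l i S^{e-l} T^l` in `Ω[S, T]`; `f(F̂)` is the homogenisation of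
  `f(F)` (homogeneous of degree `q e` with `f(F̂)(1, T) = f(F) = 0`, hence `f(F̂) = 0`), and then
  substitute `S = 1 + t T`.  Or: prove `f(F) = 0 → f(F)(T/(1+tT)) = 0` in the field of rational
  functions, then `F(T/(1+tT)) = (1+tT)^{-e} rep F` and homogeneity (`vanp_smul`-like argument).
* `rep_rep`: `rep (-t) (rep t a) = a` (only indices `≤ e` matter).
* `cv_rep_eval`: `T = -1/t`: only the term `l' = e` survives, the value is `(-1/t)^e a e`.

`landing` : let `F` be a curve of degree `e` through `z = a 0`, and suppose `a e` is singular.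
  If `F` lies in the singular locus, then `a 0` is singular as well (`eval_zero_of_vanp`), `rho = 0`
  and the bound of `Lay` gives the claim.  If not, choose `t` generic over `rg c ∪ rga a e`
  (`Big`), `G = rep t e a`; `Lay` applies to `G` (`G 0 = a 0`; `G` is not in the singular locus, by
  `rep_rep`), `rho c G e ≤ bet c (a 0)`.  Choose `i` with `p = ∂_i f(G(T)) ≠ 0`; its coefficients are in
  `cl K (rg c ∪ rga G e)`, and `p(-1/t) = ∂_i f((-1/t)^e a e) = 0`.  So `t ∈ cl K (rg c ∪ rga G e)`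
  (`mem_cl_of_root`), and then all `a l` (`l ≤ e`) are in this field (`rep_rep`), so
  `rk (rg c ∪ rga a e) + 1 = rk (insert t (rg c ∪ rga a e)) ≤ rk (rg c ∪ rga G e)`.
-/

namespace Pool.Agent.Helper30.RY

open MvPolynomial

section

variable {A : Type*} [CommRing A] {n : ℕ}

/-- the coefficients of `(1 + t T)^e F(T / (1 + t T))` -/
def rep (t : A) (e : ℕ) (a : ℕ → Fin (n + 1) → A) (l : ℕ) (i : Fin (n + 1)) : A :=
  ∑ s ∈ Finset.range (l + 1), a s i * ((e - s).choose (l - s) : A) * t ^ (l - s)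

private theorem tay26 (t : A) (e : ℕ) (a : ℕ → Fin (n + 1) → A) (i : Fin (n + 1)) {l : ℕ} (hl : l ≤ e) :
    ((cv (fun l => a (e - l)) e i).comp (Polynomial.X + Polynomial.C t)).coeff (e - l) = rep t e a l i := by
  unfold cv rep
  rw [← Polynomial.coe_compRingHom_apply, map_sum, Polynomial.finsetSum_coeff]
  have h1 : ∀ s ∈ Finset.range (e + 1),
      ((Polynomial.compRingHom (Polynomial.X + Polynomial.C t))
        (Polynomial.C (a (e - s) i) * Polynomial.X ^ s)).coeff (e - l) =
      (fun s => a s i * (t ^ ((e - s) - (e - l)) * ((e - s).choose (e - l) : A))) (e + 1 - 1 - s) := by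
    intro s hs
    rw [Finset.mem_range] at hs
    have h2 : e - (e - s) = s := by omega
    rw [Polynomial.coe_compRingHom_apply, Polynomial.mul_comp, Polynomial.C_comp, Polynomial.X_pow_comp,
      Polynomial.coeff_C_mul, Polynomial.coeff_X_add_C_pow]
    simp only [Nat.add_sub_cancel, h2]
  rw [Finset.sum_congr rfl h1]
  refine (Finset.sum_range_reflect (fun s => a s i * (t ^ ((e - s) - (e - l)) * ((e - s).choose (e - l) : A)))
    (e + 1)).trans ?_
  symm
  refine Finset.sum_subset_zero_on_sdiff (Finset.range_mono (by omega)) (fun s hs => ?_) (fun s hs => ?_)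
  · rw [Finset.mem_sdiff, Finset.mem_range, Finset.mem_range] at hs
    rw [Nat.choose_eq_zero_of_lt (by omega)]
    simp
  · rw [Finset.mem_range] at hs
    have h3 : (e - s) - (e - l) = l - s := by omega
    have h4 : (e - s).choose (e - l) = (e - s).choose (l - s) :=
      Nat.choose_symm_of_eq_add (by omega)
    rw [h3, h4]
    ring

private theorem deg26 (a : ℕ → Fin (n + 1) → A) (e : ℕ) (i : Fin (n + 1)) :
    (cv a e i).natDegree ≤ e := by
  unfold cv
  refine Polynomial.natDegree_sum_le_of_forall_le _ _ fun l hl => ?_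
  rw [Finset.mem_range] at hl
  exact (Polynomial.natDegree_C_mul_X_pow_le _ _).trans (by omega)

private theorem coeff_cv26 (a : ℕ → Fin (n + 1) → A) (e : ℕ) (i : Fin (n + 1)) {l : ℕ} (hl : l ≤ e) :
    (cv a e i).coeff l = a l i := by
  unfold cv
  rw [Polynomial.finsetSum_coeff, Finset.sum_eq_single l]
  · rw [Polynomial.coeff_C_mul, Polynomial.coeff_X_pow, if_pos rfl, mul_one]
  · intro b _ hb
    rw [Polynomial.coeff_C_mul, Polynomial.coeff_X_pow, if_neg (Ne.symm hb), mul_zero]
  · intro h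
    exact absurd (Finset.mem_range.2 (by omega)) h

private theorem rev_rep26 (t : A) (e : ℕ) (a : ℕ → Fin (n + 1) → A) (i : Fin (n + 1)) :
    cv (fun l => rep t e a (e - l)) e i =
      (cv (fun l => a (e - l)) e i).comp (Polynomial.X + Polynomial.C t) := by
  ext k
  by_cases hk : k ≤ e
  · rw [coeff_cv26 _ e i hk]
    have h1 := tay26 t e a i (l := e - k) (by omega)
    rw [← h1]
    congr 1
    omega
  · rw [Polynomial.coeff_eq_zero_of_natDegree_lt (lt_of_le_of_lt (deg26 _ e i) (by omega)),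
      Polynomial.coeff_eq_zero_of_natDegree_lt]
    refine lt_of_le_of_lt ((Polynomial.natDegree_comp_le).trans ?_) (not_le.1 hk)
    calc (cv (fun l => a (e - l)) e i).natDegree * (Polynomial.X + Polynomial.C t).natDegree
        ≤ e * 1 := by
          refine Nat.mul_le_mul (deg26 _ e i) ?_
          exact (Polynomial.natDegree_add_C).le.trans Polynomial.natDegree_X_le
      _ = e := mul_one e

theorem rep_zero (t : A) (e : ℕ) (a : ℕ → Fin (n + 1) → A) : rep t e a 0 = a 0 := by
  funext i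
  unfold rep
  simp

theorem rep_rep (t : A) (e : ℕ) (a : ℕ → Fin (n + 1) → A) {l : ℕ} (hl : l ≤ e) :
    rep (-t) e (rep t e a) l = a l := by
  funext i
  have h1 : ∀ k, k ≤ e → e - (e - k) = k := fun k hk => by omega
  rw [← tay26 (-t) e (rep t e a) i hl, rev_rep26, Polynomial.comp_assoc]
  have h2 : (Polynomial.X + Polynomial.C t).comp (Polynomial.X + Polynomial.C (-t)) = Polynomial.X := by
    rw [Polynomial.add_comp, Polynomial.X_comp, Polynomial.C_comp, Polynomial.C_neg]
    ring
  rw [h2, Polynomial.comp_X, coeff_cv26 _ e i (by omega)]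
  rw [h1 l hl]

end

section

variable {Ω : Type*} [Field Ω] {n q : ℕ} {f : MvPolynomial (Fin (n + 1)) Ω}
  {a : ℕ → Fin (n + 1) → Ω} {e : ℕ}

theorem vanp_rep (hf : f.IsHomogeneous q) (t : Ω) (h : Vanp f a e) : Vanp f (rep t e a) e := by
  have h1 : Vanp f (fun l => a (e - l)) e := vanp_rev hf h
  have h2 : Vanp f (fun l => rep t e a (e - l)) e := by
    unfold Vanp at h1 ⊢
    have h3 : cv (fun l => rep t e a (e - l)) e = fun i =>
        Polynomial.aeval (Polynomial.X + Polynomial.C t) (cv (fun l => a (e - l)) e i) := by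
      funext i
      rw [rev_rep26]
      rfl
    rw [h3, ← comp_aeval_apply, h1, map_zero]
  have h3 := vanp_rev hf h2
  refine (vanp_congr fun l hl i => ?_).1 h3
  have h4 : e - (e - l) = l := by omega
  simp only [h4]

theorem cv_rep_eval {t : Ω} (ht : t ≠ 0) (i : Fin (n + 1)) :
    (cv (rep t e a) e i).eval (-t⁻¹) = (-t⁻¹) ^ e * a e i := by
  have h1 : ∀ u : Ω, u ≠ 0 → ∀ g : ℕ → Fin (n + 1) → Ω,
      (cv g e i).eval u = u ^ e * (cv (fun l => g (e - l)) e i).eval u⁻¹ := by
    intro u hu g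
    unfold cv
    rw [Polynomial.eval_finsetSum, Polynomial.eval_finsetSum, ← Finset.sum_range_reflect, Finset.mul_sum]
    refine Finset.sum_congr rfl fun l hl => ?_
    rw [Finset.mem_range] at hl
    have h2 : e + 1 - 1 - l = e - l := by omega
    rw [h2]
    simp only [Polynomial.eval_mul, Polynomial.eval_C, Polynomial.eval_pow, Polynomial.eval_X]
    have h3 : u ^ (e - l) = u ^ e * u⁻¹ ^ l := by
      rw [inv_pow, ← div_eq_mul_inv, eq_div_iff (pow_ne_zero _ hu), ← pow_add]
      congr 1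
      omega
    rw [h3]
    ring
  rw [h1 _ (neg_ne_zero.2 (inv_ne_zero ht)), rev_rep26, Polynomial.eval_comp]
  have h4 : Polynomial.eval (-t⁻¹)⁻¹ (Polynomial.X + Polynomial.C t) = 0 := by
    rw [Polynomial.eval_add, Polynomial.eval_X, Polynomial.eval_C, inv_neg, inv_inv]
    ring
  rw [h4, ← Polynomial.coeff_zero_eq_eval_zero, coeff_cv26 _ e i (Nat.zero_le e)]
  rfl

variable {K : Type*} [Field K] [Algebra K Ω] [DecidableEq Ω] {d m E : ℕ}

omit [DecidableEq Ω] in
theorem rho_le_bet (c : Mon n d → Ω) (a : ℕ → Fin (n + 1) → Ω) (e : ℕ) :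
    rho c a e ≤ bet c (a 0) := by
  unfold rho bet
  split_ifs with h1 h2
  · exact le_rfl
  · exact absurd h1.1 h2
  · exact Nat.zero_le _
  · exact le_rfl

omit [Algebra K Ω] [DecidableEq Ω] in
private theorem ev26 {g : MvPolynomial (Fin (n + 1)) Ω} (hg : g.IsHomogeneous q) (t : Ω)
    (z : Fin (n + 1) → Ω) : eval (fun i => t * z i) g = t ^ q * eval z g := by
  rw [eval_eq', eval_eq', Finset.mul_sum]
  refine Finset.sum_congr rfl fun m hm => ?_
  have h1 : m.degree = q := by
    by_contra hcon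
    exact (mem_support_iff.mp hm) (hg.coeff_eq_zero hcon)
  have h2 : ∏ i, (t * z i) ^ m i = t ^ q * ∏ i, z i ^ m i := by
    simp only [mul_pow]
    rw [Finset.prod_mul_distrib, Finset.prod_pow_eq_pow_sum]
    congr 2
    rw [← h1, Finsupp.degree_eq_sum]
  rw [h2]
  ring

omit [DecidableEq Ω] in
private theorem coef26 (F : IntermediateField K Ω) {g : MvPolynomial (Fin (n + 1)) Ω}
    (hg : ∀ m, coeff m g ∈ F) {b : ℕ → Fin (n + 1) → Ω} (hb : ∀ l ≤ e, ∀ i, b l i ∈ F) (k : ℕ) :
    (aeval (cv b e) g).coeff k ∈ F := by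
  have hC : ∀ x ∈ F, Polynomial.C x ∈ Polynomial.lifts (algebraMap F Ω) := fun x hx =>
    ⟨Polynomial.C ⟨x, hx⟩, by simp⟩
  have hX : (Polynomial.X : Polynomial Ω) ∈ Polynomial.lifts (algebraMap F Ω) := ⟨Polynomial.X, by simp⟩
  have hcv : ∀ i, cv b e i ∈ Polynomial.lifts (algebraMap F Ω) := by
    intro i
    unfold cv
    refine sum_mem fun l hl => ?_
    rw [Finset.mem_range] at hl
    exact mul_mem (hC _ (hb l (by omega) i)) (pow_mem hX l)
  have h1 : aeval (cv b e) g ∈ Polynomial.lifts (algebraMap F Ω) := by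
    rw [aeval_def, eval₂_eq']
    refine sum_mem fun m _ => mul_mem (hC _ (hg m)) (prod_mem fun i _ => pow_mem (hcv i) _)
  rw [Polynomial.lifts_iff_coeff_lifts] at h1
  obtain ⟨x, hx⟩ := h1 k
  rw [← hx]
  exact x.2

omit [DecidableEq Ω] in
private theorem pder26 (F : IntermediateField K Ω) {c : Mon n d → Ω} (hc : ∀ m, c m ∈ F) (i : Fin (n + 1))
    (w : Fin (n + 1) →₀ ℕ) : coeff w (pderiv i (fm c)) ∈ F := by
  classical
  unfold fm
  rw [map_sum, coeff_sum]
  refine sum_mem fun m _ => ?_
  rw [pderiv_monomial, coeff_monomial]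
  split_ifs
  · exact mul_mem (hc m) (natCast_mem F _)
  · exact zero_mem F

theorem landing (hb : Big K Ω) {c : Mon n d → Ω} (hL : Lay K m E c) (he : e ≤ E) (h0 : a 0 ≠ 0)
    (hV : Van c a e) :
    rk K (rg c ∪ rga a e) + bet c (a e) ≤
      rk K (rg c ∪ rg (a 0)) + m * e + bet c (a 0) := by
  by_cases hS : SingP c (a e)
  swap
  · have h1 := hL e he a h0 hV
    have h2 : bet c (a e) = 0 := by
      unfold bet
      rw [if_neg hS]
    have h3 := rho_le_bet c a e
    omega
  have hbe : bet c (a e) = 1 := by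
    unfold bet
    rw [if_pos hS]
  by_cases hC : SingC c a e
  · have h1 := hL e he a h0 hV
    have h2 : rho c a e = 0 := by
      unfold rho
      rw [if_neg fun h => h.2 hC]
    have h3 : bet c (a 0) = 1 := by
      unfold bet
      rw [if_pos (show SingP c (a 0) from fun i => eval_zero_of_vanp (hC i))]
    omega
  obtain ⟨t, ht⟩ := hb (rg c ∪ rga a e)
  have ht0 : t ≠ 0 := by
    rintro rfl
    exact ht (zero_mem _)
  have hG : Van c (rep t e a) e := vanp_rep (fm_hom c) t hV
  have hG0 : rep t e a 0 = a 0 := rep_zero t e a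
  have h1 := hL e he (rep t e a) (by rw [hG0]; exact h0) hG
  have h2 := rho_le_bet c (rep t e a) e
  rw [hG0] at h1 h2
  have hGS : ¬ SingC c (rep t e a) e := by
    intro h
    refine hC fun i => ?_
    have h3 := vanp_rep (pderiv_fm_hom c i) (-t) (h i)
    exact (vanp_congr fun l hl j => by rw [rep_rep t e a hl]).1 h3
  unfold SingC at hGS
  push Not at hGS
  obtain ⟨i, hi⟩ := hGS
  have hcS : ∀ m, c m ∈ cl K (rg c ∪ rga (rep t e a) e) := fun m =>
    subset_cl K _ _ (Finset.mem_union_left _ (Finset.mem_image_of_mem _ (Finset.mem_univ m)))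
  have hGl : ∀ l ≤ e, ∀ j, rep t e a l j ∈ cl K (rg c ∪ rga (rep t e a) e) := fun l hl j =>
    subset_cl K _ _ (Finset.mem_union_right _ (Finset.mem_biUnion.2
      ⟨l, Finset.mem_range.2 (by omega), Finset.mem_image_of_mem _ (Finset.mem_univ j)⟩))
  have hroot : (aeval (cv (rep t e a) e) (pderiv i (fm c))).eval (-t⁻¹) = 0 := by
    have h3 := comp_aeval_apply (f := cv (rep t e a) e) (Polynomial.aeval (-t⁻¹) : Polynomial Ω →ₐ[Ω] Ω)
      (pderiv i (fm c))
    have h4 : (fun j => (cv (rep t e a) e j).eval (-t⁻¹)) = fun j => (-t⁻¹) ^ e * a e j := by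
      funext j
      exact cv_rep_eval ht0 j
    have h5 : (aeval (cv (rep t e a) e) (pderiv i (fm c))).eval (-t⁻¹) =
        eval (fun j => (cv (rep t e a) e j).eval (-t⁻¹)) (pderiv i (fm c)) := by
      rw [← MvPolynomial.coe_aeval_eq_eval]
      simpa [Polynomial.coe_aeval_eq_eval] using h3
    rw [h5, h4, ev26 (pderiv_fm_hom c i), hS i, mul_zero]
  have htm' : -t⁻¹ ∈ cl K (rg c ∪ rga (rep t e a) e) :=
    mem_cl_of_root K _ hi (fun k => coef26 (cl K (rg c ∪ rga (rep t e a) e))
      (pder26 _ hcS i) hGl k) hroot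
  have htm : t ∈ cl K (rg c ∪ rga (rep t e a) e) := by
    have h3 := neg_mem htm'
    rw [neg_neg] at h3
    have h4 := inv_mem h3
    rwa [inv_inv] at h4
  have hal : ∀ l ≤ e, ∀ j, a l j ∈ cl K (rg c ∪ rga (rep t e a) e) := by
    intro l hl j
    rw [← rep_rep t e a hl]
    unfold rep
    refine sum_mem fun s hs => ?_
    rw [Finset.mem_range] at hs
    exact mul_mem (mul_mem (hGl s (by omega) j) (natCast_mem _ _)) (pow_mem (neg_mem htm) _)
  have h5 : rk K (insert t (rg c ∪ rga a e)) ≤ rk K (rg c ∪ rga (rep t e a) e) := by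
    refine rk_le_of_subset_cl K fun x hx => ?_
    rcases Finset.mem_insert.1 hx with rfl | hx
    · exact htm
    rcases Finset.mem_union.1 hx with hx | hx
    · obtain ⟨m, _, rfl⟩ := Finset.mem_image.1 hx
      exact hcS m
    · obtain ⟨l, hl, hx⟩ := Finset.mem_biUnion.1 hx
      rw [Finset.mem_range] at hl
      obtain ⟨j, _, rfl⟩ := Finset.mem_image.1 hx
      exact hal l (by omega) j
  rw [rk_insert_of_notMem K ht] at h5
  omega

end

end Pool.Agent.Helper30.RY
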