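import Mathlib
import Pool.Agent.Helper30.RY.Lco

/-!
# Block RY-CHN: the dimension of the space of chains

Strong induction on `e`.  If there are no breaks (`brk τ e = ∅`), then `e ≤ E`; put
`b l i = wt e τ l * a l i`.  `Van c b e` (`vanp_of_fcp`), `b 0 = a 0` (`wt_zero`), `b e` is a nonzero
multiple of `a e` (`wt_ne_zero`, `bet_smul`), and all `a l`, `l ≤ e`, are in `cl K (rga b e ∪ rgt τ e)`,
so `rk (rg c ∪ rgt τ e ∪ rga a e) ≤ rk (rg c ∪ rga b e) + (e - 1)` (`rgt τ e` has at most `e - 1`
elements), and `landing` (for `chain_bound`), respectively the definition of `Lay` with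
`rho = 0` (for `chain_bound_sing`), give the claim.

If `j` is a break, split with `fcp_left`, `fcp_right`, `nod_left`, `nod_right`, `brk_split`; both parts
have length `< e`, hence `≤ E`.  With `X = rg c ∪ rgt τ j ∪ rga a j` and
`Y = rg c ∪ rgt (shifted τ) (e - j) ∪ rga (shifted a) (e - j)` the set
`rg c ∪ rgt τ e ∪ rga a e` is contained in `X ∪ Y ∪ {0}` (`τ j = 0`), and `X`, `Y` contain
`rg c ∪ rg (a j)`, so `rk (X ∪ Y) + rk (rg c ∪ rg (a j)) ≤ rk X + rk Y` (`rk_submod`).  Add the two
inequalities of the induction hypothesis.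
For `chain_bound_sing` note that the hypothesis `FCp (pderiv i (fm c)) τ a e` is inherited by both
parts.  (Statement and proof for `chain_bound_sing`: the pieces have `rho = 0`, so the bound of
`Lay` has no extra term.)
-/

namespace Pool.Agent.Helper30.RY

open MvPolynomial

variable {K : Type*} [Field K] {Ω : Type*} [Field Ω] [Algebra K Ω] [DecidableEq Ω] {n d m E : ℕ}

private theorem mem_rg36 {ι : Type*} [Fintype ι] (a : ι → Ω) (i : ι) : a i ∈ rg a :=
  Finset.mem_image_of_mem _ (Finset.mem_univ i)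

private theorem mem_rga36 {a : ℕ → Fin (n + 1) → Ω} {e l : ℕ} (hl : l ≤ e) (i : Fin (n + 1)) :
    a l i ∈ rga a e :=
  Finset.mem_biUnion.2 ⟨l, Finset.mem_range.2 (by omega), mem_rg36 (a l) i⟩

private theorem rga_mem36 {a : ℕ → Fin (n + 1) → Ω} {e : ℕ} {x : Ω} (hx : x ∈ rga a e) :
    ∃ l ≤ e, ∃ i, x = a l i := by
  obtain ⟨l, hl, hx⟩ := Finset.mem_biUnion.1 hx
  obtain ⟨i, _, rfl⟩ := Finset.mem_image.1 hx
  exact ⟨l, by have := Finset.mem_range.1 hl; omega, i, rfl⟩

private theorem mem_rgt36 {τ : ℕ → Ω} {e s : ℕ} (h1 : 1 ≤ s) (h2 : s < e) : τ s ∈ rgt τ e :=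
  Finset.mem_image_of_mem _ (Finset.mem_Ico.2 ⟨h1, h2⟩)

private theorem rgt_mem36 {τ : ℕ → Ω} {e : ℕ} {x : Ω} (hx : x ∈ rgt τ e) :
    ∃ s, 1 ≤ s ∧ s < e ∧ x = τ s := by
  obtain ⟨s, hs, rfl⟩ := Finset.mem_image.1 hx
  have := Finset.mem_Ico.1 hs
  exact ⟨s, this.1, this.2, rfl⟩

private theorem base36 {c : Mon n d → Ω} {e : ℕ} {τ : ℕ → Ω} {a : ℕ → Fin (n + 1) → Ω}
    (hτ : ∀ s, 1 ≤ s → s < e → τ s ≠ 0) :
    rk K (rg c ∪ rgt τ e ∪ rga a e) ≤
      rk K (rg c ∪ rga (fun l i => wt e τ l * a l i) e) + (e - 1) := by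
  set b : ℕ → Fin (n + 1) → Ω := fun l i => wt e τ l * a l i with hbdef
  have h1 : rk K (rg c ∪ rgt τ e ∪ rga a e) ≤ rk K (rg c ∪ rga b e ∪ rgt τ e) := by
    refine rk_le_of_subset_cl K fun x hx => ?_
    rcases Finset.mem_union.1 hx with hx | hx
    · rcases Finset.mem_union.1 hx with hx | hx
      · exact subset_cl K _ x (Finset.mem_union_left _ (Finset.mem_union_left _ hx))
      · exact subset_cl K _ x (Finset.mem_union_right _ hx)
    · obtain ⟨l, hl, i, rfl⟩ := rga_mem36 hx
      have hw : wt e τ l ∈ cl K (rg c ∪ rga b e ∪ rgt τ e) := by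
        unfold wt
        refine prod_mem fun s hs => pow_mem ?_ _
        have hs' := Finset.mem_Ico.1 hs
        exact subset_cl K _ _ (Finset.mem_union_right _ (mem_rgt36 hs'.1 hs'.2))
      have hbl : b l i ∈ cl K (rg c ∪ rga b e ∪ rgt τ e) :=
        subset_cl K _ _ (Finset.mem_union_left _ (Finset.mem_union_right _ (mem_rga36 hl i)))
      have h2 : a l i = (wt e τ l)⁻¹ * b l i := by
        rw [hbdef]
        change a l i = (wt e τ l)⁻¹ * (wt e τ l * a l i)
        rw [← mul_assoc, inv_mul_cancel₀ (wt_ne_zero hτ l), one_mul]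
      rw [h2]
      exact mul_mem (inv_mem hw) hbl
  have h2 := rk_union_le_card K (rg c ∪ rga b e) (rgt τ e)
  have h3 : (rgt τ e).card ≤ e - 1 := by
    refine Finset.card_image_le.trans ?_
    rw [Nat.card_Ico]
  omega

private theorem split36 {c : Mon n d → Ω} {e j : ℕ} {τ : ℕ → Ω} {a : ℕ → Fin (n + 1) → Ω}
    (h1 : 1 ≤ j) (h2 : j < e) (h0 : τ j = 0) :
    rk K (rg c ∪ rgt τ e ∪ rga a e) + rk K (rg c ∪ rg (a j)) ≤
      rk K (rg c ∪ rgt τ j ∪ rga a j) +
        rk K (rg c ∪ rgt (fun s => τ (s + j)) (e - j) ∪ rga (fun l => a (l + j)) (e - j)) := by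
  set X := rg c ∪ rgt τ j ∪ rga a j with hX
  set Y := rg c ∪ rgt (fun s => τ (s + j)) (e - j) ∪ rga (fun l => a (l + j)) (e - j) with hY
  have h3 := rk_submod K (rg c ∪ rg (a j)) X Y
  have hZX : (rg c ∪ rg (a j)) ∪ X = X := by
    refine Finset.union_eq_right.2 fun x hx => ?_
    rcases Finset.mem_union.1 hx with hx | hx
    · exact Finset.mem_union_left _ (Finset.mem_union_left _ hx)
    · obtain ⟨i, _, rfl⟩ := Finset.mem_image.1 hx
      exact Finset.mem_union_right _ (mem_rga36 le_rfl i)
  have hZY : (rg c ∪ rg (a j)) ∪ Y = Y := by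
    refine Finset.union_eq_right.2 fun x hx => ?_
    rcases Finset.mem_union.1 hx with hx | hx
    · exact Finset.mem_union_left _ (Finset.mem_union_left _ hx)
    · obtain ⟨i, _, rfl⟩ := Finset.mem_image.1 hx
      have h4 := mem_rga36 (a := fun l => a (l + j)) (Nat.zero_le (e - j)) i
      change a (0 + j) i ∈ _ at h4
      rw [zero_add] at h4
      exact Finset.mem_union_right _ h4
  rw [hZX, hZY] at h3
  have h5 : rk K (rg c ∪ rgt τ e ∪ rga a e) ≤ rk K (X ∪ Y) := by
    refine rk_le_of_subset_cl K fun x hx => ?_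
    rcases Finset.mem_union.1 hx with hx | hx
    · rcases Finset.mem_union.1 hx with hx | hx
      · exact subset_cl K _ x (Finset.mem_union_left _
          (Finset.mem_union_left _ (Finset.mem_union_left _ hx)))
      · obtain ⟨s, hs1, hs2, rfl⟩ := rgt_mem36 hx
        rcases lt_trichotomy s j with h | h | h
        · exact subset_cl K _ _ (Finset.mem_union_left _
            (Finset.mem_union_left _ (Finset.mem_union_right _ (mem_rgt36 hs1 h))))
        · rw [h, h0]
          exact zero_mem _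
        · have h6 := mem_rgt36 (τ := fun s => τ (s + j)) (e := e - j) (s := s - j) (by omega)
            (by omega)
          change τ (s - j + j) ∈ _ at h6
          rw [Nat.sub_add_cancel h.le] at h6
          exact subset_cl K _ _ (Finset.mem_union_right _
            (Finset.mem_union_left _ (Finset.mem_union_right _ h6)))
    · obtain ⟨l, hl, i, rfl⟩ := rga_mem36 hx
      rcases Nat.lt_or_ge j l with h | h
      · have h6 := mem_rga36 (a := fun l => a (l + j)) (e := e - j) (l := l - j) (by omega) i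
        change a (l - j + j) i ∈ _ at h6
        rw [Nat.sub_add_cancel h.le] at h6
        exact subset_cl K _ _ (Finset.mem_union_right _ (Finset.mem_union_right _ h6))
      · exact subset_cl K _ _ (Finset.mem_union_left _
          (Finset.mem_union_right _ (mem_rga36 h i)))
  omega

theorem chain_bound (hb : Big K Ω) {c : Mon n d → Ω} (hL : Lay K m E c) (e : ℕ) (he : 1 ≤ e)
    (τ : ℕ → Ω) (a : ℕ → Fin (n + 1) → Ω) (hE : e ≤ E ∨ (e ≤ E + 1 ∧ (brk τ e).Nonempty))
    (hF : FCp (fm c) τ a e) (hN : Nod τ a e) :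
    rk K (rg c ∪ rgt τ e ∪ rga a e) + (brk τ e).card + bet c (a e) ≤
      rk K (rg c ∪ rg (a 0)) + m * e + (e - 1) + bet c (a 0) := by
  induction e using Nat.strong_induction_on generalizing τ a with
  | _ e ih =>
    rcases (brk τ e).eq_empty_or_nonempty with hbr | ⟨j, hj⟩
    · have heE : e ≤ E := by
        rcases hE with h | ⟨_, h⟩
        · exact h
        · rw [hbr] at h
          exact absurd h Finset.not_nonempty_empty
      have hτ : ∀ s, 1 ≤ s → s < e → τ s ≠ 0 := fun s h1 h2 h0 => by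
        have h3 := mem_brk.2 ⟨h1, h2, h0⟩
        rw [hbr] at h3
        exact Finset.notMem_empty _ h3
      have hV : Van c (fun l i => wt e τ l * a l i) e := vanp_of_fcp he hF
      have hb0 : (fun i => wt e τ 0 * a 0 i) = a 0 := by
        funext i
        rw [wt_zero, one_mul]
      have h1 := landing hb hL heE (a := fun l i => wt e τ l * a l i)
        (by change (fun i => wt e τ 0 * a 0 i) ≠ 0; rw [hb0]; exact hN.1) hV
      change rk K (rg c ∪ rga (fun l i => wt e τ l * a l i) e) +
        bet c (fun i => wt e τ e * a e i) ≤ rk K (rg c ∪ rg (fun i => wt e τ 0 * a 0 i)) + m * e +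
        bet c (fun i => wt e τ 0 * a 0 i) at h1
      rw [hb0, bet_smul (wt_ne_zero hτ e)] at h1
      have h2 := base36 (K := K) (c := c) (a := a) hτ
      rw [hbr, Finset.card_empty]
      omega
    · obtain ⟨h1, h2, h0⟩ := mem_brk.1 hj
      have i1 := ih j h2 h1 τ a (Or.inl (by omega)) (fcp_left h1 h2 h0 hF) (nod_left hj hN)
      have i2 := ih (e - j) (by omega) (by omega) (fun s => τ (s + j)) (fun l => a (l + j))
        (Or.inl (by omega)) (fcp_right (fm_hom c) h1 h2 h0 hF) (nod_right hj hN)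
      change rk K (rg c ∪ rgt (fun s => τ (s + j)) (e - j) ∪ rga (fun l => a (l + j)) (e - j)) +
        (brk (fun s => τ (s + j)) (e - j)).card + bet c (a (e - j + j)) ≤
        rk K (rg c ∪ rg (a (0 + j))) + m * (e - j) + (e - j - 1) + bet c (a (0 + j)) at i2
      rw [Nat.sub_add_cancel h2.le, zero_add] at i2
      have h3 := split36 (K := K) (c := c) (a := a) h1 h2 h0
      have h4 := brk_split hj
      have h5 : m * j + m * (e - j) = m * e := by
        rw [← mul_add]
        congr 1
        omega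
      omega

theorem chain_bound_sing {c : Mon n d → Ω} (hL : Lay K m E c) (e : ℕ) (he : 1 ≤ e)
    (τ : ℕ → Ω) (a : ℕ → Fin (n + 1) → Ω) (hE : e ≤ E ∨ (e ≤ E + 1 ∧ (brk τ e).Nonempty))
    (hF : FCp (fm c) τ a e) (hS : ∀ i, FCp (pderiv i (fm c)) τ a e) (hN : Nod τ a e) :
    rk K (rg c ∪ rgt τ e ∪ rga a e) + (brk τ e).card ≤
      rk K (rg c ∪ rg (a 0)) + m * e + (e - 1) := by
  induction e using Nat.strong_induction_on generalizing τ a with
  | _ e ih =>
    rcases (brk τ e).eq_empty_or_nonempty with hbr | ⟨j, hj⟩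
    · have heE : e ≤ E := by
        rcases hE with h | ⟨_, h⟩
        · exact h
        · rw [hbr] at h
          exact absurd h Finset.not_nonempty_empty
      have hτ : ∀ s, 1 ≤ s → s < e → τ s ≠ 0 := fun s h1 h2 h0 => by
        have h3 := mem_brk.2 ⟨h1, h2, h0⟩
        rw [hbr] at h3
        exact Finset.notMem_empty _ h3
      have hV : Van c (fun l i => wt e τ l * a l i) e := vanp_of_fcp he hF
      have hSC : SingC c (fun l i => wt e τ l * a l i) e := fun i => vanp_of_fcp he (hS i)
      have hb0 : (fun i => wt e τ 0 * a 0 i) = a 0 := by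
        funext i
        rw [wt_zero, one_mul]
      have h1 := hL e heE (fun l i => wt e τ l * a l i)
        (by change (fun i => wt e τ 0 * a 0 i) ≠ 0; rw [hb0]; exact hN.1) hV
      have hrho : rho c (fun l i => wt e τ l * a l i) e = 0 := by
        unfold rho
        exact if_neg fun h => h.2 hSC
      rw [hrho] at h1
      change rk K (rg c ∪ rga (fun l i => wt e τ l * a l i) e) ≤
        rk K (rg c ∪ rg (fun i => wt e τ 0 * a 0 i)) + m * e + 0 at h1
      rw [hb0] at h1
      have h2 := base36 (K := K) (c := c) (a := a) hτ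
      rw [hbr, Finset.card_empty]
      omega
    · obtain ⟨h1, h2, h0⟩ := mem_brk.1 hj
      have i1 := ih j h2 h1 τ a (Or.inl (by omega)) (fcp_left h1 h2 h0 hF)
        (fun i => fcp_left h1 h2 h0 (hS i)) (nod_left hj hN)
      have i2 := ih (e - j) (by omega) (by omega) (fun s => τ (s + j)) (fun l => a (l + j))
        (Or.inl (by omega)) (fcp_right (fm_hom c) h1 h2 h0 hF)
        (fun i => fcp_right (pderiv_fm_hom c i) h1 h2 h0 (hS i)) (nod_right hj hN)
      change rk K (rg c ∪ rgt (fun s => τ (s + j)) (e - j) ∪ rga (fun l => a (l + j)) (e - j)) +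
        (brk (fun s => τ (s + j)) (e - j)).card ≤
        rk K (rg c ∪ rg (a (0 + j))) + m * (e - j) + (e - j - 1) at i2
      rw [zero_add] at i2
      have h3 := split36 (K := K) (c := c) (a := a) h1 h2 h0
      have h4 := brk_split hj
      have h5 : m * j + m * (e - j) = m * e := by
        rw [← mul_add]
        congr 1
        omega
      omega

end Pool.Agent.Helper30.RY
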