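import Mathlib
import Pool.Agent.Helper30.RY.Base

/-!
# Good hypersurfaces over an algebraically closed field: definitions

`K` is algebraically closed, `c₀` a form of degree `d` over `K`, `Ω` a big algebraically closed
extension of `K`.  `bc c₀` are the coefficients of the form in `Ω`.  In the application
`K = cl k (rg c)` for a form `c` with coefficients algebraically independent over `k`.
-/

namespace Pool.Agent.Helper30.RY

open MvPolynomial

section

variable {A : Type*} {n : ℕ}

/-- the line through two points, as a curve of degree one -/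
def ln (x y : Fin (n + 1) → A) : ℕ → Fin (n + 1) → A := fun l => if l = 0 then x else y

/-- the vectors `a 0, ..., a e` as one point -/
def vt (a : ℕ → Fin (n + 1) → A) (e : ℕ) : Fin (e + 1) × Fin (n + 1) → A := fun p => a p.1 p.2

/-- a chain as one point -/
def qt (τ : ℕ → A) (a : ℕ → Fin (n + 1) → A) (e : ℕ) :
    Fin (e - 1) ⊕ (Fin (e + 1) × Fin (n + 1)) → A :=
  Sum.elim (fun i => τ (i + 1)) (vt a e)

end

/-- the coefficients of the form over the big field -/
def bc {K : Type*} (Ω : Type*) [Field K] [Field Ω] [Algebra K Ω] {n d : ℕ} (c₀ : Mon n d → K) :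
    Mon n d → Ω := fun μ => algebraMap K Ω (c₀ μ)

section

variable (K : Type*) {Ω : Type*} [Field K] [Field Ω] [DecidableEq Ω] [Algebra K Ω] {n d : ℕ}

/-- a chain of the maximal possible rank -/
structure Full (m e : ℕ) (c : Mon n d → Ω) (τ : ℕ → Ω) (a : ℕ → Fin (n + 1) → Ω) : Prop where
  fcp : FCp (fm c) τ a e
  nod : Nod τ a e
  rnk : rk K (rgt τ e ∪ rga a e) + (brk τ e).card = m * e + n + (e - 1)

/-- a chain of lines of the maximal possible rank -/
structure LC (m e : ℕ) (c : Mon n d → Ω) (b : ℕ → Fin (n + 1) → Ω) : Prop where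
  van : ∀ i < e, Van c (ln (b i) (b (i + 1))) 1
  ne : ∀ i ≤ e, b i ≠ 0
  rnk : rk K (rga b e) = m * e + n

end

/-- The properties of a general hypersurface which are used.  `m = n + 1 - d`.
* `lay`: all spaces of curves through a point have the expected dimension;
* `pts`: the hypersurface is irreducible;
* `lines`: the space of lines through a generic point `z` is irreducible over `cl K (rg z)`;
* `free`: for a generic line the partial derivatives of the form, restricted to the line, span all
  polynomials of degree less than `d`;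
* `brks`: every chain without breaks of maximal rank specialises to a chain of maximal rank with
  at least one break. -/
structure Good (K : Type*) (Ω : Type*) [Field K] [Field Ω] [DecidableEq Ω] [Algebra K Ω]
    {n d : ℕ} (m : ℕ) (c₀ : Mon n d → K) : Prop where
  lay : ∀ e, Lay K m e (bc Ω c₀)
  smooth : ∀ z : Fin (n + 1) → Ω, z ≠ 0 → eval z (fm (bc Ω c₀)) = 0 → ¬ SingP (bc Ω c₀) z
  pts : ∀ z z' : Fin (n + 1) → Ω, eval z (fm (bc Ω c₀)) = 0 → eval z' (fm (bc Ω c₀)) = 0 →
    rk K (rg z) = n → rk K (rg z') = n → Spc K z z'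
  lines : ∀ z y y' : Fin (n + 1) → Ω, Van (bc Ω c₀) (ln z y) 1 → Van (bc Ω c₀) (ln z y') 1 →
    rk K (rg z ∪ rg y) = n + m → rk K (rg z ∪ rg y') = n + m → Spc (cl K (rg z)) y y'
  free : ∀ z y : Fin (n + 1) → Ω, Van (bc Ω c₀) (ln z y) 1 → rk K (rg z ∪ rg y) = n + m →
    ∀ p : Polynomial Ω, p.degree < (d : ℕ) → ∃ t : Fin (n + 1) → Ω,
      ∑ i, Polynomial.C (t i) * aeval (cv (ln z y) 1) (pderiv i (fm (bc Ω c₀))) = p
  brks : ∀ e, 2 ≤ e → ∀ (τ : ℕ → Ω) (a : ℕ → Fin (n + 1) → Ω), (∀ i, 1 ≤ i → i < e → τ i ≠ 0) →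
    Full K m e (bc Ω c₀) τ a → ∃ (τ' : ℕ → Ω) (a' : ℕ → Fin (n + 1) → Ω),
      Spc K (qt τ a e) (qt τ' a' e) ∧ (brk τ' e).Nonempty ∧ Full K m e (bc Ω c₀) τ' a'

end Pool.Agent.Helper30.RY
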