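import Mathlib
import Pool.Agent.Helper30.RY.Act
import Pool.Agent.Helper30.RY.Gdf
import Pool.Agent.Helper30.RY.Cur

/-!
# Block RY-CLN: coefficients of `f(h X)` and points and lines on the hypersurface

* `act_pow`: the coefficient of `x_j^d` in a form `g` is `g(e_j)`; `eval_sbs`.
* `lnM j`: the monomials of degree `d` in the variables `x_0`, `x_j`.  `act_line`: if the line through
  `h e_0` and `h e_j` is on the hypersurface of `c`, then the line through `e_0`, `e_j` is on the one of
  `act h c` (`van_act`), so the polynomial `∑_{a + b = d} c'(x_0^a x_j^b) T^b` is zero (all monomials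
  containing another variable vanish on this line): its coefficients are `act h c μ`, `μ ∈ lnM j`.
* `card_lnM`: `b ↦ x_0^(d-b) x_j^b` is a bijection of `Fin (d + 1)` and `lnM j`.
* `card_lnM_union`: the intersection of `lnM j` and `lnM j'` (`j ≠ j'`) is `{x_0^d}`.
-/

namespace Pool.Agent.Helper30.RY

open MvPolynomial

/-- the monomial `x_j^d` -/
noncomputable def mp (n d : ℕ) (j : Fin (n + 1)) : Mon n d :=
  ⟨Finsupp.single j d, Finsupp.degree_single j d⟩

open Classical in
/-- the monomials in the variables `x_0`, `x_j` -/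
noncomputable def lnM (n d : ℕ) (j : Fin (n + 1)) : Finset (Mon n d) :=
  Finset.univ.filter fun μ => ∀ i, i ≠ 0 → i ≠ j → μ.1 i = 0

variable {Ω : Type*} [Field Ω] {n d : ℕ}

private theorem mem_lnM45 {j : Fin (n + 1)} {μ : Mon n d} :
    μ ∈ lnM n d j ↔ ∀ i, i ≠ 0 → i ≠ j → μ.1 i = 0 := by
  classical
  unfold lnM
  rw [Finset.mem_filter]
  exact ⟨fun h => h.2, fun h => ⟨Finset.mem_univ _, h⟩⟩

private theorem eq_mp45 {j : Fin (n + 1)} {μ : Mon n d} (h : ∀ i, i ≠ j → μ.1 i = 0) :
    μ = mp n d j := by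
  have h1 : μ.1 j = d := by
    have h2 := μ.2
    rw [Finsupp.degree_eq_sum, Finset.sum_eq_single j (fun i _ hi => h i hi)
      (fun hj => absurd (Finset.mem_univ j) hj)] at h2
    exact h2
  apply Subtype.ext
  ext i
  change μ.1 i = (Finsupp.single j d) i
  by_cases hi : i = j
  · rw [hi, h1, Finsupp.single_eq_same]
  · rw [h i hi, Finsupp.single_eq_of_ne hi]

private theorem sum_lnM45 {j : Fin (n + 1)} (hj : j ≠ 0) {μ : Mon n d} (hμ : μ ∈ lnM n d j) :
    μ.1 0 + μ.1 j = d := by
  have h2 := μ.2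
  rw [mem_lnM45] at hμ
  rw [Finsupp.degree_eq_sum, Finset.sum_eq_add_of_mem (0 : Fin (n + 1)) j (Finset.mem_univ _)
    (Finset.mem_univ _) hj.symm (fun i _ hi => hμ i hi.1 hi.2)] at h2
  exact h2

private theorem lnM_ext45 {j : Fin (n + 1)} (hj : j ≠ 0) {μ ν : Mon n d} (hμ : μ ∈ lnM n d j)
    (hν : ν ∈ lnM n d j) (h : μ.1 j = ν.1 j) : μ = ν := by
  have h1 := sum_lnM45 hj hμ
  have h2 := sum_lnM45 hj hν
  rw [mem_lnM45] at hμ hν
  apply Subtype.ext
  ext i
  by_cases h0 : i = 0
  · rw [h0]
    omega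
  · by_cases hi : i = j
    · rw [hi, h]
    · rw [hμ i h0 hi, hν i h0 hi]

theorem act_pow (h : Matrix (Fin (n + 1)) (Fin (n + 1)) Ω) (c : Mon n d → Ω) (j : Fin (n + 1)) :
    act h c (mp n d j) = eval (fun i => h i j) (fm c) := by
  classical
  have h1 : h.mulVec (Pi.single j 1) = fun i => h i j := by
    rw [Matrix.mulVec_single_one]
    rfl
  rw [← h1, ← eval_sbs, ← fm_act]
  have h2 : eval (Pi.single j 1) (fm (act h c)) =
      ∑ μ : Mon n d, act h c μ * ∏ i, (Pi.single j 1 : Fin (n + 1) → Ω) i ^ μ.1 i := by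
    conv_lhs => unfold fm
    rw [map_sum]
    refine Finset.sum_congr rfl fun μ _ => ?_
    rw [eval_monomial, Finsupp.prod_fintype _ _ (fun _ => pow_zero _)]
  rw [h2, Finset.sum_eq_single (mp n d j)]
  · have h3 : ∏ i, (Pi.single j 1 : Fin (n + 1) → Ω) i ^ (mp n d j).1 i = 1 := by
      refine Finset.prod_eq_one fun i _ => ?_
      change (Pi.single j 1 : Fin (n + 1) → Ω) i ^ (Finsupp.single j d) i = 1
      by_cases hi : i = j
      · rw [hi, Pi.single_eq_same, one_pow]
      · rw [Finsupp.single_eq_of_ne hi, pow_zero]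
    rw [h3, mul_one]
  · intro μ _ hμ
    have h3 : ∃ i, i ≠ j ∧ μ.1 i ≠ 0 := by
      by_contra h4
      push Not at h4
      exact hμ (eq_mp45 h4)
    obtain ⟨i, hi, hi'⟩ := h3
    rw [Finset.prod_eq_zero (Finset.mem_univ i), mul_zero]
    rw [Pi.single_eq_of_ne hi, zero_pow hi']
  · intro h3
    exact absurd (Finset.mem_univ _) h3

theorem act_line (h : Matrix (Fin (n + 1)) (Fin (n + 1)) Ω) (c : Mon n d → Ω) {j : Fin (n + 1)}
    (hj : j ≠ 0) (hV : Van c (ln (fun i => h i 0) fun i => h i j) 1) (μ : Mon n d)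
    (hμ : μ ∈ lnM n d j) : act h c μ = 0 := by
  classical
  have h0 : ∀ k : Fin (n + 1), h.mulVec (Pi.single k 1) = fun i => h i k := by
    intro k
    rw [Matrix.mulVec_single_one]
    rfl
  have h1 : Van (act h c) (ln (Pi.single 0 1) (Pi.single j 1)) 1 := by
    rw [van_act]
    have h2 : (fun l => h.mulVec (ln (Pi.single 0 1) (Pi.single j 1) l)) =
        ln (fun i => h i 0) fun i => h i j := by
      funext l
      unfold ln
      split_ifs
      · exact h0 0
      · exact h0 j
    rw [h2]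
    exact hV
  have h2 : cv (ln (Pi.single 0 1) (Pi.single j 1) : ℕ → Fin (n + 1) → Ω) 1 =
      fun i => if i = 0 then 1 else if i = j then Polynomial.X else 0 := by
    funext i
    unfold cv ln
    rw [Finset.sum_range_succ, Finset.sum_range_one, if_pos rfl, if_neg one_ne_zero, pow_zero,
      pow_one, mul_one]
    by_cases hi : i = 0
    · rw [hi, if_pos rfl, Pi.single_eq_same, Pi.single_eq_of_ne hj.symm, map_one, map_zero,
        zero_mul, add_zero]
    · rw [if_neg hi, Pi.single_eq_of_ne hi, map_zero, zero_add]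
      by_cases hi' : i = j
      · rw [hi', if_pos rfl, Pi.single_eq_same, map_one, one_mul]
      · rw [if_neg hi', Pi.single_eq_of_ne hi', map_zero, zero_mul]
  have h3 : ∑ ν : Mon n d, Polynomial.C (act h c ν) * ∏ i : Fin (n + 1),
      (if i = 0 then 1 else if i = j then Polynomial.X else 0 : Polynomial Ω) ^ ν.1 i = 0 := by
    have h4 : aeval (cv (ln (Pi.single 0 1) (Pi.single j 1) : ℕ → Fin (n + 1) → Ω) 1)
        (fm (act h c)) = 0 := h1
    rw [h2] at h4
    refine Eq.trans ?_ h4
    conv_rhs => unfold fm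
    rw [map_sum]
    refine Finset.sum_congr rfl fun ν _ => ?_
    rw [aeval_monomial, Finsupp.prod_fintype _ _ (fun _ => pow_zero _)]
    rfl
  have h4 : ∀ ν : Mon n d, (Polynomial.C (act h c ν) * ∏ i : Fin (n + 1),
      (if i = 0 then 1 else if i = j then Polynomial.X else 0 : Polynomial Ω) ^ ν.1 i).coeff
        (μ.1 j) = if ν = μ then act h c μ else 0 := by
    intro ν
    by_cases hν : ν ∈ lnM n d j
    · have h5 : ∏ i : Fin (n + 1),
          (if i = 0 then 1 else if i = j then Polynomial.X else 0 : Polynomial Ω) ^ ν.1 i =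
          Polynomial.X ^ ν.1 j := by
        rw [Finset.prod_eq_single j]
        · rw [if_neg hj, if_pos rfl]
        · intro i _ hi
          by_cases hi0 : i = 0
          · rw [if_pos hi0, one_pow]
          · rw [mem_lnM45.1 hν i hi0 hi, pow_zero]
        · intro h6
          exact absurd (Finset.mem_univ _) h6
      rw [h5, Polynomial.coeff_C_mul, Polynomial.coeff_X_pow]
      by_cases h6 : ν = μ
      · rw [if_pos h6, h6, if_pos rfl, mul_one]
      · rw [if_neg h6, if_neg (fun h7 => h6 (lnM_ext45 hj hν hμ h7.symm)), mul_zero]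
    · have h5 : ∃ i, i ≠ 0 ∧ i ≠ j ∧ ν.1 i ≠ 0 := by
        by_contra h6
        push Not at h6
        exact hν (mem_lnM45.2 h6)
      obtain ⟨i, hi0, hij, hi⟩ := h5
      rw [Finset.prod_eq_zero (Finset.mem_univ i) (by rw [if_neg hi0, if_neg hij, zero_pow hi]),
        mul_zero, Polynomial.coeff_zero, if_neg (fun h6 => hν (by rw [h6]; exact hμ))]
  have h5 := congrArg (fun P : Polynomial Ω => P.coeff (μ.1 j)) h3
  simp only [Polynomial.finsetSum_coeff, h4, Polynomial.coeff_zero] at h5
  rw [Finset.sum_ite_eq', if_pos (Finset.mem_univ _)] at h5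
  exact h5

theorem mp_injective (hd : 1 ≤ d) : Function.Injective (mp n d) := by
  intro j j' hjj
  have h1 : Finsupp.single j d = Finsupp.single j' d := congrArg Subtype.val hjj
  exact Finsupp.single_left_injective (by omega) h1

theorem card_lnM {j : Fin (n + 1)} (hj : j ≠ 0) : (lnM n d j).card = d + 1 := by
  rw [← Finset.card_range (d + 1)]
  refine Finset.card_bij (fun μ _ => μ.1 j) (fun μ hμ => ?_) (fun μ hμ ν hν h => ?_)
    (fun b hb => ?_)
  · have h1 := sum_lnM45 hj hμ
    rw [Finset.mem_range]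
    omega
  · exact lnM_ext45 hj hμ hν h
  · rw [Finset.mem_range] at hb
    refine ⟨⟨Finsupp.single 0 (d - b) + Finsupp.single j b, ?_⟩, ?_, ?_⟩
    · rw [map_add, Finsupp.degree_single, Finsupp.degree_single]
      omega
    · rw [mem_lnM45]
      intro i h0 hi
      change (Finsupp.single 0 (d - b) + Finsupp.single j b : Fin (n + 1) →₀ ℕ) i = 0
      rw [Finsupp.add_apply, Finsupp.single_eq_of_ne h0, Finsupp.single_eq_of_ne hi, add_zero]
    · change (Finsupp.single 0 (d - b) + Finsupp.single j b : Fin (n + 1) →₀ ℕ) j = b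
      rw [Finsupp.add_apply, Finsupp.single_eq_of_ne hj, Finsupp.single_eq_same, zero_add]

theorem card_lnM_union [DecidableEq (Mon n d)] {j j' : Fin (n + 1)} (hj : j ≠ 0) (hj' : j' ≠ 0)
    (h : j ≠ j') : (lnM n d j ∪ lnM n d j').card = 2 * d + 1 := by
  have h1 : lnM n d j ∩ lnM n d j' = {mp n d 0} := by
    ext μ
    rw [Finset.mem_inter, Finset.mem_singleton, mem_lnM45, mem_lnM45]
    constructor
    · rintro ⟨h2, h3⟩
      refine eq_mp45 fun i hi => ?_
      by_cases hij : i = j
      · exact h3 i hi (by rw [hij]; exact h)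
      · exact h2 i hi hij
    · intro h2
      rw [h2]
      have h3 : ∀ i : Fin (n + 1), i ≠ 0 → (mp n d 0).1 i = 0 := by
        intro i hi
        change (Finsupp.single 0 d : Fin (n + 1) →₀ ℕ) i = 0
        rw [Finsupp.single_eq_of_ne hi]
      exact ⟨fun i hi _ => h3 i hi, fun i hi _ => h3 i hi⟩
  rw [Finset.card_union, h1, Finset.card_singleton, card_lnM hj, card_lnM hj']
  omega

end Pool.Agent.Helper30.RY
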