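import Mathlib
import Pool.Agent.Helper30.RY.Cur
import Pool.Agent.Helper30.RY.Gen

/-!
# Block RY-COV: curves which cover a line

`F = ∑ a_l T^l` with all `a l` (`l ≤ e`) in the span of `x = a 0` and `y = a e`, `x, y ≠ 0`.

Case 1: `y = η x`, all `a l = α_l x`, `α_0 = 1`: all coordinates are in `cl K (rg (a 0) ∪ {α_1, ..., α_e})`, so
`rk ≤ rk (rg c ∪ rg (a 0)) + e`, and `e ≤ m e`.

Case 2: `x, y` linearly independent: `a l = α_l x + β_l y`, `α_0 = 1`, `β_0 = 0`, `α_e = 0`, `β_e = 1` (`e ≥ 1`).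
Then `rk (rg c ∪ rga a e) ≤ rk (rg c ∪ rg x ∪ rg y) + 2 (e - 1)`.
The line `L` with `L 0 = x`, `L 1 = y` lies on the hypersurface: for a form `f` of degree `q` put
`g(S₁, S₂) = f(S₁ x + S₂ y) = ∑_j g_j S₁^{q-j} S₂^j`; `f(F) = g(α(T), β(T))`, where
`α = ∑ α_l T^l`, `β = ∑ β_l T^l`, `α(0) = 1`, `β(0) = 0`, `β ≠ 0`.  If `f(F) = 0` and `g ≠ 0` let `j₀` be minimal
with `g_{j₀} ≠ 0`: `0 = β^{j₀} (g_{j₀} α^{q-j₀} + β (...))`, cancel `β^{j₀}` and evaluate at `T = 0`:
`g_{j₀} = 0`, contradiction.  So `f(F) = 0` iff `g = 0` iff `f(x + T y) = 0` (`vanp_line`).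
Apply this to `fm c` and to its partial derivatives: `Van c L 1`, `SingC c L 1 ↔ SingC c a e`,
`rho c L 1 = rho c a e`.  `Lay` for `e' = 1` gives
`rk (rg c ∪ rg x ∪ rg y) ≤ rk (rg c ∪ rg x) + m + rho`, and `m + 2 (e - 1) ≤ m e` as `m ≥ 2`.
-/

namespace Pool.Agent.Helper30.RY

open MvPolynomial

variable {Ω : Type*} [Field Ω] {n : ℕ}

/-- Homogeneity for values in an algebra. -/
private theorem aev_h54 {A : Type*} [CommRing A] {S : Type*} [CommRing S] [Algebra A S] {q : ℕ}
    {f : MvPolynomial (Fin (n + 1)) A} (hf : f.IsHomogeneous q) (t : S) (g : Fin (n + 1) → S) :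
    aeval (fun i => t * g i) f = t ^ q * aeval g f := by
  rw [aeval_def, aeval_def, eval₂_eq', eval₂_eq', Finset.mul_sum]
  refine Finset.sum_congr rfl fun m hm => ?_
  have h1 : m.degree = q := by
    by_contra hcon
    exact (mem_support_iff.mp hm) (hf.coeff_eq_zero hcon)
  have h2 : ∏ i, (t * g i) ^ m i = t ^ q * ∏ i, g i ^ m i := by
    simp only [mul_pow]
    rw [Finset.prod_mul_distrib, Finset.prod_pow_eq_pow_sum]
    congr 2
    rw [← h1, Finsupp.degree_eq_sum]
  rw [h2]
  ring

private theorem aeval_ne_h54 {G : Polynomial Ω} (hG : G ≠ 0) {u : PowerSeries Ω} (hu : u ≠ 0)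
    (hu0 : PowerSeries.constantCoeff u = 0) : Polynomial.aeval u G ≠ 0 := by
  obtain ⟨H, hH, hH0⟩ := Polynomial.exists_eq_pow_rootMultiplicity_mul_and_not_dvd G hG 0
  rw [Polynomial.dvd_iff_isRoot, Polynomial.IsRoot.def] at hH0
  rw [hH, map_mul, map_pow, map_sub, Polynomial.aeval_X, Polynomial.C_0, map_zero, sub_zero]
  refine mul_ne_zero (pow_ne_zero _ hu) fun h0 => hH0 ?_
  have h1 := congrArg (PowerSeries.constantCoeff (R := Ω)) h0
  rw [Polynomial.aeval_def, Polynomial.hom_eval₂, hu0, map_zero] at h1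
  have h2 : (PowerSeries.constantCoeff (R := Ω)).comp (algebraMap Ω (PowerSeries Ω)) =
      RingHom.id Ω := by
    ext x
    simp
  rw [h2, Polynomial.eval₂_id] at h1
  exact h1

theorem vanp_line {q : ℕ} {f : MvPolynomial (Fin (n + 1)) Ω} (hf : f.IsHomogeneous q)
    {a : ℕ → Fin (n + 1) → Ω} {e : ℕ} (he : 1 ≤ e)
    (h1 : ∀ l ≤ e, ∃ α β : Ω, ∀ i, a l i = α * a 0 i + β * a e i)
    (h2 : ¬ ∃ η : Ω, ∀ i, a e i = η * a 0 i) :
    Vanp f a e ↔ Vanp f (fun l => if l = 0 then a 0 else a e) 1 := by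
  -- the coefficients
  have h3 : ∀ l, ∃ α β : Ω, (l ≤ e → ∀ i, a l i = α * a 0 i + β * a e i) ∧
      (l = 0 → α = 1 ∧ β = 0) ∧ (l = e → α = 0 ∧ β = 1) := by
    intro l
    by_cases hl0 : l = 0
    · refine ⟨1, 0, fun _ i => ?_, fun _ => ⟨rfl, rfl⟩, fun h => by omega⟩
      rw [hl0, one_mul, zero_mul, add_zero]
    · by_cases hle : l = e
      · refine ⟨0, 1, fun _ i => ?_, fun h => absurd h hl0, fun _ => ⟨rfl, rfl⟩⟩
        rw [hle, one_mul, zero_mul, zero_add]
      · by_cases hl : l ≤ e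
        · obtain ⟨α, β, h⟩ := h1 l hl
          exact ⟨α, β, fun _ => h, fun h => absurd h hl0, fun h => absurd h hle⟩
        · exact ⟨0, 0, fun h => absurd h hl, fun h => absurd h hl0, fun h => absurd h hle⟩
  choose α β hab hab0 habe using h3
  let φ : Polynomial Ω →ₐ[Ω] PowerSeries Ω := Polynomial.coeToPowerSeries.algHom Ω
  have hφ : Function.Injective φ := by
    intro p q hpq
    have h : (p : PowerSeries Ω) = (q : PowerSeries Ω) := by
      have h4 := hpq
      simp only [φ, Polynomial.coeToPowerSeries.algHom_apply, Algebra.algebraMap_self,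
        PowerSeries.map_id] at h4
      exact h4
    exact Polynomial.coe_injective Ω h
  have hφc : ∀ p : Polynomial Ω, PowerSeries.constantCoeff (φ p) = p.coeff 0 := by
    intro p
    simp [φ, Polynomial.coeToPowerSeries.algHom_apply]
  let A : Polynomial Ω := ∑ l ∈ Finset.range (e + 1), Polynomial.C (α l) * Polynomial.X ^ l
  let B : Polynomial Ω := ∑ l ∈ Finset.range (e + 1), Polynomial.C (β l) * Polynomial.X ^ l
  have hcoef : ∀ (γ : ℕ → Ω) (j : ℕ), j ≤ e →
      (∑ l ∈ Finset.range (e + 1), Polynomial.C (γ l) * Polynomial.X ^ l).coeff j = γ j := by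
    intro γ j hj
    rw [Polynomial.finsetSum_coeff, Finset.sum_eq_single j]
    · rw [Polynomial.coeff_C_mul_X_pow, if_pos rfl]
    · intro l _ hl
      rw [Polynomial.coeff_C_mul_X_pow, if_neg (Ne.symm hl)]
    · intro h
      exact absurd (Finset.mem_range.2 (by omega)) h
  have hA0 : A.coeff 0 = 1 := (hcoef α 0 (by omega)).trans (hab0 0 rfl).1
  have hB0 : B.coeff 0 = 0 := (hcoef β 0 (by omega)).trans (hab0 0 rfl).2
  have hBe : B.coeff e = 1 := (hcoef β e le_rfl).trans (habe e rfl).2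
  have hB : B ≠ 0 := by
    intro h
    rw [h, Polynomial.coeff_zero] at hBe
    exact zero_ne_one hBe
  have hcv : ∀ i, cv a e i = A * Polynomial.C (a 0 i) + B * Polynomial.C (a e i) := by
    intro i
    unfold cv
    rw [Finset.sum_mul, Finset.sum_mul, ← Finset.sum_add_distrib]
    refine Finset.sum_congr rfl fun l hl => ?_
    rw [hab l (by
      have := Finset.mem_range.1 hl
      omega) i, Polynomial.C_add, Polynomial.C_mul, Polynomial.C_mul]
    ring
  have hφA : PowerSeries.constantCoeff (φ A) ≠ 0 := by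
    rw [hφc, hA0]
    exact one_ne_zero
  have hφA0 : φ A ≠ 0 := by
    intro h
    rw [h, map_zero] at hφA
    exact hφA rfl
  set u : PowerSeries Ω := φ B * (φ A)⁻¹ with hu
  have huA : φ A * u = φ B := by
    rw [hu, mul_comm, mul_assoc, PowerSeries.inv_mul_cancel _ hφA, mul_one]
  have hu0 : PowerSeries.constantCoeff u = 0 := by
    rw [hu, map_mul, hφc, hB0, zero_mul]
  have hune : u ≠ 0 := by
    intro h
    rw [h, mul_zero] at huA
    exact hB (hφ (by rw [← huA, map_zero]))
  have key : φ (aeval (cv a e) f) = φ A ^ q *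
      Polynomial.aeval u (aeval (cv (fun l => if l = 0 then a 0 else a e) 1) f) := by
    rw [comp_aeval_apply, comp_aeval_apply, ← aev_h54 hf]
    congr 1
    congr 1
    funext i
    rw [hcv, map_add, map_mul, map_mul]
    have h5 : cv (fun l => if l = 0 then a 0 else a e) 1 i =
        Polynomial.C (a 0 i) + Polynomial.C (a e i) * Polynomial.X := by
      unfold cv
      rw [Finset.sum_range_succ, Finset.sum_range_one]
      simp
    rw [h5, map_add, map_mul, Polynomial.aeval_X, Polynomial.aeval_C, Polynomial.aeval_C, ← huA]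
    have h6 : ∀ x : Ω, φ (Polynomial.C x) = algebraMap Ω (PowerSeries Ω) x := fun x =>
      φ.commutes x
    rw [h6, h6]
    ring
  unfold Vanp
  constructor
  · intro h
    rw [h, map_zero] at key
    by_contra hG
    exact mul_ne_zero (pow_ne_zero _ hφA0) (aeval_ne_h54 hG hune hu0) key.symm
  · intro h
    rw [h, map_zero, mul_zero] at key
    exact hφ (by rw [key, map_zero])

private theorem mem_rga_h54 {Ω : Type*} [DecidableEq Ω] {ι : Type*} [Fintype ι] {a : ℕ → ι → Ω}
    {e : ℕ} {z : Ω} : z ∈ rga a e ↔ ∃ l ≤ e, ∃ i, a l i = z := by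
  unfold rga rg
  simp only [Finset.mem_biUnion, Finset.mem_range, Finset.mem_image, Finset.mem_univ, true_and]
  constructor
  · rintro ⟨l, hl, i, hi⟩
    exact ⟨l, by omega, i, hi⟩
  · rintro ⟨l, hl, i, hi⟩
    exact ⟨l, by omega, i, hi⟩

private theorem mem_rg_h54 {Ω : Type*} [DecidableEq Ω] {ι : Type*} [Fintype ι] {a : ι → Ω}
    (i : ι) : a i ∈ rg a :=
  Finset.mem_image_of_mem _ (Finset.mem_univ i)

theorem cover_bound {K : Type*} [Field K] [Algebra K Ω] [DecidableEq Ω] {d m E : ℕ}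
    (hm : 2 ≤ m) {c : Mon n d → Ω} (hL : Lay K m E c) (hE : 1 ≤ E)
    {a : ℕ → Fin (n + 1) → Ω} {e : ℕ} (he : 1 ≤ e) (h0 : a 0 ≠ 0) (hV : Van c a e)
    (h1 : ∀ l ≤ e, ∃ α β : Ω, ∀ i, a l i = α * a 0 i + β * a e i) :
    rk K (rg c ∪ rga a e) ≤ rk K (rg c ∪ rg (a 0)) + m * e + rho c a e := by
  have h1' : ∀ l, ∃ α β : Ω, l ≤ e → ∀ i, a l i = α * a 0 i + β * a e i := by
    intro l
    by_cases hl : l ≤ e
    · obtain ⟨α, β, h⟩ := h1 l hl
      exact ⟨α, β, fun _ => h⟩
    · exact ⟨0, 0, fun h => absurd h hl⟩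
  choose α β hab using h1'
  by_cases h2 : ∃ η : Ω, ∀ i, a e i = η * a 0 i
  · obtain ⟨η, hη⟩ := h2
    set t : Finset Ω := (Finset.Ico 1 (e + 1)).image (fun l => α l + β l * η) with ht
    have htc : t.card ≤ e := by
      refine Finset.card_image_le.trans ?_
      rw [Nat.card_Ico]
      omega
    have h3 : rk K (rg c ∪ rga a e) ≤ rk K (rg c ∪ rg (a 0) ∪ t) := by
      refine rk_le_of_subset_cl K fun z hz => ?_
      rcases Finset.mem_union.1 hz with hz | hz
      · exact subset_cl K _ z (Finset.mem_union_left _ (Finset.mem_union_left _ hz))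
      · obtain ⟨l, hl, i, rfl⟩ := mem_rga_h54.1 hz
        have hz0 : a 0 i ∈ cl K (rg c ∪ rg (a 0) ∪ t) :=
          subset_cl K _ _ (Finset.mem_union_left _ (Finset.mem_union_right _ (mem_rg_h54 i)))
        by_cases hl0 : l = 0
        · rw [hl0]
          exact hz0
        · have h4 : a l i = (α l + β l * η) * a 0 i := by
            rw [hab l hl i, hη i]
            ring
          rw [h4]
          refine mul_mem (subset_cl K _ _ (Finset.mem_union_right _ ?_)) hz0
          exact Finset.mem_image.2 ⟨l, Finset.mem_Ico.2 ⟨by omega, by omega⟩, rfl⟩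
    have h4 := rk_union_le_card K (rg c ∪ rg (a 0)) t
    have h5 : e ≤ m * e := Nat.le_mul_of_pos_left e (by omega)
    omega
  · set L : ℕ → Fin (n + 1) → Ω := fun l => if l = 0 then a 0 else a e with hLd
    have hL0 : L 0 = a 0 := by rw [hLd]; simp
    have hL1 : L 1 = a e := by rw [hLd]; simp
    have hVL : Van c L 1 := (vanp_line (fm_hom c) he h1 h2).1 hV
    have hS : SingC c L 1 ↔ SingC c a e := by
      unfold SingC
      exact forall_congr' fun i => (vanp_line (pderiv_fm_hom c i) he h1 h2).symm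
    have hrho : rho c L 1 = rho c a e := by
      unfold rho
      rw [hL0, hS]
    have h3 := hL 1 hE L (by rw [hL0]; exact h0) hVL
    rw [hL0, hrho, mul_one] at h3
    set t : Finset Ω := (Finset.Ico 1 e).image α ∪ (Finset.Ico 1 e).image β with ht
    have htc : t.card ≤ 2 * (e - 1) := by
      refine (Finset.card_union_le _ _).trans ?_
      have e1 : ((Finset.Ico 1 e).image α).card ≤ e - 1 :=
        Finset.card_image_le.trans (by rw [Nat.card_Ico])
      have e2 : ((Finset.Ico 1 e).image β).card ≤ e - 1 :=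
        Finset.card_image_le.trans (by rw [Nat.card_Ico])
      omega
    have h4 : rk K (rg c ∪ rga a e) ≤ rk K (rg c ∪ rga L 1 ∪ t) := by
      refine rk_le_of_subset_cl K fun z hz => ?_
      rcases Finset.mem_union.1 hz with hz | hz
      · exact subset_cl K _ z (Finset.mem_union_left _ (Finset.mem_union_left _ hz))
      · obtain ⟨l, hl, i, rfl⟩ := mem_rga_h54.1 hz
        have hz0 : a 0 i ∈ cl K (rg c ∪ rga L 1 ∪ t) := by
          refine subset_cl K _ _ (Finset.mem_union_left _ (Finset.mem_union_right _ ?_))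
          exact mem_rga_h54.2 ⟨0, by omega, i, by rw [hL0]⟩
        have hze : a e i ∈ cl K (rg c ∪ rga L 1 ∪ t) := by
          refine subset_cl K _ _ (Finset.mem_union_left _ (Finset.mem_union_right _ ?_))
          exact mem_rga_h54.2 ⟨1, le_rfl, i, by rw [hL1]⟩
        by_cases hl0 : l = 0
        · rw [hl0]
          exact hz0
        · by_cases hle : l = e
          · rw [hle]
            exact hze
          · rw [hab l hl i]
            have hlm : l ∈ Finset.Ico 1 e := Finset.mem_Ico.2 ⟨by omega, by omega⟩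
            refine add_mem (mul_mem (subset_cl K _ _ (Finset.mem_union_right _ ?_)) hz0)
              (mul_mem (subset_cl K _ _ (Finset.mem_union_right _ ?_)) hze)
            · exact Finset.mem_union_left _ (Finset.mem_image_of_mem _ hlm)
            · exact Finset.mem_union_right _ (Finset.mem_image_of_mem _ hlm)
    have h5 := rk_union_le_card K (rg c ∪ rga L 1) t
    have h6 : m + 2 * (e - 1) ≤ m * e := by
      obtain ⟨j, rfl⟩ : ∃ j, e = j + 1 := ⟨e - 1, by omega⟩
      rw [Nat.add_sub_cancel, Nat.mul_succ]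
      have := Nat.mul_le_mul_right j hm
      omega
    omega

end Pool.Agent.Helper30.RY
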