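import Mathlib
import Pool.Agent.Helper30.RY.Cur
import Pool.Agent.Helper30.RY.Gen

/-!
# Block RY-CVC: conditions imposed on forms by points and curves

`N = card (Mon n d)`.
* `lin_conditions`: if `c : ι → Ω` satisfies `r` linear equations `∑ M i m * c m = 0` with linearly independent
  coefficient vectors `M i` with entries in `cl K S`, then `rk K (S ∪ rg c) + r ≤ rk K S + card ι`.  Proof: some
  `r × r` minor of `M` is not zero; the corresponding `r` coordinates of `c` are in
  `cl K (S ∪ the other coordinates)` (Cramer), or by induction on `r`.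
* `zero_le`: `c ≠ 0`, `rg c ⊆ S`, `f(z) = 0`: then `z` is not generic over `S`, so `rk (S ∪ rg z) ≤ rk S + n`
  (`eval_ne_zero_of_generic` with the polynomial `fm c`, `coeff_fm`).
* `point_condition`: `z ≠ 0`, `f(z) = 0`: one non trivial linear equation, whose coefficients are the monomials in `z`.
* `sing_conditions`: `SingP c z` and `f(z) = 0`, `z ≠ 0`: the linear forms `c ↦ f_c(z)` and `c ↦ ∂_i f_c(z)` span a
  space of dimension `n + 1`: choose `i₀` with `z i₀ ≠ 0`; the polynomials
  `x_{i₀}^(d-1) (z_{i₀} x_i - z_i x_{i₀})` (`i ≠ i₀`) and `x_{i₀}^d` are forms on which the linear forms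
  `∂_i f(z)` (`i ≠ i₀`) and `f(z)` take linearly independent values (triangular: the first are zero at `z` and
  `∂_i` of them is `z_{i₀}^d` for one `i` only, the last has `f(z) = z_{i₀}^d ≠ 0`).  (`d ≥ 1`.)
* `curve_conditions`: the vectors `a 0, ..., a e` are not all proportional to one vector: then there are
  `i₁, i₂` such that the polynomials `G₁ = cv a e i₁`, `G₂ = cv a e i₂` are linearly independent over `Ω`.
  The polynomials `G₁^(d-i) G₂^i`, `0 ≤ i ≤ d`, are linearly independent: a relation `∑ c_i G₁^(d-i) G₂^i = 0`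
  factors over the algebraically closed field `Ω` as a product of linear forms `α G₁ + β G₂`.
  So the linear map `c ↦ f_c(cv a e)` from the forms to `Ω[T]` has rank at least `d + 1`, its matrix has
  entries in `cl K (rga a e)`, and some `d + 1` of its rows (coefficients of powers of `T`) are linearly
  independent; `lin_conditions`.
-/

namespace Pool.Agent.Helper30.RY

open MvPolynomial

variable {K : Type*} [Field K] {Ω : Type*} [Field Ω] [Algebra K Ω] [DecidableEq Ω] {n d : ℕ}

theorem lin_conditions {ι : Type*} [Fintype ι] {r : ℕ} (S : Finset Ω) (M : Fin r → ι → Ω)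
    (hM : LinearIndependent Ω M) (hS : ∀ i m, M i m ∈ cl K S) (c : ι → Ω)
    (h : ∀ i, ∑ m, M i m * c m = 0) : rk K (S ∪ rg c) + r ≤ rk K S + Fintype.card ι := by
  classical
  obtain ⟨M', hM'⟩ : ∃ M' : Fin r → ι → cl K S, M' = fun i m => ⟨M i m, hS i m⟩ := ⟨_, rfl⟩
  have hMli : LinearIndependent (cl K S) M' := by
    rw [Fintype.linearIndependent_iff] at hM ⊢
    intro g hg i
    have h1 := hM (fun i => (g i : Ω)) (by
      funext m
      have h2 := congrArg (algebraMap (cl K S) Ω) (congrFun hg m)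
      rw [Finset.sum_apply] at h2 ⊢
      rw [Pi.zero_apply, map_zero, map_sum] at h2
      rw [Pi.zero_apply, ← h2]
      refine Finset.sum_congr rfl fun j _ => ?_
      rw [hM']
      rfl) i
    exact Subtype.ext h1
  obtain ⟨φ, hφ⟩ : ∃ φ : (ι → cl K S) →ₗ[cl K S] Ω, ∀ x, φ x = ∑ m, (x m : Ω) * c m := by
    refine ⟨{ toFun := fun x => ∑ m, (x m : Ω) * c m, map_add' := fun x y => ?_,
              map_smul' := fun t x => ?_ }, fun x => rfl⟩
    · rw [← Finset.sum_add_distrib]
      refine Finset.sum_congr rfl fun m _ => ?_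
      rw [Pi.add_apply]
      push_cast
      ring
    · rw [RingHom.id_apply, Finset.smul_sum]
      refine Finset.sum_congr rfl fun m _ => ?_
      rw [Pi.smul_apply, smul_eq_mul, Algebra.smul_def]
      push_cast
      rw [mul_assoc]
      rfl
  have hker : r ≤ Module.finrank (cl K S) (LinearMap.ker φ) := by
    have h1 := finrank_span_eq_card hMli
    rw [Fintype.card_fin] at h1
    rw [← h1]
    refine Submodule.finrank_mono ?_
    rw [Submodule.span_le]
    rintro _ ⟨i, rfl⟩
    rw [SetLike.mem_coe, LinearMap.mem_ker, hφ, ← h i]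
    refine Finset.sum_congr rfl fun m _ => ?_
    rw [hM']
  have hrn := LinearMap.finrank_range_add_finrank_ker φ
  rw [Module.finrank_fintype_fun_eq_card] at hrn
  obtain ⟨κ, a, ha, hsp, hli⟩ := exists_linearIndependent' (cl K S) c
  have hfin : Fintype κ := Fintype.ofInjective a ha
  have hcard : Fintype.card κ ≤ Module.finrank (cl K S) (LinearMap.range φ) := by
    rw [← finrank_span_eq_card hli, hsp]
    refine Submodule.finrank_mono ?_
    rw [Submodule.span_le]
    rintro _ ⟨m, rfl⟩
    rw [SetLike.mem_coe, LinearMap.mem_range]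
    refine ⟨Pi.single m 1, ?_⟩
    rw [hφ, Finset.sum_eq_single m]
    · rw [Pi.single_eq_same]
      change (1 : Ω) * c m = c m
      rw [one_mul]
    · intro b _ hb
      rw [Pi.single_eq_of_ne hb]
      change (0 : Ω) * c b = 0
      rw [zero_mul]
    · intro h
      exact absurd (Finset.mem_univ m) h
  have hle : cl K S ≤ cl K (S ∪ rg (c ∘ a)) := cl_mono K Finset.subset_union_left
  have hmem : ∀ x ∈ Submodule.span (cl K S) (Set.range (c ∘ a)), x ∈ cl K (S ∪ rg (c ∘ a)) := by
    intro x hx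
    induction hx using Submodule.span_induction with
    | mem x hx =>
      obtain ⟨k, rfl⟩ := hx
      exact subset_cl K _ _ (Finset.mem_union_right _
        (Finset.mem_image_of_mem _ (Finset.mem_univ k)))
    | zero => exact zero_mem _
    | add x y _ _ hx hy => exact add_mem hx hy
    | smul t x _ hx =>
      rw [Algebra.smul_def]
      exact mul_mem (hle t.2) hx
  have h1 : rk K (S ∪ rg c) ≤ rk K (S ∪ rg (c ∘ a)) := by
    refine rk_le_of_subset_cl K fun x hx => ?_
    rcases Finset.mem_union.1 hx with hx | hx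
    · exact subset_cl K _ _ (Finset.mem_union_left _ hx)
    · obtain ⟨m, _, rfl⟩ := Finset.mem_image.1 hx
      refine hmem _ ?_
      rw [hsp]
      exact Submodule.subset_span (Set.mem_range_self m)
  have h2 := rk_union_le_card K S (rg (c ∘ a))
  have h3 : (rg (c ∘ a)).card ≤ Fintype.card κ := Finset.card_image_le
  omega

theorem zero_le {c : Mon n d → Ω} (hc : c ≠ 0) {S : Finset Ω} (hS : rg c ⊆ S)
    {z : Fin (n + 1) → Ω} (h0 : eval z (fm c) = 0) : rk K (S ∪ rg z) ≤ rk K S + n := by
  by_contra hcon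
  have h1 := rk_union_le_card K S (rg z)
  have h2 : (rg z).card ≤ Fintype.card (Fin (n + 1)) := Finset.card_image_le
  have h3 : rk K (S ∪ rg z) = rk K S + Fintype.card (Fin (n + 1)) := by
    rw [Fintype.card_fin] at h2 ⊢
    omega
  refine eval_ne_zero_of_generic h3 (fm c) ?_ (fun m => ?_) h0
  · intro h4
    apply hc
    funext m
    rw [← coeff_fm c m, h4, coeff_zero]
    rfl
  · by_cases hm : m.degree = d
    · have h4 := coeff_fm c ⟨m, hm⟩
      rw [h4]
      exact subset_cl K _ _ (hS (Finset.mem_image_of_mem _ (Finset.mem_univ _)))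
    · rw [(fm_hom c).coeff_eq_zero hm]
      exact zero_mem _

private theorem eval_fm26 {W : Type*} [Field W] {n d : ℕ} (c : Mon n d → W) (z : Fin (n + 1) → W) :
    eval z (fm c) = ∑ m : Mon n d, (∏ i, z i ^ m.1 i) * c m := by
  unfold fm
  rw [map_sum]
  refine Finset.sum_congr rfl fun m _ => ?_
  rw [eval_monomial, Finsupp.prod_fintype _ _ (fun _ => pow_zero _), mul_comm]

private theorem evalp_fm26 {W : Type*} [Field W] {n d : ℕ} (c : Mon n d → W) (z : Fin (n + 1) → W)
    (j : Fin (n + 1)) : eval z (pderiv j (fm c)) =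
      ∑ m : Mon n d, ((m.1 j : W) * ∏ i, z i ^ ((m.1 - Finsupp.single j 1 : Fin (n + 1) →₀ ℕ) i)) * c m := by
  unfold fm
  rw [map_sum, map_sum]
  refine Finset.sum_congr rfl fun m _ => ?_
  rw [pderiv_monomial, eval_monomial, Finsupp.prod_fintype _ _ (fun _ => pow_zero _)]
  ring

omit [DecidableEq Ω] in
private theorem mem_prod26 (F : IntermediateField K Ω) {z : Fin (n + 1) → Ω} (hz : ∀ i, z i ∈ F)
    (m : Fin (n + 1) →₀ ℕ) : ∏ i, z i ^ m i ∈ F :=
  prod_mem fun i _ => pow_mem (hz i) _

private theorem single_prod26 {W : Type*} [CommRing W] {n : ℕ} (z : Fin (n + 1) → W) (i₀ : Fin (n + 1))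
    (k : ℕ) : ∏ i, z i ^ (Finsupp.single i₀ k i) = z i₀ ^ k := by
  rw [Finset.prod_eq_single i₀]
  · rw [Finsupp.single_eq_same]
  · intro b _ hb
    rw [Finsupp.single_eq_of_ne hb, pow_zero]
  · intro h
    exact absurd (Finset.mem_univ i₀) h

private theorem two_prod26 {W : Type*} [CommRing W] {n : ℕ} (z : Fin (n + 1) → W) (i₁ i₂ : Fin (n + 1))
    (k l : ℕ) : ∏ i, z i ^ ((Finsupp.single i₁ k + Finsupp.single i₂ l) i) = z i₁ ^ k * z i₂ ^ l := by
  have h1 : ∀ i, z i ^ ((Finsupp.single i₁ k + Finsupp.single i₂ l) i) =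
      z i ^ (Finsupp.single i₁ k i) * z i ^ (Finsupp.single i₂ l i) := by
    intro i
    rw [Finsupp.add_apply, pow_add]
  rw [Finset.prod_congr rfl fun i _ => h1 i, Finset.prod_mul_distrib, single_prod26, single_prod26]

theorem point_condition {c : Mon n d → Ω} {z : Fin (n + 1) → Ω} (hz : z ≠ 0)
    (h0 : eval z (fm c) = 0) :
    rk K (rg z ∪ rg c) + 1 ≤ rk K (rg z) + Fintype.card (Mon n d) := by
  obtain ⟨i₀, hi₀⟩ : ∃ i₀, z i₀ ≠ 0 := by
    by_contra hcon
    push Not at hcon
    exact hz (funext hcon)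
  refine lin_conditions (rg z) (fun (_ : Fin 1) (m : Mon n d) => ∏ i, z i ^ m.1 i) ?_ ?_ c ?_
  · rw [linearIndependent_unique_iff]
    intro h1
    have h2 := congrFun h1 ⟨Finsupp.single i₀ d, Finsupp.degree_single _ _⟩
    rw [Pi.zero_apply, single_prod26] at h2
    exact pow_ne_zero d hi₀ h2
  · intro _ m
    exact mem_prod26 _ (fun i => subset_cl K _ _ (Finset.mem_image_of_mem _ (Finset.mem_univ i))) m.1
  · intro _
    rw [← eval_fm26]
    exact h0

theorem sing_conditions (hd : 1 ≤ d) {c : Mon n d → Ω} {z : Fin (n + 1) → Ω} (hz : z ≠ 0)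
    (h0 : eval z (fm c) = 0) (hs : SingP c z) :
    rk K (rg z ∪ rg c) + (n + 1) ≤ rk K (rg z) + Fintype.card (Mon n d) := by
  obtain ⟨i₀, hi₀⟩ : ∃ i₀, z i₀ ≠ 0 := by
    by_contra hcon
    push Not at hcon
    exact hz (funext hcon)
  have hzF : ∀ i, z i ∈ cl K (rg z) := fun i =>
    subset_cl K _ _ (Finset.mem_image_of_mem _ (Finset.mem_univ i))
  refine lin_conditions (rg z) (fun (j : Fin (n + 1)) (m : Mon n d) =>
    if j = i₀ then ∏ i, z i ^ m.1 i else (m.1 j : Ω) * ∏ i, z i ^ ((m.1 - Finsupp.single j 1 : Fin (n + 1) →₀ ℕ) i)) ?_ ?_ c ?_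
  · rw [Fintype.linearIndependent_iff]
    intro g hg
    have h1 := congrFun hg ⟨Finsupp.single i₀ d, Finsupp.degree_single _ _⟩
    rw [Finset.sum_apply, Finset.sum_eq_single i₀] at h1
    · rw [Pi.smul_apply, if_pos rfl, single_prod26, Pi.zero_apply, smul_eq_mul] at h1
      have hg0 : g i₀ = 0 := (mul_eq_zero.1 h1).resolve_right (pow_ne_zero d hi₀)
      intro j
      by_cases hj : j = i₀
      · rw [hj, hg0]
      · have h2 := congrFun hg ⟨Finsupp.single i₀ (d - 1) + Finsupp.single j 1, by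
          rw [map_add, Finsupp.degree_single, Finsupp.degree_single]
          omega⟩
        rw [Finset.sum_apply, Finset.sum_eq_single j] at h2
        · rw [Pi.smul_apply, if_neg hj, Pi.zero_apply, smul_eq_mul] at h2
          have h3 : ((Finsupp.single i₀ (d - 1) + Finsupp.single j 1 : Fin (n + 1) →₀ ℕ) j : Ω) = 1 := by
            rw [Finsupp.add_apply, Finsupp.single_eq_of_ne hj, Finsupp.single_eq_same]
            simp
          have h4 : (Finsupp.single i₀ (d - 1) + Finsupp.single j 1 : Fin (n + 1) →₀ ℕ) -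
              Finsupp.single j 1 = Finsupp.single i₀ (d - 1) := add_tsub_cancel_right _ _
          simp only [h3, h4, single_prod26, one_mul] at h2
          exact (mul_eq_zero.1 h2).resolve_right (pow_ne_zero _ hi₀)
        · intro b _ hb
          rw [Pi.smul_apply, smul_eq_mul]
          by_cases hb0 : b = i₀
          · rw [hb0, hg0, zero_mul]
          · rw [if_neg hb0]
            have h3 : (Finsupp.single i₀ (d - 1) + Finsupp.single j 1 : Fin (n + 1) →₀ ℕ) b = 0 := by
              rw [Finsupp.add_apply, Finsupp.single_eq_of_ne hb0, Finsupp.single_eq_of_ne hb, add_zero]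
            simp only [h3, Nat.cast_zero, zero_mul, mul_zero]
        · intro h
          exact absurd (Finset.mem_univ j) h
    · intro b _ hb
      rw [Pi.smul_apply, smul_eq_mul, if_neg hb, Finsupp.single_eq_of_ne hb]
      simp
    · intro h
      exact absurd (Finset.mem_univ i₀) h
  · intro j m
    split_ifs
    · exact mem_prod26 _ hzF m.1
    · exact mul_mem (natCast_mem _ _) (mem_prod26 _ hzF _)
  · intro j
    by_cases hj : j = i₀
    · rw [hj]
      simp only [if_true]
      rw [← eval_fm26]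
      exact h0
    · simp only [if_neg hj]
      rw [← evalp_fm26]
      exact hs j

private theorem rank_conditions26 {ι κ : Type*} [Fintype ι] [Fintype κ] (S : Finset Ω)
    (A : Matrix κ ι Ω) (hS : ∀ k m, A k m ∈ cl K S) (c : ι → Ω) (h : ∀ k, ∑ m, A k m * c m = 0)
    {r : ℕ} (hr : r ≤ A.rank) : rk K (S ∪ rg c) + r ≤ rk K S + Fintype.card ι := by
  obtain ⟨κ', a, ha, hsp, hli⟩ := exists_linearIndependent' Ω A.row
  have hfin : Fintype κ' := Fintype.ofInjective a ha
  have hcard : Fintype.card κ' = A.rank := by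
    rw [← finrank_span_eq_card hli, hsp, Matrix.rank_eq_finrank_span_row]
  obtain ⟨f⟩ : Nonempty (Fin r ↪ κ') :=
    Function.Embedding.nonempty_of_card_le (by rw [Fintype.card_fin, hcard]; exact hr)
  exact lin_conditions S (fun i => (A.row ∘ a) (f i)) (hli.comp f f.injective) (fun i m => hS _ m) c
    fun i => h _

private theorem coeff_cv26 {W : Type*} [CommRing W] {n : ℕ} (a : ℕ → Fin (n + 1) → W) (e : ℕ)
    (i : Fin (n + 1)) {l : ℕ} (hl : l ≤ e) : (cv a e i).coeff l = a l i := by
  unfold cv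
  rw [Polynomial.finsetSum_coeff, Finset.sum_eq_single l]
  · rw [Polynomial.coeff_C_mul, Polynomial.coeff_X_pow, if_pos rfl, mul_one]
  · intro b _ hb
    rw [Polynomial.coeff_C_mul, Polynomial.coeff_X_pow, if_neg (Ne.symm hb), mul_zero]
  · intro h
    exact absurd (Finset.mem_range.2 (by omega)) h

private theorem cv_zero26 {W : Type*} [CommRing W] {n : ℕ} (a : ℕ → Fin (n + 1) → W) (e : ℕ)
    (i : Fin (n + 1)) {l : ℕ} (hl : e < l) : (cv a e i).coeff l = 0 := by
  unfold cv
  rw [Polynomial.finsetSum_coeff]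
  refine Finset.sum_eq_zero fun b hb => ?_
  rw [Finset.mem_range] at hb
  rw [Polynomial.coeff_C_mul, Polynomial.coeff_X_pow, if_neg (by omega), mul_zero]

/-- powers of two polynomials which are not proportional -/
private theorem pow_indep26 {W : Type*} [Field W] [IsAlgClosed W] {G₁ G₂ : Polynomial W} (h1 : G₁ ≠ 0)
    (h2 : ∀ s : W, G₂ ≠ Polynomial.C s * G₁) (d : ℕ) (g : Fin (d + 1) → W)
    (h : ∑ j : Fin (d + 1), Polynomial.C (g j) * (G₁ ^ (d - (j : ℕ)) * G₂ ^ (j : ℕ)) = 0) : ∀ j, g j = 0 := by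
  by_contra hcon
  push Not at hcon
  obtain ⟨j₀, hj₀⟩ := hcon
  obtain ⟨φ, hφ⟩ : ∃ φ : Polynomial W →+* FractionRing (Polynomial W),
      φ = algebraMap (Polynomial W) (FractionRing (Polynomial W)) := ⟨_, rfl⟩
  have hinj : Function.Injective φ := by
    rw [hφ]
    exact IsFractionRing.injective (Polynomial W) (FractionRing (Polynomial W))
  have hG1 : φ G₁ ≠ 0 := fun h0 => h1 (hinj (by rw [h0, map_zero]))
  obtain ⟨x, hx⟩ : ∃ x, x = φ G₂ / φ G₁ := ⟨_, rfl⟩
  have hG2 : φ G₂ = x * φ G₁ := by rw [hx, div_mul_cancel₀ _ hG1]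
  obtain ⟨p, hp⟩ : ∃ p : Polynomial W, p = ∑ j : Fin (d + 1), Polynomial.C (g j) * Polynomial.X ^ (j : ℕ) := ⟨_, rfl⟩
  have hp0 : p ≠ 0 := by
    intro h0
    apply hj₀
    have h3 : p.coeff (j₀ : ℕ) = g j₀ := by
      rw [hp, Polynomial.finsetSum_coeff, Finset.sum_eq_single j₀]
      · rw [Polynomial.coeff_C_mul, Polynomial.coeff_X_pow, if_pos rfl, mul_one]
      · intro b _ hb
        rw [Polynomial.coeff_C_mul, Polynomial.coeff_X_pow, if_neg (fun h4 => hb (Fin.ext h4.symm)), mul_zero]
      · intro h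
        exact absurd (Finset.mem_univ j₀) h
    rw [← h3, h0, Polynomial.coeff_zero]
  have hpx : Polynomial.aeval x p = 0 := by
    have h3 := congrArg φ h
    rw [map_zero, map_sum] at h3
    have h4 : ∀ j : Fin (d + 1), φ (Polynomial.C (g j) * (G₁ ^ (d - (j : ℕ)) * G₂ ^ (j : ℕ))) =
        (algebraMap W (FractionRing (Polynomial W)) (g j) * x ^ (j : ℕ)) * φ G₁ ^ d := by
      intro j
      have h5 : φ (Polynomial.C (g j)) = algebraMap W (FractionRing (Polynomial W)) (g j) := by
        rw [hφ, IsScalarTower.algebraMap_apply W (Polynomial W) (FractionRing (Polynomial W))]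
        rfl
      have h6 : φ G₁ ^ d = φ G₁ ^ (d - (j : ℕ)) * φ G₁ ^ (j : ℕ) := by
        rw [← pow_add]
        congr 1
        have := j.2
        omega
      rw [map_mul, map_mul, map_pow, map_pow, hG2, h5, h6]
      ring
    rw [Finset.sum_congr rfl fun j _ => h4 j, ← Finset.sum_mul] at h3
    have h5 := (mul_eq_zero.1 h3).resolve_right (pow_ne_zero d hG1)
    rw [hp, map_sum, ← h5]
    refine Finset.sum_congr rfl fun j _ => ?_
    rw [map_mul, map_pow, Polynomial.aeval_X, Polynomial.aeval_C]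
  have halg : IsAlgebraic W x := ⟨p, hp0, hpx⟩
  have hint := halg.isIntegral
  obtain ⟨s, hs⟩ := minpoly.mem_range_of_degree_eq_one W x
    (IsAlgClosed.degree_eq_one_of_irreducible W (minpoly.irreducible hint))
  apply h2 s
  apply hinj
  rw [hG2, map_mul, ← hs]
  congr 1
  rw [hφ, IsScalarTower.algebraMap_apply W (Polynomial W) (FractionRing (Polynomial W))]
  rfl

theorem curve_conditions [IsAlgClosed Ω] {c : Mon n d → Ω} {a : ℕ → Fin (n + 1) → Ω} {e : ℕ}
    (hV : Van c a e)
    (hna : ¬ ∃ v : Fin (n + 1) → Ω, ∀ l ≤ e, ∃ t : Ω, ∀ i, a l i = t * v i) :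
    rk K (rga a e ∪ rg c) + (d + 1) ≤ rk K (rga a e) + Fintype.card (Mon n d) := by
  classical
  obtain ⟨i₁, hi₁⟩ : ∃ i₁, cv a e i₁ ≠ 0 := by
    by_contra hcon
    push Not at hcon
    refine hna ⟨0, fun l hl => ⟨0, fun i => ?_⟩⟩
    rw [← coeff_cv26 a e i hl, hcon i, Polynomial.coeff_zero, zero_mul]
  obtain ⟨i₂, hi₂⟩ : ∃ i₂, ∀ s : Ω, cv a e i₂ ≠ Polynomial.C s * cv a e i₁ := by
    by_contra hcon
    push Not at hcon
    choose s hs using hcon
    refine hna ⟨s, fun l hl => ⟨a l i₁, fun i => ?_⟩⟩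
    rw [← coeff_cv26 a e i hl, hs i, Polynomial.coeff_C_mul, coeff_cv26 a e i₁ hl, mul_comm]
  have hne : i₁ ≠ i₂ := by
    rintro rfl
    apply hi₂ 1
    rw [Polynomial.C_1, one_mul]
  obtain ⟨P, hP⟩ : ∃ P : Mon n d → Polynomial Ω, P = fun m => ∏ i, cv a e i ^ m.1 i := ⟨_, rfl⟩
  obtain ⟨D, hD⟩ : ∃ D : ℕ, ∀ m, (P m).natDegree ≤ D :=
    ⟨Finset.univ.sup fun m => (P m).natDegree, fun m => Finset.le_sup (f := fun m => (P m).natDegree) (Finset.mem_univ m)⟩
  obtain ⟨A, hA⟩ : ∃ A : Matrix (Fin (D + 1)) (Mon n d) Ω, A = Matrix.of fun (k : Fin (D + 1)) m => (P m).coeff (k : ℕ) := ⟨_, rfl⟩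
  have haF : ∀ l ≤ e, ∀ i, a l i ∈ cl K (rga a e) := fun l hl i =>
    subset_cl K _ _ (Finset.mem_biUnion.2 ⟨l, Finset.mem_range.2 (by omega),
      Finset.mem_image_of_mem _ (Finset.mem_univ i)⟩)
  have hPF : ∀ m k, (P m).coeff k ∈ cl K (rga a e) := by
    intro m k
    have h1 : P m ∈ Polynomial.lifts (algebraMap (cl K (rga a e)) Ω) := by
      rw [hP]
      refine prod_mem fun i _ => pow_mem ?_ _
      rw [Polynomial.lifts_iff_coeff_lifts]
      intro l
      by_cases hl : l ≤ e
      · rw [coeff_cv26 a e i hl]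
        exact ⟨⟨a l i, haF l hl i⟩, rfl⟩
      · rw [cv_zero26 a e i (not_le.1 hl)]
        exact ⟨0, map_zero _⟩
    rw [Polynomial.lifts_iff_coeff_lifts] at h1
    obtain ⟨x, hx⟩ := h1 k
    rw [← hx]
    exact x.2
  have hsum : ∑ m, Polynomial.C (c m) * P m = 0 := by
    have h1 : aeval (cv a e) (fm c) = 0 := hV
    rw [← h1]
    unfold fm
    rw [map_sum, hP]
    refine Finset.sum_congr rfl fun m _ => ?_
    rw [aeval_monomial, Finsupp.prod_fintype _ _ (fun _ => pow_zero _)]
    rfl
  refine rank_conditions26 (rga a e) A (fun k m => ?_) c (fun k => ?_) ?_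
  · rw [hA]
    exact hPF m k
  · have h1 := congrArg (fun p => Polynomial.coeff p (k : ℕ)) hsum
    simp only [Polynomial.finsetSum_coeff, Polynomial.coeff_C_mul, Polynomial.coeff_zero] at h1
    rw [← h1, hA]
    refine Finset.sum_congr rfl fun m _ => ?_
    rw [Matrix.of_apply, mul_comm]
  · obtain ⟨mj, hmj⟩ : ∃ mj : Fin (d + 1) → Mon n d,
        mj = fun j => ⟨Finsupp.single i₁ (d - (j : ℕ)) + Finsupp.single i₂ (j : ℕ), by
          rw [map_add, Finsupp.degree_single, Finsupp.degree_single]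
          have := j.2
          omega⟩ := ⟨_, rfl⟩
    have hPj : ∀ j, P (mj j) = cv a e i₁ ^ (d - (j : ℕ)) * cv a e i₂ ^ (j : ℕ) := by
      intro j
      rw [hP, hmj]
      exact two_prod26 _ _ _ _ _
    have hli : LinearIndependent Ω fun j => A.col (mj j) := by
      rw [Fintype.linearIndependent_iff]
      intro g hg
      refine pow_indep26 hi₁ hi₂ d g ?_
      ext k
      rw [Polynomial.finsetSum_coeff, Polynomial.coeff_zero]
      by_cases hk : k < D + 1
      · have h1 := congrFun hg ⟨k, hk⟩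
        rw [Finset.sum_apply, Pi.zero_apply] at h1
        rw [← h1]
        refine Finset.sum_congr rfl fun j _ => ?_
        rw [Polynomial.coeff_C_mul, ← hPj, Pi.smul_apply, smul_eq_mul, hA]
        rfl
      · refine Finset.sum_eq_zero fun j _ => ?_
        rw [Polynomial.coeff_C_mul, ← hPj, Polynomial.coeff_eq_zero_of_natDegree_lt, mul_zero]
        have := hD (mj j)
        omega
    have h1 := finrank_span_eq_card hli
    rw [Fintype.card_fin] at h1
    rw [Matrix.rank_eq_finrank_span_cols, ← h1]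
    refine Submodule.finrank_mono (Submodule.span_mono ?_)
    rintro _ ⟨j, rfl⟩
    exact Set.mem_range_self _

end Pool.Agent.Helper30.RY
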