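import Mathlib
import Pool.Agent.Helper30.RC.Dim
import Pool.Agent.Helper30.RC.Defs
import Pool.Agent.Helper30.RY.Real
import Pool.Agent.Helper30.RY.Cur

/-!
# Block RY-DFI: Krull dimensions

`k` algebraically closed, `f = fm x` a form over `k`, `m + d = n + 1`.

* `dim_le`: an ideal `I` of `R = k[X_w, w ∈ W]` (`W` finite) such that every point `w ∈ Ω^W` at which all
  elements of `I` vanish satisfies `rk k (rg w) ≤ q` has `ringKrullDim (R ⧸ I) ≤ q`: for a prime `P ≥ I`,
  `exists_real` gives a point of `Ω^W` with ideal `P`, so `trdeg (R ⧸ P) ≤ q` (`rk_eq_trdeg`), and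
  `ringKrullDim (R ⧸ P) ≤ trdeg` (`Pool.Agent.Helper17.Irr.ringKrullDim_le_of_fg`, `RC/Dim.lean`); a
  chain of primes in `R ⧸ I` starting at `P / I` is a chain in `R ⧸ P`
  (`ringKrullDim_quotient`, `Order.krullDim`..., or `ringKrullDim_le_iff_height_le`-like; e.g.
  `ringKrullDim (R ⧸ I) = ⨆` over minimal primes).
* `dim_fibre`: `W = Fin (n+1) × Fin e`, the ideal `fibIdeal e z f` of the curves `F` of degree `≤ e` with
  `F(0) = z`.  `≤`: a zero `w ∈ Ω^W` is a curve `a` with `a 0 = z`, `a (l+1) i = w (i, l)`, so the hypothesis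
  `hQ` and `rk k (rg (a 0)) = 0` give `rk k (rg w) ≤ m e`.  `≥`: the ideal is proper (`w = 0` is a zero: the
  constant curve `z`), it is generated by the coefficients `j = 1, ..., d e` (the coefficient `j = 0` is
  `f(z) = 0`, those with `j > d e` vanish), so every minimal prime `P` satisfies
  `(n + 1) e ≤ ringKrullDim (R ⧸ P) + d e` (`le_dim_of_minimalPrimes`), and `(n + 1) e - d e = m e`.
* `dim_curve`: every minimal prime `P` of `curveIdeal e f` has `ringKrullDim (R ⧸ P) = m e + n`.  `≥`:
  `curveIdeal` is generated by `d e + 1` elements.  `≤`: let `a` be the point of `Ω` with ideal `P`; claim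
  `rk k (rga a e) ≤ m e + n`.  If `a 0 ≠ 0`, use `hQ` for `e` and `rk k (rg (a 0)) ≤ n` (`f(a 0) = 0`, `f ≠ 0` a
  polynomial over `k`: the `n + 1` coordinates are algebraically dependent).  Otherwise let `j` be
  minimal with `a j ≠ 0` (if all vanish the rank is `0`); then `vanp_shift` and `hQ` for `e - j` give
  `rk ≤ m (e - j) + n`.
-/

namespace Pool.Agent.Helper30.RY

open MvPolynomial Pool.Agent.Helper30.RC

/-- the universal curve `z + ∑_{l < e} X_{(i,l)} T^{l+1}` -/
noncomputable def ftup {k : Type*} [Field k] {n : ℕ} (e : ℕ) (z : Fin (n + 1) → k)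
    (i : Fin (n + 1)) : Polynomial (MvPolynomial (Fin (n + 1) × Fin e) k) :=
  Polynomial.C (C (z i)) + ∑ l : Fin e, Polynomial.C (X (i, l)) * Polynomial.X ^ ((l : ℕ) + 1)

/-- The ideal of the space of `(n+1)`-tuples `F` of polynomials of degree at most `e` with `F(0) = z`
and `f(F) = 0`. -/
noncomputable def fibIdeal {k : Type*} [Field k] {n : ℕ} (e : ℕ) (z : Fin (n + 1) → k)
    (f : MvPolynomial (Fin (n + 1)) k) : Ideal (MvPolynomial (Fin (n + 1) × Fin e) k) :=
  Ideal.span (Set.range fun j : ℕ => (aeval (ftup e z) f).coeff j)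

section Aux26

/-- Specialisation of the coefficients. -/
private theorem spec26 {k S Ω : Type*} [Field k] [CommRing S] [Algebra k S] [CommRing Ω]
    [Algebra k Ω] (φ : S →+* Ω) (hφ : φ.comp (algebraMap k S) = algebraMap k Ω) {n : ℕ}
    (g : Fin (n + 1) → Polynomial S) (f : MvPolynomial (Fin (n + 1)) k) :
    aeval (fun i => (g i).map φ) (map (algebraMap k Ω) f) = (aeval g f).map φ := by
  have h1 : (fun i => (g i).map φ) = fun i => Polynomial.mapRingHom φ (g i) := by
    funext i
    rfl
  rw [h1, aeval_def, eval₂_map, ← Polynomial.coe_mapRingHom, aeval_def, hom_eval₂]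
  congr 1
  rw [← hφ]
  ext x
  simp

private theorem degaev26 {k S : Type*} [Field k] [CommRing S] [Algebra k S] {n q e : ℕ}
    {f : MvPolynomial (Fin (n + 1)) k} (hf : f.IsHomogeneous q) (g : Fin (n + 1) → Polynomial S)
    (hg : ∀ i, (g i).natDegree ≤ e) : (aeval g f).natDegree ≤ q * e := by
  rw [aeval_def, eval₂_eq']
  refine Polynomial.natDegree_sum_le_of_forall_le _ _ fun m hm => ?_
  have h3 : m.degree = q := by
    by_contra hcon
    exact (mem_support_iff.mp hm) (hf.coeff_eq_zero hcon)
  change (Polynomial.C (algebraMap k S (coeff m f)) * _).natDegree ≤ _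
  refine (Polynomial.natDegree_C_mul_le _ _).trans ((Polynomial.natDegree_prod_le _ _).trans ?_)
  rw [← h3, Finsupp.degree_eq_sum, Finset.sum_mul]
  refine Finset.sum_le_sum fun i _ => ?_
  exact Polynomial.natDegree_pow_le.trans (Nat.mul_le_mul_left _ (hg i))

private theorem span26 {R : Type*} [CommRing R] (G : Polynomial R) (N : ℕ)
    (h : G.natDegree ≤ N) : Ideal.span (Set.range fun j : ℕ => G.coeff j) =
    Ideal.span (Set.range fun j : Fin (N + 1) => G.coeff j) := by
  refine le_antisymm ?_ ?_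
  · rw [Ideal.span_le]
    rintro _ ⟨j, rfl⟩
    by_cases hj : j < N + 1
    · exact Ideal.subset_span ⟨⟨j, hj⟩, rfl⟩
    · have h1 : G.coeff j = 0 := Polynomial.coeff_eq_zero_of_natDegree_lt (by omega)
      change G.coeff j ∈ _
      rw [h1]
      exact Ideal.zero_mem _
  · rw [Ideal.span_le]
    rintro _ ⟨j, rfl⟩
    exact Ideal.subset_span ⟨(j : ℕ), rfl⟩

private theorem span26' {R : Type*} [CommRing R] (G : Polynomial R) (N : ℕ)
    (h : G.natDegree ≤ N) (h0 : G.coeff 0 = 0) :
    Ideal.span (Set.range fun j : ℕ => G.coeff j) =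
    Ideal.span (Set.range fun j : Fin N => G.coeff (j + 1)) := by
  refine le_antisymm ?_ ?_
  · rw [Ideal.span_le]
    rintro _ ⟨j, rfl⟩
    change G.coeff j ∈ _
    rcases Nat.eq_zero_or_pos j with hj0 | hj0
    · rw [hj0, h0]
      exact Ideal.zero_mem _
    by_cases hj : j - 1 < N
    · refine Ideal.subset_span ⟨⟨j - 1, hj⟩, ?_⟩
      change G.coeff (j - 1 + 1) = G.coeff j
      rw [Nat.sub_add_cancel hj0]
    · have h1 : G.coeff j = 0 := Polynomial.coeff_eq_zero_of_natDegree_lt (by omega)
      rw [h1]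
      exact Ideal.zero_mem _
  · rw [Ideal.span_le]
    rintro _ ⟨j, rfl⟩
    exact Ideal.subset_span ⟨(j : ℕ) + 1, rfl⟩

private theorem arith26 {D : WithBot ℕ∞} {A B C : ℕ} (h0 : 0 ≤ D) (h1 : D ≤ (A : ℕ))
    (h2 : ((B : ℕ) : WithBot ℕ∞) ≤ D + (C : ℕ)) (h3 : B = A + C) : D = (A : ℕ) := by
  refine le_antisymm h1 ?_
  induction D with
  | bot => simp at h0
  | coe D =>
    have h6 : ((B : ℕ) : ℕ∞) ≤ D + (C : ℕ) := by exact_mod_cast h2
    have h7 : D ≤ (A : ℕ) := by exact_mod_cast h1
    obtain ⟨D', rfl⟩ := ENat.ne_top_iff_exists.mp (ne_top_of_le_ne_top (ENat.natCast_ne_top _) h7)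
    have h8 : B ≤ D' + C := by exact_mod_cast h6
    have h9 : A ≤ D' := by omega
    exact_mod_cast h9

end Aux26

variable {k : Type} [Field k] [IsAlgClosed k] {Ω : Type} [Field Ω] [Algebra k Ω] [IsAlgClosed Ω]
  [DecidableEq Ω] {n d m : ℕ}

theorem dim_le (hb : Big k Ω) {W : Type} [Fintype W] (I : Ideal (MvPolynomial W k)) (q : ℕ)
    (h : ∀ w : W → Ω, (∀ p ∈ I, aeval w p = 0) → rk k (rg w) ≤ q) :
    ringKrullDim (MvPolynomial W k ⧸ I) ≤ q := by
  classical
  rw [ringKrullDim_quotient]
  refine iSup_le fun p => ?_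
  -- the first prime of the chain
  set P : Ideal (MvPolynomial W k) := (p 0).1.asIdeal with hP
  have hPp : P.IsPrime := (p 0).1.2
  have hIP : I ≤ P := (p 0).2
  -- the dimension of the quotient by it
  have hdim : ringKrullDim (MvPolynomial W k ⧸ P) ≤ q := by
    obtain ⟨φ, hφ⟩ := exists_real (K := k) (Ω := Ω) hb (MvPolynomial W k) P
    have h1 : rk k (rg fun j => φ (X j)) ≤ q := by
      refine h _ fun r hr => ?_
      have h2 : φ = aeval fun j => φ (X j) := MvPolynomial.aeval_unique φ
      rw [← h2]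
      exact (hφ r).2 (hIP hr)
    let ψ : (MvPolynomial W k ⧸ P) →ₐ[k] Ω := Ideal.Quotient.liftₐ P φ fun a ha => (hφ a).2 ha
    have hψm : ∀ a, ψ (Ideal.Quotient.mk P a) = φ a := fun a => rfl
    have hψ : Function.Injective ψ := by
      rw [injective_iff_map_eq_zero]
      intro a ha
      obtain ⟨a, rfl⟩ := Ideal.Quotient.mk_surjective a
      rw [hψm, hφ] at ha
      exact Ideal.Quotient.eq_zero_iff_mem.2 ha
    have h3 := rk_eq_trdeg ψ hψ (fun j : W => Ideal.Quotient.mk P (X j)) (by
      have h4 : Set.range (fun j : W => Ideal.Quotient.mk P (X j)) =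
          (Ideal.Quotient.mkₐ k P) '' Set.range (X : W → MvPolynomial W k) := by
        rw [← Set.range_comp]
        rfl
      rw [h4, ← AlgHom.map_adjoin, MvPolynomial.adjoin_range_X, Algebra.map_top,
        AlgHom.range_eq_top]
      exact Ideal.Quotient.mkₐ_surjective k P)
    obtain ⟨s, h5, h6⟩ := Pool.Agent.Helper17.Irr.ringKrullDim_le_of_fg k (MvPolynomial W k ⧸ P)
    rw [Cardinal.lift_id] at h3
    rw [h3] at h6
    have h7 : s ≤ rk k (rg fun j => φ (X j)) := by exact_mod_cast h6
    refine h5.trans ?_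
    exact_mod_cast h7.trans h1
  rw [ringKrullDim_quotient] at hdim
  refine le_trans ?_ hdim
  let p' : LTSeries (PrimeSpectrum.zeroLocus (P : Set (MvPolynomial W k))) :=
    { length := p.length
      toFun := fun i => ⟨(p i).1, by
        have h1 : p 0 ≤ p i := p.monotone (Fin.zero_le i)
        exact h1⟩
      step := fun i => p.step i }
  exact le_iSup (fun q : LTSeries (PrimeSpectrum.zeroLocus (P : Set (MvPolynomial W k))) =>
    ((q.length : ℕ∞) : WithBot ℕ∞)) p'

theorem dim_fibre (hb : Big k Ω) (hm : m + d = n + 1) (x : Mon n d → k) (e : ℕ)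
    (hQ : ∀ a : ℕ → Fin (n + 1) → Ω, a 0 ≠ 0 → Van (fun m => algebraMap k Ω (x m)) a e →
        rk k (rga a e) ≤ rk k (rg (a 0)) + m * e)
    (z : Fin (n + 1) → k) (hz : z ≠ 0) (h0 : eval z (fm x) = 0) :
    ringKrullDim (MvPolynomial (Fin (n + 1) × Fin e) k ⧸ fibIdeal e z (fm x)) = (m * e : ℕ) := by
  classical
  have hf : (fm x).IsHomogeneous d := fm_hom x
  have hdeg : ∀ i, (ftup e z i).natDegree ≤ e := by
    intro i
    unfold ftup
    refine (Polynomial.natDegree_add_le _ _).trans (max_le ?_ ?_)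
    · rw [Polynomial.natDegree_C]
      exact Nat.zero_le e
    · refine Polynomial.natDegree_sum_le_of_forall_le _ _ fun l _ => ?_
      refine (Polynomial.natDegree_C_mul_X_pow_le _ _).trans ?_
      have := l.2
      omega
  -- the curves given by the zeros
  have hup : ringKrullDim (MvPolynomial (Fin (n + 1) × Fin e) k ⧸ fibIdeal e z (fm x)) ≤
      (m * e : ℕ) := by
    refine dim_le hb _ _ fun w hw => ?_
    let a : ℕ → Fin (n + 1) → Ω := fun l i =>
      match l with
      | 0 => algebraMap k Ω (z i)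
      | l + 1 => if h : l < e then w (i, ⟨l, h⟩) else 0
    have ha0 : ∀ i, a 0 i = algebraMap k Ω (z i) := fun i => rfl
    have has : ∀ l (h : l < e) i, a (l + 1) i = w (i, ⟨l, h⟩) := by
      intro l h i
      change (if h : l < e then w (i, ⟨l, h⟩) else 0) = _
      rw [dif_pos h]
    have hcv : cv a e = fun i => (ftup e z i).map (aeval w : MvPolynomial _ k →ₐ[k] Ω).toRingHom := by
      funext i
      unfold cv ftup
      rw [Finset.sum_range_succ', Polynomial.map_add, Polynomial.map_sum, add_comm]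
      congr 1
      · rw [pow_zero, mul_one, ha0, Polynomial.map_C]
        congr 1
        change _ = aeval w (C (z i))
        rw [aeval_C]
      · rw [← Fin.sum_univ_eq_sum_range (fun l => Polynomial.C (a (l + 1) i) *
          Polynomial.X ^ (l + 1)) e]
        refine Finset.sum_congr rfl fun l _ => ?_
        rw [Polynomial.map_mul, Polynomial.map_C, Polynomial.map_pow, Polynomial.map_X, has l l.2 i]
        congr 2
        change _ = aeval w (X (i, l))
        rw [aeval_X]
    have hvan : Van (fun m => algebraMap k Ω (x m)) a e := by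
      unfold Van Vanp
      rw [← map_fm, hcv, spec26]
      · ext j
        rw [Polynomial.coeff_map, Polynomial.coeff_zero]
        exact hw _ (Ideal.subset_span ⟨j, rfl⟩)
      · exact (aeval w : MvPolynomial _ k →ₐ[k] Ω).comp_algebraMap
    have ha00 : a 0 ≠ 0 := by
      obtain ⟨i, hi⟩ := Function.ne_iff.1 hz
      intro h
      have h1 := congrFun h i
      rw [ha0] at h1
      exact hi ((map_eq_zero (algebraMap k Ω)).1 h1)
    have h1 := hQ a ha00 hvan
    have h2 : rk k (rg (a 0)) = 0 := by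
      have h3 : rk k (rg (a 0)) ≤ rk k (∅ : Finset Ω) := by
        refine rk_le_of_subset_cl k fun y hy => ?_
        obtain ⟨i, -, rfl⟩ := Finset.mem_image.1 hy
        rw [ha0]
        exact (cl k (∅ : Finset Ω)).algebraMap_mem _
      rw [rk_empty] at h3
      omega
    rw [h2, zero_add] at h1
    refine le_trans (rk_mono k ?_) h1
    intro y hy
    obtain ⟨⟨i, l⟩, -, rfl⟩ := Finset.mem_image.1 hy
    rw [← has l l.2 i]
    refine Finset.mem_biUnion.2 ⟨(l : ℕ) + 1, ?_, Finset.mem_image_of_mem _ (Finset.mem_univ i)⟩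
    have := l.2
    rw [Finset.mem_range]
    omega
  -- the constant coefficient
  have hc0 : (aeval (ftup e z) (fm x)).coeff 0 = 0 := by
    rw [Polynomial.coeff_zero_eq_eval_zero, ← Polynomial.coe_evalRingHom, aeval_def, hom_eval₂]
    have h1 : (fun i => (Polynomial.evalRingHom (0 : MvPolynomial (Fin (n + 1) × Fin e) k))
        (ftup e z i)) = fun i => C (z i) := by
      funext i
      unfold ftup
      rw [Polynomial.coe_evalRingHom, Polynomial.eval_add, Polynomial.eval_C,
        Polynomial.eval_finsetSum, Finset.sum_eq_zero, add_zero]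
      intro l _
      simp
    have h2 : ((Polynomial.evalRingHom (0 : MvPolynomial (Fin (n + 1) × Fin e) k)).comp
        (algebraMap k (Polynomial (MvPolynomial (Fin (n + 1) × Fin e) k)))) =
        (C : k →+* MvPolynomial (Fin (n + 1) × Fin e) k) := by
      refine RingHom.ext fun r => ?_
      simp [Polynomial.algebraMap_apply]
    have h3 := hom_eval₂ (fm x) (RingHom.id k) (C : k →+* MvPolynomial (Fin (n + 1) × Fin e) k) z
    rw [RingHom.comp_id] at h3
    have h4 : (fun i => (Polynomial.evalRingHom (0 : MvPolynomial (Fin (n + 1) × Fin e) k))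
        (ftup e z i)) = ⇑(C : k →+* MvPolynomial (Fin (n + 1) × Fin e) k) ∘ z := h1
    rw [h2]
    rw [h1]
    have h5 : eval₂ (RingHom.id k) z (fm x) = 0 := h0
    rw [h5, map_zero] at h3
    exact h3.symm
  have hspan := span26' (aeval (ftup e z) (fm x)) (d * e) (degaev26 hf _ hdeg) hc0
  -- the ideal is proper
  have hne : fibIdeal e z (fm x) ≠ ⊤ := by
    have h1 : fibIdeal e z (fm x) ≤ RingHom.ker (eval (0 : Fin (n + 1) × Fin e → k)) := by
      unfold fibIdeal
      rw [Ideal.span_le]
      rintro _ ⟨j, rfl⟩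
      rw [SetLike.mem_coe, RingHom.mem_ker]
      have h2 := spec26 (eval (0 : Fin (n + 1) × Fin e → k)) (by
        ext r
        simp) (ftup e z) (fm x)
      have h3 : (fun i => (ftup e z i).map (eval (0 : Fin (n + 1) × Fin e → k))) =
          fun i => (Polynomial.C (z i)) := by
        funext i
        unfold ftup
        rw [Polynomial.map_add, Polynomial.map_C, eval_C, Polynomial.map_sum,
          Finset.sum_eq_zero, add_zero]
        intro l _
        simp
      rw [h3, Algebra.algebraMap_self, MvPolynomial.map_id] at h2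
      have h4 : aeval (fun i => Polynomial.C (z i)) (fm x) = Polynomial.C (eval z (fm x)) := by
        rw [aeval_def]
        exact (hom_eval₂ (fm x) (RingHom.id k) (Polynomial.C : k →+* Polynomial k) z).symm
      rw [h4, h0, Polynomial.C_0] at h2
      have h5 := congrArg (fun G : Polynomial k => G.coeff j) h2
      simp only [Polynomial.coeff_zero, Polynomial.coeff_map] at h5
      exact h5.symm
    intro h2
    rw [h2, top_le_iff] at h1
    exact RingHom.ker_ne_top _ h1
  obtain ⟨P, hP, hPI⟩ : ∃ P ∈ (fibIdeal e z (fm x)).minimalPrimes, fibIdeal e z (fm x) ≤ P := by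
    obtain ⟨M, hM, hle⟩ := Ideal.exists_le_maximal _ hne
    have := hM.isPrime
    obtain ⟨P, hP, -⟩ := Ideal.exists_minimalPrimes_le hle
    exact ⟨P, hP, hP.1.2⟩
  have hP' : P ∈ (Ideal.span (Set.range fun j : Fin (d * e) =>
      (aeval (ftup e z) (fm x)).coeff (j + 1))).minimalPrimes := by
    rw [← hspan]
    exact hP
  have h1 := le_dim_of_minimalPrimes _ P hP'
  rw [Fintype.card_fin] at h1
  have h2 : ringKrullDim (MvPolynomial (Fin (n + 1) × Fin e) k ⧸ P) ≤
      ringKrullDim (MvPolynomial (Fin (n + 1) × Fin e) k ⧸ fibIdeal e z (fm x)) :=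
    ringKrullDim_le_of_surjective (Ideal.Quotient.factor hPI) (Ideal.Quotient.factor_surjective hPI)
  have h3 : Nat.card (Fin (n + 1) × Fin e) = (n + 1) * e := by simp
  rw [h3] at h1
  have : Nontrivial (MvPolynomial (Fin (n + 1) × Fin e) k ⧸ fibIdeal e z (fm x)) :=
    Ideal.Quotient.nontrivial_iff.mpr hne
  refine arith26 (B := (n + 1) * e) (C := d * e) ringKrullDim_nonneg_of_nontrivial hup
    (h1.trans (add_le_add_left h2 _)) ?_
  rw [← hm, add_mul]

omit [IsAlgClosed k] [IsAlgClosed Ω] in
private theorem rkcurve26 (x : Mon n d → k)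
    (hpt : ∀ v : Fin (n + 1) → Ω, eval v (fm fun m => algebraMap k Ω (x m)) = 0 →
      rk k (rg v) ≤ n) (e : ℕ)
    (hQ : ∀ e' ≤ e, ∀ a : ℕ → Fin (n + 1) → Ω, a 0 ≠ 0 →
      Van (fun m => algebraMap k Ω (x m)) a e' → rk k (rga a e') ≤ rk k (rg (a 0)) + m * e')
    (a : ℕ → Fin (n + 1) → Ω) (hvan : Van (fun m => algebraMap k Ω (x m)) a e) (s : Finset Ω)
    (hs : ∀ y ∈ s, ∃ l ≤ e, ∃ i, y = a l i) : rk k s ≤ m * e + n := by
  classical
  by_cases hall : ∀ l ≤ e, a l = 0
  · have h3 : rk k s ≤ rk k (∅ : Finset Ω) := by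
      refine rk_le_of_subset_cl k fun y hy => ?_
      obtain ⟨l, hl, i, rfl⟩ := hs y hy
      rw [hall l hl]
      exact zero_mem _
    rw [rk_empty] at h3
    omega
  · push Not at hall
    obtain ⟨j, ⟨hje, hj⟩, hmin⟩ : ∃ j, (j ≤ e ∧ a j ≠ 0) ∧ ∀ l < j, ¬ (l ≤ e ∧ a l ≠ 0) :=
      ⟨Nat.find hall, Nat.find_spec hall, fun l hl => Nat.find_min hall hl⟩
    have hz0 : ∀ l < j, ∀ i, a l i = 0 := by
      intro l hl i
      have h1 := hmin l hl
      push Not at h1
      rw [h1 (by omega)]
      rfl
    have h1 := vanp_shift (fm_hom _) hje hz0 hvan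
    obtain ⟨b, hbdef⟩ : ∃ b : ℕ → Fin (n + 1) → Ω, b = fun l => a (l + j) := ⟨_, rfl⟩
    rw [← hbdef] at h1
    have hb0 : b 0 = a j := by rw [hbdef]; simp
    have h2 := hQ (e - j) (by omega) b (by rw [hb0]; exact hj) h1
    have h3 : rk k (rg (b 0)) ≤ n := hpt _ (eval_zero_of_vanp h1)
    have h4 : rk k s ≤ rk k (rga b (e - j)) := by
      refine rk_le_of_subset_cl k fun y hy => ?_
      obtain ⟨l, hl, i, rfl⟩ := hs y hy
      rcases Nat.lt_or_ge l j with h5 | h5
      · rw [hz0 _ h5]
        exact zero_mem _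
      · refine subset_cl k _ _ (Finset.mem_biUnion.2 ⟨l - j, ?_, ?_⟩)
        · rw [Finset.mem_range]
          omega
        · have h6 : a l i = b (l - j) i := by
            rw [hbdef]
            change a l i = a (l - j + j) i
            rw [Nat.sub_add_cancel h5]
          rw [h6]
          exact Finset.mem_image_of_mem _ (Finset.mem_univ i)
    have h5 : m * (e - j) ≤ m * e := Nat.mul_le_mul_left m (Nat.sub_le e j)
    omega

theorem dim_curve (hb : Big k Ω) (hm : m + d = n + 1) (x : Mon n d → k) (hx : x ≠ 0) (e : ℕ)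
    (hQ : ∀ e' ≤ e, ∀ a : ℕ → Fin (n + 1) → Ω, a 0 ≠ 0 →
      Van (fun m => algebraMap k Ω (x m)) a e' → rk k (rga a e') ≤ rk k (rg (a 0)) + m * e')
    (P : Ideal (CoeffRing k n e)) (hP : P ∈ (curveIdeal e (fm x)).minimalPrimes) :
    ringKrullDim (CoeffRing k n e ⧸ P) = (m * e + n : ℕ) := by
  classical
  have hf : (fm x).IsHomogeneous d := fm_hom x
  have hPp : P.IsPrime := hP.1.1
  have hIP : curveIdeal e (fm x) ≤ P := hP.1.2
  have hdeg : ∀ i, (tup k n e i).natDegree ≤ e := by
    intro i
    unfold tup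
    refine Polynomial.natDegree_sum_le_of_forall_le _ _ fun l _ => ?_
    refine (Polynomial.natDegree_C_mul_X_pow_le _ _).trans ?_
    have := l.2
    omega
  have hspan := span26 (aeval (tup k n e) (fm x)) (d * e) (degaev26 hf _ hdeg)
  have hfm : map (algebraMap k Ω) (fm x) ≠ 0 := by
    intro h
    have h1 : fm x = 0 := (MvPolynomial.map_injective _ (algebraMap k Ω).injective) (by
      rw [h, map_zero])
    apply hx
    funext m
    rw [← coeff_fm x m, h1, coeff_zero]
    rfl
  -- the rank of a point of the hypersurface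
  have hpt : ∀ v : Fin (n + 1) → Ω, eval v (fm fun m => algebraMap k Ω (x m)) = 0 →
      rk k (rg v) ≤ n := by
    intro v hv
    by_contra hcon
    have h1 : rk k (rg v) ≤ n + 1 := by
      refine (rk_le_card k (rg v)).trans ?_
      refine Finset.card_image_le.trans ?_
      rw [Finset.card_univ, Fintype.card_fin]
    have h2 : rk k (∅ ∪ rg v) = rk k (∅ : Finset Ω) + Fintype.card (Fin (n + 1)) := by
      rw [Finset.empty_union, rk_empty, Fintype.card_fin]
      omega
    refine eval_ne_zero_of_generic h2 _ hfm (fun m => ?_) ?_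
    · rw [coeff_map]
      exact (cl k (∅ : Finset Ω)).algebraMap_mem _
    · rw [map_fm]
      exact hv
  have hup : ringKrullDim (CoeffRing k n e ⧸ P) ≤ (m * e + n : ℕ) := by
    refine dim_le hb _ _ fun w hw => ?_
    let a : ℕ → Fin (n + 1) → Ω := fun l i => if h : l < e + 1 then w (i, ⟨l, h⟩) else 0
    have has : ∀ l (h : l < e + 1) i, a l i = w (i, ⟨l, h⟩) := by
      intro l h i
      change (if h : l < e + 1 then w (i, ⟨l, h⟩) else 0) = _
      rw [dif_pos h]
    have hcv : cv a e = fun i => (tup k n e i).map (aeval w : MvPolynomial _ k →ₐ[k] Ω).toRingHom := by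
      funext i
      unfold cv tup
      rw [Polynomial.map_sum, ← Fin.sum_univ_eq_sum_range (fun l => Polynomial.C (a l i) *
          Polynomial.X ^ l) (e + 1)]
      refine Finset.sum_congr rfl fun l _ => ?_
      rw [Polynomial.map_mul, Polynomial.map_C, Polynomial.map_pow, Polynomial.map_X, has l l.2 i]
      congr 2
      change _ = aeval w (X (i, l))
      rw [aeval_X]
    have hvan : Van (fun m => algebraMap k Ω (x m)) a e := by
      unfold Van Vanp
      rw [← map_fm, hcv, spec26]
      · ext j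
        rw [Polynomial.coeff_map, Polynomial.coeff_zero]
        exact hw _ (hIP (Ideal.subset_span ⟨j, rfl⟩))
      · exact (aeval w : MvPolynomial _ k →ₐ[k] Ω).comp_algebraMap
    refine rkcurve26 x hpt e hQ a hvan _ fun y hy => ?_
    obtain ⟨⟨i, l⟩, -, rfl⟩ := Finset.mem_image.1 hy
    exact ⟨l, by have := l.2; omega, i, (has l l.2 i).symm⟩
  have hP' : P ∈ (Ideal.span (Set.range fun j : Fin (d * e + 1) =>
      (aeval (tup k n e) (fm x)).coeff j)).minimalPrimes := by
    rw [← hspan]
    exact hP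
  have h1 := le_dim_of_minimalPrimes _ P hP'
  rw [Fintype.card_fin] at h1
  have h3 : Nat.card (Fin (n + 1) × Fin (e + 1)) = (n + 1) * (e + 1) := by simp
  rw [h3] at h1
  have : Nontrivial (CoeffRing k n e ⧸ P) := Ideal.Quotient.nontrivial_iff.mpr hPp.ne_top
  refine arith26 (B := (n + 1) * (e + 1)) (C := d * e + 1) ringKrullDim_nonneg_of_nontrivial hup
    h1 ?_
  have h4 : (n + 1) * e = m * e + d * e := by rw [← hm, add_mul]
  rw [mul_add, h4]
  omega

end Pool.Agent.Helper30.RY
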