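import Mathlib
import Pool.Agent.Helper30.RY.Act
import Pool.Agent.Helper30.RY.Spc

/-!
# Block RY-NLB: the closed set of forms which are not layered

`NL K m e c`: `c` is a specialisation of some `c₀` which is not `e`-layered.

* `nl_of_not_lay`, `nl_spc`: trivial.
* `nl_bound`: `Spc.rk_le`.
* `nl_act`: if `act h c` is in `NL` for an invertible `h` (`h * h' = 1`) then so is `c`.  Let `c₀ ⟶ act h c`
  with `c₀` not layered: there are `e' ≤ e` and `a` with `a 0 ≠ 0`, `Van c₀ a e'` and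
  `rk (rg c₀ ∪ rg (a 0)) + m e' + rho c₀ a e' < rk (rg c₀ ∪ rga a e')`.  Choose a matrix `g` whose entries
  are generic over `rg c₀ ∪ rga a e'` (`exists_generic`).  `det g ≠ 0`
  (`eval_ne_zero_of_generic` for the determinant of the generic matrix).
  Then `(c₀, g) ⟶ (act h c, h')` (`Spc.elim_generic`), so `act g c₀ ⟶ act h' (act h c) = c`
  (`spc_act`, `act_act`, `act_one`).  And `act g c₀` is not layered: let `a' l = g⁻¹ (a l)`.
  `Van (act g c₀) a' e'`, `rho` is the same (`rho_act`), `a' 0 ≠ 0`.  With `G` the set of entries of `g`,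
  `C₁ = rg (act g c₀)`, `A₁ = rga a' e'`, `Z₁ = rg (a' 0)`:
  `rk (C₁ ∪ Z₁ ∪ A₁) - rk (C₁ ∪ Z₁) ≥ rk (C₁ ∪ Z₁ ∪ A₁ ∪ G) - rk (C₁ ∪ Z₁ ∪ G)` (`rk_submod`), and with
  `C = rg c₀`, `A = rga a e'`, `Z = rg (a 0)` we have `rk (C₁ ∪ Z₁ ∪ A₁ ∪ G) = rk (C ∪ A ∪ G) =
  rk (C ∪ A) + card G`, `rk (C₁ ∪ Z₁ ∪ G) = rk (C ∪ Z ∪ G) = rk (C ∪ Z) + card G` (mutual membership in
  `cl`: the entries of `g⁻¹` are in `cl K G`, `c₀ = act g⁻¹ (act g c₀)`; `rk_union_congr`,
  `generic_of_subset_cl`).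
* `nl_smul`: scaling is the action of a scalar matrix (`act_smul`, `Ω` algebraically closed).
* `nl_point`: let `c ≠ 0` be in `NL` with `coeff of X_0^d` zero.  Choose a generic matrix `g` over
  `rg c`; `c₁ = act g c` is in `NL` (`nl_act` with the inverse matrix), so `rk (rg c₁) + κ ≤ card`
  (`nl_bound`).  `c₁ ⟶ act 1 c = c`, so `rk (rg c) ≤ rk (rg c₁)`; if equality holds then `c ⟶ c₁`
  (`Spc.symm_of_rk`), so the coefficient of `X_0^d` in `fm c₁` vanishes, that is
  `0 = eval e₀ (fm c₁) = eval (g e₀) (fm c)`; but `g e₀` is a generic vector over `rg c` and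
  `fm c ≠ 0`, contradiction (`eval_ne_zero_of_generic`).
-/

namespace Pool.Agent.Helper30.RY

open MvPolynomial

/-- the exponent of `X_0^d` -/
noncomputable def m0 (n d : ℕ) : Mon n d := ⟨Finsupp.single 0 d, Finsupp.degree_single 0 d⟩

variable {K : Type*} [Field K] {Ω : Type*} [Field Ω] [Algebra K Ω] [DecidableEq Ω] {n d m e : ℕ}

private lemma det_ne_50 {N : ℕ} {s : Finset Ω} {t : Fin N × Fin N → Ω}
    (ht : rk K (s ∪ rg t) = rk K s + Fintype.card (Fin N × Fin N)) :
    (Matrix.of fun i j => t (i, j) : Matrix (Fin N) (Fin N) Ω).det ≠ 0 := by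
  have h1 := algebraicIndependent_iff.1 (algInd_of_generic ht)
    (Matrix.mvPolynomialX (Fin N) (Fin N) (cl K s)).det
  intro h0
  refine Matrix.det_mvPolynomialX_ne_zero (Fin N) (cl K s) (h1 ?_)
  rw [← h0, AlgHom.map_det]
  congr 1
  exact Matrix.mvPolynomialX_mapMatrix_aeval (cl K s)
    (Matrix.of fun i j => t (i, j) : Matrix (Fin N) (Fin N) Ω)

omit [DecidableEq Ω] in
private lemma exists_inv_50 {N : ℕ} {s : Finset Ω} (g : Matrix (Fin N) (Fin N) Ω)
    (hg : ∀ i j, g i j ∈ cl K s) (hdet : g.det ≠ 0) :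
    ∃ gi : Matrix (Fin N) (Fin N) Ω, g * gi = 1 ∧ gi * g = 1 ∧ ∀ i j, gi i j ∈ cl K s := by
  let g0 : Matrix (Fin N) (Fin N) (cl K s) := Matrix.of fun i j => ⟨g i j, hg i j⟩
  have hmap : g0.map (algebraMap (cl K s) Ω) = g := by
    ext i j
    rfl
  have hdet0 : g0.det ≠ 0 := by
    intro h
    apply hdet
    have h2 := RingHom.map_det (algebraMap (cl K s) Ω) g0
    rw [h, map_zero] at h2
    rw [← hmap]
    exact h2.symm
  have h1 : g * g0⁻¹.map (algebraMap (cl K s) Ω) = 1 := by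
    conv_lhs => rw [← hmap]
    rw [← Matrix.map_mul, Matrix.mul_nonsing_inv g0 (isUnit_iff_ne_zero.2 hdet0)]
    exact Matrix.map_one _ (map_zero _) (map_one _)
  refine ⟨g0⁻¹.map (algebraMap (cl K s) Ω), h1, mul_eq_one_comm.1 h1, fun i j => ?_⟩
  exact (g0⁻¹ i j).2

omit [DecidableEq Ω] in
private lemma mulVec_mem_50 {N : ℕ} {s : Finset Ω} {g : Matrix (Fin N) (Fin N) Ω}
    {v : Fin N → Ω} (hg : ∀ i j, g i j ∈ cl K s) (hv : ∀ i, v i ∈ cl K s) (i : Fin N) :
    g.mulVec v i ∈ cl K s := by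
  change ∑ j, g i j * v j ∈ cl K s
  exact sum_mem fun j _ => mul_mem (hg i j) (hv j)

omit [Field Ω] in
private lemma mem_rg_50 {ι : Type*} [Fintype ι] (a : ι → Ω) (i : ι) : a i ∈ rg a :=
  Finset.mem_image_of_mem a (Finset.mem_univ i)

omit [Field Ω] in
private lemma mem_rga_50 {ι : Type*} [Fintype ι] (a : ℕ → ι → Ω) {e l : ℕ} (hl : l ≤ e) (i : ι) :
    a l i ∈ rga a e :=
  Finset.mem_biUnion.2 ⟨l, Finset.mem_range.2 (by omega), mem_rg_50 (a l) i⟩

omit [Algebra K Ω] [DecidableEq Ω] in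
private lemma eval_m0_50 (c : Mon n d → Ω) :
    eval (Pi.single 0 1 : Fin (n + 1) → Ω) (fm c) = c (m0 n d) := by
  classical
  unfold fm
  rw [map_sum, Finset.sum_eq_single (m0 n d)]
  · rw [eval_monomial]
    have h1 : (Finsupp.single 0 d : Fin (n + 1) →₀ ℕ).prod
        (fun i k => (Pi.single 0 1 : Fin (n + 1) → Ω) i ^ k) = 1 := by
      rw [Finsupp.prod_single_index (h := fun i k => (Pi.single 0 1 : Fin (n + 1) → Ω) i ^ k)
        (pow_zero _), Pi.single_eq_same, one_pow]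
    change c (m0 n d) * ((Finsupp.single 0 d : Fin (n + 1) →₀ ℕ).prod fun i k =>
      (Pi.single 0 1 : Fin (n + 1) → Ω) i ^ k) = c (m0 n d)
    rw [h1, mul_one]
  · intro b _ hb
    rw [eval_monomial]
    have h1 : ∃ i, i ≠ 0 ∧ b.1 i ≠ 0 := by
      by_contra hcon
      push Not at hcon
      apply hb
      have h2 : b.1 = Finsupp.single 0 (b.1 0) := by
        ext i
        by_cases hi : i = 0
        · subst hi
          rw [Finsupp.single_eq_same]
        · rw [hcon i hi, Finsupp.single_eq_of_ne hi]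
      have h3 : b.1 0 = d := by
        have h4 := b.2
        rw [h2, Finsupp.degree_single] at h4
        exact h4
      refine Subtype.ext ?_
      change b.1 = Finsupp.single 0 d
      rw [h2, h3]
    obtain ⟨i, hi, hbi⟩ := h1
    rw [Finsupp.prod, Finset.prod_eq_zero (Finsupp.mem_support_iff.2 hbi), mul_zero]
    rw [Pi.single_eq_of_ne hi, zero_pow hbi]
  · intro h
    exact absurd (Finset.mem_univ _) h

theorem nl_of_not_lay {c : Mon n d → Ω} (h : ¬ Lay K m e c) : NL K m e c :=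
  ⟨c, h, Spc.refl c⟩

theorem nl_spc {c c' : Mon n d → Ω} (h : NL K m e c) (h' : Spc K c c') : NL K m e c' := by
  obtain ⟨c₀, h1, h2⟩ := h
  exact ⟨c₀, h1, h2.trans h'⟩

theorem nl_mono {e' : ℕ} (he : e ≤ e') {c : Mon n d → Ω} (h : NL K m e c) : NL K m e' c := by
  obtain ⟨c₀, h1, h2⟩ := h
  exact ⟨c₀, fun h3 => h1 fun e'' he'' => h3 e'' (he''.trans he), h2⟩

theorem nl_bound {κ : ℕ} (hκ : ∀ c₀ : Mon n d → Ω, ¬ Lay K m e c₀ →
    rk K (rg c₀) + κ ≤ Fintype.card (Mon n d)) {c : Mon n d → Ω} (h : NL K m e c) :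
    rk K (rg c) + κ ≤ Fintype.card (Mon n d) := by
  obtain ⟨c₀, h1, h2⟩ := h
  have h3 := hκ c₀ h1
  have h4 := h2.rk_le
  omega

theorem nl_act (hb : Big K Ω) {h h' : Matrix (Fin (n + 1)) (Fin (n + 1)) Ω} (hh : h * h' = 1)
    {c : Mon n d → Ω} (hc : NL K m e (act h c)) : NL K m e c := by
  obtain ⟨c₀, hlay, hspc⟩ := hc
  unfold Lay at hlay
  push Not at hlay
  obtain ⟨e', he', a, ha0, hvan, hlt⟩ := hlay
  obtain ⟨t, ht⟩ := exists_generic K hb (rg c₀ ∪ rga a e') (Fin (n + 1) × Fin (n + 1))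
  set g : Matrix (Fin (n + 1)) (Fin (n + 1)) Ω := Matrix.of fun i j => t (i, j) with hg
  have hdet : g.det ≠ 0 := det_ne_50 ht
  have hgG : ∀ i j, g i j ∈ cl K (rg t) := fun i j => subset_cl K _ _ (mem_rg_50 t (i, j))
  obtain ⟨gi, hgi1, hgi2, hgiG⟩ := exists_inv_50 g hgG hdet
  -- the specialisation
  have htc : rk K (rg c₀ ∪ rg t) = rk K (rg c₀) + Fintype.card (Fin (n + 1) × Fin (n + 1)) :=
    generic_of_subset_cl ht fun x hx => subset_cl K _ x (Finset.mem_union_left _ hx)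
  have hsp : Spc K (act g c₀) c := by
    have h1 := Spc.elim_generic hspc t htc (fun p : Fin (n + 1) × Fin (n + 1) => h' p.1 p.2)
    have h2 : Spc K (act g c₀) (act h' (act h c)) := spc_act h1
    rw [act_act, hh, act_one] at h2
    exact h2
  refine ⟨act g c₀, fun hL => ?_, hsp⟩
  -- the curve
  set a' : ℕ → Fin (n + 1) → Ω := fun l => gi.mulVec (a l) with ha'
  have hga' : ∀ l, g.mulVec (a' l) = a l := by
    intro l
    rw [ha']
    dsimp only
    rw [Matrix.mulVec_mulVec, hgi1, Matrix.one_mulVec]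
  have hfun : (fun l => g.mulVec (a' l)) = a := funext hga'
  have ha'0 : a' 0 ≠ 0 := by
    intro h0
    apply ha0
    rw [← hga' 0, h0, Matrix.mulVec_zero]
  have hvan' : Van (act g c₀) a' e' := by
    rw [van_act, hfun]
    exact hvan
  have hrho : rho (act g c₀) a' e' = rho c₀ a e' := by
    rw [rho_act hgi1, hfun]
  have hL' := hL e' he' a' ha'0 hvan'
  rw [hrho] at hL'
  -- the ranks
  set C := rg c₀ with hC
  set Z := rg (a 0) with hZ
  set A := rga a e' with hA
  set C₁ := rg (act g c₀) with hC₁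
  set Z₁ := rg (a' 0) with hZ₁
  set A₁ := rga a' e' with hA₁
  set G := rg t with hG
  have hsub := rk_submod K (C₁ ∪ Z₁) A₁ G
  have e1 : C₁ ∪ Z₁ ∪ A₁ = C₁ ∪ A₁ := by
    rw [Finset.union_assoc]
    congr 1
    refine Finset.union_eq_right.2 fun x hx => ?_
    obtain ⟨i, -, rfl⟩ := Finset.mem_image.1 hx
    exact mem_rga_50 a' (Nat.zero_le e') i
  rw [e1] at hsub
  have claim1 : rk K (C ∪ A ∪ G) ≤ rk K (C₁ ∪ A₁ ∪ G) := by
    have hGs : G ⊆ C₁ ∪ A₁ ∪ G := Finset.subset_union_right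
    refine rk_le_of_subset_cl K fun x hx => ?_
    rcases Finset.mem_union.1 hx with hx | hx
    · rcases Finset.mem_union.1 hx with hx | hx
      · obtain ⟨mm, -, rfl⟩ := Finset.mem_image.1 hx
        have h1 : c₀ = act gi (act g c₀) := by rw [act_act, hgi1, act_one]
        rw [h1]
        refine act_mem_cl (fun i j => cl_mono K hGs (hgiG i j)) (fun mm => ?_) mm
        exact subset_cl K _ _ (Finset.mem_union_left _ (Finset.mem_union_left _
          (mem_rg_50 (act g c₀) mm)))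
      · obtain ⟨l, hl, hx⟩ := Finset.mem_biUnion.1 hx
        obtain ⟨i, -, rfl⟩ := Finset.mem_image.1 hx
        rw [Finset.mem_range] at hl
        rw [← hga' l]
        refine mulVec_mem_50 (fun i j => cl_mono K hGs (hgG i j)) (fun i => ?_) i
        exact subset_cl K _ _ (Finset.mem_union_left _ (Finset.mem_union_right _
          (mem_rga_50 a' (by omega) i)))
    · exact subset_cl K _ x (hGs hx)
  have claim2 : rk K (C₁ ∪ Z₁ ∪ G) ≤ rk K (C ∪ Z ∪ G) := by
    have hGs : G ⊆ C ∪ Z ∪ G := Finset.subset_union_right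
    refine rk_le_of_subset_cl K fun x hx => ?_
    rcases Finset.mem_union.1 hx with hx | hx
    · rcases Finset.mem_union.1 hx with hx | hx
      · obtain ⟨mm, -, rfl⟩ := Finset.mem_image.1 hx
        refine act_mem_cl (fun i j => cl_mono K hGs (hgG i j)) (fun mm => ?_) mm
        exact subset_cl K _ _ (Finset.mem_union_left _ (Finset.mem_union_left _
          (mem_rg_50 c₀ mm)))
      · obtain ⟨i, -, rfl⟩ := Finset.mem_image.1 hx
        refine mulVec_mem_50 (fun i j => cl_mono K hGs (hgiG i j)) (fun i => ?_) i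
        exact subset_cl K _ _ (Finset.mem_union_left _ (Finset.mem_union_right _
          (mem_rg_50 (a 0) i)))
    · exact subset_cl K _ x (hGs hx)
  have hgen : rk K (C ∪ Z ∪ G) =
      rk K (C ∪ Z) + Fintype.card (Fin (n + 1) × Fin (n + 1)) := by
    refine generic_of_subset_cl ht fun x hx => subset_cl K _ x ?_
    rcases Finset.mem_union.1 hx with hx | hx
    · exact Finset.mem_union_left _ hx
    · obtain ⟨i, -, rfl⟩ := Finset.mem_image.1 hx
      exact Finset.mem_union_right _ (mem_rga_50 a (Nat.zero_le e') i)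
  omega

theorem nl_smul [IsAlgClosed Ω] (hb : Big K Ω) (hd : 1 ≤ d) {t : Ω} (ht : t ≠ 0)
    {c : Mon n d → Ω} (hc : NL K m e c) : NL K m e (fun m => t * c m) := by
  obtain ⟨u, hu⟩ := IsAlgClosed.exists_pow_nat_eq t⁻¹ (by omega : 0 < d)
  have hu0 : u ≠ 0 := by
    rintro rfl
    rw [zero_pow (by omega)] at hu
    exact inv_ne_zero ht hu.symm
  refine nl_act hb (h := u • (1 : Matrix (Fin (n + 1)) (Fin (n + 1)) Ω))
    (h' := u⁻¹ • (1 : Matrix (Fin (n + 1)) (Fin (n + 1)) Ω)) ?_ ?_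
  · rw [smul_mul_smul_comm, mul_inv_cancel₀ hu0, one_smul, one_mul]
  · rw [act_smul]
    have h1 : (fun m : Mon n d => u ^ d * (t * c m)) = c := by
      funext m
      rw [hu, inv_mul_cancel_left₀ ht]
    rw [h1]
    exact hc

theorem nl_point [IsAlgClosed Ω] (hb : Big K Ω) {κ : ℕ}
    (hκ : ∀ c₀ : Mon n d → Ω, ¬ Lay K m e c₀ →
    rk K (rg c₀) + κ ≤ Fintype.card (Mon n d)) {c : Mon n d → Ω} (h : NL K m e c) (hc : c ≠ 0)
    (h0 : c (m0 n d) = 0) : rk K (rg c) + 1 + κ ≤ Fintype.card (Mon n d) := by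
  obtain ⟨t, ht⟩ := exists_generic K hb (rg c) (Fin (n + 1) × Fin (n + 1))
  set g : Matrix (Fin (n + 1)) (Fin (n + 1)) Ω := Matrix.of fun i j => t (i, j) with hg
  have hdet : g.det ≠ 0 := det_ne_50 ht
  have hgG : ∀ i j, g i j ∈ cl K (rg t) := fun i j => subset_cl K _ _ (mem_rg_50 t (i, j))
  obtain ⟨gi, hgi1, hgi2, -⟩ := exists_inv_50 g hgG hdet
  have hnl : NL K m e (act g c) := by
    refine nl_act hb hgi2 ?_
    rw [act_act, hgi1, act_one]
    exact h
  have hbd := nl_bound hκ hnl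
  have hsp : Spc K (act g c) c := by
    have h1 := Spc.elim_generic (Spc.refl (K := K) c) t ht
      (fun p : Fin (n + 1) × Fin (n + 1) => (1 : Matrix (Fin (n + 1)) (Fin (n + 1)) Ω) p.1 p.2)
    have h2 : Spc K (act g c) (act 1 c) := spc_act h1
    rw [act_one] at h2
    exact h2
  have hle := hsp.rk_le
  rcases Nat.lt_or_ge (rk K (rg c)) (rk K (rg (act g c))) with hlt | hge
  · omega
  · exfalso
    have hsym : Spc K c (act g c) := hsp.symm_of_rk hge
    have hz : act g c (m0 n d) = 0 := hsym.eq_zero h0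
    rw [← eval_m0_50 (act g c), fm_act, eval_sbs] at hz
    have hcol : g.mulVec (Pi.single 0 1) = t ∘ fun i : Fin (n + 1) => (i, (0 : Fin (n + 1))) := by
      funext i
      rw [Matrix.mulVec_single_one]
      rfl
    rw [hcol] at hz
    have hgen := generic_comp ht (fun i : Fin (n + 1) => (i, (0 : Fin (n + 1))))
      (fun i j hij => congrArg Prod.fst hij)
    refine eval_ne_zero_of_generic hgen (fm c) ?_ ?_ hz
    · intro hfm
      apply hc
      funext mm
      rw [← coeff_fm c mm, hfm, coeff_zero]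
      rfl
    · intro mm
      by_cases hmm : mm.degree = d
      · have h1 := coeff_fm c ⟨mm, hmm⟩
        change coeff mm (fm c) = _ at h1
        rw [h1]
        exact subset_cl K _ _ (mem_rg_50 c _)
      · rw [(fm_hom c).coeff_eq_zero hmm]
        exact zero_mem _

end Pool.Agent.Helper30.RY
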