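import Mathlib
import Pool.Agent.Helper30.RY.Cur
import Pool.Agent.Helper30.RY.Td
import Pool.Agent.Helper30.RY.Nlb

/-!
# Block RY-GIA: the expansion of a form at `e₀`

The form `fm c` of degree `d` in the variables `X_0, ..., X_{k+1}` is `∑_{i ≤ d} X_0^{d-i} g_i(X_1, ...)`,
where `g_i = fm (gc c i)` is a form of degree `i` in `k + 1` variables, `gc c i m' = c (X_0^{d-i} m')`.

* `gc_line`: if the line `e₀ + T y` (a curve with `a 0 = e₀`, `a 1 = y`) lies on the hypersurface, then
  `g_i(y') = 0` for all `i ≤ d`, where `y' j = y j.succ`: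
  `0 = f(e₀ + T y) = ∑_i (1 + T y_0)^{d-i} T^i g_i(y')` in `Ω[T]`; if not all `g_i(y')` vanish let `i` be
  minimal with `g_i(y') ≠ 0`, the coefficient of `T^i` is `g_i(y')`, contradiction.
* `singP_of_gc`: if `g_0 = 0` and `g_1 = 0` then `e₀` is singular: `∂_0 f(e₀) = d * c(X_0^d)`,
  `∂_j f(e₀) = c(X_0^{d-1} X_j)` for `j ≥ 1`.
* `card_sing`: if `eval e₀ (fm c) = 0` and `SingP c e₀` (`1 ≤ d`), then `c (X_0^{d-1} X_j) = 0` for
  `j = 0, ..., n`; these are `n + 1` different exponents, so `rg c` has at most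
  `card (Mon n d) - (n + 1)` elements besides `0`: `rk (rg c) + (n + 1) ≤ card (Mon n d)`.
* `sing_line`: let `a 0 = e₀`, `a 1` not a multiple of `e₀`, `Van c a 1` and `SingC c a 1`.  Choose an
  invertible matrix `h` with `h e₀ = e₀`, `h e₁ = a 1` (`e₁ = Pi.single 1 1`), entries of `h` and its
  inverse in `cl K (rg (a 1))` (e.g. if `a 1 j ≠ 0`, `j ≥ 1`, let `h` be the identity matrix with column
  `1` replaced by `a 1` and column `j` by `e₁` if `j ≠ 1`).  `c₁ = act h c` is singular along the
  line `e₀ + T e₁`: `Van c₁ L 1`, `SingC c₁ L 1` (`van_act`, `singC_act`).  So the following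
  coefficients of `c₁` vanish: those of `X_0^{d-i} X_1^i` (`0 ≤ i ≤ d`), and those of
  `X_0^{d-1-i} X_1^i X_j` (`0 ≤ i ≤ d - 1`, `2 ≤ j ≤ n`), altogether `(d + 1) + (n - 1) d = n d + 1` different
  exponents (`n ≥ 1`).  So `rk (rg c₁) + (n d + 1) ≤ card`, and
  `rk (rg c ∪ rg (a 1)) = rk (rg c₁ ∪ rg (a 1)) ≤ rk (rg c₁) + rk (rg (a 1)) ≤ rk (rg c₁) + (n + 1)`.
-/

namespace Pool.Agent.Helper30.RY

open MvPolynomial

/-- the exponent of `X_0^(d-i)` times a monomial of degree `i` in the other variables -/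
noncomputable def xm {k d : ℕ} (i : ℕ) (hi : i ≤ d) (m : Mon k i) : Mon (k + 1) d :=
  ⟨Finsupp.cons (d - i) m.1, by
    have h : (Finsupp.cons (d - i) m.1).degree = (d - i) + m.1.degree := by
      rw [Finsupp.degree_eq_sum, Finsupp.degree_eq_sum, Fin.sum_univ_succ, Finsupp.cons_zero]
      simp only [Finsupp.cons_succ]
    rw [h, m.2, Nat.sub_add_cancel hi]⟩

/-- the coefficients of the form `g_i` in the expansion at `e₀` -/
noncomputable def gc {A : Type*} {k d : ℕ} (c : Mon (k + 1) d → A) (i : ℕ) (hi : i ≤ d) :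
    Mon k i → A := fun m => c (xm i hi m)

section

variable {A : Type*} [CommRing A] {k d : ℕ}

/-- the degree of the tail of an exponent -/
private theorem tail_le82 (m : Mon (k + 1) d) : ∑ j : Fin (k + 1), m.1 j.succ ≤ d := by
  have h := m.2
  rw [Finsupp.degree_eq_sum, Fin.sum_univ_succ] at h
  omega

private theorem head_eq82 (m : Mon (k + 1) d) : m.1 0 = d - ∑ j : Fin (k + 1), m.1 j.succ := by
  have h := m.2
  rw [Finsupp.degree_eq_sum, Fin.sum_univ_succ] at h
  omega

private theorem aeval_fm82 (c : Mon (k + 1) d → A) (F : Fin (k + 2) → Polynomial A) :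
    aeval F (fm c) = ∑ m : Mon (k + 1) d, Polynomial.C (c m) *
      (F 0 ^ (m.1 0) * ∏ j : Fin (k + 1), F j.succ ^ (m.1 j.succ)) := by
  unfold fm
  rw [map_sum]
  refine Finset.sum_congr rfl fun m _ => ?_
  rw [aeval_monomial, Finsupp.prod_fintype _ _ (fun i => pow_zero _), Fin.prod_univ_succ]
  rfl

private theorem eval_fm82 {k i : ℕ} (c : Mon k i → A) (y : Fin (k + 1) → A) :
    eval y (fm c) = ∑ m : Mon k i, c m * ∏ j : Fin (k + 1), y j ^ (m.1 j) := by
  unfold fm
  rw [map_sum]
  refine Finset.sum_congr rfl fun m _ => ?_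
  rw [eval_monomial, Finsupp.prod_fintype _ _ (fun i => pow_zero _)]

private theorem eval_gc82 (c : Mon (k + 1) d → A) (y : Fin (k + 1) → A) (i : ℕ) (hi : i ≤ d) :
    eval y (fm (gc c i hi)) = ∑ m ∈ Finset.univ.filter
      (fun m : Mon (k + 1) d => ∑ j : Fin (k + 1), m.1 j.succ = i),
      c m * ∏ j : Fin (k + 1), y j ^ (m.1 j.succ) := by
  rw [eval_fm82]
  refine Finset.sum_bij (fun m _ => xm i hi m) ?_ ?_ ?_ ?_
  · intro m _
    rw [Finset.mem_filter]
    refine ⟨Finset.mem_univ _, ?_⟩
    unfold xm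
    simp only [Finsupp.cons_succ]
    rw [← Finsupp.degree_eq_sum, m.2]
  · intro m _ m' _ h
    unfold xm at h
    rw [Subtype.mk.injEq] at h
    have h2 := congrArg Finsupp.tail h
    rw [Finsupp.tail_cons, Finsupp.tail_cons] at h2
    exact Subtype.ext h2
  · intro m hm
    rw [Finset.mem_filter] at hm
    have h1 : (Finsupp.tail m.1).degree = i := by
      rw [Finsupp.degree_eq_sum, ← hm.2]
      rfl
    refine ⟨⟨Finsupp.tail m.1, h1⟩, Finset.mem_univ _, ?_⟩
    refine Subtype.ext ?_
    unfold xm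
    have h2 : d - i = m.1 0 := by
      rw [head_eq82, hm.2]
    change Finsupp.cons (d - i) (Finsupp.tail m.1) = m.1
    rw [h2, Finsupp.cons_tail]
  · intro m _
    unfold gc xm
    simp only [Finsupp.cons_succ]

private theorem aeval_line82 (c : Mon (k + 1) d → A) (U : Polynomial A) (y : Fin (k + 1) → A)
    (F : Fin (k + 2) → Polynomial A) (h0 : F 0 = U)
    (h1 : ∀ j : Fin (k + 1), F j.succ = Polynomial.C (y j) * Polynomial.X) :
    aeval F (fm c) = ∑ i ∈ Finset.range (d + 1), U ^ (d - i) * Polynomial.X ^ i *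
      Polynomial.C (∑ m ∈ Finset.univ.filter
        (fun m : Mon (k + 1) d => ∑ j : Fin (k + 1), m.1 j.succ = i),
        c m * ∏ j : Fin (k + 1), y j ^ (m.1 j.succ)) := by
  rw [aeval_fm82, ← Finset.sum_fiberwise_of_maps_to (s := Finset.univ)
    (t := Finset.range (d + 1)) (g := fun m : Mon (k + 1) d => ∑ j : Fin (k + 1), m.1 j.succ)]
  · refine Finset.sum_congr rfl fun i _ => ?_
    rw [map_sum, Finset.mul_sum]
    refine Finset.sum_congr rfl fun m hm => ?_
    rw [Finset.mem_filter] at hm
    have h2 : m.1 0 = d - i := by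
      rw [head_eq82, hm.2]
    have h3 : ∏ j : Fin (k + 1), F j.succ ^ (m.1 j.succ) =
        Polynomial.C (∏ j : Fin (k + 1), y j ^ (m.1 j.succ)) * Polynomial.X ^ i := by
      rw [map_prod, ← hm.2, ← Finset.prod_pow_eq_pow_sum, ← Finset.prod_mul_distrib]
      refine Finset.prod_congr rfl fun j _ => ?_
      rw [h1, mul_pow, map_pow]
    rw [h3, h0, h2, map_mul]
    ring
  · intro m _
    rw [Finset.mem_range]
    have := tail_le82 m
    omega

private theorem coeff_line82 {U : Polynomial A} (hU : U.coeff 0 = 1) {G : ℕ → A}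
    (h : ∑ i ∈ Finset.range (d + 1), U ^ (d - i) * Polynomial.X ^ i * Polynomial.C (G i) = 0) :
    ∀ i ≤ d, G i = 0 := by
  intro i
  induction i using Nat.strong_induction_on with
  | _ i IH =>
    intro hi
    have h1 := congrArg (fun p => Polynomial.coeff p i) h
    simp only [Polynomial.finsetSum_coeff, Polynomial.coeff_zero] at h1
    rw [Finset.sum_eq_single i] at h1
    · rw [Polynomial.coeff_mul_C, Polynomial.coeff_mul_X_pow', if_pos le_rfl, Nat.sub_self,
        Polynomial.coeff_zero_eq_eval_zero, Polynomial.eval_pow,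
        ← Polynomial.coeff_zero_eq_eval_zero, hU, one_pow, one_mul] at h1
      exact h1
    · intro b hb hbi
      rw [Finset.mem_range] at hb
      rw [Polynomial.coeff_mul_C, Polynomial.coeff_mul_X_pow']
      rcases lt_or_gt_of_ne hbi with hlt | hgt
      · rw [IH b hlt (by omega), mul_zero]
      · rw [if_neg (by omega), zero_mul]
    · intro hcon
      exact absurd (Finset.mem_range.2 (by omega)) hcon

end

section

variable {A : Type*} [CommRing A] {n d q : ℕ}

/-- the coefficients of a form along a coordinate line through `e₀` -/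
private theorem coeff_of_vanp82 {f : MvPolynomial (Fin (n + 1)) A} (hf : f.IsHomogeneous q)
    {j : Fin (n + 1)} (hj : j ≠ 0) {L : ℕ → Fin (n + 1) → A} (h0 : L 0 = Pi.single 0 1)
    (h1 : L 1 = Pi.single j 1) (hV : Vanp f L 1) (i : ℕ) (hi : i ≤ q) :
    coeff (Finsupp.single 0 (q - i) + Finsupp.single j i) f = 0 := by
  have hc0 : cv L 1 0 = 1 := by
    unfold cv
    rw [Finset.sum_range_succ, Finset.sum_range_one, h0, h1, Pi.single_eq_same,
      Pi.single_eq_of_ne (Ne.symm hj)]
    simp
  have hcj : cv L 1 j = Polynomial.X := by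
    unfold cv
    rw [Finset.sum_range_succ, Finset.sum_range_one, h0, h1, Pi.single_eq_same,
      Pi.single_eq_of_ne hj]
    simp
  have hcs : ∀ s, s ≠ 0 → s ≠ j → cv L 1 s = 0 := by
    intro s hs hsj
    unfold cv
    rw [Finset.sum_range_succ, Finset.sum_range_one, h0, h1, Pi.single_eq_of_ne hs,
      Pi.single_eq_of_ne hsj]
    simp
  have hV' := congrArg (fun p => Polynomial.coeff p i) (hV : aeval (cv L 1) f = 0)
  simp only [Polynomial.coeff_zero] at hV'
  rw [aeval_def, eval₂_eq', Polynomial.finsetSum_coeff,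
    Finset.sum_eq_single (Finsupp.single 0 (q - i) + Finsupp.single j i)] at hV'
  · have h2 : ∏ s, cv L 1 s ^ ((Finsupp.single 0 (q - i) + Finsupp.single j i :
        Fin (n + 1) →₀ ℕ) s) = Polynomial.X ^ i := by
      rw [Finset.prod_eq_single j]
      · rw [hcj, Finsupp.add_apply, Finsupp.single_eq_same, Finsupp.single_eq_of_ne hj, zero_add]
      · intro b _ hb
        by_cases hb0 : b = 0
        · rw [hb0, hc0, one_pow]
        · rw [Finsupp.add_apply, Finsupp.single_eq_of_ne hb0, Finsupp.single_eq_of_ne hb,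
            add_zero, pow_zero]
      · intro hcon
        exact absurd (Finset.mem_univ j) hcon
    rw [h2, ← Polynomial.C_eq_algebraMap, Polynomial.coeff_C_mul, Polynomial.coeff_X_pow,
      if_pos rfl, mul_one] at hV'
    exact hV'
  · intro m hm hne
    have hdeg : m.degree = q := by
      by_contra hcon
      exact (mem_support_iff.mp hm) (hf.coeff_eq_zero hcon)
    rw [← Polynomial.C_eq_algebraMap, Polynomial.coeff_C_mul]
    by_cases hs : ∃ s, s ≠ 0 ∧ s ≠ j ∧ m s ≠ 0
    · obtain ⟨s, hs0, hsj, hms⟩ := hs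
      rw [Finset.prod_eq_zero (Finset.mem_univ s) (by rw [hcs s hs0 hsj, zero_pow hms]),
        Polynomial.coeff_zero, mul_zero]
    · push Not at hs
      have h2 : ∏ s, cv L 1 s ^ (m s) = Polynomial.X ^ (m j) := by
        rw [Finset.prod_eq_single j]
        · rw [hcj]
        · intro b _ hb
          by_cases hb0 : b = 0
          · rw [hb0, hc0, one_pow]
          · rw [hs b hb0 hb, pow_zero]
        · intro hcon
          exact absurd (Finset.mem_univ j) hcon
      have h3 : m j ≠ i := by
        intro hmj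
        refine hne ?_
        have h4 : m 0 + m j = q := by
          rw [← hdeg, Finsupp.degree_eq_sum]
          rw [← Finset.sum_subset (Finset.subset_univ {0, j}), Finset.sum_pair (Ne.symm hj)]
          intro s _ hs'
          rw [Finset.mem_insert, Finset.mem_singleton, not_or] at hs'
          exact hs s hs'.1 hs'.2
        ext s
        rw [Finsupp.add_apply]
        by_cases hs0 : s = 0
        · rw [hs0, Finsupp.single_eq_same, Finsupp.single_eq_of_ne (Ne.symm hj)]
          omega
        · by_cases hsj : s = j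
          · rw [hsj, Finsupp.single_eq_same, Finsupp.single_eq_of_ne hj, hmj, zero_add]
          · rw [Finsupp.single_eq_of_ne hs0, Finsupp.single_eq_of_ne hsj, hs s hs0 hsj, add_zero]
      rw [h2, Polynomial.coeff_X_pow, if_neg (Ne.symm h3), mul_zero]
  · intro hcon
    rw [notMem_support_iff.mp hcon]
    simp

/-- the value at `e₀` of a form -/
private theorem eval_e082 {f : MvPolynomial (Fin (n + 1)) A} (hf : f.IsHomogeneous q) :
    eval (Pi.single 0 1) f = coeff (Finsupp.single 0 q) f := by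
  rw [eval_eq', Finset.sum_eq_single (Finsupp.single 0 q)]
  · rw [Finset.prod_eq_one, mul_one]
    intro i _
    by_cases hi : i = 0
    · rw [hi, Pi.single_eq_same, one_pow]
    · rw [Finsupp.single_eq_of_ne hi, pow_zero]
  · intro m hm hne
    have hdeg : m.degree = q := by
      by_contra hcon
      exact (mem_support_iff.mp hm) (hf.coeff_eq_zero hcon)
    have hs : ∃ s, s ≠ 0 ∧ m s ≠ 0 := by
      by_contra hcon
      push Not at hcon
      refine hne ?_
      have h4 : m 0 = q := by
        rw [← hdeg, Finsupp.degree_eq_sum, Finset.sum_eq_single 0]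
        · intro s _ hs0
          exact hcon s hs0
        · intro h
          exact absurd (Finset.mem_univ _) h
      ext s
      by_cases hs0 : s = 0
      · rw [hs0, Finsupp.single_eq_same, h4]
      · rw [Finsupp.single_eq_of_ne hs0, hcon s hs0]
    obtain ⟨s, hs0, hms⟩ := hs
    rw [Finset.prod_eq_zero (Finset.mem_univ s) (by rw [Pi.single_eq_of_ne hs0, zero_pow hms]),
      mul_zero]
  · intro hcon
    rw [notMem_support_iff.mp hcon, zero_mul]

/-- the value at `e₀` of a partial derivative -/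
private theorem eval_pd82 (c : Mon n d → A) (j : Fin (n + 1)) :
    eval (Pi.single 0 1) (pderiv j (fm c)) =
      coeff (Finsupp.single 0 (d - 1) + Finsupp.single j 1) (fm c) *
        (((Finsupp.single 0 (d - 1) : Fin (n + 1) →₀ ℕ) j : A) + 1) := by
  rw [eval_e082 (pderiv_fm_hom c j), coeff_pderiv]

end

section

variable (K : Type*) [Field K] {Ω : Type*} [Field Ω] [Algebra K Ω] [DecidableEq Ω] {n d : ℕ}

private theorem rk_vanish82 (c : Mon n d → Ω) (Z : Finset (Fin (n + 1) →₀ ℕ))
    (hZ : ∀ z ∈ Z, z.degree = d) (h0 : ∀ z ∈ Z, coeff z (fm c) = 0) :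
    rk K (rg c) + Z.card ≤ Fintype.card (Mon n d) := by
  classical
  have h1 : rk K (rg c) ≤ (Finset.univ.filter (fun m : Mon n d => ¬ m.1 ∈ Z)).card := by
    refine le_trans ?_ (Finset.card_image_le (f := c))
    refine le_trans (rk_le_of_subset_cl K ?_) (rk_le_card K _)
    intro x hx
    unfold rg at hx
    rw [Finset.mem_image] at hx
    obtain ⟨m, -, rfl⟩ := hx
    by_cases hm : m.1 ∈ Z
    · have h2 := h0 m.1 hm
      rw [coeff_fm] at h2
      rw [h2]
      exact zero_mem _
    · refine subset_cl K _ _ ?_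
      rw [Finset.mem_image]
      exact ⟨m, Finset.mem_filter.2 ⟨Finset.mem_univ m, hm⟩, rfl⟩
  have h2 : Z.card ≤ (Finset.univ.filter (fun m : Mon n d => m.1 ∈ Z)).card := by
    refine le_trans (Finset.card_le_card (t := (Finset.univ.filter
      (fun m : Mon n d => m.1 ∈ Z)).image Subtype.val) ?_) Finset.card_image_le
    intro z hz
    rw [Finset.mem_image]
    exact ⟨⟨z, hZ z hz⟩, Finset.mem_filter.2 ⟨Finset.mem_univ _, hz⟩, rfl⟩
  have h3 := Finset.card_filter_add_card_filter_not (s := (Finset.univ : Finset (Mon n d)))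
    (fun m : Mon n d => m.1 ∈ Z)
  rw [Finset.card_univ] at h3
  omega

end

section

variable {Ω : Type*} [Field Ω] {k d : ℕ}

theorem gc_line {c : Mon (k + 1) d → Ω} {a : ℕ → Fin (k + 2) → Ω} (h0 : a 0 = Pi.single 0 1)
    (hV : Van c a 1) (i : ℕ) (hi : i ≤ d) :
    eval (fun j : Fin (k + 1) => a 1 j.succ) (fm (gc c i hi)) = 0 := by
  rw [eval_gc82]
  have hU : (cv a 1 0).coeff 0 = 1 := by
    unfold cv
    rw [Finset.sum_range_succ, Finset.sum_range_one, h0, Pi.single_eq_same]
    simp
  have hF : ∀ j : Fin (k + 1), cv a 1 j.succ = Polynomial.C (a 1 j.succ) * Polynomial.X := by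
    intro j
    unfold cv
    rw [Finset.sum_range_succ, Finset.sum_range_one, h0, Pi.single_eq_of_ne (Fin.succ_ne_zero j)]
    simp
  have h1 := aeval_line82 c (cv a 1 0) (fun j : Fin (k + 1) => a 1 j.succ) (cv a 1) rfl hF
  have h2 : aeval (cv a 1) (fm c) = 0 := hV
  rw [h2] at h1
  exact coeff_line82 hU h1.symm i hi

theorem singP_of_gc {c : Mon (k + 1) d → Ω} (hd : 1 ≤ d) (h0 : gc c 0 (Nat.zero_le d) = 0)
    (h1 : gc c 1 hd = 0) : SingP c (Pi.single 0 1) := by
  intro j
  rw [eval_pd82]
  have hdeg : (Finsupp.single 0 (d - 1) + Finsupp.single j 1 : Fin (k + 2) →₀ ℕ).degree = d := by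
    rw [map_add, Finsupp.degree_single, Finsupp.degree_single]
    omega
  have h2 : coeff (Finsupp.single 0 (d - 1) + Finsupp.single j 1) (fm c) =
      c ⟨Finsupp.single 0 (d - 1) + Finsupp.single j 1, hdeg⟩ :=
    coeff_fm c ⟨Finsupp.single 0 (d - 1) + Finsupp.single j 1, hdeg⟩
  rw [h2]
  refine mul_eq_zero_of_left ?_ _
  rcases Fin.eq_zero_or_eq_succ j with rfl | ⟨j', rfl⟩
  · have h3 := congrFun h0 ⟨0, rfl⟩
    unfold gc at h3
    rw [Pi.zero_apply] at h3
    rw [← h3]
    congr 1
    refine Subtype.ext ?_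
    unfold xm
    ext s
    rcases Fin.eq_zero_or_eq_succ s with rfl | ⟨s', rfl⟩
    · simp only [Finsupp.cons_zero, Finsupp.add_apply, Finsupp.single_eq_same]
      omega
    · simp only [Finsupp.cons_succ, Finsupp.add_apply,
        Finsupp.single_eq_of_ne (Fin.succ_ne_zero s'), Finsupp.coe_zero, Pi.zero_apply, add_zero]
  · have h3 := congrFun h1 ⟨Finsupp.single j' 1, Finsupp.degree_single _ _⟩
    unfold gc at h3
    rw [Pi.zero_apply] at h3
    rw [← h3]
    congr 1
    refine Subtype.ext ?_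
    unfold xm
    ext s
    rcases Fin.eq_zero_or_eq_succ s with rfl | ⟨s', rfl⟩
    · simp only [Finsupp.cons_zero, Finsupp.add_apply, Finsupp.single_eq_same]
      rw [Finsupp.single_eq_of_ne (Fin.succ_ne_zero j').symm]
      omega
    · simp only [Finsupp.cons_succ, Finsupp.add_apply,
        Finsupp.single_eq_of_ne (Fin.succ_ne_zero s')]
      by_cases hs : s' = j'
      · rw [hs, Finsupp.single_eq_same, Finsupp.single_eq_same]
      · rw [Finsupp.single_eq_of_ne hs, Finsupp.single_eq_of_ne
          (fun h => hs (Fin.succ_injective _ h)), add_zero]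

end

section

variable {K : Type*} [Field K] {Ω : Type*} [Field Ω] [Algebra K Ω] [DecidableEq Ω] {n d : ℕ}

theorem card_sing (hd : 1 ≤ d) {c : Mon n d → Ω} (h0 : c (m0 n d) = 0)
    (hs : SingP c (Pi.single 0 1)) : rk K (rg c) + (n + 1) ≤ Fintype.card (Mon n d) := by
  have hinj : Function.Injective (fun j : Fin (n + 1) =>
      (Finsupp.single 0 (d - 1) + Finsupp.single j 1 : Fin (n + 1) →₀ ℕ)) := by
    intro i j hij
    have h1 : (Finsupp.single i 1 : Fin (n + 1) →₀ ℕ) = Finsupp.single j 1 := by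
      exact add_left_cancel hij
    exact Finsupp.single_left_injective one_ne_zero h1
  have h1 := rk_vanish82 K c (Finset.univ.image (fun j : Fin (n + 1) =>
    (Finsupp.single 0 (d - 1) + Finsupp.single j 1 : Fin (n + 1) →₀ ℕ))) ?_ ?_
  · rw [Finset.card_image_of_injective _ hinj, Finset.card_univ, Fintype.card_fin] at h1
    exact h1
  · intro z hz
    rw [Finset.mem_image] at hz
    obtain ⟨j, -, rfl⟩ := hz
    rw [map_add, Finsupp.degree_single, Finsupp.degree_single]
    omega
  · intro z hz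
    rw [Finset.mem_image] at hz
    obtain ⟨j, -, rfl⟩ := hz
    by_cases hj : j = 0
    · rw [hj, ← Finsupp.single_add, Nat.sub_add_cancel hd]
      rw [← h0]
      exact coeff_fm c (m0 n d)
    · have h2 := hs j
      rw [eval_pd82, Finsupp.single_eq_of_ne hj, Nat.cast_zero, zero_add, mul_one] at h2
      exact h2

theorem sing_line (hn : 1 ≤ n) {c : Mon n d → Ω} {a : ℕ → Fin (n + 1) → Ω}
    (h0 : a 0 = Pi.single 0 1) (h1 : ¬ ∃ η : Ω, ∀ i, a 1 i = η * a 0 i) (hV : Van c a 1)
    (hS : SingC c a 1) :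
    rk K (rg c ∪ rg (a 1)) + (n * d + 1) ≤ Fintype.card (Mon n d) + (n + 1) := by
  classical
  -- a coordinate `j ≠ 0` with `a 1 j ≠ 0`
  obtain ⟨j, hj, hyj⟩ : ∃ j : Fin (n + 1), j ≠ 0 ∧ a 1 j ≠ 0 := by
    by_contra hcon
    push Not at hcon
    refine h1 ⟨a 1 0, fun i => ?_⟩
    rw [h0]
    by_cases hi : i = 0
    · rw [hi, Pi.single_eq_same, mul_one]
    · rw [Pi.single_eq_of_ne hi, mul_zero, hcon i hi]
  obtain ⟨y, hy⟩ : ∃ y, y = a 1 := ⟨_, rfl⟩
  rw [← hy] at hyj
  obtain ⟨E, hE⟩ : ∃ E : Matrix (Fin (n + 1)) (Fin (n + 1)) Ω, ∀ i s, E i s =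
      if s = j then y i else if i = s then 1 else 0 := ⟨Matrix.of fun i s => _, fun _ _ => rfl⟩
  obtain ⟨E', hE'⟩ : ∃ E' : Matrix (Fin (n + 1)) (Fin (n + 1)) Ω, ∀ i s, E' i s =
      if s = j then (if i = j then (y j)⁻¹ else - y i * (y j)⁻¹) else if i = s then 1 else 0 :=
    ⟨Matrix.of fun i s => _, fun _ _ => rfl⟩
  have hEE : E * E' = 1 := by
    ext i s
    rw [Matrix.mul_apply, Matrix.one_apply]
    by_cases hs : s = j
    · have h2 : ∀ t, E i t * E' t s = (if t = j then y i * (y j)⁻¹ else 0) +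
          (if t = i then (if i = j then 0 else - y i * (y j)⁻¹) else 0) := by
        intro t
        rw [hE, hE', if_pos hs]
        by_cases ht : t = j
        · rw [if_pos ht, if_pos ht, if_pos ht]
          by_cases hti : t = i
          · rw [if_pos hti, if_pos (hti.symm.trans ht), add_zero]
          · rw [if_neg hti, add_zero]
        · rw [if_neg ht, if_neg ht, if_neg ht, zero_add]
          by_cases hti : t = i
          · rw [if_pos hti, if_pos hti.symm, if_neg (fun h => ht (hti.trans h)), one_mul, hti]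
          · rw [if_neg hti, if_neg (Ne.symm hti), zero_mul]
      rw [Finset.sum_congr rfl fun t _ => h2 t, Finset.sum_add_distrib, Finset.sum_ite_eq',
        Finset.sum_ite_eq', if_pos (Finset.mem_univ _), if_pos (Finset.mem_univ _)]
      by_cases hi : i = j
      · rw [if_pos hi, hi, if_pos hs.symm, add_zero, mul_inv_cancel₀ hyj]
      · rw [if_neg hi, if_neg (fun h => hi (h.trans hs))]
        ring
    · have h2 : ∀ t, E i t * E' t s = if t = s then E i s else 0 := by
        intro t
        rw [hE', if_neg hs]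
        by_cases ht : t = s
        · rw [if_pos ht, if_pos ht, mul_one, ht]
        · rw [if_neg ht, if_neg ht, mul_zero]
      rw [Finset.sum_congr rfl fun t _ => h2 t, Finset.sum_ite_eq', if_pos (Finset.mem_univ _),
        hE, if_neg hs]
  obtain ⟨L, hL0, hL1⟩ : ∃ L : ℕ → Fin (n + 1) → Ω, L 0 = Pi.single 0 1 ∧ L 1 = Pi.single j 1 :=
    ⟨fun l => if l = 0 then Pi.single 0 1 else Pi.single j 1, rfl, rfl⟩
  have hmv : ∀ l ≤ 1, ∀ i, E.mulVec (L l) i = a l i := by
    intro l hl i
    have hl' : l = 0 ∨ l = 1 := by omega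
    rcases hl' with rfl | rfl
    · rw [hL0, h0]
      change (∑ s, E i s * (Pi.single 0 1 : Fin (n + 1) → Ω) s) = _
      rw [Finset.sum_eq_single 0]
      · rw [Pi.single_eq_same, mul_one, hE, if_neg (Ne.symm hj)]
        by_cases hi : i = 0
        · rw [if_pos hi, hi, Pi.single_eq_same]
        · rw [if_neg hi, Pi.single_eq_of_ne hi]
      · intro b _ hb
        rw [Pi.single_eq_of_ne hb, mul_zero]
      · intro hcon
        exact absurd (Finset.mem_univ _) hcon
    · rw [hL1, ← hy]
      change (∑ s, E i s * (Pi.single j 1 : Fin (n + 1) → Ω) s) = _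
      rw [Finset.sum_eq_single j]
      · rw [Pi.single_eq_same, mul_one, hE, if_pos rfl]
      · intro b _ hb
        rw [Pi.single_eq_of_ne hb, mul_zero]
      · intro hcon
        exact absurd (Finset.mem_univ _) hcon
  obtain ⟨c₁, hc₁⟩ : ∃ c₁, c₁ = act E c := ⟨_, rfl⟩
  have hV₁ : Van c₁ L 1 := by
    rw [hc₁, van_act]
    exact (vanp_congr hmv).2 hV
  have hS₁ : SingC c₁ L 1 := by
    rw [hc₁, singC_act hEE]
    intro i
    exact (vanp_congr hmv).2 (hS i)
  -- the vanishing coefficients
  obtain ⟨E1, hE1⟩ : ∃ E1 : ℕ → Fin (n + 1) →₀ ℕ, ∀ i, E1 i =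
      Finsupp.single 0 (d - i) + Finsupp.single j i := ⟨_, fun _ => rfl⟩
  obtain ⟨E2, hE2⟩ : ∃ E2 : ℕ × Fin (n + 1) → Fin (n + 1) →₀ ℕ, ∀ p, E2 p =
      Finsupp.single 0 (d - 1 - p.1) + Finsupp.single j p.1 + Finsupp.single p.2 1 :=
    ⟨_, fun _ => rfl⟩
  obtain ⟨S, hSd⟩ : ∃ S : Finset (Fin (n + 1)), S = (Finset.univ.erase 0).erase j := ⟨_, rfl⟩
  have hScard : S.card = n - 1 := by
    rw [hSd, Finset.card_erase_of_mem (Finset.mem_erase.2 ⟨hj, Finset.mem_univ _⟩),
      Finset.card_erase_of_mem (Finset.mem_univ _), Finset.card_univ, Fintype.card_fin]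
    omega
  have hSm : ∀ s ∈ S, s ≠ j ∧ s ≠ 0 := by
    intro s hs
    rw [hSd, Finset.mem_erase, Finset.mem_erase] at hs
    exact ⟨hs.1, hs.2.1⟩
  have hE1j : ∀ i, E1 i j = i := by
    intro i
    rw [hE1, Finsupp.add_apply, Finsupp.single_eq_of_ne hj, Finsupp.single_eq_same, zero_add]
  have hE2j : ∀ i, ∀ s ∈ S, E2 (i, s) j = i := by
    intro i s hs
    rw [hE2, Finsupp.add_apply, Finsupp.add_apply, Finsupp.single_eq_of_ne hj,
      Finsupp.single_eq_same, Finsupp.single_eq_of_ne (Ne.symm (hSm s hs).1), zero_add, add_zero]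
  have hE1s : ∀ i, ∀ s ∈ S, E1 i s = 0 := by
    intro i s hs
    rw [hE1, Finsupp.add_apply, Finsupp.single_eq_of_ne (hSm s hs).2,
      Finsupp.single_eq_of_ne (hSm s hs).1, add_zero]
  have hE2s : ∀ i s, ∀ s' ∈ S, E2 (i, s) s' = if s = s' then 1 else 0 := by
    intro i s s' hs'
    rw [hE2, Finsupp.add_apply, Finsupp.add_apply, Finsupp.single_eq_of_ne (hSm s' hs').2,
      Finsupp.single_eq_of_ne (hSm s' hs').1, zero_add, zero_add, Finsupp.single_apply]
  have hinj1 : Set.InjOn E1 (Finset.range (d + 1) : Set ℕ) := by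
    intro i _ i' _ h
    rw [← hE1j i, ← hE1j i', h]
  have hinj2 : Set.InjOn E2 ((Finset.range d ×ˢ S : Finset (ℕ × Fin (n + 1))) :
      Set (ℕ × Fin (n + 1))) := by
    rintro ⟨i, s⟩ hp ⟨i', s'⟩ hp' h
    rw [Finset.mem_coe, Finset.mem_product] at hp hp'
    have h2 : i = i' := by
      rw [← hE2j i s hp.2, ← hE2j i' s' hp'.2, h]
    have h3 : s = s' := by
      have h4 := hE2s i s s' hp'.2
      rw [h, hE2s i' s' s' hp'.2, if_pos rfl] at h4
      by_contra hcon
      rw [if_neg hcon] at h4
      exact one_ne_zero h4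
    rw [h2, h3]
  have hdis : Disjoint ((Finset.range (d + 1)).image E1) ((Finset.range d ×ˢ S).image E2) := by
    rw [Finset.disjoint_left]
    intro z hz hz'
    rw [Finset.mem_image] at hz hz'
    obtain ⟨i, -, rfl⟩ := hz
    obtain ⟨⟨i', s⟩, hp, h2⟩ := hz'
    rw [Finset.mem_product] at hp
    have h3 := hE2s i' s s hp.2
    rw [h2, hE1s i s hp.2, if_pos rfl] at h3
    exact zero_ne_one h3
  have hcard : ((Finset.range (d + 1)).image E1 ∪ (Finset.range d ×ˢ S).image E2).card =
      n * d + 1 := by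
    rw [Finset.card_union_of_disjoint hdis, Finset.card_image_of_injOn hinj1,
      Finset.card_image_of_injOn hinj2, Finset.card_product, Finset.card_range,
      Finset.card_range, hScard]
    obtain ⟨k, rfl⟩ : ∃ k, n = k + 1 := ⟨n - 1, by omega⟩
    rw [Nat.add_sub_cancel]
    ring
  have hrk := rk_vanish82 K c₁ ((Finset.range (d + 1)).image E1 ∪ (Finset.range d ×ˢ S).image E2)
    ?_ ?_
  · rw [hcard] at hrk
    have h2 : rk K (rg c ∪ rg (a 1)) ≤ rk K (rg c₁ ∪ rg (a 1)) := by
      refine rk_le_of_subset_cl K fun x hx => ?_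
      rcases Finset.mem_union.1 hx with hx | hx
      · unfold rg at hx
        rw [Finset.mem_image] at hx
        obtain ⟨m, -, rfl⟩ := hx
        have h3 : c = act E' c₁ := by
          rw [hc₁, act_act, hEE, act_one]
        have hyc : ∀ i, y i ∈ cl K (rg c₁ ∪ rg (a 1)) := by
          intro i
          refine subset_cl K _ _ (Finset.mem_union_right _ ?_)
          unfold rg
          rw [hy]
          exact Finset.mem_image_of_mem _ (Finset.mem_univ i)
        have h4 : act E' c₁ m ∈ cl K (rg c₁ ∪ rg (a 1)) := by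
          refine act_mem_cl (fun i s => ?_) (fun m => ?_) m
          · rw [hE']
            split_ifs
            · exact inv_mem (hyc j)
            · exact mul_mem (neg_mem (hyc i)) (inv_mem (hyc j))
            · exact one_mem _
            · exact zero_mem _
          · refine subset_cl K _ _ (Finset.mem_union_left _ ?_)
            unfold rg
            exact Finset.mem_image_of_mem _ (Finset.mem_univ m)
        rw [← h3] at h4
        exact h4
      · exact subset_cl K _ _ (Finset.mem_union_right _ hx)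
    have h3 := rk_union_le_card K (rg c₁) (rg (a 1))
    have h4 : (rg (a 1)).card ≤ n + 1 := by
      unfold rg
      refine le_trans Finset.card_image_le ?_
      rw [Finset.card_univ, Fintype.card_fin]
    omega
  · intro z hz
    rw [Finset.mem_union, Finset.mem_image, Finset.mem_image] at hz
    rcases hz with ⟨i, hi, rfl⟩ | ⟨⟨i, s⟩, hp, rfl⟩
    · rw [Finset.mem_range] at hi
      rw [hE1, map_add, Finsupp.degree_single, Finsupp.degree_single]
      omega
    · rw [Finset.mem_product, Finset.mem_range] at hp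
      rw [hE2, map_add, map_add, Finsupp.degree_single, Finsupp.degree_single,
        Finsupp.degree_single]
      have := hp.1
      change d - 1 - i + i + 1 = d
      change i < d at this
      omega
  · intro z hz
    rw [Finset.mem_union, Finset.mem_image, Finset.mem_image] at hz
    rcases hz with ⟨i, hi, rfl⟩ | ⟨⟨i, s⟩, hp, rfl⟩
    · rw [Finset.mem_range] at hi
      rw [hE1]
      exact coeff_of_vanp82 (fm_hom c₁) hj hL0 hL1 hV₁ i (by omega)
    · rw [Finset.mem_product, Finset.mem_range] at hp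
      have hi : i < d := hp.1
      have h2 := coeff_of_vanp82 (pderiv_fm_hom c₁ s) hj hL0 hL1 (hS₁ s) i (by omega)
      rw [coeff_pderiv, Finsupp.add_apply, Finsupp.single_eq_of_ne (hSm s hp.2).2,
        Finsupp.single_eq_of_ne (hSm s hp.2).1, add_zero, Nat.cast_zero, zero_add, mul_one] at h2
      rw [hE2]
      exact h2

end

end Pool.Agent.Helper30.RY
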