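import Mathlib
import Pool.Agent.Helper30.RY.Gen

/-!
# Block RY-GENB: values of polynomials at generic points

* `mem_cl_of_eval_mem` (the important one).  Let `E = cl K s`, `p` a polynomial over `Ω`, `T` a
  finite set containing all coefficients of `p`, `u` generic over `s ∪ T`, and `p(u) ∈ cl K (s ∪ rg u)`.
  Then all coefficients of `p` are in `E`.  Proof: there is a nonzero polynomial
  `Q(U, X)` over `E` with `Q(u, p(u)) = 0`, `Q(u, X) ≠ 0` (algebraicity of `p(u)` over `E(u)`; clear
  denominators), that is a polynomial `Q` in `X` with coefficients `Q_j` in `E[U]`, not all zero.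
  Since `u` is generic over `s ∪ T`, `Q(U, p(U)) = 0` as a polynomial in `U` (its coefficients are in
  `cl K (s ∪ T)`), by `eval_ne_zero_of_generic`.  Substitute `U = v` with `v` in `E^ι`:
  `Q(v, p(v)) = 0`; if `Q_{j₀} ≠ 0`, then for all `v ∈ E^ι` with `Q_{j₀}(v) ≠ 0` the element `p(v)`
  is a root of a nonzero polynomial over `E`, so `p(v) ∈ E`.  Now choose a basis `(e_β)` of `Ω` over
  `E` containing `1` and write `p = ∑ p_β e_β` with `p_β ∈ E[U]` (finite sum); for `e_β ≠ 1`,
  `p_β(v) = 0` whenever `Q_{j₀}(v) ≠ 0`, so `Q_{j₀} p_β` vanishes on `E^ι`, `E` is infinite (it is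
  algebraically closed: `Ω` is), hence `Q_{j₀} p_β = 0` and `p_β = 0`.  So `p = p_1` has
  coefficients in `E`.  (Instead of a basis: apply `E`-linear functionals of the quotient space
  `Ω / E` to the coefficients, `Module.forall_dual_apply_eq_zero_iff`.)
-/

namespace Pool.Agent.Helper30.RY

open MvPolynomial

variable {K : Type*} {Ω : Type*} [Field K] [Field Ω] [Algebra K Ω] [DecidableEq Ω]
  {s : Finset Ω} {ι : Type*} [Fintype ι]

omit [DecidableEq Ω] in
private theorem range_infinite52 [IsAlgClosed Ω] (s : Finset Ω) : Infinite (cl K s) := by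
  have h : Infinite (algebraicClosure (IntermediateField.adjoin K (s : Set Ω)) Ω) := by
    have : IsAlgClosed (algebraicClosure (IntermediateField.adjoin K (s : Set Ω)) Ω) :=
      (algebraicClosure.isAlgClosure (IntermediateField.adjoin K (s : Set Ω)) Ω).isAlgClosed
    infer_instance
  exact h

private theorem exists_rel52 {u : ι → Ω} (hu : AlgebraicIndependent (cl K s) u) {x : Ω}
    (hx : x ∈ cl K (s ∪ rg u)) :
    ∃ Q : Polynomial (MvPolynomial ι (cl K s)), Q ≠ 0 ∧
      Q.eval₂ ((aeval u : MvPolynomial ι (cl K s) →ₐ[cl K s] Ω) :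
        MvPolynomial ι (cl K s) →+* Ω) x = 0 := by
  rw [mem_cl_iff] at hx
  have hle : IntermediateField.adjoin K ((s ∪ rg u : Finset Ω) : Set Ω) ≤
      (IntermediateField.adjoin (cl K s) (Set.range u)).restrictScalars K := by
    rw [IntermediateField.adjoin_le_iff]
    intro y hy
    rw [Finset.coe_union, Set.mem_union] at hy
    rcases hy with hy | hy
    · have h1 : y ∈ cl K s := subset_cl K s y hy
      exact (IntermediateField.adjoin (cl K s) (Set.range u)).algebraMap_mem ⟨y, h1⟩
    · have h1 : y ∈ Set.range u := by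
        rw [rg, Finset.coe_image, Finset.coe_univ, Set.image_univ] at hy
        exact hy
      exact IntermediateField.subset_adjoin (cl K s) (Set.range u) h1
  have h2 : IsAlgebraic ((IntermediateField.adjoin (cl K s) (Set.range u)).restrictScalars K) x := by
    obtain ⟨P, hP, hPx⟩ := hx
    refine ⟨P.map (IntermediateField.inclusion hle : _ →+* _), ?_, ?_⟩
    · rwa [Ne, Polynomial.map_eq_zero]
    · rw [Polynomial.aeval_def, Polynomial.eval₂_map]
      rw [Polynomial.aeval_def] at hPx
      exact hPx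
  have h3 : IsAlgebraic (IntermediateField.adjoin (cl K s) (Set.range u)) x := h2
  have h4 : IsAlgebraic (Algebra.adjoin (cl K s) (Set.range u)) x := by
    open IntermediateField.algebraAdjoinAdjoin in
    exact (IsFractionRing.isAlgebraic_iff (Algebra.adjoin (cl K s) (Set.range u))
      (IntermediateField.adjoin (cl K s) (Set.range u)) Ω).mpr h3
  obtain ⟨P, hP, hPx⟩ := h4
  refine ⟨P.map (hu.aevalEquiv.symm : _ →+* _), ?_, ?_⟩
  · rwa [Ne, Polynomial.map_eq_zero_iff]
    exact hu.aevalEquiv.symm.injective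
  · rw [Polynomial.eval₂_map]
    rw [Polynomial.aeval_def] at hPx
    rw [← hPx]
    congr 1
    ext a
    have h5 := hu.algebraMap_aevalEquiv (hu.aevalEquiv.symm a)
    rw [AlgEquiv.apply_symm_apply] at h5
    exact h5.symm

omit [DecidableEq Ω] in
/-- polynomials with coefficients in `F` -/
private theorem mem_range52 {σ : Type*} (F : IntermediateField K Ω) (p : MvPolynomial σ Ω)
    (h : ∀ m, coeff m p ∈ F) : p ∈ (MvPolynomial.map (σ := σ) (algebraMap F Ω)).range := by
  have h2 : p ∈ Set.range (MvPolynomial.map (algebraMap F Ω)) := by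
    rw [MvPolynomial.mem_range_map_iff_coeffs_subset]
    intro y hy
    rw [Finset.mem_coe, MvPolynomial.mem_coeffs_iff] at hy
    obtain ⟨m, _, hm⟩ := hy
    exact ⟨⟨coeff m p, h m⟩, hm.symm⟩
  exact h2

omit [DecidableEq Ω] in
private theorem coeff_mem52 {σ : Type*} (E F : IntermediateField K Ω) (hle : E ≤ F)
    (Q : Polynomial (MvPolynomial σ E)) (p : MvPolynomial σ Ω) (h : ∀ m, coeff m p ∈ F)
    (m : σ →₀ ℕ) :
    coeff m (Q.eval₂ (MvPolynomial.map (algebraMap E Ω)) p) ∈ F := by
  classical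
  have h1 : Q.eval₂ (MvPolynomial.map (algebraMap E Ω)) p ∈
      (MvPolynomial.map (σ := σ) (algebraMap F Ω)).range := by
    rw [Polynomial.eval₂_eq_sum_range]
    refine Subring.sum_mem _ fun i _ => Subring.mul_mem _ ?_ (Subring.pow_mem _ ?_ _)
    · refine ⟨MvPolynomial.map (IntermediateField.inclusion hle : E →+* F) (Q.coeff i), ?_⟩
      rw [MvPolynomial.map_map]
      congr 1
    · exact mem_range52 F p h
  obtain ⟨R', hR'⟩ := h1
  rw [← hR', MvPolynomial.coeff_map]
  exact (coeff m R').2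

omit [DecidableEq Ω] [Algebra K Ω] [Field K] [Fintype ι] in
private theorem eval_eval52 {E : Type*} [Field E] [Algebra E Ω]
    (Q : Polynomial (MvPolynomial ι E)) (p : MvPolynomial ι Ω) (v : ι → Ω) :
    eval v (Q.eval₂ (MvPolynomial.map (algebraMap E Ω)) p) =
      Q.eval₂ ((aeval v : MvPolynomial ι E →ₐ[E] Ω) : MvPolynomial ι E →+* Ω) (eval v p) := by
  rw [Polynomial.hom_eval₂]
  congr 1
  ext a
  · simp
  · simp

omit [DecidableEq Ω] [Algebra K Ω] [Field K] [Fintype ι] in
private theorem alg_val52 {E : Type*} [Field E] [Algebra E Ω]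
    (Q : Polynomial (MvPolynomial ι E)) (p : MvPolynomial ι Ω)
    (hR : Q.eval₂ (MvPolynomial.map (algebraMap E Ω)) p = 0) (j : ℕ) (v : ι → E)
    (hv : eval v (Q.coeff j) ≠ 0) : IsAlgebraic E (eval (fun i => algebraMap E Ω (v i)) p) := by
  refine ⟨Q.map (eval v), ?_, ?_⟩
  · intro h0
    have h1 := congrArg (fun P => Polynomial.coeff P j) h0
    simp only [Polynomial.coeff_map, Polynomial.coeff_zero] at h1
    exact hv h1
  · rw [Polynomial.aeval_def, Polynomial.eval₂_map]
    have h1 := eval_eval52 Q p (fun i => algebraMap E Ω (v i))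
    rw [hR, map_zero] at h1
    rw [h1]
    congr 1
    ext a
    · simp
    · simp

omit [DecidableEq Ω] [Algebra K Ω] [Field K] [Fintype ι] in
private theorem functional52 {E : Type*} [Field E] [Infinite E] [Algebra E Ω]
    (q : MvPolynomial ι E) (hq : q ≠ 0) (p : MvPolynomial ι Ω)
    (h : ∀ v : ι → E, eval v q ≠ 0 →
      eval (fun i => algebraMap E Ω (v i)) p ∈ Set.range (algebraMap E Ω))
    (ψ : Ω →ₗ[E] E) (hψ : ∀ e : E, ψ (algebraMap E Ω e) = 0) (m : ι →₀ ℕ) :
    ψ (coeff m p) = 0 := by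
  classical
  set r : MvPolynomial ι E := ∑ m ∈ p.support, monomial m (ψ (coeff m p)) with hr
  have hrv : ∀ v : ι → E, eval v r = ψ (eval (fun i => algebraMap E Ω (v i)) p) := by
    intro v
    rw [hr, map_sum, MvPolynomial.eval_eq (fun i => algebraMap E Ω (v i)) p, map_sum]
    refine Finset.sum_congr rfl fun m _ => ?_
    have h1 : coeff m p * ∏ i ∈ m.support, (algebraMap E Ω (v i)) ^ m i =
        (∏ i ∈ m.support, (v i) ^ m i) • coeff m p := by
      rw [Algebra.smul_def, map_prod, mul_comm]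
      simp only [map_pow]
    rw [h1, map_smul, eval_monomial, smul_eq_mul, mul_comm, Finsupp.prod]
  have h1 : q * r = 0 := by
    apply MvPolynomial.funext
    intro v
    rw [map_mul, map_zero]
    by_cases hv : eval v q = 0
    · rw [hv, zero_mul]
    · obtain ⟨e, he⟩ := h v hv
      rw [hrv v, ← he, hψ, mul_zero]
  have h2 : r = 0 := (mul_eq_zero.mp h1).resolve_left hq
  by_cases hm : m ∈ p.support
  · have h3 : coeff m r = ψ (coeff m p) := by
      rw [hr, MvPolynomial.coeff_sum, Finset.sum_eq_single m]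
      · rw [coeff_monomial, if_pos rfl]
      · intro m' _ hne
        rw [coeff_monomial, if_neg hne]
      · intro h4
        exact absurd hm h4
    rw [← h3, h2, coeff_zero]
  · rw [MvPolynomial.notMem_support_iff.mp hm, map_zero]

omit [DecidableEq Ω] [Algebra K Ω] [Field K] [Fintype ι] in
private theorem coeff_range52 {E : Type*} [Field E] [Infinite E] [Algebra E Ω]
    (q : MvPolynomial ι E) (hq : q ≠ 0) (p : MvPolynomial ι Ω)
    (h : ∀ v : ι → E, eval v q ≠ 0 →
      eval (fun i => algebraMap E Ω (v i)) p ∈ Set.range (algebraMap E Ω)) (m : ι →₀ ℕ) :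
    coeff m p ∈ Set.range (algebraMap E Ω) := by
  have h1 : (LinearMap.range (Algebra.linearMap E Ω)).mkQ (coeff m p) = 0 := by
    rw [← Module.forall_dual_apply_eq_zero_iff E]
    intro φ
    refine functional52 q hq p h (φ ∘ₗ (LinearMap.range (Algebra.linearMap E Ω)).mkQ)
      (fun e => ?_) m
    have h2 : (LinearMap.range (Algebra.linearMap E Ω)).mkQ (algebraMap E Ω e) = 0 := by
      rw [Submodule.mkQ_apply, Submodule.Quotient.mk_eq_zero]
      exact ⟨e, rfl⟩
    rw [LinearMap.comp_apply, h2, map_zero]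
  rw [Submodule.mkQ_apply, Submodule.Quotient.mk_eq_zero] at h1
  obtain ⟨e, he⟩ := h1
  exact ⟨e, he⟩

theorem mem_cl_of_eval_mem [IsAlgClosed Ω] (p : MvPolynomial ι Ω) (T : Finset Ω)
    (hT : ∀ m, coeff m p ∈ cl K (s ∪ T)) (u : ι → Ω)
    (hu : rk K (s ∪ T ∪ rg u) = rk K (s ∪ T) + Fintype.card ι)
    (h : eval u p ∈ cl K (s ∪ rg u)) (m : ι →₀ ℕ) : coeff m p ∈ cl K s := by
  have hs1 : rk K (s ∪ rg u) = rk K s + Fintype.card ι :=
    generic_of_subset_cl hu (fun x hx => subset_cl K _ x (Finset.mem_union_left _ hx))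
  obtain ⟨Q, hQ, hQx⟩ := exists_rel52 (algInd_of_generic hs1) h
  have hEle : cl K s ≤ cl K (s ∪ T) := cl_mono K Finset.subset_union_left
  have hR0 : Q.eval₂ (MvPolynomial.map (algebraMap (cl K s) Ω)) p = 0 := by
    by_contra hne
    refine eval_ne_zero_of_generic hu _ hne (coeff_mem52 _ _ hEle Q p hT) ?_
    rw [eval_eval52, hQx]
  obtain ⟨j, hj⟩ : ∃ j, Q.coeff j ≠ 0 := by
    by_contra hcon
    push Not at hcon
    exact hQ (Polynomial.ext fun n => by rw [hcon n, Polynomial.coeff_zero])
  have hinf := range_infinite52 (K := K) s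
  obtain ⟨e, he⟩ := coeff_range52 (Q.coeff j) hj p (fun v hv =>
    ⟨⟨_, mem_cl_of_isAlgebraic K (alg_val52 Q p hR0 j v hv)⟩, rfl⟩) m
  rw [← he]
  exact e.2

end Pool.Agent.Helper30.RY
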