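import Mathlib
import Pool.Agent.Helper30.RY.GenB
import Pool.Agent.Helper30.RY.Cur

/-!
# Block RY-LFV: forms vanishing at a point of large transcendence degree

* `card_mon`: the number of monomials of degree `d` in `n + 1` variables is `(n + d).choose d`
  (`Sym.card_sym_eq_choose`/`Sym.card_sym_fin_eq_multichoose` via `Finsupp.toMultiset`/`Sym` equivalence,
  or an induction).
* `lfv`: `c` a form of degree `i` in `k + 1` variables, `y` a point with `eval y (fm c) = 0`, `S` a finite set.
  Suppose `rk (S ∪ rg y) ≤ rk S + w` and `rk (S ∪ rg c) + w ≤ rk (S ∪ rg c ∪ rg y)` (`y` is independent of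
  `c` over `S`).  Claim: `rk (S ∪ rg c) + (number of monomials of degree i in w variables) ≤ rk S + card`.
  Proof.  Choose `w` indices `J ⊆ Fin (k+1)` such that the `y j`, `j ∈ J`, are generic over `S ∪ rg c` (add
  coordinates of `y` one after the other, `exists_notMem_cl`); then `rk (S ∪ {y j, j ∈ J}) = rk S + w`, so
  all `y i ∈ cl K (S ∪ {y j, j ∈ J})`.  Let `M` be the set of exponents supported in `J`, let
  `S' = S ∪ {c m : m ∉ M}`, and `p = ∑_{m ∈ M} c m U^m`, a polynomial in the variables `U_j`, `j ∈ J`.  Then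
  `p(y_J) = - ∑_{m ∉ M} c m y^m ∈ cl K (S' ∪ {y j, j ∈ J})`, and `y_J` is generic over `S' ∪ rg c`
  (contained in `S ∪ rg c`), so `mem_cl_of_eval_mem` gives `c m ∈ cl K S'` for all `m ∈ M`.  So
  `rk (S ∪ rg c) ≤ rk S' ≤ rk S + (card - card M)`, and `card M = (w + i - 1).choose i` for `w ≥ 1`
  (`card_mon` for `w` variables, bijection `J ≃ Fin w`).
-/

namespace Pool.Agent.Helper30.RY

open MvPolynomial

theorem card_mon (n d : ℕ) : Fintype.card (Mon n d) = (n + d).choose d := by
  classical
  have e : Sym (Fin (n + 1)) d ≃ Mon n d := by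
    refine (Sym.equivNatSum (Fin (n + 1)) d).trans (Equiv.subtypeEquivRight fun m => ?_)
    rfl
  rw [← Fintype.card_congr e, Sym.card_sym_fin_eq_multichoose, Nat.multichoose_eq]
  congr 1
  omega

section

variable {K : Type*} [Field K] {Ω : Type*} [Field Ω] [Algebra K Ω] [DecidableEq Ω]

private theorem greedy23 {ι : Type*} [Fintype ι] (T : Finset Ω) (y : ι → Ω) (n : ℕ)
    (h : rk K T + n ≤ rk K (T ∪ rg y)) :
    ∃ g : Fin n → ι, rk K (T ∪ rg (y ∘ g)) = rk K T + n := by
  induction n with
  | zero =>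
    refine ⟨fun i => i.elim0, ?_⟩
    have e : rg (y ∘ fun i : Fin 0 => (i.elim0 : ι)) = ∅ := rfl
    rw [e, Finset.union_empty, Nat.add_zero]
  | succ n ih =>
    obtain ⟨g, hg⟩ := ih (by omega)
    have h1 : rk K (T ∪ rg (y ∘ g)) < rk K (T ∪ rg (y ∘ g) ∪ rg y) := by
      have h2 : rk K (T ∪ rg y) ≤ rk K (T ∪ rg (y ∘ g) ∪ rg y) :=
        rk_mono K (Finset.union_subset_union_left Finset.subset_union_left)
      omega
    obtain ⟨x, hx, hx'⟩ := exists_notMem_cl K h1
    obtain ⟨j, _, rfl⟩ := Finset.mem_image.1 hx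
    refine ⟨Fin.snoc g j, ?_⟩
    have e : rg (y ∘ (Fin.snoc g j : Fin (n + 1) → ι)) = insert (y j) (rg (y ∘ g)) := by
      ext z
      simp only [rg, Finset.mem_image, Finset.mem_univ, true_and, Finset.mem_insert,
        Function.comp]
      constructor
      · rintro ⟨i, rfl⟩
        refine Fin.lastCases ?_ (fun j => ?_) i
        · left; rw [Fin.snoc_last]
        · right; exact ⟨j, by rw [Fin.snoc_castSucc]⟩
      · rintro (rfl | ⟨j, rfl⟩)
        · exact ⟨Fin.last n, by rw [Fin.snoc_last]⟩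
        · exact ⟨j.castSucc, by rw [Fin.snoc_castSucc]⟩
    rw [e, Finset.union_insert, rk_insert_of_notMem K hx', hg]
    ring

/-- the transport of monomials along an injection of the variables -/
private noncomputable def phi23 {w k : ℕ} (i : ℕ) (g : Fin (w + 1) → Fin (k + 1)) (m : Mon w i) :
    Mon k i :=
  ⟨m.1.mapDomain g, by rw [Finsupp.degree_mapDomain]; exact m.2⟩

private theorem phi23_inj {w k : ℕ} (i : ℕ) {g : Fin (w + 1) → Fin (k + 1)}
    (hg : Function.Injective g) : Function.Injective (phi23 i g) := by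
  intro m m' h
  have h1 := congrArg Subtype.val h
  exact Subtype.ext (Finsupp.mapDomain_injective hg h1)

omit [DecidableEq Ω] in
private theorem evmon23 {w k i : ℕ} (g : Fin (w + 1) → Fin (k + 1)) (y : Fin (k + 1) → Ω)
    (m : Mon w i) (x : Ω) :
    eval (y ∘ g) (monomial m.1 x) = eval y (monomial (phi23 i g m).1 x) := by
  rw [eval_monomial, eval_monomial]
  congr 1
  change _ = (m.1.mapDomain g).prod fun n e => y n ^ e
  rw [Finsupp.prod_mapDomain_index (fun _ => pow_zero _) (fun _ _ _ => pow_add _ _ _)]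
  rfl

omit [DecidableEq Ω] in
private theorem evmem23 {k : ℕ} (F : IntermediateField K Ω) (y : Fin (k + 1) → Ω)
    (hy : ∀ j, y j ∈ F) (m : Fin (k + 1) →₀ ℕ) (x : Ω) (hx : x ∈ F) :
    eval y (monomial m x) ∈ F := by
  rw [eval_monomial]
  exact mul_mem hx (prod_mem fun j _ => pow_mem (hy j) _)

end

theorem lfv {K : Type*} [Field K] {Ω : Type*} [Field Ω] [Algebra K Ω] [IsAlgClosed Ω]
    [DecidableEq Ω] {k i w : ℕ} (c : Mon k i → Ω) (y : Fin (k + 1) → Ω) (S : Finset Ω)
    (h0 : eval y (fm c) = 0) (h1 : rk K (S ∪ rg y) ≤ rk K S + (w + 1))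
    (h2 : rk K (S ∪ rg c) + (w + 1) ≤ rk K (S ∪ rg c ∪ rg y)) :
    rk K (S ∪ rg c) + (w + i).choose i ≤ rk K S + Fintype.card (Mon k i) := by
  classical
  obtain ⟨g, hg⟩ := greedy23 (S ∪ rg c) y (w + 1) h2
  have hg' : rk K (S ∪ rg c ∪ rg (y ∘ g)) = rk K (S ∪ rg c) + Fintype.card (Fin (w + 1)) := by
    rw [hg, Fintype.card_fin]
  have hinj : Function.Injective g := (generic_injective hg').of_comp
  have hS : rk K (S ∪ rg (y ∘ g)) = rk K S + Fintype.card (Fin (w + 1)) :=
    generic_of_subset_cl hg' fun x hx => subset_cl K _ x (Finset.mem_union_left _ hx)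
  have hsub : rg (y ∘ g) ⊆ rg y := by
    intro x hx
    obtain ⟨j, _, rfl⟩ := Finset.mem_image.1 hx
    exact Finset.mem_image.2 ⟨g j, Finset.mem_univ _, rfl⟩
  have hy : ∀ j, y j ∈ cl K (S ∪ rg (y ∘ g)) := by
    intro j
    refine subset_cl_of_rk_le K (s := S ∪ rg (y ∘ g)) (t := rg y) ?_ (y j)
      (Finset.mem_image.2 ⟨j, Finset.mem_univ _, rfl⟩)
    rw [hS, Fintype.card_fin, Finset.union_assoc, Finset.union_eq_right.2 hsub]
    exact h1
  -- the complement
  set R : Finset (Mon k i) := Finset.univ \ Finset.univ.image (phi23 i g) with hR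
  set S' : Finset Ω := S ∪ R.image c with hS'
  have hRc : R.image c ⊆ rg c := Finset.image_subset_image (Finset.subset_univ _)
  have hS'c : S' ∪ rg c = S ∪ rg c := by
    rw [hS', Finset.union_assoc, Finset.union_eq_right.2 hRc]
  set p : MvPolynomial (Fin (w + 1)) Ω := fm fun m : Mon w i => c (phi23 i g m) with hp
  have hev : eval (y ∘ g) p = - ∑ m ∈ R, eval y (monomial m.1 (c m)) := by
    have e1 : eval (y ∘ g) p =
        ∑ m ∈ Finset.univ.image (phi23 i g), eval y (monomial m.1 (c m)) := by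
      rw [Finset.sum_image (fun (m : Mon w i) _ m' _ h => phi23_inj i hinj h), hp]
      unfold fm
      rw [map_sum]
      exact Finset.sum_congr rfl fun m _ => evmon23 g y m _
    have e2 := h0
    unfold fm at e2
    rw [map_sum, ← Finset.sum_sdiff (Finset.subset_univ (Finset.univ.image (phi23 i g)))] at e2
    rw [e1, hR]
    exact eq_neg_of_add_eq_zero_right e2
  have hmem : eval (y ∘ g) p ∈ cl K (S' ∪ rg (y ∘ g)) := by
    rw [hev]
    refine neg_mem (sum_mem fun m hm => ?_)
    refine evmem23 _ y (fun j => ?_) m.1 (c m) ?_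
    · exact cl_mono K (Finset.union_subset_union_left Finset.subset_union_left) (hy j)
    · exact subset_cl K _ _ (Finset.mem_union_left _ (Finset.mem_union_right _
        (Finset.mem_image.2 ⟨m, hm, rfl⟩)))
  have hT : ∀ m, coeff m p ∈ cl K (S' ∪ rg c) := by
    intro m
    by_cases hm : m.degree = i
    · have e := coeff_fm (fun m : Mon w i => c (phi23 i g m)) (⟨m, hm⟩ : Mon w i)
      change coeff m p = _ at e
      rw [e]
      exact subset_cl K _ _ (Finset.mem_union_right _
        (Finset.mem_image.2 ⟨_, Finset.mem_univ _, rfl⟩))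
    · rw [hp, (fm_hom _).coeff_eq_zero hm]
      exact zero_mem _
  have hu : rk K (S' ∪ rg c ∪ rg (y ∘ g)) = rk K (S' ∪ rg c) + Fintype.card (Fin (w + 1)) := by
    rw [hS'c]
    exact hg'
  have hc : ∀ m : Mon k i, c m ∈ cl K S' := by
    intro m
    by_cases hm : m ∈ R
    · exact subset_cl K _ _ (Finset.mem_union_right _ (Finset.mem_image.2 ⟨m, hm, rfl⟩))
    · have hm' : m ∈ Finset.univ.image (phi23 i g) := by
        by_contra hcon
        exact hm (Finset.mem_sdiff.2 ⟨Finset.mem_univ _, hcon⟩)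
      obtain ⟨m₀, _, rfl⟩ := Finset.mem_image.1 hm'
      have e := mem_cl_of_eval_mem (K := K) (s := S') p (rg c) hT (y ∘ g) hu hmem m₀.1
      have e' := coeff_fm (fun m : Mon w i => c (phi23 i g m)) m₀
      rw [hp, e'] at e
      exact e
  have hfin : rk K (S ∪ rg c) ≤ rk K S' := by
    refine rk_le_of_subset_cl K fun x hx => ?_
    rcases Finset.mem_union.1 hx with hx | hx
    · exact subset_cl K _ _ (Finset.mem_union_left _ hx)
    · obtain ⟨m, _, rfl⟩ := Finset.mem_image.1 hx
      exact hc m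
  have h3 := rk_union_le_card K S (R.image c)
  rw [← hS'] at h3
  have h4 : (R.image c).card ≤ R.card := Finset.card_image_le
  have h5 : R.card = Fintype.card (Mon k i) - (w + i).choose i := by
    rw [hR, Finset.card_sdiff_of_subset (Finset.subset_univ _),
      Finset.card_image_of_injective _ (phi23_inj i hinj), Finset.card_univ, Finset.card_univ,
      card_mon w i]
  have h6 : (w + i).choose i ≤ Fintype.card (Mon k i) := by
    rw [← card_mon w i]
    exact Fintype.card_le_of_injective _ (phi23_inj i hinj)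
  omega

end Pool.Agent.Helper30.RY
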