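import Mathlib
import Pool.Agent.Helper30.RY.Nlb

/-!
# Block RY-MOV: moving the point to `e₀ = (1, 0, ..., 0)`

Let `Van c a e`, `a 0 ≠ 0`.  Choose `j` with `a 0 j ≠ 0` and let `z i = a 0 i / a 0 j`, `z j = 1`.  Let `h` be
the matrix with columns `h e₀ = z`, `h e_j = e₀` (if `j ≠ 0`), `h e_i = e_i` for `i ≠ 0, j`; it is
invertible (`Matrix.det`, or write down the inverse `g`: the entries of `g` are polynomials in those
of `z`), all entries of `h` and `g` are in `cl K (rg z)`.  Put `c₁ = act h c`, `a₁ l = (a 0 j)⁻¹ g (a l)`.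
* `a₁ 0 = g z = e₀`; `Van c₁ a₁ e` (`van_act`, `h (a₁ l) = (a 0 j)⁻¹ a l`, `vanp_smul`); `rho c₁ a₁ e = rho c a e`
  (`rho_act`, and `rho` is invariant under scaling of `a` by a nonzero constant); the same for
  `SingP` (`singP_act`; the partial derivatives are homogeneous).
* `NL c₁ → NL c`: `nl_act`.
* `rk (rg c) ≤ rk (rg c ∪ rg z) = rk (rg c₁ ∪ rg z) ≤ rk (rg c₁) + n`: `z` has at most `n` coordinates
  different from `z j = 1` and `1 ∈ cl K ∅`.
* the last claim: with `Z = rg z`, the sets `rg c ∪ rga a e` and `rg c₁ ∪ rga a₁ e ∪ rg (a 0)` have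
  the same `cl`, and so do `rg c ∪ rg (a 0)` and `rg c₁ ∪ rg (a 0)`.  So
  `rk (rg c ∪ rga a e) - rk (rg c ∪ rg (a 0)) = rk (rg c₁ ∪ rg (a 0) ∪ rga a₁ e) - rk (rg c₁ ∪ rg (a 0))
   ≤ rk (rg c₁ ∪ rga a₁ e) - rk (rg c₁)` (`rk_submod`).
-/

namespace Pool.Agent.Helper30.RY

open MvPolynomial

variable {K : Type*} [Field K] {Ω : Type*} [Field Ω] [Algebra K Ω] [DecidableEq Ω] {n d : ℕ}

omit [DecidableEq Ω] in
private theorem aev80 {q : ℕ} {f : MvPolynomial (Fin (n + 1)) Ω} (hf : f.IsHomogeneous q) (t : Ω)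
    (z : Fin (n + 1) → Ω) : eval (fun i => t * z i) f = t ^ q * eval z f := by
  rw [eval_eq', eval_eq', Finset.mul_sum]
  refine Finset.sum_congr rfl fun m hm => ?_
  have h1 : m.degree = q := by
    by_contra hcon
    exact (mem_support_iff.mp hm) (hf.coeff_eq_zero hcon)
  have h2 : ∏ i, (t * z i) ^ m i = t ^ q * ∏ i, z i ^ m i := by
    simp only [mul_pow]
    rw [Finset.prod_mul_distrib, Finset.prod_pow_eq_pow_sum]
    congr 2
    rw [← h1, Finsupp.degree_eq_sum]
  rw [h2]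
  ring

omit [DecidableEq Ω] in
private theorem singP_smul80 (c : Mon n d → Ω) {t : Ω} (ht : t ≠ 0) (z : Fin (n + 1) → Ω) :
    SingP c (fun i => t * z i) ↔ SingP c z := by
  unfold SingP
  refine forall_congr' fun i => ?_
  rw [aev80 (pderiv_fm_hom c i), mul_eq_zero, or_iff_right (pow_ne_zero _ ht)]

omit [DecidableEq Ω] in
private theorem singC_smul80 (c : Mon n d → Ω) {t : Ω} (ht : t ≠ 0) (a : ℕ → Fin (n + 1) → Ω)
    (e : ℕ) : SingC c (fun l i => t * a l i) e ↔ SingC c a e := by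
  constructor
  · intro h i
    have h1 := vanp_smul (pderiv_fm_hom c i) t⁻¹ (h i)
    simp only [inv_mul_cancel_left₀ ht] at h1
    exact h1
  · intro h i
    exact vanp_smul (pderiv_fm_hom c i) t (h i)

omit [DecidableEq Ω] in
private theorem rho_smul80 (c : Mon n d → Ω) {t : Ω} (ht : t ≠ 0) (a : ℕ → Fin (n + 1) → Ω)
    (e : ℕ) : rho c (fun l i => t * a l i) e = rho c a e := by
  unfold rho
  have h1 : (SingP c (fun i => t * a 0 i) ∧ ¬ SingC c (fun l i => t * a l i) e) ↔
      (SingP c (a 0) ∧ ¬ SingC c a e) := by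
    rw [singP_smul80 c ht, singC_smul80 c ht]
  by_cases h2 : SingP c (a 0) ∧ ¬ SingC c a e
  · rw [if_pos h2, if_pos (h1.2 h2)]
  · rw [if_neg h2, if_neg (fun h3 => h2 (h1.1 h3))]

omit [DecidableEq Ω] in
private theorem mulVec_mem80 {s : Finset Ω} {g : Matrix (Fin (n + 1)) (Fin (n + 1)) Ω}
    {v : Fin (n + 1) → Ω} (hg : ∀ i j, g i j ∈ cl K s) (hv : ∀ i, v i ∈ cl K s)
    (i : Fin (n + 1)) : g.mulVec v i ∈ cl K s := by
  rw [Matrix.mulVec, dotProduct]
  exact sum_mem fun j _ => mul_mem (hg i j) (hv j)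

omit [DecidableEq Ω] in
/-- the matrices which move the point `z` with `z j = 1` to `e₀` -/
private theorem mats80 (z : Fin (n + 1) → Ω) (j : Fin (n + 1)) (hz : z j = 1) :
    ∃ h g : Matrix (Fin (n + 1)) (Fin (n + 1)) Ω, h * g = 1 ∧ g * h = 1 ∧
      h.mulVec (Pi.single 0 1) = z ∧
      ∀ s : Finset Ω, (∀ i, i ≠ j → z i ∈ cl K s) →
        (∀ i k, h i k ∈ cl K s) ∧ ∀ i k, g i k ∈ cl K s := by
  classical
  obtain ⟨σ, hσ⟩ : ∃ σ : Equiv.Perm (Fin (n + 1)), σ = Equiv.swap 0 j := ⟨_, rfl⟩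
  have hσσ : ∀ i, σ (σ i) = i := by
    intro i
    rw [hσ]
    exact Equiv.swap_apply_self 0 j i
  have hσ0 : σ 0 = j := by
    rw [hσ]
    exact Equiv.swap_apply_left 0 j
  obtain ⟨u, hu⟩ : ∃ u : Fin (n + 1) → Ω, u = fun i => z (σ i) - (Pi.single 0 1 : Fin (n + 1) → Ω) i :=
    ⟨_, rfl⟩
  have hu0 : u 0 = 0 := by
    rw [hu]
    simp only [hσ0, hz, Pi.single_eq_same, sub_self]
  obtain ⟨N, hN⟩ : ∃ N : Matrix (Fin (n + 1)) (Fin (n + 1)) Ω,
      N = Matrix.of fun i k => u i * (Pi.single 0 1 : Fin (n + 1) → Ω) k := ⟨_, rfl⟩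
  have hNN : N * N = 0 := by
    ext i k
    rw [Matrix.mul_apply, Finset.sum_eq_single 0]
    · rw [hN, Matrix.of_apply, Matrix.of_apply, hu0, zero_mul, mul_zero, Matrix.zero_apply]
    · intro b _ hb
      rw [hN, Matrix.of_apply, Pi.single_eq_of_ne hb, mul_zero, zero_mul]
    · intro h0
      exact absurd (Finset.mem_univ _) h0
  have h1 : (1 + N) * (1 - N) = 1 := by
    rw [mul_sub, mul_one, add_mul, one_mul, hNN, add_zero, add_sub_cancel_right]
  have h2 : (1 - N) * (1 + N) = 1 := by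
    rw [mul_add, mul_one, sub_mul, one_mul, hNN, sub_zero, sub_add_cancel]
  have hu1 : ∀ s : Finset Ω, (∀ i, i ≠ j → z i ∈ cl K s) → ∀ i, u i ∈ cl K s := by
    intro s hs i
    rw [hu]
    refine sub_mem ?_ ?_
    · by_cases hi : σ i = j
      · rw [hi, hz]
        exact one_mem _
      · exact hs _ hi
    · by_cases hi : i = 0
      · rw [hi, Pi.single_eq_same]
        exact one_mem _
      · rw [Pi.single_eq_of_ne hi]
        exact zero_mem _
  have hN1 : ∀ s : Finset Ω, (∀ i, i ≠ j → z i ∈ cl K s) → ∀ i k, N i k ∈ cl K s := by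
    intro s hs i k
    rw [hN, Matrix.of_apply]
    refine mul_mem (hu1 s hs i) ?_
    by_cases hk : k = 0
    · rw [hk, Pi.single_eq_same]
      exact one_mem _
    · rw [Pi.single_eq_of_ne hk]
      exact zero_mem _
  have hone : ∀ (s : Finset Ω) (i k : Fin (n + 1)),
      (1 : Matrix (Fin (n + 1)) (Fin (n + 1)) Ω) i k ∈ cl K s := by
    intro s i k
    rw [Matrix.one_apply]
    split_ifs
    · exact one_mem _
    · exact zero_mem _
  refine ⟨(1 + N).submatrix σ (Equiv.refl _), (1 - N).submatrix (Equiv.refl _) σ, ?_, ?_, ?_, ?_⟩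
  · rw [Matrix.submatrix_mul_equiv, h1, Matrix.submatrix_one_equiv]
  · rw [Matrix.submatrix_mul_equiv, h2, Matrix.submatrix_one_equiv]
  · funext i
    rw [Matrix.mulVec_single_one]
    show (1 + N) (σ i) 0 = z i
    rw [Matrix.add_apply, hN, Matrix.of_apply, hu, Matrix.one_apply]
    simp only [hσσ, Pi.single_eq_same, mul_one]
    by_cases hi : σ i = 0
    · rw [if_pos hi, hi, Pi.single_eq_same]
      ring
    · rw [if_neg hi, Pi.single_eq_of_ne hi]
      ring
  · intro s hs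
    refine ⟨fun i k => ?_, fun i k => ?_⟩
    · show (1 + N) (σ i) k ∈ cl K s
      rw [Matrix.add_apply]
      exact add_mem (hone s _ _) (hN1 s hs _ _)
    · show (1 - N) i (σ k) ∈ cl K s
      rw [Matrix.sub_apply]
      exact sub_mem (hone s _ _) (hN1 s hs _ _)

theorem exists_move (hb : Big K Ω) (c : Mon n d → Ω) (a : ℕ → Fin (n + 1) → Ω) (e : ℕ)
    (h0 : a 0 ≠ 0) (hV : Van c a e) :
    ∃ (c₁ : Mon n d → Ω) (a₁ : ℕ → Fin (n + 1) → Ω), a₁ 0 = Pi.single 0 1 ∧ Van c₁ a₁ e ∧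
      rho c₁ a₁ e = rho c a e ∧ (SingP c₁ (a₁ 0) ↔ SingP c (a 0)) ∧
      (∀ m e, NL K m e c₁ → NL K m e c) ∧
      rk K (rg c) ≤ rk K (rg c₁) + n ∧
      rk K (rg c ∪ rga a e) + rk K (rg c₁) ≤ rk K (rg c ∪ rg (a 0)) + rk K (rg c₁ ∪ rga a₁ e) := by
  obtain ⟨j, hj⟩ : ∃ j, a 0 j ≠ 0 := by
    by_contra hcon
    push Not at hcon
    exact h0 (funext hcon)
  obtain ⟨t, ht⟩ : ∃ t, t = (a 0 j)⁻¹ := ⟨_, rfl⟩
  have ht0 : t ≠ 0 := by
    rw [ht]
    exact inv_ne_zero hj
  obtain ⟨z, hz⟩ : ∃ z : Fin (n + 1) → Ω, z = fun i => t * a 0 i := ⟨_, rfl⟩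
  have hzj : z j = 1 := by
    rw [hz, ht]
    exact inv_mul_cancel₀ hj
  obtain ⟨h, g, hhg, hgh, he0, hcl⟩ := mats80 (K := K) z j hzj
  have hgz : g.mulVec z = Pi.single 0 1 := by
    rw [← he0, Matrix.mulVec_mulVec, hgh, Matrix.one_mulVec]
  -- the new curve
  have hha : ∀ l, h.mulVec (fun i => t * g.mulVec (a l) i) = fun i => t * a l i := by
    intro l
    have h1 : (fun i => t * g.mulVec (a l) i) = t • g.mulVec (a l) := rfl
    rw [h1, Matrix.mulVec_smul, Matrix.mulVec_mulVec, hhg, Matrix.one_mulVec]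
    rfl
  have ha0 : (fun i => t * g.mulVec (a 0) i) = Pi.single 0 1 := by
    have h1 : (fun i => t * g.mulVec (a 0) i) = t • g.mulVec (a 0) := rfl
    have h2 : z = t • a 0 := hz
    rw [h1, ← Matrix.mulVec_smul, ← h2, hgz]
  have hinv : act g (act h c) = c := by
    rw [act_act, hhg, act_one]
  have hfun : (fun l => h.mulVec (fun i => t * g.mulVec (a l) i)) = fun l i => t * a l i := funext hha
  -- membership in closures
  have hZ : ∀ i, i ≠ j → z i ∈ cl K ((Finset.univ.erase j).image z) := fun i hi =>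
    subset_cl K _ _ (Finset.mem_image_of_mem _ (Finset.mem_erase.2 ⟨hi, Finset.mem_univ i⟩))
  have hta : t ∈ cl K (rg (a 0)) := by
    rw [ht]
    exact inv_mem (subset_cl K _ _ (Finset.mem_image_of_mem _ (Finset.mem_univ j)))
  have hta' : t⁻¹ ∈ cl K (rg (a 0)) := inv_mem hta
  have hza : ∀ i, i ≠ j → z i ∈ cl K (rg (a 0)) := by
    intro i _
    rw [hz]
    exact mul_mem hta (subset_cl K _ _ (Finset.mem_image_of_mem _ (Finset.mem_univ i)))
  refine ⟨act h c, fun l i => t * g.mulVec (a l) i, ha0, ?_, ?_, ?_, ?_, ?_, ?_⟩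
  · rw [van_act]
    show Van c (fun l => h.mulVec (fun i => t * g.mulVec (a l) i)) e
    rw [hfun]
    exact vanp_smul (fm_hom c) t hV
  · rw [rho_act hhg]
    show rho c (fun l => h.mulVec (fun i => t * g.mulVec (a l) i)) e = rho c a e
    rw [hfun, rho_smul80 c ht0]
  · rw [singP_act hhg]
    show SingP c (h.mulVec (fun i => t * g.mulVec (a 0) i)) ↔ SingP c (a 0)
    rw [hha 0, singP_smul80 c ht0]
  · intro m e' hNL
    exact nl_act hb hhg hNL
  · -- the rank of `c`
    have h1 : rk K (rg c) ≤ rk K (rg (act h c) ∪ (Finset.univ.erase j).image z) := by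
      refine rk_le_of_subset_cl K fun x hx => ?_
      obtain ⟨m, _, rfl⟩ := Finset.mem_image.1 hx
      have e1 : c m = act g (act h c) m := by rw [hinv]
      rw [e1]
      have h2 := (hcl _ hZ).2
      exact act_mem_cl (fun i k => cl_mono K Finset.subset_union_right (h2 i k))
        (fun m => subset_cl K _ _ (Finset.mem_union_left _
          (Finset.mem_image_of_mem _ (Finset.mem_univ m)))) m
    refine h1.trans ((rk_union_le_card K _ _).trans ?_)
    have h3 : ((Finset.univ.erase j).image z).card ≤ n := by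
      refine Finset.card_image_le.trans ?_
      rw [Finset.card_erase_of_mem (Finset.mem_univ j), Finset.card_univ, Fintype.card_fin]
      exact le_rfl
    omega
  · -- the last claim
    have h1 := rk_submod K (rg (act h c)) (rga (fun l i => t * g.mulVec (a l) i) e) (rg (a 0))
    have h2 := hcl _ hza
    have h3 : rk K (rg c ∪ rga a e) ≤
        rk K (rg (act h c) ∪ rga (fun l i => t * g.mulVec (a l) i) e ∪ rg (a 0)) := by
      refine rk_le_of_subset_cl K fun x hx => ?_
      have hZs : ∀ y, y ∈ cl K (rg (a 0)) → y ∈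
          cl K (rg (act h c) ∪ rga (fun l i => t * g.mulVec (a l) i) e ∪ rg (a 0)) := fun y hy =>
        cl_mono K Finset.subset_union_right hy
      rcases Finset.mem_union.1 hx with hx | hx
      · obtain ⟨m, _, rfl⟩ := Finset.mem_image.1 hx
        have e1 : c m = act g (act h c) m := by rw [hinv]
        rw [e1]
        refine act_mem_cl (fun i k => hZs _ (h2.2 i k)) (fun m => ?_) m
        exact subset_cl K _ _ (Finset.mem_union_left _ (Finset.mem_union_left _
          (Finset.mem_image_of_mem _ (Finset.mem_univ m))))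
      · obtain ⟨l, hl, hx⟩ := Finset.mem_biUnion.1 hx
        obtain ⟨i, _, rfl⟩ := Finset.mem_image.1 hx
        have h4 : a l i = t⁻¹ * h.mulVec (fun i => t * g.mulVec (a l) i) i := by
          rw [hha l]
          exact (inv_mul_cancel_left₀ ht0 _).symm
        rw [h4]
        refine mul_mem (hZs _ hta') (mulVec_mem80 (fun i k => hZs _ (h2.1 i k)) (fun i => ?_) i)
        refine subset_cl K _ _ (Finset.mem_union_left _ (Finset.mem_union_right _ ?_))
        exact Finset.mem_biUnion.2 ⟨l, hl, Finset.mem_image_of_mem _ (Finset.mem_univ i)⟩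
    have h5 : rk K (rg (act h c) ∪ rg (a 0)) ≤ rk K (rg c ∪ rg (a 0)) := by
      refine rk_le_of_subset_cl K fun x hx => ?_
      rcases Finset.mem_union.1 hx with hx | hx
      · obtain ⟨m, _, rfl⟩ := Finset.mem_image.1 hx
        refine act_mem_cl (fun i k => cl_mono K Finset.subset_union_right (h2.1 i k))
          (fun m => ?_) m
        exact subset_cl K _ _ (Finset.mem_union_left _
          (Finset.mem_image_of_mem _ (Finset.mem_univ m)))
      · exact subset_cl K _ _ (Finset.mem_union_right _ hx)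
    omega

end Pool.Agent.Helper30.RY
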