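import Mathlib
import Pool.Agent.Helper30.RY.Gia
import Pool.Agent.Helper30.RY.Lfv
import Pool.Agent.Helper30.RY.Mov

/-!
# Block RY-EXC: forms with too many lines through a point

`n = k + 1`.  `lines_excess`: let `C_i` (`0 ≤ i ≤ d`) be the finset of the coefficients `c m` with
`d - i ≤ m 0` (the coefficients of `g_0, ..., g_i`), `Y` the finset of the `y' j = a 1 j.succ`
(`k + 1` elements), and `t_i = rk (C_i ∪ Y) - rk C_i`.  `C_d = rg c`, `C_0 = {c (X_0^d)} = {0}` (`gc_line` for
`i = 0`, or `eval_zero_of_vanp`), `t_0 ≤ k + 1`, and `t_i ≤ t_{i-1}` (`rk_submod`).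
`rk (rg c ∪ rga a 1) ≤ rk (rg c ∪ Y) + 1`, so the hypothesis gives `t_d ≥ (k + 2 - d) + bet`.

Case A: `g_1 ≠ 0` (`gc c 1 ≠ 0`).  Let `i ≥ 1` be minimal with `t_i ≥ k + 2 - i` (`i = d` has this property).
`i ≠ 1`: `g_1(y') = 0` is a nontrivial linear relation with coefficients in `C_1`, so
`rk (C_1 ∪ Y) ≤ rk C_1 + k`.  So `2 ≤ i ≤ d`, `t_{i-1} ≤ k + 2 - i` by minimality (`t_{i-1} < k + 2 - (i - 1)`), and
`t_i = t_{i-1} = k + 2 - i = w + 1` with `w = k + 1 - i`.  Apply `lfv` to `gc c i`, `y'`, `S = C_{i-1}`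
(`S ∪ rg (gc c i) = C_i`): `rk C_i + (w + i).choose i ≤ rk C_{i-1} + card (Mon k i)`, `w + i = k + 1`.
Case B: `g_1 = 0`; then `e₀` is singular (`singP_of_gc`), `bet = 1`, `t_d ≥ k + 3 - d`.  Let `i ≥ 2` be minimal
with `t_i ≥ k + 3 - i`; `t_1 ≤ k + 1 < k + 2`, so again `t_i = t_{i-1} = k + 3 - i = w + 1` with `w = k + 2 - i`, and
`lfv` gives `rk C_i + (k + 2).choose i ≤ rk C_{i-1} + card (Mon k i)`.
In both cases `rk (rg c) ≤ rk C_i + #{m : m 0 < d - i}` and
`rk C_{i-1} ≤ #{m : d - (i-1) ≤ m 0} - 1` (`c (X_0^d) = 0`), `#{m : m 0 = d - i} = card (Mon k i)` (`xm` is a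
bijection), so `rk (rg c) + (k + 1).choose i + 1 ≤ card (Mon (k+1) d)`; and
`(k + 1).choose 2 ≤ (k + 1).choose i` for `2 ≤ i ≤ d ≤ k - 1` (unimodality, e.g. by induction or
`Nat.choose_le_...`; note `(k+1).choose i = (k+1).choose (k+1-i)`), `(k+2).choose i ≥ (k+1).choose i`.

`base_one`: let `c₀` be not `1`-layered, `m + d = n + 1`.  The definition of `Lay` fails for a curve `a` of
degree `1` (degree `0` is trivial).  `exists_move` gives `c₁`, `a₁` with `a₁ 0 = e₀`, `Van c₁ a₁ 1`,
`rk (rg c₀) ≤ rk (rg c₁) + n` and `rk (rg c₁) + m + rho + 1 ≤ rk (rg c₁ ∪ rga a₁ 1)`.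
If `SingC c₁ a₁ 1` (`rho = 0`): `a₁ 1` is not a multiple of `e₀` (otherwise
`rk (rg c₁ ∪ rga a₁ 1) ≤ rk (rg c₁) + 1`), so `sing_line` gives
`rk (rg c₁) + m + 1 + (n d + 1) ≤ N + n + 1`, and `rk (rg c₀) + (n (d - 2) + m + 1) ≤ N`.
If not, `rho = bet c₁ e₀` and `lines_excess` (`n = k + 1`) gives `rk (rg c₁) + 1 + n.choose 2 ≤ N`.
-/

namespace Pool.Agent.Helper30.RY

open MvPolynomial

variable {K : Type*} [Field K] {Ω : Type*} [Field Ω] [Algebra K Ω] [IsAlgClosed Ω]
  [DecidableEq Ω]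

private theorem choose_two67 {n : ℕ} : ∀ i, 2 ≤ i → i ≤ n / 2 → n.choose 2 ≤ n.choose i := by
  intro i hi
  induction i, hi using Nat.le_induction with
  | base => intro _; exact le_rfl
  | succ i hi ih =>
    intro h
    exact (ih (by omega)).trans (Nat.choose_le_succ_of_lt_half_left (by omega))

private theorem choose_two67' {n i : ℕ} (h2 : 2 ≤ i) (hn : i + 2 ≤ n) :
    n.choose 2 ≤ n.choose i := by
  by_cases h : i ≤ n / 2
  · exact choose_two67 i h2 h
  · rw [← Nat.choose_symm (show i ≤ n by omega)]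
    exact choose_two67 (n - i) (by omega) (by omega)

section Aux67

variable {k d : ℕ}

omit [Algebra K Ω] [IsAlgClosed Ω] in
/-- the coefficients `c m` with `d - i ≤ m 0` -/
private noncomputable def cs67 (c : Mon (k + 1) d → Ω) (i : ℕ) : Finset Ω :=
  (Finset.univ.filter (fun m : Mon (k + 1) d => d - i ≤ m.1 0)).image c

omit [IsAlgClosed Ω] in
private theorem cs_top67 (c : Mon (k + 1) d → Ω) : cs67 c d = rg c := by
  unfold cs67 rg
  rw [Finset.filter_true_of_mem]
  intro m _
  omega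

omit [IsAlgClosed Ω] in
private theorem cs_mono67 (c : Mon (k + 1) d → Ω) (i : ℕ) : cs67 c i ⊆ cs67 c (i + 1) := by
  refine Finset.image_subset_image fun m hm => ?_
  rw [Finset.mem_filter] at hm ⊢
  exact ⟨hm.1, by omega⟩

private theorem xm_tail67 {i : ℕ} (hi : i ≤ d) (m : Mon (k + 1) d) (hm : m.1 0 = d - i) :
    ∃ m' : Mon k i, xm i hi m' = m := by
  have h1 : (Finsupp.tail m.1).degree = i := by
    have h := m.2
    rw [Finsupp.degree_eq_sum, Fin.sum_univ_succ] at h
    have h2 : ∑ j : Fin (k + 1), Finsupp.tail m.1 j = ∑ j : Fin (k + 1), m.1 j.succ := rfl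
    rw [Finsupp.degree_eq_sum, h2]
    omega
  refine ⟨⟨Finsupp.tail m.1, h1⟩, Subtype.ext ?_⟩
  change Finsupp.cons (d - i) (Finsupp.tail m.1) = m.1
  rw [← hm, Finsupp.cons_tail]

private theorem xm_head67 {i : ℕ} (hi : i ≤ d) (m : Mon k i) :
    (xm i hi m : Mon (k + 1) d).1 0 = d - i := by
  unfold xm
  exact Finsupp.cons_zero _ _

private theorem xm_inj67 {i : ℕ} (hi : i ≤ d) :
    Function.Injective (xm (k := k) i hi : Mon k i → Mon (k + 1) d) := by
  intro m m' h
  unfold xm at h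
  rw [Subtype.mk.injEq] at h
  have h2 := congrArg Finsupp.tail h
  rw [Finsupp.tail_cons, Finsupp.tail_cons] at h2
  exact Subtype.ext h2

omit [IsAlgClosed Ω] in
private theorem cs_succ67 (c : Mon (k + 1) d → Ω) (i : ℕ) (hi : i + 1 ≤ d) :
    cs67 c (i + 1) = cs67 c i ∪ rg (gc c (i + 1) hi) := by
  ext x
  rw [Finset.mem_union]
  unfold cs67 rg gc
  rw [Finset.mem_image, Finset.mem_image, Finset.mem_image]
  constructor
  · rintro ⟨m, hm, rfl⟩
    rw [Finset.mem_filter] at hm
    by_cases h : d - i ≤ m.1 0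
    · exact Or.inl ⟨m, Finset.mem_filter.2 ⟨Finset.mem_univ _, h⟩, rfl⟩
    · obtain ⟨m', hm'⟩ := xm_tail67 hi m (by omega)
      exact Or.inr ⟨m', Finset.mem_univ _, by rw [hm']⟩
  · rintro (⟨m, hm, rfl⟩ | ⟨m, _, rfl⟩)
    · rw [Finset.mem_filter] at hm
      exact ⟨m, Finset.mem_filter.2 ⟨Finset.mem_univ _, by omega⟩, rfl⟩
    · refine ⟨_, Finset.mem_filter.2 ⟨Finset.mem_univ _, ?_⟩, rfl⟩
      rw [xm_head67]

omit [Algebra K Ω] [IsAlgClosed Ω] [DecidableEq Ω] in
private theorem gc_zero67 {c : Mon (k + 1) d → Ω} {a : ℕ → Fin (k + 2) → Ω}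
    (h0 : a 0 = Pi.single 0 1) (hV : Van c a 1) : gc c 0 (Nat.zero_le d) = 0 := by
  have h := gc_line h0 hV 0 (Nat.zero_le d)
  have h1 : (fm (gc c 0 (Nat.zero_le d))).totalDegree = 0 :=
    Nat.le_zero.1 (fm_hom (gc c 0 (Nat.zero_le d))).totalDegree_le
  rw [totalDegree_eq_zero_iff_eq_C] at h1
  rw [h1, eval_C] at h
  rw [h, C_0] at h1
  funext m
  rw [← coeff_fm (gc c 0 (Nat.zero_le d)) m, h1, coeff_zero]
  rfl

omit [Algebra K Ω] [IsAlgClosed Ω] [DecidableEq Ω] in
private theorem cm0_67 {c : Mon (k + 1) d → Ω} (h : gc c 0 (Nat.zero_le d) = 0) :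
    c (m0 (k + 1) d) = 0 := by
  have h1 := congrFun h ⟨0, map_zero _⟩
  unfold gc at h1
  rw [Pi.zero_apply] at h1
  rw [← h1]
  congr 1
  refine Subtype.ext ?_
  unfold xm m0
  ext s
  rcases Fin.eq_zero_or_eq_succ s with rfl | ⟨s', rfl⟩
  · simp only [Finsupp.cons_zero, Finsupp.single_eq_same]
    omega
  · simp only [Finsupp.cons_succ, Finsupp.single_eq_of_ne (Fin.succ_ne_zero s'),
      Finsupp.coe_zero, Pi.zero_apply]

private theorem count67 (e : ℕ) :
    (Finset.univ.filter (fun m : Mon (k + 1) d => m.1 0 < e)).card +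
      (Finset.univ.filter (fun m : Mon (k + 1) d => m.1 0 = e)).card +
      (Finset.univ.filter (fun m : Mon (k + 1) d => e + 1 ≤ m.1 0)).card =
    Fintype.card (Mon (k + 1) d) := by
  rw [Finset.card_filter, Finset.card_filter, Finset.card_filter, ← Finset.sum_add_distrib,
    ← Finset.sum_add_distrib, ← Finset.card_univ, Finset.card_eq_sum_ones]
  refine Finset.sum_congr rfl fun m _ => ?_
  rcases lt_trichotomy (m.1 0) e with h | h | h
  · rw [if_pos h, if_neg (by omega), if_neg (by omega)]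
  · rw [if_neg (by omega), if_pos h, if_neg (by omega)]
  · rw [if_neg (by omega), if_neg (by omega), if_pos (by omega)]

private theorem core67 (hd : 2 ≤ d) (hk : d + 1 ≤ k) (c : Mon (k + 1) d → Ω)
    (a : ℕ → Fin (k + 2) → Ω) (h0 : a 0 = Pi.single 0 1) (hV : Van c a 1) (β : ℕ) (hβ : β ≤ 1)
    (hP1 : ¬ rk K (cs67 c 1) + (k + 2 + β - 1) ≤
      rk K (cs67 c 1 ∪ rg (fun j : Fin (k + 1) => a 1 j.succ)))
    (hPd : rk K (cs67 c d) + (k + 2 + β - d) ≤
      rk K (cs67 c d ∪ rg (fun j : Fin (k + 1) => a 1 j.succ))) :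
    rk K (rg c) + 1 + (k + 1).choose 2 ≤ Fintype.card (Mon (k + 1) d) := by
  obtain ⟨i, hi1, hi, hPi, hPi'⟩ : ∃ i, 1 ≤ i ∧ i + 1 ≤ d ∧
      (¬ rk K (cs67 c i) + (k + 2 + β - i) ≤
        rk K (cs67 c i ∪ rg (fun j : Fin (k + 1) => a 1 j.succ))) ∧
      rk K (cs67 c (i + 1)) + (k + 2 + β - (i + 1)) ≤
        rk K (cs67 c (i + 1) ∪ rg (fun j : Fin (k + 1) => a 1 j.succ)) := by
    by_contra hcon
    push Not at hcon
    have key : ∀ i, 1 ≤ i → i ≤ d → ¬ rk K (cs67 c i) + (k + 2 + β - i) ≤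
        rk K (cs67 c i ∪ rg (fun j : Fin (k + 1) => a 1 j.succ)) := by
      intro i hi
      induction i, hi using Nat.le_induction with
      | base => intro _; exact hP1
      | succ i hi ih =>
        intro h
        exact not_le.2 (hcon i hi h (not_le.1 (ih (by omega))))
    exact key d (by omega) le_rfl hPd
  obtain ⟨w, hw⟩ : ∃ w, w = k + β - i := ⟨_, rfl⟩
  rw [cs_succ67 c i hi] at hPi'
  have h3 := lfv (K := K) (w := w) (gc c (i + 1) hi) (fun j : Fin (k + 1) => a 1 j.succ)
    (cs67 c i) (gc_line h0 hV (i + 1) hi) (by omega) (by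
      refine le_trans (le_of_eq ?_) hPi'
      congr 1
      omega)
  rw [← cs_succ67 c i hi, show w + (i + 1) = k + 1 + β by omega] at h3
  have h4 : (k + 1).choose 2 ≤ (k + 1 + β).choose (i + 1) :=
    (choose_two67' (by omega) (by omega)).trans (Nat.choose_le_choose _ (by omega))
  -- counting
  have h5 : rk K (rg c) ≤ rk K (cs67 c (i + 1)) +
      (Finset.univ.filter (fun m : Mon (k + 1) d => m.1 0 < d - (i + 1))).card := by
    have e1 : rk K (rg c) ≤ rk K (cs67 c (i + 1) ∪
        (Finset.univ.filter (fun m : Mon (k + 1) d => m.1 0 < d - (i + 1))).image c) := by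
      refine rk_mono K fun x hx => ?_
      obtain ⟨m, _, rfl⟩ := Finset.mem_image.1 hx
      rw [Finset.mem_union]
      by_cases h : d - (i + 1) ≤ m.1 0
      · exact Or.inl (Finset.mem_image_of_mem c (Finset.mem_filter.2 ⟨Finset.mem_univ _, h⟩))
      · exact Or.inr (Finset.mem_image_of_mem c
          (Finset.mem_filter.2 ⟨Finset.mem_univ _, by omega⟩))
    refine e1.trans ((rk_union_le_card K _ _).trans ?_)
    exact Nat.add_le_add_left Finset.card_image_le _
  have h6 : rk K (cs67 c i) + 1 ≤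
      (Finset.univ.filter (fun m : Mon (k + 1) d => d - (i + 1) + 1 ≤ m.1 0)).card := by
    have hm0 : m0 (k + 1) d ∈
        Finset.univ.filter (fun m : Mon (k + 1) d => d - (i + 1) + 1 ≤ m.1 0) := by
      rw [Finset.mem_filter]
      refine ⟨Finset.mem_univ _, ?_⟩
      unfold m0
      change _ ≤ (Finsupp.single 0 d : Fin (k + 2) →₀ ℕ) 0
      rw [Finsupp.single_eq_same]
      omega
    have e1 : rk K (cs67 c i) ≤ rk K (((Finset.univ.filter
        (fun m : Mon (k + 1) d => d - (i + 1) + 1 ≤ m.1 0)).erase (m0 (k + 1) d)).image c) := by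
      refine rk_le_of_subset_cl K fun x hx => ?_
      unfold cs67 at hx
      obtain ⟨m, hm, rfl⟩ := Finset.mem_image.1 hx
      by_cases h : m = m0 (k + 1) d
      · rw [h, cm0_67 (gc_zero67 h0 hV)]
        exact zero_mem _
      · refine subset_cl K _ _ (Finset.mem_image_of_mem c (Finset.mem_erase.2 ⟨h, ?_⟩))
        rw [Finset.mem_filter] at hm ⊢
        exact ⟨hm.1, by omega⟩
    have e2 := e1.trans ((rk_le_card K _).trans Finset.card_image_le)
    rw [Finset.card_erase_of_mem hm0] at e2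
    have e3 := Finset.card_pos.2 ⟨_, hm0⟩
    omega
  have h7 : Fintype.card (Mon k (i + 1)) ≤
      (Finset.univ.filter (fun m : Mon (k + 1) d => m.1 0 = d - (i + 1))).card := by
    rw [← Finset.card_univ, ← Finset.card_image_of_injective _ (xm_inj67 (k := k) hi)]
    refine Finset.card_le_card fun m hm => ?_
    obtain ⟨m', _, rfl⟩ := Finset.mem_image.1 hm
    rw [Finset.mem_filter]
    exact ⟨Finset.mem_univ _, xm_head67 hi m'⟩
  have h8 := count67 (k := k) (d := d) (d - (i + 1))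
  omega

end Aux67

theorem lines_excess {k d : ℕ} (hd : 2 ≤ d) (hk : d + 1 ≤ k) (c : Mon (k + 1) d → Ω)
    (a : ℕ → Fin (k + 2) → Ω) (h0 : a 0 = Pi.single 0 1) (hV : Van c a 1)
    (h : rk K (rg c) + (k + 2 - d) + 1 + bet c (a 0) ≤ rk K (rg c ∪ rga a 1)) :
    rk K (rg c) + 1 + (k + 1).choose 2 ≤ Fintype.card (Mon (k + 1) d) := by
  have hY : (rg (fun j : Fin (k + 1) => a 1 j.succ)).card ≤ k + 1 := by
    refine Finset.card_image_le.trans ?_
    rw [Finset.card_univ, Fintype.card_fin]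
  have h1 : rk K (rg c ∪ rga a 1) ≤
      rk K (rg c ∪ rg (fun j : Fin (k + 1) => a 1 j.succ)) + 1 := by
    have e1 : rk K (rg c ∪ rga a 1) ≤
        rk K (rg c ∪ rg (fun j : Fin (k + 1) => a 1 j.succ) ∪ {a 1 0}) := by
      refine rk_le_of_subset_cl K fun x hx => ?_
      rcases Finset.mem_union.1 hx with hx | hx
      · exact subset_cl K _ _ (Finset.mem_union_left _ (Finset.mem_union_left _ hx))
      · obtain ⟨l, hl, hx⟩ := Finset.mem_biUnion.1 hx
        obtain ⟨i, _, rfl⟩ := Finset.mem_image.1 hx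
        rw [Finset.mem_range] at hl
        have hl2 : l = 0 ∨ l = 1 := by omega
        rcases hl2 with rfl | rfl
        · rw [h0]
          by_cases hi : i = 0
          · rw [hi, Pi.single_eq_same]
            exact one_mem _
          · rw [Pi.single_eq_of_ne hi]
            exact zero_mem _
        · rcases Fin.eq_zero_or_eq_succ i with rfl | ⟨j, rfl⟩
          · exact subset_cl K _ _ (Finset.mem_union_right _ (Finset.mem_singleton_self _))
          · exact subset_cl K _ _ (Finset.mem_union_left _ (Finset.mem_union_right _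
              (Finset.mem_image_of_mem (fun j : Fin (k + 1) => a 1 j.succ) (Finset.mem_univ j))))
    refine e1.trans ((rk_union_le_card K _ _).trans ?_)
    rw [Finset.card_singleton]
  by_cases hg : gc c 1 (by omega) = 0
  · have hs : SingP c (a 0) := by
      rw [h0]
      exact singP_of_gc (by omega) (gc_zero67 h0 hV) hg
    have hb : bet c (a 0) = 1 := by
      unfold bet
      rw [if_pos hs]
    rw [hb] at h
    refine core67 hd hk c a h0 hV 1 le_rfl ?_ ?_
    · have h2 := rk_union_le_card K (cs67 c 1) (rg (fun j : Fin (k + 1) => a 1 j.succ))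
      omega
    · rw [cs_top67]
      omega
  · refine core67 hd hk c a h0 hV 0 (Nat.zero_le _) ?_ ?_
    · intro hcon
      have h2 := rk_union_le_card K (cs67 c 1) (rg (fun j : Fin (k + 1) => a 1 j.succ))
      have h3 : rk K (cs67 c 1 ∪ rg (fun j : Fin (k + 1) => a 1 j.succ)) =
          rk K (cs67 c 1) + Fintype.card (Fin (k + 1)) := by
        rw [Fintype.card_fin]
        omega
      have h4 : fm (gc c 1 (by omega)) ≠ 0 := by
        intro h5
        apply hg
        funext m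
        rw [← coeff_fm (gc c 1 (by omega)) m, h5, coeff_zero]
        rfl
      refine eval_ne_zero_of_generic h3 _ h4 (fun m => ?_) (gc_line h0 hV 1 (by omega))
      by_cases hm : m.degree = 1
      · have e1 : coeff m (fm (gc c 1 (by omega))) = gc c 1 (by omega) ⟨m, hm⟩ :=
          coeff_fm _ ⟨m, hm⟩
        rw [e1]
        refine subset_cl K _ _ ?_
        have e2 : cs67 c 1 = cs67 c 0 ∪ rg (gc c 1 (by omega)) := cs_succ67 c 0 (by omega)
        rw [e2]
        exact Finset.mem_union_right _ (Finset.mem_image_of_mem _ (Finset.mem_univ _))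
      · rw [(fm_hom _).coeff_eq_zero hm]
        exact zero_mem _
    · rw [cs_top67]
      omega

theorem base_one (hb : Big K Ω) {n d m κ : ℕ} (hd : 2 ≤ d) (hn : d + 2 ≤ n) (hm : m + d = n + 1)
    (h1 : κ + n ≤ 1 + n.choose 2) (h2 : κ ≤ n * (d - 2) + m + 1)
    (c₀ : Mon n d → Ω) (hc₀ : ¬ Lay K m 1 c₀) :
    rk K (rg c₀) + κ ≤ Fintype.card (Mon n d) := by
  unfold Lay at hc₀
  push Not at hc₀
  obtain ⟨e', he', a, ha0, haV, hlt⟩ := hc₀
  have he1 : e' = 0 ∨ e' = 1 := by omega
  rcases he1 with rfl | rfl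
  · exfalso
    have e1 : rga a 0 = rg (a 0) := by
      unfold rga
      rw [zero_add, Finset.range_one, Finset.singleton_biUnion]
    rw [e1] at hlt
    omega
  obtain ⟨c₁, a₁, h3, h4, h5, -, -, h6, h7⟩ := exists_move hb c₀ a 1 ha0 haV
  rw [← h5, mul_one] at hlt
  have h8 : rk K (rg c₁) + m + rho c₁ a₁ 1 + 1 ≤ rk K (rg c₁ ∪ rga a₁ 1) := by omega
  by_cases hS : SingC c₁ a₁ 1
  · -- the line is contained in the singular locus
    have h9 : rk K (rg c₁ ∪ rga a₁ 1) ≤ rk K (rg c₁ ∪ rg (a₁ 1)) := by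
      refine rk_le_of_subset_cl K fun x hx => ?_
      rcases Finset.mem_union.1 hx with hx | hx
      · exact subset_cl K _ _ (Finset.mem_union_left _ hx)
      · obtain ⟨l, hl, hx⟩ := Finset.mem_biUnion.1 hx
        rw [Finset.mem_range] at hl
        have hl2 : l = 0 ∨ l = 1 := by omega
        rcases hl2 with rfl | rfl
        · obtain ⟨i, _, rfl⟩ := Finset.mem_image.1 hx
          rw [h3]
          by_cases hi : i = 0
          · rw [hi, Pi.single_eq_same]
            exact one_mem _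
          · rw [Pi.single_eq_of_ne hi]
            exact zero_mem _
        · exact subset_cl K _ _ (Finset.mem_union_right _ hx)
    have h10 : ¬ ∃ η : Ω, ∀ i, a₁ 1 i = η * a₁ 0 i := by
      rintro ⟨η, hη⟩
      have e1 : rk K (rg c₁ ∪ rg (a₁ 1)) ≤ rk K (rg c₁ ∪ {η}) := by
        refine rk_le_of_subset_cl K fun x hx => ?_
        rcases Finset.mem_union.1 hx with hx | hx
        · exact subset_cl K _ _ (Finset.mem_union_left _ hx)
        · obtain ⟨i, _, rfl⟩ := Finset.mem_image.1 hx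
          rw [hη i, h3]
          refine mul_mem (subset_cl K _ _ (Finset.mem_union_right _
            (Finset.mem_singleton_self _))) ?_
          by_cases hi : i = 0
          · rw [hi, Pi.single_eq_same]
            exact one_mem _
          · rw [Pi.single_eq_of_ne hi]
            exact zero_mem _
      have e2 := rk_union_le_card K (rg c₁) {η}
      rw [Finset.card_singleton] at e2
      omega
    have h11 := sing_line (K := K) (by omega) h3 h10 h4 hS
    obtain ⟨d', rfl⟩ : ∃ d', d = d' + 2 := ⟨d - 2, by omega⟩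
    rw [Nat.add_sub_cancel] at h2
    have h12 : n * (d' + 2) = n * d' + 2 * n := by ring
    omega
  · -- the line is not contained in the singular locus
    have hrho : rho c₁ a₁ 1 = bet c₁ (a₁ 0) := by
      unfold rho bet
      by_cases hs : SingP c₁ (a₁ 0)
      · rw [if_pos hs, if_pos ⟨hs, hS⟩]
      · rw [if_neg hs, if_neg fun h => hs h.1]
    obtain ⟨k, rfl⟩ : ∃ k, n = k + 1 := ⟨n - 1, by omega⟩
    have h9 := lines_excess (K := K) hd (by omega) c₁ a₁ h3 h4 (by
      rw [← hrho]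
      omega)
    omega

end Pool.Agent.Helper30.RY
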