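import Mathlib
import Pool.Agent.Helper30.RY.BlB
import Pool.Agent.Helper30.RY.Bch
import Pool.Agent.Helper30.RY.Chn

/-!
# Block RY-LRG: large degrees

`e = E + 1`, `n ≤ m e`, `c ≠ 0` is `E`-layered.  Claim: `c` is `e`-layered.

Let `a` be a curve of degree `e` (exactly; degrees `≤ E` are covered) with `a 0 ≠ 0`, `Van c a e` and
suppose `rk (rg c ∪ rg (a 0)) + m e + rho + 1 ≤ rk (rg c ∪ rga a e)` for a contradiction.  Put
`S = rg c ∪ rg (a 0)`.
(1) `a e ≠ 0`, otherwise use `Lay` for `E` (`vanp_trunc`; `rho` is the same).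
(2) Choose `j`, `θ` with `θ^e * a e j = 1`, `a₁ l i = θ^l a l i`, `y = a₁ e`, `y j = 1`.  As in block STX:
    `Van c a₁ e`, `rho c a₁ e = rho c a e`, `rk S + m e + rho ≤ rk (rg c ∪ rga a₁ e)`.   (TD)
(3) `T = S ∪ rg y`, `rk T ≤ rk S + (n - 1)`: `y j = 1` and `eval y (fm c) = 0` (`eval_top_of_vanp`).  If
    `rk T = rk S + n`, the `n` coordinates `y i`, `i ≠ j`, are generic over `S`, and the polynomial
    `fm c` with `X_j = 1` is not zero (`fm c ≠ 0` is homogeneous: the coefficients of the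
    dehomogenisation are the coefficients of `fm c`), so `eval y (fm c) ≠ 0`
    (`eval_ne_zero_of_generic`), contradiction.
(4) `K₁ = K(T)`; `rk K₁ (rga a₁ e) = rk K (T ∪ rga a₁ e) - rk K T ≥ m e + rho - (n - 1) ≥ 1`
    (`rk_adjoin`; `rga a₁ e` contains `rg (a 0)` and `rg y`), so some `a₁ l i` (`l ≤ e`) is not in `cl K₁ ∅`.
(5) `bend_break` over `K₁` with `x = a 0`, `y`: since `c m / c α ∈ K₁`, `c' m = c m / c α` (the relation
    `X_m - c m / c α` has coefficients in `K₁`).  So `FCp (fm c) τ' a' e` (`fm_smul`).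
    Ranks over `K₁`: `rk K (T ∪ rga a₁ e) + e ≤ rk K (T ∪ rgt τ' e ∪ rga a' e) + card B` (the sets `rg c₁`, `rg c'`
    are in `cl K T`), and `rg y ⊆ cl K (rg (a' e))` (`a' e = η y`, `y j = 1`), `a' 0 = a 0`, so
    `rk K (T ∪ rgt τ' e ∪ rga a' e) = rk K (rg c ∪ rgt τ' e ∪ rga a' e)`.
(6) `chain_bound` for `c`: `rk (rg c ∪ rga a₁ e) + e ≤ rk S + m e + (e - 1) + bet c (a 0)`, with (TD):
    `rho + 1 ≤ bet c (a 0)`, so `rho = 0`, `bet = 1`, so `SingC c a₁ e`, and `chain_bound_sing` (note
    `SingC c a₁ e → ∀ i, FCp (pderiv i (fm c')) τ' a' e`, scalar multiples) gives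
    `rk (rg c ∪ rga a₁ e) + e ≤ rk S + m e + (e - 1)`, contradicting (TD).
-/

namespace Pool.Agent.Helper30.RY

open MvPolynomial

variable {K : Type*} [Field K] {Ω : Type*} [Field Ω] [Algebra K Ω] [IsAlgClosed Ω]
  [DecidableEq Ω] {n d m : ℕ}

omit [IsAlgClosed Ω] in
/-- a normalised point on a hypersurface -/
theorem rk_point_le {c : Mon n d → Ω} (hc : c ≠ 0) {S : Finset Ω} (hS : rg c ⊆ S)
    {y : Fin (n + 1) → Ω} {j : Fin (n + 1)} (hj : y j = 1) (h0 : eval y (fm c) = 0) :
    rk K (S ∪ rg y) + 1 ≤ rk K S + n := by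
  classical
  by_contra hcon
  have hcard : Fintype.card {i : Fin (n + 1) // i ≠ j} = n := by
    rw [Fintype.card_subtype, Finset.filter_ne', Finset.card_erase_of_mem (Finset.mem_univ _),
      Finset.card_univ, Fintype.card_fin]
    rfl
  set t : {i : Fin (n + 1) // i ≠ j} → Ω := fun i => y i.1 with ht
  have h1 : rk K (S ∪ rg y) ≤ rk K (S ∪ rg t) := by
    refine rk_le_of_subset_cl K fun x hx => ?_
    rcases Finset.mem_union.1 hx with hx | hx
    · exact subset_cl K _ x (Finset.mem_union_left _ hx)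
    · unfold rg at hx
      obtain ⟨i, _, rfl⟩ := Finset.mem_image.1 hx
      by_cases hi : i = j
      · rw [hi, hj]
        exact one_mem _
      · refine subset_cl K _ _ (Finset.mem_union_right _ ?_)
        unfold rg
        exact Finset.mem_image.2 ⟨⟨i, hi⟩, Finset.mem_univ _, rfl⟩
  have h2 : rk K (S ∪ rg t) ≤ rk K S + n := by
    refine (rk_union_le_card K S (rg t)).trans (Nat.add_le_add_left ?_ _)
    unfold rg
    exact (Finset.card_image_le).trans (by rw [Finset.card_univ, hcard])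
  have hgen : rk K (S ∪ rg t) = rk K S + Fintype.card {i : Fin (n + 1) // i ≠ j} := by
    rw [hcard]
    omega
  -- the dehomogenised polynomial
  set r : Mon n d → ({i : Fin (n + 1) // i ≠ j} →₀ ℕ) := fun μ => Finsupp.subtypeDomain (fun i => i ≠ j) μ.1 with hr
  have hinj : Function.Injective r := by
    intro μ ν h
    have h3 : ∀ i, i ≠ j → μ.1 i = ν.1 i := by
      intro i hi
      have := DFunLike.congr_fun h ⟨i, hi⟩
      simpa [hr] using this
    have h4 : ∑ i, μ.1 i = ∑ i, ν.1 i := by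
      rw [← Finsupp.degree_eq_sum, ← Finsupp.degree_eq_sum, μ.2, ν.2]
    have h5 : μ.1 j = ν.1 j := by
      rw [Fintype.sum_eq_add_sum_subtype_ne _ j, Fintype.sum_eq_add_sum_subtype_ne (fun i => ν.1 i) j] at h4
      have h6 : ∑ i : {i // i ≠ j}, μ.1 i.1 = ∑ i : {i // i ≠ j}, ν.1 i.1 :=
        Finset.sum_congr rfl fun i _ => h3 i.1 i.2
      omega
    apply Subtype.ext
    ext i
    by_cases hi : i = j
    · rw [hi]
      exact h5
    · exact h3 i hi
  set p : MvPolynomial {i : Fin (n + 1) // i ≠ j} Ω := ∑ μ : Mon n d, monomial (r μ) (c μ) with hp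
  have hcoeff : ∀ w, coeff w p = ∑ μ : Mon n d, if r μ = w then c μ else 0 := by
    intro w
    rw [hp, coeff_sum]
    refine Finset.sum_congr rfl fun μ _ => ?_
    rw [coeff_monomial]
  have hp0 : p ≠ 0 := by
    intro h
    apply hc
    funext μ
    have h3 : coeff (r μ) p = c μ := by
      rw [hcoeff, Finset.sum_eq_single μ]
      · rw [if_pos rfl]
      · intro ν _ hν
        rw [if_neg fun h => hν (hinj h)]
      · intro h
        exact absurd (Finset.mem_univ μ) h
    rw [← h3, h, coeff_zero]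
    rfl
  have hcl : ∀ w, coeff w p ∈ cl K S := by
    intro w
    rw [hcoeff]
    refine sum_mem fun μ _ => ?_
    split_ifs
    · refine subset_cl K S _ (hS ?_)
      unfold rg
      exact Finset.mem_image.2 ⟨μ, Finset.mem_univ _, rfl⟩
    · exact zero_mem _
  refine eval_ne_zero_of_generic hgen p hp0 hcl ?_
  rw [← h0, hp]
  unfold fm
  rw [map_sum, map_sum]
  refine Finset.sum_congr rfl fun μ _ => ?_
  rw [eval_monomial, eval_monomial, Finsupp.prod_fintype _ _ (fun i => pow_zero _),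
    Finsupp.prod_fintype _ _ (fun i => pow_zero _), Fintype.prod_eq_mul_prod_subtype_ne _ j, hj, one_pow, one_mul]
  rfl

omit [IsAlgClosed Ω] [DecidableEq Ω] in
private theorem fcp_smul63 {f : MvPolynomial (Fin (n + 1)) Ω} (t : Ω) {τ : ℕ → Ω}
    {a : ℕ → Fin (n + 1) → Ω} {e : ℕ} (h : FCp f τ a e) : FCp (C t * f) τ a e := by
  intro j hj
  have h1 := h j hj
  unfold Vanp at h1 ⊢
  rw [map_mul, h1, mul_zero]

omit [Field Ω] [IsAlgClosed Ω] in
private theorem rga_zero63 (a : ℕ → Fin (n + 1) → Ω) {l e : ℕ} (hl : l ≤ e) (i : Fin (n + 1)) : a l i ∈ rga a e := by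
  unfold rga rg
  rw [Finset.mem_biUnion]
  exact ⟨l, Finset.mem_range.2 (by omega), Finset.mem_image.2 ⟨i, Finset.mem_univ _, rfl⟩⟩

omit [Field Ω] [IsAlgClosed Ω] in
private theorem mem_rga63 {a : ℕ → Fin (n + 1) → Ω} {e : ℕ} {x : Ω} (h : x ∈ rga a e) :
    ∃ l ≤ e, ∃ i, a l i = x := by
  unfold rga rg at h
  rw [Finset.mem_biUnion] at h
  obtain ⟨l, hl, hx⟩ := h
  obtain ⟨i, _, rfl⟩ := Finset.mem_image.1 hx
  exact ⟨l, by have := Finset.mem_range.1 hl; omega, i, rfl⟩

omit [Field Ω] [IsAlgClosed Ω] in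
private theorem mem_rg63 {ι : Type*} [Fintype ι] (a : ι → Ω) (i : ι) : a i ∈ rg a := by
  unfold rg
  exact Finset.mem_image.2 ⟨i, Finset.mem_univ _, rfl⟩

omit [Field Ω] [IsAlgClosed Ω] in
private theorem of_mem_rg63 {ι : Type*} [Fintype ι] {a : ι → Ω} {x : Ω} (h : x ∈ rg a) : ∃ i, a i = x := by
  unfold rg at h
  obtain ⟨i, _, rfl⟩ := Finset.mem_image.1 h
  exact ⟨i, rfl⟩

private theorem large_norm63 (hb : Big K Ω) {E : ℕ} (hm : n ≤ m * (E + 1)) {c : Mon n d → Ω} (hc : c ≠ 0)
    (hL : Lay K m E c) {a : ℕ → Fin (n + 1) → Ω} (ha : a 0 ≠ 0) (hV : Van c a (E + 1)) {j : Fin (n + 1)}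
    (hj : a (E + 1) j = 1)
    (hTD : rk K (rg c ∪ rg (a 0)) + m * (E + 1) + rho c a (E + 1) ≤ rk K (rg c ∪ rga a (E + 1))) : False := by
  set e := E + 1 with he
  set S := rg c ∪ rg (a 0) with hS
  set T := S ∪ rg (a e) with hT
  have h3 : rk K T + 1 ≤ rk K S + n :=
    rk_point_le hc Finset.subset_union_left hj (eval_top_of_vanp (fm_hom c) hV)
  have hTe : T ∪ rga a e = rg c ∪ rga a e := by
    ext x
    simp only [hT, hS, Finset.mem_union]
    constructor
    · rintro (((h | h) | h) | h)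
      · exact Or.inl h
      · obtain ⟨i, rfl⟩ := of_mem_rg63 h
        exact Or.inr (rga_zero63 a (Nat.zero_le e) i)
      · obtain ⟨i, rfl⟩ := of_mem_rg63 h
        exact Or.inr (rga_zero63 a le_rfl i)
      · exact Or.inr h
    · rintro (h | h)
      · exact Or.inl (Or.inl (Or.inl h))
      · exact Or.inr h
  have h4 := rk_adjoin K T (rga a e)
  rw [hTe] at h4
  have h5 : rk (IntermediateField.adjoin K (T : Set Ω)) (∅ : Finset Ω) <
      rk (IntermediateField.adjoin K (T : Set Ω)) (∅ ∪ rga a e) := by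
    rw [rk_empty, Finset.empty_union]
    omega
  obtain ⟨z, hz, hz'⟩ := exists_notMem_cl _ h5
  obtain ⟨l, hl, i, rfl⟩ := mem_rga63 hz
  have hTmem : ∀ x ∈ T, x ∈ IntermediateField.adjoin K (T : Set Ω) := fun x hx =>
    IntermediateField.subset_adjoin K _ (Finset.mem_coe.2 hx)
  have hx0 : ∀ i, a 0 i ∈ T := fun i =>
    Finset.mem_union_left _ (Finset.mem_union_right _ (mem_rg63 (a 0) i))
  have hxe : ∀ i, a e i ∈ T := fun i => Finset.mem_union_right _ (mem_rg63 (a e) i)
  have hcT : ∀ μ, c μ ∈ T := fun μ =>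
    Finset.mem_union_left _ (Finset.mem_union_left _ (mem_rg63 c μ))
  obtain ⟨α, θ, τ, b, c', τ', a', η, hcα, -, -, -, hspc, -, hbrk, hF, hN, ha'0, hη, ha'e, hsing, hR1, hR2⟩ :=
    bend_break (big_adjoin K hb T) (show 1 ≤ e by omega)
      (fun i => (⟨a 0 i, hTmem _ (hx0 i)⟩ : IntermediateField.adjoin K (T : Set Ω)))
      (fun i => (⟨a e i, hTmem _ (hxe i)⟩ : IntermediateField.adjoin K (T : Set Ω)))
      (by
        intro h
        apply ha
        funext i
        have := congrFun h i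
        exact congrArg Subtype.val this)
      (by
        intro h
        have := congrArg Subtype.val (congrFun h j)
        simp only at this
        rw [hj] at this
        exact one_ne_zero this)
      c hc a (by funext i; rfl) (by funext i; rfl) hV ⟨l, hl, i, hz'⟩
  have ha'0' : a' 0 = a 0 := by
    rw [ha'0]
    rfl
  have ha'e' : ∀ i, a' e i = η * a e i := by
    intro i
    rw [ha'e]
    rfl
  -- the coefficients
  have hc' : ∀ μ, c' μ = c μ / c α := by
    intro μ
    have hmem : c μ / c α ∈ IntermediateField.adjoin K (T : Set Ω) :=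
      div_mem (hTmem _ (hcT μ)) (hTmem _ (hcT α))
    have h6 := hspc (X (Sum.inl μ) - C (⟨c μ / c α, hmem⟩ : IntermediateField.adjoin K (T : Set Ω))) (by
      rw [map_sub, aeval_X, aeval_C]
      unfold pt
      simp only [Sum.elim_inl]
      exact sub_self _)
    rw [map_sub, aeval_X, aeval_C, sub_eq_zero] at h6
    unfold pt at h6
    simp only [Sum.elim_inl] at h6
    exact h6
  have hfm : fm c = C (c α) * fm c' := by
    rw [← fm_smul]
    congr 1
    funext μ
    rw [hc' μ, mul_div_cancel₀ _ hcα]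
  have hFc : FCp (fm c) τ' a' e := by
    rw [hfm]
    exact fcp_smul63 _ hF
  -- ranks
  have hR : rk K (rg c ∪ rga a e) + e ≤ rk K (rg c ∪ rgt τ' e ∪ rga a' e) + (brk τ' e).card := by
    have r1 : rk (IntermediateField.adjoin K (T : Set Ω)) (rga a e) ≤
        rk (IntermediateField.adjoin K (T : Set Ω)) (rg (fun m => c m / c α) ∪ rga a e) :=
      rk_mono _ Finset.subset_union_right
    have r2 := rk_adjoin K T (rg c' ∪ rgt τ' e ∪ rga a' e)
    have r3 : rk K (T ∪ (rg c' ∪ rgt τ' e ∪ rga a' e)) ≤ rk K (rg c ∪ rgt τ' e ∪ rga a' e) := by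
      refine rk_le_of_subset_cl K fun x hx => ?_
      have q1 : ∀ μ, c μ ∈ cl K (rg c ∪ rgt τ' e ∪ rga a' e) := fun μ =>
        subset_cl K _ _ (Finset.mem_union_left _ (Finset.mem_union_left _ (mem_rg63 c μ)))
      have q2 : ∀ l ≤ e, ∀ i, a' l i ∈ cl K (rg c ∪ rgt τ' e ∪ rga a' e) := fun l hl i =>
        subset_cl K _ _ (Finset.mem_union_right _ (rga_zero63 a' hl i))
      have q3 : η ∈ cl K (rg c ∪ rgt τ' e ∪ rga a' e) := by
        have h6 := q2 e le_rfl j
        rw [ha'e' j, hj, mul_one] at h6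
        exact h6
      have q4 : ∀ i, a e i ∈ cl K (rg c ∪ rgt τ' e ∪ rga a' e) := by
        intro i
        have h6 : a e i = a' e i / η := by
          rw [ha'e' i, mul_div_cancel_left₀ _ hη]
        rw [h6]
        exact div_mem (q2 e le_rfl i) q3
      simp only [hT, hS, Finset.mem_union] at hx
      rcases hx with ((hx | hx) | hx) | ((hx | hx) | hx)
      · obtain ⟨μ, rfl⟩ := of_mem_rg63 hx
        exact q1 μ
      · obtain ⟨i, rfl⟩ := of_mem_rg63 hx
        rw [← ha'0']
        exact q2 0 (Nat.zero_le _) i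
      · obtain ⟨i, rfl⟩ := of_mem_rg63 hx
        exact q4 i
      · obtain ⟨μ, rfl⟩ := of_mem_rg63 hx
        rw [hc' μ]
        exact div_mem (q1 μ) (q1 α)
      · exact subset_cl K _ _ (Finset.mem_union_left _ (Finset.mem_union_right _ hx))
      · exact subset_cl K _ _ (Finset.mem_union_right _ hx)
    omega
  -- the bound for chains
  have h6 := chain_bound hb hL e (by omega) τ' a' (Or.inr ⟨le_rfl, hbrk⟩) hFc hN
  rw [ha'0', ← hS] at h6
  have hbet : rho c a e + 1 ≤ bet c (a 0) := by omega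
  have hbet1 : bet c (a 0) ≤ 1 := by
    unfold bet
    split_ifs <;> omega
  have hrho0 : rho c a e = 0 := by omega
  have hP : SingP c (a 0) := by
    by_contra h
    unfold bet at hbet
    rw [if_neg h] at hbet
    omega
  have hSC : SingC c a e := by
    by_contra h
    unfold rho at hrho0
    rw [if_pos ⟨hP, h⟩] at hrho0
    omega
  have h7 := chain_bound_sing hL e (by omega) τ' a' (Or.inr ⟨le_rfl, hbrk⟩) hFc (by
    intro i
    have h8 : pderiv i (fm c) = C (c α) * pderiv i (fm c') := by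
      rw [hfm, pderiv_C_mul]
    rw [h8]
    exact fcp_smul63 _ (hsing hSC i)) hN
  rw [ha'0', ← hS] at h7
  omega

theorem large (hb : Big K Ω) {E : ℕ} (hm : n ≤ m * (E + 1)) {c : Mon n d → Ω} (hc : c ≠ 0)
    (hL : Lay K m E c) : Lay K m (E + 1) c := by
  intro e' he' a ha hV
  rcases Nat.lt_or_ge e' (E + 1) with h | h
  · exact hL e' (by omega) a ha hV
  have he : e' = E + 1 := by omega
  subst he
  by_contra hcon
  push Not at hcon
  by_cases hae : a (E + 1) = 0
  · have h0 : ∀ l, E < l → l ≤ E + 1 → ∀ i, a l i = 0 := by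
      intro l h1 h2 i
      have : l = E + 1 := by omega
      rw [this, hae]
      rfl
    have hV' : Van c a E := (vanp_trunc (Nat.le_succ E) h0).1 hV
    have h1 := hL E le_rfl a ha hV'
    have h2 : rho c a E = rho c a (E + 1) := by
      have h3 : SingC c a E ↔ SingC c a (E + 1) := by
        unfold SingC
        exact forall_congr' fun i => (vanp_trunc (Nat.le_succ E) h0).symm
      unfold rho
      rw [h3]
    have h3 : rk K (rg c ∪ rga a (E + 1)) ≤ rk K (rg c ∪ rga a E) := by
      refine rk_le_of_subset_cl K fun x hx => ?_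
      rcases Finset.mem_union.1 hx with hx | hx
      · exact subset_cl K _ x (Finset.mem_union_left _ hx)
      · obtain ⟨l, hl, i, rfl⟩ := mem_rga63 hx
        by_cases hlE : l ≤ E
        · exact subset_cl K _ _ (Finset.mem_union_right _ (rga_zero63 a hlE i))
        · rw [h0 l (by omega) hl i]
          exact zero_mem _
    rw [h2] at h1
    have h4 : m * E ≤ m * (E + 1) := Nat.mul_le_mul_left _ (Nat.le_succ E)
    omega
  · have hj : ∃ j, a (E + 1) j ≠ 0 := by
      by_contra h
      push Not at h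
      exact hae (funext h)
    obtain ⟨j, hj⟩ := hj
    obtain ⟨θ, hθ⟩ := IsAlgClosed.exists_pow_nat_eq (a (E + 1) j)⁻¹ (Nat.succ_pos E)
    have hθ0 : θ ≠ 0 := by
      rintro rfl
      rw [zero_pow (Nat.succ_ne_zero E)] at hθ
      exact inv_ne_zero hj hθ.symm
    set a₁ : ℕ → Fin (n + 1) → Ω := fun l i => θ ^ l * a l i with ha₁
    have ha₁0 : a₁ 0 = a 0 := by
      funext i
      simp [ha₁]
    have hinv : ∀ {f : MvPolynomial (Fin (n + 1)) Ω}, Vanp f a₁ (E + 1) → Vanp f a (E + 1) := by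
      intro f hf
      have h1 := vanp_scale θ⁻¹ hf
      refine (vanp_congr ?_).1 h1
      intro l _ i
      simp only [ha₁]
      rw [← mul_assoc, ← mul_pow, inv_mul_cancel₀ hθ0, one_pow, one_mul]
    have hrho : rho c a₁ (E + 1) = rho c a (E + 1) := by
      have h3 : SingC c a₁ (E + 1) ↔ SingC c a (E + 1) := by
        unfold SingC
        exact forall_congr' fun i => ⟨fun h => hinv h, fun h => vanp_scale θ h⟩
      unfold rho
      rw [h3, ha₁0]
    have hrk : rk K (rg c ∪ rga a (E + 1)) ≤ rk K (rg c ∪ rga a₁ (E + 1)) + 1 := by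
      have h1 : rk K (rg c ∪ rga a (E + 1)) ≤ rk K (rg c ∪ rga a₁ (E + 1) ∪ {θ}) := by
        refine rk_le_of_subset_cl K fun x hx => ?_
        rcases Finset.mem_union.1 hx with hx | hx
        · exact subset_cl K _ x (Finset.mem_union_left _ (Finset.mem_union_left _ hx))
        · obtain ⟨l, hl, i, rfl⟩ := mem_rga63 hx
          have h2 : a l i = a₁ l i / θ ^ l := by
            simp only [ha₁]
            rw [mul_div_cancel_left₀ _ (pow_ne_zero _ hθ0)]
          rw [h2]
          refine div_mem (subset_cl K _ _ (Finset.mem_union_left _ (Finset.mem_union_right _ (rga_zero63 a₁ hl i)))) ?_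
          exact pow_mem (subset_cl K _ _ (Finset.mem_union_right _ (Finset.mem_singleton_self θ))) l
      refine h1.trans ?_
      refine (rk_union_le_card K _ _).trans ?_
      rw [Finset.card_singleton]
    refine large_norm63 (j := j) hb hm hc hL (a := a₁) (by rw [ha₁0]; exact ha) (vanp_scale θ hV) ?_ ?_
    · simp only [ha₁]
      rw [hθ, inv_mul_cancel₀ hj]
    · rw [ha₁0, hrho]
      omega

end Pool.Agent.Helper30.RY
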