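import Mathlib

/-!
# Block RY-NUM: the numerical inequality

`m + d = n + 1`, `d ≥ 2`, `n ≥ d + 2` (so `m ≥ 3`).  Let `k₁ = min ((n.choose 2) + 1 - n) (n (d - 2) + m + 1)`
and, recursively, `κ 1 = k₁`, `κ (E + 1) = κ E - (2 n - m (E + 1))` if `m (E + 1) < n`, `κ (E + 1) = κ E`
otherwise (`κ 0` arbitrary).  Claims (checked by computer for `n < 400`): `κ E ≥ 3` for all
`E ≥ 1`, and then `n + 3 ≤ κ E + m (E + 1)`: if `m (E + 1) ≥ n` this is clear, otherwise
`κ E = κ (E + 1) + 2 n - m (E + 1) ≥ 3 + 2 n - m (E + 1)` and `2 m (E + 1) ≤ 2 n`... precisely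
`κ E + m (E + 1) ≥ 3 + 2 n ≥ n + 3`.
Proof of `κ E ≥ 3`: let `t` be the largest number with `m t < n` (`m t + 1 ≤ n ≤ m (t + 1)`, `t ≥ 1`); `κ` is
constant for `E ≥ t` and decreasing before, so one needs, with
`Σ_{j=2}^{t} (2 n - m j) = 2 n (t - 1) - m (t (t + 1) / 2 - 1)`:
(i) `(n.choose 2) + 1 - n ≥ 3 + 2 n (t - 1) - m (t (t + 1) / 2 - 1)`, that is (times 2)
    `n^2 - n (4 t - 1) + m (t + 2) (t - 1) - 4 ≥ 0`;
(ii) `n (n - 1 - m) + m + 1 ≥ 3 + 2 n (t - 1) - m (t (t + 1) / 2 - 1)`, that is (times 2)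
    `2 n^2 + n (2 - 2 m - 4 t) + m (t^2 + t) - 4 ≥ 0`.
For `t = 1`: (i) is `n^2 - 3 n - 4 ≥ 0` (`n ≥ 4`), (ii) is `2 n^2 - (2 m + 2) n + 2 m - 4 ≥ 0`, i.e.
`2 n (n - 1 - m) + 2 m - 4 ≥ 0`, true as `n ≥ m + 1` and `m ≥ 3`.
For `t ≥ 2` both left hand sides are increasing in `n` for `n ≥ m t + 1`; at `n = m t + 1`:
(i) is `m t^2 (m - 3) + 4 t (m - 1) - 2 m - 2 ≥ 8 (m - 1) - 2 m - 2 > 0`;
(ii) is `2 m^2 t (t - 1) - 3 m t^2 + 7 m t - 2 m - 4 t ≥ 6 m t (t - 1) - 3 m t^2 + 7 m t - 2 m - 4 t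
    = 3 m t^2 + m t - 2 m - 4 t > 0`.
(Write `n = m t + 1 + r` with `r ≥ 0`, `m = 3 + u`, `t = 2 + v` and expand: all terms are nonnegative.)
One may work with closed formulas over `ℤ`: put
`κ E = k₁ - (2 n (s - 1) - m (s (s + 1) / 2 - 1))` with `s = min E t` and check the recursion.
-/

namespace Pool.Agent.Helper30.RY

/-- the partial sums `Σ_{j=2}^{v+1} (2 n - m j)` -/
private def S6 (n m : ℕ) (v : ℕ) : ℤ := ∑ j ∈ Finset.range v, (2 * (n : ℤ) - m * (j + 2))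

private lemma S6_eq (n m v : ℕ) : 2 * S6 n m v = 4 * n * v - m * v * (v + 3) := by
  induction v with
  | zero => simp [S6]
  | succ v ih =>
    have h : S6 n m (v + 1) = S6 n m v + (2 * (n : ℤ) - m * (v + 2)) := Finset.sum_range_succ _ _
    rw [h]
    push_cast
    linarith

private lemma key6 {n d m : ℕ} (hd : 2 ≤ d) (hn : d + 2 ≤ n) (hm : m + d = n + 1) (v : ℕ)
    (hv : m * (v + 1) + 1 ≤ n) : 3 ≤ min ((n.choose 2 : ℤ) + 1 - n) (n * (d - 2) + m + 1) - S6 n m v := by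
  have hc : (n.choose 2 : ℤ) * 2 = n * (n - 1) := by
    have h1 : n.choose 2 * 2 = n * (n - 1) := by
      rw [Nat.choose_two_right]
      exact Nat.div_mul_cancel (Nat.even_mul_pred_self n).two_dvd
    have h2 : ((n.choose 2 * 2 : ℕ) : ℤ) = ((n * (n - 1) : ℕ) : ℤ) := by rw [h1]
    push_cast [Nat.cast_sub (show 1 ≤ n by omega)] at h2
    exact h2
  have hS := S6_eq n m v
  have hdz : (d : ℤ) = n + 1 - m := by omega
  obtain ⟨u, rfl⟩ : ∃ u, m = 3 + u := ⟨m - 3, by omega⟩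
  obtain ⟨r, rfl⟩ : ∃ r, n = (3 + u) * (v + 1) + 1 + r := ⟨n - ((3 + u) * (v + 1) + 1), by omega⟩
  have key : 6 + 2 * S6 ((3 + u) * (v + 1) + 1 + r) (3 + u) v ≤
        2 * ((((3 + u) * (v + 1) + 1 + r).choose 2 : ℤ) + 1 - (((3 + u) * (v + 1) + 1 + r : ℕ) : ℤ)) ∧
      6 + 2 * S6 ((3 + u) * (v + 1) + 1 + r) (3 + u) v ≤
        2 * ((((3 + u) * (v + 1) + 1 + r : ℕ) : ℤ) * ((d : ℤ) - 2) + ((3 + u : ℕ) : ℤ) + 1) := by
    rw [hS, hdz]
    have e1 : 2 * ((((3 + u) * (v + 1) + 1 + r).choose 2 : ℤ) + 1 - (((3 + u) * (v + 1) + 1 + r : ℕ) : ℤ)) =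
        (((3 + u) * (v + 1) + 1 + r : ℕ) : ℤ) * ((((3 + u) * (v + 1) + 1 + r : ℕ) : ℤ) - 1) + 2 -
          2 * (((3 + u) * (v + 1) + 1 + r : ℕ) : ℤ) := by linarith
    rw [e1]
    rcases v with _ | w
    · push_cast
      constructor
      · rw [← sub_nonneg]
        ring_nf
        positivity
      · rw [← sub_nonneg]
        ring_nf
        positivity
    · push_cast
      constructor
      · rw [← sub_nonneg]
        ring_nf
        positivity
      · rw [← sub_nonneg]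
        ring_nf
        positivity
  have h1 : 3 + S6 ((3 + u) * (v + 1) + 1 + r) (3 + u) v ≤
      min ((((3 + u) * (v + 1) + 1 + r).choose 2 : ℤ) + 1 - (((3 + u) * (v + 1) + 1 + r : ℕ) : ℤ))
        ((((3 + u) * (v + 1) + 1 + r : ℕ) : ℤ) * ((d : ℤ) - 2) + ((3 + u : ℕ) : ℤ) + 1) :=
    le_min (by linarith [key.1]) (by linarith [key.2])
  linarith

theorem exists_kappa {n d m : ℕ} (hd : 2 ≤ d) (hn : d + 2 ≤ n) (hm : m + d = n + 1) :
    ∃ κ : ℕ → ℕ, κ 1 + n ≤ 1 + n.choose 2 ∧ κ 1 ≤ n * (d - 2) + m + 1 ∧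
      (∀ E, 1 ≤ E → 3 ≤ κ E) ∧ (∀ E, 1 ≤ E → κ (E + 1) ≤ κ E) ∧
      (∀ E, 1 ≤ E → n + 3 ≤ κ E + m * (E + 1)) ∧
      (∀ E, 1 ≤ E → m * (E + 1) < n → κ (E + 1) + 2 * n ≤ κ E + m * (E + 1)) := by
  set t : ℕ := (n - 1) / m with ht
  have hm0 : 0 < m := by omega
  have ht1 : m * t ≤ n - 1 := Nat.mul_div_le (n - 1) m
  have ht2 : n - 1 < m * (t + 1) := Nat.lt_mul_div_succ (n - 1) hm0
  have ht3 : 1 ≤ t := (Nat.one_le_div_iff hm0).2 (by omega)
  set k : ℤ := min ((n.choose 2 : ℤ) + 1 - n) (n * (d - 2) + m + 1) with hk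
  have h3 : ∀ v, v + 1 ≤ t → 3 ≤ k - S6 n m v := by
    intro v hv
    apply key6 hd hn hm
    have := Nat.mul_le_mul_left m hv
    omega
  have hmin : ∀ E, min E t - 1 + 1 ≤ t := by
    intro E
    omega
  have hK : ∀ E, ((k - S6 n m (min E t - 1)).toNat : ℤ) = k - S6 n m (min E t - 1) := by
    intro E
    exact Int.toNat_of_nonneg (by linarith [h3 _ (hmin E)])
  have hstep : ∀ E, 1 ≤ E → m * (E + 1) < n →
      S6 n m (min (E + 1) t - 1) = S6 n m (min E t - 1) + (2 * (n : ℤ) - m * (E + 1)) := by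
    intro E hE hlt
    have h1 : E + 1 ≤ t := by
      by_contra hcon
      have := Nat.mul_le_mul_left m (show t + 1 ≤ E + 1 by omega)
      omega
    have e1 : min (E + 1) t - 1 = (E - 1) + 1 := by omega
    have e2 : min E t - 1 = E - 1 := by omega
    rw [e1, e2]
    have h2 : S6 n m (E - 1 + 1) = S6 n m (E - 1) + (2 * (n : ℤ) - m * (((E - 1 : ℕ) : ℤ) + 2)) :=
      Finset.sum_range_succ _ _
    rw [h2, Nat.cast_sub hE]
    push_cast
    ring
  have hstep2 : ∀ E, 1 ≤ E → ¬ m * (E + 1) < n →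
      S6 n m (min (E + 1) t - 1) = S6 n m (min E t - 1) := by
    intro E hE hlt
    have h1 : t ≤ E := by
      by_contra hcon
      have := Nat.mul_le_mul_left m (show E + 1 ≤ t by omega)
      omega
    have e1 : min (E + 1) t = t := by omega
    have e2 : min E t = t := by omega
    rw [e1, e2]
  refine ⟨fun E => (k - S6 n m (min E t - 1)).toNat, ?_, ?_, ?_, ?_, ?_, ?_⟩
  · have h1 := hK 1
    have e1 : min 1 t - 1 = 0 := by omega
    simp only
    rw [e1] at h1 ⊢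
    have h2 : S6 n m 0 = 0 := by simp [S6]
    have h4 : k ≤ (n.choose 2 : ℤ) + 1 - n := min_le_left _ _
    omega
  · have h1 := hK 1
    have e1 : min 1 t - 1 = 0 := by omega
    simp only
    rw [e1] at h1 ⊢
    have h2 : S6 n m 0 = 0 := by simp [S6]
    have h4 : k ≤ (n : ℤ) * (d - 2) + m + 1 := min_le_right _ _
    have h5 : ((n * (d - 2) + m + 1 : ℕ) : ℤ) = (n : ℤ) * (d - 2) + m + 1 := by
      push_cast [Nat.cast_sub hd]
      ring
    rw [← h5] at h4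
    rw [h2] at h1
    omega
  · intro E hE
    have h1 := hK E
    have h2 := h3 _ (hmin E)
    simp only
    omega
  · intro E hE
    have h1 := hK E
    have h2 := hK (E + 1)
    simp only
    by_cases hlt : m * (E + 1) < n
    · rw [hstep E hE hlt] at h2 ⊢
      have h4 : (m : ℤ) * (E + 1) < n := by exact_mod_cast hlt
      omega
    · rw [hstep2 E hE hlt]
  · intro E hE
    have h1 := hK E
    have h2 := hK (E + 1)
    have h4 := h3 _ (hmin (E + 1))
    have h5 := h3 _ (hmin E)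
    simp only
    by_cases hlt : m * (E + 1) < n
    · rw [hstep E hE hlt] at h2 h4
      zify
      have h6 : (m : ℤ) * (E + 1) < n := by exact_mod_cast hlt
      rw [h1]
      linarith
    · zify
      rw [h1]
      have h6 : (n : ℤ) ≤ (m : ℤ) * (E + 1) := by exact_mod_cast not_lt.1 hlt
      linarith
  · intro E hE hlt
    have h1 := hK E
    have h2 := hK (E + 1)
    simp only
    zify
    rw [h1, h2, hstep E hE hlt]
    linarith

end Pool.Agent.Helper30.RY
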