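import Mathlib
import Pool.Agent.Helper30.RY.GenB

/-!
# Block RY-LAM: generic linear forms vanishing at a given vector

`c` is a nonzero vector (indexed by a finite type `ι`, `N = card ι`), `S` a finite set.
`λ_1, ..., λ_σ` are linear forms (coefficient vectors `lam i`), generic subject to `λ_i(c) = 0`.

* `exists_lam`: choose `α` with `c α ≠ 0` and the `lam i m`, `m ≠ α`, generic over `S ∪ rg c`
  (`exists_generic` for `Fin σ × {m // m ≠ α}`), and put `lam i α = - ∑_{m ≠ α} lam i m * c m / c α`, an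
  element of `cl K (rg c ∪ the other lam i m)`.
* `lam_le`: if `c'' ≠ 0` satisfies `λ_i(c'') = 0`, then one coordinate of each `λ_i` is in the `cl` of
  `rg c''` and the other coordinates.
* `lam_avoid`: let `G` be a set of vectors, stable under multiplication with nonzero scalars, whose
  nonzero elements have rank at most `σ`, and `¬ G c`.  Suppose `G g`, `g ≠ 0` and `λ_i(g) = 0` for all `i`.
  Choose `μ` generic over `S ∪ rg c ∪ rgl lam ∪ rg g`, `g' = μ g`.  `c` and `g'` are linearly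
  independent (`G` is stable under scalars), so there are indices `α, β` with
  `c α * g' β - c β * g' α ≠ 0`, and by Cramer's rule `lam i α`, `lam i β` are in the `cl` of
  `rg c ∪ rg g'` and the other coordinates of `lam i`; so
  `rk (rg c ∪ rg g' ∪ rgl lam) ≤ rk (rg c ∪ rg g') + σ (N - 2) ≤ rk (rg c) + σ + σ (N - 2)
   = rk (rg c) + σ (N - 1)` (note `N ≥ 2`), which is `rk (rg c ∪ rgl lam)` (from the hypothesis with
  `S`, `generic_of_subset_cl`-like: `rk_submod`).  So `rg g' ⊆ cl K (rg c ∪ rgl lam)`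
  (`subset_cl_of_rk_le`), contradicting the choice of `μ`: some `g m ≠ 0`, and then
  `μ = g' m / g m ∈ cl K (rg c ∪ rgl lam ∪ rg g)`.
* `lam_rank`: let `T ⊆ S` be a finite set, `c₁ = c / c α` the normalised vector.  Claim:
  `min (rk T + σ) (rk (T ∪ rg c₁)) + σ (N - 1) ≤ rk (T ∪ rgl lam)`.
  Induction on `σ`, for all `T`, `S`.  Step `σ → σ + 1`: let `T' = T ∪ rg (lam 0)`, `S' = S ∪ rg (lam 0)` and
  let `lam'` be the remaining `σ` forms; they satisfy the hypothesis with `S'`.  The `lam 0 m`, `m ≠ α`,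
  are generic over `S ∪ rg c`, and `lam 0 α` is in the `cl` of them and `rg c₁`.
  First case: `rk (T ∪ rg c₁) > rk T`.  Then `rk T' = rk T + N`: otherwise
  `lam 0 α ∈ cl K (T ∪ {lam 0 m, m ≠ α})`; apply `mem_cl_of_eval_mem` to the linear polynomial
  `p = - ∑_{m ≠ α} (c m / c α) U_m` (`p(lam 0) = lam 0 α`), whose coefficients are in `cl K (T ∪ rg c₁)`: all
  `c m / c α` are in `cl K T`, so `rk (T ∪ rg c₁) = rk T`, contradiction.  And
  `rk (T' ∪ rg c₁) = rk (T ∪ rg c₁) + (N - 1)` (genericity).  The induction hypothesis for `T'` gives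
  `min (rk T + N + σ) (rk (T ∪ rg c₁) + N - 1) + σ (N - 1) ≤ rk (T' ∪ rgl lam')`, the claim.
  Second case: `rg c₁ ⊆ cl K T`.  Then `rk T' ≥ rk T + (N - 1)`, `rk (T' ∪ rg c₁) = rk T'`, and the
  induction hypothesis gives `rk T' + σ (N - 1) ≤ rk (T' ∪ rgl lam')`.
-/

namespace Pool.Agent.Helper30.RY

open MvPolynomial

variable {K : Type*} [Field K] {Ω : Type*} [Field Ω] [Algebra K Ω] [IsAlgClosed Ω]
  [DecidableEq Ω] {ι : Type*} [Fintype ι]

/-- all coordinates of the linear forms -/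
def rgl {σ : ℕ} (lam : Fin σ → ι → Ω) : Finset Ω := Finset.univ.biUnion fun i => rg (lam i)

omit [IsAlgClosed Ω] [DecidableEq Ω] in
private theorem rk_eq46 {s t : Finset Ω} (h : ∀ x ∈ s, x ∈ cl K t) (h' : ∀ x ∈ t, x ∈ cl K s) :
    rk K s = rk K t :=
  le_antisymm (rk_le_of_subset_cl K h) (rk_le_of_subset_cl K h')

omit [Field Ω] [IsAlgClosed Ω] in
private theorem mem_rg46 {κ : Type*} [Fintype κ] (a : κ → Ω) (i : κ) : a i ∈ rg a :=
  Finset.mem_image_of_mem _ (Finset.mem_univ i)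

omit [Field Ω] [IsAlgClosed Ω] in
private theorem of_rg46 {κ : Type*} [Fintype κ] {a : κ → Ω} {x : Ω} (h : x ∈ rg a) :
    ∃ i, a i = x := by
  obtain ⟨i, _, hi⟩ := Finset.mem_image.1 h
  exact ⟨i, hi⟩

omit [Field Ω] [IsAlgClosed Ω] in
private theorem mem_rgl46 {σ : ℕ} (lam : Fin σ → ι → Ω) (i : Fin σ) (m : ι) :
    lam i m ∈ rgl lam :=
  Finset.mem_biUnion.2 ⟨i, Finset.mem_univ i, mem_rg46 _ m⟩

omit [Field Ω] [IsAlgClosed Ω] in
private theorem of_rgl46 {σ : ℕ} {lam : Fin σ → ι → Ω} {x : Ω} (h : x ∈ rgl lam) :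
    ∃ i m, lam i m = x := by
  obtain ⟨i, _, hi⟩ := Finset.mem_biUnion.1 h
  obtain ⟨m, hm⟩ := of_rg46 hi
  exact ⟨i, m, hm⟩

omit [IsAlgClosed Ω] [DecidableEq Ω] in
private theorem alpha_eq46 [DecidableEq ι] {c l : ι → Ω} (h0 : ∑ m, l m * c m = 0) {α : ι}
    (hα : c α ≠ 0) : l α = - ∑ m : {m // m ≠ α}, l m.1 * (c m.1 / c α) := by
  rw [Fintype.sum_eq_add_sum_subtype_ne _ α] at h0
  have h1 : l α * c α = - ∑ m : {m // m ≠ α}, l m.1 * c m.1 := eq_neg_of_add_eq_zero_left h0
  have h2 : ∑ m : {m // m ≠ α}, l m.1 * (c m.1 / c α) =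
      (∑ m : {m // m ≠ α}, l m.1 * c m.1) / c α := by
    rw [Finset.sum_div]
    exact Finset.sum_congr rfl fun m _ => (mul_div_assoc _ _ _).symm
  rw [h2, ← neg_div, ← h1, mul_div_cancel_right₀ _ hα]

omit [IsAlgClosed Ω] [DecidableEq Ω] in
private theorem alpha_mem46 [DecidableEq ι] {U : Finset Ω} {c l : ι → Ω}
    (h0 : ∑ m, l m * c m = 0) {α : ι} (hα : c α ≠ 0)
    (h1 : ∀ m, m ≠ α → c m / c α ∈ cl K U) (h2 : ∀ m, m ≠ α → l m ∈ cl K U) :
    l α ∈ cl K U := by
  rw [alpha_eq46 h0 hα]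
  exact neg_mem (sum_mem fun m _ => mul_mem (h2 _ m.2) (h1 _ m.2))

private theorem card_off46 [DecidableEq ι] (σ : ℕ) (α : ι) :
    Fintype.card (Fin σ × {m // m ≠ α}) = σ * (Fintype.card ι - 1) := by
  rw [Fintype.card_prod, Fintype.card_fin]
  congr 1
  rw [Fintype.card_subtype_compl, Fintype.card_subtype_eq]

omit [IsAlgClosed Ω] [DecidableEq Ω] [Fintype ι] in
private theorem exists_ne46 {c : ι → Ω} (hc : c ≠ 0) : ∃ α, c α ≠ 0 := by
  by_contra hcon
  push Not at hcon
  exact hc (funext hcon)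

omit [IsAlgClosed Ω] in
private theorem rgl_cl46 [DecidableEq ι] {U : Finset Ω} {c : ι → Ω} {σ : ℕ}
    {lam : Fin σ → ι → Ω} (h0 : ∀ i, ∑ m, lam i m * c m = 0) {α : ι} (hα : c α ≠ 0)
    (h1 : ∀ m, m ≠ α → c m / c α ∈ cl K U)
    (h2 : ∀ i m, m ≠ α → lam i m ∈ cl K U) : ∀ x ∈ rgl lam, x ∈ cl K U := by
  intro x hx
  obtain ⟨i, m, rfl⟩ := of_rgl46 hx
  by_cases hm : m = α
  · subst hm
    exact alpha_mem46 (h0 i) hα h1 (fun m hm => h2 i m hm)
  · exact h2 i m hm

omit [IsAlgClosed Ω] in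
theorem exists_lam (hb : Big K Ω) (S : Finset Ω) (c : ι → Ω) (hc : c ≠ 0) (σ : ℕ) :
    ∃ lam : Fin σ → ι → Ω, (∀ i, ∑ m, lam i m * c m = 0) ∧
      rk K (S ∪ rg c ∪ rgl lam) = rk K (S ∪ rg c) + σ * (Fintype.card ι - 1) := by
  classical
  obtain ⟨α, hα⟩ := exists_ne46 hc
  obtain ⟨t, ht⟩ := exists_generic K hb (S ∪ rg c) (Fin σ × {m // m ≠ α})
  rw [card_off46] at ht
  set lam : Fin σ → ι → Ω := fun i m => if h : m = α then
    -((∑ m' : {m // m ≠ α}, t (i, m') * c m'.1) / c α) else t (i, ⟨m, h⟩) with hlam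
  have e1 : ∀ i (m : {m // m ≠ α}), lam i m.1 = t (i, m) := by
    intro i m
    rw [hlam]
    simp only
    rw [dif_neg m.2]
  have e2 : ∀ i, lam i α = -((∑ m' : {m // m ≠ α}, t (i, m') * c m'.1) / c α) := by
    intro i
    rw [hlam]
    simp only
    rw [dif_pos trivial]
  have h0 : ∀ i, ∑ m, lam i m * c m = 0 := by
    intro i
    rw [Fintype.sum_eq_add_sum_subtype_ne _ α, e2]
    have h3 : ∑ m : {m // m ≠ α}, lam i m.1 * c m.1 = ∑ m : {m // m ≠ α}, t (i, m) * c m.1 :=
      Finset.sum_congr rfl fun m _ => by rw [e1]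
    rw [h3, neg_mul, div_mul_cancel₀ _ hα, neg_add_cancel]
  refine ⟨lam, h0, ?_⟩
  rw [← ht]
  have hmem : ∀ (i : Fin σ) (m : ι), m ≠ α → lam i m ∈ cl K (S ∪ rg c ∪ rg t) := by
    intro i m hm
    rw [e1 i ⟨m, hm⟩]
    exact subset_cl K _ _ (Finset.mem_union_right _ (mem_rg46 t (i, ⟨m, hm⟩)))
  have hc1 : ∀ m, m ≠ α → c m / c α ∈ cl K (S ∪ rg c ∪ rg t) := fun m _ =>
    div_mem (subset_cl K _ _ (Finset.mem_union_left _ (Finset.mem_union_right _ (mem_rg46 c m))))
      (subset_cl K _ _ (Finset.mem_union_left _ (Finset.mem_union_right _ (mem_rg46 c α))))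
  refine rk_eq46 (fun x hx => ?_) (fun x hx => ?_)
  · rcases Finset.mem_union.1 hx with hx | hx
    · exact subset_cl K _ _ (Finset.mem_union_left _ hx)
    · exact rgl_cl46 h0 hα hc1 hmem x hx
  · rcases Finset.mem_union.1 hx with hx | hx
    · exact subset_cl K _ _ (Finset.mem_union_left _ hx)
    · obtain ⟨⟨i, m⟩, rfl⟩ := of_rg46 hx
      rw [← e1]
      exact subset_cl K _ _ (Finset.mem_union_right _ (mem_rgl46 lam i m.1))

omit [IsAlgClosed Ω] in
theorem lam_le (S : Finset Ω) {c : ι → Ω} (hc : c ≠ 0) {σ : ℕ} (lam : Fin σ → ι → Ω)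
    (h0 : ∀ i, ∑ m, lam i m * c m = 0) :
    rk K (S ∪ rg c ∪ rgl lam) ≤ rk K (S ∪ rg c) + σ * (Fintype.card ι - 1) := by
  classical
  obtain ⟨α, hα⟩ := exists_ne46 hc
  set u : Fin σ × {m // m ≠ α} → Ω := fun p => lam p.1 p.2.1 with hu
  have h1 : rk K (S ∪ rg c ∪ rgl lam) ≤ rk K (S ∪ rg c ∪ rg u) := by
    refine rk_le_of_subset_cl K fun x hx => ?_
    rcases Finset.mem_union.1 hx with hx | hx
    · exact subset_cl K _ _ (Finset.mem_union_left _ hx)
    · refine rgl_cl46 h0 hα (fun m _ => ?_) (fun i m hm => ?_) x hx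
      · exact div_mem
          (subset_cl K _ _ (Finset.mem_union_left _ (Finset.mem_union_right _ (mem_rg46 c m))))
          (subset_cl K _ _ (Finset.mem_union_left _ (Finset.mem_union_right _ (mem_rg46 c α))))
      · exact subset_cl K _ _ (Finset.mem_union_right _ (mem_rg46 u (i, ⟨m, hm⟩)))
  have h2 := rk_union_le_card K (S ∪ rg c) (rg u)
  have h3 : (rg u).card ≤ Fintype.card (Fin σ × {m // m ≠ α}) := Finset.card_image_le
  rw [card_off46] at h3
  omega

theorem lam_avoid (hb : Big K Ω) {S : Finset Ω} {c : ι → Ω} (hc : c ≠ 0) {σ : ℕ}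
    {lam : Fin σ → ι → Ω} (h0 : ∀ i, ∑ m, lam i m * c m = 0)
    (hl : rk K (S ∪ rg c ∪ rgl lam) = rk K (S ∪ rg c) + σ * (Fintype.card ι - 1))
    (G : (ι → Ω) → Prop) (hG : ∀ g, G g → ∀ t : Ω, t ≠ 0 → G fun m => t * g m)
    (hG1 : ∀ g, G g → g ≠ 0 → rk K (rg g) ≤ σ) (hGc : ¬ G c) {g : ι → Ω} (hg : G g)
    (hg0 : g ≠ 0) : ∃ i, ∑ m, lam i m * g m ≠ 0 := by
  classical
  by_contra hcon
  push Not at hcon
  obtain ⟨μ, hμ⟩ := hb (S ∪ rg c ∪ rgl lam ∪ rg g)
  have hμ0 : μ ≠ 0 := fun h => hμ (h ▸ zero_mem _)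
  obtain ⟨γ, hγ⟩ := exists_ne46 hg0
  set g' : ι → Ω := fun m => μ * g m with hg'
  have hg'G : G g' := hG g hg μ hμ0
  have hg'0 : g' ≠ 0 := fun h => mul_ne_zero hμ0 hγ (congrFun h γ)
  have hrk := hG1 g' hg'G hg'0
  have hs : ∀ i, ∑ m, lam i m * g' m = 0 := by
    intro i
    have e : ∑ m, lam i m * g' m = μ * ∑ m, lam i m * g m := by
      rw [Finset.mul_sum]
      exact Finset.sum_congr rfl fun m _ => by rw [hg']; ring
    rw [e, hcon i, mul_zero]
  -- two independent coordinates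
  obtain ⟨α, β, hD⟩ : ∃ α β, c α * g' β - c β * g' α ≠ 0 := by
    by_contra hc2
    push Not at hc2
    obtain ⟨α, hα⟩ := exists_ne46 hc
    have h1 : ∀ β, g' β = (g' α / c α) * c β := by
      intro β
      have := hc2 α β
      field_simp
      linear_combination this
    have ht : g' α / c α ≠ 0 := by
      intro h
      refine hg'0 (funext fun β => ?_)
      rw [h1 β, h, zero_mul]
      rfl
    have h2 := hG g' hg'G (g' α / c α)⁻¹ (inv_ne_zero ht)
    have h3 : (fun m => (g' α / c α)⁻¹ * g' m) = c := by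
      funext m
      rw [h1 m, inv_mul_cancel_left₀ ht]
    rw [h3] at h2
    exact hGc h2
  have hαβ : α ≠ β := by
    rintro rfl
    exact hD (sub_self _)
  set v : Fin σ × {m // m ≠ α ∧ m ≠ β} → Ω := fun p => lam p.1 p.2.1 with hv
  have hcard : Fintype.card {m : ι // m ≠ α ∧ m ≠ β} = Fintype.card ι - 2 := by
    have h1 : Fintype.card {m : ι // m ≠ α ∧ m ≠ β} = ((Finset.univ.erase α).erase β).card := by
      rw [Fintype.card_subtype]
      congr 1
      ext m
      simp only [Finset.mem_filter, Finset.mem_univ, true_and, Finset.mem_erase, and_true]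
      tauto
    rw [h1, Finset.card_erase_of_mem (Finset.mem_erase.2 ⟨hαβ.symm, Finset.mem_univ β⟩),
      Finset.card_erase_of_mem (Finset.mem_univ α), Finset.card_univ]
    omega
  have hN : 2 ≤ Fintype.card ι := by
    have := Finset.card_le_univ ({α, β} : Finset ι)
    rwa [Finset.card_pair hαβ] at this
  have hsplit : ∀ f : ι → Ω, ∑ m, f m = f α + f β + ∑ m : {m // m ≠ α ∧ m ≠ β}, f m.1 := by
    intro f
    have h1 : ∑ m : {m // m ≠ α ∧ m ≠ β}, f m.1 = ∑ m ∈ (Finset.univ.erase α).erase β, f m := by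
      refine (Finset.sum_subtype _ (fun m => ?_) f).symm
      simp only [Finset.mem_univ, Finset.mem_erase, and_true]
      tauto
    rw [h1, ← Finset.add_sum_erase Finset.univ f (Finset.mem_univ α),
      ← Finset.add_sum_erase (Finset.univ.erase α) f
        (Finset.mem_erase.2 ⟨hαβ.symm, Finset.mem_univ β⟩), add_assoc]
  have hsub : ∀ x ∈ rgl lam, x ∈ cl K (rg c ∪ rg g' ∪ rg v) := by
    have hcm : ∀ m, c m ∈ cl K (rg c ∪ rg g' ∪ rg v) := fun m =>
      subset_cl K _ _ (Finset.mem_union_left _ (Finset.mem_union_left _ (mem_rg46 c m)))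
    have hgm : ∀ m, g' m ∈ cl K (rg c ∪ rg g' ∪ rg v) := fun m =>
      subset_cl K _ _ (Finset.mem_union_left _ (Finset.mem_union_right _ (mem_rg46 g' m)))
    have hvm : ∀ i m, m ≠ α ∧ m ≠ β → lam i m ∈ cl K (rg c ∪ rg g' ∪ rg v) := fun i m hm =>
      subset_cl K _ _ (Finset.mem_union_right _ (mem_rg46 v (i, ⟨m, hm⟩)))
    intro x hx
    obtain ⟨i, m, rfl⟩ := of_rgl46 hx
    have hA := h0 i
    have hB := hs i
    rw [hsplit] at hA hB
    have hAm : ∑ m : {m // m ≠ α ∧ m ≠ β}, lam i m.1 * c m.1 ∈ cl K (rg c ∪ rg g' ∪ rg v) :=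
      sum_mem fun m _ => mul_mem (hvm i _ m.2) (hcm _)
    have hBm : ∑ m : {m // m ≠ α ∧ m ≠ β}, lam i m.1 * g' m.1 ∈ cl K (rg c ∪ rg g' ∪ rg v) :=
      sum_mem fun m _ => mul_mem (hvm i _ m.2) (hgm _)
    set A := ∑ m : {m // m ≠ α ∧ m ≠ β}, lam i m.1 * c m.1 with hAd
    set B := ∑ m : {m // m ≠ α ∧ m ≠ β}, lam i m.1 * g' m.1 with hBd
    by_cases hmα : m = α
    · have e : lam i m = (B * c β - A * g' β) / (c α * g' β - c β * g' α) := by
        rw [eq_div_iff hD, hmα]
        linear_combination g' β * hA - c β * hB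
      rw [e]
      exact div_mem (sub_mem (mul_mem hBm (hcm β)) (mul_mem hAm (hgm β)))
        (sub_mem (mul_mem (hcm α) (hgm β)) (mul_mem (hcm β) (hgm α)))
    · by_cases hmβ : m = β
      · have e : lam i m = (A * g' α - B * c α) / (c α * g' β - c β * g' α) := by
          rw [eq_div_iff hD, hmβ]
          linear_combination c α * hB - g' α * hA
        rw [e]
        exact div_mem (sub_mem (mul_mem hAm (hgm α)) (mul_mem hBm (hcm α)))
          (sub_mem (mul_mem (hcm α) (hgm β)) (mul_mem (hcm β) (hgm α)))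
      · exact hvm i m ⟨hmα, hmβ⟩
  have r1 : rk K (rg c ∪ rg g' ∪ rgl lam) ≤ rk K (rg c ∪ rg g' ∪ rg v) := by
    refine rk_le_of_subset_cl K fun x hx => ?_
    rcases Finset.mem_union.1 hx with hx | hx
    · exact subset_cl K _ _ (Finset.mem_union_left _ hx)
    · exact hsub x hx
  have r2 := rk_union_le_card K (rg c ∪ rg g') (rg v)
  have r3 : (rg v).card ≤ σ * (Fintype.card ι - 2) := by
    have h1 : (rg v).card ≤ Fintype.card (Fin σ × {m : ι // m ≠ α ∧ m ≠ β}) :=
      Finset.card_image_le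
    rwa [Fintype.card_prod, Fintype.card_fin, hcard] at h1
  have r4 := rk_union_le K (rg c) (rg g')
  have r5 := rk_submod K (rg c) S (rgl lam)
  rw [Finset.union_comm (rg c) S] at r5
  have r6 : σ * (Fintype.card ι - 1) = σ + σ * (Fintype.card ι - 2) := by
    obtain ⟨k, hk⟩ : ∃ k, Fintype.card ι = k + 2 := ⟨Fintype.card ι - 2, by omega⟩
    rw [hk]
    have e1 : k + 2 - 1 = k + 1 := by omega
    have e2 : k + 2 - 2 = k := by omega
    rw [e1, e2]
    ring
  have r7 : rk K (rg c ∪ rgl lam ∪ rg g') ≤ rk K (rg c ∪ rgl lam) := by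
    rw [Finset.union_right_comm]
    omega
  have r8 := subset_cl_of_rk_le K r7 (g' γ) (mem_rg46 g' γ)
  refine hμ ?_
  have e : μ = g' γ / g γ := by
    rw [hg']
    simp only
    rw [mul_div_cancel_right₀ _ hγ]
  rw [e]
  refine div_mem (cl_mono K ?_ r8) (subset_cl K _ _ (Finset.mem_union_right _ (mem_rg46 g γ)))
  intro y hy
  refine Finset.mem_union_left _ ?_
  rcases Finset.mem_union.1 hy with hy | hy
  · exact Finset.mem_union_left _ (Finset.mem_union_right _ hy)
  · exact Finset.mem_union_right _ hy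

omit [Field Ω] [IsAlgClosed Ω] in
private theorem rgl_succ46 {σ : ℕ} (lam : Fin (σ + 1) → ι → Ω) :
    rgl lam = rg (lam 0) ∪ rgl (fun i : Fin σ => lam i.succ) := by
  ext x
  constructor
  · intro hx
    obtain ⟨i, m, rfl⟩ := of_rgl46 hx
    rcases Fin.eq_zero_or_eq_succ i with rfl | ⟨j, rfl⟩
    · exact Finset.mem_union_left _ (mem_rg46 _ m)
    · exact Finset.mem_union_right _ (mem_rgl46 (fun i : Fin σ => lam i.succ) j m)
  · intro hx
    rcases Finset.mem_union.1 hx with hx | hx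
    · obtain ⟨m, rfl⟩ := of_rg46 hx
      exact mem_rgl46 lam 0 m
    · obtain ⟨i, m, rfl⟩ := of_rgl46 hx
      exact mem_rgl46 lam i.succ m

private theorem lam_rank_aux46 {c : ι → Ω} {α : ι} (hα : c α ≠ 0) (σ : ℕ) :
    ∀ (S T : Finset Ω) (lam : Fin σ → ι → Ω), (∀ i, ∑ m, lam i m * c m = 0) →
      rk K (S ∪ rg c ∪ rgl lam) = rk K (S ∪ rg c) + σ * (Fintype.card ι - 1) → T ⊆ S →
      min (rk K T + σ) (rk K (T ∪ rg fun m => c m / c α)) + σ * (Fintype.card ι - 1) ≤
        rk K (T ∪ rgl lam) := by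
  classical
  have hc : c ≠ 0 := fun h => hα (congrFun h α)
  have hN : 1 ≤ Fintype.card ι := Fintype.card_pos_iff.2 ⟨α⟩
  induction σ with
  | zero =>
    intro S T lam _ _ _
    rw [Nat.zero_mul, Nat.add_zero, Nat.add_zero]
    exact (min_le_left _ _).trans (rk_mono K Finset.subset_union_left)
  | succ σ ih =>
    intro S T lam h0 hl hT
    set c₁ : ι → Ω := fun m => c m / c α with hc₁
    set lam' : Fin σ → ι → Ω := fun i => lam i.succ with hlam'
    set u : {m // m ≠ α} → Ω := fun m => lam 0 m.1 with hu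
    have hrgl := rgl_succ46 lam
    rw [← hlam'] at hrgl
    have eS : S ∪ rg (lam 0) ∪ rg c = S ∪ rg c ∪ rg (lam 0) := Finset.union_right_comm _ _ _
    have eS' : S ∪ rg (lam 0) ∪ rg c ∪ rgl lam' = S ∪ rg c ∪ rgl lam := by
      rw [eS, hrgl, Finset.union_assoc (S ∪ rg c)]
    have k1 := lam_le (K := K) (S ∪ rg (lam 0)) hc lam' (fun i => h0 i.succ)
    have k2 := lam_le (K := K) S hc (fun _ : Fin 1 => lam 0) (fun _ => h0 0)
    have e1 : rgl (fun _ : Fin 1 => lam 0) = rg (lam 0) := by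
      ext x
      constructor
      · intro hx
        obtain ⟨_, m, rfl⟩ := of_rgl46 hx
        exact mem_rg46 _ m
      · intro hx
        obtain ⟨m, rfl⟩ := of_rg46 hx
        exact mem_rgl46 (fun _ : Fin 1 => lam 0) 0 m
    rw [e1, one_mul] at k2
    rw [eS', hl, eS] at k1
    have hm : (σ + 1) * (Fintype.card ι - 1) =
        σ * (Fintype.card ι - 1) + (Fintype.card ι - 1) := by ring
    rw [hm] at k1 hl
    -- genericity of the first form
    have hcardu : Fintype.card {m // m ≠ α} = Fintype.card ι - 1 := by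
      rw [Fintype.card_subtype_compl, Fintype.card_subtype_eq]
    have hcl : ∀ m, c m ∈ cl K (S ∪ rg c) := fun m =>
      subset_cl K _ _ (Finset.mem_union_right _ (mem_rg46 c m))
    have hlu : ∀ (U : Finset Ω), (∀ m, c₁ m ∈ cl K U) → ∀ x ∈ rg (lam 0), x ∈ cl K (U ∪ rg u) := by
      intro U hU x hx
      obtain ⟨m, rfl⟩ := of_rg46 hx
      have hoff : ∀ m, m ≠ α → lam 0 m ∈ cl K (U ∪ rg u) := fun m hm =>
        subset_cl K _ _ (Finset.mem_union_right _ (mem_rg46 u ⟨m, hm⟩))
      by_cases hmα : m = α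
      · rw [hmα]
        exact alpha_mem46 (h0 0) hα (fun m _ => cl_mono K Finset.subset_union_left (hU m)) hoff
      · exact hoff m hmα
    have hug : rk K (S ∪ rg c ∪ rg u) = rk K (S ∪ rg c) + Fintype.card {m // m ≠ α} := by
      rw [hcardu]
      refine le_antisymm ?_ ?_
      · have h1 := rk_union_le_card K (S ∪ rg c) (rg u)
        have h2 : (rg u).card ≤ Fintype.card {m // m ≠ α} := Finset.card_image_le
        omega
      · have h1 : rk K (S ∪ rg c ∪ rg (lam 0)) ≤ rk K (S ∪ rg c ∪ rg u) := by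
          refine rk_le_of_subset_cl K fun x hx => ?_
          rcases Finset.mem_union.1 hx with hx | hx
          · exact subset_cl K _ _ (Finset.mem_union_left _ hx)
          · exact hlu (S ∪ rg c) (fun m => div_mem (hcl m) (hcl α)) x hx
        omega
    have hsubU : rg u ⊆ rg (lam 0) := by
      intro x hx
      obtain ⟨m, rfl⟩ := of_rg46 hx
      exact mem_rg46 (lam 0) m.1
    have hc1S : ∀ x ∈ T ∪ rg c₁, x ∈ cl K (S ∪ rg c) := by
      intro x hx
      rcases Finset.mem_union.1 hx with hx | hx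
      · exact subset_cl K _ _ (Finset.mem_union_left _ (hT hx))
      · obtain ⟨m, rfl⟩ := of_rg46 hx
        exact div_mem (hcl m) (hcl α)
    have gT : rk K (T ∪ rg u) = rk K T + (Fintype.card ι - 1) := by
      rw [← hcardu]
      exact generic_of_subset_cl hug fun x hx => hc1S x (Finset.mem_union_left _ hx)
    have gT1 : rk K (T ∪ rg c₁ ∪ rg u) = rk K (T ∪ rg c₁) + Fintype.card {m // m ≠ α} :=
      generic_of_subset_cl hug hc1S
    have IH := ih (S ∪ rg (lam 0)) (T ∪ rg (lam 0)) lam' (fun i => h0 i.succ)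
      (by rw [eS', eS]; omega) (Finset.union_subset_union_left hT)
    have eT : T ∪ rg (lam 0) ∪ rgl lam' = T ∪ rgl lam := by
      rw [hrgl, Finset.union_assoc]
    rw [eT] at IH
    have b1 : rk K (T ∪ rg c₁) + (Fintype.card ι - 1) ≤ rk K (T ∪ rg (lam 0) ∪ rg c₁) := by
      rw [← hcardu, ← gT1, Finset.union_right_comm T (rg (lam 0))]
      exact rk_mono K (Finset.union_subset_union_right hsubU)
    rw [hm]
    by_cases hcase : rk K T < rk K (T ∪ rg c₁)
    · -- first case
      have hα2 : lam 0 α ∉ cl K (T ∪ rg u) := by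
        intro hcon
        set p : MvPolynomial {m // m ≠ α} Ω :=
          - ∑ m : {m // m ≠ α}, C (c₁ m.1) * X m with hp
        have hev : eval u p = lam 0 α := by
          rw [alpha_eq46 (h0 0) hα, hp, map_neg, map_sum]
          congr 1
          refine Finset.sum_congr rfl fun m _ => ?_
          rw [map_mul, eval_C, eval_X, mul_comm]
        have hcoef : ∀ k, coeff k p = - ∑ m : {m // m ≠ α},
            (if Finsupp.single m 1 = k then c₁ m.1 else 0) := by
          intro k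
          rw [hp, coeff_neg, coeff_sum]
          congr 1
          refine Finset.sum_congr rfl fun m _ => ?_
          rw [coeff_C_mul, coeff_X']
          split_ifs <;> simp
        have hTc : ∀ k, coeff k p ∈ cl K (T ∪ rg c₁) := by
          intro k
          rw [hcoef]
          refine neg_mem (sum_mem fun m _ => ?_)
          split_ifs
          · exact subset_cl K _ _ (Finset.mem_union_right _ (mem_rg46 c₁ m.1))
          · exact zero_mem _
        have key := mem_cl_of_eval_mem p (rg c₁) hTc u gT1 (by rw [hev]; exact hcon)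
        have hmem : ∀ x ∈ rg c₁, x ∈ cl K T := by
          intro x hx
          obtain ⟨m, rfl⟩ := of_rg46 hx
          by_cases hmα : m = α
          · rw [hmα, hc₁]
            simp only
            rw [div_self hα]
            exact one_mem _
          · have h1 := key (Finsupp.single ⟨m, hmα⟩ 1)
            rw [hcoef, Finset.sum_eq_single (⟨m, hmα⟩ : {m // m ≠ α})] at h1
            · rw [if_pos rfl] at h1
              have h2 := neg_mem h1
              rwa [neg_neg] at h2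
            · intro m' _ hne
              rw [if_neg]
              intro h3
              exact hne ((Finsupp.single_left_inj one_ne_zero).1 h3)
            · intro h3
              exact absurd (Finset.mem_univ _) h3
        rw [rk_union_of_subset_cl K hmem] at hcase
        exact lt_irrefl _ hcase
      have a1 : rk K T + Fintype.card ι ≤ rk K (T ∪ rg (lam 0)) := by
        have h1 := rk_insert_of_notMem K hα2
        have h2 : rk K (insert (lam 0 α) (T ∪ rg u)) ≤ rk K (T ∪ rg (lam 0)) := by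
          refine rk_mono K fun x hx => ?_
          rcases Finset.mem_insert.1 hx with rfl | hx
          · exact Finset.mem_union_right _ (mem_rg46 (lam 0) α)
          · exact Finset.union_subset_union_right hsubU hx
        omega
      have h3 : min (rk K T + (σ + 1)) (rk K (T ∪ rg c₁)) + (Fintype.card ι - 1) ≤
          min (rk K (T ∪ rg (lam 0)) + σ) (rk K (T ∪ rg (lam 0) ∪ rg c₁)) := by
        refine le_min ?_ ?_
        · have := min_le_left (rk K T + (σ + 1)) (rk K (T ∪ rg c₁))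
          omega
        · have := min_le_right (rk K T + (σ + 1)) (rk K (T ∪ rg c₁))
          omega
      omega
    · -- second case
      have a1 : rk K T + (Fintype.card ι - 1) ≤ rk K (T ∪ rg (lam 0)) := by
        rw [← gT]
        exact rk_mono K (Finset.union_subset_union_right hsubU)
      have a2 : rk K (T ∪ rg (lam 0)) ≤ rk K (T ∪ rg (lam 0) ∪ rg c₁) :=
        rk_mono K Finset.subset_union_left
      have h3 : rk K (T ∪ rg (lam 0)) ≤
          min (rk K (T ∪ rg (lam 0)) + σ) (rk K (T ∪ rg (lam 0) ∪ rg c₁)) :=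
        le_min (Nat.le_add_right _ _) a2
      have h4 := min_le_right (rk K T + (σ + 1)) (rk K (T ∪ rg c₁))
      omega

theorem lam_rank {S : Finset Ω} {c : ι → Ω} {σ : ℕ}
    {lam : Fin σ → ι → Ω} (h0 : ∀ i, ∑ m, lam i m * c m = 0)
    (hl : rk K (S ∪ rg c ∪ rgl lam) = rk K (S ∪ rg c) + σ * (Fintype.card ι - 1))
    {α : ι} (hα : c α ≠ 0) {T : Finset Ω} (hT : T ⊆ S) :
    min (rk K T + σ) (rk K (T ∪ rg fun m => c m / c α)) + σ * (Fintype.card ι - 1) ≤
      rk K (T ∪ rgl lam) :=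
  lam_rank_aux46 hα σ S T lam h0 hl hT

end Pool.Agent.Helper30.RY
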