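import Mathlib
import Pool.Agent.Helper30.RY.BlB
import Pool.Agent.Helper30.RY.Bch
import Pool.Agent.Helper30.RY.Lam
import Pool.Agent.Helper30.RY.Nlb

/-!
# Block RY-FBR: bend and break in a family of hypersurfaces

`N = card (Mon n d)`, `σ = N - κ - 1`, `e = E + 1`, `c₁ = c / c α₀`.

1. `exists_lam` with `S = rga a e` gives `σ` linear forms `lam`, generic with `lam i (c) = 0`.
   Let `T = rg (a e) ∪ rgl lam`, `K₁ = K(T)` (`IntermediateField.adjoin K (T : Set Ω)`).
2. Claim: some `a l i` (`l ≤ e`) is not in `cl K₁ ∅ = cl K T` (`mem_cl_adjoin`).  Otherwise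
   `rk (rga a e ∪ rgl lam) ≤ rk T ≤ rk (rg (a e)) + σ N`, and `lam_rank` (with `T := rga a e ⊆ S`) gives
   `min (rk (rga a e) + σ) (rk (rga a e ∪ rg c₁)) + σ (N - 1) ≤ rk (rg (a e)) + σ N`, so
   `min (...) ≤ rk (rg (a e)) + σ`, contradicting `hNC` or `hA`.
3. Apply `bend_break` over `K₁` (`big_adjoin`) with `x = e₀`, `y = a e` (coordinates in `K₁`).
4. The specialisation over `K₁` restricts to `K` (`Spc.restrict`).
   `c' (m0 n d) = 0` (`Spc.eq_zero`).  The relation `∑ lam i m * (c m / c α) = 0` has coefficients in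
   `K₁`, so `∑ lam i m * c' m = 0`.
5. `¬ NL K m E c'`: `c' ≠ 0` (`c' α = 1`); apply `lam_avoid` with `G g := NL K m E g ∧ g (m0 n d) = 0`
   (`nl_smul`; `nl_point` gives `rk (rg g) + 1 + κ ≤ N`, so `rk (rg g) ≤ σ`; `¬ G c`): if `NL K m E c'`
   then some `lam i (c') ≠ 0`, contradiction.
6. Ranks (`rk_adjoin`: `rk K₁ X = rk K (T ∪ X) - rk K T`).  Write `X = rg c₁ ∪ rga a e`,
   `P = rg c₁ ∪ rgt τ e ∪ rga b e`, `P' = rg c' ∪ rgt τ' e ∪ rga a' e`, now with `c₁ = c / c α` for the `α` of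
   `bend_break` (`rk (rg (c/cα) ∪ Y) = rk (rg (c/cα₀) ∪ Y)`, mutual `cl`).
   Over `K₁`: `rk K (T ∪ X) + e ≤ rk K (T ∪ P) ≤ rk K (T ∪ P') + card B`.
   * `rk K (T ∪ X) = rk K X + σ (N - 1)`: `rg (a e) ⊆ X`, genericity of `lam` over `rga a e ∪ rg c`
     (`exists_lam`, `generic_of_subset_cl`-like, `rk_submod`) .
   * `X ⊆ cl K P`: `θ^l a l i = wt e τ l * b l i`, and `a e j = 1` gives `θ^e ∈ cl K P`, `θ ∈ cl K P`.
     So `rk K (T ∪ P) + rk K X ≤ rk K (T ∪ X) + rk K P` (`rk_submod` for `X ∪ T`, `X ∪ P`), hence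
     `rk K X + e ≤ rk K P`.
   * `rk K P ≤ rk K (X ∪ {θ, τ 1, ..., τ (e-1)}) ≤ rk K X + e` (`b l i = θ^l a l i / wt e τ l`), so
     `rk K P + σ (N - 1) ≤ rk K (T ∪ X) + e ≤ rk K (T ∪ P)`.
   * `rk K (T ∪ P') ≤ rk K P' + σ (N - 1)`: `rg (a e) ⊆ cl K (rg (a' e))` because
     `a' e = η • a e` and `a e j = 1`; `lam_le` for `c'`.
   Together `rk K P ≤ rk K P' + card B`.
-/

namespace Pool.Agent.Helper30.RY

open MvPolynomial

set_option linter.unusedSectionVars false

variable {K : Type*} [Field K] {Ω : Type*} [Field Ω] [Algebra K Ω] [IsAlgClosed Ω]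
  [DecidableEq Ω] {n d m : ℕ}

omit [IsAlgClosed Ω] in
private theorem wt_mem61 {P : Finset Ω} {τ : ℕ → Ω} {e : ℕ} (hP : rgt τ e ⊆ P) (l : ℕ) :
    wt e τ l ∈ cl K P := by
  unfold wt
  refine prod_mem fun i hi => pow_mem (subset_cl K P _ (hP ?_)) _
  exact Finset.mem_image_of_mem τ hi

omit [IsAlgClosed Ω] [Algebra K Ω] [DecidableEq Ω] in
private theorem wt_ne61 {τ : ℕ → Ω} {e : ℕ} (h : ∀ i, 1 ≤ i → i < e → τ i ≠ 0) (l : ℕ) :
    wt e τ l ≠ 0 := by
  unfold wt
  refine Finset.prod_ne_zero_iff.2 fun i hi => pow_ne_zero _ ?_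
  exact h i (Finset.mem_Ico.1 hi).1 (Finset.mem_Ico.1 hi).2

omit [IsAlgClosed Ω] [Algebra K Ω] in
private theorem mem_rga61 (a : ℕ → Fin (n + 1) → Ω) {e l : ℕ} (hl : l ≤ e) (i : Fin (n + 1)) :
    a l i ∈ rga a e := by
  unfold rga rg
  rw [Finset.mem_biUnion]
  exact ⟨l, Finset.mem_range.2 (Nat.lt_succ_of_le hl), Finset.mem_image_of_mem _ (Finset.mem_univ i)⟩

omit [IsAlgClosed Ω] [Algebra K Ω] in
private theorem rga_cases61 {a : ℕ → Fin (n + 1) → Ω} {e : ℕ} {x : Ω} (h : x ∈ rga a e) :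
    ∃ l ≤ e, ∃ i, x = a l i := by
  unfold rga rg at h
  rw [Finset.mem_biUnion] at h
  obtain ⟨l, hl, h⟩ := h
  rw [Finset.mem_image] at h
  obtain ⟨i, _, rfl⟩ := h
  exact ⟨l, Nat.le_of_lt_succ (Finset.mem_range.1 hl), i, rfl⟩

omit [IsAlgClosed Ω] [Algebra K Ω] in
private theorem card_rgl61 {ι : Type*} [Fintype ι] {σ : ℕ} (lam : Fin σ → ι → Ω) :
    (rgl lam).card ≤ σ * Fintype.card ι := by
  unfold rgl
  refine Finset.card_biUnion_le.trans ?_
  refine (Finset.sum_le_card_nsmul _ _ (Fintype.card ι) fun i _ => ?_).trans ?_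
  · exact Finset.card_image_le
  · simp

/-- the coefficients of the curve are algebraic over the fine coordinates -/
private theorem curve_mem61 {P : Finset Ω} {τ : ℕ → Ω} {e : ℕ} (he : 0 < e)
    {a b : ℕ → Fin (n + 1) → Ω} {θ : Ω} (hθ : θ ≠ 0) {j : Fin (n + 1)} (haj : a e j = 1)
    (hab : ∀ l ≤ e, ∀ i, θ ^ l * a l i = wt e τ l * b l i) (hP : rgt τ e ⊆ P)
    (hP' : rga b e ⊆ P) : ∀ x ∈ rga a e, x ∈ cl K P := by
  have hb : ∀ l ≤ e, ∀ i, wt e τ l * b l i ∈ cl K P := fun l hl i =>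
    mul_mem (wt_mem61 hP l) (subset_cl K P _ (hP' (mem_rga61 b hl i)))
  have hθ' : θ ∈ cl K P := by
    refine mem_cl_of_pow_mem K he ?_
    have h1 := hab e le_rfl j
    rw [haj, mul_one] at h1
    rw [h1]
    exact hb e le_rfl j
  intro x hx
  obtain ⟨l, hl, i, rfl⟩ := rga_cases61 hx
  have h1 : a l i = (θ ^ l)⁻¹ * (wt e τ l * b l i) := by
    rw [← hab l hl i, inv_mul_cancel_left₀ (pow_ne_zero l hθ)]
  rw [h1]
  exact mul_mem (inv_mem (pow_mem hθ' l)) (hb l hl i)

/-- the fine coordinates are algebraic over the curve, `θ` and the `τ i` -/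
private theorem fine_mem61 {X : Finset Ω} {τ : ℕ → Ω} {e : ℕ}
    {a b : ℕ → Fin (n + 1) → Ω} {θ : Ω} (hτ : ∀ i, 1 ≤ i → i < e → τ i ≠ 0)
    (hab : ∀ l ≤ e, ∀ i, θ ^ l * a l i = wt e τ l * b l i) (hX : rga a e ⊆ X) :
    ∀ x ∈ rga b e, x ∈ cl K (X ∪ insert θ (rgt τ e)) := by
  intro x hx
  obtain ⟨l, hl, i, rfl⟩ := rga_cases61 hx
  have h1 : b l i = (wt e τ l)⁻¹ * (θ ^ l * a l i) := by
    rw [hab l hl i, inv_mul_cancel_left₀ (wt_ne61 hτ l)]
  rw [h1]
  refine mul_mem (inv_mem (wt_mem61 ?_ l)) (mul_mem (pow_mem (subset_cl K _ _ ?_) l)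
    (subset_cl K _ _ ?_))
  · exact (Finset.subset_insert _ _).trans Finset.subset_union_right
  · exact Finset.mem_union_right _ (Finset.mem_insert_self _ _)
  · exact Finset.mem_union_left _ (hX (mem_rga61 a hl i))

theorem fam_break (hb : Big K Ω) (hd : 1 ≤ d) {E κ : ℕ}
    (hκ : ∀ c₀ : Mon n d → Ω, ¬ Lay K m E c₀ → rk K (rg c₀) + κ ≤ Fintype.card (Mon n d))
    (hκ' : κ + 1 ≤ Fintype.card (Mon n d)) (c : Mon n d → Ω) (h0 : c (m0 n d) = 0)
    (hN : ¬ NL K m E c) (a : ℕ → Fin (n + 1) → Ω) (ha0 : a 0 = Pi.single 0 1)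
    (j : Fin (n + 1)) (haj : a (E + 1) j = 1) (hV : Van c a (E + 1)) (α₀ : Mon n d)
    (hα₀ : c α₀ ≠ 0)
    (hA : rk K (rg (a (E + 1))) + (Fintype.card (Mon n d) - κ - 1) <
      rk K (rg (fun m => c m / c α₀) ∪ rga a (E + 1)))
    (hNC : rk K (rg (a (E + 1))) < rk K (rga a (E + 1))) :
    ∃ (α : Mon n d) (θ : Ω) (τ : ℕ → Ω) (b : ℕ → Fin (n + 1) → Ω) (c' : Mon n d → Ω)
      (τ' : ℕ → Ω) (a' : ℕ → Fin (n + 1) → Ω) (η : Ω),
      c α ≠ 0 ∧ θ ≠ 0 ∧ (∀ i, 1 ≤ i → i < E + 1 → τ i ≠ 0) ∧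
      (∀ l ≤ E + 1, ∀ i, θ ^ l * a l i = wt (E + 1) τ l * b l i) ∧
      Spc K (pt (fun m => c m / c α) τ b (E + 1)) (pt c' τ' a' (E + 1)) ∧ c' α = 1 ∧
      c' (m0 n d) = 0 ∧ ¬ NL K m E c' ∧
      (brk τ' (E + 1)).Nonempty ∧ FCp (fm c') τ' a' (E + 1) ∧ Nod τ' a' (E + 1) ∧
      a' 0 = Pi.single 0 1 ∧ η ≠ 0 ∧ (a' (E + 1) = fun i => η * a (E + 1) i) ∧
      (SingC c a (E + 1) → ∀ i, FCp (pderiv i (fm c')) τ' a' (E + 1)) ∧
      rk K (rg (fun m => c m / c α) ∪ rga a (E + 1)) + (E + 1) ≤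
        rk K (rg (fun m => c m / c α) ∪ rgt τ (E + 1) ∪ rga b (E + 1)) ∧
      rk K (rg (fun m => c m / c α) ∪ rgt τ (E + 1) ∪ rga b (E + 1)) ≤
        rk K (rg c' ∪ rgt τ' (E + 1) ∪ rga a' (E + 1)) + (brk τ' (E + 1)).card := by
  classical
  have hc : c ≠ 0 := fun h => hα₀ (by rw [h]; rfl)
  obtain ⟨σ, hσ⟩ : ∃ σ, σ = Fintype.card (Mon n d) - κ - 1 := ⟨_, rfl⟩
  rw [← hσ] at hA
  obtain ⟨lam, hl0, hl⟩ := exists_lam hb (rga a (E + 1)) c hc σ
  obtain ⟨T, hT⟩ : ∃ T, T = rg (a (E + 1)) ∪ rgl lam := ⟨_, rfl⟩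
  have hN1 : 1 ≤ Fintype.card (Mon n d) := by omega
  have hσN : σ * Fintype.card (Mon n d) = σ * (Fintype.card (Mon n d) - 1) + σ := by
    obtain ⟨N, hN⟩ := Nat.exists_eq_add_of_le hN1
    rw [hN, Nat.add_sub_cancel_left]
    ring
  -- the curve moves
  have hna : ∃ l ≤ E + 1, ∃ i,
      a l i ∉ cl (IntermediateField.adjoin K (T : Set Ω)) (∅ : Finset Ω) := by
    by_contra hcon
    push Not at hcon
    have h1 : ∀ x ∈ rga a (E + 1) ∪ rgl lam, x ∈ cl K T := by
      intro x hx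
      rcases Finset.mem_union.1 hx with hx | hx
      · obtain ⟨l, hl', i, rfl⟩ := rga_cases61 hx
        have h2 := (mem_cl_adjoin K T ∅ _).1 (hcon l hl' i)
        rwa [Finset.union_empty] at h2
      · refine subset_cl K T x ?_
        rw [hT]
        exact Finset.mem_union_right _ hx
    have h2 := rk_le_of_subset_cl K h1
    have h3 : rk K T ≤ rk K (rg (a (E + 1))) + (rgl lam).card := by
      rw [hT]
      exact rk_union_le_card K _ _
    have h4 := card_rgl61 lam
    have h5 := lam_rank hl0 hl hα₀ (T := rga a (E + 1)) (Finset.Subset.refl _)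
    rw [Finset.union_comm (rg fun m => c m / c α₀) (rga a (E + 1))] at hA
    rcases min_cases (rk K (rga a (E + 1)) + σ) (rk K (rga a (E + 1) ∪ rg fun m => c m / c α₀))
      with ⟨h6, _⟩ | ⟨h6, _⟩ <;> rw [h6] at h5 <;> omega
  have hTa : ∀ i, a (E + 1) i ∈ IntermediateField.adjoin K (T : Set Ω) := by
    intro i
    refine IntermediateField.subset_adjoin K _ ?_
    rw [hT, Finset.coe_union]
    exact Or.inl (Finset.mem_coe.2 (Finset.mem_image_of_mem _ (Finset.mem_univ i)))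
  have hTl : ∀ i m', lam i m' ∈ IntermediateField.adjoin K (T : Set Ω) := by
    intro i m'
    refine IntermediateField.subset_adjoin K _ ?_
    rw [hT, Finset.coe_union]
    refine Or.inr (Finset.mem_coe.2 ?_)
    unfold rgl
    rw [Finset.mem_biUnion]
    exact ⟨i, Finset.mem_univ i, Finset.mem_image_of_mem _ (Finset.mem_univ m')⟩
  have hsing : (fun i => algebraMap (IntermediateField.adjoin K (T : Set Ω)) Ω
      ((Pi.single 0 1 : Fin (n + 1) → IntermediateField.adjoin K (T : Set Ω)) i)) =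
      Pi.single 0 1 := by
    funext i
    by_cases hi : i = 0
    · subst hi
      rw [Pi.single_eq_same, Pi.single_eq_same, map_one]
    · rw [Pi.single_eq_of_ne hi, Pi.single_eq_of_ne hi, map_zero]
  obtain ⟨α, θ, τ, b, c', τ', a', η, h1, h2, h3, h4, h5, h6, h7, h8, h9, h10, h11, h12, h13, h14,
    h15⟩ := bend_break (K := IntermediateField.adjoin K (T : Set Ω)) (big_adjoin K hb T)
      (e := E + 1) (by omega) (Pi.single 0 1) (fun i => ⟨a (E + 1) i, hTa i⟩)
      (fun h => by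
        have h' := congrFun h 0
        rw [Pi.single_eq_same] at h'
        exact one_ne_zero h')
      (fun h => by
        have h' := congrArg Subtype.val (congrFun h j)
        have h'' : a (E + 1) j = 0 := h'
        rw [haj] at h''
        exact one_ne_zero h'') c hc a (by rw [ha0, hsing]) rfl hV hna
  rw [hsing] at h10
  have h12' : a' (E + 1) = fun i => η * a (E + 1) i := h12
  have hSpc : Spc K (pt (fun m => c m / c α) τ b (E + 1)) (pt c' τ' a' (E + 1)) :=
    Spc.restrict _ h5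
  have hc'0 : c' (m0 n d) = 0 := by
    have h := hSpc.eq_zero (i := Sum.inl (m0 n d)) (by
      change c (m0 n d) / c α = 0
      rw [h0, zero_div])
    exact h
  have hlc' : ∀ i, ∑ m', lam i m' * c' m' = 0 := by
    intro i
    have h := h5 (∑ m', C (⟨lam i m', hTl i m'⟩ : IntermediateField.adjoin K (T : Set Ω)) *
      X (Sum.inl m')) (by
        rw [map_sum]
        simp only [map_mul, aeval_C, aeval_X]
        change ∑ m', lam i m' * (c m' / c α) = 0
        rw [← zero_div (c α), ← hl0 i, Finset.sum_div]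
        exact Finset.sum_congr rfl fun m' _ => by rw [mul_div_assoc])
    rw [map_sum] at h
    simp only [map_mul, aeval_C, aeval_X] at h
    exact h
  have hc' : c' ≠ 0 := fun h => by
    have h' := congrFun h α
    rw [h6] at h'
    exact one_ne_zero h'
  have hNL : ¬ NL K m E c' := by
    intro hcon
    obtain ⟨i, hi⟩ := lam_avoid hb hc hl0 hl (fun g => NL K m E g ∧ g (m0 n d) = 0)
      (fun g hg t ht => ⟨nl_smul hb hd ht hg.1, by
        change t * g (m0 n d) = 0
        rw [hg.2, mul_zero]⟩)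
      (fun g hg hg0 => by
        have h := nl_point hb hκ hg.1 hg0 hg.2
        omega) (fun h => hN h.1) (g := c') ⟨hcon, hc'0⟩ hc'
    exact hi (hlc' i)
  -- the ranks
  obtain ⟨X, hX⟩ : ∃ X, X = rg (fun m => c m / c α) ∪ rga a (E + 1) := ⟨_, rfl⟩
  obtain ⟨P, hP⟩ : ∃ P, P = rg (fun m => c m / c α) ∪ rgt τ (E + 1) ∪ rga b (E + 1) := ⟨_, rfl⟩
  obtain ⟨P', hP'⟩ : ∃ P', P' = rg c' ∪ rgt τ' (E + 1) ∪ rga a' (E + 1) := ⟨_, rfl⟩
  rw [← hX, ← hP] at h14
  rw [← hP, ← hP'] at h15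
  have hrX := rk_adjoin K T X
  have hrP := rk_adjoin K T P
  have hrP' := rk_adjoin K T P'
  have hXP : ∀ x ∈ X, x ∈ cl K P := by
    intro x hx
    rw [hX] at hx
    rcases Finset.mem_union.1 hx with hx | hx
    · refine subset_cl K P x ?_
      rw [hP]
      exact Finset.mem_union_left _ (Finset.mem_union_left _ hx)
    · refine curve_mem61 (by omega) h2 haj h4 ?_ ?_ x hx
      · rw [hP]
        exact Finset.subset_union_right.trans Finset.subset_union_left
      · rw [hP]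
        exact Finset.subset_union_right
  have hrA : rk K X + (E + 1) ≤ rk K P := by
    have e1 := rk_submod K X T P
    have e2 : rk K (X ∪ P) = rk K P := by
      rw [Finset.union_comm]
      exact rk_union_of_subset_cl K hXP
    have e3 : rk K (T ∪ P) ≤ rk K (X ∪ T ∪ P) := by
      rw [Finset.union_assoc]
      exact rk_mono K Finset.subset_union_right
    rw [Finset.union_comm X T] at e1 e3
    omega
  have hrPX : rk K P ≤ rk K X + (E + 1) := by
    have e1 : ∀ x ∈ P, x ∈ cl K (X ∪ insert θ (rgt τ (E + 1))) := by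
      intro x hx
      rw [hP] at hx
      rcases Finset.mem_union.1 hx with hx | hx
      · rcases Finset.mem_union.1 hx with hx | hx
        · refine subset_cl K _ x (Finset.mem_union_left _ ?_)
          rw [hX]
          exact Finset.mem_union_left _ hx
        · exact subset_cl K _ x (Finset.mem_union_right _ (Finset.mem_insert_of_mem hx))
      · refine fine_mem61 h3 h4 ?_ x hx
        rw [hX]
        exact Finset.subset_union_right
    have e2 := rk_le_of_subset_cl K e1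
    have e3 := rk_union_le_card K X (insert θ (rgt τ (E + 1)))
    have e4 : (insert θ (rgt τ (E + 1))).card ≤ (rgt τ (E + 1)).card + 1 :=
      Finset.card_insert_le _ _
    have e5 : (rgt τ (E + 1)).card ≤ E := by
      refine Finset.card_image_le.trans ?_
      rw [Nat.card_Ico]
      omega
    omega
  have hrTX : rk K X + σ * (Fintype.card (Mon n d) - 1) ≤ rk K (T ∪ X) := by
    have e1 := rk_submod K X (rga a (E + 1) ∪ rg c) (rgl lam)
    have e2 : rk K (X ∪ (rga a (E + 1) ∪ rg c)) = rk K (rga a (E + 1) ∪ rg c) := by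
      rw [Finset.union_comm]
      refine rk_union_of_subset_cl K fun x hx => ?_
      rw [hX] at hx
      rcases Finset.mem_union.1 hx with hx | hx
      · unfold rg at hx
        rw [Finset.mem_image] at hx
        obtain ⟨m', _, rfl⟩ := hx
        have e3 : ∀ m'', c m'' ∈ cl K (rga a (E + 1) ∪ rg c) := fun m'' =>
          subset_cl K _ _ (Finset.mem_union_right _
            (Finset.mem_image_of_mem _ (Finset.mem_univ m'')))
        exact div_mem (e3 m') (e3 α)
      · exact subset_cl K _ x (Finset.mem_union_left _ hx)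
    have e3 : rk K (rga a (E + 1) ∪ rg c ∪ rgl lam) ≤
        rk K (X ∪ (rga a (E + 1) ∪ rg c) ∪ rgl lam) := by
      refine rk_mono K (Finset.union_subset_union_left Finset.subset_union_right)
    have e4 : rk K (X ∪ rgl lam) ≤ rk K (T ∪ X) := by
      refine rk_mono K fun x hx => ?_
      rw [hT]
      simp only [Finset.mem_union] at hx ⊢
      tauto
    omega
  have hrTP' : rk K (T ∪ P') ≤ rk K P' + σ * (Fintype.card (Mon n d) - 1) := by
    have e1 := lam_le (K := K) P' hc' lam hlc'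
    have e2 : P' ∪ rg c' = P' := by
      rw [Finset.union_eq_left, hP']
      exact Finset.subset_union_left.trans Finset.subset_union_left
    rw [e2] at e1
    refine le_trans (rk_le_of_subset_cl K fun x hx => ?_) e1
    rw [hT] at hx
    rcases Finset.mem_union.1 hx with hx | hx
    · rcases Finset.mem_union.1 hx with hx | hx
      · unfold rg at hx
        rw [Finset.mem_image] at hx
        obtain ⟨i, _, rfl⟩ := hx
        have e3 : ∀ i', a' (E + 1) i' ∈ cl K (P' ∪ rgl lam) := fun i' => by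
          refine subset_cl K _ _ (Finset.mem_union_left _ ?_)
          rw [hP']
          exact Finset.mem_union_right _ (mem_rga61 a' le_rfl i')
        have e4 : a (E + 1) i = a' (E + 1) i / a' (E + 1) j := by
          rw [h12']
          change a (E + 1) i = η * a (E + 1) i / (η * a (E + 1) j)
          rw [haj, mul_one, mul_div_cancel_left₀ _ h11]
        rw [e4]
        exact div_mem (e3 i) (e3 j)
      · exact subset_cl K _ x (Finset.mem_union_right _ hx)
    · exact subset_cl K _ x (Finset.mem_union_left _ hx)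
  refine ⟨α, θ, τ, b, c', τ', a', η, h1, h2, h3, h4, hSpc, h6, hc'0, hNL, h7, h8, h9, h10, h11,
    h12', h13, ?_, ?_⟩
  · rw [← hX, ← hP]
    exact hrA
  · rw [← hP, ← hP']
    omega

end Pool.Agent.Helper30.RY
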