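import Mathlib
import Pool.Agent.Helper30.RY.Nlb

/-!
# Block RY-NCV: moving a curve by a generic matrix which fixes `e₀`

Let `Van c a e`, `a 0 = e₀`, and suppose that some `a l` (`l ≤ e`) is not in the span of `a 0` and
`a e`.  Let `g` be the matrix with first column `e₀` whose other columns are generic over
`S = rg c ∪ rga a e` (`exists_generic` for `Fin (n+1) × Fin n`); its determinant is nonzero
(`eval_ne_zero_of_generic`; the determinant of the matrix `(e₀ | U)` is a nonzero polynomial: it is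
`1` at the identity matrix).  Let `h = g⁻¹`, `c' = act h c`, `a' l = g (a l)`.
* `a' 0 = e₀`, `Van c' a' e`, `rho c' a' e = rho c a e`.
* `c' ⟶ c`?  Better: `c'' = act g c`-type argument: `c = act g c'`.  To see `c' ⟶ c` note that the entries
  of `h = g⁻¹` are `1/det g` times polynomials; with `D = det g` we have `D^d • c' = act (adjugate g) c`, and
  `(c, g) ⟶ (c, 1)`.  A relation `p(c') = 0` (`p` over `K`) gives, with `N` the total degree of `p`,
  `(D^d)^N p(act (adj g) c / D^d) = 0`, a polynomial relation in `(c, g)`, which specialises to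
  `p(c) = 0`.  Alternatively work with `h` itself: choose `h = (e₀ | generic)` and let `g = h⁻¹`;
  then `c' = act h c` is polynomial in `(c, h)` and `c' ⟶ c` is immediate from `spc_act` and
  `Spc.elim_generic`; the columns of `g` other than `e₀` are again generic over `S`, because
  `cl K (S ∪ entries of g) = cl K (S ∪ entries of h)` and both have `(n + 1) n` entries besides `e₀`
  (`rk_union_congr`).  This is the way to do it.
* so `rk (rg c) ≤ rk (rg c')` and `NL c' → NL c` (`nl_spc`).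
* `rk (rg c ∪ rga a e) + rk (rg c') ≤ rk (rg c) + rk (rg c' ∪ rga a' e)`: with `G` the entries of `g`,
  `rk (rg c ∪ rga a e ∪ G) = rk (rg c ∪ rga a e) + (n+1) n`, `rk (rg c ∪ G) = rk (rg c) + (n+1) n`,
  these are `rk (rg c' ∪ rga a' e ∪ G)` and `rk (rg c' ∪ G)`; `rk_submod`.
* the last claim: `rk (rg (a' e)) + (n + 1) ≤ rk (rga a' e)`.  Let `a l` be not in the span of `e₀`, `a e`.
  Over `S` the vectors `g_1, ..., g_n` (columns) are generic and `a' e = (a e)_0 e₀ + ∑ (a e)_i g_i`,
  `a' l = (a l)_0 e₀ + ∑ (a l)_i g_i`.  Since `((a l)_i)_{i ≥ 1}` is not a multiple of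
  `((a e)_i)_{i ≥ 1}`, one can recover all `g_i` from `a' l`, `a' e` and `n - 2` of the `g_i` if
  `(a e)_{i ≥ 1} ≠ 0` (respectively from `a' l` and `n - 1` of them if `(a e)_{i ≥ 1} = 0`), so
  `rk (S ∪ rg (a' e) ∪ rg (a' l)) = rk S + 2 (n + 1)` (respectively `rk S + (n + 1)`), while
  `rk (S ∪ rg (a' e)) ≤ rk S + (n + 1)` (respectively `= rk S`).  So
  `rk (S ∪ rg (a' e)) + (n + 1) ≤ rk (S ∪ rg (a' e) ∪ rg (a' l))`, and `rk_submod`.
-/

namespace Pool.Agent.Helper30.RY

open MvPolynomial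

variable {K : Type*} [Field K] {Ω : Type*} [Field Ω] [Algebra K Ω] [DecidableEq Ω] {n d : ℕ}

/-- the matrix with first column `e₀` and other columns `t` -/
private def hm32 {A : Type*} [CommRing A] {n : ℕ} (t : Fin (n + 1) × Fin n → A) :
    Matrix (Fin (n + 1)) (Fin (n + 1)) A :=
  Matrix.of fun i j => Fin.cases (if i = 0 then 1 else 0) (fun j => t (i, j)) j

private theorem hm32_zero {A : Type*} [CommRing A] {n : ℕ} (t : Fin (n + 1) × Fin n → A)
    (i : Fin (n + 1)) : hm32 t i 0 = if i = 0 then 1 else 0 := rfl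

private theorem hm32_succ {A : Type*} [CommRing A] {n : ℕ} (t : Fin (n + 1) × Fin n → A)
    (i : Fin (n + 1)) (j : Fin n) : hm32 t i j.succ = t (i, j) := rfl

private theorem hm32_one {A : Type*} [CommRing A] {n : ℕ} :
    hm32 (fun q : Fin (n + 1) × Fin n => if q.1 = q.2.succ then (1 : A) else 0) = 1 := by
  ext i j
  refine Fin.cases ?_ (fun j => ?_) j
  · rw [hm32_zero, Matrix.one_apply]
  · rw [hm32_succ, Matrix.one_apply]

private theorem hm32_map {A B : Type*} [CommRing A] [CommRing B] {n : ℕ} (φ : A →+* B)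
    (t : Fin (n + 1) × Fin n → A) : (hm32 t).map φ = hm32 (fun q => φ (t q)) := by
  ext i j
  rw [Matrix.map_apply]
  refine Fin.cases ?_ (fun j => ?_) j
  · rw [hm32_zero, hm32_zero]
    split_ifs
    · exact map_one φ
    · exact map_zero φ
  · rw [hm32_succ, hm32_succ]

private theorem det_ne32 {s : Finset Ω} {t : Fin (n + 1) × Fin n → Ω}
    (ht : rk K (s ∪ rg t) = rk K s + Fintype.card (Fin (n + 1) × Fin n)) :
    (hm32 t).det ≠ 0 := by
  have key : ∀ v : Fin (n + 1) × Fin n → Ω,
      eval v (MvPolynomial.map (Int.castRingHom Ω)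
        ((hm32 (X : Fin (n + 1) × Fin n → MvPolynomial (Fin (n + 1) × Fin n) ℤ)).det)) =
      (hm32 v).det := by
    intro v
    have h1 := RingHom.map_det ((eval v).comp (MvPolynomial.map (Int.castRingHom Ω)))
      (hm32 (X : Fin (n + 1) × Fin n → MvPolynomial (Fin (n + 1) × Fin n) ℤ))
    rw [RingHom.mapMatrix_apply, hm32_map, RingHom.comp_apply] at h1
    rw [h1]
    congr 2
    funext q
    rw [RingHom.comp_apply, map_X, eval_X]
  rw [← key t]
  refine eval_ne_zero_of_generic ht _ ?_ ?_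
  · intro h
    have h1 := key (fun q => if q.1 = q.2.succ then (1 : Ω) else 0)
    rw [h, map_zero, hm32_one, Matrix.det_one] at h1
    exact zero_ne_one h1
  · intro m
    rw [coeff_map]
    exact intCast_mem _ _

private theorem det_mem32 (F : IntermediateField K Ω) {ι : Type*} [Fintype ι] [DecidableEq ι]
    (M : Matrix ι ι Ω) (hM : ∀ i j, M i j ∈ F) : M.det ∈ F := by
  rw [Matrix.det_apply']
  exact sum_mem fun σ _ => mul_mem (intCast_mem F _) (prod_mem fun i _ => hM _ _)

private theorem inv_mem32 (F : IntermediateField K Ω) {ι : Type*} [Fintype ι] [DecidableEq ι]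
    (M : Matrix ι ι Ω) (hM : ∀ i j, M i j ∈ F) (i j : ι) : M⁻¹ i j ∈ F := by
  rw [Matrix.inv_def, Ring.inverse_eq_inv', Matrix.smul_apply, smul_eq_mul,
    Matrix.adjugate_apply]
  refine mul_mem (inv_mem (det_mem32 F M hM)) (det_mem32 F _ fun k l => ?_)
  rw [Matrix.updateRow_apply]
  split_ifs
  · rw [Pi.single_apply]
    split_ifs
    · exact one_mem F
    · exact zero_mem F
  · exact hM k l

private theorem hm_mem32 (F : IntermediateField K Ω) {t : Fin (n + 1) × Fin n → Ω}
    (ht : ∀ q, t q ∈ F) (i j : Fin (n + 1)) : hm32 t i j ∈ F := by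
  refine Fin.cases ?_ (fun j => ?_) j
  · rw [hm32_zero]
    split_ifs
    · exact one_mem F
    · exact zero_mem F
  · rw [hm32_succ]
    exact ht _

private theorem mulVec_mem32 (F : IntermediateField K Ω) {ι : Type*} [Fintype ι]
    {M : Matrix ι ι Ω} {v : ι → Ω} (hM : ∀ i j, M i j ∈ F) (hv : ∀ i, v i ∈ F) (i : ι) :
    M.mulVec v i ∈ F := by
  show ∑ j, M i j * v j ∈ F
  exact sum_mem fun j _ => mul_mem (hM i j) (hv j)

private theorem mem_rg32 {ι : Type*} [Fintype ι] (v : ι → Ω) (i : ι) : v i ∈ rg v :=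
  Finset.mem_image_of_mem v (Finset.mem_univ i)

private theorem mem_rga32 {ι : Type*} [Fintype ι] (a : ℕ → ι → Ω) {e l : ℕ} (hl : l ≤ e) :
    rg (a l) ⊆ rga a e := by
  intro x hx
  exact Finset.mem_biUnion.2 ⟨l, Finset.mem_range.2 (by omega), hx⟩

private theorem rg_le32 {ι : Type*} [Fintype ι] {v : ι → Ω} {F : IntermediateField K Ω}
    (h : ∀ i, v i ∈ F) : ∀ x ∈ rg v, x ∈ F := by
  intro x hx
  obtain ⟨i, _, rfl⟩ := Finset.mem_image.1 hx
  exact h i

private theorem rga_le32 {ι : Type*} [Fintype ι] {a : ℕ → ι → Ω} {e : ℕ}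
    {F : IntermediateField K Ω} (h : ∀ l ≤ e, ∀ i, a l i ∈ F) : ∀ x ∈ rga a e, x ∈ F := by
  intro x hx
  obtain ⟨l, hl, hx⟩ := Finset.mem_biUnion.1 hx
  exact rg_le32 (h l (by rw [Finset.mem_range] at hl; omega)) x hx

/-- the columns with index in `J` -/
private def cols32 (w : Fin (n + 1) × Fin n → Ω) (J : Finset (Fin n)) : Finset Ω :=
  (Finset.univ ×ˢ J).image w

omit [Algebra K Ω] [Field K] in
private theorem cols_card32 (w : Fin (n + 1) × Fin n → Ω) (J : Finset (Fin n)) :
    (cols32 w J).card ≤ (n + 1) * J.card := by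
  refine Finset.card_image_le.trans ?_
  rw [Finset.card_product, Finset.card_univ, Fintype.card_fin]

/-- a generic matrix separates two vectors which are not proportional -/
private theorem sep32 {S : Finset Ω} {w : Fin (n + 1) × Fin n → Ω}
    (hw : rk K (S ∪ rg w) = rk K S + Fintype.card (Fin (n + 1) × Fin n))
    {x y : Fin (n + 1) → Ω} (hx : ∀ i, x i ∈ cl K S) (hy : ∀ i, y i ∈ cl K S)
    (h : ¬ ∃ α β : Ω, ∀ i, y i = α * (Pi.single 0 1 : Fin (n + 1) → Ω) i + β * x i) :
    rk K (S ∪ rg ((hm32 w).mulVec x)) + (n + 1) ≤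
      rk K (S ∪ rg ((hm32 w).mulVec x) ∪ rg ((hm32 w).mulVec y)) := by
  classical
  have hcard : Fintype.card (Fin (n + 1) × Fin n) = (n + 1) * n := by
    rw [Fintype.card_prod, Fintype.card_fin, Fintype.card_fin]
  rw [hcard] at hw
  have hform : ∀ (z : Fin (n + 1) → Ω) (i : Fin (n + 1)),
      (hm32 w).mulVec z i = (if i = 0 then 1 else 0) * z 0 + ∑ j : Fin n, w (i, j) * z j.succ := by
    intro z i
    show ∑ j, hm32 w i j * z j = _
    rw [Fin.sum_univ_succ, hm32_zero]
    rfl
  set T : Finset Ω := S ∪ rg ((hm32 w).mulVec x) ∪ rg ((hm32 w).mulVec y) with hT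
  have hST : S ⊆ T := fun z hz => Finset.mem_union_left _ (Finset.mem_union_left _ hz)
  have hxT : ∀ i, (hm32 w).mulVec x i ∈ T := fun i =>
    Finset.mem_union_left _ (Finset.mem_union_right _ (mem_rg32 _ i))
  have hyT : ∀ i, (hm32 w).mulVec y i ∈ T := fun i =>
    Finset.mem_union_right _ (mem_rg32 _ i)
  -- counting
  have hcount : ∀ J : Finset (Fin n), (∀ q, w q ∈ cl K (T ∪ cols32 w J)) →
      rk K S + (n + 1) * n ≤ rk K T + (n + 1) * J.card := by
    intro J hJ
    rw [← hw]
    calc rk K (S ∪ rg w) ≤ rk K (T ∪ cols32 w J) := by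
          refine rk_le_of_subset_cl K fun z hz => ?_
          rcases Finset.mem_union.1 hz with hz | hz
          · exact subset_cl K _ z (Finset.mem_union_left _ (hST hz))
          · exact rg_le32 hJ z hz
      _ ≤ rk K T + (cols32 w J).card := rk_union_le_card K _ _
      _ ≤ _ := Nat.add_le_add_left (cols_card32 w J) _
  have hmemJ : ∀ (J : Finset (Fin n)) (i : Fin (n + 1)) (j : Fin n), j ∈ J →
      w (i, j) ∈ cl K (T ∪ cols32 w J) := by
    intro J i j hj
    refine subset_cl K _ _ (Finset.mem_union_right _ ?_)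
    exact Finset.mem_image_of_mem w (Finset.mem_product.2 ⟨Finset.mem_univ _, hj⟩)
  have hclS : ∀ (J : Finset (Fin n)), ∀ z ∈ cl K S, z ∈ cl K (T ∪ cols32 w J) := fun J z hz =>
    cl_mono K (fun u hu => Finset.mem_union_left _ (hST hu)) hz
  have hclT : ∀ (J : Finset (Fin n)), ∀ z ∈ T, z ∈ cl K (T ∪ cols32 w J) := fun J z hz =>
    subset_cl K _ z (Finset.mem_union_left _ hz)
  by_cases hv : ∀ j : Fin n, x j.succ = 0
  · -- the tail of `x` vanishes
    obtain ⟨j₂, hj₂⟩ : ∃ j : Fin n, y j.succ ≠ 0 := by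
      by_contra hcon
      push Not at hcon
      refine h ⟨y 0, 0, fun i => ?_⟩
      rw [zero_mul, add_zero]
      refine Fin.cases ?_ (fun j => ?_) i
      · simp
      · rw [hcon j]
        simp
    have h1 : rk K (S ∪ rg ((hm32 w).mulVec x)) = rk K S := by
      refine rk_union_of_subset_cl K (rg_le32 fun i => ?_)
      rw [hform, Finset.sum_eq_zero (fun j _ => by rw [hv j, mul_zero]), add_zero]
      refine mul_mem ?_ (hx 0)
      split_ifs
      · exact one_mem _
      · exact zero_mem _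
    rw [h1]
    have hJ := hcount (Finset.univ.erase j₂) (by
      rintro ⟨i, j⟩
      by_cases hj : j = j₂
      · subst hj
        have e1 := hform y i
        rw [← Finset.add_sum_erase _ _ (Finset.mem_univ j)] at e1
        have e2 : w (i, j) = ((hm32 w).mulVec y i - (if i = 0 then 1 else 0) * y 0 -
            ∑ j' ∈ Finset.univ.erase j, w (i, j') * y j'.succ) / y j.succ := by
          rw [eq_div_iff hj₂, e1]
          ring
        rw [e2]
        refine div_mem (sub_mem (sub_mem (hclT _ _ (hyT i)) (mul_mem ?_ (hclS _ _ (hy 0)))) ?_)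
          (hclS _ _ (hy _))
        · split_ifs
          · exact one_mem _
          · exact zero_mem _
        · exact sum_mem fun j' hj' => mul_mem (hmemJ _ i j' hj') (hclS _ _ (hy _))
      · exact hmemJ _ i j (Finset.mem_erase.2 ⟨hj, Finset.mem_univ _⟩))
    rw [Finset.card_erase_of_mem (Finset.mem_univ _), Finset.card_univ, Fintype.card_fin] at hJ
    have hn : 1 ≤ n := by
      have := j₂.2
      omega
    obtain ⟨n', rfl⟩ : ∃ n', n = n' + 1 := ⟨n - 1, by omega⟩
    rw [Nat.add_sub_cancel, Nat.mul_succ] at hJ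
    omega
  · push Not at hv
    obtain ⟨j₁, hj₁⟩ := hv
    set lam : Ω := y j₁.succ / x j₁.succ with hlam
    obtain ⟨j₂, hj₂⟩ : ∃ j : Fin n, y j.succ - lam * x j.succ ≠ 0 := by
      by_contra hcon
      push Not at hcon
      refine h ⟨y 0 - lam * x 0, lam, fun i => ?_⟩
      refine Fin.cases ?_ (fun j => ?_) i
      · simp
      · have := hcon j
        rw [sub_eq_zero] at this
        rw [this]
        simp
    have hne : j₂ ≠ j₁ := by
      rintro rfl
      apply hj₂
      rw [hlam, div_mul_cancel₀ _ hj₁, sub_self]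
    have hlamS : lam ∈ cl K S := div_mem (hy _) (hx _)
    have h1 : rk K (S ∪ rg ((hm32 w).mulVec x)) ≤ rk K S + (n + 1) := by
      refine (rk_union_le_card K _ _).trans (Nat.add_le_add_left ?_ _)
      refine Finset.card_image_le.trans ?_
      rw [Finset.card_univ, Fintype.card_fin]
    set J : Finset (Fin n) := (Finset.univ.erase j₁).erase j₂ with hJdef
    have hj₂mem : j₂ ∈ Finset.univ.erase j₁ := Finset.mem_erase.2 ⟨hne, Finset.mem_univ _⟩
    have hw2 : ∀ i, w (i, j₂) ∈ cl K (T ∪ cols32 w J) := by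
      intro i
      have e1 := hform y i
      have e2 := hform x i
      rw [← Finset.add_sum_erase _ _ (Finset.mem_univ j₁), ← Finset.add_sum_erase _ _ hj₂mem]
        at e1 e2
      have e3 : y j₁.succ = lam * x j₁.succ := by rw [hlam, div_mul_cancel₀ _ hj₁]
      have e4 : w (i, j₂) = ((hm32 w).mulVec y i - lam * (hm32 w).mulVec x i -
          (if i = 0 then 1 else 0) * (y 0 - lam * x 0) -
          (∑ j' ∈ J, w (i, j') * y j'.succ - lam * ∑ j' ∈ J, w (i, j') * x j'.succ)) /
          (y j₂.succ - lam * x j₂.succ) := by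
        rw [eq_div_iff hj₂, e1, e2, e3]
        ring
      rw [e4]
      refine div_mem (sub_mem (sub_mem (sub_mem (hclT _ _ (hyT i))
        (mul_mem (hclS _ _ hlamS) (hclT _ _ (hxT i)))) (mul_mem ?_ (sub_mem (hclS _ _ (hy 0))
        (mul_mem (hclS _ _ hlamS) (hclS _ _ (hx 0)))))) (sub_mem ?_ (mul_mem (hclS _ _ hlamS) ?_)))
        (sub_mem (hclS _ _ (hy _)) (mul_mem (hclS _ _ hlamS) (hclS _ _ (hx _))))
      · split_ifs
        · exact one_mem _
        · exact zero_mem _
      · exact sum_mem fun j' hj' => mul_mem (hmemJ _ i j' hj') (hclS _ _ (hy _))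
      · exact sum_mem fun j' hj' => mul_mem (hmemJ _ i j' hj') (hclS _ _ (hx _))
    have hw1 : ∀ i, w (i, j₁) ∈ cl K (T ∪ cols32 w J) := by
      intro i
      have e2 := hform x i
      rw [← Finset.add_sum_erase _ _ (Finset.mem_univ j₁), ← Finset.add_sum_erase _ _ hj₂mem]
        at e2
      have e4 : w (i, j₁) = ((hm32 w).mulVec x i - (if i = 0 then 1 else 0) * x 0 -
          w (i, j₂) * x j₂.succ - ∑ j' ∈ J, w (i, j') * x j'.succ) / x j₁.succ := by
        rw [eq_div_iff hj₁, e2]
        ring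
      rw [e4]
      refine div_mem (sub_mem (sub_mem (sub_mem (hclT _ _ (hxT i)) (mul_mem ?_ (hclS _ _ (hx 0))))
        (mul_mem (hw2 i) (hclS _ _ (hx _)))) ?_) (hclS _ _ (hx _))
      · split_ifs
        · exact one_mem _
        · exact zero_mem _
      · exact sum_mem fun j' hj' => mul_mem (hmemJ _ i j' hj') (hclS _ _ (hx _))
    have hJ := hcount J (by
      rintro ⟨i, j⟩
      by_cases hj : j = j₂
      · rw [hj]
        exact hw2 i
      · by_cases hj' : j = j₁
        · rw [hj']
          exact hw1 i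
        · exact hmemJ _ i j (Finset.mem_erase.2 ⟨hj, Finset.mem_erase.2 ⟨hj', Finset.mem_univ _⟩⟩))
    rw [hJdef, Finset.card_erase_of_mem hj₂mem, Finset.card_erase_of_mem (Finset.mem_univ _),
      Finset.card_univ, Fintype.card_fin] at hJ
    have hn : 2 ≤ n := by
      have h3 := j₁.2
      have h4 := j₂.2
      have h5 : (j₂ : ℕ) ≠ (j₁ : ℕ) := fun hh => hne (Fin.ext hh)
      omega
    obtain ⟨n', rfl⟩ : ∃ n', n = n' + 2 := ⟨n - 2, by omega⟩
    have e5 : n' + 2 - 1 - 1 = n' := by omega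
    rw [e5, Nat.mul_succ, Nat.mul_succ] at hJ
    omega

private theorem spc_hm32 {c : Mon n d → Ω} {t u : Fin (n + 1) × Fin n → Ω}
    (h : Spc K (Sum.elim c t) (Sum.elim c u)) :
    Spc K (Sum.elim c (fun p : Fin (n + 1) × Fin (n + 1) => hm32 t p.1 p.2))
      (Sum.elim c (fun p : Fin (n + 1) × Fin (n + 1) => hm32 u p.1 p.2)) := by
  obtain ⟨P, hP⟩ : ∃ P : Mon n d ⊕ (Fin (n + 1) × Fin (n + 1)) →
      MvPolynomial (Mon n d ⊕ (Fin (n + 1) × Fin n)) K,
      P = Sum.elim (fun m => X (Sum.inl m)) (fun p => hm32 (fun q => X (Sum.inr q)) p.1 p.2) :=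
    ⟨_, rfl⟩
  have h5 : ∀ (v : Fin (n + 1) × Fin n → Ω),
      (fun j => aeval (Sum.elim c v) (P j)) =
      Sum.elim c (fun p : Fin (n + 1) × Fin (n + 1) => hm32 v p.1 p.2) := by
    intro v
    funext j
    rcases j with m | ⟨i, j⟩
    · rw [hP, Sum.elim_inl, Sum.elim_inl, aeval_X, Sum.elim_inl]
    · rw [hP, Sum.elim_inr, Sum.elim_inr]
      refine Fin.cases ?_ (fun j => ?_) j
      · rw [hm32_zero, hm32_zero]
        split_ifs
        · exact map_one _
        · exact map_zero _
      · rw [hm32_succ, hm32_succ, aeval_X, Sum.elim_inr]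
  have h4 := h.poly P
  rwa [h5, h5] at h4

theorem exists_spread (hb : Big K Ω) (c : Mon n d → Ω) (a : ℕ → Fin (n + 1) → Ω) (e : ℕ)
    (h0 : a 0 = Pi.single 0 1) (hV : Van c a e)
    (h1 : ¬ ∀ l ≤ e, ∃ α β : Ω, ∀ i, a l i = α * a 0 i + β * a e i) :
    ∃ (c' : Mon n d → Ω) (a' : ℕ → Fin (n + 1) → Ω), a' 0 = Pi.single 0 1 ∧ Van c' a' e ∧
      rho c' a' e = rho c a e ∧ (∀ m e, NL K m e c' → NL K m e c) ∧ Spc K c' c ∧
      rk K (rg c) ≤ rk K (rg c') ∧
      rk K (rg c ∪ rga a e) + rk K (rg c') ≤ rk K (rg c) + rk K (rg c' ∪ rga a' e) ∧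
      rk K (rg (a' e)) + (n + 1) ≤ rk K (rga a' e) := by
  classical
  obtain ⟨S, hS⟩ : ∃ S : Finset Ω, S = rg c ∪ rga a e := ⟨_, rfl⟩
  obtain ⟨t, ht⟩ := exists_generic K hb S (Fin (n + 1) × Fin n)
  obtain ⟨h, hh⟩ : ∃ h : Matrix (Fin (n + 1)) (Fin (n + 1)) Ω, h = hm32 t := ⟨_, rfl⟩
  have hdet : h.det ≠ 0 := by
    rw [hh]
    exact det_ne32 ht
  have hunit : IsUnit h.det := isUnit_iff_ne_zero.2 hdet
  obtain ⟨g, hg⟩ : ∃ g : Matrix (Fin (n + 1)) (Fin (n + 1)) Ω, g = h⁻¹ := ⟨_, rfl⟩
  have hhg : h * g = 1 := by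
    rw [hg]
    exact Matrix.mul_nonsing_inv h hunit
  have hgh : g * h = 1 := by
    rw [hg]
    exact Matrix.nonsing_inv_mul h hunit
  have hgg : g⁻¹ = h := by
    rw [hg]
    exact Matrix.nonsing_inv_nonsing_inv h hunit
  -- the first column of the inverse
  have hg0 : ∀ i, g i 0 = if i = 0 then 1 else 0 := by
    intro i
    have e1 : (g * h) i 0 = g i 0 := by
      rw [Matrix.mul_apply, Finset.sum_eq_single 0]
      · rw [hh, hm32_zero, if_pos rfl, mul_one]
      · intro k _ hk
        rw [hh, hm32_zero, if_neg hk, mul_zero]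
      · intro hk
        exact absurd (Finset.mem_univ _) hk
    rw [← e1, hgh, Matrix.one_apply]
  obtain ⟨w, hwdef⟩ : ∃ w : Fin (n + 1) × Fin n → Ω, w = fun q => g q.1 q.2.succ := ⟨_, rfl⟩
  have hww : ∀ q, w q = g q.1 q.2.succ := fun q => by rw [hwdef]
  have htt : ∀ q, t q = h q.1 q.2.succ := by
    rintro ⟨i, j⟩
    rw [hh, hm32_succ]
  have hgw : g = hm32 w := by
    ext i j
    refine Fin.cases ?_ (fun j => ?_) j
    · rw [hg0, hm32_zero]
    · rw [hm32_succ, hww]
  -- memberships
  have htm : ∀ X : Finset Ω, ∀ i j, h i j ∈ cl K (X ∪ rg t) := by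
    intro X i j
    rw [hh]
    exact hm_mem32 _ (fun q => subset_cl K _ _ (Finset.mem_union_right _ (mem_rg32 t q))) i j
  have hgm : ∀ X : Finset Ω, ∀ i j, g i j ∈ cl K (X ∪ rg t) := by
    intro X i j
    rw [hg]
    exact inv_mem32 _ h (htm X) i j
  have hwm : ∀ X : Finset Ω, ∀ i j, g i j ∈ cl K (X ∪ rg w) := by
    intro X i j
    rw [hgw]
    exact hm_mem32 _ (fun q => subset_cl K _ _ (Finset.mem_union_right _ (mem_rg32 w q))) i j
  have hhm : ∀ X : Finset Ω, ∀ i j, h i j ∈ cl K (X ∪ rg w) := by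
    intro X i j
    rw [← hgg]
    exact inv_mem32 _ g (hwm X) i j
  have hwgen : rk K (S ∪ rg w) = rk K S + Fintype.card (Fin (n + 1) × Fin n) := by
    rw [← ht]
    refine le_antisymm (rk_le_of_subset_cl K fun x hx => ?_)
      (rk_le_of_subset_cl K fun x hx => ?_)
    · rcases Finset.mem_union.1 hx with hx | hx
      · exact subset_cl K _ x (Finset.mem_union_left _ hx)
      · exact rg_le32 (v := w) (fun q => by rw [hww q]; exact hgm S q.1 q.2.succ) x hx
    · rcases Finset.mem_union.1 hx with hx | hx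
      · exact subset_cl K _ x (Finset.mem_union_left _ hx)
      · exact rg_le32 (v := t) (fun q => by rw [htt q]; exact hhm S q.1 q.2.succ) x hx
  -- the new curve
  obtain ⟨a', ha'⟩ : ∃ a' : ℕ → Fin (n + 1) → Ω, ∀ l, a' l = g.mulVec (a l) :=
    ⟨fun l => g.mulVec (a l), fun _ => rfl⟩
  obtain ⟨c', hc'⟩ : ∃ c' : Mon n d → Ω, c' = act h c := ⟨_, rfl⟩
  have haa : (fun l => h.mulVec (a' l)) = a := by
    funext l
    rw [ha', Matrix.mulVec_mulVec, hhg, Matrix.one_mulVec]
  have hcc : act g c' = c := by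
    rw [hc', act_act, hhg, act_one]
  have hspc : Spc K c' c := by
    have h2 : rk K (rg c ∪ rg t) = rk K (rg c) + Fintype.card (Fin (n + 1) × Fin n) :=
      generic_of_subset_cl ht fun x hx => by
        rw [hS]
        exact subset_cl K _ x (Finset.mem_union_left _ hx)
    have h3 := (Spc.refl (K := K) c).elim_generic t h2
      (fun q : Fin (n + 1) × Fin n => if q.1 = q.2.succ then (1 : Ω) else 0)
    have h4 := spc_hm32 h3
    rw [hm32_one, ← hh] at h4
    have h6 := spc_act (g := h) (g' := 1) h4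
    rwa [act_one, ← hc'] at h6
  refine ⟨c', a', ?_, ?_, ?_, ?_, hspc, hspc.rk_le, ?_, ?_⟩
  · funext i
    rw [ha', h0, Matrix.mulVec_single_one]
    show g i 0 = _
    rw [hg0, Pi.single_apply]
  · rw [hc', van_act, haa]
    exact hV
  · rw [hc', rho_act hhg, haa]
  · intro m e' hn
    rw [hc'] at hn
    exact nl_act hb hhg hn
  · -- the ranks
    have r1 : rk K (rg c ∪ rg t) = rk K (rg c) + Fintype.card (Fin (n + 1) × Fin n) :=
      generic_of_subset_cl ht fun x hx => by
        rw [hS]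
        exact subset_cl K _ x (Finset.mem_union_left _ hx)
    have hc'm : ∀ X : Finset Ω, rg c ⊆ X → ∀ m, c' m ∈ cl K (X ∪ rg t) := by
      intro X hX m
      rw [hc']
      exact act_mem_cl (htm X)
        (fun m => subset_cl K _ _ (Finset.mem_union_left _ (hX (mem_rg32 c m)))) m
    have hcm : ∀ X : Finset Ω, rg c' ⊆ X → ∀ m, c m ∈ cl K (X ∪ rg t) := by
      intro X hX m
      rw [← hcc]
      exact act_mem_cl (hgm X)
        (fun m => subset_cl K _ _ (Finset.mem_union_left _ (hX (mem_rg32 c' m)))) m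
    have r2 : rk K (rg c' ∪ rg t) = rk K (rg c ∪ rg t) := by
      refine le_antisymm (rk_le_of_subset_cl K fun x hx => ?_)
        (rk_le_of_subset_cl K fun x hx => ?_)
      · rcases Finset.mem_union.1 hx with hx | hx
        · exact rg_le32 (hc'm _ (Finset.Subset.refl _)) x hx
        · exact subset_cl K _ x (Finset.mem_union_right _ hx)
      · rcases Finset.mem_union.1 hx with hx | hx
        · exact rg_le32 (hcm _ (Finset.Subset.refl _)) x hx
        · exact subset_cl K _ x (Finset.mem_union_right _ hx)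
    have r3 : rk K (S ∪ rg t) ≤ rk K (rg c' ∪ rga a' e ∪ rg t) := by
      refine rk_le_of_subset_cl K fun x hx => ?_
      rcases Finset.mem_union.1 hx with hx | hx
      · rw [hS] at hx
        rcases Finset.mem_union.1 hx with hx | hx
        · exact rg_le32 (hcm _ Finset.subset_union_left) x hx
        · refine rga_le32 (fun l hl i => ?_) x hx
          rw [← haa]
          show h.mulVec (a' l) i ∈ _
          refine mulVec_mem32 _ (htm _) (fun k => ?_) i
          exact subset_cl K _ _ (Finset.mem_union_left _ (Finset.mem_union_right _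
            (mem_rga32 a' hl (mem_rg32 (a' l) k))))
      · exact subset_cl K _ x (Finset.mem_union_right _ hx)
    have r4 := rk_submod K (rg c') (rga a' e) (rg t)
    rw [← hS]
    omega
  · -- the last claim
    have h2 : ∃ l ≤ e, ¬ ∃ α β : Ω, ∀ i, a l i = α * (Pi.single 0 1 : Fin (n + 1) → Ω) i +
        β * a e i := by
      by_contra hcon
      push Not at hcon
      apply h1
      intro l hl
      obtain ⟨α, β, hαβ⟩ := hcon l hl
      refine ⟨α, β, fun i => ?_⟩
      rw [hαβ i, h0]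
    obtain ⟨l, hl, hnl⟩ := h2
    have hmem : ∀ l ≤ e, ∀ i, a l i ∈ cl K S := by
      intro l hl i
      rw [hS]
      exact subset_cl K _ _ (Finset.mem_union_right _ (mem_rga32 a hl (mem_rg32 (a l) i)))
    have h3 := sep32 hwgen (hmem e le_rfl) (hmem l hl) hnl
    rw [← hgw] at h3
    have h4 : rk K (S ∪ rg (a' e)) + (n + 1) ≤ rk K (S ∪ rg (a' e) ∪ rg (a' l)) := by
      rw [ha', ha']
      exact h3
    have h5 := rk_submod K (rg (a' e)) (rg (a' l)) S
    have h6 : rg (a' e) ∪ rg (a' l) ∪ S = S ∪ rg (a' e) ∪ rg (a' l) := by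
      rw [Finset.union_comm, Finset.union_assoc]
    have h7 : rg (a' e) ∪ S = S ∪ rg (a' e) := Finset.union_comm _ _
    have h8 : rk K (rg (a' e) ∪ rg (a' l)) ≤ rk K (rga a' e) :=
      rk_mono K (Finset.union_subset (mem_rga32 a' le_rfl) (mem_rga32 a' hl))
    rw [h6, h7] at h5
    omega

end Pool.Agent.Helper30.RY
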