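import Mathlib
import Pool.Agent.Helper30.RY.Fbr
import Pool.Agent.Helper30.RY.Chn
import Pool.Agent.Helper30.RY.Cov
import Pool.Agent.Helper30.RY.Ncv
import Pool.Agent.Helper30.RY.Mov

/-!
# Block RY-STX: the recursion step

Notation: `e = E + 1`, `N = card (Mon n d)`, `e₀ = Pi.single 0 1`.

`lay_of_not_nl`: by definition (`nl_of_not_lay`).
`ne_zero_of_lay`: if `Lay K m E c` with `1 ≤ E`, `m ≤ n` then `c ≠ 0`: for `c = 0` take
`a 0 = e₀`, `a 1` generic; `Van 0 a 1`, `SingC 0 a 1`, so `Lay` would give `n + 1 ≤ m`.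
`normalise`: let `a e j ≠ 0`, choose `θ` with `θ^e * a e j = 1` (`e ≥ 1`) and `a₂ l i = θ^l * a l i`.

`step_x`.  Let `c`, `a` be as in the statement, and suppose
`N + n < rk (rg c) + m e + κ` for a contradiction.
(1) `c ≠ 0` (`ne_zero_of_lay`).  Not all `a l` are in the span of `a 0`, `a e` (`cover_bound`, and
    `rk (rg c ∪ rg (a 0)) = rk (rg c)` because the coordinates of `e₀` are in `cl K ∅`).
(2) Replace `(c, a)` by `(c₁, a₁)` from `exists_spread`: `¬ NL K m E c₁`, `rk (rg c) ≤ rk (rg c₁)`,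
    `rk (rg c₁) + m e + 1 + rho ≤ rk (rg c₁ ∪ rga a₁ e)`, `rk (rg (a₁ e)) + (n + 1) ≤ rk (rga a₁ e)`;
    `c₁ (m0 n d) = 0` (`eval_zero_of_vanp`: `eval e₀ (fm c₁) = c₁ (m0 n d)`).
(3) `a₁ e ≠ 0`: otherwise `Van c₁ a₁ E` (`vanp_trunc`), `rho` is the same for `E`, and `Lay K m E c₁` gives
    `rk (rg c₁ ∪ rga a₁ e) ≤ rk (rg c₁) + m E + rho`, a contradiction.
(4) Normalise: `a₂ l i = θ^l a₁ l i`, `a₂ e j = 1`.  `Van c₁ a₂ e` (`vanp_scale`), `rho c₁ a₂ e = rho c₁ a₁ e`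
    (`vanp_scale` both ways), `a₂ 0 = e₀`.  `rga a₁ e ⊆ cl K (rga a₂ e ∪ {θ})`, so
    `rk (rg c₁ ∪ rga a₁ e) ≤ rk (rg c₁ ∪ rga a₂ e) + 1`.  Let `c₁ α₀ ≠ 0`, `ĉ = c₁ / c₁ α₀`.
    `rg ĉ ⊆ cl K (rg c₁)` and `rk (rg c₁) ≤ rk (rg ĉ) + 1`, and by `rk_submod`
    `rk (rg ĉ) + m e + rho ≤ rk (rg ĉ ∪ rga a₂ e)`.   (TD)
    `rk (rg (a₂ e)) ≤ n` (`a₂ e j = 1`).
    `rk (rg (a₂ e)) < rk (rga a₂ e)`: otherwise `rga a₂ e ⊆ cl K (rg (a₂ e)) ⊆ cl K (rg (a₁ e))`
    (`θ ∈ cl K (rg (a₁ e))`), so `rga a₁ e ⊆ cl K (rg (a₁ e))`, contradicting (2).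
(5) `hA`: `rk (rg (a₂ e)) + (N - κ - 1) ≤ n + N - κ - 1 < rk (rg c₁) + m e - 1 ≤ rk (rg ĉ) + m e`.
(6) `fam_break` gives `c', τ', a'`; `Lay K m E c'`.  `chain_bound`:
    `rk P' + card B ≤ rk (rg c') + m e + (e - 1) + bet c' e₀` (`rk (rg c' ∪ rg (a' 0)) = rk (rg c')`), so
    `rk (rg ĉ ∪ rga a₂ e) + 1 ≤ rk (rg c') + m e + bet c' e₀`, where `ĉ` is now `c₁ / c₁ α`
    (mutual `cl` with `c₁ / c₁ α₀`), and `rk (rg c') ≤ rk (rg ĉ)` (`Spc.comp`, `Spc.rk_le`).
    With (TD): `rho + 1 ≤ bet c' e₀`.  So `rho = 0`, `bet c' e₀ = 1` and `rk (rg c') = rk (rg ĉ)`.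
(7) `Spc.symm_of_rk`: `c' ⟶ ĉ`, so `SingP c' e₀` implies `SingP ĉ e₀`, `SingP c₁ e₀`; as `rho = 0`, the curve
    is in the singular locus: `SingC c₁ a₂ e`.  So `chain_bound_sing` applies and gives
    `rk (rg ĉ ∪ rga a₂ e) + 1 ≤ rk (rg c') + m e`, contradicting (TD).

`step`.  Let `c₀` be not `e`-layered.  If `NL K m E c₀` use `nl_bound` and `κ' ≤ κ`.  Otherwise `Lay K m E c₀`,
and the definition of `Lay` fails for a curve `a` of degree `e` exactly.  `exists_move` gives `c₁`, `a₁`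
with `¬ NL K m E c₁`, and the hypotheses of `step_x` hold:
`rk (rg c₁) + m e + 1 + rho ≤ rk (rg c₁ ∪ rga a₁ e)`.  So `rk (rg c₁) + m e + κ ≤ N + n`, and
`rk (rg c₀) ≤ rk (rg c₁) + n`.
-/

namespace Pool.Agent.Helper30.RY

open MvPolynomial

variable {K : Type*} [Field K] {Ω : Type*} [Field Ω] [Algebra K Ω] [IsAlgClosed Ω]
  [DecidableEq Ω] {n d m : ℕ}

omit [IsAlgClosed Ω] [DecidableEq Ω] in
private theorem fm_zero1 : fm (0 : Mon n d → Ω) = 0 := by
  unfold fm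
  refine Finset.sum_eq_zero fun m _ => ?_
  rw [Pi.zero_apply, map_zero]

omit [IsAlgClosed Ω] [DecidableEq Ω] in
private theorem rho_congr1 {c : Mon n d → Ω} {a a' : ℕ → Fin (n + 1) → Ω} {e e' : ℕ}
    (h0 : SingP c (a 0) ↔ SingP c (a' 0)) (h : SingC c a e ↔ SingC c a' e') :
    rho c a e = rho c a' e' := by
  unfold rho
  by_cases h1 : SingP c (a 0) ∧ ¬ SingC c a e
  · rw [if_pos h1, if_pos ⟨h0.1 h1.1, fun h2 => h1.2 (h.2 h2)⟩]
  · rw [if_neg h1, if_neg fun h2 => h1 ⟨h0.2 h2.1, fun h3 => h2.2 (h.1 h3)⟩]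

omit [Field Ω] [IsAlgClosed Ω] in
private theorem mem_rg1 {ι : Type*} [Fintype ι] (a : ι → Ω) (i : ι) : a i ∈ rg a :=
  Finset.mem_image.2 ⟨i, Finset.mem_univ i, rfl⟩

omit [Field Ω] [IsAlgClosed Ω] in
private theorem rg_sub1 {ι : Type*} [Fintype ι] (a : ℕ → ι → Ω) {l e : ℕ} (h : l ≤ e) :
    rg (a l) ⊆ rga a e := fun _ hx =>
  Finset.mem_biUnion.2 ⟨l, Finset.mem_range.2 (by omega), hx⟩

omit [Field Ω] [IsAlgClosed Ω] in
private theorem mem_rga1 {ι : Type*} [Fintype ι] (a : ℕ → ι → Ω) {l e : ℕ} (h : l ≤ e) (i : ι) :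
    a l i ∈ rga a e := rg_sub1 a h (mem_rg1 (a l) i)

omit [Field Ω] [IsAlgClosed Ω] in
private theorem of_rga1 {ι : Type*} [Fintype ι] {a : ℕ → ι → Ω} {e : ℕ} {x : Ω}
    (h : x ∈ rga a e) : ∃ l ≤ e, ∃ i, x = a l i := by
  obtain ⟨l, hl, hx⟩ := Finset.mem_biUnion.1 h
  obtain ⟨i, _, hi⟩ := Finset.mem_image.1 hx
  exact ⟨l, by have := Finset.mem_range.1 hl; omega, i, hi.symm⟩

omit [Field Ω] [IsAlgClosed Ω] in
private theorem of_rg1 {ι : Type*} [Fintype ι] {a : ι → Ω} {x : Ω}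
    (h : x ∈ rg a) : ∃ i, x = a i := by
  obtain ⟨i, _, hi⟩ := Finset.mem_image.1 h
  exact ⟨i, hi.symm⟩

omit [IsAlgClosed Ω] in
private theorem cl_e01 (s : Finset Ω) :
    ∀ x ∈ rg (Pi.single 0 1 : Fin (n + 1) → Ω), x ∈ cl K s := by
  intro x hx
  obtain ⟨i, rfl⟩ := of_rg1 hx
  by_cases hi : i = 0
  · subst hi
    rw [Pi.single_eq_same]
    exact one_mem _
  · rw [Pi.single_eq_of_ne hi]
    exact zero_mem _

omit [IsAlgClosed Ω] in
private theorem rk_e01 (s : Finset Ω) :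
    rk K (s ∪ rg (Pi.single 0 1 : Fin (n + 1) → Ω)) = rk K s :=
  rk_union_of_subset_cl K (cl_e01 s)

omit [IsAlgClosed Ω] in
theorem ne_zero_of_lay (hb : Big K Ω) {E : ℕ} (hE : 1 ≤ E) (hmn : m ≤ n) {c : Mon n d → Ω}
    (h : Lay K m E c) : c ≠ 0 := by
  intro h0
  subst h0
  obtain ⟨t, ht⟩ := exists_generic K hb ∅ (Fin (n + 1))
  rw [rk_empty, Finset.empty_union, Nat.zero_add, Fintype.card_fin] at ht
  let a : ℕ → Fin (n + 1) → Ω := fun l => if l = 0 then Pi.single 0 1 else t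
  have ha0 : a 0 = Pi.single 0 1 := if_pos rfl
  have ha1 : a 1 = t := if_neg one_ne_zero
  have hne : a 0 ≠ 0 := by
    rw [ha0]
    intro h1
    have h2 := congrFun h1 0
    rw [Pi.single_eq_same, Pi.zero_apply] at h2
    exact one_ne_zero h2
  have hV : Van (0 : Mon n d → Ω) a 1 := by
    unfold Van Vanp
    rw [fm_zero1, map_zero]
  have hS : SingC (0 : Mon n d → Ω) a 1 := by
    intro i
    unfold Vanp
    rw [fm_zero1, map_zero, map_zero]
  have h1 := h 1 hE a hne hV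
  have h2 : rho (0 : Mon n d → Ω) a 1 = 0 := by
    unfold rho
    exact if_neg fun h3 => h3.2 hS
  have h3 : rk K (rg (0 : Mon n d → Ω) ∪ rg (a 0)) ≤ rk K (∅ : Finset Ω) := by
    refine rk_le_of_subset_cl K fun x hx => ?_
    rcases Finset.mem_union.1 hx with hx | hx
    · obtain ⟨i, rfl⟩ := of_rg1 hx
      rw [Pi.zero_apply]
      exact zero_mem _
    · rw [ha0] at hx
      exact cl_e01 _ x hx
  have h4 : rk K (rg t) ≤ rk K (rg (0 : Mon n d → Ω) ∪ rga a 1) := by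
    refine rk_mono K ?_
    rw [← ha1]
    exact (rg_sub1 a le_rfl).trans Finset.subset_union_right
  rw [rk_empty] at h3
  rw [h2] at h1
  omega

omit [IsAlgClosed Ω] in
theorem singP_spc {c : Mon n d → Ω} {c' : Mon n d → Ω} (h : Spc K c c')
    (hs : SingP c (Pi.single 0 1)) : SingP c' (Pi.single 0 1) := by
  intro i
  -- the universal form
  have key : ∀ c : Mon n d → Ω, eval (Pi.single 0 1) (pderiv i (fm c)) =
      aeval c (eval (Pi.single 0 1)
        (pderiv i (fm (X : Mon n d → MvPolynomial (Mon n d) K)))) := by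
    intro c
    have h1 : fm c = map (aeval c : MvPolynomial (Mon n d) K →ₐ[K] Ω).toRingHom
        (fm (X : Mon n d → MvPolynomial (Mon n d) K)) := by
      rw [map_fm]
      congr 1
      funext m
      exact (aeval_X c m).symm
    have h2 : ∀ p : MvPolynomial (Fin (n + 1)) (MvPolynomial (Mon n d) K),
        eval (Pi.single 0 1) (map (aeval c : MvPolynomial (Mon n d) K →ₐ[K] Ω).toRingHom p) =
          (aeval c : MvPolynomial (Mon n d) K →ₐ[K] Ω).toRingHom (eval (Pi.single 0 1) p) := by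
      intro p
      have h3 := eval₂_comp_left (aeval c : MvPolynomial (Mon n d) K →ₐ[K] Ω).toRingHom
        (RingHom.id _) (Pi.single 0 1 : Fin (n + 1) → MvPolynomial (Mon n d) K) p
      rw [eval_map]
      refine Eq.trans ?_ h3.symm
      congr 1
      funext j
      rw [Function.comp]
      by_cases hj : j = 0
      · subst hj
        rw [Pi.single_eq_same, Pi.single_eq_same, map_one]
      · rw [Pi.single_eq_of_ne hj, Pi.single_eq_of_ne hj, map_zero]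
    rw [h1, pderiv_map, h2]
    rfl
  have h1 := hs i
  rw [key] at h1 ⊢
  exact h _ h1

omit [IsAlgClosed Ω] in
theorem eval_single (c : Mon n d → Ω) : eval (Pi.single 0 1) (fm c) = c (m0 n d) := by
  classical
  unfold fm
  rw [map_sum, Finset.sum_eq_single (m0 n d)]
  · rw [eval_monomial]
    have h1 : (m0 n d : Mon n d).1 = Finsupp.single 0 d := rfl
    have h2 : (Finsupp.single (0 : Fin (n + 1)) d).prod
        (fun k e => (Pi.single 0 1 : Fin (n + 1) → Ω) k ^ e) = 1 := by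
      rw [Finsupp.prod_single_index]
      · rw [Pi.single_eq_same, one_pow]
      · exact pow_zero _
    rw [h1, h2, mul_one]
  · intro m _ hm
    rw [eval_monomial]
    -- some exponent other than that of `X 0` is positive
    have h1 : ∃ i, i ≠ 0 ∧ m.1 i ≠ 0 := by
      by_contra hcon
      push Not at hcon
      refine hm (Subtype.ext ?_)
      have h2 : m.1 = Finsupp.single 0 (m.1 0) := by
        ext i
        by_cases hi : i = 0
        · subst hi
          rw [Finsupp.single_eq_same]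
        · rw [hcon i hi, Finsupp.single_eq_of_ne hi]
      have h3 := m.2
      rw [h2, Finsupp.degree_single] at h3
      show m.1 = Finsupp.single 0 d
      rw [h2, h3]
    obtain ⟨i, hi, hmi⟩ := h1
    have h4 : (m.1.prod fun k e => (Pi.single 0 1 : Fin (n + 1) → Ω) k ^ e) = 0 := by
      refine Finset.prod_eq_zero (Finsupp.mem_support_iff.2 hmi) ?_
      show (Pi.single 0 1 : Fin (n + 1) → Ω) i ^ (m.1 i) = 0
      rw [Pi.single_eq_of_ne hi, zero_pow hmi]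
    rw [h4, mul_zero]
  · intro h
    exact absurd (Finset.mem_univ _) h

theorem step_x (hb : Big K Ω) (hd : 1 ≤ d) (hm : 2 ≤ m) (hmn : m ≤ n) {E κ : ℕ} (hE : 1 ≤ E)
    (hκ : ∀ c₀ : Mon n d → Ω, ¬ Lay K m E c₀ → rk K (rg c₀) + κ ≤ Fintype.card (Mon n d))
    (hκ' : κ + 1 ≤ Fintype.card (Mon n d)) (c : Mon n d → Ω) (hN : ¬ NL K m E c)
    (a : ℕ → Fin (n + 1) → Ω) (ha0 : a 0 = Pi.single 0 1) (hV : Van c a (E + 1))
    (h : rk K (rg c) + m * (E + 1) + 1 + rho c a (E + 1) ≤ rk K (rg c ∪ rga a (E + 1))) :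
    rk K (rg c) + m * (E + 1) + κ ≤ Fintype.card (Mon n d) + n := by
  by_contra hcon
  push Not at hcon
  have hL : Lay K m E c := by
    by_contra h1
    exact hN (nl_of_not_lay h1)
  have ha0' : a 0 ≠ 0 := by
    rw [ha0]
    intro h1
    have h2 := congrFun h1 0
    rw [Pi.single_eq_same, Pi.zero_apply] at h2
    exact one_ne_zero h2
  -- not all vectors are in the span
  have hspan : ¬ ∀ l ≤ E + 1, ∃ α β : Ω, ∀ i, a l i = α * a 0 i + β * a (E + 1) i := by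
    intro hall
    have h1 := cover_bound hm hL hE (Nat.le_add_left 1 E) ha0' hV hall
    rw [ha0, rk_e01] at h1
    omega
  obtain ⟨c₁, a₁, ha10, hV1, hrho1, hNL1, _, hr1, hr2, hr3⟩ :=
    exists_spread hb c a (E + 1) ha0 hV hspan
  have hN1 : ¬ NL K m E c₁ := fun h1 => hN (hNL1 m E h1)
  have hL1 : Lay K m E c₁ := by
    by_contra h1
    exact hN1 (nl_of_not_lay h1)
  have hc1 : c₁ ≠ 0 := ne_zero_of_lay hb hE hmn hL1
  have hm0 : c₁ (m0 n d) = 0 := by
    have h1 := eval_zero_of_vanp hV1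
    rw [ha10, eval_single] at h1
    exact h1
  have hmain1 : rk K (rg c₁) + m * (E + 1) + 1 + rho c₁ a₁ (E + 1) ≤
      rk K (rg c₁ ∪ rga a₁ (E + 1)) := by
    rw [hrho1]
    omega
  -- the last vector is not zero
  have hae : a₁ (E + 1) ≠ 0 := by
    intro h0
    have hz : ∀ l, E < l → l ≤ E + 1 → ∀ i, a₁ l i = 0 := by
      intro l hl hl' i
      have : l = E + 1 := by omega
      rw [this, h0, Pi.zero_apply]
    have hVE : Van c₁ a₁ E := (vanp_trunc (Nat.le_succ E) hz).1 hV1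
    have hSE : SingC c₁ a₁ (E + 1) ↔ SingC c₁ a₁ E :=
      forall_congr' fun i => vanp_trunc (Nat.le_succ E) hz
    have hrE : rho c₁ a₁ (E + 1) = rho c₁ a₁ E := rho_congr1 Iff.rfl hSE
    have h1 := hL1 E le_rfl a₁ (by rw [ha10, ← ha0]; exact ha0') hVE
    rw [ha10, rk_e01] at h1
    have h2 : rk K (rg c₁ ∪ rga a₁ (E + 1)) ≤ rk K (rg c₁ ∪ rga a₁ E) := by
      refine rk_le_of_subset_cl K fun x hx => ?_
      rcases Finset.mem_union.1 hx with hx | hx
      · exact subset_cl K _ x (Finset.mem_union_left _ hx)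
      · obtain ⟨l, hl, i, rfl⟩ := of_rga1 hx
        by_cases hlE : l ≤ E
        · exact subset_cl K _ _ (Finset.mem_union_right _ (mem_rga1 a₁ hlE i))
        · rw [hz l (by omega) hl i]
          exact zero_mem _
    rw [hrE] at hmain1
    have h3 : m * (E + 1) = m * E + m := by ring
    omega
  obtain ⟨j, hj⟩ := Function.ne_iff.1 hae
  rw [Pi.zero_apply] at hj
  -- normalisation
  obtain ⟨θ, hθ⟩ := IsAlgClosed.exists_pow_nat_eq (a₁ (E + 1) j)⁻¹ (Nat.succ_pos E)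
  have hθ0 : θ ≠ 0 := by
    intro h0
    rw [h0, zero_pow (Nat.succ_ne_zero E)] at hθ
    exact inv_ne_zero hj hθ.symm
  have hθcl : θ ∈ cl K (rg (a₁ (E + 1))) := by
    refine mem_cl_of_pow_mem K (Nat.succ_pos E) ?_
    rw [hθ]
    exact inv_mem (subset_cl K _ _ (mem_rg1 _ j))
  obtain ⟨a₂, ha₂⟩ : ∃ a₂ : ℕ → Fin (n + 1) → Ω, a₂ = fun l i => θ ^ l * a₁ l i := ⟨_, rfl⟩
  have ha₂' : ∀ l i, a₂ l i = θ ^ l * a₁ l i := fun l i => by rw [ha₂]
  have ha₁' : ∀ l i, a₁ l i = (θ ^ l)⁻¹ * a₂ l i := fun l i => by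
    rw [ha₂', ← mul_assoc, inv_mul_cancel₀ (pow_ne_zero l hθ0), one_mul]
  have ha20 : a₂ 0 = Pi.single 0 1 := by
    funext i
    rw [ha₂', pow_zero, one_mul, ha10]
  have ha2j : a₂ (E + 1) j = 1 := by
    rw [ha₂', hθ, inv_mul_cancel₀ hj]
  have hvan : ∀ f : MvPolynomial (Fin (n + 1)) Ω, Vanp f a₁ (E + 1) ↔ Vanp f a₂ (E + 1) := by
    intro f
    constructor
    · intro h1
      rw [ha₂]
      exact vanp_scale θ h1
    · intro h1
      have h2 := vanp_scale θ⁻¹ h1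
      refine (vanp_congr fun l _ i => ?_).1 h2
      rw [ha₁' l i, inv_pow]
  have hV2 : Van c₁ a₂ (E + 1) := (hvan _).1 hV1
  have hrho2 : rho c₁ a₂ (E + 1) = rho c₁ a₁ (E + 1) := by
    have h1 : SingC c₁ a₂ (E + 1) ↔ SingC c₁ a₁ (E + 1) :=
      forall_congr' fun i => (hvan _).symm
    exact rho_congr1 (by rw [ha20, ha10]) h1
  -- ranks
  have hr4 : rk K (rg c₁ ∪ rga a₁ (E + 1)) ≤ rk K (rg c₁ ∪ rga a₂ (E + 1)) + 1 := by
    have h1 := rk_union_le_card K (rg c₁ ∪ rga a₂ (E + 1)) {θ}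
    rw [Finset.card_singleton] at h1
    refine le_trans (rk_le_of_subset_cl K fun x hx => ?_) h1
    rcases Finset.mem_union.1 hx with hx | hx
    · exact subset_cl K _ x (Finset.mem_union_left _ (Finset.mem_union_left _ hx))
    · obtain ⟨l, hl, i, rfl⟩ := of_rga1 hx
      rw [ha₁' l i]
      refine mul_mem (inv_mem (pow_mem (subset_cl K _ _ (Finset.mem_union_right _
        (Finset.mem_singleton_self θ))) l)) (subset_cl K _ _ (Finset.mem_union_left _
          (Finset.mem_union_right _ (mem_rga1 a₂ hl i))))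
  have hTD : ∀ α : Mon n d, c₁ α ≠ 0 → rk K (rg fun m => c₁ m / c₁ α) + m * (E + 1) +
      rho c₁ a₂ (E + 1) ≤ rk K ((rg fun m => c₁ m / c₁ α) ∪ rga a₂ (E + 1)) := by
    intro α _
    have h1 : ∀ x ∈ rg (fun m => c₁ m / c₁ α), x ∈ cl K (rg c₁) := by
      intro x hx
      obtain ⟨i, rfl⟩ := of_rg1 hx
      exact div_mem (subset_cl K _ _ (mem_rg1 _ i)) (subset_cl K _ _ (mem_rg1 _ α))
    have h2 := rk_union_of_subset_cl K h1
    have h3 := rk_submod K (rg fun m => c₁ m / c₁ α) (rg c₁) (rga a₂ (E + 1))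
    rw [Finset.union_comm (rg fun m => c₁ m / c₁ α) (rg c₁), h2] at h3
    have h4 : rk K (rg c₁ ∪ rga a₂ (E + 1)) ≤
        rk K (rg c₁ ∪ (rg fun m => c₁ m / c₁ α) ∪ rga a₂ (E + 1)) :=
      rk_mono K (Finset.union_subset_union_left Finset.subset_union_left)
    omega
  have hone : ∀ α : Mon n d, c₁ α ≠ 0 → rk K (rg c₁) ≤ rk K (rg fun m => c₁ m / c₁ α) + 1 := by
    intro α hα
    have h1 := rk_union_le_card K (rg fun m => c₁ m / c₁ α) {c₁ α}
    rw [Finset.card_singleton] at h1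
    refine le_trans (rk_le_of_subset_cl K fun x hx => ?_) h1
    obtain ⟨i, rfl⟩ := of_rg1 hx
    have h2 : c₁ i = c₁ i / c₁ α * c₁ α := by rw [div_mul_cancel₀ _ hα]
    rw [h2]
    exact mul_mem (subset_cl K _ _ (Finset.mem_union_left _
      (mem_rg1 (fun m => c₁ m / c₁ α) i))) (subset_cl K _ _ (Finset.mem_union_right _
        (Finset.mem_singleton_self _)))
  obtain ⟨α₀, hα₀⟩ := Function.ne_iff.1 hc1
  rw [Pi.zero_apply] at hα₀
  -- the rank of the end point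
  have hn : rk K (rg (a₂ (E + 1))) ≤ n := by
    have h1 : rk K (rg (a₂ (E + 1))) ≤ rk K ((Finset.univ.erase j).image (a₂ (E + 1))) := by
      refine rk_le_of_subset_cl K fun x hx => ?_
      obtain ⟨i, rfl⟩ := of_rg1 hx
      by_cases hi : i = j
      · rw [hi, ha2j]
        exact one_mem _
      · exact subset_cl K _ _ (Finset.mem_image.2
          ⟨i, Finset.mem_erase.2 ⟨hi, Finset.mem_univ i⟩, rfl⟩)
    have h2 := rk_le_card K ((Finset.univ.erase j).image (a₂ (E + 1)))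
    have h3 : ((Finset.univ.erase j).image (a₂ (E + 1))).card ≤ (Finset.univ.erase j).card :=
      Finset.card_image_le
    have h4 : (Finset.univ.erase j).card = n := by
      rw [Finset.card_erase_of_mem (Finset.mem_univ j), Finset.card_univ, Fintype.card_fin,
        Nat.add_sub_cancel]
    omega
  have hNC : rk K (rg (a₂ (E + 1))) < rk K (rga a₂ (E + 1)) := by
    by_contra h1
    push Not at h1
    have h2 : rk K (rg (a₂ (E + 1)) ∪ rga a₂ (E + 1)) ≤ rk K (rg (a₂ (E + 1))) := by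
      rw [Finset.union_eq_right.2 (rg_sub1 a₂ le_rfl)]
      exact h1
    have h3 := subset_cl_of_rk_le K h2
    have h4 : ∀ x ∈ rg (a₂ (E + 1)), x ∈ cl K (rg (a₁ (E + 1))) := by
      intro x hx
      obtain ⟨i, rfl⟩ := of_rg1 hx
      rw [ha₂']
      exact mul_mem (pow_mem hθcl _) (subset_cl K _ _ (mem_rg1 _ i))
    have h5 : rk K (rga a₁ (E + 1)) ≤ rk K (rg (a₁ (E + 1))) := by
      refine rk_le_of_subset_cl K fun x hx => ?_
      obtain ⟨l, hl, i, rfl⟩ := of_rga1 hx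
      rw [ha₁' l i]
      exact mul_mem (inv_mem (pow_mem hθcl l)) (cl_le K h4 (h3 _ (mem_rga1 a₂ hl i)))
    omega
  have hA : rk K (rg (a₂ (E + 1))) + (Fintype.card (Mon n d) - κ - 1) <
      rk K (rg (fun m => c₁ m / c₁ α₀) ∪ rga a₂ (E + 1)) := by
    have h1 := hTD α₀ hα₀
    have h2 := hone α₀ hα₀
    omega
  obtain ⟨α, θ', τ, b, c', τ', a', η, hα, _, _, _, hSpc, _, _, hNL', hbrk, hF, hNod, ha'0, _, _,
    hSing, hR1, hR2⟩ := fam_break hb hd hκ hκ' c₁ hm0 hN1 a₂ ha20 j ha2j hV2 α₀ hα₀ hA hNC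
  have hL' : Lay K m E c' := by
    by_contra h1
    exact hNL' (nl_of_not_lay h1)
  have hch := chain_bound hb hL' (E + 1) (Nat.le_add_left 1 E) τ' a' (Or.inr ⟨le_rfl, hbrk⟩) hF
    hNod
  rw [ha'0, rk_e01] at hch
  have hS1 : Spc K (fun m => c₁ m / c₁ α) c' := hSpc.comp Sum.inl
  have hrk1 := hS1.rk_le
  have hTDα := hTD α hα
  have hbet : bet c' (Pi.single 0 1) ≤ 1 := by
    unfold bet
    split_ifs <;> omega
  have hb1 : bet c' (Pi.single 0 1) = 1 := by omega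
  have hrho0 : rho c₁ a₂ (E + 1) = 0 := by omega
  have hrk2 : rk K (rg fun m => c₁ m / c₁ α) ≤ rk K (rg c') := by omega
  have hback := hS1.symm_of_rk hrk2
  have hsp' : SingP c' (Pi.single 0 1) := by
    by_contra h1
    unfold bet at hb1
    rw [if_neg h1] at hb1
    exact absurd hb1 (by norm_num)
  have hsp1 := singP_spc hback hsp'
  have hsp2 : SingP c₁ (Pi.single 0 1) := by
    intro i
    have h1 : c₁ = fun m => c₁ α * (c₁ m / c₁ α) := by
      funext k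
      rw [mul_div_cancel₀ _ hα]
    rw [h1, fm_smul, pderiv_C_mul, map_mul, hsp1 i, mul_zero]
  have hsc : SingC c₁ a₂ (E + 1) := by
    by_contra h1
    unfold rho at hrho0
    rw [if_pos ⟨by rw [ha20]; exact hsp2, h1⟩] at hrho0
    exact one_ne_zero hrho0
  have hch2 := chain_bound_sing hL' (E + 1) (Nat.le_add_left 1 E) τ' a' (Or.inr ⟨le_rfl, hbrk⟩) hF
    (hSing hsc) hNod
  rw [ha'0, rk_e01] at hch2
  omega

theorem step (hb : Big K Ω) (hd : 1 ≤ d) (hm : 2 ≤ m) (hmn : m ≤ n) {E κ κ' : ℕ} (hE : 1 ≤ E)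
    (hκ : ∀ c₀ : Mon n d → Ω, ¬ Lay K m E c₀ → rk K (rg c₀) + κ ≤ Fintype.card (Mon n d))
    (hκ' : κ + 1 ≤ Fintype.card (Mon n d)) (h1 : κ' ≤ κ) (h2 : κ' + 2 * n ≤ κ + m * (E + 1))
    (c₀ : Mon n d → Ω) (hc₀ : ¬ Lay K m (E + 1) c₀) :
    rk K (rg c₀) + κ' ≤ Fintype.card (Mon n d) := by
  by_cases hNL : NL K m E c₀
  · have h3 := nl_bound hκ hNL
    omega
  · have hL : Lay K m E c₀ := by
      by_contra h3
      exact hNL (nl_of_not_lay h3)
    unfold Lay at hc₀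
    push Not at hc₀
    obtain ⟨e', he', a, h0, hV, hlt⟩ := hc₀
    have he'' : e' = E + 1 := by
      by_contra h3
      have h4 := hL e' (by omega) a h0 hV
      omega
    subst he''
    obtain ⟨c₁, a₁, ha10, hV1, hrho1, _, hNL1, hr1, hr2⟩ := exists_move hb c₀ a (E + 1) h0 hV
    have h5 := step_x hb hd hm hmn hE hκ hκ' c₁ (fun h6 => hNL (hNL1 m E h6)) a₁ ha10 hV1
      (by rw [hrho1]; omega)
    omega

end Pool.Agent.Helper30.RY
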