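import Mathlib
import Pool.Agent.Helper30.RY.Exc
import Pool.Agent.Helper30.RY.Num
import Pool.Agent.Helper30.RY.Stx
import Pool.Agent.Helper30.RY.Lrg

/-!
# Block RY-GNL: the generic form is layered

`N = card (Mon n d) = (n + d).choose d`.
`codim_all`: take `κ` from `exists_kappa` and prove `∀ c₀, ¬ Lay K m E c₀ → rk (rg c₀) + κ E ≤ N` for `E ≥ 1` by
induction.  `E = 1`: `base_one`.  `E → E + 1`: if `m (E + 1) < n` use `step` (`κ E + 1 ≤ N` because
`κ E ≤ κ 1 ≤ 1 + n.choose 2 - n`, and `N ≥ (n + 2).choose 2` (`card_mon`) is bigger).  Otherwise let `c₀` be not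
`(E+1)`-layered; if `c₀ = 0` then `rk (rg c₀) = 0`; if `c₀ ≠ 0`, `large` shows `¬ Lay K m E c₀`, and
`κ (E + 1) ≤ κ E`.
`generic_lay`: for `d = 1`, `m = n`: `Lay K n 0 c` is trivial, `large` applies for all `E`.  For `d ≥ 2`:
`codim_all` for `E ≥ 1`; `E = 0` is trivial.
`generic_smooth`: suppose `z ≠ 0`, `eval z (fm c) = 0`, `SingP c z`.  `exists_move` with the constant curve
`a l = z` and `e = 0` (`Van c a 0` is `eval z (fm c) = 0`) gives `c₁` with `rk (rg c) ≤ rk (rg c₁) + n` for which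
`e₀` is a singular point of the hypersurface.  `card_sing`: `rk (rg c₁) + (n + 1) ≤ N`, so
`rk (rg c) ≤ N - 1`, contradiction.
`generic_bound`: `generic_lay` with `rho = 0` (`generic_smooth`; `eval (a 0) (fm c) = 0` by
`eval_zero_of_vanp`).
-/

namespace Pool.Agent.Helper30.RY

open MvPolynomial

variable {K : Type*} [Field K] {Ω : Type*} [Field Ω] [Algebra K Ω] [IsAlgClosed Ω]
  [DecidableEq Ω] {n d m : ℕ}

private theorem gnl_card75 (hd : 2 ≤ d) : n.choose 2 + 1 ≤ Fintype.card (Mon n d) := by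
  rw [card_mon]
  have h1 : (n + 2).choose n ≤ (n + d).choose n := Nat.choose_le_choose n (by omega)
  have h2 : (n + d).choose n = (n + d).choose d := by
    rw [← Nat.choose_symm (Nat.le_add_right n d), Nat.add_sub_cancel_left]
  have h3 : (n + 2).choose n = (n + 2).choose 2 := by
    rw [← Nat.choose_symm (Nat.le_add_right n 2), Nat.add_sub_cancel_left]
  have h4 : (n + 2).choose 2 = (n + 1).choose 1 + (n + 1).choose 2 := Nat.choose_succ_succ _ _
  have h5 : (n + 1).choose 2 = n.choose 1 + n.choose 2 := Nat.choose_succ_succ _ _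
  rw [Nat.choose_one_right] at h4 h5
  omega

omit [IsAlgClosed Ω] in
private theorem gnl_zero75 : rk K (rg (0 : Mon n d → Ω)) = 0 := by
  have h1 : rk K (rg (0 : Mon n d → Ω)) ≤ rk K (∅ : Finset Ω) := by
    refine rk_le_of_subset_cl K fun x hx => ?_
    obtain ⟨i, _, rfl⟩ := Finset.mem_image.1 hx
    exact zero_mem _
  rw [rk_empty] at h1
  omega

omit [IsAlgClosed Ω] in
private theorem gnl_lay0_75 (c : Mon n d → Ω) : Lay K m 0 c := by
  intro e' he' a h0 hV
  obtain rfl : e' = 0 := by omega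
  have h1 : rga a 0 = rg (a 0) := by
    unfold rga
    rw [Finset.range_one, Finset.singleton_biUnion]
  rw [h1]
  omega

private theorem gnl_all75 (hb : Big K Ω) (hd : 2 ≤ d) (hn : d + 2 ≤ n) (hm : m + d = n + 1) :
    ∃ κ : ℕ → ℕ, (∀ E, 1 ≤ E → n + 3 ≤ κ E + m * (E + 1)) ∧ (∀ E, 1 ≤ E → 3 ≤ κ E) ∧
      ∀ E, 1 ≤ E → κ E + 1 ≤ Fintype.card (Mon n d) ∧
      ∀ c₀ : Mon n d → Ω, ¬ Lay K m E c₀ → rk K (rg c₀) + κ E ≤ Fintype.card (Mon n d) := by
  obtain ⟨κ, h1, h2, h3, h4, h5, h6⟩ := exists_kappa hd hn hm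
  refine ⟨κ, h5, h3, fun E hE => ?_⟩
  have hc := gnl_card75 (n := n) hd
  induction E, hE using Nat.le_induction with
  | base => exact ⟨by omega, fun c₀ hc₀ => base_one hb hd hn hm h1 h2 c₀ hc₀⟩
  | succ E hE ih =>
    obtain ⟨i1, i2⟩ := ih
    have h4' := h4 E hE
    refine ⟨by omega, fun c₀ hc₀ => ?_⟩
    rcases lt_or_ge (m * (E + 1)) n with hlt | hge
    · exact step hb (by omega) (by omega) (by omega) hE i2 i1 h4' (h6 E hE hlt) c₀ hc₀
    · by_cases h0 : c₀ = 0
      · subst h0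
        rw [gnl_zero75]
        omega
      · have h7 : ¬ Lay K m E c₀ := fun hL => hc₀ (large hb hge h0 hL)
        have := i2 c₀ h7
        omega

theorem codim_all (hb : Big K Ω) (hd : 2 ≤ d) (hn : d + 2 ≤ n) (hm : m + d = n + 1) (E : ℕ)
    (hE : 1 ≤ E) :
    ∃ κ : ℕ, 3 ≤ κ ∧ n + 3 ≤ κ + m * (E + 1) ∧ κ + 1 ≤ Fintype.card (Mon n d) ∧
      ∀ c₀ : Mon n d → Ω, ¬ Lay K m E c₀ → rk K (rg c₀) + κ ≤ Fintype.card (Mon n d) := by
  obtain ⟨κ, h1, h2, h3⟩ := gnl_all75 (K := K) (Ω := Ω) hb hd hn hm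
  exact ⟨κ E, h2 E hE, h1 E hE, h3 E hE⟩

theorem generic_lay (hb : Big K Ω) (hd : 1 ≤ d) (hn : d + 2 ≤ n) (hm : m + d = n + 1)
    {c : Mon n d → Ω} (hc : rk K (rg c) = Fintype.card (Mon n d)) (e : ℕ) : Lay K m e c := by
  have hpos : 0 < Fintype.card (Mon n d) := by
    rw [card_mon]
    exact Nat.choose_pos (by omega)
  have hc0 : c ≠ 0 := by
    rintro rfl
    rw [gnl_zero75] at hc
    omega
  rcases Nat.lt_or_ge d 2 with h2 | h2
  · have hmn : m = n := by omega
    induction e with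
    | zero => exact gnl_lay0_75 c
    | succ e ih =>
      refine large hb ?_ hc0 ih
      rw [hmn]
      exact Nat.le_mul_of_pos_right n (Nat.succ_pos e)
  · rcases Nat.eq_zero_or_pos e with rfl | he
    · exact gnl_lay0_75 c
    · by_contra hL
      obtain ⟨κ, h1, -, -, h4⟩ := codim_all (K := K) (Ω := Ω) hb h2 hn hm e he
      have := h4 c hL
      omega

omit [IsAlgClosed Ω] in
theorem generic_smooth (hb : Big K Ω) (hd : 1 ≤ d)
    {c : Mon n d → Ω} (hc : rk K (rg c) = Fintype.card (Mon n d)) {z : Fin (n + 1) → Ω}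
    (hz : z ≠ 0) (h0 : eval z (fm c) = 0) : ¬ SingP c z := by
  intro hs
  have hV : Van c (fun _ => z) 0 := by
    have h1 : cv (fun _ : ℕ => z) 0 = fun i => Polynomial.C (z i) := by
      funext i
      unfold cv
      rw [Finset.sum_range_one, pow_zero, mul_one]
    unfold Van Vanp
    rw [h1]
    have h2 : aeval (fun i => Polynomial.C (z i)) (fm c) = Polynomial.C (eval z (fm c)) := by
      generalize fm c = f
      induction f using MvPolynomial.induction_on with
      | C a => rw [aeval_C, eval_C]; rfl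
      | add p q hp hq => rw [map_add, map_add, map_add, hp, hq]
      | mul_X p i hp => rw [map_mul, map_mul, map_mul, hp, aeval_X, eval_X]
    rw [h2, h0, map_zero]
  obtain ⟨c₁, a₁, h1, h2, -, h4, -, h6, -⟩ := exists_move hb c (fun _ => z) 0 hz hV
  have h7 : SingP c₁ (Pi.single 0 1) := by
    rw [← h1]
    exact h4.2 hs
  have h8 : c₁ (m0 n d) = 0 := by
    have h9 := eval_single c₁
    rw [← h1, eval_zero_of_vanp h2] at h9
    exact h9.symm
  have h9 := card_sing (K := K) hd h8 h7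
  omega

theorem generic_bound (hb : Big K Ω) (hd : 1 ≤ d) (hn : d + 2 ≤ n) (hm : m + d = n + 1)
    {c : Mon n d → Ω} (hc : rk K (rg c) = Fintype.card (Mon n d)) (e : ℕ)
    (a : ℕ → Fin (n + 1) → Ω) (h0 : a 0 ≠ 0) (hV : Van c a e) :
    rk K (rg c ∪ rga a e) ≤ rk K (rg c ∪ rg (a 0)) + m * e := by
  have h1 := generic_lay hb hd hn hm hc e e (le_refl e) a h0 hV
  have h2 : rho c a e = 0 := by
    unfold rho
    rw [if_neg]
    rintro ⟨h3, -⟩
    exact generic_smooth hb hd hc h0 (eval_zero_of_vanp hV) h3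
  rw [h2] at h1
  exact h1

end Pool.Agent.Helper30.RY
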