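import Mathlib
import Pool.Agent.Helper30.RY.Real

/-!
# Block RY-TRF: from a dense set of parameters to the generic parameter

`k ⊆ Ω`, `X, Y, W` finite types.  `S` is a Zariski dense set of points `x ∈ k^X`; for `x ∈ S` a point
`(y x, w x) ∈ Ω^Y × Ω^W` is given with `rk (rg (y x)) + q ≤ rk (rg (y x) ∪ rg (w x))`.  `P x = (x, y x, w x)`.

Proof.  For an ideal `J` of `R = k[X ⊕ (Y ⊕ W)]` let `S_J = {x ∈ S : all elements of J vanish at P x}`.
`R` is noetherian, so there is a maximal ideal `J` among the ideals such that `S_J` is dense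
(`⊥` is one of them).
* `J` is prime: `S_⊤ = ∅` is not dense.  If `p₁ p₂ ∈ J` then `S_J = S_{J+(p₁)} ∪ S_{J+(p₂)}`, and if neither were
  dense, with `D₁, D₂` nonzero polynomials vanishing on them, `D₁ D₂` would vanish on `S_J`.
* Let `φ : R → Ω` have kernel `J` (`exists_real`), `P* = φ ∘ X`, `x*, y*, w*` its parts.
* `x*` is generic: if `D ∈ k[X]`, `D ≠ 0`, `D(x*) = 0`, then `D ∈ J` vanishes on `S_J`, which is dense: contradiction.
  So `x*` is algebraically independent over `k`, and `rk (rg x*) = card X`.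
* Relations: if `p` vanishes at all `P x`, `x ∈ S`, then `S_{J+(p)} = S_J`, so `p ∈ J` by maximality.
* Suppose `rk (rg x* ∪ rg y* ∪ rg w*) < rk (rg x* ∪ rg y*) + q`.  Choose `T ⊆ W` with
  `card T = rk (rg x* ∪ rg y* ∪ rg w*) - rk (rg x* ∪ rg y*) < q` such that all `w*_j` are in
  `cl (rg x* ∪ rg y* ∪ {w*_t, t ∈ T})`.  For each `j ∈ W` there is a nonzero polynomial relation: a polynomial
  `p_j(Z) = ∑_i p_{j,i} Z^i`, `p_{j,i} ∈ k[X, Y, T]` (a subring of `R`), with `p_j(w*_j) = 0` at `P*` and some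
  `p_{j,i_j} ∉ J`.  `q₀ = ∏_j p_{j,i_j} ∉ J` (`J` prime).  `J + (q₀)` is bigger than `J`, so `S_{J+(q₀)}` is not dense, and
  there is `x ∈ S_J` with `q₀(P x) ≠ 0` (otherwise `S_J = S_{J+(q₀)}`).  The relation
  `∑_i p_{j,i}(P x) (w x)_j^i = 0` (an element of `J`) is nontrivial, so
  `(w x)_j ∈ cl (rg (y x) ∪ {(w x)_t, t ∈ T})` for all `j` (`mem_cl_of_root`), and
  `rk (rg (y x) ∪ rg (w x)) ≤ rk (rg (y x)) + card T < rk (rg (y x)) + q`, contradiction.
-/

namespace Pool.Agent.Helper30.RY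

open MvPolynomial

/-- the point `(x, y, w)` -/
noncomputable def tpt {k Ω : Type*} [Field k] [Field Ω] [Algebra k Ω] {X Y W : Type*}
    (x : X → k) (y : Y → Ω) (w : W → Ω) : X ⊕ (Y ⊕ W) → Ω :=
  Sum.elim (fun i => algebraMap k Ω (x i)) (Sum.elim y w)

section aux4

variable {k Ω : Type*} [Field k] [Field Ω] [Algebra k Ω]

/-- the rank of an algebraically independent family -/
private theorem rk_algInd4 [DecidableEq Ω] {V : Type*} [Fintype V] {x : V → Ω}
    (h : AlgebraicIndependent k x) : rk k (rg x) = Fintype.card V := by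
  have hinj : Function.Injective x := h.injective
  have h1 : (AlgebraicIndependent.matroid k Ω).Indep ((rg x : Finset Ω) : Set Ω) := by
    rw [AlgebraicIndependent.matroid_indep_iff]
    have h2 : ((rg x : Finset Ω) : Set Ω) = Set.range x := by
      ext y; simp [rg]
    rw [h2]
    exact h.coe_range
  have h3 := h1.eRk_eq_encard
  rw [← rk_coe, Set.encard_coe_eq_coe_finsetCard] at h3
  have h4 : rk k (rg x) = (rg x).card := by exact_mod_cast h3
  rw [h4]
  unfold rg
  rw [Finset.card_image_of_injective _ hinj, Finset.card_univ]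

/-- a transcendence basis of a family over a finite set -/
private theorem exists_basis4 [DecidableEq Ω] {W : Type*} [Fintype W] (A : Finset Ω) (w : W → Ω) :
    ∃ T : Finset W, rk k A + T.card = rk k (A ∪ rg w) ∧ ∀ j, w j ∈ cl k (A ∪ T.image w) := by
  classical
  have h0 : (∅ : Finset W) ∈ (Finset.univ : Finset (Finset W)).filter
      (fun T => rk k A + T.card = rk k (A ∪ T.image w)) := by
    rw [Finset.mem_filter]
    refine ⟨Finset.mem_univ _, ?_⟩
    rw [Finset.card_empty, Finset.image_empty, Finset.union_empty, Nat.add_zero]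
  obtain ⟨T, hT, hmax⟩ := Finset.exists_max_image _ (fun T : Finset W => T.card) ⟨_, h0⟩
  rw [Finset.mem_filter] at hT
  have hcl : ∀ j, w j ∈ cl k (A ∪ T.image w) := by
    intro j
    by_contra hj
    have hjT : j ∉ T := fun h => hj (subset_cl k _ _ (Finset.mem_union_right _
      (Finset.mem_image_of_mem w h)))
    have h1 := rk_insert_of_notMem k hj
    have h2 : insert (w j) (A ∪ T.image w) = A ∪ (insert j T).image w := by
      rw [Finset.image_insert, Finset.union_insert]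
    rw [h2] at h1
    have h3 := hmax (insert j T) (by
      rw [Finset.mem_filter]
      refine ⟨Finset.mem_univ _, ?_⟩
      rw [Finset.card_insert_of_notMem hjT, h1, ← hT.2]
      ring)
    rw [Finset.card_insert_of_notMem hjT] at h3
    omega
  refine ⟨T, ?_, hcl⟩
  rw [hT.2]
  refine le_antisymm (rk_mono k ?_) (rk_le_of_subset_cl k ?_)
  · refine Finset.union_subset_union_right ?_
    intro y hy
    obtain ⟨j, _, rfl⟩ := Finset.mem_image.1 hy
    exact Finset.mem_image_of_mem w (Finset.mem_univ j)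
  · intro y hy
    rcases Finset.mem_union.1 hy with hy | hy
    · exact subset_cl k _ _ (Finset.mem_union_left _ hy)
    · obtain ⟨j, _, rfl⟩ := Finset.mem_image.1 hy
      exact hcl j

/-- a polynomial relation with coefficients in the polynomials in the variables of `s` -/
private theorem exists_rel4 {ι : Type*} (φ : MvPolynomial ι k →ₐ[k] Ω) (s : Set ι) (B : Finset Ω)
    (hB : (B : Set Ω) ⊆ (fun i => φ (X i)) '' s) {v : Ω} (hv : v ∈ cl k B) :
    ∃ P : Polynomial (MvPolynomial ι k), (∀ i, P.coeff i ∈ supported k s) ∧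
      (∃ i, φ (P.coeff i) ≠ 0) ∧ (P.map (φ : MvPolynomial ι k →+* Ω)).eval v = 0 := by
  have h1 : v ∈ (AlgebraicIndependent.matroid k Ω).closure (B : Set Ω) := by
    rw [closure_eq_cl]
    exact hv
  rw [AlgebraicIndependent.matroid_closure_eq, SetLike.mem_coe,
    Subalgebra.mem_algebraicClosure] at h1
  obtain ⟨Q, hQ0, hQv⟩ := h1
  have h2 : Algebra.adjoin k (B : Set Ω) ≤ (supported k s).map φ := by
    rw [supported_eq_adjoin_X, AlgHom.map_adjoin]
    refine Algebra.adjoin_mono ?_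
    rw [← Set.image_comp]
    exact hB
  have h3 : ∀ i : ℕ, ∃ c ∈ supported k s, φ c = (Q.coeff i : Ω) := fun i => h2 (Q.coeff i).2
  choose c hc1 hc2 using h3
  obtain ⟨P, hP⟩ : ∃ P : Polynomial (MvPolynomial ι k),
      P = ∑ i ∈ Finset.range (Q.natDegree + 1), Polynomial.monomial i (c i) := ⟨_, rfl⟩
  have hcoeff : ∀ i, P.coeff i = if i ∈ Finset.range (Q.natDegree + 1) then c i else 0 := by
    intro i
    rw [hP, Polynomial.finsetSum_coeff]
    simp only [Polynomial.coeff_monomial]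
    rw [Finset.sum_ite_eq']
  have hmap : P.map (φ : MvPolynomial ι k →+* Ω) = Q.map (algebraMap _ Ω) := by
    ext i
    rw [Polynomial.coeff_map, Polynomial.coeff_map, hcoeff]
    split_ifs with hi
    · exact hc2 i
    · rw [map_zero, Polynomial.coeff_eq_zero_of_natDegree_lt, map_zero]
      rw [Finset.mem_range] at hi
      omega
  refine ⟨P, fun i => ?_, ?_, ?_⟩
  · rw [hcoeff]
    split_ifs
    · exact hc1 i
    · exact zero_mem _
  · have h4 : P.map (φ : MvPolynomial ι k →+* Ω) ≠ 0 := by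
      rw [hmap]
      exact (Polynomial.map_ne_zero_iff (FaithfulSMul.algebraMap_injective _ Ω)).2 hQ0
    by_contra hcon
    push Not at hcon
    refine h4 ?_
    ext i
    rw [Polynomial.coeff_map, Polynomial.coeff_zero]
    exact hcon i
  · rw [hmap, Polynomial.eval_map_algebraMap]
    exact hQv

/-- a maximal ideal of relations holding on a dense set -/
private theorem exists_ideal4 {ι V : Type*} [Finite ι] (S : Set (V → k))
    (hS : ∀ D : MvPolynomial V k, D ≠ 0 → ∃ x ∈ S, eval x D ≠ 0) (P : (V → k) → ι → Ω) :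
    ∃ J : Ideal (MvPolynomial ι k), J.IsPrime ∧
      (∀ D : MvPolynomial V k, D ≠ 0 →
        ∃ x ∈ S, (∀ p ∈ J, aeval (P x) p = 0) ∧ eval x D ≠ 0) ∧
      (∀ p, p ∉ J → ∃ x ∈ S, (∀ p ∈ J, aeval (P x) p = 0) ∧ aeval (P x) p ≠ 0) := by
  obtain ⟨F, hF⟩ : ∃ F : Set (Ideal (MvPolynomial ι k)), F = {J | ∀ D : MvPolynomial V k, D ≠ 0 →
      ∃ x ∈ S, (∀ p ∈ J, aeval (P x) p = 0) ∧ eval x D ≠ 0} := ⟨_, rfl⟩
  have hmemF : ∀ J, J ∈ F ↔ ∀ D : MvPolynomial V k, D ≠ 0 →
      ∃ x ∈ S, (∀ p ∈ J, aeval (P x) p = 0) ∧ eval x D ≠ 0 := by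
    intro J
    rw [hF]
    exact Iff.rfl
  have hbot : (⊥ : Ideal (MvPolynomial ι k)) ∈ F := by
    rw [hmemF]
    intro D hD
    obtain ⟨x, hx, hxD⟩ := hS D hD
    refine ⟨x, hx, fun p hp => ?_, hxD⟩
    rw [Ideal.mem_bot] at hp
    rw [hp, map_zero]
  obtain ⟨J, hJF, hmax⟩ := set_has_maximal_iff_noetherian.2
    (inferInstance : IsNoetherian (MvPolynomial ι k) (MvPolynomial ι k)) F ⟨⊥, hbot⟩
  have hJ := (hmemF J).1 hJF
  have key : ∀ p, p ∉ J → ∃ D : MvPolynomial V k, D ≠ 0 ∧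
      ∀ x ∈ S, (∀ p ∈ J, aeval (P x) p = 0) → aeval (P x) p = 0 → eval x D = 0 := by
    intro p hp
    by_contra hcon
    push Not at hcon
    refine hmax (J ⊔ Ideal.span {p}) ?_ ?_
    · rw [hmemF]
      intro D hD
      obtain ⟨x, hx, hxJ, hxp, hxD⟩ := hcon D hD
      refine ⟨x, hx, ?_, hxD⟩
      have h1 : J ⊔ Ideal.span {p} ≤ RingHom.ker (aeval (P x) : MvPolynomial ι k →ₐ[k] Ω) := by
        refine sup_le (fun r hr => ?_) ?_
        · rw [RingHom.mem_ker]
          exact hxJ r hr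
        · rw [Ideal.span_singleton_le_iff_mem, RingHom.mem_ker]
          exact hxp
      intro r hr
      have h2 := h1 hr
      rw [RingHom.mem_ker] at h2
      exact h2
    · rw [left_lt_sup, Ideal.span_singleton_le_iff_mem]
      exact hp
  refine ⟨J, ?_, hJ, ?_⟩
  · refine ⟨?_, ?_⟩
    · intro htop
      obtain ⟨x, _, hxJ, _⟩ := hJ 1 one_ne_zero
      have h1 := hxJ 1 (by rw [htop]; exact Submodule.mem_top)
      rw [map_one] at h1
      exact one_ne_zero h1
    · intro a b hab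
      by_contra hcon
      rw [not_or] at hcon
      obtain ⟨D₁, hD₁, h1⟩ := key a hcon.1
      obtain ⟨D₂, hD₂, h2⟩ := key b hcon.2
      obtain ⟨x, hx, hxJ, hxD⟩ := hJ (D₁ * D₂) (mul_ne_zero hD₁ hD₂)
      have h3 := hxJ _ hab
      rw [map_mul, mul_eq_zero] at h3
      apply hxD
      rw [map_mul]
      rcases h3 with h3 | h3
      · rw [h1 x hx hxJ h3, zero_mul]
      · rw [h2 x hx hxJ h3, mul_zero]
  · intro p hp
    obtain ⟨D, hD, h1⟩ := key p hp
    obtain ⟨x, hx, hxJ, hxD⟩ := hJ D hD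
    exact ⟨x, hx, hxJ, fun h => hxD (h1 x hx hxJ h)⟩

end aux4

theorem transfer {k Ω : Type*} [Field k] [Field Ω] [Algebra k Ω] [IsAlgClosed Ω]
    [DecidableEq Ω] (hb : Big k Ω) {X Y W : Type*} [Fintype X] [Fintype Y] [Fintype W]
    (S : Set (X → k)) (hS : ∀ D : MvPolynomial X k, D ≠ 0 → ∃ x ∈ S, eval x D ≠ 0)
    (y : (X → k) → Y → Ω) (w : (X → k) → W → Ω) (q : ℕ)
    (hq : ∀ x ∈ S, rk k (rg (y x)) + q ≤ rk k (rg (y x) ∪ rg (w x))) :
    ∃ (x' : X → Ω) (y' : Y → Ω) (w' : W → Ω), rk k (rg x') = Fintype.card X ∧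
      (∃ x ∈ S, Spc k (Sum.elim x' (Sum.elim y' w')) (tpt x (y x) (w x))) ∧
      (∀ p : MvPolynomial (X ⊕ (Y ⊕ W)) k, (∀ x ∈ S, aeval (tpt x (y x) (w x)) p = 0) →
        aeval (Sum.elim x' (Sum.elim y' w')) p = 0) ∧
      rk k (rg x' ∪ rg y') + q ≤ rk k (rg x' ∪ rg y' ∪ rg w') := by
  classical
  obtain ⟨J, hJp, hJ1, hJ2⟩ := exists_ideal4 S hS (fun x => tpt x (y x) (w x))
  obtain ⟨φ, hφ⟩ := exists_real hb (MvPolynomial (X ⊕ (Y ⊕ W)) k) J
  obtain ⟨z, hz⟩ : ∃ z : X ⊕ (Y ⊕ W) → Ω, z = fun i => φ (MvPolynomial.X i) := ⟨_, rfl⟩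
  have hφz : ∀ p, φ p = aeval z p := by
    intro p
    rw [hz]
    exact DFunLike.congr_fun (aeval_unique φ) p
  have hzz : Sum.elim (z ∘ Sum.inl) (Sum.elim (z ∘ Sum.inr ∘ Sum.inl) (z ∘ Sum.inr ∘ Sum.inr)) =
      z := by
    funext i
    rcases i with i | i | i <;> rfl
  have hSpc : ∀ x, (∀ p ∈ J, aeval (tpt x (y x) (w x)) p = 0) →
      Spc k z (tpt x (y x) (w x)) := by
    intro x hxJ p hp
    refine hxJ p ?_
    rw [← hφ, hφz]
    exact hp
  refine ⟨z ∘ Sum.inl, z ∘ Sum.inr ∘ Sum.inl, z ∘ Sum.inr ∘ Sum.inr, ?_, ?_, ?_, ?_⟩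
  · -- independence
    refine rk_algInd4 ?_
    rw [algebraicIndependent_iff]
    intro D hD
    by_contra hne
    obtain ⟨x, hx, hxJ, hxD⟩ := hJ1 D hne
    have h1 : rename Sum.inl D ∈ J := by
      rw [← hφ, hφz, aeval_rename]
      exact hD
    have h2 := hxJ _ h1
    rw [aeval_rename] at h2
    have h3 : (tpt x (y x) (w x)) ∘ Sum.inl = fun i => algebraMap k Ω (x i) := rfl
    rw [h3] at h2
    have h4 : aeval (fun i => algebraMap k Ω (x i)) D = algebraMap k Ω (eval x D) := by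
      have h5 := aeval_algebraMap_apply Ω x D
      rw [← coe_aeval_eq_eval]
      exact h5
    rw [h4, map_eq_zero] at h2
    exact hxD h2
  · obtain ⟨x, hx, hxJ, _⟩ := hJ1 1 one_ne_zero
    rw [hzz]
    exact ⟨x, hx, hSpc x hxJ⟩
  · intro p hp
    rw [hzz, ← hφz, hφ]
    by_contra hcon
    obtain ⟨x, hx, _, hxp⟩ := hJ2 p hcon
    exact hxp (hp x hx)
  · by_contra hcon
    rw [not_le] at hcon
    obtain ⟨T, hT, hTcl⟩ := exists_basis4 (k := k) (rg (z ∘ Sum.inl) ∪ rg (z ∘ Sum.inr ∘ Sum.inl))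
      (z ∘ Sum.inr ∘ Sum.inr)
    have hTq : T.card < q := by omega
    obtain ⟨s, hs⟩ : ∃ s : Set (X ⊕ (Y ⊕ W)), s = {i | ∀ j, i = Sum.inr (Sum.inr j) → j ∈ T} :=
      ⟨_, rfl⟩
    have hs1 : ∀ i, Sum.inl i ∈ s := by
      intro i
      rw [hs]
      intro j hj
      exact absurd hj (by simp)
    have hs2 : ∀ i, Sum.inr (Sum.inl i) ∈ s := by
      intro i
      rw [hs]
      intro j hj
      exact absurd hj (by simp)
    have hs3 : ∀ j, Sum.inr (Sum.inr j) ∈ s ↔ j ∈ T := by
      intro i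
      rw [hs]
      constructor
      · intro h
        exact h i rfl
      · intro h j hj
        have h1 : i = j := by simpa using hj
        rw [← h1]
        exact h
    have hB : ((rg (z ∘ Sum.inl) ∪ rg (z ∘ Sum.inr ∘ Sum.inl) ∪
        T.image (z ∘ Sum.inr ∘ Sum.inr) : Finset Ω) : Set Ω) ⊆
        (fun i => φ (MvPolynomial.X i)) '' s := by
      intro b hb
      rw [← hz]
      rw [Finset.mem_coe, Finset.mem_union, Finset.mem_union] at hb
      rcases hb with (hb | hb) | hb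
      · obtain ⟨i, _, rfl⟩ := Finset.mem_image.1 hb
        exact ⟨_, hs1 i, rfl⟩
      · obtain ⟨i, _, rfl⟩ := Finset.mem_image.1 hb
        exact ⟨_, hs2 i, rfl⟩
      · obtain ⟨i, hi, rfl⟩ := Finset.mem_image.1 hb
        exact ⟨_, (hs3 i).2 hi, rfl⟩
    have hrel := fun j : W => exists_rel4 φ s _ hB (hTcl j)
    choose Q hQ1 hQ2 hQ3 using hrel
    choose ij hij using hQ2
    have hq0 : ∏ j : W, (Q j).coeff (ij j) ∉ J := by
      rw [← hφ, map_prod]
      exact Finset.prod_ne_zero_iff.2 fun j _ => hij j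
    obtain ⟨x, hxS, hxJ, hx0⟩ := hJ2 _ hq0
    rw [map_prod, Finset.prod_ne_zero_iff] at hx0
    have hsup : supported k s ≤ (cl k (rg (y x) ∪ T.image (w x))).toSubalgebra.comap
        (aeval (tpt x (y x) (w x))) := by
      rw [supported_eq_adjoin_X]
      refine Algebra.adjoin_le ?_
      rintro _ ⟨i, hi, rfl⟩
      change aeval (tpt x (y x) (w x)) (MvPolynomial.X i) ∈ cl k (rg (y x) ∪ T.image (w x))
      rw [aeval_X]
      rcases i with i | i | i
      · exact (cl k (rg (y x) ∪ T.image (w x))).algebraMap_mem (x i)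
      · exact subset_cl k _ _ (Finset.mem_union_left _ (Finset.mem_image_of_mem _
          (Finset.mem_univ i)))
      · exact subset_cl k _ _ (Finset.mem_union_right _ (Finset.mem_image_of_mem _
          ((hs3 i).1 hi)))
    have hwcl : ∀ j, w x j ∈ cl k (rg (y x) ∪ T.image (w x)) := by
      intro j
      refine mem_cl_of_root k ((Q j).map
        ((aeval (tpt x (y x) (w x)) : MvPolynomial (X ⊕ (Y ⊕ W)) k →ₐ[k] Ω) :
          MvPolynomial (X ⊕ (Y ⊕ W)) k →+* Ω)) ?_ ?_ ?_
      · intro h0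
        have h1 := congrArg (fun p => Polynomial.coeff p (ij j)) h0
        simp only [Polynomial.coeff_map, Polynomial.coeff_zero] at h1
        exact hx0 j (Finset.mem_univ j) h1
      · intro i
        rw [Polynomial.coeff_map]
        exact hsup (hQ1 j i)
      · have h1 : (Q j).eval (MvPolynomial.X (Sum.inr (Sum.inr j))) ∈ J := by
          rw [← hφ]
          have h2 := hQ3 j
          have h3 : (z ∘ Sum.inr ∘ Sum.inr) j =
              (φ : MvPolynomial (X ⊕ (Y ⊕ W)) k →+* Ω) (MvPolynomial.X (Sum.inr (Sum.inr j))) := by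
            rw [hz]
            rfl
          rw [h3, Polynomial.eval_map, Polynomial.eval₂_at_apply] at h2
          exact h2
        have h2 := hxJ _ h1
        have h3 : w x j = ((aeval (tpt x (y x) (w x)) : MvPolynomial (X ⊕ (Y ⊕ W)) k →ₐ[k] Ω) :
          MvPolynomial (X ⊕ (Y ⊕ W)) k →+* Ω) (MvPolynomial.X (Sum.inr (Sum.inr j))) := by
          change _ = aeval (tpt x (y x) (w x)) (MvPolynomial.X (Sum.inr (Sum.inr j)))
          rw [aeval_X]
          rfl
        rw [h3, Polynomial.eval_map, Polynomial.eval₂_at_apply]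
        exact h2
    have h1 : rk k (rg (y x) ∪ rg (w x)) ≤ rk k (rg (y x) ∪ T.image (w x)) := by
      refine rk_le_of_subset_cl k fun v hv => ?_
      rcases Finset.mem_union.1 hv with hv | hv
      · exact subset_cl k _ _ (Finset.mem_union_left _ hv)
      · obtain ⟨j, _, rfl⟩ := Finset.mem_image.1 hv
        exact hwcl j
    have h2 := rk_union_le_card k (rg (y x)) (T.image (w x))
    have h3 : (T.image (w x)).card ≤ T.card := Finset.card_image_le
    have h4 := hq x hxS
    omega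

end Pool.Agent.Helper30.RY
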