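import Mathlib
import Pool.Agent.Helper30.RY.Trf
import Pool.Agent.Helper30.RY.Gnl

/-!
# Block RY-GQB: the bound for the general form over `k`

`k ⊆ Ω`.  Let `S` be the set of `x ∈ k^{Mon}` for which there is a curve `a` (in `Ω`) of degree `≤ e` on the
hypersurface with `a 0 ≠ 0` and `rk (rg (a 0)) + m e + 1 ≤ rk (rga a e)`, `m = n + 1 - d`.  If `S` is not
Zariski dense there is `D ≠ 0` vanishing on `S` and we are done.  Suppose `S` is dense; choose such a
curve `a_x` for every `x ∈ S`, let `Y = Fin (n + 1)`, `y x = a_x 0`, `W = Fin e × Fin (n + 1)`,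
`w x (l, i) = a_x (l + 1) i`, `q = m e + 1` (`rga a e = rg (a 0) ∪ rg w`), and apply `transfer`: there are
`c = x'`, `y'`, `w'`; let `a 0 = y'`, `a (l + 1) i = w' (l, i)` for `l < e`, and `a l = 0` for `l > e`.
* `Van c a e`: let `R = k[Mon ⊕ (Y ⊕ W)]` and let `c_u : Mon n d → R`, `a_u : ℕ → Fin (n+1) → R` be the universal
  form and curve (variables).  The coefficients `p_j` of `aeval (cv a_u e) (fm c_u) ∈ R[T]` vanish at the
  points `tpt x (y x) (w x)`, `x ∈ S` (`vanp_map`-like: the homomorphism `aeval (tpt ...) : R → Ω` maps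
  `aeval (cv a_u e) (fm c_u)` to `aeval (cv a_x e) (fm x)`), so they vanish at `(c, y', w')`, which says
  `Van c a e`.
* `y' ≠ 0`: the point `(c, y', w')` specialises to some `(x, y x, w x)`, `x ∈ S`, and `y x ≠ 0`
  (`Spc.eq_zero`).
* `rk (rg c) = card`, so `generic_bound` gives `rk (rg c ∪ rga a e) ≤ rk (rg c ∪ rg (a 0)) + m e`,
  contradicting the last claim of `transfer` (`rga a e = rg y' ∪ rg w'`).
-/

namespace Pool.Agent.Helper30.RY

open MvPolynomial

private theorem key14 {A B : Type*} [CommRing A] [CommRing B] {n : ℕ} (φ : A →+* B)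
    (f : MvPolynomial (Fin (n + 1)) A) (a : ℕ → Fin (n + 1) → A) (e : ℕ) :
    aeval (cv (fun l i => φ (a l i)) e) (map φ f) = (aeval (cv a e) f).map φ := by
  have h1 : cv (fun l i => φ (a l i)) e = fun i => Polynomial.mapRingHom φ (cv a e i) := by
    funext i
    exact (map_cv φ a e i).symm
  rw [h1, aeval_def, eval₂_map, ← Polynomial.coe_mapRingHom, aeval_def, hom_eval₂]
  congr 1
  ext x
  simp

/-- a curve from its initial point and the other coefficients -/
private def crv14 {A : Type*} [Zero A] {n e : ℕ} (y : Fin (n + 1) → A) (w : Fin e × Fin (n + 1) → A) (l : ℕ)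
    (i : Fin (n + 1)) : A :=
  if l = 0 then y i else if h : l - 1 < e then w (⟨l - 1, h⟩, i) else 0

private theorem crv_zero14 {A : Type*} [Zero A] {n e : ℕ} (y : Fin (n + 1) → A) (w : Fin e × Fin (n + 1) → A) :
    crv14 y w 0 = y := by
  funext i
  unfold crv14
  rw [if_pos rfl]

private theorem crv_succ14 {A : Type*} [Zero A] {n e : ℕ} (y : Fin (n + 1) → A) (w : Fin e × Fin (n + 1) → A)
    (l : Fin e) (i : Fin (n + 1)) : crv14 y w (l + 1) i = w (l, i) := by
  unfold crv14
  rw [if_neg (Nat.succ_ne_zero _), dif_pos (show (l : ℕ) + 1 - 1 < e from l.2)]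
  rfl

private theorem crv_map14 {A B : Type*} [CommRing A] [CommRing B] (φ : A →+* B) {n e : ℕ}
    (y : Fin (n + 1) → A) (w : Fin e × Fin (n + 1) → A) (l : ℕ) (i : Fin (n + 1)) :
    φ (crv14 y w l i) = crv14 (fun i => φ (y i)) (fun p => φ (w p)) l i := by
  unfold crv14
  split_ifs
  · rfl
  · rfl
  · exact map_zero φ

private theorem crv_eq14 {A : Type*} [CommRing A] {n e : ℕ} (a : ℕ → Fin (n + 1) → A) (l : ℕ) (hl : l ≤ e)
    (i : Fin (n + 1)) :
    crv14 (a 0) (fun p : Fin e × Fin (n + 1) => a (p.1 + 1) p.2) l i = a l i := by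
  rcases l with _ | l
  · rw [crv_zero14]
  · exact crv_succ14 _ _ ⟨l, hl⟩ i

private theorem rga_crv14 {Ω : Type*} [DecidableEq Ω] {n : ℕ} (a : ℕ → Fin (n + 1) → Ω) (e : ℕ) :
    rga a e = rg (a 0) ∪ rg (fun p : Fin e × Fin (n + 1) => a (p.1 + 1) p.2) := by
  ext x
  unfold rga rg
  simp only [Finset.mem_biUnion, Finset.mem_range, Finset.mem_union, Finset.mem_image, Finset.mem_univ, true_and]
  constructor
  · rintro ⟨l, hl, i, hi⟩
    rcases l with _ | l
    · exact Or.inl ⟨i, hi⟩
    · exact Or.inr ⟨(⟨l, by omega⟩, i), hi⟩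
  · rintro (⟨i, hi⟩ | ⟨p, hp⟩)
    · exact ⟨0, by omega, i, hi⟩
    · exact ⟨p.1 + 1, by have := p.1.2; omega, p.2, hp⟩

theorem general_bound {k Ω : Type*} [Field k] [Field Ω] [Algebra k Ω] [IsAlgClosed Ω]
    [DecidableEq Ω] (hb : Big k Ω) {n d : ℕ} (hd : 1 ≤ d) (hn : d + 2 ≤ n) (e : ℕ) :
    ∃ D : MvPolynomial (Mon n d) k, D ≠ 0 ∧ ∀ x : Mon n d → k, eval x D ≠ 0 →
      ∀ a : ℕ → Fin (n + 1) → Ω, a 0 ≠ 0 → Van (fun m => algebraMap k Ω (x m)) a e →
        rk k (rga a e) ≤ rk k (rg (a 0)) + (n + 1 - d) * e := by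
  classical
  let S : Set (Mon n d → k) := {x | ∃ a : ℕ → Fin (n + 1) → Ω, a 0 ≠ 0 ∧
    Van (fun m => algebraMap k Ω (x m)) a e ∧ rk k (rg (a 0)) + ((n + 1 - d) * e + 1) ≤ rk k (rga a e)}
  by_cases hS : ∀ D : MvPolynomial (Mon n d) k, D ≠ 0 → ∃ x ∈ S, eval x D ≠ 0
  · exfalso
    have hch : ∀ x : Mon n d → k, ∃ a : ℕ → Fin (n + 1) → Ω, x ∈ S → (a 0 ≠ 0 ∧
        Van (fun m => algebraMap k Ω (x m)) a e ∧
        rk k (rg (a 0)) + ((n + 1 - d) * e + 1) ≤ rk k (rga a e)) := by
      intro x
      by_cases hx : x ∈ S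
      · obtain ⟨a, ha⟩ := hx
        exact ⟨a, fun _ => ha⟩
      · exact ⟨0, fun h => absurd h hx⟩
    choose a ha using hch
    obtain ⟨x', y', w', h1, ⟨x, hx, h2⟩, h3, h4⟩ := transfer hb S hS (fun x => a x 0)
      (fun x (p : Fin e × Fin (n + 1)) => a x (p.1 + 1) p.2) ((n + 1 - d) * e + 1) (by
        intro x hx
        have h5 := (ha x hx).2.2
        rw [rga_crv14] at h5
        exact h5)
    -- the curve is not degenerate
    have hy0 : crv14 y' w' 0 ≠ 0 := by
      rw [crv_zero14]
      intro hy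
      refine (ha x hx).1 ?_
      funext i
      have h5 := h2 (X (Sum.inr (Sum.inl i))) (by
        rw [aeval_X]
        exact congrFun hy i)
      rw [aeval_X] at h5
      exact h5
    -- the universal curve
    let R := MvPolynomial (Mon n d ⊕ (Fin (n + 1) ⊕ (Fin e × Fin (n + 1)))) k
    let cu : Mon n d → R := fun m => X (Sum.inl m)
    let yu : Fin (n + 1) → R := fun i => X (Sum.inr (Sum.inl i))
    let wu : Fin e × Fin (n + 1) → R := fun p => X (Sum.inr (Sum.inr p))
    let F : Polynomial R := aeval (cv (crv14 yu wu) e) (fm cu)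
    have hF : ∀ (c : Mon n d → Ω) (y : Fin (n + 1) → Ω) (w : Fin e × Fin (n + 1) → Ω),
        F.map ((aeval (Sum.elim c (Sum.elim y w)) : R →ₐ[k] Ω) : R →+* Ω) =
          aeval (cv (crv14 y w) e) (fm c) := by
      intro c y w
      rw [← key14, map_fm]
      have h5 : (fun l i => ((aeval (Sum.elim c (Sum.elim y w)) : R →ₐ[k] Ω) : R →+* Ω) (crv14 yu wu l i)) =
          crv14 y w := by
        funext l i
        rw [crv_map14]
        congr 1
        · funext i
          exact aeval_X _ _
        · funext p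
          exact aeval_X _ _
      have h6 : (fun m => ((aeval (Sum.elim c (Sum.elim y w)) : R →ₐ[k] Ω) : R →+* Ω) (cu m)) = c := by
        funext m
        exact aeval_X _ _
      rw [h5, h6]
    have hV : Van x' (crv14 y' w') e := by
      unfold Van Vanp
      rw [← hF]
      ext j
      rw [Polynomial.coeff_map, Polynomial.coeff_zero]
      refine h3 (F.coeff j) fun x hx => ?_
      have h5 : F.map ((aeval (tpt x (a x 0) (fun p : Fin e × Fin (n + 1) => a x (p.1 + 1) p.2)) : R →ₐ[k] Ω) :
          R →+* Ω) = 0 := by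
        unfold tpt
        rw [hF]
        have h6 := (ha x hx).2.1
        unfold Van at h6
        exact (vanp_congr fun l hl i => crv_eq14 (a x) l hl i).2 h6
      have h6 := congrArg (fun p => Polynomial.coeff p j) h5
      simp only [Polynomial.coeff_map, Polynomial.coeff_zero] at h6
      exact h6
    have h5 := generic_bound hb hd hn (m := n + 1 - d) (by omega) h1 e (crv14 y' w') hy0 hV
    have h6 : (fun p : Fin e × Fin (n + 1) => crv14 y' w' (p.1 + 1) p.2) = w' := by
      funext p
      exact crv_succ14 _ _ _ _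
    rw [rga_crv14, h6, crv_zero14, ← Finset.union_assoc] at h5
    omega
  · push Not at hS
    obtain ⟨D, hD, hDS⟩ := hS
    refine ⟨D, hD, fun x hx a h0 hV => ?_⟩
    by_contra hcon
    exact hx (hDS x ⟨a, h0, hV, by omega⟩)

/-- existence of the big field -/
theorem exists_big (k : Type) [Field k] :
    ∃ (Ω : Type) (_ : Field Ω) (_ : Algebra k Ω), IsAlgClosed Ω ∧ Big k Ω := by
  classical
  refine ⟨AlgebraicClosure (FractionRing (MvPolynomial ℕ k)), inferInstance, inferInstance, inferInstance, ?_⟩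
  intro s
  by_contra hcon
  push Not at hcon
  let f : MvPolynomial ℕ k →ₐ[k] AlgebraicClosure (FractionRing (MvPolynomial ℕ k)) :=
    IsScalarTower.toAlgHom k (MvPolynomial ℕ k) _
  have hf : Function.Injective f := by
    have h1 : Function.Injective (algebraMap (MvPolynomial ℕ k) (FractionRing (MvPolynomial ℕ k))) :=
      IsFractionRing.injective _ _
    have h2 : Function.Injective (algebraMap (FractionRing (MvPolynomial ℕ k))
      (AlgebraicClosure (FractionRing (MvPolynomial ℕ k)))) := FaithfulSMul.algebraMap_injective _ _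
    have h3 : (f : MvPolynomial ℕ k → AlgebraicClosure (FractionRing (MvPolynomial ℕ k))) =
        (algebraMap (FractionRing (MvPolynomial ℕ k)) (AlgebraicClosure (FractionRing (MvPolynomial ℕ k)))) ∘
          (algebraMap (MvPolynomial ℕ k) (FractionRing (MvPolynomial ℕ k))) := by
      funext p
      exact IsScalarTower.algebraMap_apply _ _ _ p
    rw [h3]
    exact h2.comp h1
  have hX : AlgebraicIndependent k (fun i : ℕ => f (X i)) :=
    (MvPolynomial.algebraicIndependent_X ℕ k).map' hf
  let x : Fin (s.card + 1) → AlgebraicClosure (FractionRing (MvPolynomial ℕ k)) := fun i => f (X i)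
  have hx : AlgebraicIndependent k x := hX.comp (fun i : Fin (s.card + 1) => (i : ℕ)) Fin.val_injective
  have h1 : (AlgebraicIndependent.matroid k (AlgebraicClosure (FractionRing (MvPolynomial ℕ k)))).Indep
      ((rg x : Finset _) : Set _) := by
    rw [AlgebraicIndependent.matroid_indep_iff]
    have h2 : ((rg x : Finset _) : Set _) = Set.range x := by
      ext y; simp [rg]
    rw [h2]
    exact hx.coe_range
  have h3 := h1.eRk_eq_encard
  rw [← rk_coe, Set.encard_coe_eq_coe_finsetCard] at h3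
  have h4 : rk k (rg x) = (rg x).card := by exact_mod_cast h3
  have h5 : (rg x).card = s.card + 1 := by
    unfold rg
    rw [Finset.card_image_of_injective _ hx.injective, Finset.card_univ, Fintype.card_fin]
  have h6 : rk k (rg x) ≤ rk k s := rk_le_of_subset_cl k fun y _ => hcon y
  have h7 := rk_le_card k s
  omega

end Pool.Agent.Helper30.RY
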