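import Mathlib
import Pool.Agent.Helper30.RC.GenDim
import Pool.Agent.Helper30.RY.Gqb
import Pool.Agent.Helper30.RY.Dfi

/-!
# The dimension theorem: all fibres of the evaluation map have the expected dimension
-/

namespace Pool.Agent.Helper30.RY

open MvPolynomial

/-- a nonempty open condition on the coefficients gives a property of the general form -/
theorem forGeneral_of_open {k : Type} [Field k] [Infinite k] {n d : ℕ}
    {P : MvPolynomial (Fin (n + 1)) k → Prop} (D : MvPolynomial (Mon n d) k) (hD : D ≠ 0)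
    (h : ∀ x : Mon n d → k, eval x D ≠ 0 → P (fm x)) : RC.ForGeneral n d P := by
  classical
  have h1 : ∃ x : Mon n d → k, eval x D ≠ 0 := by
    by_contra hcon
    push Not at hcon
    exact hD (MvPolynomial.funext fun x => by rw [hcon x, map_zero])
  obtain ⟨x, hx⟩ := h1
  refine RC.forGeneral_of (fm_hom x) D ?_ ?_
  · have : (fun m : Mon n d => coeff m.1 (fm x)) = x := funext fun m => coeff_fm x m
    rw [this]
    exact hx
  · intro f hf hDf
    have := h _ hDf
    rwa [fm_coeff f hf] at this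

theorem thmDim (k : Type) [Field k] [IsAlgClosed k] (n d e : ℕ) (hd : 1 ≤ d) (hn : d + 2 ≤ n) :
    RC.ForGeneral (k := k) n d (fun f =>
      (∀ P ∈ (RC.curveIdeal e f).minimalPrimes,
        ringKrullDim (RC.CoeffRing k n e ⧸ P) = ((n + 1 - d) * e + n : ℕ)) ∧
      ∀ e' ≤ e, ∀ z : Fin (n + 1) → k, z ≠ 0 → eval z f = 0 →
        ringKrullDim (MvPolynomial (Fin (n + 1) × Fin e') k ⧸ fibIdeal e' z f) =
          ((n + 1 - d) * e' : ℕ)) := by
  classical
  obtain ⟨Ω, _, _, hΩ, hb⟩ := exists_big k
  have hinf : Infinite k := IsAlgClosed.instInfinite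
  choose D hD0 hD using fun e' : ℕ => general_bound (k := k) (Ω := Ω) hb hd hn e'
  refine forGeneral_of_open ((∏ e' ∈ Finset.range (e + 1), D e') * ∏ m : Mon n d, X m) ?_ ?_
  · refine mul_ne_zero (Finset.prod_ne_zero_iff.mpr fun e' _ => hD0 e')
      (Finset.prod_ne_zero_iff.mpr fun m _ => X_ne_zero m)
  · intro x hx
    rw [map_mul, map_prod, map_prod] at hx
    have h1 : ∀ e' ≤ e, eval x (D e') ≠ 0 := fun e' he' =>
      Finset.prod_ne_zero_iff.mp (left_ne_zero_of_mul hx) e' (Finset.mem_range.mpr (by omega))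
    have h2 := Finset.prod_ne_zero_iff.mp (right_ne_zero_of_mul hx)
    have hx0 : x ≠ 0 := by
      rintro rfl
      exact h2 (m0 n d) (Finset.mem_univ _) (by simp)
    have hm : (n + 1 - d) + d = n + 1 := by omega
    refine ⟨fun P hP => ?_, fun e' he' z hz h0 => ?_⟩
    · exact dim_curve hb hm x hx0 e (fun e' he' a h0 hV => hD e' x (h1 e' he') a h0 hV) P hP
    · exact dim_fibre hb hm x e' (fun a h0 hV => hD e' x (h1 e' he') a h0 hV) z hz h0

end Pool.Agent.Helper30.RY
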