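import Mathlib
import Pool.Agent.Helper30.RY.Td

/-!
# Trees of rational curves and their smoothings: definitions

A rooted tree has the vertices `0, ..., N` (`0` is the root), the parent of `v ≥ 1` is `par v < v`.  The
component `v` has an affine coordinate `x_v`; for `v ≥ 1` the point `x_v = ∞` is glued to the point
`x_u = p v` of the component `u = par v`.  The smoothing with parameters `τ v` is given by
`x_u = p v + τ v * x_v`.

`zw par τ p y v = (Z0, Z1, W)`: the coordinate `x_v`, seen from the component `y`, is `(Z0 + Z1 x_y) / W`.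
-/

namespace Pool.Agent.Helper30.RY

open Polynomial

section

variable {A : Type*} [CommRing A]

/-- the coordinate `x_v` seen from the component `y`: `x_v = (Z0 + Z1 * x_y) / W` -/
def zw (par : ℕ → ℕ) (τ p : ℕ → A) (y v : ℕ) : A × A × A :=
  if y = v then (0, 1, 1)
  else if y < v then
    if par v < v then
      ((zw par τ p y (par v)).1 - (zw par τ p y (par v)).2.2 * p v,
        (zw par τ p y (par v)).2.1, (zw par τ p y (par v)).2.2 * τ v)
    else (0, 0, 0)
  else
    if par y < y then
      ((zw par τ p (par y) v).1 + (zw par τ p (par y) v).2.1 * p y,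
        (zw par τ p (par y) v).2.1 * τ y, (zw par τ p (par y) v).2.2)
    else (0, 0, 0)
termination_by y + v

/-- the polynomial `Z0 + Z1 X` -/
noncomputable def zp (par : ℕ → ℕ) (τ p : ℕ → A) (y v : ℕ) : A[X] :=
  C (zw par τ p y v).1 + C (zw par τ p y v).2.1 * X

/-- the element `W` -/
def ww (par : ℕ → ℕ) (τ p : ℕ → A) (y v : ℕ) : A := (zw par τ p y v).2.2

/-- the homogenisation (of degree `ε`) of the polynomial `G`, evaluated at `(Z, W)` -/
noncomputable def hev (G : A[X]) (ε : ℕ) (Z : A[X]) (W : A) : A[X] :=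
  ∑ j ∈ Finset.range (ε + 1), C (G.coeff j * W ^ (ε - j)) * Z ^ j

/-- the smoothed curve seen from the component `y`; the component `v` has the coordinates
`c i * F v i`, with `F v i` monic of degree `deg v` -/
noncomputable def vw {n : ℕ} (par : ℕ → ℕ) (deg : ℕ → ℕ) (N : ℕ) (τ p : ℕ → A)
    (c : Fin (n + 1) → A) (F : ℕ → Fin (n + 1) → A[X]) (y : ℕ) (i : Fin (n + 1)) : A[X] :=
  C (c i) * ∏ v ∈ Finset.range (N + 1), hev (F v i) (deg v) (zp par τ p y v) (ww par τ p y v)

end

/-- `v` is `y` or a descendant of `y` -/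
def desc (par : ℕ → ℕ) (y v : ℕ) : Prop :=
  v = y ∨ (y < v ∧ ∃ _h : par v < v, desc par y (par v))
termination_by v

section

variable {Ω : Type*} [Field Ω] [DecidableEq Ω]

/-- all parameters of a smoothed tree -/
noncomputable def prm {n : ℕ} (deg : ℕ → ℕ) (N : ℕ) (τ p : ℕ → Ω) (c : Fin (n + 1) → Ω)
    (F : ℕ → Fin (n + 1) → Polynomial Ω) : Finset Ω :=
  (Finset.Icc 1 N).image τ ∪ (Finset.Icc 1 N).image p ∪ rg c ∪
    (Finset.range (N + 1)).biUnion fun v => Finset.univ.biUnion fun i =>
      (Finset.range (deg v)).image (F v i).coeff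

/-- the coefficients of a tuple of polynomials of degree at most `e` -/
noncomputable def cfs {n : ℕ} (e : ℕ) (G : Fin (n + 1) → Polynomial Ω) : Finset Ω :=
  Finset.univ.biUnion fun i => (Finset.range (e + 1)).image (G i).coeff

end

end Pool.Agent.Helper30.RY
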