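import Mathlib
import Pool.Agent.Helper30.RY.Trd

/-!
# Block RY-TRB: the recursion for the relative coordinates, homogenised evaluation

* `zp_self`, ..., `ww_gt`: unfold `zw` once (`rw [zw]`).
* `hev_mul`: the product of the homogenisations is the homogenisation of the product: compare coefficients:
  `hev G ε Z W = ∑ G_j W^(ε-j) Z^j`; use `Polynomial.coeff_mul` and `Finset.Nat.antidiagonal` sums, or prove it
  for monomials and extend bilinearly (`G = ∑ G_j X^j`, `Polynomial.induction_on`-like, with the degree bounds).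
* `hev_smul`, `hev_one`, `hev_zero` (`0^(ε-j) = 0` for `j < ε`), `hev_comp`, `hev_map`: directly from the
  definition.
* `hev_hev`: it is enough to treat monomials `G = X^j`, `j ≤ ε`: `hev (X^j) ε Z W = C (W^(ε-j)) Z^j`, and
  `hev (C (τ^(ε-j)) (X - C p)^j) ε Z W = C (τ^(ε-j)) * hev (X - C p) 1 Z W ^ j * C (W^(ε-j))`
  by `hev_mul` (`hev (X - C p) 1 Z W = Z - C (p W)`, `hev 1 1 Z W = C W`); `hev` is additive in `G`.
* `merge_monic`: the leading term of `hev G ε (X - C p) τ` is `(X - C p)^ε` (`A` nontrivial).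
-/

namespace Pool.Agent.Helper30.RY

open Polynomial

variable {A B : Type*} [CommRing A] [CommRing B]

section

variable {par : ℕ → ℕ} {τ p : ℕ → A} {y v : ℕ}

private theorem zw_self26 : zw par τ p y y = (0, 1, 1) := by
  rw [zw, if_pos rfl]

private theorem zw_lt26 (h : y < v) (hp : par v < v) :
    zw par τ p y v = ((zw par τ p y (par v)).1 - (zw par τ p y (par v)).2.2 * p v,
        (zw par τ p y (par v)).2.1, (zw par τ p y (par v)).2.2 * τ v) := by
  rw [zw, if_neg h.ne, if_pos h, if_pos hp]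

private theorem zw_lt26' (h : y < v) (hp : ¬par v < v) : zw par τ p y v = (0, 0, 0) := by
  rw [zw, if_neg h.ne, if_pos h, if_neg hp]

private theorem zw_gt26 (h : v < y) (hp : par y < y) :
    zw par τ p y v = ((zw par τ p (par y) v).1 + (zw par τ p (par y) v).2.1 * p y,
        (zw par τ p (par y) v).2.1 * τ y, (zw par τ p (par y) v).2.2) := by
  rw [zw, if_neg h.ne', if_neg (not_lt.2 h.le), if_pos hp]

private theorem zw_gt26' (h : v < y) (hp : ¬par y < y) : zw par τ p y v = (0, 0, 0) := by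
  rw [zw, if_neg h.ne', if_neg (not_lt.2 h.le), if_neg hp]

theorem zp_self : zp par τ p y y = X := by
  rw [zp, zw_self26]
  simp

theorem ww_self : ww par τ p y y = 1 := by
  rw [ww, zw_self26]

theorem zp_lt (h : y < v) (hp : par v < v) :
    zp par τ p y v = zp par τ p y (par v) - C (ww par τ p y (par v) * p v) := by
  rw [zp, zw_lt26 h hp, zp, ww, C_sub]
  ring

theorem ww_lt (h : y < v) (hp : par v < v) :
    ww par τ p y v = ww par τ p y (par v) * τ v := by
  rw [ww, zw_lt26 h hp, ww]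

theorem zp_gt (h : v < y) (hp : par y < y) :
    zp par τ p y v = (zp par τ p (par y) v).comp (C (p y) + C (τ y) * X) := by
  rw [zp, zw_gt26 h hp, zp, add_comp, mul_comp, C_comp, C_comp, X_comp, C_add, C_mul, C_mul]
  ring

theorem ww_gt (h : v < y) (hp : par y < y) : ww par τ p y v = ww par τ p (par y) v := by
  rw [ww, zw_gt26 h hp, ww]

/-- the relative coordinates of `y` and `v` only depend on the tree up to `max y v` -/
theorem zw_congr {τ' p' : ℕ → A} {N : ℕ} (hpar : ∀ v, 1 ≤ v → v ≤ N → par v < v)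
    (hτ : ∀ v, 1 ≤ v → v ≤ N → τ v = τ' v) (hp : ∀ v, 1 ≤ v → v ≤ N → p v = p' v) (hy : y ≤ N)
    (hv : v ≤ N) : zw par τ p y v = zw par τ' p' y v := by
  induction hn : y + v using Nat.strong_induction_on generalizing y v with
  | _ n ih =>
    rcases lt_trichotomy y v with h | h | h
    · have h1 : 1 ≤ v := by omega
      have h2 := hpar v h1 hv
      rw [zw_lt26 h h2, zw_lt26 h h2, ih (y + par v) (by omega) hy (by omega) rfl, hp v h1 hv,
        hτ v h1 hv]
    · subst h
      rw [zw_self26, zw_self26]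
    · have h1 : 1 ≤ y := by omega
      have h2 := hpar y h1 hy
      rw [zw_gt26 h h2, zw_gt26 h h2, ih (par y + v) (by omega) (by omega) hv rfl, hp y h1 hy,
        hτ y h1 hy]

theorem zw_map (φ : A →+* B) (y v : ℕ) :
    zw par (fun s => φ (τ s)) (fun s => φ (p s)) y v =
      (φ (zw par τ p y v).1, φ (zw par τ p y v).2.1, φ (zw par τ p y v).2.2) := by
  induction hn : y + v using Nat.strong_induction_on generalizing y v with
  | _ n ih =>
    rcases lt_trichotomy y v with h | h | h
    · by_cases h2 : par v < v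
      · rw [zw_lt26 h h2, zw_lt26 h h2, ih (y + par v) (by omega) y (par v) rfl]
        simp only [map_sub, map_mul]
      · rw [zw_lt26' h h2, zw_lt26' h h2]
        simp only [map_zero]
    · subst h
      rw [zw_self26, zw_self26]
      simp only [map_zero, map_one]
    · by_cases h2 : par y < y
      · rw [zw_gt26 h h2, zw_gt26 h h2, ih (par y + v) (by omega) (par y) v rfl]
        simp only [map_add, map_mul]
      · rw [zw_gt26' h h2, zw_gt26' h h2]
        simp only [map_zero]

end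

theorem hev_add (G H : A[X]) (ε : ℕ) (Z : A[X]) (W : A) :
    hev (G + H) ε Z W = hev G ε Z W + hev H ε Z W := by
  rw [hev, hev, hev, ← Finset.sum_add_distrib]
  refine Finset.sum_congr rfl fun j _ => ?_
  rw [coeff_add, add_mul, C_add, add_mul]

private noncomputable def hl26 (ε : ℕ) (Z : A[X]) (W : A) : A[X] →+ A[X] where
  toFun G := hev G ε Z W
  map_zero' := by simp [hev]
  map_add' G H := hev_add G H ε Z W

private theorem hev_sum26 {ι : Type*} (s : Finset ι) (f : ι → A[X]) (ε : ℕ) (Z : A[X]) (W : A) :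
    hev (∑ i ∈ s, f i) ε Z W = ∑ i ∈ s, hev (f i) ε Z W :=
  map_sum (hl26 ε Z W) f s

private theorem hev_mono26 (a : A) {j ε : ℕ} (h : j ≤ ε) (Z : A[X]) (W : A) :
    hev (C a * X ^ j) ε Z W = C (a * W ^ (ε - j)) * Z ^ j := by
  rw [hev, Finset.sum_eq_single j]
  · rw [coeff_C_mul_X_pow, if_pos rfl]
  · intro k _ hk
    rw [coeff_C_mul_X_pow, if_neg hk, zero_mul, C_0, zero_mul]
  · intro h1
    exact absurd (Finset.mem_range.2 (by omega)) h1

theorem hev_mul {G H : A[X]} {ε δ : ℕ} (hG : G.natDegree ≤ ε) (hH : H.natDegree ≤ δ) (Z : A[X])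
    (W : A) : hev (G * H) (ε + δ) Z W = hev G ε Z W * hev H δ Z W := by
  have eG : G = ∑ j ∈ Finset.range (ε + 1), C (G.coeff j) * X ^ j :=
    G.as_sum_range_C_mul_X_pow' (by omega)
  have eH : H = ∑ j ∈ Finset.range (δ + 1), C (H.coeff j) * X ^ j :=
    H.as_sum_range_C_mul_X_pow' (by omega)
  have e1 : G * H = ∑ j ∈ Finset.range (ε + 1), ∑ k ∈ Finset.range (δ + 1),
      C (G.coeff j * H.coeff k) * X ^ (j + k) := by
    conv_lhs => rw [eG, eH]
    rw [Finset.sum_mul_sum]
    refine Finset.sum_congr rfl fun j _ => Finset.sum_congr rfl fun k _ => ?_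
    rw [C_mul, pow_add]
    ring
  rw [e1, hev_sum26, hev, hev, Finset.sum_mul_sum]
  refine Finset.sum_congr rfl fun j hj => ?_
  rw [hev_sum26]
  refine Finset.sum_congr rfl fun k hk => ?_
  rw [Finset.mem_range] at hj hk
  rw [hev_mono26 _ (by omega), show ε + δ - (j + k) = (ε - j) + (δ - k) by omega, pow_add, pow_add]
  simp only [C_mul, C_pow]
  ring

theorem hev_smul (G : A[X]) (ε : ℕ) (t : A) (Z : A[X]) (W : A) :
    hev G ε (C t * Z) (t * W) = C (t ^ ε) * hev G ε Z W := by
  rw [hev, hev, Finset.mul_sum]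
  refine Finset.sum_congr rfl fun j hj => ?_
  rw [Finset.mem_range] at hj
  obtain ⟨k, rfl⟩ : ∃ k, ε = j + k := ⟨ε - j, by omega⟩
  rw [Nat.add_sub_cancel_left, mul_pow, mul_pow, pow_add]
  simp only [C_mul, C_pow]
  ring

theorem hev_one {G : A[X]} {ε : ℕ} (hG : G.natDegree ≤ ε) : hev G ε X 1 = G := by
  have eG : G = ∑ j ∈ Finset.range (ε + 1), C (G.coeff j) * X ^ j :=
    G.as_sum_range_C_mul_X_pow' (by omega)
  conv_rhs => rw [eG]
  rw [hev]
  refine Finset.sum_congr rfl fun j _ => ?_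
  rw [one_pow, mul_one]

theorem hev_zero {G : A[X]} {ε : ℕ} (hG : G.Monic) (hε : G.natDegree = ε) (Z : A[X]) :
    hev G ε Z 0 = Z ^ ε := by
  rw [hev, Finset.sum_range_succ, Finset.sum_eq_zero, zero_add, Nat.sub_self, pow_zero, mul_one,
    ← hε, hG.coeff_natDegree, C_1, one_mul]
  intro j hj
  rw [Finset.mem_range] at hj
  rw [zero_pow (by omega), mul_zero, C_0, zero_mul]

theorem hev_comp (G : A[X]) (ε : ℕ) (Z q : A[X]) (W : A) :
    (hev G ε Z W).comp q = hev G ε (Z.comp q) W := by
  rw [hev, hev, Polynomial.sum_comp]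
  refine Finset.sum_congr rfl fun j _ => ?_
  rw [mul_comp, C_comp, pow_comp]

theorem hev_map (φ : A →+* B) (G : A[X]) (ε : ℕ) (Z : A[X]) (W : A) :
    (hev G ε Z W).map φ = hev (G.map φ) ε (Z.map φ) (φ W) := by
  rw [hev, hev, Polynomial.map_sum]
  refine Finset.sum_congr rfl fun j _ => ?_
  rw [Polynomial.map_mul, Polynomial.map_C, Polynomial.map_pow, coeff_map, map_mul, map_pow]

private theorem hev_lin26 (p : A) (Z : A[X]) (W : A) : hev (X - C p) 1 Z W = Z - C (W * p) := by
  rw [hev, Finset.sum_range_succ, Finset.sum_range_one, coeff_sub, coeff_sub, coeff_X_zero,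
    coeff_X_one, coeff_C_zero, coeff_C_of_ne_zero one_ne_zero]
  simp only [Nat.sub_zero, pow_one, pow_zero, Nat.sub_self, mul_one, sub_zero, zero_sub, neg_mul,
    C_neg, C_mul, C_1, one_mul]
  ring

private theorem natDegree_pow26 (p : A) (j : ℕ) : ((X - C p) ^ j).natDegree ≤ j := by
  refine natDegree_pow_le.trans ?_
  calc j * (X - C p).natDegree ≤ j * 1 := Nat.mul_le_mul_left j (natDegree_X_sub_C_le p)
    _ = j := mul_one j

private theorem hev_pow26 (p : A) (Z : A[X]) (W : A) (j : ℕ) :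
    hev ((X - C p) ^ j) j Z W = (Z - C (W * p)) ^ j := by
  induction j with
  | zero =>
    rw [hev, Finset.sum_range_one]
    simp
  | succ j ih =>
    rw [pow_succ, hev_mul (natDegree_pow26 p j) (natDegree_X_sub_C_le p), ih, hev_lin26, pow_succ]

private theorem hev_term26 (a p : A) {j ε : ℕ} (h : j ≤ ε) (Z : A[X]) (W : A) :
    hev (C a * (X - C p) ^ j) ε Z W = C (a * W ^ (ε - j)) * (Z - C (W * p)) ^ j := by
  have h1 : hev (C a) (ε - j) Z W = C (a * W ^ (ε - j)) := by
    have h2 := hev_mono26 a (Nat.zero_le (ε - j)) Z W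
    rwa [pow_zero, mul_one, Nat.sub_zero, pow_zero, mul_one] at h2
  have h3 : ε = (ε - j) + j := by omega
  calc hev (C a * (X - C p) ^ j) ε Z W = hev (C a * (X - C p) ^ j) ((ε - j) + j) Z W := by
        rw [← h3]
    _ = C (a * W ^ (ε - j)) * (Z - C (W * p)) ^ j := by
        rw [hev_mul (by rw [natDegree_C]; omega) (natDegree_pow26 p j), h1, hev_pow26]

theorem hev_hev {G : A[X]} {ε : ℕ} (hG : G.natDegree ≤ ε) (p t : A) (Z : A[X]) (W : A) :
    hev (hev G ε (X - C p) t) ε Z W = hev G ε (Z - C (W * p)) (W * t) := by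
  have _ := hG
  have e1 : hev G ε (X - C p) t =
      ∑ j ∈ Finset.range (ε + 1), C (G.coeff j * t ^ (ε - j)) * (X - C p) ^ j := rfl
  rw [e1, hev_sum26, hev]
  refine Finset.sum_congr rfl fun j hj => ?_
  rw [Finset.mem_range] at hj
  rw [hev_term26 _ _ (by omega), mul_pow, mul_assoc, mul_comm (t ^ (ε - j))]

theorem merge_monic [Nontrivial A] {G : A[X]} {ε : ℕ} (hG : G.Monic) (hε : G.natDegree = ε)
    (p t : A) : (hev G ε (X - C p) t).Monic ∧ (hev G ε (X - C p) t).natDegree = ε := by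
  have e1 : hev G ε (X - C p) t =
      (∑ j ∈ Finset.range ε, C (G.coeff j * t ^ (ε - j)) * (X - C p) ^ j) + (X - C p) ^ ε := by
    rw [hev, Finset.sum_range_succ, Nat.sub_self, pow_zero, mul_one]
    congr 1
    conv_lhs => rw [← hε, hG.coeff_natDegree, C_1, one_mul, hε]
  have hm : ((X - C p) ^ ε).Monic := (monic_X_sub_C p).pow ε
  have hn : ((X - C p) ^ ε).natDegree = ε := by
    rw [(monic_X_sub_C p).natDegree_pow, natDegree_X_sub_C, mul_one]
  have hd : (∑ j ∈ Finset.range ε, C (G.coeff j * t ^ (ε - j)) * (X - C p) ^ j).degree <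
      ((X - C p) ^ ε).degree := by
    rw [degree_eq_natDegree hm.ne_zero, hn, ← mem_degreeLT]
    refine Submodule.sum_mem _ fun j hj => ?_
    rw [Finset.mem_range] at hj
    rw [mem_degreeLT]
    refine lt_of_le_of_lt degree_le_natDegree ?_
    have h1 : (C (G.coeff j * t ^ (ε - j)) * (X - C p) ^ j).natDegree ≤ j :=
      (natDegree_C_mul_le _ _).trans (natDegree_pow26 p j)
    exact_mod_cast lt_of_le_of_lt h1 hj
  rw [e1]
  exact ⟨hm.add_of_right hd, by rw [natDegree_add_eq_right_of_degree_lt hd, hn]⟩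

private theorem zp_map26 (φ : A →+* B) (par : ℕ → ℕ) (τ p : ℕ → A) (y v : ℕ) :
    (zp par τ p y v).map φ = zp par (fun s => φ (τ s)) (fun s => φ (p s)) y v := by
  rw [zp, zp, zw_map, Polynomial.map_add, Polynomial.map_mul, Polynomial.map_C, Polynomial.map_C,
    Polynomial.map_X]

private theorem ww_map26 (φ : A →+* B) (par : ℕ → ℕ) (τ p : ℕ → A) (y v : ℕ) :
    φ (ww par τ p y v) = ww par (fun s => φ (τ s)) (fun s => φ (p s)) y v := by
  rw [ww, ww, zw_map]

theorem vw_map (φ : A →+* B) {n : ℕ} (par deg : ℕ → ℕ) (N : ℕ) (τ p : ℕ → A)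
    (c : Fin (n + 1) → A) (F : ℕ → Fin (n + 1) → A[X]) (y : ℕ) (i : Fin (n + 1)) :
    (vw par deg N τ p c F y i).map φ = vw par deg N (fun s => φ (τ s)) (fun s => φ (p s))
      (fun i => φ (c i)) (fun v i => (F v i).map φ) y i := by
  rw [vw, vw, Polynomial.map_mul, Polynomial.map_C, Polynomial.map_prod]
  congr 1
  refine Finset.prod_congr rfl fun v _ => ?_
  rw [hev_map, zp_map26, ww_map26]

end Pool.Agent.Helper30.RY
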