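import Mathlib
import Pool.Agent.Helper30.RY.Trb

/-!
# Block RY-TRV: the views of a smoothed tree

`hpar : ∀ v, 1 ≤ v → v ≤ N → par v < v`.
* `desc_iff_lt` etc.: unfold `desc` once.
* `zp_step`, `ww_step`: let `u = par y`.  By strong induction on `v ≤ N`:
  `v < y`: `zp_gt`, `ww_gt`, and `¬ desc par y v`.  `v = y`: `zp u y = X - C (p y)`, `ww u y = τ y` (`zp_lt`, `zp_self`, ...)
  so `(zp u y).comp (C (p y) + C (τ y) X) = C (τ y) X`, and `desc par y y`.  `v > y`: `zp_lt`, `ww_lt` on both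
  sides (`u < v`) and the induction hypothesis for `par v` (`desc par y v ↔ desc par y (par v)`).
* `vw_step`: `hev_comp`, `zp_step`, `ww_step`, `hev_smul` for the factors with `desc par y v`.
* `vw_merge`: `N = M + 1`, `u = par (M + 1) ≤ M`.  For `y ≤ M` the factors `v = u` and `v = M + 1` of the left side
  combine: `hev_mul`, `hev_hev`, `zp_lt`, `ww_lt` give
  `hev (F u * hev (F N) (deg N) (X - C (p N)) (τ N)) (deg u + deg N) (zp y u) (ww y u)
   = hev (F u) .. (zp y u) (ww y u) * hev (F N) .. (zp y N) (ww y N)`.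
* `vw_break`: `hev_zero` since `ww y (M+1) = ww y u * τ (M+1) = 0`.
* `vw_leaf`: for `v ≤ M`: `zp (M+1) v = (zp u v).comp (C (p (M+1)) + C 0 X) = C ((zp u v).eval (p (M+1)))`, `ww_gt`, and the
  factor `v = M + 1` is `F (M+1) i` (`hev_one`).
* `vw_natDegree`: every factor `hev (F v i) (deg v) (zp ..) (ww ..)` has degree at most `deg v`.
-/

namespace Pool.Agent.Helper30.RY

open Polynomial

/-- the total degree of the subtree with root `y` -/
noncomputable def sbd (par deg : ℕ → ℕ) (N y : ℕ) : ℕ :=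
  open Classical in ∑ v ∈ (Finset.range (N + 1)).filter (fun v => desc par y v), deg v

section

variable {par : ℕ → ℕ} {y v : ℕ}

theorem desc_self (par : ℕ → ℕ) (y : ℕ) : desc par y y := by
  rw [desc]
  exact Or.inl rfl

theorem desc_le (h : desc par y v) : y ≤ v := by
  rw [desc] at h
  rcases h with h | ⟨h, _⟩
  · exact h.ge
  · exact h.le

theorem desc_iff (h : y < v) (hp : par v < v) : desc par y v ↔ desc par y (par v) := by
  rw [desc]
  constructor
  · rintro (h1 | ⟨_, _, h1⟩)
    · exact absurd h1 h.ne'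
    · exact h1
  · intro h1
    exact Or.inr ⟨h, hp, h1⟩

end

variable {A : Type*} [CommRing A] {n : ℕ} {par deg : ℕ → ℕ} {N : ℕ} {τ p : ℕ → A}
  {c : Fin (n + 1) → A} {F : ℕ → Fin (n + 1) → A[X]}

open Classical in
private theorem h99_step (hpar : ∀ v, 1 ≤ v → v ≤ N → par v < v) {y : ℕ} (hy : 1 ≤ y)
    (hyN : y ≤ N) (v : ℕ) (hv : v ≤ N) :
    (zp par τ p (par y) v).comp (C (p y) + C (τ y) * X) =
      C (if desc par y v then τ y else 1) * zp par τ p y v ∧
    ww par τ p (par y) v = (if desc par y v then τ y else 1) * ww par τ p y v := by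
  have hpy := hpar y hy hyN
  induction v using Nat.strong_induction_on with
  | _ v ih =>
    rcases lt_trichotomy y v with h | h | h
    · have hpv := hpar v (by omega) hv
      obtain ⟨i1, i2⟩ := ih (par v) hpv (by omega)
      have hd := desc_iff h hpv
      have hif : (if desc par y v then τ y else 1) = if desc par y (par v) then τ y else 1 := by
        simp only [hd]
      rw [hif, zp_lt h hpv, ww_lt h hpv, zp_lt (hpy.trans h) hpv, ww_lt (hpy.trans h) hpv,
        sub_comp, C_comp, i1, i2]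
      refine ⟨?_, by ring⟩
      rw [mul_assoc, C_mul]
      ring
    · subst h
      rw [if_pos (desc_self par y), zp_lt hpy hpy, ww_lt hpy hpy, zp_self, ww_self, zp_self,
        ww_self, one_mul, one_mul, mul_one, sub_comp, C_comp, X_comp]
      exact ⟨by ring, rfl⟩
    · have hd : ¬ desc par y v := fun h1 => absurd (desc_le h1) (by omega)
      rw [if_neg hd, zp_gt h hpy, ww_gt h hpy, C_1, one_mul, one_mul]
      exact ⟨rfl, rfl⟩

open Classical in
theorem zp_step (hpar : ∀ v, 1 ≤ v → v ≤ N → par v < v) {y v : ℕ} (hy : 1 ≤ y) (hyN : y ≤ N)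
    (hv : v ≤ N) : (zp par τ p (par y) v).comp (C (p y) + C (τ y) * X) =
      C (if desc par y v then τ y else 1) * zp par τ p y v := by
  exact (h99_step hpar hy hyN v hv).1

open Classical in
theorem ww_step (hpar : ∀ v, 1 ≤ v → v ≤ N → par v < v) {y v : ℕ} (hy : 1 ≤ y) (hyN : y ≤ N)
    (hv : v ≤ N) : ww par τ p (par y) v = (if desc par y v then τ y else 1) * ww par τ p y v := by
  exact (h99_step hpar hy hyN v hv).2

theorem vw_step (hpar : ∀ v, 1 ≤ v → v ≤ N → par v < v) {y : ℕ} (hy : 1 ≤ y) (hyN : y ≤ N)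
    (i : Fin (n + 1)) :
    (vw par deg N τ p c F (par y) i).comp (C (p y) + C (τ y) * X) =
      C (τ y ^ sbd par deg N y) * vw par deg N τ p c F y i := by
  classical
  rw [vw, vw, mul_comp, C_comp, Polynomial.prod_comp, sbd, ← Finset.prod_pow_eq_pow_sum,
    Finset.prod_filter, map_prod C]
  rw [mul_left_comm, ← Finset.prod_mul_distrib]
  congr 1
  refine Finset.prod_congr rfl fun v hv => ?_
  rw [Finset.mem_range] at hv
  rw [hev_comp, zp_step hpar hy hyN (by omega), ww_step hpar hy hyN (by omega), hev_smul]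
  congr 2
  by_cases h : desc par y v
  · rw [if_pos h, if_pos h]
  · rw [if_neg h, if_neg h, one_pow]

/-- the degrees after merging the last vertex into its parent -/
def mdeg (par deg : ℕ → ℕ) (M : ℕ) : ℕ → ℕ :=
  Function.update deg (par (M + 1)) (deg (par (M + 1)) + deg (M + 1))

/-- the polynomials after merging the last vertex into its parent -/
noncomputable def mF (par deg : ℕ → ℕ) (M : ℕ) (τ p : ℕ → A) (F : ℕ → Fin (n + 1) → A[X]) :
    ℕ → Fin (n + 1) → A[X] :=
  Function.update F (par (M + 1)) fun i =>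
    F (par (M + 1)) i * hev (F (M + 1) i) (deg (M + 1)) (X - C (p (M + 1))) (τ (M + 1))

private theorem h99_deg1 (par : ℕ → ℕ) (τ p : ℕ → A) (y v : ℕ) :
    (zp par τ p y v).natDegree ≤ 1 := by
  rw [zp, add_comm]
  exact natDegree_linear_le

private theorem h99_hevdeg (G : A[X]) (ε : ℕ) {Z : A[X]} (hZ : Z.natDegree ≤ 1) (W : A) :
    (hev G ε Z W).natDegree ≤ ε := by
  rw [hev]
  refine natDegree_sum_le_of_forall_le _ _ fun j hj => ?_
  rw [Finset.mem_range] at hj
  refine (natDegree_C_mul_le _ _).trans (natDegree_pow_le.trans ?_)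
  calc j * Z.natDegree ≤ j * 1 := Nat.mul_le_mul_left j hZ
    _ ≤ ε := by omega

theorem vw_merge {M : ℕ} (hpar : ∀ v, 1 ≤ v → v ≤ M + 1 → par v < v)
    (hF : ∀ v ≤ M + 1, ∀ i, (F v i).natDegree ≤ deg v) {y : ℕ} (hy : y ≤ M) (i : Fin (n + 1)) :
    vw par deg (M + 1) τ p c F y i =
      vw par (mdeg par deg M) M τ p c (mF par deg M τ p F) y i := by
  have hu := hpar (M + 1) (by omega) le_rfl
  rw [vw, vw, Finset.prod_range_succ _ (M + 1)]
  congr 1
  have hm : par (M + 1) ∈ Finset.range (M + 1) := Finset.mem_range.2 hu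
  rw [← Finset.mul_prod_erase _ _ hm, ← Finset.mul_prod_erase _ _ hm]
  have e1 : ∀ v ∈ (Finset.range (M + 1)).erase (par (M + 1)),
      hev (mF par deg M τ p F v i) (mdeg par deg M v) (zp par τ p y v) (ww par τ p y v) =
        hev (F v i) (deg v) (zp par τ p y v) (ww par τ p y v) := by
    intro v hv
    rw [Finset.mem_erase] at hv
    rw [mF, mdeg, Function.update_of_ne hv.1, Function.update_of_ne hv.1]
  rw [Finset.prod_congr rfl e1, mF, mdeg, Function.update_self, Function.update_self,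
    hev_mul (hF _ hu.le i) (h99_hevdeg _ _ (natDegree_X_sub_C_le _) _),
    hev_hev (hF _ le_rfl i), zp_lt (Nat.lt_succ_of_le hy) hu, ww_lt (Nat.lt_succ_of_le hy) hu]
  ring

theorem vw_break {M : ℕ} (hpar : ∀ v, 1 ≤ v → v ≤ M + 1 → par v < v) (hτ : τ (M + 1) = 0)
    (hF : ∀ i, (F (M + 1) i).Monic ∧ (F (M + 1) i).natDegree = deg (M + 1)) {y : ℕ}
    (hy : y ≤ M) (i : Fin (n + 1)) :
    vw par deg (M + 1) τ p c F y i =
      vw par deg M τ p c F y i * zp par τ p y (M + 1) ^ deg (M + 1) := by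
  have hu := hpar (M + 1) (by omega) le_rfl
  rw [vw, vw, Finset.prod_range_succ _ (M + 1), ww_lt (Nat.lt_succ_of_le hy) hu, hτ, mul_zero,
    hev_zero (hF i).1 (hF i).2, mul_assoc]

theorem vw_leaf {M : ℕ} (hpar : ∀ v, 1 ≤ v → v ≤ M + 1 → par v < v) (hτ : τ (M + 1) = 0)
    (hF : ∀ i, (F (M + 1) i).natDegree ≤ deg (M + 1)) (i : Fin (n + 1)) :
    vw par deg (M + 1) τ p c F (M + 1) i =
      C ((vw par deg M τ p c F (par (M + 1)) i).eval (p (M + 1))) * F (M + 1) i := by
  have hu := hpar (M + 1) (by omega) le_rfl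
  rw [vw, vw, Finset.prod_range_succ _ (M + 1), zp_self, ww_self, hev_one (hF i), ← mul_assoc]
  congr 1
  rw [← comp_C, mul_comp, C_comp, Polynomial.prod_comp]
  congr 1
  refine Finset.prod_congr rfl fun v hv => ?_
  rw [Finset.mem_range] at hv
  rw [hev_comp, zp_gt hv hu, ww_gt hv hu, hτ, C_0, zero_mul, add_zero]

theorem vw_natDegree (y : ℕ) (i : Fin (n + 1)) :
    (vw par deg N τ p c F y i).natDegree ≤ ∑ v ∈ Finset.range (N + 1), deg v := by
  rw [vw]
  refine (natDegree_C_mul_le _ _).trans ((natDegree_prod_le _ _).trans ?_)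
  exact Finset.sum_le_sum fun v _ => h99_hevdeg _ _ (h99_deg1 par τ p y v) _

end Pool.Agent.Helper30.RY
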