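import Mathlib
import Pool.Agent.Helper30.RY.Trv
import Pool.Agent.Helper30.RY.Cvc
import Pool.Agent.Helper30.RY.Gdf

/-!
# Block RY-TRM: the dimension of the space of smoothed trees on a hypersurface

`f = fm (bc Ω x)`; `hQ` is the bound for curves.  The parameters are those of `vw`; `S v` is a finite set of
evaluation points on the component `v`, of cardinality `d * deg v` (`+ 1` for the root).

* `factor_mem_cl`: all roots of `G` are roots of `H`, so algebraic over the coefficients of `H`; the coefficients of the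
  monic polynomial `G` are polynomials in its roots (`Ω` algebraically closed: `G` splits).
* `poly_zero`: for a form `f` of degree `d` and a tuple `P` of polynomials of degree at most `ε`, `aeval P f` has degree
  at most `d ε`; its coefficient at `d ε` is `eval (coefficients of P at ε) f`.  If it has more zeros than its
  degree it is zero.
* `curve_rank`: let `P` be a tuple of polynomials of degree `≤ ε ≤ e` with `aeval P f = 0` and `κ i = (P i).coeff ε`,
  `κ ≠ 0`.  Then `rk (S ∪ cfs ε P) ≤ rk (S ∪ rg κ) + m ε` for every `S`: the curve `a l i = (P i).coeff (ε - l)`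
  is on the hypersurface (`vanp_rev`), `a 0 = κ`; `hQ` and `rk_submod`.

`tree_main` by induction on `N`.
* `N = 0`.  `vw 0 i = C (c i) * F 0 i` (`zp_self`, `hev_one`), a tuple of polynomials of degree `≤ deg 0` with top
  coefficients `c`.  `aeval (vw 0) f` has `d deg 0 + 1` zeros, so it is zero.  `curve_rank` with `S = ∅` and
  `rk (rg c) ≤ n` (`c ≠ 0` is a zero of `f`: `zero_le` with `S` = coefficients of `f` in `cl K ∅`).
  `prm` and `cfs` generate the same field (`c i ≠ 0`).
* `N = M + 1`, `u = par N`, `τ N ≠ 0`.  Apply the induction hypothesis to the tree with `M` and `deg' = mdeg par deg M`,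
  `F' = mF par deg M τ p F`, `S' = S` except `S' u = S u ∪ (S N).image (fun t => p N + τ N * t)`.
  `vw_merge` for `y ≤ M`.  `merge_monic`.  For `t' ∈ S N`: `(vw u i).eval (p N + τ N t') = τ N ^ sbd N * (vw N i).eval t'`
  (`vw_step`), so `f` vanishes (homogeneity).  `hD'`: for `y < N`:
  `(zp y u).eval t - ww y u (p N + τ N t') = (zp y N).eval t - ww y N t'` (`zp_lt`, `ww_lt`);
  `(zp u v).eval (p N + τ N t') - ww u v t = (zp N v).eval t' - ww N v t` for `v ≤ M` (`zp_gt`, `ww_gt`); for two points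
  of `S N`: `τ N (t - t')`.  The same formulas show that the union is disjoint and the map injective, so the
  cardinalities are right.  `hκ'`: for `v = u` use `hev_mul`, `hev_hev` and `desc_iff` (`N > y`).
  (1) for `y ≤ M` from `vw_merge`; for `y = N`: `aeval (vw u) f = 0` composed with `p N + τ N X` and `vw_step`.
  (2), (3): `prm deg N` is contained in `cl K` of `prm deg' M ∪ {τ N, p N}`: `factor_mem_cl` (for `F N` use
  `hev_hev`-like: `F N` is obtained from the factor by substituting `p N + τ N X`), so the rank grows by at most 2.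
  The number of zeros of `τ` and the sum of the degrees do not change.
* `N = M + 1`, `u = par N`, `τ N = 0`.  Apply the induction hypothesis to the same data with `M`.  `vw_break`: the
  equations for `y ≤ M`: if `deg N = 0` nothing changes; otherwise there is `t' ∈ S N` (`d ≥ 1`) and `hD` gives
  `(zp y N).eval t ≠ 0` for `t ∈ S y` (`ww y N = ww y u * 0`).  So (1) holds for `y ≤ M`.  `vw_leaf`:
  `vw N i = C (κ i) * F N i`, `κ i = (vw M u i).eval (p N)`; `κ i ≠ 0` for all `i` by `hκ` (`¬ desc par N v` for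
  `v ≤ M`) and `c i ≠ 0`.  `f(κ) = 0` by (1) for `u`; `aeval (vw N) f` has degree `≤ d deg N` with top coefficient
  `f(κ) = 0`, and `d deg N` zeros: it is zero.  `curve_rank` with `S = prm deg M ∪ {p N}` (`κ i ∈ cl K S`)
  gives `rk (prm deg N) ≤ rk (prm deg M) + 1 + m deg N`, and the number of zeros of `τ` is one more.
-/

namespace Pool.Agent.Helper30.RY

open Polynomial

section

variable {K : Type*} [Field K] {Ω : Type*} [Field Ω] [Algebra K Ω]

private theorem lifts_iff50 {s : Finset Ω} {G : Polynomial Ω} :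
    G ∈ Polynomial.lifts (algebraMap (cl K s) Ω) ↔ ∀ j, G.coeff j ∈ cl K s := by
  rw [Polynomial.lifts_iff_coeff_lifts]
  constructor
  · intro h j
    obtain ⟨x, hx⟩ := h j
    rw [← hx]
    exact x.2
  · intro h j
    exact ⟨⟨_, h j⟩, rfl⟩

theorem factor_mem_cl [IsAlgClosed Ω] {G H : Polynomial Ω} (hG : G.Monic) (hH : H ≠ 0)
    (h : G ∣ H) {s : Finset Ω} (hs : ∀ j, H.coeff j ∈ cl K s) (j : ℕ) : G.coeff j ∈ cl K s := by
  revert j
  rw [← lifts_iff50]
  rw [(IsAlgClosed.splits G).eq_prod_roots_of_monic hG]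
  refine multiset_prod_mem _ fun q hq => ?_
  obtain ⟨r, hr, rfl⟩ := Multiset.mem_map.1 hq
  have hr1 : r ∈ cl K s := by
    refine mem_cl_of_root K H hH hs ?_
    obtain ⟨G', hG'⟩ := h
    rw [hG', Polynomial.eval_mul, (Polynomial.mem_roots hG.ne_zero).1 hr, zero_mul]
  rw [lifts_iff50]
  intro j
  rw [Polynomial.coeff_sub, Polynomial.coeff_X, Polynomial.coeff_C]
  split_ifs
  · exact sub_mem (one_mem _) hr1
  · exact sub_mem (one_mem _) (zero_mem _)
  · exact sub_mem (zero_mem _) hr1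
  · exact sub_mem (zero_mem _) (zero_mem _)

private theorem coeff_prod50 {ι : Type*} (s : Finset ι) (P : ι → Polynomial Ω) (μ : ι → ℕ) {ε : ℕ}
    (hP : ∀ i, (P i).natDegree ≤ ε) :
    (∏ i ∈ s, P i ^ μ i).natDegree ≤ (∑ i ∈ s, μ i) * ε ∧
      (∏ i ∈ s, P i ^ μ i).coeff ((∑ i ∈ s, μ i) * ε) = ∏ i ∈ s, (P i).coeff ε ^ μ i := by
  classical
  induction s using Finset.induction_on with
  | empty => simp
  | insert a s ha ih =>
    obtain ⟨ih1, ih2⟩ := ih
    rw [Finset.prod_insert ha, Finset.sum_insert ha, Finset.prod_insert ha, add_mul]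
    have h1 : (P a ^ μ a).natDegree ≤ μ a * ε :=
      Polynomial.natDegree_pow_le.trans (Nat.mul_le_mul_left _ (hP a))
    refine ⟨Polynomial.natDegree_mul_le.trans (add_le_add h1 ih1), ?_⟩
    rw [Polynomial.coeff_mul_add_eq_of_natDegree_le h1 ih1, ih2,
      Polynomial.coeff_pow_of_natDegree_le (hP a)]

theorem poly_zero {n q ε : ℕ} {f : MvPolynomial (Fin (n + 1)) Ω} (hf : f.IsHomogeneous q)
    (P : Fin (n + 1) → Polynomial Ω) (hP : ∀ i, (P i).natDegree ≤ ε) :
    (MvPolynomial.aeval P f).natDegree ≤ q * ε ∧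
      (MvPolynomial.aeval P f).coeff (q * ε) =
        MvPolynomial.eval (fun i => (P i).coeff ε) f := by
  have h0 : ∀ μ ∈ f.support, ∑ i, μ i = q := by
    intro μ hμ
    have h3 : μ.degree = q := by
      by_contra hcon
      exact (MvPolynomial.mem_support_iff.mp hμ) (hf.coeff_eq_zero hcon)
    rw [← h3, Finsupp.degree_eq_sum]
  have h1 : MvPolynomial.aeval P f = ∑ μ ∈ f.support, C (f.coeff μ) * ∏ i, P i ^ μ i := by
    rw [MvPolynomial.aeval_def, MvPolynomial.eval₂_eq']
    rfl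
  have h2 : MvPolynomial.eval (fun i => (P i).coeff ε) f =
      ∑ μ ∈ f.support, f.coeff μ * ∏ i, (P i).coeff ε ^ μ i := MvPolynomial.eval_eq' _ _
  rw [h1, h2]
  constructor
  · refine Polynomial.natDegree_sum_le_of_forall_le _ _ fun μ hμ => ?_
    refine (Polynomial.natDegree_C_mul_le _ _).trans ?_
    have h3 := (coeff_prod50 Finset.univ P (fun i => μ i) hP).1
    rw [h0 μ hμ] at h3
    exact h3
  · rw [Polynomial.finsetSum_coeff]
    refine Finset.sum_congr rfl fun μ hμ => ?_
    rw [Polynomial.coeff_C_mul]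
    have h3 := (coeff_prod50 Finset.univ P (fun i => μ i) hP).2
    rw [h0 μ hμ] at h3
    rw [h3]

variable [DecidableEq Ω]

private theorem cfs_mem50 {n ε : ℕ} {P : Fin (n + 1) → Polynomial Ω} {x : Ω} :
    x ∈ cfs ε P ↔ ∃ i, ∃ l ≤ ε, (P i).coeff l = x := by
  unfold cfs
  simp only [Finset.mem_biUnion, Finset.mem_univ, true_and, Finset.mem_image, Finset.mem_range,
    Nat.lt_succ_iff]

theorem curve_rank {n d m e : ℕ} {x : Mon n d → K}
    (hQ : ∀ e' ≤ e, ∀ a : ℕ → Fin (n + 1) → Ω, a 0 ≠ 0 → Van (bc Ω x) a e' →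
      rk K (rga a e') ≤ rk K (rg (a 0)) + m * e')
    {ε : ℕ} (hε : ε ≤ e) {P : Fin (n + 1) → Polynomial Ω} (hP : ∀ i, (P i).natDegree ≤ ε)
    (h0 : (fun i => (P i).coeff ε) ≠ 0) (hV : MvPolynomial.aeval P (fm (bc Ω x)) = 0)
    (S : Finset Ω) :
    rk K (S ∪ cfs ε P) ≤ rk K (S ∪ rg fun i => (P i).coeff ε) + m * ε := by
  have h1 : cv (fun l i => (P i).coeff l) ε = P := by
    funext i
    unfold cv
    have h2 := Polynomial.as_sum_range' (P i) (ε + 1) (Nat.lt_succ_of_le (hP i))
    conv_rhs => rw [h2]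
    refine Finset.sum_congr rfl fun l _ => ?_
    rw [Polynomial.C_mul_X_pow_eq_monomial]
  have h2 : Vanp (fm (bc Ω x)) (fun l i => (P i).coeff l) ε := by
    unfold Vanp
    rw [h1]
    exact hV
  have h3 := vanp_rev (fm_hom (bc Ω x)) h2
  have h4 := hQ ε hε (fun l i => (P i).coeff (ε - l)) (by simpa using h0) h3
  have h5 : rga (fun l i => (P i).coeff (ε - l)) ε = cfs ε P := by
    ext y
    rw [cfs_mem50]
    unfold rga rg
    simp only [Finset.mem_biUnion, Finset.mem_univ, true_and, Finset.mem_image, Finset.mem_range,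
      Nat.lt_succ_iff]
    constructor
    · rintro ⟨l, hl, i, rfl⟩
      exact ⟨i, ε - l, Nat.sub_le _ _, rfl⟩
    · rintro ⟨i, l, hl, rfl⟩
      refine ⟨ε - l, Nat.sub_le _ _, i, ?_⟩
      rw [Nat.sub_sub_self hl]
  rw [h5] at h4
  simp only [Nat.sub_zero] at h4
  have h6 := rk_submod K (rg fun i => (P i).coeff ε) S (cfs ε P)
  have h7 : rk K (S ∪ cfs ε P) ≤ rk K ((rg fun i => (P i).coeff ε) ∪ S ∪ cfs ε P) := by
    refine rk_mono K fun y hy => ?_
    simp only [Finset.mem_union] at hy ⊢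
    tauto
  have h8 : rk K ((rg fun i => (P i).coeff ε) ∪ cfs ε P) ≤ rk K (cfs ε P) := by
    refine rk_mono K fun y hy => ?_
    rcases Finset.mem_union.1 hy with hy | hy
    · unfold rg at hy
      obtain ⟨i, _, rfl⟩ := Finset.mem_image.1 hy
      exact cfs_mem50.2 ⟨i, ε, le_rfl, rfl⟩
    · exact hy
  rw [Finset.union_comm (rg fun i => (P i).coeff ε) S] at h6 h7
  omega

end


section main50

variable {K : Type*} [Field K] {Ω : Type*} [Field Ω] [Algebra K Ω] {n d : ℕ}

private theorem aev50 {S : Type*} [CommRing S] [Algebra Ω S] {q : ℕ}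
    {f : MvPolynomial (Fin (n + 1)) Ω} (hf : f.IsHomogeneous q) (s : S) (P : Fin (n + 1) → S) :
    MvPolynomial.aeval (fun i => s * P i) f = s ^ q * MvPolynomial.aeval P f := by
  rw [MvPolynomial.aeval_def, MvPolynomial.aeval_def, MvPolynomial.eval₂_eq',
    MvPolynomial.eval₂_eq', Finset.mul_sum]
  refine Finset.sum_congr rfl fun μ hμ => ?_
  have h3 : ∑ i, μ i = q := by
    have h3 : μ.degree = q := by
      by_contra hcon
      exact (MvPolynomial.mem_support_iff.mp hμ) (hf.coeff_eq_zero hcon)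
    rw [← h3, Finsupp.degree_eq_sum]
  have h4 : ∏ i, (s * P i) ^ μ i = s ^ q * ∏ i, P i ^ μ i := by
    rw [← h3, ← Finset.prod_pow_eq_pow_sum, ← Finset.prod_mul_distrib]
    exact Finset.prod_congr rfl fun i _ => mul_pow _ _ _
  rw [h4]
  ring

private theorem evalsc50 {q : ℕ} {f : MvPolynomial (Fin (n + 1)) Ω} (hf : f.IsHomogeneous q)
    (s : Ω) (v : Fin (n + 1) → Ω) :
    MvPolynomial.eval (fun i => s * v i) f = s ^ q * MvPolynomial.eval v f := by
  rw [← MvPolynomial.coe_aeval_eq_eval, ← MvPolynomial.coe_aeval_eq_eval]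
  exact aev50 hf s v

private theorem evpt50 (f : MvPolynomial (Fin (n + 1)) Ω) (P : Fin (n + 1) → Polynomial Ω) (t : Ω) :
    (MvPolynomial.aeval P f).eval t = MvPolynomial.eval (fun i => (P i).eval t) f := by
  have h1 := MvPolynomial.comp_aeval_apply (f := P) (Polynomial.aeval t : Polynomial Ω →ₐ[Ω] Ω) f
  rw [← MvPolynomial.coe_aeval_eq_eval]
  simpa [Polynomial.coe_aeval_eq_eval] using h1

private theorem compf50 (f : MvPolynomial (Fin (n + 1)) Ω) (P : Fin (n + 1) → Polynomial Ω)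
    (g : Polynomial Ω) :
    (MvPolynomial.aeval P f).comp g = MvPolynomial.aeval (fun i => (P i).comp g) f := by
  have h1 := MvPolynomial.comp_aeval_apply (f := P)
    (Polynomial.aeval g : Polynomial Ω →ₐ[Ω] Polynomial Ω) f
  exact h1

private theorem coeffs_mem50 {s : Finset Ω} {G : Polynomial Ω} {δ : ℕ} (hG : G.Monic)
    (hd : G.natDegree = δ) (h : ∀ j < δ, G.coeff j ∈ cl K s) (j : ℕ) : G.coeff j ∈ cl K s := by
  rcases lt_trichotomy j δ with hj | hj | hj
  · exact h j hj
  · rw [hj, ← hd]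
    have h1 : G.coeff G.natDegree = 1 := hG
    rw [h1]
    exact one_mem _
  · rw [Polynomial.coeff_eq_zero_of_natDegree_lt (by omega)]
    exact zero_mem _

private theorem vw_mem50 {s : Finset Ω} {par deg : ℕ → ℕ} {M : ℕ} {τ p : ℕ → Ω}
    {c : Fin (n + 1) → Ω} {F : ℕ → Fin (n + 1) → Polynomial Ω}
    (hpar : ∀ v, 1 ≤ v → v ≤ M → par v < v) (hτ : ∀ v, 1 ≤ v → v ≤ M → τ v ∈ cl K s)
    (hp : ∀ v, 1 ≤ v → v ≤ M → p v ∈ cl K s) (hc : ∀ i, c i ∈ cl K s)
    (hF : ∀ v ≤ M, ∀ i j, (F v i).coeff j ∈ cl K s) {y : ℕ} (hy : y ≤ M) (i : Fin (n + 1))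
    (j : ℕ) : (vw par deg M τ p c F y i).coeff j ∈ cl K s := by
  classical
  obtain ⟨τ0, hτ0⟩ : ∃ τ0 : ℕ → cl K s, ∀ v, 1 ≤ v → v ≤ M →
      τ v = algebraMap (cl K s) Ω (τ0 v) := by
    refine ⟨fun v => if h : 1 ≤ v ∧ v ≤ M then ⟨τ v, hτ v h.1 h.2⟩ else 0, fun v h1 h2 => ?_⟩
    beta_reduce
    rw [dif_pos ⟨h1, h2⟩]
    rfl
  obtain ⟨p0, hp0⟩ : ∃ p0 : ℕ → cl K s, ∀ v, 1 ≤ v → v ≤ M →
      p v = algebraMap (cl K s) Ω (p0 v) := by
    refine ⟨fun v => if h : 1 ≤ v ∧ v ≤ M then ⟨p v, hp v h.1 h.2⟩ else 0, fun v h1 h2 => ?_⟩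
    beta_reduce
    rw [dif_pos ⟨h1, h2⟩]
    rfl
  obtain ⟨c0, hc0⟩ : ∃ c0 : Fin (n + 1) → cl K s, ∀ i, c i = algebraMap (cl K s) Ω (c0 i) :=
    ⟨fun i => ⟨c i, hc i⟩, fun i => rfl⟩
  obtain ⟨F0, hF0⟩ : ∃ F0 : ℕ → Fin (n + 1) → Polynomial (cl K s), ∀ v ≤ M, ∀ i,
      F v i = (F0 v i).map (algebraMap (cl K s) Ω) := by
    have h1 : ∀ v i, ∃ q : Polynomial (cl K s), v ≤ M →
        F v i = q.map (algebraMap (cl K s) Ω) := by
      intro v i
      by_cases hv : v ≤ M
      · obtain ⟨q, hq⟩ := lifts_iff50.2 (hF v hv i)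
        exact ⟨q, fun _ => hq.symm⟩
      · exact ⟨0, fun h => absurd h hv⟩
    choose F0 hF0 using h1
    exact ⟨F0, fun v hv i => hF0 v i hv⟩
  have h1 : vw par deg M τ p c F y i =
      (vw par deg M τ0 p0 c0 F0 y i).map (algebraMap (cl K s) Ω) := by
    rw [vw_map]
    unfold vw
    rw [hc0 i]
    congr 1
    refine Finset.prod_congr rfl fun v hv => ?_
    rw [Finset.mem_range] at hv
    have h2 := zw_congr (y := y) (v := v) hpar hτ0 hp0 hy (by omega)
    unfold zp ww
    rw [h2, hF0 v (by omega) i]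
  rw [h1]
  exact (lifts_iff50.1 ⟨_, rfl⟩) j

variable [DecidableEq Ω]

private theorem prm_mem50 {deg : ℕ → ℕ} {N : ℕ} {τ p : ℕ → Ω} {c : Fin (n + 1) → Ω}
    {F : ℕ → Fin (n + 1) → Polynomial Ω} {y : Ω} :
    y ∈ prm deg N τ p c F ↔ (∃ v, (1 ≤ v ∧ v ≤ N) ∧ τ v = y) ∨ (∃ v, (1 ≤ v ∧ v ≤ N) ∧ p v = y) ∨
      (∃ i, c i = y) ∨ ∃ v ≤ N, ∃ i, ∃ j < deg v, (F v i).coeff j = y := by
  unfold prm rg
  simp only [Finset.mem_union, Finset.mem_image, Finset.mem_Icc, Finset.mem_univ, true_and,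
    Finset.mem_biUnion, Finset.mem_range, Nat.lt_succ_iff, or_assoc]

omit [DecidableEq Ω] in
private theorem bc_ne50 {x : Mon n d → K} (hx : x ≠ 0) : bc Ω x ≠ 0 := by
  intro h
  apply hx
  funext μ
  have h1 := congrFun h μ
  exact (map_eq_zero (algebraMap K Ω)).1 h1

private theorem rk_bc50 (x : Mon n d → K) : rk K (rg (bc Ω x)) = 0 := by
  have h1 : rk K (rg (bc Ω x)) ≤ rk K (∅ : Finset Ω) := by
    refine rk_le_of_subset_cl K fun y hy => ?_
    unfold rg at hy
    obtain ⟨μ, _, rfl⟩ := Finset.mem_image.1 hy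
    exact (cl K ∅).algebraMap_mem _
  rw [rk_empty] at h1
  omega

private structure Hyp50 (d : ℕ) (f : MvPolynomial (Fin (n + 1)) Ω) (e : ℕ) (par : ℕ → ℕ)
    (τ p : ℕ → Ω) (c : Fin (n + 1) → Ω) (N : ℕ) (deg : ℕ → ℕ)
    (F : ℕ → Fin (n + 1) → Polynomial Ω) (S : ℕ → Finset Ω) : Prop where
  lt : ∀ v, 1 ≤ v → v ≤ N → par v < v
  mon : ∀ v ≤ N, ∀ i, (F v i).Monic ∧ (F v i).natDegree = deg v
  sum : ∑ v ∈ Finset.range (N + 1), deg v ≤ e
  card0 : (S 0).card = d * deg 0 + 1
  card : ∀ v, 1 ≤ v → v ≤ N → (S v).card = d * deg v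
  zer : ∀ v ≤ N, ∀ t ∈ S v,
      MvPolynomial.eval (fun i => (vw par deg N τ p c F v i).eval t) f = 0
  sep : ∀ y ≤ N, ∀ v ≤ N, ∀ t ∈ S y, ∀ t' ∈ S v, (y, t) ≠ (v, t') →
      (zp par τ p y v).eval t - ww par τ p y v * t' ≠ 0
  nz : ∀ y, 1 ≤ y → y ≤ N → ∀ v ≤ N, ¬ desc par y v → ∀ i,
      (hev (F v i) (deg v) (zp par τ p (par y) v) (ww par τ p (par y) v)).eval (p y) ≠ 0

private structure Con50 (K : Type*) [Field K] [Algebra K Ω] (m : ℕ)
    (f : MvPolynomial (Fin (n + 1)) Ω) (par : ℕ → ℕ)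
    (τ p : ℕ → Ω) (c : Fin (n + 1) → Ω) (N : ℕ) (deg : ℕ → ℕ)
    (F : ℕ → Fin (n + 1) → Polynomial Ω) : Prop where
  van : ∀ y ≤ N, MvPolynomial.aeval (vw par deg N τ p c F y) f = 0
  rnk : rk K (prm deg N τ p c F) + ((Finset.Icc 1 N).filter fun v => τ v = 0).card ≤
      2 * N + m * (∑ v ∈ Finset.range (N + 1), deg v) + n
  smo : (∀ v, 1 ≤ v → v ≤ N → τ v ≠ 0) → rk K (prm deg N τ p c F) ≤
      2 * N + rk K (cfs (∑ v ∈ Finset.range (N + 1), deg v) (vw par deg N τ p c F 0))

private theorem base50 {m e : ℕ} {x : Mon n d → K} (hx : x ≠ 0)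
    (hQ : ∀ e' ≤ e, ∀ a : ℕ → Fin (n + 1) → Ω, a 0 ≠ 0 → Van (bc Ω x) a e' →
      rk K (rga a e') ≤ rk K (rg (a 0)) + m * e')
    {par : ℕ → ℕ} {τ p : ℕ → Ω} {c : Fin (n + 1) → Ω} (hc : ∀ i, c i ≠ 0) {deg : ℕ → ℕ}
    {F : ℕ → Fin (n + 1) → Polynomial Ω} {S : ℕ → Finset Ω}
    (h : Hyp50 d (fm (bc Ω x)) e par τ p c 0 deg F S) :
    Con50 K m (fm (bc Ω x)) par τ p c 0 deg F := by
  have hhom : (fm (bc Ω x)).IsHomogeneous d := fm_hom _
  have hsum : ∑ v ∈ Finset.range (0 + 1), deg v = deg 0 := by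
    rw [zero_add, Finset.sum_range_one]
  have hvw : vw par deg 0 τ p c F 0 = fun i => C (c i) * F 0 i := by
    funext i
    unfold vw
    rw [zero_add, Finset.prod_range_one, zp_self, ww_self, hev_one (h.mon 0 le_rfl i).2.le]
  have hdegP : ∀ i, (C (c i) * F 0 i).natDegree ≤ deg 0 := fun i =>
    (Polynomial.natDegree_C_mul_le _ _).trans (h.mon 0 le_rfl i).2.le
  have htop : ∀ i, (C (c i) * F 0 i).coeff (deg 0) = c i := by
    intro i
    have h1 : (F 0 i).coeff (F 0 i).natDegree = 1 := (h.mon 0 le_rfl i).1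
    rw [Polynomial.coeff_C_mul, ← (h.mon 0 le_rfl i).2, h1, mul_one]
  obtain ⟨hz1, hz2⟩ := poly_zero hhom (fun i => C (c i) * F 0 i) hdegP
  have hvan : MvPolynomial.aeval (fun i => C (c i) * F 0 i) (fm (bc Ω x)) = 0 := by
    refine Polynomial.eq_zero_of_natDegree_lt_card_of_eval_eq_zero' _ (S 0) (fun t ht => ?_) ?_
    · rw [evpt50]
      have h1 := h.zer 0 le_rfl t ht
      rw [hvw] at h1
      exact h1
    · rw [h.card0]
      omega
  rw [hvan, Polynomial.coeff_zero] at hz2
  have hcz : MvPolynomial.eval c (fm (bc Ω x)) = 0 := by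
    rw [hz2]
    congr 1
    congr 1
    funext i
    exact (htop i).symm
  have hc0 : c ≠ 0 := fun h1 => hc 0 (congrFun h1 0)
  have hrkc : rk K (rg c) ≤ n := by
    have h1 := zero_le (K := K) (bc_ne50 (Ω := Ω) hx) (S := rg (bc Ω x)) (Finset.Subset.refl _) hcz
    rw [rk_bc50] at h1
    have h2 : rk K (rg c) ≤ rk K (rg (bc Ω x) ∪ rg c) := rk_mono K Finset.subset_union_right
    omega
  have hcfs : rk K (prm deg 0 τ p c F) ≤ rk K (cfs (deg 0) fun i => C (c i) * F 0 i) := by
    refine rk_le_of_subset_cl K fun y hy => ?_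
    have hci : ∀ i, c i ∈ cl K (cfs (deg 0) fun i => C (c i) * F 0 i) := fun i =>
      subset_cl K _ _ (cfs_mem50.2 ⟨i, deg 0, le_rfl, htop i⟩)
    rcases prm_mem50.1 hy with ⟨v, hv, _⟩ | ⟨v, hv, _⟩ | ⟨i, rfl⟩ | ⟨v, hv, i, j, hj, rfl⟩
    · omega
    · omega
    · exact hci i
    · obtain rfl : v = 0 := by omega
      have h1 : (C (c i) * F 0 i).coeff j ∈ cl K (cfs (deg 0) fun i => C (c i) * F 0 i) :=
        subset_cl K _ _ (cfs_mem50.2 ⟨i, j, hj.le, rfl⟩)
      rw [Polynomial.coeff_C_mul] at h1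
      have h2 := mul_mem (inv_mem (hci i)) h1
      rwa [inv_mul_cancel_left₀ (hc i)] at h2
  have hε : deg 0 ≤ e := by
    have h1 := h.sum
    rw [hsum] at h1
    exact h1
  have hcr := curve_rank hQ hε hdegP (by simpa only [htop] using hc0) hvan ∅
  rw [Finset.empty_union, Finset.empty_union] at hcr
  simp only [htop] at hcr
  refine ⟨fun y hy => ?_, ?_, fun _ => ?_⟩
  · obtain rfl : y = 0 := by omega
    rw [hvw]
    exact hvan
  · rw [hsum]
    have h1 : ((Finset.Icc 1 0).filter fun v => τ v = 0) = ∅ := by simp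
    rw [h1, Finset.card_empty]
    have h2 : rk K (rg fun i => c i) ≤ n := hrkc
    omega
  · rw [hsum, hvw]
    omega

private theorem break50 {m e : ℕ} (hd : 1 ≤ d) {x : Mon n d → K}
    (hQ : ∀ e' ≤ e, ∀ a : ℕ → Fin (n + 1) → Ω, a 0 ≠ 0 → Van (bc Ω x) a e' →
      rk K (rga a e') ≤ rk K (rg (a 0)) + m * e')
    {par : ℕ → ℕ} {τ p : ℕ → Ω} {c : Fin (n + 1) → Ω} (hc : ∀ i, c i ≠ 0) {M : ℕ}
    (hτ : τ (M + 1) = 0) {deg : ℕ → ℕ}
    {F : ℕ → Fin (n + 1) → Polynomial Ω} {S : ℕ → Finset Ω}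
    (h : Hyp50 d (fm (bc Ω x)) e par τ p c (M + 1) deg F S)
    (ih : Hyp50 d (fm (bc Ω x)) e par τ p c M deg F S →
      Con50 K m (fm (bc Ω x)) par τ p c M deg F) :
    Con50 K m (fm (bc Ω x)) par τ p c (M + 1) deg F := by
  have hhom : (fm (bc Ω x)).IsHomogeneous d := fm_hom _
  have hparN : par (M + 1) < M + 1 := h.lt (M + 1) (by omega) le_rfl
  have hF : ∀ v ≤ M + 1, ∀ i, (F v i).natDegree ≤ deg v := fun v hv i => (h.mon v hv i).2.le
  have hbr : ∀ y ≤ M, vw par deg (M + 1) τ p c F y = fun i =>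
      zp par τ p y (M + 1) ^ deg (M + 1) * vw par deg M τ p c F y i := by
    intro y hy
    funext i
    rw [vw_break h.lt hτ (h.mon (M + 1) le_rfl) hy i, mul_comm]
  have hleaf : vw par deg (M + 1) τ p c F (M + 1) = fun i =>
      C ((vw par deg M τ p c F (par (M + 1)) i).eval (p (M + 1))) * F (M + 1) i := by
    funext i
    exact vw_leaf h.lt hτ (hF (M + 1) le_rfl) i
  have hsum : ∑ v ∈ Finset.range (M + 1 + 1), deg v =
      ∑ v ∈ Finset.range (M + 1), deg v + deg (M + 1) := Finset.sum_range_succ _ _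
  have hsum' := h.sum
  rw [hsum] at hsum'
  have hzne : ∀ y ≤ M, ∀ t ∈ S y, ((zp par τ p y (M + 1)).eval t) ^ deg (M + 1) ≠ 0 := by
    intro y hy t ht
    rcases Nat.eq_zero_or_pos (deg (M + 1)) with h0 | h0
    · rw [h0, pow_zero]
      exact one_ne_zero
    · have h1 : 0 < (S (M + 1)).card := by
        rw [h.card (M + 1) (by omega) le_rfl]
        exact Nat.mul_pos hd h0
      obtain ⟨t', ht'⟩ := Finset.card_pos.1 h1
      have h2 := h.sep y (by omega) (M + 1) le_rfl t ht t' ht' (by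
        intro h3
        have h4 := congrArg Prod.fst h3
        change y = M + 1 at h4
        omega)
      rw [ww_lt (by omega : y < M + 1) hparN, hτ, mul_zero, zero_mul, sub_zero] at h2
      exact pow_ne_zero _ h2
  have hih := ih
    { lt := fun v h1 h2 => h.lt v h1 (by omega)
      mon := fun v hv => h.mon v (by omega)
      sum := by omega
      card0 := h.card0
      card := fun v h1 h2 => h.card v h1 (by omega)
      zer := by
        intro v hv t ht
        have h1 := h.zer v (by omega) t ht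
        rw [hbr v hv] at h1
        simp only [Polynomial.eval_mul, Polynomial.eval_pow] at h1
        rw [evalsc50 hhom] at h1
        exact (mul_eq_zero.1 h1).resolve_left (pow_ne_zero _ (hzne v hv t ht))
      sep := fun y hy v hv => h.sep y (by omega) v (by omega)
      nz := fun y hy1 hy2 v hv => h.nz y hy1 (by omega) v (by omega) }
  -- the leaf
  obtain ⟨κ, hκ⟩ : ∃ κ : Fin (n + 1) → Ω,
      κ = fun i => (vw par deg M τ p c F (par (M + 1)) i).eval (p (M + 1)) := ⟨_, rfl⟩
  have hleaf' : vw par deg (M + 1) τ p c F (M + 1) = fun i => C (κ i) * F (M + 1) i := by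
    rw [hleaf, hκ]
  have hκ0 : ∀ i, κ i ≠ 0 := by
    intro i
    rw [hκ]
    beta_reduce
    unfold vw
    rw [Polynomial.eval_mul, Polynomial.eval_C, Polynomial.eval_prod]
    refine mul_ne_zero (hc i) (Finset.prod_ne_zero_iff.2 fun v hv => ?_)
    rw [Finset.mem_range] at hv
    refine h.nz (M + 1) (by omega) le_rfl v (by omega) (fun h1 => ?_) i
    have := desc_le h1
    omega
  have hκf : MvPolynomial.eval κ (fm (bc Ω x)) = 0 := by
    rw [hκ, ← evpt50, hih.van (par (M + 1)) (by omega), Polynomial.eval_zero]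
  have hdegP : ∀ i, (C (κ i) * F (M + 1) i).natDegree ≤ deg (M + 1) := fun i =>
    (Polynomial.natDegree_C_mul_le _ _).trans (hF (M + 1) le_rfl i)
  have htop : ∀ i, (C (κ i) * F (M + 1) i).coeff (deg (M + 1)) = κ i := by
    intro i
    have h1 : (F (M + 1) i).coeff (F (M + 1) i).natDegree = 1 := (h.mon (M + 1) le_rfl i).1
    rw [Polynomial.coeff_C_mul, ← (h.mon (M + 1) le_rfl i).2, h1, mul_one]
  obtain ⟨hz1, hz2⟩ := poly_zero hhom (fun i => C (κ i) * F (M + 1) i) hdegP
  simp only [htop] at hz2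
  have hκf' : MvPolynomial.eval (fun i => κ i) (fm (bc Ω x)) = 0 := hκf
  rw [hκf'] at hz2
  have hvan : MvPolynomial.aeval (fun i => C (κ i) * F (M + 1) i) (fm (bc Ω x)) = 0 := by
    refine Polynomial.eq_zero_of_degree_lt_of_eval_finset_eq_zero (S (M + 1)) ?_ fun t ht => ?_
    · rw [h.card (M + 1) (by omega) le_rfl, Polynomial.degree_lt_iff_coeff_zero]
      intro j hj
      rcases eq_or_lt_of_le hj with hj | hj
      · rw [← hj]
        exact hz2
      · exact Polynomial.coeff_eq_zero_of_natDegree_lt (by omega)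
    · rw [evpt50]
      have h1 := h.zer (M + 1) le_rfl t ht
      rw [hleaf'] at h1
      exact h1
  refine ⟨fun y hy => ?_, ?_, fun h1 => absurd hτ (h1 (M + 1) (by omega) le_rfl)⟩
  · rcases Nat.lt_or_ge M y with hy' | hy'
    · obtain rfl : y = M + 1 := by omega
      rw [hleaf']
      exact hvan
    · rw [hbr y hy', aev50 hhom, hih.van y hy', mul_zero]
  · have hrk := hih.rnk
    have hcount : ((Finset.Icc 1 (M + 1)).filter fun v => τ v = 0).card =
        ((Finset.Icc 1 M).filter fun v => τ v = 0).card + 1 := by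
      have h1 : Finset.Icc 1 (M + 1) = insert (M + 1) (Finset.Icc 1 M) := by
        ext v
        simp only [Finset.mem_Icc, Finset.mem_insert]
        omega
      rw [h1, Finset.filter_insert, if_pos hτ, Finset.card_insert_of_notMem]
      simp
    have hκ1 : (fun i => κ i) ≠ 0 := fun h1 => hκ0 0 (congrFun h1 0)
    have hcr := curve_rank hQ (by omega : deg (M + 1) ≤ e) hdegP (by simpa only [htop] using hκ1)
      hvan (prm deg M τ p c F ∪ {p (M + 1)})
    simp only [htop] at hcr
    have hA : ∀ y ∈ prm deg M τ p c F, y ∈ cl K (prm deg M τ p c F ∪ {p (M + 1)}) := fun y hy =>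
      subset_cl K _ _ (Finset.mem_union_left _ hy)
    have hκmem : ∀ y ∈ rg κ, y ∈ cl K (prm deg M τ p c F ∪ {p (M + 1)}) := by
      intro y hy
      unfold rg at hy
      obtain ⟨i, _, rfl⟩ := Finset.mem_image.1 hy
      have h1 : ∀ j, (vw par deg M τ p c F (par (M + 1)) i).coeff j ∈
          cl K (prm deg M τ p c F ∪ {p (M + 1)}) := by
        refine vw_mem50 (fun v h1 h2 => h.lt v h1 (by omega))
          (fun v h1 h2 => hA _ (prm_mem50.2 (Or.inl ⟨v, ⟨h1, h2⟩, rfl⟩)))
          (fun v h1 h2 => hA _ (prm_mem50.2 (Or.inr (Or.inl ⟨v, ⟨h1, h2⟩, rfl⟩))))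
          (fun i => hA _ (prm_mem50.2 (Or.inr (Or.inr (Or.inl ⟨i, rfl⟩)))))
          (fun v hv i => ?_) (by omega) i
        exact coeffs_mem50 (h.mon v (by omega) i).1 (h.mon v (by omega) i).2 fun j hj =>
          hA _ (prm_mem50.2 (Or.inr (Or.inr (Or.inr ⟨v, hv, i, j, hj, rfl⟩))))
      rw [hκ]
      beta_reduce
      rw [Polynomial.eval_eq_sum_range]
      refine sum_mem fun j _ => mul_mem (h1 j) (pow_mem ?_ _)
      exact subset_cl K _ _ (Finset.mem_union_right _ (Finset.mem_singleton_self _))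
    have h2 : rk K (prm deg M τ p c F ∪ {p (M + 1)} ∪ rg fun i => κ i) ≤
        rk K (prm deg M τ p c F) + 1 := by
      have h3 : rk K (prm deg M τ p c F ∪ {p (M + 1)} ∪ rg fun i => κ i) =
          rk K (prm deg M τ p c F ∪ {p (M + 1)}) := rk_union_of_subset_cl K hκmem
      rw [h3]
      have h4 := rk_union_le_card K (prm deg M τ p c F) {p (M + 1)}
      rw [Finset.card_singleton] at h4
      exact h4
    have h3 : rk K (prm deg (M + 1) τ p c F) ≤
        rk K (prm deg M τ p c F ∪ {p (M + 1)} ∪ cfs (deg (M + 1)) fun i => C (κ i) * F (M + 1) i) := by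
      refine rk_le_of_subset_cl K fun y hy => ?_
      have hB : ∀ z ∈ prm deg M τ p c F, z ∈ cl K (prm deg M τ p c F ∪ {p (M + 1)} ∪
          cfs (deg (M + 1)) fun i => C (κ i) * F (M + 1) i) := fun z hz =>
        subset_cl K _ _ (Finset.mem_union_left _ (Finset.mem_union_left _ hz))
      rcases prm_mem50.1 hy with ⟨v, hv, rfl⟩ | ⟨v, hv, rfl⟩ | ⟨i, rfl⟩ | ⟨v, hv, i, j, hj, rfl⟩
      · by_cases hv1 : v ≤ M
        · exact hB _ (prm_mem50.2 (Or.inl ⟨v, ⟨hv.1, hv1⟩, rfl⟩))
        · obtain rfl : v = M + 1 := by omega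
          rw [hτ]
          exact zero_mem _
      · by_cases hv1 : v ≤ M
        · exact hB _ (prm_mem50.2 (Or.inr (Or.inl ⟨v, ⟨hv.1, hv1⟩, rfl⟩)))
        · obtain rfl : v = M + 1 := by omega
          exact subset_cl K _ _ (Finset.mem_union_left _ (Finset.mem_union_right _
            (Finset.mem_singleton_self _)))
      · exact hB _ (prm_mem50.2 (Or.inr (Or.inr (Or.inl ⟨i, rfl⟩))))
      · by_cases hv1 : v ≤ M
        · exact hB _ (prm_mem50.2 (Or.inr (Or.inr (Or.inr ⟨v, hv1, i, j, hj, rfl⟩))))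
        · obtain rfl : v = M + 1 := by omega
          have hκi : κ i ∈ cl K (prm deg M τ p c F ∪ {p (M + 1)} ∪
              cfs (deg (M + 1)) fun i => C (κ i) * F (M + 1) i) :=
            subset_cl K _ _ (Finset.mem_union_right _
              (cfs_mem50.2 ⟨i, deg (M + 1), le_rfl, htop i⟩))
          have h1 : (C (κ i) * F (M + 1) i).coeff j ∈ cl K (prm deg M τ p c F ∪ {p (M + 1)} ∪
              cfs (deg (M + 1)) fun i => C (κ i) * F (M + 1) i) :=
            subset_cl K _ _ (Finset.mem_union_right _ (cfs_mem50.2 ⟨i, j, hj.le, rfl⟩))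
          rw [Polynomial.coeff_C_mul] at h1
          have h2 := mul_mem (inv_mem hκi) h1
          rwa [inv_mul_cancel_left₀ (hκ0 i)] at h2
    have hma : m * (∑ v ∈ Finset.range (M + 1), deg v + deg (M + 1)) =
        m * ∑ v ∈ Finset.range (M + 1), deg v + m * deg (M + 1) := Nat.mul_add _ _ _
    rw [hcount, hsum]
    omega

private theorem merge50 [IsAlgClosed Ω] {m e : ℕ} {x : Mon n d → K}
    {par : ℕ → ℕ} {τ p : ℕ → Ω} {c : Fin (n + 1) → Ω} {M : ℕ}
    (hτ : τ (M + 1) ≠ 0) {deg : ℕ → ℕ}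
    {F : ℕ → Fin (n + 1) → Polynomial Ω} {S : ℕ → Finset Ω}
    (h : Hyp50 d (fm (bc Ω x)) e par τ p c (M + 1) deg F S)
    (ih : ∀ deg' F' S', Hyp50 d (fm (bc Ω x)) e par τ p c M deg' F' S' →
      Con50 K m (fm (bc Ω x)) par τ p c M deg' F') :
    Con50 K m (fm (bc Ω x)) par τ p c (M + 1) deg F := by
  have hhom : (fm (bc Ω x)).IsHomogeneous d := fm_hom _
  obtain ⟨u, hu⟩ : ∃ u, u = par (M + 1) := ⟨_, rfl⟩
  have hparN : par (M + 1) < M + 1 := h.lt (M + 1) (by omega) le_rfl
  have huM : u ≤ M := by omega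
  have hF : ∀ v ≤ M + 1, ∀ i, (F v i).natDegree ≤ deg v := fun v hv i => (h.mon v hv i).2.le
  have hvm : ∀ y ≤ M, vw par deg (M + 1) τ p c F y =
      vw par (mdeg par deg M) M τ p c (mF par deg M τ p F) y := by
    intro y hy
    funext i
    exact vw_merge h.lt hF hy i
  have hstep : ∀ i, (vw par deg (M + 1) τ p c F u i).comp (C (p (M + 1)) + C (τ (M + 1)) * X) =
      C (τ (M + 1) ^ sbd par deg (M + 1) (M + 1)) * vw par deg (M + 1) τ p c F (M + 1) i := by
    intro i
    rw [hu]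
    exact vw_step h.lt (by omega) le_rfl i
  have hzy : ∀ y ≤ M, zp par τ p y (M + 1) = zp par τ p y u - C (ww par τ p y u * p (M + 1)) := by
    intro y hy
    rw [hu]
    exact zp_lt (by omega) hparN
  have hwy : ∀ y ≤ M, ww par τ p y (M + 1) = ww par τ p y u * τ (M + 1) := by
    intro y hy
    rw [hu]
    exact ww_lt (by omega) hparN
  have hzv : ∀ v ≤ M, zp par τ p (M + 1) v =
      (zp par τ p u v).comp (C (p (M + 1)) + C (τ (M + 1)) * X) := by
    intro v hv
    rw [hu]
    exact zp_gt (by omega) hparN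
  have hwv : ∀ v ≤ M, ww par τ p (M + 1) v = ww par τ p u v := by
    intro v hv
    rw [hu]
    exact ww_gt (by omega) hparN
  have hmd : ∀ v, mdeg par deg M v = deg v + if v = u then deg (M + 1) else 0 := by
    intro v
    unfold mdeg
    rw [← hu]
    by_cases hv : v = u
    · rw [hv, Function.update_self, if_pos rfl]
    · rw [Function.update_of_ne hv, if_neg hv, add_zero]
  have hmFu : ∀ i, mF par deg M τ p F u i =
      F u i * hev (F (M + 1) i) (deg (M + 1)) (X - C (p (M + 1))) (τ (M + 1)) := by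
    intro i
    unfold mF
    rw [← hu, Function.update_self]
  have hmFv : ∀ v, v ≠ u → mF par deg M τ p F v = F v := by
    intro v hv
    unfold mF
    rw [← hu, Function.update_of_ne hv]
  have hmm : ∀ i, (hev (F (M + 1) i) (deg (M + 1)) (X - C (p (M + 1))) (τ (M + 1))).Monic ∧
      (hev (F (M + 1) i) (deg (M + 1)) (X - C (p (M + 1))) (τ (M + 1))).natDegree =
        deg (M + 1) := fun i =>
    merge_monic (h.mon (M + 1) le_rfl i).1 (h.mon (M + 1) le_rfl i).2 _ _
  have hmon : ∀ v ≤ M, ∀ i, (mF par deg M τ p F v i).Monic ∧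
      (mF par deg M τ p F v i).natDegree = mdeg par deg M v := by
    intro v hv i
    by_cases hvu : v = u
    · rw [hvu, hmFu, hmd, if_pos rfl]
      have h1 := h.mon u (by omega) i
      refine ⟨h1.1.mul (hmm i).1, ?_⟩
      rw [h1.1.natDegree_mul (hmm i).1, h1.2, (hmm i).2]
    · rw [hmFv v hvu, hmd, if_neg hvu, add_zero]
      exact h.mon v (by omega) i
  have hsum : ∑ v ∈ Finset.range (M + 1), mdeg par deg M v =
      ∑ v ∈ Finset.range (M + 1 + 1), deg v := by
    rw [Finset.sum_congr rfl fun v _ => hmd v, Finset.sum_add_distrib,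
      Finset.sum_ite_eq' (Finset.range (M + 1)) u fun _ => deg (M + 1),
      if_pos (Finset.mem_range.2 (by omega)), Finset.sum_range_succ _ (M + 1)]
  -- the points
  obtain ⟨S', hS'⟩ : ∃ S' : ℕ → Finset Ω, S' = Function.update S u
      (S u ∪ (S (M + 1)).image fun t => p (M + 1) + τ (M + 1) * t) := ⟨_, rfl⟩
  have hSu : S' u = S u ∪ (S (M + 1)).image fun t => p (M + 1) + τ (M + 1) * t := by
    rw [hS', Function.update_self]
  have hSv : ∀ v, v ≠ u → S' v = S v := by
    intro v hv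
    rw [hS', Function.update_of_ne hv]
  have hmem : ∀ v t, t ∈ S' v → t ∈ S v ∨ (v = u ∧ ∃ t1 ∈ S (M + 1),
      t = p (M + 1) + τ (M + 1) * t1) := by
    intro v t ht
    by_cases hv : v = u
    · rw [hv, hSu] at ht
      rcases Finset.mem_union.1 ht with ht | ht
      · left
        rw [hv]
        exact ht
      · right
        obtain ⟨t1, ht1, rfl⟩ := Finset.mem_image.1 ht
        exact ⟨hv, t1, ht1, rfl⟩
    · left
      rw [hSv v hv] at ht
      exact ht
  have hcard : ∀ v, (S' v).card = (S v).card + if v = u then d * deg (M + 1) else 0 := by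
    intro v
    by_cases hv : v = u
    · rw [hv, hSu, if_pos rfl, Finset.card_union_of_disjoint, Finset.card_image_of_injective,
        h.card (M + 1) (by omega) le_rfl]
      · intro t t' ht
        have h1 : τ (M + 1) * t = τ (M + 1) * t' := add_left_cancel ht
        exact mul_left_cancel₀ hτ h1
      · rw [Finset.disjoint_left]
        intro t ht ht'
        obtain ⟨t1, ht1, h1⟩ := Finset.mem_image.1 ht'
        have h2 := h.sep u (by omega) (M + 1) le_rfl t ht t1 ht1 (by
          intro h3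
          have h4 := congrArg Prod.fst h3
          change u = M + 1 at h4
          omega)
        rw [hzy u huM, hwy u huM, zp_self, ww_self] at h2
        apply h2
        rw [← h1]
        simp only [Polynomial.eval_sub, Polynomial.eval_X, Polynomial.eval_C]
        ring
    · rw [hSv v hv, if_neg hv, add_zero]
  have hevz : ∀ v ≤ M, ∀ t, (zp par τ p u v).eval (p (M + 1) + τ (M + 1) * t) =
      (zp par τ p (M + 1) v).eval t := by
    intro v hv t
    rw [hzv v hv, Polynomial.eval_comp]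
    simp
  have hih := ih (mdeg par deg M) (mF par deg M τ p F) S'
    { lt := fun v h1 h2 => h.lt v h1 (by omega)
      mon := hmon
      sum := by
        rw [hsum]
        exact h.sum
      card0 := by
        rw [hcard, h.card0, hmd]
        split_ifs
        · rw [mul_add]
          omega
        · simp
      card := by
        intro v h1 h2
        rw [hcard, h.card v h1 (by omega), hmd]
        split_ifs
        · rw [mul_add]
        · simp
      zer := by
        intro v hv t ht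
        rw [← hvm v hv]
        rcases hmem v t ht with ht | ⟨rfl, t1, ht1, rfl⟩
        · exact h.zer v (by omega) t ht
        · have h1 : (fun i => (vw par deg (M + 1) τ p c F v i).eval (p (M + 1) + τ (M + 1) * t1)) =
              fun i => τ (M + 1) ^ sbd par deg (M + 1) (M + 1) *
                (vw par deg (M + 1) τ p c F (M + 1) i).eval t1 := by
            funext i
            have h2 := congrArg (fun q => Polynomial.eval t1 q) (hstep i)
            simp only [Polynomial.eval_comp, Polynomial.eval_add, Polynomial.eval_mul,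
              Polynomial.eval_C, Polynomial.eval_X] at h2
            exact h2
          rw [h1, evalsc50 hhom, h.zer (M + 1) le_rfl t1 ht1, mul_zero]
      sep := by
        intro y hy v hv t ht t' ht' hne
        by_cases hyv : y = v
        · rw [hyv, zp_self, ww_self, Polynomial.eval_X, one_mul]
          exact sub_ne_zero.2 fun h1 => hne (by rw [hyv, h1])
        · rcases hmem y t ht with ht | ⟨hyu, t1, ht1, rfl⟩
          · rcases hmem v t' ht' with ht' | ⟨hvu, t1', ht1', rfl⟩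
            · exact h.sep y (by omega) v (by omega) t ht t' ht' hne
            · have h1 := h.sep y (by omega) (M + 1) le_rfl t ht t1' ht1' (by
                intro h3
                have h4 := congrArg Prod.fst h3
                change y = M + 1 at h4
                omega)
              rw [hzy y hy, hwy y hy, Polynomial.eval_sub, Polynomial.eval_C] at h1
              rw [hvu]
              intro h2
              apply h1
              rw [← h2]
              ring
          · rcases hmem v t' ht' with ht' | ⟨hvu, t1', ht1', rfl⟩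
            · have h1 := h.sep (M + 1) le_rfl v (by omega) t1 ht1 t' ht' (by
                intro h3
                have h4 := congrArg Prod.fst h3
                change M + 1 = v at h4
                omega)
              rw [hyu, hevz v hv, ← hwv v hv]
              exact h1
            · exact absurd (hyu.trans hvu.symm) hyv
      nz := by
        intro y hy1 hy2 v hv hds i
        by_cases hvu : v = u
        · have hpy : par y < y := h.lt y hy1 (by omega)
          rw [hvu] at hds ⊢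
          rw [hmFu, hmd, if_pos rfl, hev_mul (hF u (by omega) i) (hmm i).2.le,
            hev_hev (hF (M + 1) le_rfl i), ← hzy (par y) (by omega), ← hwy (par y) (by omega),
            Polynomial.eval_mul]
          refine mul_ne_zero (h.nz y hy1 (by omega) u (by omega) hds i)
            (h.nz y hy1 (by omega) (M + 1) le_rfl (fun h1 => hds ?_) i)
          rw [hu]
          exact (desc_iff (by omega) hparN).1 h1
        · rw [hmFv v hvu, hmd, if_neg hvu, add_zero]
          exact h.nz y hy1 (by omega) v (by omega) hds i }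
  -- the ranks
  obtain ⟨T, hT⟩ : ∃ T : Finset Ω, T = prm (mdeg par deg M) M τ p c (mF par deg M τ p F) :=
    ⟨_, rfl⟩
  have hmFc : ∀ v ≤ M, ∀ i j, (mF par deg M τ p F v i).coeff j ∈ cl K T := by
    intro v hv i
    refine coeffs_mem50 (hmon v hv i).1 (hmon v hv i).2 fun j hj => subset_cl K _ _ ?_
    rw [hT]
    exact prm_mem50.2 (Or.inr (Or.inr (Or.inr ⟨v, hv, i, j, hj, rfl⟩)))
  have hmFu0 : ∀ i, mF par deg M τ p F u i ≠ 0 := fun i => (hmon u huM i).1.ne_zero
  have hTle : cl K T ≤ cl K (T ∪ {τ (M + 1), p (M + 1)}) := cl_mono K Finset.subset_union_left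
  have hτm : τ (M + 1) ∈ cl K (T ∪ {τ (M + 1), p (M + 1)}) :=
    subset_cl K _ _ (Finset.mem_union_right _ (Finset.mem_insert_self _ _))
  have hpm : p (M + 1) ∈ cl K (T ∪ {τ (M + 1), p (M + 1)}) :=
    subset_cl K _ _ (Finset.mem_union_right _ (Finset.mem_insert_of_mem
      (Finset.mem_singleton_self _)))
  have hFN : ∀ i j, (F (M + 1) i).coeff j ∈ cl K (T ∪ {τ (M + 1), p (M + 1)}) := by
    intro i
    obtain ⟨G, hG⟩ : ∃ G, G = hev (F (M + 1) i) (deg (M + 1)) (X - C (p (M + 1))) (τ (M + 1)) :=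
      ⟨_, rfl⟩
    have h1 : ∀ j, G.coeff j ∈ cl K (T ∪ {τ (M + 1), p (M + 1)}) := by
      intro j
      rw [hG]
      exact hTle (factor_mem_cl (hmm i).1 (hmFu0 i) (by rw [hmFu]; exact Dvd.intro_left _ rfl)
        (hmFc u huM i) j)
    have h2 : G.comp (C (p (M + 1)) + C (τ (M + 1)) * X) =
        C (τ (M + 1) ^ deg (M + 1)) * F (M + 1) i := by
      rw [hG, hev_comp]
      have h3 : (X - C (p (M + 1))).comp (C (p (M + 1)) + C (τ (M + 1)) * X) =
          C (τ (M + 1)) * X := by
        rw [Polynomial.sub_comp, Polynomial.X_comp, Polynomial.C_comp]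
        ring
      have h4 := hev_smul (F (M + 1) i) (deg (M + 1)) (τ (M + 1)) X (1 : Ω)
      rw [mul_one, hev_one (hF (M + 1) le_rfl i)] at h4
      rw [h3, h4]
    have h3 : G.comp (C (p (M + 1)) + C (τ (M + 1)) * X) ∈
        Polynomial.lifts (algebraMap (cl K (T ∪ {τ (M + 1), p (M + 1)})) Ω) := by
      obtain ⟨G0, hG0⟩ := lifts_iff50.2 h1
      have hG0' : G0.map (algebraMap (cl K (T ∪ {τ (M + 1), p (M + 1)})) Ω) = G := hG0
      refine ⟨G0.comp (C ⟨_, hpm⟩ + C ⟨_, hτm⟩ * X), ?_⟩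
      change Polynomial.map _ _ = _
      rw [Polynomial.map_comp, hG0', Polynomial.map_add, Polynomial.map_mul, Polynomial.map_X,
        Polynomial.map_C, Polynomial.map_C]
      rfl
    intro j
    have h4 := lifts_iff50.1 h3 j
    rw [h2, Polynomial.coeff_C_mul] at h4
    have h5 := mul_mem (inv_mem (pow_mem hτm (deg (M + 1)))) h4
    rwa [inv_mul_cancel_left₀ (pow_ne_zero _ hτ)] at h5
  have hprm : rk K (prm deg (M + 1) τ p c F) ≤ rk K T + 2 := by
    have h1 : rk K (prm deg (M + 1) τ p c F) ≤ rk K (T ∪ {τ (M + 1), p (M + 1)}) := by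
      refine rk_le_of_subset_cl K fun y hy => ?_
      rcases prm_mem50.1 hy with ⟨v, hv, rfl⟩ | ⟨v, hv, rfl⟩ | ⟨i, rfl⟩ | ⟨v, hv, i, j, hj, rfl⟩
      · by_cases hv1 : v ≤ M
        · refine hTle (subset_cl K _ _ ?_)
          rw [hT]
          exact prm_mem50.2 (Or.inl ⟨v, ⟨hv.1, hv1⟩, rfl⟩)
        · obtain rfl : v = M + 1 := by omega
          exact hτm
      · by_cases hv1 : v ≤ M
        · refine hTle (subset_cl K _ _ ?_)
          rw [hT]
          exact prm_mem50.2 (Or.inr (Or.inl ⟨v, ⟨hv.1, hv1⟩, rfl⟩))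
        · obtain rfl : v = M + 1 := by omega
          exact hpm
      · refine hTle (subset_cl K _ _ ?_)
        rw [hT]
        exact prm_mem50.2 (Or.inr (Or.inr (Or.inl ⟨i, rfl⟩)))
      · by_cases hv1 : v ≤ M
        · by_cases hvu : v = u
          · rw [hvu]
            exact hTle (factor_mem_cl (h.mon u (by omega) i).1 (hmFu0 i)
              (by rw [hmFu]; exact Dvd.intro _ rfl) (hmFc u huM i) j)
          · have h2 := hmFc v hv1 i j
            rw [hmFv v hvu] at h2
            exact hTle h2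
        · obtain rfl : v = M + 1 := by omega
          exact hFN i j
    have h2 := rk_union_le_card K T {τ (M + 1), p (M + 1)}
    have h3 : ({τ (M + 1), p (M + 1)} : Finset Ω).card ≤ 2 := Finset.card_le_two
    omega
  have hcount : ((Finset.Icc 1 (M + 1)).filter fun v => τ v = 0).card =
      ((Finset.Icc 1 M).filter fun v => τ v = 0).card := by
    have h1 : Finset.Icc 1 (M + 1) = insert (M + 1) (Finset.Icc 1 M) := by
      ext v
      simp only [Finset.mem_Icc, Finset.mem_insert]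
      omega
    rw [h1, Finset.filter_insert, if_neg hτ]
  refine ⟨fun y hy => ?_, ?_, fun hne => ?_⟩
  · rcases Nat.lt_or_ge M y with hy' | hy'
    · obtain rfl : y = M + 1 := by omega
      have h1 := hih.van u huM
      rw [← hvm u huM] at h1
      have h2 := compf50 (fm (bc Ω x)) (vw par deg (M + 1) τ p c F u)
        (C (p (M + 1)) + C (τ (M + 1)) * X)
      rw [h1, Polynomial.zero_comp] at h2
      simp only [hstep] at h2
      rw [aev50 hhom] at h2
      exact (mul_eq_zero.1 h2.symm).resolve_left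
        (pow_ne_zero _ (Polynomial.C_ne_zero.2 (pow_ne_zero _ hτ)))
    · rw [hvm y hy']
      exact hih.van y hy'
  · have hrk := hih.rnk
    rw [← hT, hsum] at hrk
    rw [hcount]
    omega
  · have hrk := hih.smo fun v h1 h2 => hne v h1 (by omega)
    rw [← hT, hsum, ← hvm 0 (Nat.zero_le _)] at hrk
    omega

private theorem all50 [IsAlgClosed Ω] {m e : ℕ} (hd : 1 ≤ d) {x : Mon n d → K} (hx : x ≠ 0)
    (hQ : ∀ e' ≤ e, ∀ a : ℕ → Fin (n + 1) → Ω, a 0 ≠ 0 → Van (bc Ω x) a e' →
      rk K (rga a e') ≤ rk K (rg (a 0)) + m * e')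
    {par : ℕ → ℕ} {τ p : ℕ → Ω} {c : Fin (n + 1) → Ω} (hc : ∀ i, c i ≠ 0) (N : ℕ) :
    ∀ (deg : ℕ → ℕ) (F : ℕ → Fin (n + 1) → Polynomial Ω) (S : ℕ → Finset Ω),
      Hyp50 d (fm (bc Ω x)) e par τ p c N deg F S →
      Con50 K m (fm (bc Ω x)) par τ p c N deg F := by
  induction N with
  | zero =>
    intro deg F S h
    exact base50 hx hQ hc h
  | succ M ih =>
    intro deg F S h
    by_cases hτ : τ (M + 1) = 0
    · exact break50 hd hQ hc hτ h (ih deg F S)
    · exact merge50 hτ h ih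

end main50

theorem tree_main {K : Type*} [Field K] {Ω : Type*} [Field Ω] [Algebra K Ω] [IsAlgClosed Ω]
    [DecidableEq Ω] {n d m e : ℕ} (hd : 1 ≤ d) {x : Mon n d → K} (hx : x ≠ 0)
    (hQ : ∀ e' ≤ e, ∀ a : ℕ → Fin (n + 1) → Ω, a 0 ≠ 0 → Van (bc Ω x) a e' →
      rk K (rga a e') ≤ rk K (rg (a 0)) + m * e')
    (par : ℕ → ℕ) (τ p : ℕ → Ω) (c : Fin (n + 1) → Ω) (hc : ∀ i, c i ≠ 0) (N : ℕ) :
    ∀ (deg : ℕ → ℕ) (F : ℕ → Fin (n + 1) → Polynomial Ω) (S : ℕ → Finset Ω),
    (∀ v, 1 ≤ v → v ≤ N → par v < v) →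
    (∀ v ≤ N, ∀ i, (F v i).Monic ∧ (F v i).natDegree = deg v) →
    ∑ v ∈ Finset.range (N + 1), deg v ≤ e →
    (S 0).card = d * deg 0 + 1 →
    (∀ v, 1 ≤ v → v ≤ N → (S v).card = d * deg v) →
    (∀ v ≤ N, ∀ t ∈ S v,
      MvPolynomial.eval (fun i => (vw par deg N τ p c F v i).eval t) (fm (bc Ω x)) = 0) →
    (∀ y ≤ N, ∀ v ≤ N, ∀ t ∈ S y, ∀ t' ∈ S v, (y, t) ≠ (v, t') →
      (zp par τ p y v).eval t - ww par τ p y v * t' ≠ 0) →
    (∀ y, 1 ≤ y → y ≤ N → ∀ v ≤ N, ¬ desc par y v → ∀ i,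
      (hev (F v i) (deg v) (zp par τ p (par y) v) (ww par τ p (par y) v)).eval (p y) ≠ 0) →
    (∀ y ≤ N, MvPolynomial.aeval (vw par deg N τ p c F y) (fm (bc Ω x)) = 0) ∧
    rk K (prm deg N τ p c F) + ((Finset.Icc 1 N).filter fun v => τ v = 0).card ≤
      2 * N + m * (∑ v ∈ Finset.range (N + 1), deg v) + n ∧
    ((∀ v, 1 ≤ v → v ≤ N → τ v ≠ 0) → rk K (prm deg N τ p c F) ≤
      2 * N + rk K (cfs (∑ v ∈ Finset.range (N + 1), deg v) (vw par deg N τ p c F 0))) := by
  intro deg F S h1 h2 h3 h4 h5 h6 h7 h8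
  have h := all50 hd hx hQ hc N deg F S
    { lt := h1, mon := h2, sum := h3, card0 := h4, card := h5, zer := h6, sep := h7, nz := h8 }
  exact ⟨h.van, h.rnk, h.smo⟩

end Pool.Agent.Helper30.RY
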