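import Mathlib
import Pool.Agent.Helper30.RY.Trm
import Pool.Agent.Helper30.RY.Real

/-!
# Block RY-DMO: the dimension of the moduli space (minus four)

`rpm e α β γ δ G` is the map `G` of degree `e` composed with the Moebius transformation
`T ↦ (α T + β) / (γ T + δ)`, in homogeneous form.  For a polynomial `P` of degree `≤ e` let
`hv P s t = ∑_j P_j s^j t^(e-j)` be its value at the vector `(s, t)`; then
`hv (rpm .. G i) s t = hv (G i) (α s + β t) (γ s + δ t)` (`hv_rpm`), and `rpm` is an action of matrices (`rpm_rpm`: check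
it on monomials, or by `hv` at all `(s, t)`, `Ω` infinite).

* `moduli_ge`: `G` is obtained from `rpm .. G` by the inverse matrix: its coefficients are in `cl` of the coefficients
  of `rpm .. G` and `{α, β, γ, δ}`.
* `moduli_le`: choose `i₁` with `G i₁ ≠ 0` and a vector `P₀ ≠ 0` of `Ω²` with `hv (G i₁) P₀ = 0` (`e ≥ 1`, `Ω`
  algebraically closed: a nonzero binary form of degree `e ≥ 1` has a zero).  The `G i` have no common zero
  (`h0`, `h1`: also not at infinity), so there is `i₂` with `hv (G i₂) P₀ ≠ 0`; let `P_∞ ≠ 0` be a zero of `G i₂`, and `i₃` with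
  `hv (G i₃) P_∞ ≠ 0`.  `P₀`, `P_∞` are linearly independent.  Scale them (`e`-th roots) such that `hv (G i₂) P₀ = 1`,
  `hv (G i₃) P_∞ = 1`, and let the matrix have the columns `P_∞`, `P₀`: `α, γ = P_∞`, `β, δ = P₀`.  `H = rpm .. G` has
  `(H i₁).coeff 0 = 0`, `(H i₂).coeff 0 = 1`, `(H i₂).coeff e = 0`, `(H i₃).coeff e = 1`.
  Claim: `rk (cfs e H) + 4 ≤ m e + n`.  Let `(α', β', γ', δ')` be generic over `cfs e H` (`exists_generic`), so the
  determinant is not zero, and `G' = rpm α' β' γ' δ' H`.  `aeval G' f = 0` (`f` is a form: `f` of the homogeneous tuple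
  vanishes), `G'` has no common zeros, so `(G'_i(0))_i ≠ 0` and `rk (cfs e G') ≤ m e + n`: `curve_rank` for the reversed tuple, or `hQ`
  directly for `a l i = (G' i).coeff l`, and `rk (rg (a 0)) ≤ n` (`zero_le`: `a 0 ≠ 0` is a point of the hypersurface).
  The inverse matrix has columns `Q_∞ u`, `Q₀ v` where `Q₀`, `Q_∞` are zeros of `G' i₁`, `G' i₂` (the images of the points `0`, `∞`
  under the inverse transformation), which can be normalised to have a coordinate `1`, so that their coordinates are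
  algebraic over `cfs e G'`, and `v^e hv (G' i₂) Q₀ = (H i₂).coeff 0 = 1`, `u^e hv (G' i₃) Q_∞ = 1`.  So `u`, `v`, the inverse matrix,
  `α', β', γ', δ'` and the coefficients of `H` are in `cl (cfs e G')`, and
  `rk (cfs e H) + 4 = rk (cfs e H ∪ {α', β', γ', δ'}) ≤ rk (cfs e G') ≤ m e + n`.
-/

namespace Pool.Agent.Helper30.RY

open Polynomial

/-- the map of degree `e` given by `G`, composed with `T ↦ (α T + β) / (γ T + δ)` -/
noncomputable def rpm {Ω : Type*} [Field Ω] {n : ℕ} (e : ℕ) (α β γ δ : Ω)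
    (G : Fin (n + 1) → Polynomial Ω) (i : Fin (n + 1)) : Polynomial Ω :=
  ∑ j ∈ Finset.range (e + 1),
    C ((G i).coeff j) * (C α * X + C β) ^ j * (C γ * X + C δ) ^ (e - j)

section aux82

variable {Ω : Type*} [Field Ω] {n : ℕ}

/-- the value of the form of degree `e` with coefficients those of `P` at the vector `(s, t)` -/
private noncomputable def hv82 (e : ℕ) (P : Polynomial Ω) (s t : Ω) : Ω :=
  ∑ j ∈ Finset.range (e + 1), P.coeff j * s ^ j * t ^ (e - j)

private theorem hv_smul82 (e : ℕ) (P : Polynomial Ω) (c s t : Ω) :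
    hv82 e P (c * s) (c * t) = c ^ e * hv82 e P s t := by
  unfold hv82
  rw [Finset.mul_sum]
  refine Finset.sum_congr rfl fun j hj => ?_
  rw [Finset.mem_range] at hj
  have h1 : c ^ e = c ^ j * c ^ (e - j) := by
    rw [← pow_add]
    congr 1
    omega
  rw [h1, mul_pow, mul_pow]
  ring

private theorem hv_one82 {e : ℕ} {P : Polynomial Ω} (hP : P.natDegree ≤ e) (s : Ω) :
    hv82 e P s 1 = P.eval s := by
  unfold hv82
  rw [Polynomial.eval_eq_sum_range' (Nat.lt_succ_of_le hP)]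
  refine Finset.sum_congr rfl fun j _ => ?_
  rw [one_pow, mul_one]

private theorem hv_div82 {e : ℕ} {P : Polynomial Ω} (hP : P.natDegree ≤ e) (s : Ω) {t : Ω}
    (ht : t ≠ 0) : hv82 e P s t = t ^ e * P.eval (s / t) := by
  rw [← hv_one82 hP, ← hv_smul82, mul_div_cancel₀ _ ht, mul_one]

private theorem hv_zero82 (e : ℕ) (P : Polynomial Ω) (s : Ω) :
    hv82 e P s 0 = P.coeff e * s ^ e := by
  unfold hv82
  rw [Finset.sum_range_succ, Nat.sub_self, pow_zero, mul_one]
  have h1 : ∑ j ∈ Finset.range e, P.coeff j * s ^ j * (0 : Ω) ^ (e - j) = 0 := by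
    refine Finset.sum_eq_zero fun j hj => ?_
    rw [Finset.mem_range] at hj
    rw [zero_pow (by omega), mul_zero]
  rw [h1, zero_add]

private theorem lin_deg82 (a b : Ω) : (C a * X + C b : Polynomial Ω).natDegree ≤ 1 :=
  Polynomial.natDegree_linear_le

private theorem rpm_deg82 (e : ℕ) (α β γ δ : Ω) (G : Fin (n + 1) → Polynomial Ω)
    (i : Fin (n + 1)) : (rpm e α β γ δ G i).natDegree ≤ e := by
  unfold rpm
  refine Polynomial.natDegree_sum_le_of_forall_le _ _ fun j hj => ?_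
  rw [Finset.mem_range] at hj
  have h1 : ((C α * X + C β : Polynomial Ω) ^ j).natDegree ≤ j * 1 :=
    Polynomial.natDegree_pow_le.trans (Nat.mul_le_mul_left _ (lin_deg82 α β))
  have h2 : ((C γ * X + C δ : Polynomial Ω) ^ (e - j)).natDegree ≤ (e - j) * 1 :=
    Polynomial.natDegree_pow_le.trans (Nat.mul_le_mul_left _ (lin_deg82 γ δ))
  rw [mul_assoc]
  refine (Polynomial.natDegree_C_mul_le _ _).trans (Polynomial.natDegree_mul_le.trans ?_)
  omega

private theorem rpm_eval82 (e : ℕ) (α β γ δ : Ω) (G : Fin (n + 1) → Polynomial Ω)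
    (i : Fin (n + 1)) (t : Ω) :
    (rpm e α β γ δ G i).eval t = hv82 e (G i) (α * t + β) (γ * t + δ) := by
  unfold rpm hv82
  rw [Polynomial.eval_finsetSum]
  refine Finset.sum_congr rfl fun j _ => ?_
  simp only [Polynomial.eval_mul, Polynomial.eval_pow, Polynomial.eval_add, Polynomial.eval_C,
    Polynomial.eval_X]

private theorem rpm_top82 (e : ℕ) (α β γ δ : Ω) (G : Fin (n + 1) → Polynomial Ω)
    (i : Fin (n + 1)) : (rpm e α β γ δ G i).coeff e = hv82 e (G i) α γ := by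
  unfold rpm hv82
  rw [Polynomial.finsetSum_coeff]
  refine Finset.sum_congr rfl fun j hj => ?_
  rw [Finset.mem_range] at hj
  have h1 : ((C α * X + C β : Polynomial Ω) ^ j).natDegree ≤ j * 1 :=
    Polynomial.natDegree_pow_le.trans (Nat.mul_le_mul_left _ (lin_deg82 α β))
  have h2 : ((C γ * X + C δ : Polynomial Ω) ^ (e - j)).natDegree ≤ (e - j) * 1 :=
    Polynomial.natDegree_pow_le.trans (Nat.mul_le_mul_left _ (lin_deg82 γ δ))
  have h3 := Polynomial.coeff_mul_add_eq_of_natDegree_le h1 h2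
  have h4 : j * 1 + (e - j) * 1 = e := by omega
  rw [h4, Polynomial.coeff_pow_of_natDegree_le (lin_deg82 α β),
    Polynomial.coeff_pow_of_natDegree_le (lin_deg82 γ δ)] at h3
  have h5 : ∀ a b : Ω, (C a * X + C b : Polynomial Ω).coeff 1 = a := by
    intro a b
    simp [Polynomial.coeff_C]
  rw [h5, h5] at h3
  rw [mul_assoc, Polynomial.coeff_C_mul, h3, mul_assoc]

private theorem rpm_hv82 (e : ℕ) (α β γ δ : Ω) (G : Fin (n + 1) → Polynomial Ω)
    (i : Fin (n + 1)) (s t : Ω) :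
    hv82 e (rpm e α β γ δ G i) s t = hv82 e (G i) (α * s + β * t) (γ * s + δ * t) := by
  by_cases ht : t = 0
  · rw [ht, hv_zero82, rpm_top82, mul_zero, mul_zero, add_zero, add_zero, mul_comm α s,
      mul_comm γ s, hv_smul82, mul_comm]
  · rw [hv_div82 (rpm_deg82 e α β γ δ G i) s ht, rpm_eval82, ← hv_smul82]
    congr 1
    · field_simp
    · field_simp

private theorem rpm_rpm82 [Infinite Ω] (e : ℕ) (α β γ δ α' β' γ' δ' : Ω)
    (G : Fin (n + 1) → Polynomial Ω) :
    rpm e α' β' γ' δ' (rpm e α β γ δ G) =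
      rpm e (α * α' + β * γ') (α * β' + β * δ') (γ * α' + δ * γ') (γ * β' + δ * δ') G := by
  funext i
  refine Polynomial.funext fun t => ?_
  rw [rpm_eval82, rpm_hv82, rpm_eval82]
  congr 1
  · ring
  · ring

private theorem rpm_one82 {e : ℕ} {G : Fin (n + 1) → Polynomial Ω}
    (hG : ∀ i, (G i).natDegree ≤ e) : rpm e 1 0 0 1 G = G := by
  funext i
  unfold rpm
  conv_rhs => rw [Polynomial.as_sum_range' (G i) (e + 1) (Nat.lt_succ_of_le (hG i))]
  refine Finset.sum_congr rfl fun j _ => ?_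
  rw [← Polynomial.C_mul_X_pow_eq_monomial]
  simp

private theorem rpm_inv82 [Infinite Ω] {e : ℕ} {G : Fin (n + 1) → Polynomial Ω}
    (hG : ∀ i, (G i).natDegree ≤ e) {α β γ δ : Ω} (h : α * δ - β * γ ≠ 0) :
    rpm e (δ / (α * δ - β * γ)) (-β / (α * δ - β * γ)) (-γ / (α * δ - β * γ))
      (α / (α * δ - β * γ)) (rpm e α β γ δ G) = G := by
  rw [rpm_rpm82]
  have hI := mul_inv_cancel₀ h
  have h1 : α * (δ / (α * δ - β * γ)) + β * (-γ / (α * δ - β * γ)) = 1 := by
    rw [div_eq_mul_inv, div_eq_mul_inv]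
    linear_combination hI
  have h2 : α * (-β / (α * δ - β * γ)) + β * (α / (α * δ - β * γ)) = 0 := by
    rw [div_eq_mul_inv, div_eq_mul_inv]
    ring
  have h3 : γ * (δ / (α * δ - β * γ)) + δ * (-γ / (α * δ - β * γ)) = 0 := by
    rw [div_eq_mul_inv, div_eq_mul_inv]
    ring
  have h4 : γ * (-β / (α * δ - β * γ)) + δ * (α / (α * δ - β * γ)) = 1 := by
    rw [div_eq_mul_inv, div_eq_mul_inv]
    linear_combination hI
  rw [h1, h2, h3, h4, rpm_one82 hG]

variable {K : Type*} [Field K] [Algebra K Ω]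

private theorem rpm_mem82 (L : IntermediateField K Ω) {e : ℕ} {G : Fin (n + 1) → Polynomial Ω}
    (hG : ∀ i, ∀ j ≤ e, (G i).coeff j ∈ L) {α β γ δ : Ω} (hα : α ∈ L) (hβ : β ∈ L)
    (hγ : γ ∈ L) (hδ : δ ∈ L) (i : Fin (n + 1)) (j : ℕ) :
    (rpm e α β γ δ G i).coeff j ∈ L := by
  have hC : ∀ {c : Ω}, c ∈ L → C c ∈ Polynomial.lifts (algebraMap L Ω) := by
    intro c hc
    exact Polynomial.C'_mem_lifts ⟨⟨c, hc⟩, rfl⟩
  have hX : (X : Polynomial Ω) ∈ Polynomial.lifts (algebraMap L Ω) :=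
    Polynomial.X_mem_lifts (algebraMap L Ω)
  have h1 : rpm e α β γ δ G i ∈ Polynomial.lifts (algebraMap L Ω) := by
    unfold rpm
    refine sum_mem fun k hk => ?_
    rw [Finset.mem_range] at hk
    refine mul_mem (mul_mem (hC (hG i k (by omega))) (pow_mem ?_ _)) (pow_mem ?_ _)
    · exact add_mem (mul_mem (hC hα) hX) (hC hβ)
    · exact add_mem (mul_mem (hC hγ) hX) (hC hδ)
  rw [Polynomial.lifts_iff_coeff_lifts] at h1
  obtain ⟨x, hx⟩ := h1 j
  rw [← hx]
  exact x.2

private theorem cfs_mem82 [DecidableEq Ω] {e : ℕ} {P : Fin (n + 1) → Polynomial Ω} {x : Ω} :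
    x ∈ cfs e P ↔ ∃ i, ∃ l ≤ e, (P i).coeff l = x := by
  unfold cfs
  simp only [Finset.mem_biUnion, Finset.mem_univ, true_and, Finset.mem_image, Finset.mem_range,
    Nat.lt_succ_iff]

end aux82

theorem moduli_ge {K : Type*} [Field K] {Ω : Type*} [Field Ω] [Algebra K Ω] [DecidableEq Ω]
    {n e : ℕ} {G : Fin (n + 1) → Polynomial Ω} (hG : ∀ i, (G i).natDegree ≤ e)
    {α β γ δ : Ω} (h : α * δ - β * γ ≠ 0) :
    rk K (cfs e G) ≤ rk K (cfs e (rpm e α β γ δ G)) + 4 := by
  rcases finite_or_infinite Ω with hfin | hinf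
  · have h1 : rk K (cfs e G) ≤ rk K (∅ : Finset Ω) := by
      refine rk_le_of_subset_cl K fun x _ => ?_
      refine mem_cl_of_isAlgebraic K ?_
      exact (Algebra.IsAlgebraic.of_finite (cl K ∅) Ω).isAlgebraic x
    rw [rk_empty] at h1
    omega
  · have h2 : rk K (cfs e G) ≤
        rk K (cfs e (rpm e α β γ δ G) ∪ {α, β, γ, δ}) := by
      refine rk_le_of_subset_cl K fun x hx => ?_
      obtain ⟨i, l, _, rfl⟩ := cfs_mem82.1 hx
      have hx' : (G i).coeff l = (rpm e (δ / (α * δ - β * γ)) (-β / (α * δ - β * γ))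
          (-γ / (α * δ - β * γ)) (α / (α * δ - β * γ)) (rpm e α β γ δ G) i).coeff l := by
        rw [rpm_inv82 hG h]
      rw [hx']
      have h3 : ∀ y ∈ ({α, β, γ, δ} : Finset Ω),
          y ∈ cl K (cfs e (rpm e α β γ δ G) ∪ {α, β, γ, δ}) := fun y hy =>
        subset_cl K _ _ (Finset.mem_union_right _ hy)
      have hα := h3 α (by simp)
      have hβ := h3 β (by simp)
      have hγ := h3 γ (by simp)
      have hδ := h3 δ (by simp)
      have hD : α * δ - β * γ ∈ cl K (cfs e (rpm e α β γ δ G) ∪ {α, β, γ, δ}) :=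
        sub_mem (mul_mem hα hδ) (mul_mem hβ hγ)
      refine rpm_mem82 _ (fun i j hj => subset_cl K _ _
        (Finset.mem_union_left _ (cfs_mem82.2 ⟨i, j, hj, rfl⟩))) (div_mem hδ hD)
        (div_mem (neg_mem hβ) hD) (div_mem (neg_mem hγ) hD) (div_mem hα hD) i l
    have h4 := rk_union_le_card K (cfs e (rpm e α β γ δ G)) {α, β, γ, δ}
    have h5 : ({α, β, γ, δ} : Finset Ω).card ≤ 4 := Finset.card_le_four
    omega

section main82

variable {Ω : Type*} [Field Ω] {n : ℕ}

private theorem hv_ne82 {e : ℕ} {G : Fin (n + 1) → Polynomial Ω} (hG : ∀ i, (G i).natDegree ≤ e)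
    (h0 : ∀ t, ∃ i, (G i).eval t ≠ 0) (h1 : ∃ i, (G i).coeff e ≠ 0) {s t : Ω}
    (hst : ¬ (s = 0 ∧ t = 0)) : ∃ i, hv82 e (G i) s t ≠ 0 := by
  by_cases ht : t = 0
  · obtain ⟨i, hi⟩ := h1
    refine ⟨i, ?_⟩
    rw [ht, hv_zero82]
    exact mul_ne_zero hi (pow_ne_zero _ fun hs => hst ⟨hs, ht⟩)
  · obtain ⟨i, hi⟩ := h0 (s / t)
    refine ⟨i, ?_⟩
    rw [hv_div82 (hG i) s ht]
    exact mul_ne_zero (pow_ne_zero _ ht) hi

private theorem exists_norm82 [IsAlgClosed Ω] {e : ℕ} (he : 1 ≤ e)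
    {G : Fin (n + 1) → Polynomial Ω} (hG : ∀ i, (G i).natDegree ≤ e)
    (h0 : ∀ t, ∃ i, (G i).eval t ≠ 0) (h1 : ∃ i, (G i).coeff e ≠ 0) (P : Polynomial Ω)
    (hP : P.natDegree ≤ e) : ∃ s t, hv82 e P s t = 0 ∧ ∃ i, hv82 e (G i) s t = 1 := by
  obtain ⟨s, t, hst, hz⟩ : ∃ s t : Ω, ¬ (s = 0 ∧ t = 0) ∧ hv82 e P s t = 0 := by
    by_cases hc : P.coeff e = 0
    · refine ⟨1, 0, fun h => one_ne_zero h.1, ?_⟩
      rw [hv_zero82, hc, zero_mul]
    · have hd : e ≤ P.natDegree := Polynomial.le_natDegree_of_ne_zero hc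
      have hd2 : P.degree ≠ 0 := by
        intro h
        have h2 := Polynomial.natDegree_eq_zero_iff_degree_le_zero.2 h.le
        omega
      obtain ⟨r, hr⟩ := IsAlgClosed.exists_root P hd2
      refine ⟨r, 1, fun h => one_ne_zero h.2, ?_⟩
      rw [hv_one82 hP]
      exact hr
  obtain ⟨i, hi⟩ := hv_ne82 hG h0 h1 hst
  obtain ⟨c, hc⟩ := IsAlgClosed.exists_pow_nat_eq (hv82 e (G i) s t)⁻¹ (n := e) (by omega)
  refine ⟨c * s, c * t, ?_, i, ?_⟩
  · rw [hv_smul82, hz, mul_zero]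
  · rw [hv_smul82, hc, inv_mul_cancel₀ hi]

private theorem hv_zz82 {e : ℕ} (he : 1 ≤ e) (P : Polynomial Ω) : hv82 e P 0 0 = 0 := by
  rw [hv_zero82, zero_pow (by omega), mul_zero]

private theorem det_ne82 {e : ℕ} (he : 1 ≤ e) {P Q : Polynomial Ω} {α β γ δ : Ω}
    (h1 : hv82 e P α γ = 0) (h2 : hv82 e P β δ = 1) (h3 : hv82 e Q α γ = 1) :
    α * δ - β * γ ≠ 0 := by
  intro h
  have h4 : α * δ = β * γ := sub_eq_zero.1 h
  by_cases hα : α = 0
  · have hγ : γ ≠ 0 := by
      rintro rfl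
      rw [hα, hv_zz82 he] at h3
      exact zero_ne_one h3
    have h5 : β = (δ / γ) * α := by
      field_simp
      linear_combination -h4
    have h6 : δ = (δ / γ) * γ := by field_simp
    have h7 : hv82 e P ((δ / γ) * α) ((δ / γ) * γ) = 1 := by
      rw [← h6, ← h5]
      exact h2
    rw [hv_smul82, h1, mul_zero] at h7
    exact zero_ne_one h7
  · have h5 : δ = (β / α) * γ := by
      field_simp
      linear_combination h4
    have h6 : β = (β / α) * α := by field_simp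
    have h7 : hv82 e P ((β / α) * α) ((β / α) * γ) = 1 := by
      rw [← h6, ← h5]
      exact h2
    rw [hv_smul82, h1, mul_zero] at h7
    exact zero_ne_one h7

variable {K : Type*} [Field K] [Algebra K Ω]

private theorem mem82 {e : ℕ} (he : 1 ≤ e) (S : Finset Ω) {P Q : Polynomial Ω}
    (hP : P.natDegree ≤ e) (hQ : Q.natDegree ≤ e) (hP0 : P ≠ 0)
    (hPc : ∀ j ≤ e, P.coeff j ∈ cl K S) (hQc : ∀ j ≤ e, Q.coeff j ∈ cl K S) {s t : Ω}
    (h1 : hv82 e P s t = 0) (h2 : hv82 e Q s t = 1) : s ∈ cl K S ∧ t ∈ cl K S := by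
  have hPc' : ∀ j, P.coeff j ∈ cl K S := by
    intro j
    by_cases hj : j ≤ e
    · exact hPc j hj
    · rw [Polynomial.coeff_eq_zero_of_natDegree_lt (by omega)]
      exact zero_mem _
  by_cases ht : t = 0
  · rw [ht, hv_zero82] at h2
    refine ⟨mem_cl_of_pow_mem K (e := e) (by omega) ?_, ht ▸ zero_mem _⟩
    have h3 : s ^ e = (Q.coeff e)⁻¹ := eq_inv_of_mul_eq_one_right h2
    rw [h3]
    exact inv_mem (hQc e le_rfl)
  · rw [hv_div82 hP s ht] at h1
    rw [hv_div82 hQ s ht] at h2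
    have h3 : P.eval (s / t) = 0 := by
      rcases mul_eq_zero.1 h1 with h | h
      · exact absurd h (pow_ne_zero _ ht)
      · exact h
    have h4 : s / t ∈ cl K S := mem_cl_of_root K P hP0 hPc' h3
    have h5 : Q.eval (s / t) ∈ cl K S := by
      rw [Polynomial.eval_eq_sum_range' (Nat.lt_succ_of_le hQ)]
      refine sum_mem fun j hj => ?_
      rw [Finset.mem_range] at hj
      exact mul_mem (hQc j (by omega)) (pow_mem h4 _)
    have h6 : t ^ e ∈ cl K S := by
      rw [eq_inv_of_mul_eq_one_left h2]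
      exact inv_mem h5
    have h7 : t ∈ cl K S := mem_cl_of_pow_mem K (e := e) (by omega) h6
    refine ⟨?_, h7⟩
    have h8 : s = s / t * t := by field_simp
    rw [h8]
    exact mul_mem h4 h7

private theorem evpt82 (f : MvPolynomial (Fin (n + 1)) Ω) (P : Fin (n + 1) → Polynomial Ω)
    (t : Ω) :
    (MvPolynomial.aeval P f).eval t = MvPolynomial.eval (fun i => (P i).eval t) f := by
  have h1 := MvPolynomial.comp_aeval_apply (f := P) (Polynomial.aeval t : Polynomial Ω →ₐ[Ω] Ω) f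
  rw [← MvPolynomial.coe_aeval_eq_eval]
  simpa [Polynomial.coe_aeval_eq_eval] using h1

private theorem evalsc82 {q : ℕ} {f : MvPolynomial (Fin (n + 1)) Ω} (hf : f.IsHomogeneous q)
    (s : Ω) (v : Fin (n + 1) → Ω) :
    MvPolynomial.eval (fun i => s * v i) f = s ^ q * MvPolynomial.eval v f := by
  rw [MvPolynomial.eval_eq', MvPolynomial.eval_eq', Finset.mul_sum]
  refine Finset.sum_congr rfl fun μ hμ => ?_
  have h3 : ∑ i, μ i = q := by
    have h3 : μ.degree = q := by
      by_contra hcon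
      exact (MvPolynomial.mem_support_iff.mp hμ) (hf.coeff_eq_zero hcon)
    rw [← h3, Finsupp.degree_eq_sum]
  have h4 : ∏ i, (s * v i) ^ μ i = s ^ q * ∏ i, v i ^ μ i := by
    rw [← h3, ← Finset.prod_pow_eq_pow_sum, ← Finset.prod_mul_distrib]
    exact Finset.prod_congr rfl fun i _ => mul_pow _ _ _
  rw [h4]
  ring

private theorem rpm_van82 [Infinite Ω] {e q : ℕ} {G : Fin (n + 1) → Polynomial Ω}
    (hG : ∀ i, (G i).natDegree ≤ e) {α β γ δ : Ω} (h : α * δ - β * γ ≠ 0)
    {f : MvPolynomial (Fin (n + 1)) Ω} (hf : f.IsHomogeneous q)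
    (hV : MvPolynomial.aeval G f = 0) : MvPolynomial.aeval (rpm e α β γ δ G) f = 0 := by
  have hL : (C γ * X + C δ : Polynomial Ω) ≠ 0 := by
    intro h1
    have h2 := congrArg (fun p : Polynomial Ω => p.coeff 0) h1
    have h3 := congrArg (fun p : Polynomial Ω => p.coeff 1) h1
    simp [Polynomial.coeff_C] at h2 h3
    rw [h2, h3] at h
    simp at h
  have h1 : MvPolynomial.aeval (rpm e α β γ δ G) f * (C γ * X + C δ) = 0 := by
    refine Polynomial.funext fun t => ?_
    rw [Polynomial.eval_mul, evpt82, Polynomial.eval_zero]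
    simp only [Polynomial.eval_mul, Polynomial.eval_add, Polynomial.eval_C, Polynomial.eval_X]
    by_cases ht : γ * t + δ = 0
    · rw [ht, mul_zero]
    · have h2 : (fun i => (rpm e α β γ δ G i).eval t) =
          fun i => (γ * t + δ) ^ e * (G i).eval ((α * t + β) / (γ * t + δ)) := by
        funext i
        rw [rpm_eval82, hv_div82 (hG i) _ ht]
      rw [h2, evalsc82 hf, ← evpt82, hV, Polynomial.eval_zero, mul_zero, zero_mul]
  rcases mul_eq_zero.1 h1 with h2 | h2
  · exact h2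
  · exact absurd h2 hL

end main82

theorem moduli_le {K : Type*} [Field K] {Ω : Type*} [Field Ω] [Algebra K Ω] [IsAlgClosed Ω]
    [DecidableEq Ω] (hb : Big K Ω) {n d m e : ℕ} (he : 1 ≤ e) {x : Mon n d → K} (hx : x ≠ 0)
    (hQ : ∀ a : ℕ → Fin (n + 1) → Ω, a 0 ≠ 0 → Van (bc Ω x) a e →
      rk K (rga a e) ≤ rk K (rg (a 0)) + m * e)
    {G : Fin (n + 1) → Polynomial Ω} (hG : ∀ i, (G i).natDegree ≤ e)
    (h0 : ∀ t, ∃ i, (G i).eval t ≠ 0) (h1 : ∃ i, (G i).coeff e ≠ 0)
    (hV : MvPolynomial.aeval G (fm (bc Ω x)) = 0) :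
    ∃ α β γ δ : Ω, α * δ - β * γ ≠ 0 ∧ rk K (cfs e (rpm e α β γ δ G)) + 4 ≤ m * e + n := by
  have hinf : Infinite Ω := IsAlgClosed.instInfinite
  obtain ⟨i₁, hi₁⟩ := h1
  obtain ⟨β, δ, hβδ1, i₂, hβδ2⟩ := exists_norm82 he hG h0 ⟨i₁, hi₁⟩ (G i₁) (hG i₁)
  obtain ⟨α, γ, hαγ1, i₃, hαγ2⟩ := exists_norm82 he hG h0 ⟨i₁, hi₁⟩ (G i₂) (hG i₂)
  have hD : α * δ - β * γ ≠ 0 := det_ne82 he hαγ1 hβδ2 hαγ2
  refine ⟨α, β, γ, δ, hD, ?_⟩
  set H := rpm e α β γ δ G with hH
  have hHd : ∀ i, (H i).natDegree ≤ e := fun i => rpm_deg82 e α β γ δ G i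
  obtain ⟨t, ht⟩ := exists_generic K hb (cfs e H) (Fin 4)
  rw [Fintype.card_fin] at ht
  have hD' : t 0 * t 3 - t 1 * t 2 ≠ 0 := by
    intro h
    have hind := algInd_of_generic (K := K) (s := cfs e H) (t := t) (by
      rw [Fintype.card_fin]
      exact ht)
    have h2 := algebraicIndependent_iff.1 hind
      (MvPolynomial.X 0 * MvPolynomial.X 3 - MvPolynomial.X 1 * MvPolynomial.X 2) (by
        simp only [map_sub, map_mul, MvPolynomial.aeval_X]
        exact h)
    have h3 := congrArg (MvPolynomial.eval (![1, 0, 0, 1] : Fin 4 → cl K (cfs e H))) h2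
    simp at h3
  set H' := rpm e (t 0) (t 1) (t 2) (t 3) H with hH'
  have hH'd : ∀ i, (H' i).natDegree ≤ e := fun i => rpm_deg82 e _ _ _ _ H i
  have hcomp : H' = rpm e (α * t 0 + β * t 2) (α * t 1 + β * t 3) (γ * t 0 + δ * t 2)
      (γ * t 1 + δ * t 3) G := by
    rw [hH', hH, rpm_rpm82]
  have hD'' : (α * t 0 + β * t 2) * (γ * t 1 + δ * t 3) -
      (α * t 1 + β * t 3) * (γ * t 0 + δ * t 2) ≠ 0 := by
    have h2 : (α * t 0 + β * t 2) * (γ * t 1 + δ * t 3) -
      (α * t 1 + β * t 3) * (γ * t 0 + δ * t 2) =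
        (α * δ - β * γ) * (t 0 * t 3 - t 1 * t 2) := by ring
    rw [h2]
    exact mul_ne_zero hD hD'
  have hV' : MvPolynomial.aeval H' (fm (bc Ω x)) = 0 := by
    rw [hcomp]
    exact rpm_van82 hG hD'' (fm_hom _) hV
  -- the rank of the coefficients of `H'`
  have hrk : rk K (cfs e H') ≤ m * e + n := by
    have h2 : cv (fun l i => (H' i).coeff l) e = H' := by
      funext i
      unfold cv
      have h2 := Polynomial.as_sum_range' (H' i) (e + 1) (Nat.lt_succ_of_le (hH'd i))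
      conv_rhs => rw [h2]
      refine Finset.sum_congr rfl fun l _ => ?_
      rw [Polynomial.C_mul_X_pow_eq_monomial]
    have h3 : Van (bc Ω x) (fun l i => (H' i).coeff l) e := by
      unfold Van Vanp
      rw [h2]
      exact hV'
    have h4 : ∃ i, (H' i).coeff 0 ≠ 0 := by
      have h5 : ¬ (α * t 1 + β * t 3 = 0 ∧ γ * t 1 + δ * t 3 = 0) := by
        rintro ⟨h5, h6⟩
        rw [h5, h6] at hD''
        simp at hD''
      obtain ⟨i, hi⟩ := hv_ne82 hG h0 ⟨i₁, hi₁⟩ h5
      refine ⟨i, ?_⟩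
      rw [Polynomial.coeff_zero_eq_eval_zero, hcomp, rpm_eval82, mul_zero, mul_zero, zero_add,
        zero_add]
      exact hi
    have h5 : (fun i => (H' i).coeff 0) ≠ 0 := by
      obtain ⟨i, hi⟩ := h4
      exact fun h => hi (congrFun h i)
    have h6 := hQ (fun l i => (H' i).coeff l) h5 h3
    have h7 : rga (fun l i => (H' i).coeff l) e = cfs e H' := by
      ext y
      rw [cfs_mem82]
      unfold rga rg
      simp only [Finset.mem_biUnion, Finset.mem_univ, true_and, Finset.mem_image, Finset.mem_range,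
        Nat.lt_succ_iff]
      constructor
      · rintro ⟨l, hl, i, rfl⟩
        exact ⟨i, l, hl, rfl⟩
      · rintro ⟨i, l, hl, rfl⟩
        exact ⟨l, hl, i, rfl⟩
    rw [h7] at h6
    have h8 : MvPolynomial.eval (fun i => (H' i).coeff 0) (fm (bc Ω x)) = 0 := by
      have h9 := evpt82 (fm (bc Ω x)) H' 0
      rw [hV', Polynomial.eval_zero] at h9
      rw [h9]
      congr 2
      funext i
      exact Polynomial.coeff_zero_eq_eval_zero _
    have h10 : rk K (rg fun i => (H' i).coeff 0) ≤ n := by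
      have h11 : bc Ω x ≠ 0 := by
        intro h
        apply hx
        funext μ
        exact (map_eq_zero (algebraMap K Ω)).1 (congrFun h μ)
      have h12 := zero_le (K := K) h11 (S := rg (bc Ω x)) (Finset.Subset.refl _) h8
      have h13 : rk K (rg (bc Ω x)) ≤ rk K (∅ : Finset Ω) := by
        refine rk_le_of_subset_cl K fun y hy => ?_
        unfold rg at hy
        obtain ⟨μ, _, rfl⟩ := Finset.mem_image.1 hy
        exact (cl K ∅).algebraMap_mem _
      rw [rk_empty] at h13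
      have h14 : rk K (rg fun i => (H' i).coeff 0) ≤
          rk K (rg (bc Ω x) ∪ rg fun i => (H' i).coeff 0) :=
        rk_mono K Finset.subset_union_right
      omega
    omega
  -- the entries of the inverse matrix are algebraic over the coefficients of `H'`
  have hinv : rpm e (t 3 / (t 0 * t 3 - t 1 * t 2)) (-t 1 / (t 0 * t 3 - t 1 * t 2))
      (-t 2 / (t 0 * t 3 - t 1 * t 2)) (t 0 / (t 0 * t 3 - t 1 * t 2)) H' = H := by
    rw [hH']
    exact rpm_inv82 hHd hD'
  have hcoef : ∀ i, ∀ j ≤ e, (H' i).coeff j ∈ cl K (cfs e H') := fun i j hj =>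
    subset_cl K _ _ (cfs_mem82.2 ⟨i, j, hj, rfl⟩)
  have hval0 : ∀ i, hv82 e (H' i) (-t 1 / (t 0 * t 3 - t 1 * t 2))
      (t 0 / (t 0 * t 3 - t 1 * t 2)) = hv82 e (G i) β δ := by
    intro i
    rw [hH', rpm_hv82, hH, rpm_hv82]
    congr 1
    · field_simp
      ring
    · field_simp
      ring
  have hval1 : ∀ i, hv82 e (H' i) (t 3 / (t 0 * t 3 - t 1 * t 2))
      (-t 2 / (t 0 * t 3 - t 1 * t 2)) = hv82 e (G i) α γ := by
    intro i
    rw [hH', rpm_hv82, hH, rpm_hv82]
    congr 1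
    · field_simp
      ring
    · field_simp
      ring
  have hne1 : H' i₁ ≠ 0 := by
    intro h
    have h2 := congrFun (rpm_inv82 hG hD'') i₁
    rw [← hcomp] at h2
    have h3 : G i₁ = 0 := by
      rw [← h2]
      unfold rpm
      refine Finset.sum_eq_zero fun j _ => ?_
      rw [h]
      simp
    rw [h3] at hi₁
    simp at hi₁
  have hne2 : H' i₂ ≠ 0 := by
    intro h
    have h2 := hval0 i₂
    rw [hβδ2, h] at h2
    unfold hv82 at h2
    simp at h2
  obtain ⟨m2, m4⟩ := mem82 (K := K) he (cfs e H') (hH'd i₁) (hH'd i₂) hne1 (hcoef i₁) (hcoef i₂)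
    ((hval0 i₁).trans hβδ1) ((hval0 i₂).trans hβδ2)
  obtain ⟨m1, m3⟩ := mem82 (K := K) he (cfs e H') (hH'd i₂) (hH'd i₃) hne2 (hcoef i₂) (hcoef i₃)
    ((hval1 i₂).trans hαγ1) ((hval1 i₃).trans hαγ2)
  have mD : t 0 * t 3 - t 1 * t 2 ∈ cl K (cfs e H') := by
    have h2 : t 0 * t 3 - t 1 * t 2 = ((t 3 / (t 0 * t 3 - t 1 * t 2)) *
        (t 0 / (t 0 * t 3 - t 1 * t 2)) - (-t 1 / (t 0 * t 3 - t 1 * t 2)) *
        (-t 2 / (t 0 * t 3 - t 1 * t 2)))⁻¹ := by
      refine eq_inv_of_mul_eq_one_left ?_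
      have hI := mul_inv_cancel₀ hD'
      simp only [div_eq_mul_inv]
      linear_combination ((t 0 * t 3 - t 1 * t 2) * (t 0 * t 3 - t 1 * t 2)⁻¹ + 1) * hI
    rw [h2]
    exact inv_mem (sub_mem (mul_mem m1 m4) (mul_mem m2 m3))
  have hback : ∀ y : Ω, y / (t 0 * t 3 - t 1 * t 2) ∈ cl K (cfs e H') → y ∈ cl K (cfs e H') := by
    intro y hy
    have h2 := mul_mem hy mD
    rwa [div_mul_cancel₀ _ hD'] at h2
  have mt : ∀ k, t k ∈ cl K (cfs e H') := by
    intro k
    fin_cases k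
    · exact hback _ m4
    · have h2 := neg_mem (hback _ m2)
      rwa [neg_neg] at h2
    · have h2 := neg_mem (hback _ m3)
      rwa [neg_neg] at h2
    · exact hback _ m1
  have hfin : rk K (cfs e H ∪ rg t) ≤ rk K (cfs e H') := by
    refine rk_le_of_subset_cl K fun y hy => ?_
    rcases Finset.mem_union.1 hy with hy | hy
    · obtain ⟨i, l, _, rfl⟩ := cfs_mem82.1 hy
      rw [← hinv]
      exact rpm_mem82 _ hcoef m1 m2 m3 m4 i l
    · unfold rg at hy
      obtain ⟨k, _, rfl⟩ := Finset.mem_image.1 hy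
      exact mt k
  omega

open scoped IntermediateField.algebraAdjoinAdjoin in
theorem rk_trdeg {K : Type*} [Field K] {Ω : Type*} [Field Ω] [Algebra K Ω] (s : Finset Ω) :
    Algebra.trdeg K (IntermediateField.adjoin K (s : Set Ω)) = (rk K s : ℕ) := by
  classical
  have h1 := rk_eq_trdeg (K := K) (R := Algebra.adjoin K (s : Set Ω))
    (Algebra.adjoin K (s : Set Ω)).val Subtype.val_injective
    (fun j : s => (⟨(j : Ω), Algebra.subset_adjoin j.2⟩ : Algebra.adjoin K (s : Set Ω))) (by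
      have h0 := Algebra.adjoin_adjoin_coe_preimage (R := K) (s := (s : Set Ω))
      rw [← h0]
      congr 1
      ext y
      constructor
      · rintro ⟨j, rfl⟩
        exact j.2
      · intro hy
        exact ⟨⟨(y : Ω), hy⟩, rfl⟩)
  have h2 : (rg fun j : s => (Algebra.adjoin K (s : Set Ω)).val
      (⟨(j : Ω), Algebra.subset_adjoin j.2⟩ : Algebra.adjoin K (s : Set Ω))) = s := by
    ext y
    simp [rg]
  rw [h2, Cardinal.lift_uzero] at h1
  rw [← h1]
  have h4 := trdeg_add_eq K (Algebra.adjoin K (s : Set Ω))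
    (A := IntermediateField.adjoin K (s : Set Ω))
  rw [trdeg_eq_zero (R := Algebra.adjoin K (s : Set Ω))
    (A := IntermediateField.adjoin K (s : Set Ω)), add_zero] at h4
  exact h4.symm

end Pool.Agent.Helper30.RY
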