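import Mathlib
import Pool.Agent.Helper30.RY.Fbr

/-!
# Block RY-FB2: bend and break in a family, general version

This is `fam_break` (file `Fbr.lean`) with the base point `e₀` replaced by an arbitrary nonzero point `x` with
coordinates in `K`, and the predicate `NL K m E g ∧ g (m0 n d) = 0` replaced by an arbitrary predicate `G` with
the properties needed for `lam_avoid`.  The proof is the same, word by word: use `x` (mapped to
`IntermediateField.adjoin K T`) instead of `Pi.single 0 1` in `bend_break`; `¬ G c'` follows from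
`lam_avoid` for `G`.  (Copy the proof of `fam_break`, with `σ` given instead of `N - κ - 1`.)
-/

namespace Pool.Agent.Helper30.RY

open MvPolynomial

set_option linter.unusedSectionVars false

variable {K : Type*} [Field K] {Ω : Type*} [Field Ω] [Algebra K Ω] [IsAlgClosed Ω]
  [DecidableEq Ω] {n d : ℕ}

omit [IsAlgClosed Ω] in
private theorem wt_mem56 {P : Finset Ω} {τ : ℕ → Ω} {e : ℕ} (hP : rgt τ e ⊆ P) (l : ℕ) :
    wt e τ l ∈ cl K P := by
  unfold wt
  refine prod_mem fun i hi => pow_mem (subset_cl K P _ (hP ?_)) _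
  exact Finset.mem_image_of_mem τ hi

omit [IsAlgClosed Ω] [Algebra K Ω] [DecidableEq Ω] in
private theorem wt_ne56 {τ : ℕ → Ω} {e : ℕ} (h : ∀ i, 1 ≤ i → i < e → τ i ≠ 0) (l : ℕ) :
    wt e τ l ≠ 0 := by
  unfold wt
  refine Finset.prod_ne_zero_iff.2 fun i hi => pow_ne_zero _ ?_
  exact h i (Finset.mem_Ico.1 hi).1 (Finset.mem_Ico.1 hi).2

omit [IsAlgClosed Ω] [Algebra K Ω] in
private theorem mem_rga56 (a : ℕ → Fin (n + 1) → Ω) {e l : ℕ} (hl : l ≤ e) (i : Fin (n + 1)) :
    a l i ∈ rga a e := by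
  unfold rga rg
  rw [Finset.mem_biUnion]
  exact ⟨l, Finset.mem_range.2 (Nat.lt_succ_of_le hl), Finset.mem_image_of_mem _ (Finset.mem_univ i)⟩

omit [IsAlgClosed Ω] [Algebra K Ω] in
private theorem rga_cases56 {a : ℕ → Fin (n + 1) → Ω} {e : ℕ} {x : Ω} (h : x ∈ rga a e) :
    ∃ l ≤ e, ∃ i, x = a l i := by
  unfold rga rg at h
  rw [Finset.mem_biUnion] at h
  obtain ⟨l, hl, h⟩ := h
  rw [Finset.mem_image] at h
  obtain ⟨i, _, rfl⟩ := h
  exact ⟨l, Nat.le_of_lt_succ (Finset.mem_range.1 hl), i, rfl⟩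

omit [IsAlgClosed Ω] [Algebra K Ω] in
private theorem card_rgl56 {ι : Type*} [Fintype ι] {σ : ℕ} (lam : Fin σ → ι → Ω) :
    (rgl lam).card ≤ σ * Fintype.card ι := by
  unfold rgl
  refine Finset.card_biUnion_le.trans ?_
  refine (Finset.sum_le_card_nsmul _ _ (Fintype.card ι) fun i _ => ?_).trans ?_
  · exact Finset.card_image_le
  · simp

/-- the coefficients of the curve are algebraic over the fine coordinates -/
private theorem curve_mem56 {P : Finset Ω} {τ : ℕ → Ω} {e : ℕ} (he : 0 < e)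
    {a b : ℕ → Fin (n + 1) → Ω} {θ : Ω} (hθ : θ ≠ 0) {j : Fin (n + 1)} (haj : a e j = 1)
    (hab : ∀ l ≤ e, ∀ i, θ ^ l * a l i = wt e τ l * b l i) (hP : rgt τ e ⊆ P)
    (hP' : rga b e ⊆ P) : ∀ x ∈ rga a e, x ∈ cl K P := by
  have hb : ∀ l ≤ e, ∀ i, wt e τ l * b l i ∈ cl K P := fun l hl i =>
    mul_mem (wt_mem56 hP l) (subset_cl K P _ (hP' (mem_rga56 b hl i)))
  have hθ' : θ ∈ cl K P := by
    refine mem_cl_of_pow_mem K he ?_
    have h1 := hab e le_rfl j
    rw [haj, mul_one] at h1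
    rw [h1]
    exact hb e le_rfl j
  intro x hx
  obtain ⟨l, hl, i, rfl⟩ := rga_cases56 hx
  have h1 : a l i = (θ ^ l)⁻¹ * (wt e τ l * b l i) := by
    rw [← hab l hl i, inv_mul_cancel_left₀ (pow_ne_zero l hθ)]
  rw [h1]
  exact mul_mem (inv_mem (pow_mem hθ' l)) (hb l hl i)

/-- the fine coordinates are algebraic over the curve, `θ` and the `τ i` -/
private theorem fine_mem56 {X : Finset Ω} {τ : ℕ → Ω} {e : ℕ}
    {a b : ℕ → Fin (n + 1) → Ω} {θ : Ω} (hτ : ∀ i, 1 ≤ i → i < e → τ i ≠ 0)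
    (hab : ∀ l ≤ e, ∀ i, θ ^ l * a l i = wt e τ l * b l i) (hX : rga a e ⊆ X) :
    ∀ x ∈ rga b e, x ∈ cl K (X ∪ insert θ (rgt τ e)) := by
  intro x hx
  obtain ⟨l, hl, i, rfl⟩ := rga_cases56 hx
  have h1 : b l i = (wt e τ l)⁻¹ * (θ ^ l * a l i) := by
    rw [hab l hl i, inv_mul_cancel_left₀ (wt_ne56 hτ l)]
  rw [h1]
  refine mul_mem (inv_mem (wt_mem56 ?_ l)) (mul_mem (pow_mem (subset_cl K _ _ ?_) l)
    (subset_cl K _ _ ?_))
  · exact (Finset.subset_insert _ _).trans Finset.subset_union_right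
  · exact Finset.mem_union_right _ (Finset.mem_insert_self _ _)
  · exact Finset.mem_union_left _ (hX (mem_rga56 a hl i))

theorem fam_break' (hb : Big K Ω) {E σ : ℕ} (hN1 : 1 ≤ Fintype.card (Mon n d))
    (G : (Mon n d → Ω) → Prop) (hG : ∀ g, G g → ∀ t : Ω, t ≠ 0 → G fun m => t * g m)
    (hG1 : ∀ g, G g → g ≠ 0 → rk K (rg g) ≤ σ) (c : Mon n d → Ω) (hGc : ¬ G c)
    (x : Fin (n + 1) → K) (hx : x ≠ 0) (a : ℕ → Fin (n + 1) → Ω)
    (ha0 : a 0 = fun i => algebraMap K Ω (x i)) (j : Fin (n + 1)) (haj : a (E + 1) j = 1)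
    (hV : Van c a (E + 1)) (α₀ : Mon n d) (hα₀ : c α₀ ≠ 0)
    (hA : rk K (rg (a (E + 1))) + σ < rk K (rg (fun m => c m / c α₀) ∪ rga a (E + 1)))
    (hNC : rk K (rg (a (E + 1))) < rk K (rga a (E + 1))) :
    ∃ (α : Mon n d) (θ : Ω) (τ : ℕ → Ω) (b : ℕ → Fin (n + 1) → Ω) (c' : Mon n d → Ω)
      (τ' : ℕ → Ω) (a' : ℕ → Fin (n + 1) → Ω) (η : Ω),
      c α ≠ 0 ∧ θ ≠ 0 ∧ (∀ i, 1 ≤ i → i < E + 1 → τ i ≠ 0) ∧
      (∀ l ≤ E + 1, ∀ i, θ ^ l * a l i = wt (E + 1) τ l * b l i) ∧
      Spc K (pt (fun m => c m / c α) τ b (E + 1)) (pt c' τ' a' (E + 1)) ∧ c' α = 1 ∧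
      ¬ G c' ∧ (brk τ' (E + 1)).Nonempty ∧ FCp (fm c') τ' a' (E + 1) ∧ Nod τ' a' (E + 1) ∧
      (a' 0 = fun i => algebraMap K Ω (x i)) ∧ η ≠ 0 ∧
      (a' (E + 1) = fun i => η * a (E + 1) i) ∧
      rk K (rg (fun m => c m / c α) ∪ rga a (E + 1)) + (E + 1) ≤
        rk K (rg (fun m => c m / c α) ∪ rgt τ (E + 1) ∪ rga b (E + 1)) ∧
      rk K (rg (fun m => c m / c α) ∪ rgt τ (E + 1) ∪ rga b (E + 1)) ≤
        rk K (rg c' ∪ rgt τ' (E + 1) ∪ rga a' (E + 1)) + (brk τ' (E + 1)).card := by
  classical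
  have hc : c ≠ 0 := fun h => hα₀ (by rw [h]; rfl)
  obtain ⟨lam, hl0, hl⟩ := exists_lam hb (rga a (E + 1)) c hc σ
  obtain ⟨T, hT⟩ : ∃ T, T = rg (a (E + 1)) ∪ rgl lam := ⟨_, rfl⟩
  have hσN : σ * Fintype.card (Mon n d) = σ * (Fintype.card (Mon n d) - 1) + σ := by
    obtain ⟨N, hN⟩ := Nat.exists_eq_add_of_le hN1
    rw [hN, Nat.add_sub_cancel_left]
    ring
  -- the curve moves
  have hna : ∃ l ≤ E + 1, ∃ i,
      a l i ∉ cl (IntermediateField.adjoin K (T : Set Ω)) (∅ : Finset Ω) := by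
    by_contra hcon
    push Not at hcon
    have h1 : ∀ x ∈ rga a (E + 1) ∪ rgl lam, x ∈ cl K T := by
      intro x hx
      rcases Finset.mem_union.1 hx with hx | hx
      · obtain ⟨l, hl', i, rfl⟩ := rga_cases56 hx
        have h2 := (mem_cl_adjoin K T ∅ _).1 (hcon l hl' i)
        rwa [Finset.union_empty] at h2
      · refine subset_cl K T x ?_
        rw [hT]
        exact Finset.mem_union_right _ hx
    have h2 := rk_le_of_subset_cl K h1
    have h3 : rk K T ≤ rk K (rg (a (E + 1))) + (rgl lam).card := by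
      rw [hT]
      exact rk_union_le_card K _ _
    have h4 := card_rgl56 lam
    have h5 := lam_rank hl0 hl hα₀ (T := rga a (E + 1)) (Finset.Subset.refl _)
    rw [Finset.union_comm (rg fun m => c m / c α₀) (rga a (E + 1))] at hA
    rcases min_cases (rk K (rga a (E + 1)) + σ) (rk K (rga a (E + 1) ∪ rg fun m => c m / c α₀))
      with ⟨h6, _⟩ | ⟨h6, _⟩ <;> rw [h6] at h5 <;> omega
  have hTa : ∀ i, a (E + 1) i ∈ IntermediateField.adjoin K (T : Set Ω) := by
    intro i
    refine IntermediateField.subset_adjoin K _ ?_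
    rw [hT, Finset.coe_union]
    exact Or.inl (Finset.mem_coe.2 (Finset.mem_image_of_mem _ (Finset.mem_univ i)))
  have hTl : ∀ i m', lam i m' ∈ IntermediateField.adjoin K (T : Set Ω) := by
    intro i m'
    refine IntermediateField.subset_adjoin K _ ?_
    rw [hT, Finset.coe_union]
    refine Or.inr (Finset.mem_coe.2 ?_)
    unfold rgl
    rw [Finset.mem_biUnion]
    exact ⟨i, Finset.mem_univ i, Finset.mem_image_of_mem _ (Finset.mem_univ m')⟩
  have hsing : (fun i => algebraMap (IntermediateField.adjoin K (T : Set Ω)) Ω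
      (algebraMap K (IntermediateField.adjoin K (T : Set Ω)) (x i))) =
      fun i => algebraMap K Ω (x i) := by
    funext i
    exact (IsScalarTower.algebraMap_apply K (IntermediateField.adjoin K (T : Set Ω)) Ω (x i)).symm
  obtain ⟨α, θ, τ, b, c', τ', a', η, h1, h2, h3, h4, h5, h6, h7, h8, h9, h10, h11, h12, h13, h14,
    h15⟩ := bend_break (K := IntermediateField.adjoin K (T : Set Ω)) (big_adjoin K hb T)
      (e := E + 1) (by omega) (fun i => algebraMap K (IntermediateField.adjoin K (T : Set Ω)) (x i))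
      (fun i => ⟨a (E + 1) i, hTa i⟩)
      (fun h => hx (funext fun i => (algebraMap K (IntermediateField.adjoin K (T : Set Ω))).injective
        (by rw [Pi.zero_apply, map_zero]; exact congrFun h i)))
      (fun h => by
        have h' := congrArg Subtype.val (congrFun h j)
        have h'' : a (E + 1) j = 0 := h'
        rw [haj] at h''
        exact one_ne_zero h'') c hc a (by rw [ha0, hsing]) rfl hV hna
  rw [hsing] at h10
  have h12' : a' (E + 1) = fun i => η * a (E + 1) i := h12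
  have hSpc : Spc K (pt (fun m => c m / c α) τ b (E + 1)) (pt c' τ' a' (E + 1)) :=
    Spc.restrict _ h5
  have hlc' : ∀ i, ∑ m', lam i m' * c' m' = 0 := by
    intro i
    have h := h5 (∑ m', C (⟨lam i m', hTl i m'⟩ : IntermediateField.adjoin K (T : Set Ω)) *
      X (Sum.inl m')) (by
        rw [map_sum]
        simp only [map_mul, aeval_C, aeval_X]
        change ∑ m', lam i m' * (c m' / c α) = 0
        rw [← zero_div (c α), ← hl0 i, Finset.sum_div]
        exact Finset.sum_congr rfl fun m' _ => by rw [mul_div_assoc])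
    rw [map_sum] at h
    simp only [map_mul, aeval_C, aeval_X] at h
    exact h
  have hc' : c' ≠ 0 := fun h => by
    have h' := congrFun h α
    rw [h6] at h'
    exact one_ne_zero h'
  have hNL : ¬ G c' := by
    intro hcon
    obtain ⟨i, hi⟩ := lam_avoid hb hc hl0 hl G hG hG1 hGc (g := c') hcon hc'
    exact hi (hlc' i)
  -- the ranks
  obtain ⟨X, hX⟩ : ∃ X, X = rg (fun m => c m / c α) ∪ rga a (E + 1) := ⟨_, rfl⟩
  obtain ⟨P, hP⟩ : ∃ P, P = rg (fun m => c m / c α) ∪ rgt τ (E + 1) ∪ rga b (E + 1) := ⟨_, rfl⟩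
  obtain ⟨P', hP'⟩ : ∃ P', P' = rg c' ∪ rgt τ' (E + 1) ∪ rga a' (E + 1) := ⟨_, rfl⟩
  rw [← hX, ← hP] at h14
  rw [← hP, ← hP'] at h15
  have hrX := rk_adjoin K T X
  have hrP := rk_adjoin K T P
  have hrP' := rk_adjoin K T P'
  have hXP : ∀ x ∈ X, x ∈ cl K P := by
    intro x hx
    rw [hX] at hx
    rcases Finset.mem_union.1 hx with hx | hx
    · refine subset_cl K P x ?_
      rw [hP]
      exact Finset.mem_union_left _ (Finset.mem_union_left _ hx)
    · refine curve_mem56 (by omega) h2 haj h4 ?_ ?_ x hx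
      · rw [hP]
        exact Finset.subset_union_right.trans Finset.subset_union_left
      · rw [hP]
        exact Finset.subset_union_right
  have hrA : rk K X + (E + 1) ≤ rk K P := by
    have e1 := rk_submod K X T P
    have e2 : rk K (X ∪ P) = rk K P := by
      rw [Finset.union_comm]
      exact rk_union_of_subset_cl K hXP
    have e3 : rk K (T ∪ P) ≤ rk K (X ∪ T ∪ P) := by
      rw [Finset.union_assoc]
      exact rk_mono K Finset.subset_union_right
    rw [Finset.union_comm X T] at e1 e3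
    omega
  have hrPX : rk K P ≤ rk K X + (E + 1) := by
    have e1 : ∀ x ∈ P, x ∈ cl K (X ∪ insert θ (rgt τ (E + 1))) := by
      intro x hx
      rw [hP] at hx
      rcases Finset.mem_union.1 hx with hx | hx
      · rcases Finset.mem_union.1 hx with hx | hx
        · refine subset_cl K _ x (Finset.mem_union_left _ ?_)
          rw [hX]
          exact Finset.mem_union_left _ hx
        · exact subset_cl K _ x (Finset.mem_union_right _ (Finset.mem_insert_of_mem hx))
      · refine fine_mem56 h3 h4 ?_ x hx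
        rw [hX]
        exact Finset.subset_union_right
    have e2 := rk_le_of_subset_cl K e1
    have e3 := rk_union_le_card K X (insert θ (rgt τ (E + 1)))
    have e4 : (insert θ (rgt τ (E + 1))).card ≤ (rgt τ (E + 1)).card + 1 :=
      Finset.card_insert_le _ _
    have e5 : (rgt τ (E + 1)).card ≤ E := by
      refine Finset.card_image_le.trans ?_
      rw [Nat.card_Ico]
      omega
    omega
  have hrTX : rk K X + σ * (Fintype.card (Mon n d) - 1) ≤ rk K (T ∪ X) := by
    have e1 := rk_submod K X (rga a (E + 1) ∪ rg c) (rgl lam)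
    have e2 : rk K (X ∪ (rga a (E + 1) ∪ rg c)) = rk K (rga a (E + 1) ∪ rg c) := by
      rw [Finset.union_comm]
      refine rk_union_of_subset_cl K fun x hx => ?_
      rw [hX] at hx
      rcases Finset.mem_union.1 hx with hx | hx
      · unfold rg at hx
        rw [Finset.mem_image] at hx
        obtain ⟨m', _, rfl⟩ := hx
        have e3 : ∀ m'', c m'' ∈ cl K (rga a (E + 1) ∪ rg c) := fun m'' =>
          subset_cl K _ _ (Finset.mem_union_right _
            (Finset.mem_image_of_mem _ (Finset.mem_univ m'')))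
        exact div_mem (e3 m') (e3 α)
      · exact subset_cl K _ x (Finset.mem_union_left _ hx)
    have e3 : rk K (rga a (E + 1) ∪ rg c ∪ rgl lam) ≤
        rk K (X ∪ (rga a (E + 1) ∪ rg c) ∪ rgl lam) := by
      refine rk_mono K (Finset.union_subset_union_left Finset.subset_union_right)
    have e4 : rk K (X ∪ rgl lam) ≤ rk K (T ∪ X) := by
      refine rk_mono K fun x hx => ?_
      rw [hT]
      simp only [Finset.mem_union] at hx ⊢
      tauto
    omega
  have hrTP' : rk K (T ∪ P') ≤ rk K P' + σ * (Fintype.card (Mon n d) - 1) := by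
    have e1 := lam_le (K := K) P' hc' lam hlc'
    have e2 : P' ∪ rg c' = P' := by
      rw [Finset.union_eq_left, hP']
      exact Finset.subset_union_left.trans Finset.subset_union_left
    rw [e2] at e1
    refine le_trans (rk_le_of_subset_cl K fun x hx => ?_) e1
    rw [hT] at hx
    rcases Finset.mem_union.1 hx with hx | hx
    · rcases Finset.mem_union.1 hx with hx | hx
      · unfold rg at hx
        rw [Finset.mem_image] at hx
        obtain ⟨i, _, rfl⟩ := hx
        have e3 : ∀ i', a' (E + 1) i' ∈ cl K (P' ∪ rgl lam) := fun i' => by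
          refine subset_cl K _ _ (Finset.mem_union_left _ ?_)
          rw [hP']
          exact Finset.mem_union_right _ (mem_rga56 a' le_rfl i')
        have e4 : a (E + 1) i = a' (E + 1) i / a' (E + 1) j := by
          rw [h12']
          change a (E + 1) i = η * a (E + 1) i / (η * a (E + 1) j)
          rw [haj, mul_one, mul_div_cancel_left₀ _ h11]
        rw [e4]
        exact div_mem (e3 i) (e3 j)
      · exact subset_cl K _ x (Finset.mem_union_right _ hx)
    · exact subset_cl K _ x (Finset.mem_union_left _ hx)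
  refine ⟨α, θ, τ, b, c', τ', a', η, h1, h2, h3, h4, hSpc, h6, hNL, h7, h8, h9, h10, h11,
    h12', ?_, ?_⟩
  · rw [← hX, ← hP]
    exact hrA
  · rw [← hP, ← hP']
    omega


end Pool.Agent.Helper30.RY
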