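import Mathlib
import Pool.Agent.Helper30.RY.Gdf

/-!
# Differentials of the equations of curves and chains: definitions
-/

namespace Pool.Agent.Helper30.RY

open MvPolynomial

variable {A : Type*} [CommRing A] {n : ℕ}

/-- the derivative of `f(a)` (a polynomial in `T`) in the direction `V` -/
noncomputable def dcv (f : MvPolynomial (Fin (n + 1)) A) (a V : ℕ → Fin (n + 1) → A) (e : ℕ) :
    Polynomial A :=
  ∑ i, aeval (cv a e) (pderiv i f) * cv V e i

/-- the place from which the `N`-th coefficient is taken -/
def plc (d e N : ℕ) : ℕ := min (N / d) (e - 1)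

/-- the differentials of the `d e + 1` equations of chains at `(τ, a)`, in the directions `V` with `τ`
fixed, are linearly independent -/
def Sur (d : ℕ) (f : MvPolynomial (Fin (n + 1)) A) (τ : ℕ → A) (a : ℕ → Fin (n + 1) → A)
    (e : ℕ) : Prop :=
  ∀ y : ℕ → A, ∃ V : ℕ → Fin (n + 1) → A, ∀ N ≤ d * e,
    (dcv f (pcc (plc d e N) e τ a) (pcc (plc d e N) e τ V) e).coeff N = y N

end Pool.Agent.Helper30.RY
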