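import Mathlib
import Pool.Agent.Helper30.RY.Jdf
import Pool.Agent.Helper30.RY.Cur

/-!
# Block RY-JCA: the differential at a chain of free lines

* `degree_line`: `aeval (cv (ln x y) 1) g` has degree at most `q` for a form `g` of degree `q`.
* `sur_lines`: at `τ = 0` the vector `pcc i e 0 b l` (for `i < e`, `l ≤ e`) is `b l` for `l = i, i + 1` and `0`
  otherwise (if `l < i` the factor `0 ^ (i - l)` occurs, if `l > i + 1`, so `i + 1 < e`, the factor
  `0 ^ (l - (i + 1))`; the other factors are `0 ^ 0`).  So `cv (pcc i e 0 b) e k = T^i (b_i + b_{i+1} T)_k`, and the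
  same for `V`.  Let `p i k = aeval (cv (ln (b i) (b (i+1))) 1) (pderiv k f)`, of degree `< d`.
  `pderiv k f` is a form of degree `d - 1`, so `aeval (cv (pcc i ..) e) (pderiv k f) = T^(i (d-1)) p i k` and
  `dcv f (pcc i .. b) (pcc i .. V) e = T^(i d) ∑_k p i k (V_i k + V_{i+1} k T)`.
  For `N ≤ d e` let `i = plc d e N` and `N = i d + r`; `r < d` or (`i = e - 1` and `r = d`).
  Choose `V_e` with `∑_k p (e-1) k V_e k = y (d e) T^(d-1)` and then, for `i = e - 1, e - 2, ..., 0`, choose
  `V_i` with `∑_k p i k V_i k = ∑_{r < d} y (i d + r) T^r - (the part of degree < d of T ∑_k p i k V_{i+1} k)`,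
  using `hfree`.  (Recursion downwards: define the sequence `V_{e - j}` by recursion on `j`.)
* `free_descend`: a system of `d` linear equations with coefficients in `E₀`: the map
  `t ↦ ∑ t_k P_k` from `E₀^(n+1)` to the polynomials of degree `< d`.  If it is not surjective there is a
  non zero linear form over `E₀` on the polynomials of degree `< d` which vanishes on all `P_k`; its extension
  to `E` contradicts `h`.
-/

namespace Pool.Agent.Helper30.RY

open MvPolynomial

/-- Homogeneity for values in an algebra. -/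
private theorem aev_h17 {A S : Type*} [CommRing A] [CommRing S] [Algebra A S] {n q : ℕ}
    {f : MvPolynomial (Fin (n + 1)) A} (hf : f.IsHomogeneous q) (t : S) (g : Fin (n + 1) → S) :
    aeval (fun i => t * g i) f = t ^ q * aeval g f := by
  rw [aeval_def, aeval_def, eval₂_eq', eval₂_eq', Finset.mul_sum]
  refine Finset.sum_congr rfl fun m hm => ?_
  have h1 : m.degree = q := by
    by_contra hcon
    exact (mem_support_iff.mp hm) (hf.coeff_eq_zero hcon)
  have h2 : ∏ i, (t * g i) ^ m i = t ^ q * ∏ i, g i ^ m i := by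
    simp only [mul_pow]
    rw [Finset.prod_mul_distrib, Finset.prod_pow_eq_pow_sum]
    congr 2
    rw [← h1, Finsupp.degree_eq_sum]
  rw [h2]
  ring

private theorem cv_ln_h17 {A : Type*} [CommRing A] {n : ℕ} (x y : Fin (n + 1) → A) (k : Fin (n + 1)) :
    cv (ln x y) 1 k = Polynomial.C (x k) + Polynomial.C (y k) * Polynomial.X := by
  unfold cv ln
  rw [Finset.sum_range_succ, Finset.sum_range_one]
  simp

theorem degree_line {A : Type*} [CommRing A] {n q : ℕ} {g : MvPolynomial (Fin (n + 1)) A}
    (hg : g.IsHomogeneous q) (x y : Fin (n + 1) → A) :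
    (aeval (cv (ln x y) 1) g).natDegree ≤ q := by
  have hdeg : ∀ k, (cv (ln x y) 1 k).natDegree ≤ 1 := by
    intro k
    rw [cv_ln_h17, add_comm]
    exact Polynomial.natDegree_linear_le
  rw [aeval_def, eval₂_eq']
  refine Polynomial.natDegree_sum_le_of_forall_le _ _ fun m hm => ?_
  have h1 : m.degree = q := by
    by_contra hcon
    exact (mem_support_iff.mp hm) (hg.coeff_eq_zero hcon)
  change (Polynomial.C (coeff m g) * _).natDegree ≤ q
  refine (Polynomial.natDegree_C_mul_le _ _).trans ((Polynomial.natDegree_prod_le _ _).trans ?_)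
  rw [← h1, Finsupp.degree_eq_sum]
  refine Finset.sum_le_sum fun k _ => ?_
  refine Polynomial.natDegree_pow_le.trans ?_
  calc m k * (cv (ln x y) 1 k).natDegree ≤ m k * 1 := Nat.mul_le_mul_left _ (hdeg k)
    _ = m k := mul_one _

private theorem pcc_zero_h17 {E : Type*} [Field E] {n e i : ℕ} (hi : i < e) (b : ℕ → Fin (n + 1) → E) {l : ℕ}
    (hl : l ≤ e) (k : Fin (n + 1)) :
    pcc i e (fun _ => 0) b l k = if l = i ∨ l = i + 1 then b l k else 0 := by
  unfold pcc
  by_cases h : l = i ∨ l = i + 1
  · rw [if_pos h]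
    have h1 : ∏ s ∈ Finset.Ico 1 (i + 1), (0 : E) ^ (s - l) = 1 := by
      refine Finset.prod_eq_one fun s hs => ?_
      rw [Finset.mem_Ico] at hs
      rw [show s - l = 0 by omega, pow_zero]
    have h2 : ∏ s ∈ Finset.Ico (i + 1) e, (0 : E) ^ (l - s) = 1 := by
      refine Finset.prod_eq_one fun s hs => ?_
      rw [Finset.mem_Ico] at hs
      rw [show l - s = 0 by omega, pow_zero]
    rw [h1, h2, mul_one, mul_one]
  · rw [if_neg h]
    rcases lt_or_ge l i with h3 | h3
    · have h1 : ∏ s ∈ Finset.Ico 1 (i + 1), (0 : E) ^ (s - l) = 0 := by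
        refine Finset.prod_eq_zero (i := i) (Finset.mem_Ico.2 ⟨by omega, by omega⟩) ?_
        exact zero_pow (by omega)
      rw [h1, mul_zero, zero_mul]
    · have h2 : ∏ s ∈ Finset.Ico (i + 1) e, (0 : E) ^ (l - s) = 0 := by
        refine Finset.prod_eq_zero (i := i + 1) (Finset.mem_Ico.2 ⟨by omega, by omega⟩) ?_
        exact zero_pow (by omega)
      rw [h2, mul_zero]

private theorem cv_pcc_h17 {E : Type*} [Field E] {n e i : ℕ} (hi : i < e) (b : ℕ → Fin (n + 1) → E) (k : Fin (n + 1)) :
    cv (pcc i e (fun _ => 0) b) e k = Polynomial.X ^ i * cv (ln (b i) (b (i + 1))) 1 k := by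
  rw [cv_ln_h17]
  unfold cv
  have h1 : ∀ l ∈ Finset.range (e + 1), Polynomial.C (pcc i e (fun _ => 0) b l k) * Polynomial.X ^ l =
      (if l = i then Polynomial.C (b i k) * Polynomial.X ^ i else 0) +
        (if l = i + 1 then Polynomial.C (b (i + 1) k) * Polynomial.X ^ (i + 1) else 0) := by
    intro l hl
    rw [Finset.mem_range] at hl
    rw [pcc_zero_h17 hi b (by omega)]
    by_cases h1 : l = i
    · rw [if_pos (Or.inl h1), if_pos h1, if_neg (by omega), add_zero, h1]
    · by_cases h2 : l = i + 1
      · rw [if_pos (Or.inr h2), if_neg h1, if_pos h2, zero_add, h2]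
      · rw [if_neg (by tauto), if_neg h1, if_neg h2, map_zero, zero_mul, add_zero]
  rw [Finset.sum_congr rfl h1, Finset.sum_add_distrib, Finset.sum_ite_eq', Finset.sum_ite_eq',
    if_pos (Finset.mem_range.2 (by omega)), if_pos (Finset.mem_range.2 (by omega))]
  ring

/-- the derivative in direction `t` along the line -/
private noncomputable def Af_h17 {E : Type*} [Field E] {n : ℕ} (f : MvPolynomial (Fin (n + 1)) E)
    (b : ℕ → Fin (n + 1) → E) (i : ℕ) (t : Fin (n + 1) → E) : Polynomial E :=
  ∑ k, Polynomial.C (t k) * aeval (cv (ln (b i) (b (i + 1))) 1) (pderiv k f)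

private theorem dcv_h17 {E : Type*} [Field E] {n d e i : ℕ} (hd : 1 ≤ d) (hi : i < e)
    {f : MvPolynomial (Fin (n + 1)) E} (hf : f.IsHomogeneous d) (b V : ℕ → Fin (n + 1) → E) :
    dcv f (pcc i e (fun _ => 0) b) (pcc i e (fun _ => 0) V) e =
      (Af_h17 f b i (V i) + Polynomial.X * Af_h17 f b i (V (i + 1))) * Polynomial.X ^ (i * d) := by
  unfold dcv Af_h17
  rw [Finset.mul_sum, ← Finset.sum_add_distrib, Finset.sum_mul]
  refine Finset.sum_congr rfl fun k _ => ?_
  have h1 : cv (pcc i e (fun _ => 0) b) e = fun k => Polynomial.X ^ i * cv (ln (b i) (b (i + 1))) 1 k :=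
    funext fun k => cv_pcc_h17 hi b k
  rw [h1, aev_h17 (hf.pderiv (i := k)), cv_pcc_h17 hi V, cv_ln_h17, ← pow_mul]
  have h2 : i * d = i * (d - 1) + i := by
    obtain ⟨d, rfl⟩ : ∃ d', d = d' + 1 := ⟨d - 1, by omega⟩
    rw [Nat.add_sub_cancel]
    ring
  rw [h2, pow_add]
  ring

private theorem Af_deg_h17 {E : Type*} [Field E] {n d : ℕ} (hd : 1 ≤ d)
    {f : MvPolynomial (Fin (n + 1)) E} (hf : f.IsHomogeneous d) (b : ℕ → Fin (n + 1) → E) (i : ℕ)
    (t : Fin (n + 1) → E) : (Af_h17 f b i t).coeff d = 0 := by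
  have h1 : (Af_h17 f b i t).natDegree ≤ d - 1 := by
    unfold Af_h17
    refine Polynomial.natDegree_sum_le_of_forall_le _ _ fun k _ => ?_
    exact (Polynomial.natDegree_C_mul_le _ _).trans (degree_line hf.pderiv _ _)
  exact Polynomial.coeff_eq_zero_of_natDegree_lt (by omega)

theorem sur_lines {E : Type*} [Field E] {n d e : ℕ} (hd : 1 ≤ d) (he : 1 ≤ e)
    {f : MvPolynomial (Fin (n + 1)) E} (hf : f.IsHomogeneous d) (b : ℕ → Fin (n + 1) → E)
    (hfree : ∀ i < e, ∀ p : Polynomial E, p.degree < (d : ℕ) → ∃ t : Fin (n + 1) → E,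
      ∑ k, Polynomial.C (t k) * aeval (cv (ln (b i) (b (i + 1))) 1) (pderiv k f) = p) :
    Sur d f (fun _ => 0) b e := by
  intro y
  have hfree' : ∀ i < e, ∀ p : Polynomial E, p.degree < (d : ℕ) → ∃ t : Fin (n + 1) → E, Af_h17 f b i t = p :=
    hfree
  obtain ⟨Ve, hVe⟩ := hfree' (e - 1) (by omega) (Polynomial.C (y (d * e)) * Polynomial.X ^ (d - 1))
    ((Polynomial.degree_C_mul_X_pow_le _ _).trans_lt (by exact_mod_cast (by omega : d - 1 < d)))
  have hstep : ∀ i < e, ∀ W : Fin (n + 1) → E, ∃ U : Fin (n + 1) → E, ∀ r < d,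
      (Af_h17 f b i U + Polynomial.X * Af_h17 f b i W).coeff r = y (i * d + r) := by
    intro i hi W
    obtain ⟨U, hU⟩ := hfree' i hi (∑ r : Fin d, Polynomial.C (y (i * d + r) -
      (Polynomial.X * Af_h17 f b i W).coeff r) * Polynomial.X ^ (r : ℕ)) (Polynomial.degree_sum_fin_lt _)
    refine ⟨U, fun r hr => ?_⟩
    rw [hU, Polynomial.coeff_add, Polynomial.finsetSum_coeff, Finset.sum_eq_single (⟨r, hr⟩ : Fin d)]
    · rw [Polynomial.coeff_C_mul_X_pow, if_pos rfl]
      ring
    · intro s _ hs
      rw [Polynomial.coeff_C_mul_X_pow, if_neg]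
      intro h
      exact hs (Fin.ext h.symm)
    · intro h
      exact absurd (Finset.mem_univ _) h
  have hex : ∀ j ≤ e, ∃ V : ℕ → Fin (n + 1) → E, V e = Ve ∧ ∀ i, e - j ≤ i → i < e → ∀ r < d,
      (Af_h17 f b i (V i) + Polynomial.X * Af_h17 f b i (V (i + 1))).coeff r = y (i * d + r) := by
    intro j
    induction j with
    | zero =>
      intro _
      exact ⟨fun _ => Ve, rfl, fun i h1 h2 => by omega⟩
    | succ j ih =>
      intro hj
      obtain ⟨V, hV1, hV2⟩ := ih (by omega)
      obtain ⟨U, hU⟩ := hstep (e - (j + 1)) (by omega) (V (e - (j + 1) + 1))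
      refine ⟨Function.update V (e - (j + 1)) U, ?_, ?_⟩
      · rw [Function.update_of_ne (by omega), hV1]
      · intro i h1 h2 r hr
        rcases Nat.eq_or_lt_of_le h1 with h3 | h3
        · rw [← h3, Function.update_self, Function.update_of_ne (by omega)]
          exact hU r hr
        · rw [Function.update_of_ne (by omega), Function.update_of_ne (by omega)]
          exact hV2 i (by omega) h2 r hr
  obtain ⟨V, hV1, hV2⟩ := hex e le_rfl
  refine ⟨V, fun N hN => ?_⟩
  have hi : plc d e N < e := by
    unfold plc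
    omega
  have hle : plc d e N * d ≤ N := by
    unfold plc
    exact (Nat.mul_le_mul_right d (min_le_left _ _)).trans (Nat.div_mul_le_self N d)
  rw [dcv_h17 hd hi hf]
  have hN2 : N = (N - plc d e N * d) + plc d e N * d := by omega
  have hcoef : ∀ (P : Polynomial E), (P * Polynomial.X ^ (plc d e N * d)).coeff N =
      P.coeff (N - plc d e N * d) := by
    intro P
    rw [Polynomial.coeff_mul_X_pow', if_pos hle]
  rw [hcoef]
  rcases lt_or_ge (N - plc d e N * d) d with h1 | h1
  · rw [hV2 _ (by omega) hi _ h1]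
    congr 1
    omega
  · -- then the place is `e - 1` and `N = d e`
    have h2 : plc d e N = e - 1 := by
      by_contra hne
      have h3 : plc d e N = N / d := by
        unfold plc at hne ⊢
        omega
      rw [h3] at h1
      have h4 := Nat.mod_add_div N d
      have h5 := Nat.mod_lt N (by omega : 0 < d)
      rw [mul_comm] at h4
      omega
    have h3 : N = d * e := by
      rw [h2] at h1 hle
      have h4 : (e - 1) * d + d = d * e := by
        obtain ⟨e, rfl⟩ : ∃ e', e = e' + 1 := ⟨e - 1, by omega⟩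
        rw [Nat.add_sub_cancel]
        ring
      omega
    have h4 : N - plc d e N * d = d := by
      rw [h2, h3]
      have h5 : (e - 1) * d + d = d * e := by
        obtain ⟨e, rfl⟩ : ∃ e', e = e' + 1 := ⟨e - 1, by omega⟩
        rw [Nat.add_sub_cancel]
        ring
      omega
    rw [h4, h2, Nat.sub_add_cancel he, hV1, Polynomial.coeff_add, Af_deg_h17 hd hf, zero_add, hVe]
    have h5 : d = (d - 1) + 1 := by omega
    have h6 : (Polynomial.X * (Polynomial.C (y (d * e)) * Polynomial.X ^ (d - 1))).coeff d = y (d * e) := by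
      conv_lhs => rw [h5]
      rw [Polynomial.coeff_X_mul, Nat.add_sub_cancel, ← h5, Polynomial.coeff_C_mul_X_pow, if_pos rfl]
    rw [h6, h3]

theorem free_descend {E₀ E : Type*} [Field E₀] [Field E] [Algebra E₀ E] {n d : ℕ}
    (P : Fin (n + 1) → Polynomial E₀) (hP : ∀ k, (P k).degree < (d : ℕ))
    (h : ∀ p : Polynomial E, p.degree < (d : ℕ) → ∃ t : Fin (n + 1) → E,
      ∑ k, Polynomial.C (t k) * (P k).map (algebraMap E₀ E) = p)
    (p : Polynomial E₀) (hp : p.degree < (d : ℕ)) :
    ∃ t : Fin (n + 1) → E₀, ∑ k, Polynomial.C (t k) * P k = p := by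
  classical
  let L : (Fin (n + 1) → E₀) →ₗ[E₀] (Fin d → E₀) :=
    { toFun := fun t r => ∑ k, t k * (P k).coeff r
      map_add' := fun s t => by
        funext r
        simp only [Pi.add_apply, add_mul, Finset.sum_add_distrib]
      map_smul' := fun c t => by
        funext r
        simp only [Pi.smul_apply, smul_eq_mul, RingHom.id_apply, Finset.mul_sum, mul_assoc] }
  have hL : ∀ t r, L t r = ∑ k, t k * (P k).coeff r := fun t r => rfl
  have hsur : LinearMap.range L = ⊤ := by
    by_contra hne
    obtain ⟨g, hg0, hg⟩ := Submodule.exists_le_ker_of_lt_top _ (lt_top_iff_ne_top.2 hne)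
    have hex : ∃ r, g (Pi.single r 1) ≠ 0 := by
      by_contra hcon
      push Not at hcon
      apply hg0
      apply LinearMap.pi_ext'
      intro r
      apply LinearMap.ext_ring
      exact hcon r
    obtain ⟨r0, hr0⟩ := hex
    have hgv : ∀ v : Fin d → E₀, g v = ∑ r, v r * g (Pi.single r 1) := by
      intro v
      conv_lhs => rw [← Finset.univ_sum_single v, map_sum]
      refine Finset.sum_congr rfl fun r _ => ?_
      have h1 : (Pi.single r (v r) : Fin d → E₀) = v r • Pi.single r 1 := by
        rw [← Pi.single_smul, smul_eq_mul, mul_one]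
      rw [h1, map_smul, smul_eq_mul]
    have hk : ∀ k, ∑ r : Fin d, (P k).coeff r * g (Pi.single r 1) = 0 := by
      intro k
      have h1 : g (L (Pi.single k 1)) = 0 := hg ⟨_, rfl⟩
      rw [hgv] at h1
      rw [← h1]
      refine Finset.sum_congr rfl fun r _ => ?_
      rw [hL, Finset.sum_eq_single k]
      · rw [Pi.single_eq_same, one_mul]
      · intro j _ hj
        rw [Pi.single_eq_of_ne hj, zero_mul]
      · intro hcon
        exact absurd (Finset.mem_univ k) hcon
    obtain ⟨t, ht⟩ := h (Polynomial.X ^ (r0 : ℕ)) (by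
      rw [Polynomial.degree_X_pow]
      exact_mod_cast r0.2)
    have hcoef : ∀ r : Fin d, ∑ k, t k * algebraMap E₀ E ((P k).coeff r) = if r = r0 then 1 else 0 := by
      intro r
      have h1 := congrArg (fun q : Polynomial E => q.coeff r) ht
      simp only [Polynomial.finsetSum_coeff, Polynomial.coeff_C_mul, Polynomial.coeff_map,
        Polynomial.coeff_X_pow] at h1
      rw [h1]
      by_cases h2 : r = r0
      · rw [if_pos h2, if_pos (by rw [h2])]
      · rw [if_neg h2, if_neg (fun h3 => h2 (Fin.ext h3))]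
    have hfin : algebraMap E₀ E (g (Pi.single r0 1)) = 0 := by
      calc algebraMap E₀ E (g (Pi.single r0 1))
          = ∑ r : Fin d, (if r = r0 then 1 else 0) * algebraMap E₀ E (g (Pi.single r 1)) := by
            rw [Finset.sum_eq_single r0]
            · rw [if_pos rfl, one_mul]
            · intro r _ hr
              rw [if_neg hr, zero_mul]
            · intro hcon
              exact absurd (Finset.mem_univ _) hcon
        _ = ∑ r : Fin d, ∑ k, t k * (algebraMap E₀ E ((P k).coeff r) * algebraMap E₀ E (g (Pi.single r 1))) := by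
            refine Finset.sum_congr rfl fun r _ => ?_
            rw [← hcoef r, Finset.sum_mul]
            refine Finset.sum_congr rfl fun k _ => ?_
            rw [mul_assoc]
        _ = ∑ k, t k * algebraMap E₀ E (∑ r : Fin d, (P k).coeff r * g (Pi.single r 1)) := by
            rw [Finset.sum_comm]
            refine Finset.sum_congr rfl fun k _ => ?_
            rw [map_sum, Finset.mul_sum]
            refine Finset.sum_congr rfl fun r _ => ?_
            rw [map_mul]
        _ = 0 := by
            refine Finset.sum_eq_zero fun k _ => ?_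
            rw [hk, map_zero, mul_zero]
    exact hr0 ((map_eq_zero _).1 hfin)
  have hmem : (fun r : Fin d => p.coeff r) ∈ LinearMap.range L := by
    rw [hsur]
    exact Submodule.mem_top
  obtain ⟨t, ht⟩ := hmem
  refine ⟨t, ?_⟩
  ext N
  rcases lt_or_ge N d with hN | hN
  · have h1 := congrFun ht ⟨N, hN⟩
    rw [hL] at h1
    simp only [Polynomial.finsetSum_coeff, Polynomial.coeff_C_mul]
    exact h1
  · have hz : ∀ q : Polynomial E₀, q.degree < (d : ℕ) → q.coeff N = 0 := by
      intro q hq
      apply Polynomial.coeff_eq_zero_of_degree_lt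
      exact hq.trans_le (by exact_mod_cast hN)
    simp only [Polynomial.finsetSum_coeff, Polynomial.coeff_C_mul]
    rw [hz p hp]
    refine Finset.sum_eq_zero fun k _ => ?_
    rw [hz _ (hP k), mul_zero]

end Pool.Agent.Helper30.RY
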