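import Mathlib
import Pool.Agent.Helper30.RY.Gdf
import Pool.Agent.Helper30.RY.Cur
import Pool.Agent.Helper30.RY.Spc

/-!
# Block RY-HQD: the equations of chains and curves as polynomials over the base field

* `aeval_hq`: let `A = MvPolynomial _ K` and `φ = aeval (qt τ a e) : A → Ω`.  `φ` maps `ut K n e s` to `τ s` for
  `1 ≤ s < e` and `ua K n e l i` to `a l i` for `l ≤ e`, so it maps the coefficients of the curve
  `pcc j e (ut K n e) (ua K n e) l` to those of `pcc j e τ a l` (`pcc_map`; only `τ s`, `1 ≤ s < e`, occur in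
  `pcc`), and `φ (C (c₀ μ)) = bc Ω c₀ μ`.  Use `Polynomial.map φ` (`map_fm`, `map_cv`; as in `vanp_map`).
* `fcp_iff_hq`, `van_iff_hv`: a polynomial is zero iff its coefficients are.
* `fcp_spc`, `van_spc`, `eval_spc`: the conditions are polynomial equations over `K`.
* `Full.of_spc`, `LC.of_spc`: the ranks agree by `Spc.rk_le` in both directions (`rg (qt τ a e)` has the same
  elements as `rgt τ e ∪ rga a e`, and `rg (vt a e) = rga a e`), zeros of the coordinates agree.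
* `spc_const`: substitute the constants: `aeval (Sum.elim z a) p = aeval a p'` where `p'` is obtained by
  substituting `C` of the element of `E` for the variables in `κ`.
* `Spc.restrict_alg`: given `p` over `E₁` choose `q` over `E₂` with the same coefficients in `Ω` (choose
  preimages of the finitely many coefficients, `q = ∑ monomial`).
-/

namespace Pool.Agent.Helper30.RY

open MvPolynomial

/-- the universal `τ` -/
noncomputable def ut (K : Type*) [Field K] (n e : ℕ) (s : ℕ) :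
    MvPolynomial (Fin (e - 1) ⊕ (Fin (e + 1) × Fin (n + 1))) K :=
  if h : s - 1 < e - 1 then X (Sum.inl ⟨s - 1, h⟩) else 0

/-- the universal chain -/
noncomputable def ua (K : Type*) [Field K] (n e : ℕ) (l : ℕ) (i : Fin (n + 1)) :
    MvPolynomial (Fin (e - 1) ⊕ (Fin (e + 1) × Fin (n + 1))) K :=
  if h : l < e + 1 then X (Sum.inr (⟨l, h⟩, i)) else 0

/-- the universal curve -/
noncomputable def va (K : Type*) [Field K] (n e : ℕ) (l : ℕ) (i : Fin (n + 1)) :
    MvPolynomial (Fin (e + 1) × Fin (n + 1)) K :=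
  if h : l < e + 1 then X (⟨l, h⟩, i) else 0

/-- the coefficient of `T^N` in the form restricted to the curve `pcc j` -/
noncomputable def hq {K : Type*} [Field K] {n d : ℕ} (c₀ : Mon n d → K) (e j N : ℕ) :
    MvPolynomial (Fin (e - 1) ⊕ (Fin (e + 1) × Fin (n + 1))) K :=
  (aeval (cv (pcc j e (ut K n e) (ua K n e)) e) (fm fun μ : Mon n d =>
    (C (c₀ μ) : MvPolynomial (Fin (e - 1) ⊕ (Fin (e + 1) × Fin (n + 1))) K))).coeff N

/-- the coefficient of `T^N` in the form restricted to the curve -/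
noncomputable def hv {K : Type*} [Field K] {n d : ℕ} (c₀ : Mon n d → K) (e N : ℕ) :
    MvPolynomial (Fin (e + 1) × Fin (n + 1)) K :=
  (aeval (cv (va K n e) e) (fm fun μ : Mon n d =>
    (C (c₀ μ) : MvPolynomial (Fin (e + 1) × Fin (n + 1)) K))).coeff N

variable {K : Type*} [Field K] {Ω : Type*} [Field Ω] [Algebra K Ω] {n d m : ℕ}
  {c₀ : Mon n d → K}

private theorem keyr23 {A B : Type*} [CommRing A] [CommRing B] (φ : A →+* B)
    (f : MvPolynomial (Fin (n + 1)) A) (a : ℕ → Fin (n + 1) → A) (e : ℕ) :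
    aeval (cv (fun l i => φ (a l i)) e) (map φ f) = (aeval (cv a e) f).map φ := by
  have h1 : cv (fun l i => φ (a l i)) e = fun i => Polynomial.mapRingHom φ (cv a e i) := by
    funext i
    exact (map_cv φ a e i).symm
  rw [h1, aeval_def, eval₂_map, ← Polynomial.coe_mapRingHom, aeval_def, hom_eval₂]
  congr 1
  ext x
  simp

private theorem cvcongr23 {A : Type*} [CommRing A] {a a' : ℕ → Fin (n + 1) → A} {e : ℕ}
    (h : ∀ l ≤ e, ∀ i, a l i = a' l i) : cv a e = cv a' e := by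
  funext i
  unfold cv
  refine Finset.sum_congr rfl fun l hl => ?_
  rw [Finset.mem_range] at hl
  rw [h l (by omega) i]

private theorem fmC23 {σ : Type*} (c₀ : Mon n d → K) (x : σ → Ω) :
    map ((aeval x : MvPolynomial σ K →ₐ[K] Ω) : MvPolynomial σ K →+* Ω)
      (fm fun μ : Mon n d => (C (c₀ μ) : MvPolynomial σ K)) = fm (bc Ω c₀) := by
  rw [map_fm]
  congr 1
  funext μ
  change aeval x (C (c₀ μ)) = _
  rw [aeval_C]
  rfl

theorem aeval_hq (c₀ : Mon n d → K) (e j N : ℕ) (hj : j < e) (τ : ℕ → Ω)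
    (a : ℕ → Fin (n + 1) → Ω) :
    aeval (qt τ a e) (hq c₀ e j N) =
      (aeval (cv (pcc j e τ a) e) (fm (bc Ω c₀))).coeff N := by
  have h1 := keyr23 ((aeval (qt τ a e) : _ →ₐ[K] Ω) : _ →+* Ω)
    (fm fun μ : Mon n d => (C (c₀ μ) : MvPolynomial (Fin (e - 1) ⊕ (Fin (e + 1) × Fin (n + 1))) K))
    (pcc j e (ut K n e) (ua K n e)) e
  rw [fmC23] at h1
  have hut : ∀ s, 1 ≤ s → s < e → aeval (qt τ a e) (ut K n e s) = τ s := by
    intro s hs hse
    have hs' : s - 1 < e - 1 := by omega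
    unfold ut
    rw [dif_pos hs', aeval_X]
    change τ (s - 1 + 1) = τ s
    rw [Nat.sub_add_cancel hs]
  have hua : ∀ l ≤ e, ∀ i, aeval (qt τ a e) (ua K n e l i) = a l i := by
    intro l hl i
    have hl' : l < e + 1 := by omega
    unfold ua
    rw [dif_pos hl', aeval_X]
    rfl
  have h2 : cv (fun l i => ((aeval (qt τ a e) : _ →ₐ[K] Ω) : _ →+* Ω)
      (pcc j e (ut K n e) (ua K n e) l i)) e = cv (pcc j e τ a) e := by
    refine cvcongr23 fun l hl i => ?_
    rw [pcc_map]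
    unfold pcc
    change aeval (qt τ a e) (ua K n e l i) * _ * _ = _
    rw [hua l hl i]
    congr 1
    · congr 1
      refine Finset.prod_congr rfl fun s hs => ?_
      rw [Finset.mem_Ico] at hs
      change (aeval (qt τ a e) (ut K n e s)) ^ _ = _
      rw [hut s hs.1 (by omega)]
    · refine Finset.prod_congr rfl fun s hs => ?_
      rw [Finset.mem_Ico] at hs
      change (aeval (qt τ a e) (ut K n e s)) ^ _ = _
      rw [hut s (by omega) hs.2]
  rw [h2] at h1
  rw [h1, Polynomial.coeff_map]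
  rfl

theorem aeval_hv (c₀ : Mon n d → K) (e N : ℕ) (a : ℕ → Fin (n + 1) → Ω) :
    aeval (vt a e) (hv c₀ e N) = (aeval (cv a e) (fm (bc Ω c₀))).coeff N := by
  have h1 := keyr23 ((aeval (vt a e) : _ →ₐ[K] Ω) : _ →+* Ω)
    (fm fun μ : Mon n d => (C (c₀ μ) : MvPolynomial (Fin (e + 1) × Fin (n + 1)) K))
    (va K n e) e
  rw [fmC23] at h1
  have h2 : cv (fun l i => ((aeval (vt a e) : _ →ₐ[K] Ω) : _ →+* Ω) (va K n e l i)) e =
      cv a e := by
    refine cvcongr23 fun l hl i => ?_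
    have hl' : l < e + 1 := by omega
    change aeval (vt a e) (va K n e l i) = _
    unfold va
    rw [dif_pos hl', aeval_X]
    rfl
  rw [h2] at h1
  rw [h1, Polynomial.coeff_map]
  rfl

theorem fcp_iff_hq {e : ℕ} {τ : ℕ → Ω} {a : ℕ → Fin (n + 1) → Ω} :
    FCp (fm (bc Ω c₀)) τ a e ↔ ∀ j < e, ∀ N, aeval (qt τ a e) (hq c₀ e j N) = 0 := by
  unfold FCp
  refine forall₂_congr fun j hj => ?_
  unfold Vanp
  rw [Polynomial.ext_iff]
  refine forall_congr' fun N => ?_
  rw [aeval_hq c₀ e j N hj, Polynomial.coeff_zero]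

theorem van_iff_hv {e : ℕ} {a : ℕ → Fin (n + 1) → Ω} :
    Van (bc Ω c₀) a e ↔ ∀ N, aeval (vt a e) (hv c₀ e N) = 0 := by
  unfold Van Vanp
  rw [Polynomial.ext_iff]
  refine forall_congr' fun N => ?_
  rw [aeval_hv c₀ e N, Polynomial.coeff_zero]

theorem fcp_spc {e : ℕ} {τ τ' : ℕ → Ω} {a a' : ℕ → Fin (n + 1) → Ω}
    (h : Spc K (qt τ a e) (qt τ' a' e)) (hF : FCp (fm (bc Ω c₀)) τ a e) :
    FCp (fm (bc Ω c₀)) τ' a' e := by
  rw [fcp_iff_hq] at hF ⊢
  exact fun j hj N => h _ (hF j hj N)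

theorem van_spc {e : ℕ} {a a' : ℕ → Fin (n + 1) → Ω} (h : Spc K (vt a e) (vt a' e))
    (hF : Van (bc Ω c₀) a e) : Van (bc Ω c₀) a' e := by
  rw [van_iff_hv] at hF ⊢
  exact fun N => h _ (hF N)

theorem eval_spc {z z' : Fin (n + 1) → Ω} (h : Spc K z z') (hF : eval z (fm (bc Ω c₀)) = 0) :
    eval z' (fm (bc Ω c₀)) = 0 := by
  have e : fm (bc Ω c₀) = map (algebraMap K Ω) (fm c₀) := (map_fm (algebraMap K Ω) c₀).symm
  rw [e, eval_map, ← aeval_def] at hF ⊢
  exact h _ hF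

section

variable {ι κ : Type*} {a b : ι → Ω}

theorem spc_const {E : IntermediateField K Ω} (h : Spc E a b) (z : κ → Ω)
    (hz : ∀ k, z k ∈ E) : Spc E (Sum.elim z a) (Sum.elim z b) := by
  have key : ∀ (v : ι → Ω) (p : MvPolynomial (κ ⊕ ι) E), aeval (Sum.elim z v) p =
      aeval v (aeval (Sum.elim (fun k => (C ⟨z k, hz k⟩ : MvPolynomial ι E)) X) p) := by
    intro v p
    rw [comp_aeval_apply]
    congr 2
    funext x
    rcases x with k | i
    · rw [Sum.elim_inl, Sum.elim_inl, aeval_C]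
      rfl
    · rw [Sum.elim_inr, Sum.elim_inr, aeval_X]
  intro p hp
  rw [key] at hp ⊢
  exact h _ hp

theorem Spc.restrict_alg {E₁ E₂ : Type*} [Field E₁] [Field E₂] [Algebra E₁ Ω] [Algebra E₂ Ω]
    (hE : ∀ x : E₁, ∃ y : E₂, algebraMap E₂ Ω y = algebraMap E₁ Ω x) (h : Spc E₂ a b) :
    Spc E₁ a b := by
  choose f hf using hE
  intro p hp
  have e : map (algebraMap E₂ Ω) (∑ m ∈ p.support, monomial m (f (coeff m p))) =
      map (algebraMap E₁ Ω) p := by
    conv_rhs => rw [← support_sum_monomial_coeff p]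
    rw [map_sum, map_sum]
    refine Finset.sum_congr rfl fun m _ => ?_
    rw [map_monomial, map_monomial, hf]
  have key : ∀ v : ι → Ω, aeval v p =
      aeval v (∑ m ∈ p.support, monomial m (f (coeff m p))) := by
    intro v
    rw [aeval_def, ← eval_map, ← e, eval_map, ← aeval_def]
  rw [key] at hp ⊢
  exact h _ hp

theorem Spc.of_cl {s : Finset Ω} (h : Spc (cl K s) a b) : Spc K a b := by
  refine Spc.restrict_alg (fun x => ⟨algebraMap K (cl K s) x, ?_⟩) h
  rw [← IsScalarTower.algebraMap_apply]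

end

variable [DecidableEq Ω]

omit [Field Ω] in
theorem rg_vt (a : ℕ → Fin (n + 1) → Ω) (e : ℕ) : rg (vt a e) = rga a e := by
  ext x
  simp only [rg, rga, Finset.mem_image, Finset.mem_univ, true_and, Finset.mem_biUnion,
    Finset.mem_range, vt]
  constructor
  · rintro ⟨⟨l, i⟩, rfl⟩
    exact ⟨l, l.2, i, rfl⟩
  · rintro ⟨l, hl, i, rfl⟩
    exact ⟨(⟨l, hl⟩, i), rfl⟩

omit [Field Ω] in
theorem rg_qt (τ : ℕ → Ω) (a : ℕ → Fin (n + 1) → Ω) (e : ℕ) :
    rg (qt τ a e) = rgt τ e ∪ rga a e := by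
  rw [← rg_vt]
  ext x
  simp only [rg, rgt, Finset.mem_union, Finset.mem_image, Finset.mem_univ, true_and,
    Finset.mem_Ico]
  constructor
  · rintro ⟨i | p, rfl⟩
    · exact Or.inl ⟨i + 1, by have := i.2; omega, rfl⟩
    · exact Or.inr ⟨p, rfl⟩
  · rintro (⟨s, hs, rfl⟩ | ⟨p, rfl⟩)
    · refine ⟨Sum.inl ⟨s - 1, by omega⟩, ?_⟩
      change τ (s - 1 + 1) = τ s
      rw [Nat.sub_add_cancel hs.1]
    · exact ⟨Sum.inr p, rfl⟩

omit [DecidableEq Ω] in
private theorem tz23 {e : ℕ} {τ τ' : ℕ → Ω} {a a' : ℕ → Fin (n + 1) → Ω}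
    (h : Spc K (qt τ a e) (qt τ' a' e)) {s : ℕ} (hs : 1 ≤ s) (hse : s < e) (h0 : τ s = 0) :
    τ' s = 0 := by
  have h1 : qt τ a e (Sum.inl ⟨s - 1, by omega⟩) = 0 := by
    change τ (s - 1 + 1) = 0
    rw [Nat.sub_add_cancel hs, h0]
  have h2 : τ' (s - 1 + 1) = 0 := h.eq_zero h1
  rwa [Nat.sub_add_cancel hs] at h2

omit [DecidableEq Ω] in
private theorem vz23 {e : ℕ} {a a' : ℕ → Fin (n + 1) → Ω}
    (h : Spc K (vt a e) (vt a' e)) {l : ℕ} (hl : l ≤ e) (h0 : a' l ≠ 0) : a l ≠ 0 := by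
  intro h1
  refine h0 (funext fun i => ?_)
  have h2 : vt a e (⟨l, by omega⟩, i) = 0 := congrFun h1 i
  exact h.eq_zero h2

theorem Full.of_spc {e : ℕ} {τ τ' : ℕ → Ω} {a a' : ℕ → Fin (n + 1) → Ω}
    (h : Spc K (qt τ a e) (qt τ' a' e)) (h' : Spc K (qt τ' a' e) (qt τ a e))
    (hF : Full K m e (bc Ω c₀) τ a) : Full K m e (bc Ω c₀) τ' a' := by
  have hv : Spc K (vt a e) (vt a' e) := h.comp Sum.inr
  have hv' : Spc K (vt a' e) (vt a e) := h'.comp Sum.inr
  have hb : brk τ' e = brk τ e := by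
    unfold brk
    refine Finset.filter_congr fun s hs => ?_
    rw [Finset.mem_Ico] at hs
    exact ⟨tz23 h' hs.1 hs.2, tz23 h hs.1 hs.2⟩
  refine ⟨fcp_spc h hF.fcp, ⟨vz23 hv' (Nat.zero_le e) hF.nod.1, vz23 hv' le_rfl hF.nod.2.1,
    fun i hi => ?_⟩, ?_⟩
  · rw [hb] at hi
    have hi' : i ≤ e := by
      unfold brk at hi
      rw [Finset.mem_filter, Finset.mem_Ico] at hi
      omega
    exact vz23 hv' hi' (hF.nod.2.2 i hi)
  · rw [hb, ← hF.rnk, ← rg_qt, ← rg_qt]
    rw [le_antisymm h.rk_le h'.rk_le]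

theorem LC.of_spc {e : ℕ} {b b' : ℕ → Fin (n + 1) → Ω}
    (h : Spc K (vt b e) (vt b' e)) (h' : Spc K (vt b' e) (vt b e))
    (hF : LC K m e (bc Ω c₀) b) : LC K m e (bc Ω c₀) b' := by
  refine ⟨fun i hi => ?_, fun i hi => vz23 h' hi (hF.ne i hi), ?_⟩
  · have key : ∀ v : ℕ → Fin (n + 1) → Ω, vt (ln (v i) (v (i + 1))) 1 =
        vt v e ∘ fun p : Fin (1 + 1) × Fin (n + 1) =>
          ((⟨i + p.1, by have := p.1.2; omega⟩ : Fin (e + 1)), p.2) := by
      intro v
      funext ⟨l, k⟩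
      change (if (l : ℕ) = 0 then v i else v (i + 1)) k = v (i + l) k
      have hl := l.2
      by_cases h0 : (l : ℕ) = 0
      · rw [if_pos h0, h0, Nat.add_zero]
      · have h1 : (l : ℕ) = 1 := by omega
        rw [if_neg h0, h1]
    refine van_spc ?_ (hF.van i hi)
    rw [key b, key b']
    exact h.comp _
  · rw [← hF.rnk, ← rg_vt, ← rg_vt]
    rw [le_antisymm h.rk_le h'.rk_le]

end Pool.Agent.Helper30.RY
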