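import Mathlib
import Pool.Agent.Helper30.RY.Jdf
import Pool.Agent.Helper30.RY.Hqd

/-!
# Block RY-JCB: surjectivity of the differential is an open condition, and curves

* `sur_spc`: `V ↦ (coefficients)` is a linear map `Ω^((e+1)(n+1)) → Ω^(d e + 1)` (`dcv` and `pcc` are additive
  and homogeneous in `V`; only `V l`, `l ≤ e`, matters), given by a matrix `M(τ, a)` whose entries are the
  values at `qt τ a e` of polynomials over `K` (as in `aeval_hq`: the entry at `(N, (l, i))` is the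
  coefficient of `T^N` in `aeval (cv (pcc j e τ a) e) (pderiv i f) * C (factor of pcc) * T^l`, `j = plc d e N`).
  `M(τ', a')` is surjective.  Then there is a matrix `R` with entries in `K` such that
  `det (M(τ', a') R) ≠ 0`: the polynomial `det (M(τ', a') R)` in the entries of `R` is not zero (over `Ω` there is
  a right inverse) and `K` is infinite (a polynomial over `Ω` which vanishes at all points with coordinates in
  the infinite set `K` is zero).  (Or: some maximal minor is not zero.)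
  `det (M R)` is a polynomial over `K` in `qt`, so it is not zero at `qt τ a e` either.
* `sur_curve`: put `F l = wt e τ l * a l`, `u_j = ∏_{1 ≤ s ≤ j} τ_s^s`, `θ_j = ∏_{1 ≤ s ≤ j} (τ_s)⁻¹`.  Then
  `pcc j e τ a l = u_j θ_j^l F l` for `j < e`, `l ≤ e` (`wt e τ l = ∏_{1 ≤ s < e} τ_s^(l-s)`), and
  `pcc j e τ V l = u_j θ_j^l (wt e τ l V l)`.  As `f` is a form of degree `d`, the coefficient of `T^N` in
  `dcv f (pcc j a) (pcc j V) e` is `u_j^d θ_j^N` times the one in `dcv f F (wt V) e`.  Given `y` apply `h` to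
  `N ↦ u_j^d θ_j^N y N`, `j = plc d e N`.
* `sur_curve'`: `e ≥ 1`: the case `τ = 1`.
-/

namespace Pool.Agent.Helper30.RY

open MvPolynomial

variable {K : Type*} [Field K] {Ω : Type*} [Field Ω] [Algebra K Ω] {n d : ℕ}

/-! ### Linear algebra -/

private theorem exists_minor45 {F : Type*} [Field F] {D : ℕ} {P : Type*} [Fintype P]
    (M : Matrix (Fin D) P F) (hM : Function.Surjective M.mulVec) :
    ∃ c : Fin D → P, (M.submatrix id c).det ≠ 0 := by
  obtain ⟨κ, a, _, hs, hl⟩ := exists_linearIndependent' F M.col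
  have htop : Submodule.span F (Set.range M.col) = ⊤ := by
    rw [← Matrix.range_mulVecLin, LinearMap.range_eq_top]
    exact hM
  rw [htop] at hs
  let b : Module.Basis κ F (Fin D → F) := Module.Basis.mk hl hs.ge
  let e : Fin D ≃ κ := (Pi.basisFun F (Fin D)).indexEquiv b
  refine ⟨fun k => a (e k), ?_⟩
  have h1 : LinearIndependent F (M.submatrix id (fun k => a (e k))).col := hl.comp e e.injective
  rw [Matrix.linearIndependent_cols_iff_isUnit, Matrix.isUnit_iff_isUnit_det] at h1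
  exact h1.ne_zero

private theorem surj_of_minor45 {F : Type*} [Field F] {D : ℕ} {P : Type*} [Fintype P]
    (M : Matrix (Fin D) P F) (c : Fin D → P) (hM : (M.submatrix id c).det ≠ 0) :
    Function.Surjective M.mulVec := by
  classical
  intro y
  obtain ⟨B, hB⟩ : ∃ B : Matrix (Fin D) (Fin D) F, B = M.submatrix id c := ⟨_, rfl⟩
  rw [← hB] at hM
  have h1 : B.mulVec (B⁻¹.mulVec y) = y := by
    rw [Matrix.mulVec_mulVec, Matrix.mul_nonsing_inv _ (isUnit_iff_ne_zero.2 hM), Matrix.one_mulVec]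
  obtain ⟨w, hw⟩ : ∃ w : Fin D → F, w = B⁻¹.mulVec y := ⟨_, rfl⟩
  rw [← hw] at h1
  refine ⟨fun p => ∑ k, if c k = p then w k else 0, ?_⟩
  rw [← h1]
  funext N
  unfold Matrix.mulVec dotProduct
  simp only [Finset.mul_sum, mul_ite, mul_zero]
  rw [Finset.sum_comm]
  refine Finset.sum_congr rfl fun k _ => ?_
  rw [Finset.sum_ite_eq, if_pos (Finset.mem_univ _), hB]
  rfl

/-! ### The matrix of the differential -/

section Mat

variable {A : Type*} [CommRing A]

/-- the weights of the curve seen from the `j`-th place -/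
private def pw45 (j e : ℕ) (τ : ℕ → A) (l : ℕ) : A :=
  (∏ s ∈ Finset.Ico 1 (j + 1), τ s ^ (s - l)) * ∏ s ∈ Finset.Ico (j + 1) e, τ s ^ (l - s)

private theorem pcc_eq45 (j e : ℕ) (τ : ℕ → A) (a : ℕ → Fin (n + 1) → A) (l : ℕ)
    (i : Fin (n + 1)) : pcc j e τ a l i = a l i * pw45 j e τ l := by
  unfold pcc pw45
  rw [mul_assoc]

/-- the entries of the matrix of the differential -/
private noncomputable def mt45 (d : ℕ) (f : MvPolynomial (Fin (n + 1)) A) (τ : ℕ → A)
    (a : ℕ → Fin (n + 1) → A) (e N l : ℕ) (i : Fin (n + 1)) : A :=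
  (aeval (cv (pcc (plc d e N) e τ a) e) (pderiv i f) *
    (Polynomial.C (pw45 (plc d e N) e τ l) * Polynomial.X ^ l)).coeff N

/-- the matrix of the differential -/
private noncomputable def Mm45 (d : ℕ) (f : MvPolynomial (Fin (n + 1)) A) (τ : ℕ → A)
    (a : ℕ → Fin (n + 1) → A) (e : ℕ) : Matrix (Fin (d * e + 1)) (Fin (e + 1) × Fin (n + 1)) A :=
  fun N p => mt45 d f τ a e N p.1 p.2

private theorem dcv_coeff45 (d : ℕ) (f : MvPolynomial (Fin (n + 1)) A) (τ : ℕ → A)
    (a V : ℕ → Fin (n + 1) → A) (e N : ℕ) :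
    (dcv f (pcc (plc d e N) e τ a) (pcc (plc d e N) e τ V) e).coeff N =
      ∑ p : Fin (e + 1) × Fin (n + 1), mt45 d f τ a e N p.1 p.2 * V p.1 p.2 := by
  have h : ∀ i : Fin (n + 1), (aeval (cv (pcc (plc d e N) e τ a) e) (pderiv i f) *
      cv (pcc (plc d e N) e τ V) e i).coeff N =
      ∑ l ∈ Finset.range (e + 1), mt45 d f τ a e N l i * V l i := by
    intro i
    have h1 : cv (pcc (plc d e N) e τ V) e i = ∑ l ∈ Finset.range (e + 1),
        Polynomial.C (pcc (plc d e N) e τ V l i) * Polynomial.X ^ l := rfl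
    rw [h1, Finset.mul_sum, Polynomial.finsetSum_coeff]
    refine Finset.sum_congr rfl fun l _ => ?_
    have h2 : aeval (cv (pcc (plc d e N) e τ a) e) (pderiv i f) *
        (Polynomial.C (pcc (plc d e N) e τ V l i) * Polynomial.X ^ l) =
        Polynomial.C (V l i) * (aeval (cv (pcc (plc d e N) e τ a) e) (pderiv i f) *
          (Polynomial.C (pw45 (plc d e N) e τ l) * Polynomial.X ^ l)) := by
      rw [pcc_eq45, Polynomial.C_mul]
      ring
    rw [h2, Polynomial.coeff_C_mul, mul_comm]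
    rfl
  unfold dcv
  rw [Polynomial.finsetSum_coeff, Finset.sum_congr rfl fun i _ => h i, Finset.sum_comm,
    Fintype.sum_prod_type, Finset.sum_range]

private theorem sur_iff45 (d : ℕ) (f : MvPolynomial (Fin (n + 1)) A) (τ : ℕ → A)
    (a : ℕ → Fin (n + 1) → A) (e : ℕ) :
    Sur d f τ a e ↔ Function.Surjective (Mm45 d f τ a e).mulVec := by
  constructor
  · intro h y
    obtain ⟨V, hV⟩ := h fun N => if h : N < d * e + 1 then y ⟨N, h⟩ else 0
    refine ⟨fun p => V p.1 p.2, funext fun N => ?_⟩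
    have h1 := hV N (by have := N.2; omega)
    rw [dcv_coeff45, dif_pos N.2] at h1
    exact h1
  · intro h y
    obtain ⟨v, hv⟩ := h fun N => y N
    refine ⟨fun l i => if h : l < e + 1 then v (⟨l, h⟩, i) else 0, fun N hN => ?_⟩
    rw [dcv_coeff45]
    have h1 := congrFun hv ⟨N, by omega⟩
    refine Eq.trans ?_ h1
    refine Finset.sum_congr rfl fun p _ => ?_
    rw [dif_pos p.1.2]
    rfl

end Mat

/-! ### Specialisation -/

private theorem keyr45 {A B : Type*} [CommRing A] [CommRing B] (φ : A →+* B)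
    (f : MvPolynomial (Fin (n + 1)) A) (a : ℕ → Fin (n + 1) → A) (e : ℕ) :
    aeval (cv (fun l i => φ (a l i)) e) (map φ f) = (aeval (cv a e) f).map φ := by
  have h1 : cv (fun l i => φ (a l i)) e = fun i => Polynomial.mapRingHom φ (cv a e i) := by
    funext i
    exact (map_cv φ a e i).symm
  rw [h1, aeval_def, eval₂_map, ← Polynomial.coe_mapRingHom, aeval_def, hom_eval₂]
  congr 1
  ext x
  simp

private theorem pw_congr45 {A : Type*} [CommRing A] {j e : ℕ} (hj : j ≤ e - 1) {τ τ' : ℕ → A}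
    (h : ∀ s, 1 ≤ s → s < e → τ s = τ' s) (l : ℕ) : pw45 j e τ l = pw45 j e τ' l := by
  unfold pw45
  congr 1
  · refine Finset.prod_congr rfl fun s hs => ?_
    rw [Finset.mem_Ico] at hs
    rw [h s hs.1 (by omega)]
  · refine Finset.prod_congr rfl fun s hs => ?_
    rw [Finset.mem_Ico] at hs
    rw [h s (by omega) hs.2]

private theorem pw_map45 {A B : Type*} [CommRing A] [CommRing B] (φ : A →+* B) (j e : ℕ)
    (τ : ℕ → A) (l : ℕ) : φ (pw45 j e τ l) = pw45 j e (fun s => φ (τ s)) l := by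
  unfold pw45
  simp only [map_mul, map_prod, map_pow]

private theorem mt_map45 (c₀ : Mon n d → K) (e N l : ℕ) (i : Fin (n + 1)) (τ : ℕ → Ω)
    (a : ℕ → Fin (n + 1) → Ω) :
    aeval (qt τ a e) (mt45 d (fm fun μ : Mon n d =>
      (C (c₀ μ) : MvPolynomial (Fin (e - 1) ⊕ (Fin (e + 1) × Fin (n + 1))) K))
      (ut K n e) (ua K n e) e N l i) = mt45 d (fm (bc Ω c₀)) τ a e N l i := by
  obtain ⟨φ, hφ⟩ : ∃ φ : MvPolynomial (Fin (e - 1) ⊕ (Fin (e + 1) × Fin (n + 1))) K →+* Ω,
      ∀ p, φ p = aeval (qt τ a e) p :=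
    ⟨((aeval (qt τ a e) : _ →ₐ[K] Ω) : _ →+* Ω), fun _ => rfl⟩
  have hj : plc d e N ≤ e - 1 := min_le_right _ _
  have hut : ∀ s, 1 ≤ s → s < e → φ (ut K n e s) = τ s := by
    intro s hs hse
    have hs' : s - 1 < e - 1 := by omega
    rw [hφ]
    unfold ut
    rw [dif_pos hs', aeval_X]
    change τ (s - 1 + 1) = τ s
    rw [Nat.sub_add_cancel hs]
  have hua : ∀ l ≤ e, ∀ i, φ (ua K n e l i) = a l i := by
    intro l hl i
    have hl' : l < e + 1 := by omega
    rw [hφ]
    unfold ua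
    rw [dif_pos hl', aeval_X]
    rfl
  have hfm : map φ (fm fun μ : Mon n d =>
      (C (c₀ μ) : MvPolynomial (Fin (e - 1) ⊕ (Fin (e + 1) × Fin (n + 1))) K)) =
      fm (bc Ω c₀) := by
    rw [map_fm]
    congr 1
    funext μ
    rw [hφ, aeval_C]
    rfl
  have hcv : cv (fun l i => φ (pcc (plc d e N) e (ut K n e) (ua K n e) l i)) e =
      cv (pcc (plc d e N) e τ a) e := by
    funext i
    unfold cv
    refine Finset.sum_congr rfl fun l hl => ?_
    rw [Finset.mem_range] at hl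
    congr 2
    change φ (pcc (plc d e N) e (ut K n e) (ua K n e) l i) = _
    rw [pcc_eq45, pcc_eq45, map_mul, pw_map45, hua l (by omega) i, pw_congr45 hj hut]
  rw [← hφ]
  unfold mt45
  rw [← Polynomial.coeff_map, Polynomial.map_mul, Polynomial.map_mul, Polynomial.map_C,
    Polynomial.map_pow, Polynomial.map_X, ← keyr45, hcv, ← pderiv_map, hfm, pw_map45,
    pw_congr45 hj hut]

theorem sur_spc [Infinite K] {c₀ : Mon n d → K} {e : ℕ} {τ τ' : ℕ → Ω}
    {a a' : ℕ → Fin (n + 1) → Ω} (h : Spc K (qt τ a e) (qt τ' a' e))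
    (hS : Sur d (fm (bc Ω c₀)) τ' a' e) : Sur d (fm (bc Ω c₀)) τ a e := by
  rw [sur_iff45] at hS ⊢
  obtain ⟨c, hc⟩ := exists_minor45 _ hS
  refine surj_of_minor45 _ c fun h0 => hc ?_
  have key : ∀ (τ : ℕ → Ω) (a : ℕ → Fin (n + 1) → Ω),
      aeval (qt τ a e) ((Mm45 d (fm fun μ : Mon n d =>
        (C (c₀ μ) : MvPolynomial (Fin (e - 1) ⊕ (Fin (e + 1) × Fin (n + 1))) K))
        (ut K n e) (ua K n e) e).submatrix id c).det =
      ((Mm45 d (fm (bc Ω c₀)) τ a e).submatrix id c).det := by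
    intro τ a
    rw [AlgHom.map_det]
    congr 1
    ext N k
    exact mt_map45 c₀ e N (c k).1 (c k).2 τ a
  rw [← key] at h0 ⊢
  exact h _ h0

/-! ### From chains to curves -/

private theorem aev45 {A S : Type*} [CommRing A] [CommRing S] [Algebra A S] {q : ℕ}
    {f : MvPolynomial (Fin (n + 1)) A} (hf : f.IsHomogeneous q) (t : S) (g : Fin (n + 1) → S) :
    aeval (fun i => t * g i) f = t ^ q * aeval g f := by
  rw [aeval_def, aeval_def, eval₂_eq', eval₂_eq', Finset.mul_sum]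
  refine Finset.sum_congr rfl fun m hm => ?_
  have h1 : m.degree = q := by
    by_contra hcon
    exact (mem_support_iff.mp hm) (hf.coeff_eq_zero hcon)
  have h2 : ∏ i, (t * g i) ^ m i = t ^ q * ∏ i, g i ^ m i := by
    simp only [mul_pow]
    rw [Finset.prod_mul_distrib, Finset.prod_pow_eq_pow_sum]
    congr 2
    rw [← h1, Finsupp.degree_eq_sum]
  rw [h2]
  ring

private theorem cv_scale45 {A : Type*} [CommRing A] (u θ : A) (F : ℕ → Fin (n + 1) → A) (e : ℕ)
    (i : Fin (n + 1)) : cv (fun l i => u * θ ^ l * F l i) e i =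
      Polynomial.C u * Polynomial.aeval (Polynomial.C θ * Polynomial.X) (cv F e i) := by
  unfold cv
  rw [map_sum, Finset.mul_sum]
  refine Finset.sum_congr rfl fun l _ => ?_
  simp only [map_mul, map_pow, Polynomial.aeval_X, Polynomial.aeval_C, mul_pow]
  change _ = Polynomial.C u * (Polynomial.C (F l i) * _)
  ring

/-- the differential at the rescaled curve -/
private theorem dcv_scale45 {A : Type*} [CommRing A] {f : MvPolynomial (Fin (n + 1)) A}
    (hf : f.IsHomogeneous d) (u θ : A) (F G : ℕ → Fin (n + 1) → A) (e : ℕ) :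
    dcv f (fun l i => u * θ ^ l * F l i) (fun l i => u * θ ^ l * G l i) e =
      Polynomial.C (u ^ (d - 1 + 1)) *
        Polynomial.aeval (Polynomial.C θ * Polynomial.X) (dcv f F G e) := by
  unfold dcv
  rw [map_sum, Finset.mul_sum]
  refine Finset.sum_congr rfl fun i _ => ?_
  have h1 : cv (fun l i => u * θ ^ l * F l i) e = fun i =>
      Polynomial.C u * Polynomial.aeval (Polynomial.C θ * Polynomial.X) (cv F e i) :=
    funext fun i => cv_scale45 u θ F e i
  rw [h1, aev45 hf.pderiv, cv_scale45, map_mul]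
  have h2 : aeval (fun i => Polynomial.aeval (Polynomial.C θ * Polynomial.X) (cv F e i))
      (pderiv i f) = Polynomial.aeval (Polynomial.C θ * Polynomial.X)
        (aeval (cv F e) (pderiv i f)) := (comp_aeval_apply _ _ _).symm
  rw [h2, pow_succ, Polynomial.C_mul, Polynomial.C_pow]
  ring

private theorem pw_eq45 {e j : ℕ} (hj : j < e) {τ : ℕ → Ω} (hτ : ∀ s, 1 ≤ s → s < e → τ s ≠ 0)
    (l : ℕ) : pw45 j e τ l = (∏ s ∈ Finset.Ico 1 (j + 1), τ s ^ s) *
      (∏ s ∈ Finset.Ico 1 (j + 1), (τ s)⁻¹) ^ l * wt e τ l := by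
  unfold pw45 wt
  rw [← Finset.prod_Ico_consecutive (fun s => τ s ^ (l - s)) (show 1 ≤ j + 1 by omega)
    (show j + 1 ≤ e by omega), ← mul_assoc, ← Finset.prod_pow, ← Finset.prod_mul_distrib,
    ← Finset.prod_mul_distrib]
  congr 1
  refine Finset.prod_congr rfl fun s hs => ?_
  rw [Finset.mem_Ico] at hs
  have h0 : τ s ≠ 0 := hτ s hs.1 (by omega)
  rw [inv_pow]
  have h1 : τ s ^ l ≠ 0 := pow_ne_zero _ h0
  field_simp
  rw [← pow_add, ← pow_add]
  congr 1
  omega

theorem sur_curve {e : ℕ} (he : 1 ≤ e) {f : MvPolynomial (Fin (n + 1)) Ω}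
    (hf : f.IsHomogeneous d) {τ : ℕ → Ω} (hτ : ∀ s, 1 ≤ s → s < e → τ s ≠ 0)
    {a : ℕ → Fin (n + 1) → Ω} (h : Sur d f τ a e) (y : ℕ → Ω) :
    ∃ V : ℕ → Fin (n + 1) → Ω, ∀ N ≤ d * e,
      (dcv f (fun l i => wt e τ l * a l i) V e).coeff N = y N := by
  obtain ⟨u, hu⟩ : ∃ u : ℕ → Ω, ∀ j, u j = ∏ s ∈ Finset.Ico 1 (j + 1), τ s ^ s :=
    ⟨_, fun _ => rfl⟩
  obtain ⟨θ, hθ⟩ : ∃ θ : ℕ → Ω, ∀ j, θ j = ∏ s ∈ Finset.Ico 1 (j + 1), (τ s)⁻¹ :=
    ⟨_, fun _ => rfl⟩
  have hu0 : ∀ j < e, u j ≠ 0 := by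
    intro j hj
    rw [hu, Finset.prod_ne_zero_iff]
    intro s hs
    rw [Finset.mem_Ico] at hs
    exact pow_ne_zero _ (hτ s hs.1 (by omega))
  have hθ0 : ∀ j < e, θ j ≠ 0 := by
    intro j hj
    rw [hθ, Finset.prod_ne_zero_iff]
    intro s hs
    rw [Finset.mem_Ico] at hs
    exact inv_ne_zero (hτ s hs.1 (by omega))
  obtain ⟨V, hV⟩ := h fun N => u (plc d e N) ^ (d - 1 + 1) * (θ (plc d e N) ^ N * y N)
  refine ⟨fun l i => wt e τ l * V l i, fun N hN => ?_⟩
  have hj : plc d e N < e := lt_of_le_of_lt (min_le_right _ _) (by omega)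
  have h1 : ∀ W : ℕ → Fin (n + 1) → Ω, pcc (plc d e N) e τ W = fun l i =>
      u (plc d e N) * θ (plc d e N) ^ l * (wt e τ l * W l i) := by
    intro W
    funext l i
    rw [pcc_eq45, pw_eq45 hj hτ, hu, hθ]
    ring
  have h2 := hV N hN
  rw [h1 a, h1 V, dcv_scale45 hf, Polynomial.coeff_C_mul] at h2
  have h3 : ∀ P : Polynomial Ω, (Polynomial.aeval (Polynomial.C (θ (plc d e N)) * Polynomial.X)
      P).coeff N = P.coeff N * θ (plc d e N) ^ N := fun P => Polynomial.comp_C_mul_X_coeff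
  rw [h3, mul_comm (Polynomial.coeff _ _)] at h2
  exact mul_left_cancel₀ (pow_ne_zero _ (hθ0 _ hj))
    (mul_left_cancel₀ (pow_ne_zero _ (hu0 _ hj)) h2)

end Pool.Agent.Helper30.RY
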