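import Mathlib
import Pool.Agent.Helper30.RC.Jac
import Pool.Agent.Helper30.RY.Jdf
import Pool.Agent.Helper30.RY.Hqd

/-!
# Block RY-JCD: the differential of the equations in terms of the polynomials `hq` and `hv`

`RC.dd W Z p = ∑ t, Z t * eval W (pderiv t p)` is the derivative of `p` at `W` in the direction `Z`.
`Z = Sum.elim 0 (vt V e)`: only the coordinates of the vectors `a l` are changed, in the direction `V`.
Proof: extend `dd` to polynomials in `T` coefficientwise; it is a derivation (`RC.dd_mul`) along evaluation at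
`W`.  `dd` of the universal curve `cv (pcc j e (ut ..) (ua ..)) e i` is `cv (pcc j e τ V) e i` (`pcc` is the
product of `ua l i` and a product of the `ut s`, whose derivatives vanish: `Z (inl _) = 0`).  For
`F ∈ A[x_0, ..., x_n]` with coefficients in `K` one gets `dd (F(curve)) = ∑_i (∂_i F)(curve) * dd (curve_i)`
(induction on `F`: `MvPolynomial.induction_on`, compare `RC.dd_pull` in `Pool/Agent/Helper30/RC/SurjB.lean`,
which proves the same statement for the ring `CoeffRing`).
-/

namespace Pool.Agent.Helper30.RY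

open MvPolynomial

variable {K : Type*} [Field K] {n d : ℕ}

section general

variable {ι : Type*} [Fintype ι] (W Z : ι → K)

private theorem dd0_28 : RC.dd W Z (0 : MvPolynomial ι K) = 0 := by simp [RC.dd]

private theorem dd1_28 : RC.dd W Z (1 : MvPolynomial ι K) = 0 := by
  have := RC.dd_C W Z (1 : K)
  rwa [map_one] at this

private theorem ddsum_28 {κ : Type*} (s : Finset κ) (g : κ → MvPolynomial ι K) :
    RC.dd W Z (∑ x ∈ s, g x) = ∑ x ∈ s, RC.dd W Z (g x) := by
  classical
  induction s using Finset.induction_on with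
  | empty => simpa using dd0_28 W Z
  | insert a s ha ih => rw [Finset.sum_insert ha, Finset.sum_insert ha, RC.dd_add, ih]

private theorem ddpow_28 {p : MvPolynomial ι K} (h : RC.dd W Z p = 0) (k : ℕ) :
    RC.dd W Z (p ^ k) = 0 := by
  induction k with
  | zero => rw [pow_zero]; exact dd1_28 W Z
  | succ k ih => rw [pow_succ, RC.dd_mul, ih, h, mul_zero, mul_zero, add_zero]

private theorem ddprod_28 {κ : Type*} (s : Finset κ) (g : κ → MvPolynomial ι K)
    (h : ∀ x ∈ s, RC.dd W Z (g x) = 0) : RC.dd W Z (∏ x ∈ s, g x) = 0 := by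
  classical
  induction s using Finset.induction_on with
  | empty => rw [Finset.prod_empty]; exact dd1_28 W Z
  | insert a s ha ih =>
    rw [Finset.prod_insert ha, RC.dd_mul, h a (Finset.mem_insert_self a s),
      ih fun x hx => h x (Finset.mem_insert_of_mem hx), mul_zero, mul_zero, add_zero]

private theorem key_28 (P : Fin (n + 1) → Polynomial (MvPolynomial ι K))
    (P0 PV : Fin (n + 1) → Polynomial K) (h0 : ∀ i, (P i).map (eval W) = P0 i)
    (hV : ∀ i b, RC.dd W Z ((P i).coeff b) = (PV i).coeff b)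
    (f : MvPolynomial (Fin (n + 1)) K) (N : ℕ) :
    RC.dd W Z ((aeval P (map (C : K →+* MvPolynomial ι K) f)).coeff N) =
      (∑ i, aeval P0 (pderiv i f) * PV i).coeff N := by
  have hmap : ∀ g : MvPolynomial (Fin (n + 1)) K,
      (aeval P (map (C : K →+* MvPolynomial ι K) g)).map (eval W) = aeval P0 g := by
    intro g
    have h1 : P0 = fun i => Polynomial.mapRingHom (eval W) (P i) := by
      funext i
      exact (h0 i).symm
    rw [h1, aeval_def, eval₂_map, ← Polynomial.coe_mapRingHom, aeval_def, hom_eval₂]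
    congr 1
    ext x
    simp
  induction f using MvPolynomial.induction_on generalizing N with
  | C c =>
    rw [map_C, aeval_C, Polynomial.algebraMap_apply, Polynomial.coeff_C]
    simp only [pderiv_C, map_zero, zero_mul, Finset.sum_const_zero, Polynomial.coeff_zero]
    split_ifs
    · exact RC.dd_C W Z c
    · exact dd0_28 W Z
  | add f g hf hg =>
    rw [map_add, map_add, Polynomial.coeff_add, RC.dd_add, hf, hg, ← Polynomial.coeff_add,
      ← Finset.sum_add_distrib]
    congr 1
    refine Finset.sum_congr rfl fun i _ => ?_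
    rw [map_add, map_add, add_mul]
  | mul_X f s hf =>
    have h1 : ∑ i, aeval P0 (pderiv i (f * X s)) * PV i =
        P0 s * (∑ i, aeval P0 (pderiv i f) * PV i) + aeval P0 f * PV s := by
      have h2 : ∀ i, aeval P0 (pderiv i (f * X s)) * PV i =
          P0 s * (aeval P0 (pderiv i f) * PV i) + (if i = s then aeval P0 f * PV s else 0) := by
        intro i
        rw [Derivation.leibniz, pderiv_X, smul_eq_mul, smul_eq_mul, map_add, map_mul, map_mul,
          aeval_X, Pi.single_apply]
        by_cases h : i = s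
        · subst h
          simp only [if_true, map_one]
          ring
        · have h' : s ≠ i := fun e => h e.symm
          simp only [if_neg h, if_neg h', map_zero]
          ring
      rw [Finset.sum_congr rfl fun i _ => h2 i, Finset.sum_add_distrib, ← Finset.mul_sum]
      simp
    rw [h1, map_mul, map_mul, map_X, aeval_X, Polynomial.coeff_mul, ddsum_28,
      Polynomial.coeff_add, mul_comm (P0 s), Polynomial.coeff_mul, Polynomial.coeff_mul,
      ← Finset.sum_add_distrib]
    refine Finset.sum_congr rfl fun x _ => ?_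
    rw [RC.dd_mul, hf, hV, ← hmap f, Polynomial.coeff_map, ← h0 s, Polynomial.coeff_map]
    ring

end general

private theorem cvc_28 {A : Type*} [CommRing A] (a : ℕ → Fin (n + 1) → A) (e : ℕ)
    (i : Fin (n + 1)) (b : ℕ) : (cv a e i).coeff b = if b ≤ e then a b i else 0 := by
  unfold cv
  rw [Polynomial.finsetSum_coeff]
  simp only [Polynomial.coeff_C_mul, Polynomial.coeff_X_pow, mul_ite, mul_one, mul_zero]
  rw [Finset.sum_ite_eq]
  simp only [Finset.mem_range, Nat.lt_succ_iff]

theorem dd_hq (c₀ : Mon n d → K) {e j : ℕ} (hj : j < e) (N : ℕ) (τ : ℕ → K)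
    (a V : ℕ → Fin (n + 1) → K) :
    RC.dd (qt τ a e) (Sum.elim (fun _ => 0) (vt V e)) (hq c₀ e j N) =
      (dcv (fm c₀) (pcc j e τ a) (pcc j e τ V) e).coeff N := by
  have hut : ∀ s, 1 ≤ s → s < e → eval (qt τ a e) (ut K n e s) = τ s := by
    intro s hs hse
    have hs' : s - 1 < e - 1 := by omega
    unfold ut
    rw [dif_pos hs', eval_X]
    change τ (s - 1 + 1) = τ s
    rw [Nat.sub_add_cancel hs]
  have hua : ∀ l ≤ e, ∀ i, eval (qt τ a e) (ua K n e l i) = a l i := by
    intro l hl i
    have hl' : l < e + 1 := by omega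
    unfold ua
    rw [dif_pos hl', eval_X]
    rfl
  have dut : ∀ s, RC.dd (qt τ a e) (Sum.elim (fun _ => 0) (vt V e)) (ut K n e s) = 0 := by
    intro s
    unfold ut
    split_ifs with h
    · rw [RC.dd_X]
      rfl
    · exact dd0_28 _ _
  have dua : ∀ l ≤ e, ∀ i, RC.dd (qt τ a e) (Sum.elim (fun _ => 0) (vt V e))
      (ua K n e l i) = V l i := by
    intro l hl i
    have hl' : l < e + 1 := by omega
    unfold ua
    rw [dif_pos hl', RC.dd_X]
    rfl
  have hp1 : ∀ l, eval (qt τ a e) (∏ s ∈ Finset.Ico 1 (j + 1), ut K n e s ^ (s - l)) =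
      ∏ s ∈ Finset.Ico 1 (j + 1), τ s ^ (s - l) := by
    intro l
    rw [map_prod]
    refine Finset.prod_congr rfl fun s hs => ?_
    rw [Finset.mem_Ico] at hs
    rw [map_pow, hut s hs.1 (by omega)]
  have hp2 : ∀ l, eval (qt τ a e) (∏ s ∈ Finset.Ico (j + 1) e, ut K n e s ^ (l - s)) =
      ∏ s ∈ Finset.Ico (j + 1) e, τ s ^ (l - s) := by
    intro l
    rw [map_prod]
    refine Finset.prod_congr rfl fun s hs => ?_
    rw [Finset.mem_Ico] at hs
    rw [map_pow, hut s (by omega) hs.2]
  unfold hq
  have hfm : (fm fun μ : Mon n d =>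
      (C (c₀ μ) : MvPolynomial (Fin (e - 1) ⊕ (Fin (e + 1) × Fin (n + 1))) K)) =
      map C (fm c₀) := (map_fm C c₀).symm
  rw [hfm]
  refine key_28 _ _ (cv (pcc j e (ut K n e) (ua K n e)) e) (cv (pcc j e τ a) e)
    (cv (pcc j e τ V) e) ?_ ?_ (fm c₀) N
  · intro i
    ext b
    rw [Polynomial.coeff_map, cvc_28, cvc_28]
    split_ifs with hb
    · unfold pcc
      rw [map_mul, map_mul, hua b hb, hp1, hp2]
    · rw [map_zero]
  · intro i b
    rw [cvc_28, cvc_28]
    split_ifs with hb
    · unfold pcc
      rw [RC.dd_mul, RC.dd_mul, ddprod_28 _ _ _ _ fun s _ => ddpow_28 _ _ (dut s) _,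
        ddprod_28 _ _ _ _ fun s _ => ddpow_28 _ _ (dut s) _, dua b hb, hp1, hp2]
      ring
    · exact dd0_28 _ _

theorem dd_hv (c₀ : Mon n d → K) (e N : ℕ) (a V : ℕ → Fin (n + 1) → K) :
    RC.dd (vt a e) (vt V e) (hv c₀ e N) = (dcv (fm c₀) a V e).coeff N := by
  have hua : ∀ l ≤ e, ∀ i, eval (vt a e) (va K n e l i) = a l i := by
    intro l hl i
    have hl' : l < e + 1 := by omega
    unfold va
    rw [dif_pos hl', eval_X]
    rfl
  have dua : ∀ l ≤ e, ∀ i, RC.dd (vt a e) (vt V e) (va K n e l i) = V l i := by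
    intro l hl i
    have hl' : l < e + 1 := by omega
    unfold va
    rw [dif_pos hl', RC.dd_X]
    rfl
  unfold hv
  have hfm : (fm fun μ : Mon n d => (C (c₀ μ) : MvPolynomial (Fin (e + 1) × Fin (n + 1)) K)) =
      map C (fm c₀) := (map_fm C c₀).symm
  rw [hfm]
  refine key_28 _ _ (cv (va K n e) e) (cv a e) (cv V e) ?_ ?_ (fm c₀) N
  · intro i
    ext b
    rw [Polynomial.coeff_map, cvc_28, cvc_28]
    split_ifs with hb
    · rw [hua b hb]
    · rw [map_zero]
  · intro i b
    rw [cvc_28, cvc_28]
    split_ifs with hb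
    · rw [dua b hb]
    · exact dd0_28 _ _

end Pool.Agent.Helper30.RY
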