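import Mathlib

/-!
# Block RY-REG: regular local rings are domains

`(R, m)` a noetherian local ring whose maximal ideal is generated by `r` elements with
`r ≤ ringKrullDim R`.  Then `R` is a domain.
Proof by induction on `r`.  `r = 0`: `m = 0`, a field.  Let `r ≥ 1`; then `dim R = r ≥ 1`
(`ringKrullDim_le_spanFinrank_maximalIdeal`), so `m` is not a minimal prime, and `m ≠ m^2` (Nakayama).
By prime avoidance (`Ideal.subset_union_prime'` allows up to two non prime ideals) there is
`x ∈ m` not in `m^2` and not in any minimal prime of `R`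
(finitely many).  `m / (x)` is generated by `r - 1` elements: extend `x` to a minimal system of
generators (`x ∉ m^2`: the class of `x` in the cotangent space `m / m^2`, of dimension `r`, is
part of a basis; `IsLocalRing.CotangentSpace`, Nakayama).  `dim R / (x) ≥ r - 1` (e.g.
`ringKrullDim_le_ringKrullDim_quotient_add_card`-like lemmas in
`Mathlib/RingTheory/Ideal/KrullsHeightTheorem.lean`).  By induction `R / (x)` is a domain, that is `(x)`
is a prime ideal.  Let `q ≤ (x)` be a minimal prime of `R` (`Ideal.exists_minimalPrimes_le`).  For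
`y ∈ q`, `y = x a` and `x ∉ q`, so `a ∈ q`: `q = x q`, and `q = 0` by Nakayama.  So `0` is prime.
(`Mathlib/RingTheory/RegularLocalRing/Defs.lean` has the definition `IsRegularLocalRing`; the
statement below is its application.)
-/

namespace Pool.Agent.Helper30.RY

open IsLocalRing

/-- A finite dimensional space is spanned by a nonzero vector and `n` others. -/
private lemma exists_span_h17 {k V : Type*} [Field k] [AddCommGroup V] [Module k V] [FiniteDimensional k V]
    {v : V} (hv : v ≠ 0) {n : ℕ} (hn : Module.finrank k V = n + 1) :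
    ∃ w : Fin n → V, Submodule.span k (insert v (Set.range w)) = ⊤ := by
  obtain ⟨W, hW⟩ := Submodule.exists_isCompl (Submodule.span k {v})
  have h1 := Submodule.finrank_add_eq_of_isCompl hW
  rw [finrank_span_singleton hv, hn] at h1
  have h2 : Module.finrank k W = n := by omega
  let b := Module.finBasisOfFinrankEq k W h2
  refine ⟨fun i => (b i : V), ?_⟩
  rw [Submodule.span_insert]
  have h3 : Submodule.span k (Set.range fun i => (b i : V)) = W := by
    have h4 := congrArg (Submodule.map W.subtype) b.span_eq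
    rw [Submodule.map_span, Submodule.map_top, Submodule.range_subtype, ← Set.range_comp] at h4
    exact h4
  rw [h3]
  exact hW.sup_eq_top

private lemma span_max_h17 (R : Type*) [CommRing R] [IsLocalRing R] [IsNoetherianRing R] {n : ℕ}
    (hn : (maximalIdeal R).spanFinrank = n + 1) {x : R} (hx : x ∈ maximalIdeal R) (hx2 : x ∉ maximalIdeal R ^ 2) :
    ∃ y : Fin n → R, maximalIdeal R = Ideal.span (insert x (Set.range y)) := by
  have hv : (maximalIdeal R).toCotangent ⟨x, hx⟩ ≠ 0 := fun h => hx2 (((maximalIdeal R).toCotangent_eq_zero _).1 h)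
  have hfr : Module.finrank (ResidueField R) (CotangentSpace R) = n + 1 := by
    rw [← spanFinrank_maximalIdeal_eq_finrank_cotangentSpace, hn]
  obtain ⟨w, hw⟩ := exists_span_h17 (k := ResidueField R) (V := CotangentSpace R) hv hfr
  choose y hy using fun i => (maximalIdeal R).toCotangent_surjective (w i)
  have h1 : (maximalIdeal R).toCotangent '' (insert ⟨x, hx⟩ (Set.range y)) =
      insert ((maximalIdeal R).toCotangent ⟨x, hx⟩) (Set.range w) := by
    rw [Set.image_insert_eq, ← Set.range_comp]
    congr 1
    congr 1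
    funext i
    exact hy i
  rw [← h1, CotangentSpace.span_image_eq_top_iff] at hw
  refine ⟨fun i => (y i : R), ?_⟩
  have h2 := congrArg (Submodule.map (maximalIdeal R).subtype) hw
  rw [Submodule.map_span, Submodule.map_top, Submodule.range_subtype, Set.image_insert_eq, ← Set.range_comp] at h2
  exact h2.symm

private lemma exists_x_h17 (R : Type*) [CommRing R] [IsLocalRing R] [IsNoetherianRing R]
    (h0 : maximalIdeal R ≠ ⊥) (h1 : ringKrullDim R ≠ 0) :
    ∃ x ∈ maximalIdeal R, x ∉ maximalIdeal R ^ 2 ∧ ∀ q ∈ minimalPrimes R, x ∉ q := by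
  classical
  by_contra hcon
  push Not at hcon
  have hfin := minimalPrimes.finite_of_isNoetherianRing R
  let s : Finset (Ideal R) := insert (maximalIdeal R ^ 2) hfin.toFinset
  have hsub : ((maximalIdeal R : Ideal R) : Set R) ⊆ ⋃ i ∈ (↑s : Set (Ideal R)), ((id i : Ideal R) : Set R) := by
    intro x hx
    by_cases hx2 : x ∈ maximalIdeal R ^ 2
    · exact Set.mem_biUnion (Finset.mem_coe.2 (Finset.mem_insert_self _ _)) hx2
    · obtain ⟨q, hq, hxq⟩ := hcon x hx hx2
      exact Set.mem_biUnion (Finset.mem_coe.2 (Finset.mem_insert_of_mem (hfin.mem_toFinset.2 hq))) hxq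
  rw [Ideal.subset_union_prime (maximalIdeal R ^ 2) (maximalIdeal R ^ 2)] at hsub
  · obtain ⟨q, hq, hle⟩ := hsub
    rcases Finset.mem_insert.1 hq with rfl | hq
    · apply h0
      apply Submodule.eq_bot_of_le_smul_of_le_jacobson_bot (maximalIdeal R) _ (IsNoetherian.noetherian _)
      · rw [smul_eq_mul, ← pow_two]
        exact hle
      · exact (IsLocalRing.jacobson_eq_maximalIdeal _ bot_ne_top).ge
    · have hq' : q ∈ minimalPrimes R := hfin.mem_toFinset.1 hq
      have hqp : q.IsPrime := hq'.1.1
      have hqm : q = maximalIdeal R := le_antisymm (le_maximalIdeal hqp.ne_top) hle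
      apply h1
      rw [← IsLocalRing.maximalIdeal_height_eq_ringKrullDim, ← hqm]
      have h3 : q.height = 0 := Ideal.height_eq_zero_iff.2 hq'
      rw [h3]
      rfl
  · intro q hq h2 _
    rcases Finset.mem_insert.1 hq with rfl | hq
    · exact (h2 rfl).elim
    · exact (hfin.mem_toFinset.1 hq).1.1

private lemma quot_h17 (R : Type*) [CommRing R] [IsLocalRing R] [IsNoetherianRing R] {n : ℕ}
    (hn : (maximalIdeal R).spanFinrank = n + 1) (hd : ringKrullDim R = ((n + 1 : ℕ) : WithBot ℕ∞)) {x : R}
    (hx : x ∈ maximalIdeal R) (hx2 : x ∉ maximalIdeal R ^ 2) :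
    ∃ _ : IsRegularLocalRing (R ⧸ Ideal.span {x}), (maximalIdeal (R ⧸ Ideal.span {x})).spanFinrank ≤ n := by
  have hne : Ideal.span {x} ≠ ⊤ := by
    intro h
    have h1 : Ideal.span {x} ≤ maximalIdeal R := (Ideal.span_singleton_le_iff_mem _).2 hx
    rw [h, top_le_iff] at h1
    exact (maximalIdeal.isMaximal R).ne_top h1
  have hnt : Nontrivial (R ⧸ Ideal.span {x}) := Ideal.Quotient.nontrivial_iff.2 hne
  have hloc : IsLocalRing (R ⧸ Ideal.span {x}) := IsLocalRing.of_surjective' _ Ideal.Quotient.mk_surjective
  obtain ⟨y, hy⟩ := span_max_h17 R hn hx hx2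
  have h1 : maximalIdeal (R ⧸ Ideal.span {x}) =
      Ideal.span (Set.range fun i => Ideal.Quotient.mk (Ideal.span {x}) (y i)) := by
    rw [← map_maximalIdeal_of_surjective (Ideal.Quotient.mk (Ideal.span {x})) Ideal.Quotient.mk_surjective, hy,
      Ideal.map_span, Set.image_insert_eq, ← Set.range_comp]
    have h2 : Ideal.Quotient.mk (Ideal.span {x}) x = 0 :=
      Ideal.Quotient.eq_zero_iff_mem.2 (Ideal.mem_span_singleton_self x)
    rw [h2, Ideal.span_insert_zero]
    rfl
  have h3 : (maximalIdeal (R ⧸ Ideal.span {x})).spanFinrank ≤ n := by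
    rw [h1]
    refine (Submodule.spanFinrank_span_le_ncard_of_finite (Set.finite_range _)).trans ?_
    rw [← Set.image_univ]
    refine (Set.ncard_image_le Set.finite_univ).trans ?_
    rw [Set.ncard_univ, Nat.card_eq_fintype_card, Fintype.card_fin]
  have h4 : (n : WithBot ℕ∞) ≤ ringKrullDim (R ⧸ Ideal.span {x}) := by
    have h5 := Ideal.height_le_ringKrullDim_quotient_add_one (p := maximalIdeal R) hx
    rw [IsLocalRing.maximalIdeal_height_eq_ringKrullDim, hd] at h5
    push_cast at h5
    revert h5
    generalize ringKrullDim (R ⧸ Ideal.span {x}) = d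
    intro h5
    induction d using WithBot.recBotCoe with
    | bot => exact absurd h5 (by rw [WithBot.bot_add, le_bot_iff]; exact WithBot.coe_ne_bot)
    | coe e =>
      have h6 : ((n : ℕ∞) + 1) ≤ e + 1 := by exact_mod_cast h5
      have h7 : (n : ℕ∞) ≤ e := by
        rwa [ENat.add_le_add_iff_right ENat.one_ne_top] at h6
      exact_mod_cast h7
  refine ⟨IsRegularLocalRing.of_spanFinrank_maximalIdeal_le _ (le_trans ?_ h4), h3⟩
  exact_mod_cast h3

private lemma bot_prime_h17 (R : Type*) [CommRing R] [IsLocalRing R] [IsNoetherianRing R] {x : R}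
    (hx : x ∈ maximalIdeal R) (hq : ∀ q ∈ minimalPrimes R, x ∉ q) (hp : (Ideal.span {x}).IsPrime) : IsDomain R := by
  obtain ⟨q, hq1, hq2⟩ := Ideal.exists_minimalPrimes_le (I := (⊥ : Ideal R)) (J := Ideal.span {x}) bot_le
  have hqp : q.IsPrime := hq1.1.1
  have hxq : x ∉ q := hq q hq1
  have hbot : q = ⊥ := by
    apply Submodule.eq_bot_of_le_smul_of_le_jacobson_bot (Ideal.span {x}) _ (IsNoetherian.noetherian _)
    · intro y hy
      obtain ⟨a, ha⟩ := Ideal.mem_span_singleton'.1 (hq2 hy)
      rw [← ha] at hy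
      have h1 : a ∈ q := (hqp.mem_or_mem hy).resolve_right hxq
      have h6 : x * a ∈ Ideal.span {x} * q := Ideal.mul_mem_mul (Ideal.mem_span_singleton_self x) h1
      rw [← ha, mul_comm a x]
      exact h6
    · exact ((Ideal.span_singleton_le_iff_mem _).2 hx).trans (IsLocalRing.jacobson_eq_maximalIdeal _ bot_ne_top).ge
  rw [hbot] at hqp
  exact IsDomain.of_bot_isPrime R

theorem isDomain_of_regular (R : Type*) [CommRing R] [IsRegularLocalRing R] : IsDomain R := by
  obtain ⟨n, hn⟩ : ∃ n, (maximalIdeal R).spanFinrank = n := ⟨_, rfl⟩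
  induction n using Nat.strong_induction_on generalizing R with
  | _ n ih =>
    have hd := IsRegularLocalRing.spanFinrank_maximalIdeal (R := R)
    rw [hn] at hd
    rcases n with _ | n
    · rw [Submodule.spanFinrank_eq_zero_iff_eq_bot (IsNoetherian.noetherian _)] at hn
      have h1 : IsField R := IsLocalRing.isField_iff_maximalIdeal_eq.2 hn
      exact h1.isDomain
    · have h0 : maximalIdeal R ≠ ⊥ := by
        intro h
        rw [← Submodule.spanFinrank_eq_zero_iff_eq_bot (IsNoetherian.noetherian _)] at h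
        omega
      have h1 : ringKrullDim R ≠ 0 := by
        rw [← hd]
        exact_mod_cast Nat.succ_ne_zero n
      obtain ⟨x, hx, hx2, hxq⟩ := exists_x_h17 R h0 h1
      obtain ⟨hreg, hle⟩ := quot_h17 R hn hd.symm hx hx2
      have hdom := ih _ (Nat.lt_succ_of_le hle) (R ⧸ Ideal.span {x}) rfl
      exact bot_prime_h17 R hx hxq ((Ideal.Quotient.isDomain_iff_prime _).1 hdom)

end Pool.Agent.Helper30.RY
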