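import Mathlib
import Pool.Agent.Helper30.RC.Jac
import Pool.Agent.Helper30.RC.Dim
import Pool.Agent.Helper30.RY.Reg
import Pool.Agent.Helper30.RY.Real
import Pool.Agent.Helper30.RY.KruA

/-!
# Block RY-SML: only one component passes through a smooth point

`E` a field, `h_1, ..., h_q` polynomials over `E` in the variables `ι` (`N = card ι`), `W ∈ E^ι` a point
with `h_j(W) = 0` and surjective Jacobian (`RC.dd W Z p` is the directional derivative of `p` at `W` in the
direction `Z`, see `RC/Jac.lean`).  `P`, `P'` are points of `Ω` with `h_j = 0` which specialise to `W` and have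
rank at least `N - q`.  Then `P ⟶ P'`.

Proof.  Let `M = RC.mpt W` be the maximal ideal of `W` in `A = E[X_ι]`, `A_M` the localisation, of
dimension `N` (`RC.height_max`, `IsLocalization.AtPrime.ringKrullDim_eq_height`).  Choose `r = N - q`
vectors forming a basis of the kernel of the Jacobian and linear forms `l_1, ..., l_r` which are a dual basis
on it, translated so that `l_i(W) = 0`.  Then `M A_M = (h_1, ..., h_q, l_1, ..., l_r)`: by the choice no nonzero
tangent vector is killed by all of them, and `RC.exists_mul_mem` (`RC/Jac.lean`) gives `s` with `s(W) = 1` and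
`s v ∈ (h, l)` for all `v ∈ M`.  Let `B = A_M / (h_1, ..., h_q)`: its maximal ideal is generated by `r`
elements.  `B` has dimension `≥ r` (Krull: `dim A_M ≤ dim B + q`, e.g.
`ringKrullDim_le_ringKrullDim_quotient_add_encard` as in `RC/Dim.lean`).  So `B` is a regular local ring,
hence a domain (`isDomain_of_regular`), of dimension exactly `r`.  The ideals `p = ker (A → Ω, P)` and
`p' = ker (A → Ω, P')` contain the `h_j` and are contained in `M`; they define primes of `B`.
The prime `p B`: `dim B / p B = height of M / p in A / p = trdeg (A / p) ≥ r` (all maximal ideals of a domain of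
finite type have height equal to the transcendence degree; alternatively use `RC.le_dim_local`-like
arguments: it suffices that `p B = 0`, and if `p B ≠ 0`, `B` being a domain of dimension `r`, then
`dim B / p B < r`; the contradiction needs `dim (A_M / p A_M) ≥ r`.  This follows from the statement
`exists_max_height` below).  So `p B = 0 = p' B`, which means `p A_M = (h) A_M = p' A_M` and `p = p'`.

`le_dim_localization`: for a prime `p` of `A = E[X_ι]` contained in the maximal ideal `M`:
`trdeg (A / p) ≤ dim (A_M / p A_M)`.  Proof: induction as in `krull_one`: a chain of primes between `p` and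
`M` of length `trdeg (A / p)`: if `trdeg (A / p) = 0` nothing to prove.  Otherwise `p ≠ M` (`A / M` is
algebraic over `E`); choose `x ∈ M`, `x ∉ p`; `krull_one` for the domain `A / p`, the prime `M / p` and the class of
`x` gives a prime `p < p₁ ≤ M` with `trdeg (A / p) ≤ trdeg (A / p₁) + 1`; continue.  So the height of
`M / p` is at least `trdeg (A / p)`.
-/

namespace Pool.Agent.Helper30.RY

open MvPolynomial

private theorem trdeg_max75 {E : Type*} [Field E] {R : Type*} [CommRing R] [Algebra E R]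
    [Algebra.FiniteType E R] (M : Ideal R) [M.IsMaximal] : Algebra.trdeg E (R ⧸ M) = 0 := by
  let : Field (R ⧸ M) := Ideal.Quotient.field M
  have h1 : Module.Finite E (R ⧸ M) := finite_of_finite_type_of_isJacobsonRing E (R ⧸ M)
  have h2 : Algebra.IsAlgebraic E (R ⧸ M) := Algebra.IsAlgebraic.of_finite E _
  exact trdeg_eq_zero

private theorem height_add75 {E : Type*} [Field E] {R : Type*} [CommRing R] [Algebra E R]
    [Algebra.FiniteType E R] (M : Ideal R) [hM : M.IsMaximal] (r : ℕ) :
    ∀ (P : Ideal R) [P.IsPrime], P ≤ M → (r : Cardinal) ≤ Algebra.trdeg E (R ⧸ P) →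
      P.height + r ≤ M.height := by
  induction r with
  | zero =>
    intro P _ hPM _
    simpa using Ideal.height_mono hPM
  | succ r ih =>
    intro P hP hPM hr
    have hne : P ≠ M := by
      rintro rfl
      rw [trdeg_max75] at hr
      have h0 : (r + 1 : ℕ) = 0 := by
        have h1 : ((r + 1 : ℕ) : Cardinal) = 0 := nonpos_iff_eq_zero.1 hr
        exact_mod_cast h1
      omega
    obtain ⟨x, hxM, hxP⟩ : ∃ x ∈ M, x ∉ P := by
      by_contra hcon
      push Not at hcon
      exact hne (le_antisymm hPM hcon)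
    have hQ : (M.map (Ideal.Quotient.mk P)).IsPrime := Ideal.isPrime_map_quotientMk_of_isPrime hPM
    obtain ⟨P₁, hP₁, hle, hx₁, htr⟩ := krull_one (K := E) (M.map (Ideal.Quotient.mk P))
      (Ideal.Quotient.mk P x) (Ideal.mem_map_of_mem _ hxM)
    let f : R →ₐ[E] ((R ⧸ P) ⧸ P₁) := (Ideal.Quotient.mkₐ E P₁).comp (Ideal.Quotient.mkₐ E P)
    have hfa : ∀ y, f y = Ideal.Quotient.mk P₁ (Ideal.Quotient.mk P y) := fun _ => rfl
    have hf : Function.Surjective f :=
      (Ideal.Quotient.mkₐ_surjective E P₁).comp (Ideal.Quotient.mkₐ_surjective E P)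
    have hker : (RingHom.ker f).IsPrime := RingHom.ker_isPrime f
    have h0 : ∀ y, y ∈ RingHom.ker f ↔ Ideal.Quotient.mk P y ∈ P₁ := by
      intro y
      rw [RingHom.mem_ker, hfa, Ideal.Quotient.eq_zero_iff_mem]
    have h1 : P < RingHom.ker f := by
      refine lt_of_le_of_ne (fun y hy => ?_) ?_
      · rw [h0, Ideal.Quotient.eq_zero_iff_mem.2 hy]
        exact P₁.zero_mem
      · intro he
        apply hxP
        rw [he, h0]
        exact hx₁
    have h2 : RingHom.ker f ≤ M := by
      intro y hy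
      rw [h0] at hy
      have h3 := hle hy
      rw [← Ideal.mem_comap, Ideal.comap_map_of_surjective' _ Ideal.Quotient.mk_surjective,
        Ideal.mk_ker, sup_eq_left.2 hPM] at h3
      exact h3
    have h3 : Algebra.trdeg E (R ⧸ RingHom.ker f) = Algebra.trdeg E ((R ⧸ P) ⧸ P₁) :=
      (Ideal.quotientKerAlgEquivOfSurjective hf).trdeg_eq
    have h4 : (r : Cardinal) ≤ Algebra.trdeg E (R ⧸ RingHom.ker f) := by
      rw [h3, ← Cardinal.add_one_le_add_one_iff]
      refine le_trans ?_ htr
      exact_mod_cast hr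
    have h5 := ih (RingHom.ker f) h2 h4
    have h6 := Ideal.height_add_one_le_of_lt_of_isPrime h1
    calc P.height + ((r + 1 : ℕ) : ℕ∞) = P.height + 1 + r := by
          push_cast
          rw [add_assoc, add_comm 1 (r : ℕ∞)]
      _ ≤ (RingHom.ker f).height + r := add_le_add_left h6 _
      _ ≤ M.height := h5

theorem height_ge {E : Type*} [Field E] {R : Type*} [CommRing R] [IsDomain R] [Algebra E R]
    [Algebra.FiniteType E R] (M : Ideal R) [hM : M.IsMaximal] (r : ℕ)
    (hr : (r : Cardinal) ≤ Algebra.trdeg E R) : (r : ℕ∞) ≤ M.height := by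
  have i1 : (⊥ : Ideal R).IsPrime := Ideal.isPrime_bot
  have h1 : Algebra.trdeg E (R ⧸ (⊥ : Ideal R)) = Algebra.trdeg E R :=
    (AlgEquiv.quotientBot E R).trdeg_eq
  have h2 := height_add75 (E := E) M r ⊥ bot_le (by rw [h1]; exact hr)
  exact le_trans le_add_self h2

private theorem min75 {R : Type*} [CommRing R] (M : Ideal R) [M.IsPrime]
    [IsDomain (Localization.AtPrime M)] {p : Ideal R} [hpp : p.IsPrime] (hp : p ≤ M)
    (h0 : p.height = 0) : p = RingHom.ker (algebraMap R (Localization.AtPrime M)) := by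
  have h1 : p ∈ minimalPrimes R := Ideal.height_eq_zero_iff.1 h0
  have i1 : (RingHom.ker (algebraMap R (Localization.AtPrime M))).IsPrime := RingHom.ker_isPrime _
  have h2 : RingHom.ker (algebraMap R (Localization.AtPrime M)) ≤ p := by
    intro y hy
    rw [RingHom.mem_ker, IsLocalization.map_eq_zero_iff M.primeCompl] at hy
    obtain ⟨s, hs⟩ := hy
    have h3 : (s : R) * y ∈ p := by
      rw [hs]
      exact p.zero_mem
    rcases hpp.mem_or_mem h3 with h4 | h4
    · exact absurd (hp h4) s.2
    · exact h4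
  exact le_antisymm (h1.2 ⟨i1, bot_le⟩ h2) h2

section Sml75

variable {E : Type*} [Field E] {ι : Type*} [Fintype ι] {q : ℕ} (h : Fin q → MvPolynomial ι E)

/-- the ideal of the equations -/
private noncomputable abbrev I75 : Ideal (MvPolynomial ι E) := Ideal.span (Set.range h)

omit [Fintype ι] in
private theorem I75_le {Ω : Type*} [Field Ω] [Algebra E Ω] {P : ι → Ω}
    (hP : ∀ j, aeval P (h j) = 0) : ∀ x ∈ I75 h, aeval P x = 0 := by
  have h1 : I75 h ≤ RingHom.ker (aeval P : MvPolynomial ι E →ₐ[E] Ω) := by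
    rw [Ideal.span_le]
    rintro _ ⟨j, rfl⟩
    exact hP j
  exact fun x hx => h1 hx

/-- evaluation on the quotient -/
private noncomputable def ph75 {Ω : Type*} [Field Ω] [Algebra E Ω] (P : ι → Ω)
    (hP : ∀ j, aeval P (h j) = 0) : (MvPolynomial ι E ⧸ I75 h) →ₐ[E] Ω :=
  Ideal.Quotient.liftₐ (I75 h) (aeval P) (I75_le h hP)

omit [Fintype ι] in
private theorem ph75_mk {Ω : Type*} [Field Ω] [Algebra E Ω] {P : ι → Ω}
    (hP : ∀ j, aeval P (h j) = 0) (x : MvPolynomial ι E) :
    ph75 h P hP (Ideal.Quotient.mk (I75 h) x) = aeval P x := rfl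

/-- `dd` as an additive map -/
private noncomputable def ddH75 (W Z : ι → E) : MvPolynomial ι E →+ E where
  toFun := RC.dd W Z
  map_zero' := by
    rw [← C_0]
    exact RC.dd_C W Z 0
  map_add' := RC.dd_add W Z

private theorem dd_lin75 (W Z : ι → E) (a : ι → E) :
    RC.dd W Z (∑ t, C (a t) * (X t - C (W t))) = ∑ t, Z t * a t := by
  have h1 : RC.dd W Z (∑ t, C (a t) * (X t - C (W t))) =
      ∑ t, RC.dd W Z (C (a t) * (X t - C (W t))) := map_sum (ddH75 W Z) _ _
  rw [h1]
  refine Finset.sum_congr rfl fun t _ => ?_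
  have h2 : (X t - C (W t) : MvPolynomial ι E) = X t + C (-W t) := by
    rw [map_neg, sub_eq_add_neg]
  rw [RC.dd_mul, h2, RC.dd_add, RC.dd_C, RC.dd_C, RC.dd_X, eval_C]
  ring

/-- the Jacobian -/
private noncomputable def J75 (W : ι → E) : (ι → E) →ₗ[E] (Fin q → E) where
  toFun Z j := RC.dd W Z (h j)
  map_add' Z Z' := by
    funext j
    exact RC.dd_add_right W Z Z' (h j)
  map_smul' c Z := by
    funext j
    exact RC.dd_smul_right W Z c (h j)

/-- linear equations which complete the given ones -/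
private theorem exists_lin75 (W : ι → E) (hW : ∀ j, eval W (h j) = 0)
    (hsurj : ∀ y : Fin q → E, ∃ Z : ι → E, ∀ j, RC.dd W Z (h j) = y j) :
    ∃ (r : ℕ) (l : Fin r → MvPolynomial ι E) (s : MvPolynomial ι E),
      Fintype.card ι = q + r ∧ (∀ i, eval W (l i) = 0) ∧ eval W s = 1 ∧
      ∀ x, eval W x = 0 → s * x ∈ Ideal.span (Set.range h ∪ Set.range l) := by
  classical
  have hJ : LinearMap.range (J75 h W) = ⊤ := by
    rw [LinearMap.range_eq_top]
    intro y
    obtain ⟨Z, hZ⟩ := hsurj y
    exact ⟨Z, funext hZ⟩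
  have hdim := LinearMap.finrank_range_add_finrank_ker (J75 h W)
  rw [hJ, finrank_top, Module.finrank_fintype_fun_eq_card, Fintype.card_fin,
    Module.finrank_fintype_fun_eq_card] at hdim
  let b := Module.finBasis E (LinearMap.ker (J75 h W))
  obtain ⟨L, hL⟩ := LinearMap.exists_extend (b.equivFun : LinearMap.ker (J75 h W) →ₗ[E]
    (Fin (Module.finrank E (LinearMap.ker (J75 h W))) → E))
  let l : Fin (Module.finrank E (LinearMap.ker (J75 h W))) → MvPolynomial ι E := fun i =>
    ∑ t, C (L (fun j => if t = j then 1 else 0) i) * (X t - C (W t))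
  have hl0 : ∀ i, eval W (l i) = 0 := by
    intro i
    change eval W (∑ t, C (L (fun j => if t = j then 1 else 0) i) * (X t - C (W t))) = 0
    rw [map_sum]
    refine Finset.sum_eq_zero fun t _ => ?_
    rw [map_mul, map_sub, eval_X, eval_C, eval_C, sub_self, mul_zero]
  have hldd : ∀ Z i, RC.dd W Z (l i) = L Z i := by
    intro Z i
    change RC.dd W Z (∑ t, C (L (fun j => if t = j then 1 else 0) i) * (X t - C (W t))) = _
    rw [dd_lin75, LinearMap.pi_apply_eq_sum_univ L Z, Finset.sum_apply]
    rfl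
  have hIW : Ideal.span (Set.range h ∪ Set.range l) ≤ RC.mpt W := by
    rw [Ideal.span_le]
    rintro _ (⟨j, rfl⟩ | ⟨i, rfl⟩)
    · exact RC.mem_mpt.2 (hW j)
    · exact RC.mem_mpt.2 (hl0 i)
  obtain ⟨s, hs1, hs2⟩ := RC.exists_mul_mem W _ hIW (fun Z hZ => by
    have h1 : Z ∈ LinearMap.ker (J75 h W) := by
      rw [LinearMap.mem_ker]
      funext j
      exact hZ (h j) (Ideal.subset_span (Or.inl ⟨j, rfl⟩))
    have h2 : L Z = 0 := by
      funext i
      rw [← hldd]
      exact hZ (l i) (Ideal.subset_span (Or.inr ⟨i, rfl⟩))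
    have h3 : b.equivFun ⟨Z, h1⟩ = L Z := by
      have := LinearMap.congr_fun hL ⟨Z, h1⟩
      exact this.symm
    rw [h2, LinearEquiv.map_eq_zero_iff] at h3
    exact congrArg Subtype.val h3)
  exact ⟨_, l, s, hdim.symm, hl0, hs1, hs2⟩

/-- the local ring of a smooth point -/
private theorem smooth75 (W : ι → E) (hW : ∀ j, eval W (h j) = 0)
    (hsurj : ∀ y : Fin q → E, ∃ Z : ι → E, ∀ j, RC.dd W Z (h j) = y j)
    (M : Ideal (MvPolynomial ι E ⧸ I75 h)) [M.IsPrime]
    (hM : ∀ x, Ideal.Quotient.mk (I75 h) x ∈ M ↔ eval W x = 0) :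
    ∃ r : ℕ, Fintype.card ι = q + r ∧ M.height ≤ r ∧ IsDomain (Localization.AtPrime M) := by
  classical
  obtain ⟨r, l, s, hcard, hl0, hs1, hs2⟩ := exists_lin75 h W hW hsurj
  let B := Localization.AtPrime M
  let g : MvPolynomial ι E →+* B :=
    (algebraMap (MvPolynomial ι E ⧸ I75 h) B).comp (Ideal.Quotient.mk (I75 h))
  have hg : ∀ x, g x = algebraMap (MvPolynomial ι E ⧸ I75 h) B (Ideal.Quotient.mk (I75 h) x) :=
    fun _ => rfl
  have hgh : ∀ j, g (h j) = 0 := by
    intro j
    have h1 : h j ∈ I75 h := Ideal.subset_span ⟨j, rfl⟩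
    rw [hg, Ideal.Quotient.eq_zero_iff_mem.2 h1, map_zero]
  have hsM : Ideal.Quotient.mk (I75 h) s ∈ M.primeCompl := by
    intro h1
    rw [SetLike.mem_coe, hM, hs1] at h1
    exact one_ne_zero h1
  have hgs : IsUnit (g s) :=
    IsLocalization.map_units B (⟨Ideal.Quotient.mk (I75 h) s, hsM⟩ : M.primeCompl)
  have hmax : IsLocalRing.maximalIdeal B = Ideal.span (Set.range fun i => g (l i)) := by
    refine le_antisymm ?_ ?_
    · rw [← Localization.AtPrime.map_eq_maximalIdeal, Ideal.map_le_iff_le_comap]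
      intro y hy
      obtain ⟨x, rfl⟩ := Ideal.Quotient.mk_surjective y
      rw [hM] at hy
      rw [Ideal.mem_comap, ← hg, ← Ideal.unit_mul_mem_iff_mem _ hgs, ← map_mul]
      have h1 : g (s * x) ∈ (Ideal.span (Set.range h ∪ Set.range l)).map g :=
        Ideal.mem_map_of_mem g (hs2 x hy)
      refine (?_ : (Ideal.span (Set.range h ∪ Set.range l)).map g ≤
        Ideal.span (Set.range fun i => g (l i))) h1
      rw [Ideal.map_span, Ideal.span_le]
      rintro _ ⟨z, (⟨j, rfl⟩ | ⟨i, rfl⟩), rfl⟩
      · rw [hgh]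
        exact Ideal.zero_mem _
      · exact Ideal.subset_span ⟨i, rfl⟩
    · rw [Ideal.span_le]
      rintro _ ⟨i, rfl⟩
      rw [← Localization.AtPrime.map_eq_maximalIdeal]
      exact Ideal.mem_map_of_mem _ ((hM _).2 (hl0 i))
  have hspan : ((IsLocalRing.maximalIdeal B).spanFinrank : ℕ∞) ≤ r := by
    rw [hmax]
    refine (Submodule.spanFinrank_span_le_encard _).trans ((RC.encard_range_le _).trans ?_)
    rw [Fintype.card_fin]
  have hspan' : (IsLocalRing.maximalIdeal B).spanFinrank ≤ r := by exact_mod_cast hspan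
  have hdimB : ringKrullDim B = M.height := IsLocalization.AtPrime.ringKrullDim_eq_height M B
  -- lower bound
  have hWmax : (RC.mpt W).IsMaximal := by
    refine RingHom.ker_isMaximal_of_surjective (eval W) fun c => ⟨C c, eval_C c⟩
  have hWprime : (RC.mpt W).IsPrime := hWmax.isPrime
  have hmap : (RC.mpt W).map (Ideal.Quotient.mk (I75 h)) = M := by
    refine le_antisymm ?_ fun y hy => ?_
    · rw [Ideal.map_le_iff_le_comap]
      intro x hx
      exact (hM x).2 (RC.mem_mpt.1 hx)
    · obtain ⟨x, rfl⟩ := Ideal.Quotient.mk_surjective y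
      exact Ideal.mem_map_of_mem _ (RC.mem_mpt.2 ((hM x).1 hy))
  have hge : (r : ℕ∞) ≤ M.height := by
    have h1 := Ideal.height_le_height_add_encard_of_subset (Set.range h) (p := RC.mpt W) (by
      rintro _ ⟨j, rfl⟩
      exact RC.mem_mpt.2 (hW j))
    have h2 : ((RC.mpt W).map (Ideal.Quotient.mk (Ideal.span (Set.range h)))).height = M.height := by
      exact congrArg Ideal.height hmap
    rw [h2, RC.height_max (RC.mpt W) hWmax, Nat.card_eq_fintype_card, hcard] at h1
    have h3 : (Set.range h).encard ≤ (q : ℕ∞) := by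
      refine (RC.encard_range_le _).trans ?_
      rw [Fintype.card_fin]
    have h4 : ((q + r : ℕ) : ℕ∞) ≤ M.height + q := h1.trans (add_le_add_right h3 _)
    cases hh : M.height with
    | top => exact le_top
    | coe n =>
      rw [hh] at h4
      have h5 : q + r ≤ n + q := by exact_mod_cast h4
      have h6 : r ≤ n := by omega
      exact_mod_cast h6
  have hreg : IsRegularLocalRing B := by
    refine IsRegularLocalRing.of_spanFinrank_maximalIdeal_le B ?_
    rw [hdimB]
    have h1 : (((IsLocalRing.maximalIdeal B).spanFinrank : ℕ) : ℕ∞) ≤ M.height := hspan.trans hge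
    exact_mod_cast h1
  have hle : M.height ≤ r := by
    have h1 := ringKrullDim_le_spanFinrank_maximalIdeal B
    rw [hdimB] at h1
    have h2 : M.height ≤ (((IsLocalRing.maximalIdeal B).spanFinrank : ℕ) : ℕ∞) := by
      exact_mod_cast h1
    exact h2.trans hspan
  exact ⟨r, hcard, hle, isDomain_of_regular B⟩

/-- the rank of a point as a transcendence degree -/
private theorem trdeg75 {Ω : Type*} [Field Ω] [Algebra E Ω] [DecidableEq Ω] (P : ι → Ω)
    (hP : ∀ j, aeval P (h j) = 0) {r : ℕ} (hr : r ≤ rk E (rg P)) :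
    (r : Cardinal) ≤ Algebra.trdeg E ((MvPolynomial ι E ⧸ I75 h) ⧸ RingHom.ker (ph75 h P hP)) := by
  let φ := ph75 h P hP
  let ψ : ((MvPolynomial ι E ⧸ I75 h) ⧸ RingHom.ker φ) →ₐ[E] Ω := Ideal.kerLiftAlg φ
  let f : MvPolynomial ι E →ₐ[E] ((MvPolynomial ι E ⧸ I75 h) ⧸ RingHom.ker φ) :=
    (Ideal.Quotient.mkₐ E (RingHom.ker φ)).comp (Ideal.Quotient.mkₐ E (I75 h))
  have hf : Function.Surjective f :=
    (Ideal.Quotient.mkₐ_surjective E (RingHom.ker φ)).comp (Ideal.Quotient.mkₐ_surjective E (I75 h))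
  have h1 : aeval (fun i => f (X i)) = f := by
    refine MvPolynomial.algHom_ext fun i => ?_
    rw [aeval_X]
  have h2 : Algebra.adjoin E (Set.range fun i => f (X i)) = ⊤ := by
    refine (Algebra.adjoin_range_eq_range_aeval E (fun i => f (X i))).trans ?_
    rw [h1]
    exact (AlgHom.range_eq_top f).2 hf
  have h3 := rk_eq_trdeg (K := E) ψ (Ideal.kerLiftAlg_injective φ) (fun i => f (X i)) h2
  have h4 : (fun i => ψ (f (X i))) = P := by
    funext i
    change aeval P (X i) = P i
    rw [aeval_X]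
  rw [h4, Cardinal.lift_uzero] at h3
  change (r : Cardinal) ≤ Algebra.trdeg E ((MvPolynomial ι E ⧸ I75 h) ⧸ RingHom.ker φ)
  rw [h3]
  exact_mod_cast hr

end Sml75

theorem spc_of_smooth {E : Type*} {Ω : Type*} [Field E] [Field Ω] [Algebra E Ω]
    [DecidableEq Ω] {ι : Type*} [Fintype ι] {q : ℕ} (h : Fin q → MvPolynomial ι E) (W : ι → E)
    (hW : ∀ j, eval W (h j) = 0)
    (hsurj : ∀ y : Fin q → E, ∃ Z : ι → E, ∀ j, RC.dd W Z (h j) = y j)
    (P P' : ι → Ω) (hP : ∀ j, aeval P (h j) = 0) (hP' : ∀ j, aeval P' (h j) = 0)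
    (hs : Spc E P fun i => algebraMap E Ω (W i)) (hs' : Spc E P' fun i => algebraMap E Ω (W i))
    (hr : Fintype.card ι ≤ rk E (rg P) + q) (hr' : Fintype.card ι ≤ rk E (rg P') + q) :
    Spc E P P' := by
  classical
  have hW' : ∀ j, aeval W (h j) = 0 := hW
  let φW := ph75 h W hW'
  have hMmax : (RingHom.ker φW).IsMaximal := by
    refine RingHom.ker_isMaximal_of_surjective φW fun c => ⟨algebraMap _ _ c, φW.commutes c⟩
  have hM : ∀ x, Ideal.Quotient.mk (I75 h) x ∈ RingHom.ker φW ↔ eval W x = 0 := by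
    intro x
    rw [RingHom.mem_ker]
    exact Iff.rfl
  have hMp : (RingHom.ker φW).IsPrime := hMmax.isPrime
  obtain ⟨r, hcard, hht, hdom⟩ := smooth75 h W hW hsurj (RingHom.ker φW) hM
  have key : ∀ (Q : ι → Ω) (hQ : ∀ j, aeval Q (h j) = 0),
      (Spc E Q fun i => algebraMap E Ω (W i)) → Fintype.card ι ≤ rk E (rg Q) + q →
      RingHom.ker (ph75 h Q hQ) =
        RingHom.ker (algebraMap (MvPolynomial ι E ⧸ I75 h) (Localization.AtPrime (RingHom.ker φW))) := by
    intro Q hQ hsQ hrQ
    have i1 : (RingHom.ker (ph75 h Q hQ)).IsPrime := RingHom.ker_isPrime _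
    have hle : RingHom.ker (ph75 h Q hQ) ≤ RingHom.ker φW := by
      intro y hy
      obtain ⟨x, rfl⟩ := Ideal.Quotient.mk_surjective y
      rw [RingHom.mem_ker, ph75_mk] at hy
      have h1 := hsQ x hy
      have h2 : aeval (fun i => algebraMap E Ω (W i)) x = algebraMap E Ω (aeval W x) :=
        aeval_algebraMap_apply Ω W x
      rw [h2, map_eq_zero_iff _ (algebraMap E Ω).injective] at h1
      exact (hM x).2 h1
    have htr := trdeg75 h Q hQ (r := r) (by omega)
    have h1 := height_add75 (RingHom.ker φW) r (RingHom.ker (ph75 h Q hQ)) hle htr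
    refine min75 (RingHom.ker φW) hle ?_
    have h2 := h1.trans hht
    cases hh : (RingHom.ker (ph75 h Q hQ)).height with
    | top =>
      rw [hh] at h2
      rw [top_add, top_le_iff] at h2
      exact absurd h2 (ENat.natCast_ne_top r)
    | coe n =>
      rw [hh] at h2
      have h5 : n + r ≤ r := by exact_mod_cast h2
      have h6 : n = 0 := by omega
      rw [h6]
      rfl
  intro p hp
  have h1 : Ideal.Quotient.mk (I75 h) p ∈ RingHom.ker (ph75 h P hP) := by
    rw [RingHom.mem_ker, ph75_mk]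
    exact hp
  rw [key P hP hs hr, ← key P' hP' hs' hr', RingHom.mem_ker, ph75_mk] at h1
  exact h1

end Pool.Agent.Helper30.RY
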