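import Mathlib
import Pool.Agent.Helper30.RY.Bcl
import Pool.Agent.Helper30.RY.Real

/-!
# Block RY-LYO: lifting specialisations to the algebraic closure of the base field

`z` a finite tuple, `E = cl K (rg z)`, `(z, P) ⟶ (z, L)` over `K`.  Then there is `L'` with `(z, L) ~ (z, L')`
over `K` and `P ⟶ L'` over `E`.
Proof: let `K₀ = K(rg z)` (`IntermediateField.adjoin`), `R₀ = K₀[P] ⊆ R = E[P]` (subrings of `Ω`).  `R` is
integral over `R₀` (`E` is algebraic over `K₀`).  The specialisation gives a homomorphism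
`R₀ → Ω`, `P ↦ L`, over `K₀` (a relation of `P` over `K₀ = K(z)` gives, after clearing denominators, a
relation of `(z, P)` over `K`).  Let `q₀` be its kernel and `q` a prime ideal of `R` over `q₀`
(`Ideal.exists_ideal_over_prime_of_isIntegral`).  `exists_real` over the base field `E` (`big_cl`; `R` is
of finite type over `E`) gives an `E`-homomorphism `φ : R → Ω` with kernel `q`; put `L' = φ ∘ P`.  Then
`P ⟶ L'` over `E`, and a polynomial over `K₀` vanishes at `L'` iff it vanishes at `P` modulo `q₀` iff it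
vanishes at `L`.
-/

namespace Pool.Agent.Helper30.RY

open MvPolynomial

section aux71

private theorem lift_prime71 {A B : Type*} [CommRing A] [CommRing B] (j : A →+* B)
    (hj : Function.Injective j) (hint : j.IsIntegral) (q₀ : Ideal A) [q₀.IsPrime] :
    ∃ q : Ideal B, q.IsPrime ∧ ∀ x, j x ∈ q ↔ x ∈ q₀ := by
  let : Algebra A B := j.toAlgebra
  have hI : Algebra.IsIntegral A B := ⟨hint⟩
  obtain ⟨q, -, hq, hqc⟩ := Ideal.exists_ideal_over_prime_of_isIntegral q₀ (⊥ : Ideal B) (by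
    intro x hx
    rw [Ideal.mem_comap, Ideal.mem_bot] at hx
    have : x = 0 := hj (hx.trans (map_zero j).symm)
    rw [this]
    exact q₀.zero_mem)
  refine ⟨q, hq, fun x => ?_⟩
  rw [← hqc]
  exact Iff.rfl

variable {K₀ E Ω : Type*} [Field K₀] [Field E] [Field Ω] [Algebra K₀ Ω] [Algebra E Ω] {ι : Type*}

private theorem adjoin_le71 (σ : K₀ →+* E) (hσ : ∀ c, algebraMap E Ω (σ c) = algebraMap K₀ Ω c)
    (P : ι → Ω) (x : Ω) (hx : x ∈ Algebra.adjoin K₀ (Set.range P)) :
    x ∈ Algebra.adjoin E (Set.range P) := by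
  induction hx using Algebra.adjoin_induction with
  | mem x hx => exact Algebra.subset_adjoin hx
  | algebraMap c =>
    rw [← hσ c]
    exact Subalgebra.algebraMap_mem _ _
  | add x y _ _ hx hy => exact Subalgebra.add_mem _ hx hy
  | mul x y _ _ hx hy => exact Subalgebra.mul_mem _ hx hy

private theorem exists_j_abs71 (A : Subalgebra K₀ Ω) (B : Subalgebra E Ω) (h : ∀ x ∈ A, x ∈ B) :
    ∃ j : A →+* B, ∀ x, ((j x : B) : Ω) = (x : Ω) :=
  ⟨{ toFun := fun x => ⟨(x : Ω), h _ x.2⟩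
     map_one' := rfl
     map_mul' := fun _ _ => rfl
     map_zero' := rfl
     map_add' := fun _ _ => rfl }, fun _ => rfl⟩

private theorem exists_j71 (σ : K₀ →+* E) (hσ : ∀ c, algebraMap E Ω (σ c) = algebraMap K₀ Ω c)
    (P : ι → Ω) : ∃ j : Algebra.adjoin K₀ (Set.range P) →+* Algebra.adjoin E (Set.range P),
      ∀ x, ((j x : Algebra.adjoin E (Set.range P)) : Ω) = (x : Ω) :=
  exists_j_abs71 _ _ fun x hx => adjoin_le71 σ hσ P x hx

private theorem ft71 [Finite ι] (P : ι → Ω) : Algebra.FiniteType E (Algebra.adjoin E (Set.range P)) :=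
  (Subalgebra.fg_iff_finiteType _).1 (Subalgebra.fg_def.2 ⟨_, Set.finite_range _, rfl⟩)

private theorem integral71 (halg : ∀ c : E, IsAlgebraic K₀ (algebraMap E Ω c)) (P : ι → Ω)
    (x : Ω) (hx : x ∈ Algebra.adjoin E (Set.range P)) :
    IsIntegral (Algebra.adjoin K₀ (Set.range P)) x := by
  induction hx using Algebra.adjoin_induction with
  | mem x hx =>
    exact isIntegral_algebraMap
      (x := (⟨x, Algebra.subset_adjoin hx⟩ : Algebra.adjoin K₀ (Set.range P)))
  | algebraMap c => exact (isAlgebraic_iff_isIntegral.1 (halg c)).tower_top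
  | add x y _ _ hx hy => exact hx.add hy
  | mul x y _ _ hx hy => exact hx.mul hy

private theorem hom_integral71 (halg : ∀ c : E, IsAlgebraic K₀ (algebraMap E Ω c)) (P : ι → Ω)
    (j : Algebra.adjoin K₀ (Set.range P) →+* Algebra.adjoin E (Set.range P))
    (hj : ∀ x, ((j x : Algebra.adjoin E (Set.range P)) : Ω) = (x : Ω)) : j.IsIntegral := by
  intro x
  obtain ⟨f, hf, hf0⟩ := integral71 halg P (x : Ω) x.2
  refine ⟨f, hf, ?_⟩
  apply Subtype.val_injective
  have h1 : (Algebra.adjoin E (Set.range P)).val.toRingHom (Polynomial.eval₂ j x f) =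
      Polynomial.eval₂ ((Algebra.adjoin E (Set.range P)).val.toRingHom.comp j) (x : Ω) f :=
    Polynomial.hom_eval₂ f j (Algebra.adjoin E (Set.range P)).val.toRingHom x
  have h2 : (Algebra.adjoin E (Set.range P)).val.toRingHom.comp j =
      algebraMap (Algebra.adjoin K₀ (Set.range P)) Ω := by
    ext x
    exact hj x
  rw [h2] at h1
  exact h1.trans hf0

omit [Algebra E Ω] in
private theorem mk_hom71 {A B : Type*} [CommRing A] [Algebra K₀ A] [CommRing B] (φ : B →+* Ω)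
    (j : A →+* B) (hcom : ∀ c, φ (j (algebraMap K₀ A c)) = algebraMap K₀ Ω c) :
    ∃ φ₂ : A →ₐ[K₀] Ω, ∀ x, φ₂ x = φ (j x) :=
  ⟨{ φ.comp j with commutes' := hcom }, fun _ => rfl⟩

private theorem abs2_71 [IsAlgClosed Ω] [DecidableEq Ω] (hb : Big E Ω) (σ : K₀ →+* E)
    (hσ : ∀ c, algebraMap E Ω (σ c) = algebraMap K₀ Ω c) {A B : Type*} [CommRing A] [Algebra K₀ A]
    [CommRing B] [Algebra E B] [Algebra.FiniteType E B] (j : A →+* B) (hjinj : Function.Injective j)
    (hint : j.IsIntegral) (hjc : ∀ c : K₀, j (algebraMap K₀ A c) = algebraMap E B (σ c))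
    (ψ : A →ₐ[K₀] Ω) :
    ∃ (φ : B →ₐ[E] Ω) (φ₂ : A →ₐ[K₀] Ω), (∀ x, φ₂ x = φ (j x)) ∧ ∀ x, ψ x = 0 ↔ φ₂ x = 0 := by
  have hprime : (RingHom.ker (ψ : A →+* Ω)).IsPrime := RingHom.ker_isPrime _
  obtain ⟨q, hq, hqc⟩ := lift_prime71 j hjinj hint (RingHom.ker (ψ : A →+* Ω))
  obtain ⟨φ, hφ⟩ := exists_real (K := E) (Ω := Ω) hb B q
  obtain ⟨φ₂, hφ₂⟩ := mk_hom71 (K₀ := K₀) (φ : B →+* Ω) j (fun c => by
    rw [hjc, RingHom.coe_coe, φ.commutes, hσ])
  refine ⟨φ, φ₂, hφ₂, fun x => ?_⟩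
  rw [hφ₂, RingHom.coe_coe, hφ, hqc]
  exact Iff.rfl

private theorem abs3_71 {A B : Type*} [CommRing A] [Algebra K₀ A] [CommRing B] [Algebra E B]
    (v : B →ₐ[E] Ω) (hv : Function.Injective v) (j : A →+* B) (ψ φ₂ : A →ₐ[K₀] Ω) (φ : B →ₐ[E] Ω)
    (h1 : ∀ x, φ₂ x = φ (j x)) (h2 : ∀ x, ψ x = 0 ↔ φ₂ x = 0) (w : ι → A) (u : ι → B)
    (hu : ∀ i, j (w i) = u i) {P L : ι → Ω} (hP : ∀ i, v (u i) = P i) (hL : ∀ i, ψ (w i) = L i) :
    ∃ L' : ι → Ω, Spc E P L' ∧ Spc K₀ L L' ∧ Spc K₀ L' L := by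
  have e1 : (fun i => ψ (w i)) = L := funext hL
  have e2 : (fun i => φ₂ (w i)) = fun i => φ (u i) := funext fun i => by rw [h1, hu]
  have e3 : (fun i => v (u i)) = P := funext hP
  refine ⟨fun i => φ (u i), ?_, ?_, ?_⟩
  · rw [← e3]
    exact Spc.of_hom v φ (fun x hx => by rw [(map_eq_zero_iff v hv).1 hx, map_zero]) u
  · rw [← e1, ← e2]
    exact Spc.of_hom ψ φ₂ (fun x hx => (h2 x).1 hx) w
  · rw [← e1, ← e2]
    exact Spc.of_hom φ₂ ψ (fun x hx => (h2 x).2 hx) w

private theorem abs_lift71 [IsAlgClosed Ω] [DecidableEq Ω] [Finite ι] (hb : Big E Ω) (σ : K₀ →+* E)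
    (hσ : ∀ c, algebraMap E Ω (σ c) = algebraMap K₀ Ω c)
    (halg : ∀ c : E, IsAlgebraic K₀ (algebraMap E Ω c)) {P L : ι → Ω} (h : Spc K₀ P L) :
    ∃ L' : ι → Ω, Spc E P L' ∧ Spc K₀ L L' ∧ Spc K₀ L' L := by
  obtain ⟨ψ, hψ⟩ := h.exists_hom
  obtain ⟨j, hj⟩ := exists_j71 σ hσ P
  have hjinj : Function.Injective j := by
    intro x y hxy
    apply Subtype.ext
    rw [← hj x, ← hj y, hxy]
  have hft := ft71 (E := E) P
  have hjc : ∀ c : K₀, j (algebraMap K₀ _ c) = algebraMap E (Algebra.adjoin E (Set.range P)) (σ c) := by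
    intro c
    apply Subtype.ext
    rw [hj]
    exact (hσ c).symm
  obtain ⟨φ, φ₂, h1, h2⟩ := abs2_71 hb σ hσ j hjinj (hom_integral71 halg P j hj) hjc ψ
  exact abs3_71 (Algebra.adjoin E (Set.range P)).val Subtype.val_injective j ψ φ₂ φ h1 h2
    (fun i => ⟨P i, Algebra.subset_adjoin (Set.mem_range_self i)⟩)
    (fun i => ⟨P i, Algebra.subset_adjoin (Set.mem_range_self i)⟩)
    (fun i => Subtype.ext (hj _)) (fun i => rfl) hψ

variable {K : Type*} [Field K] [Algebra K Ω] [DecidableEq Ω] {κ : Type*} [Fintype κ]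

omit [Field Ω] in
private theorem coe_rg71 (z : κ → Ω) : ((rg z : Finset Ω) : Set Ω) = Set.range z := by
  unfold rg
  rw [Finset.coe_image, Finset.coe_univ, Set.image_univ]

private theorem mem_adj71 (z : κ → Ω) (y : Ω) (hy : y ∈ Algebra.adjoin K ((rg z : Finset Ω) : Set Ω)) :
    ∃ g : MvPolynomial κ K, aeval z g = y := by
  rw [coe_rg71, Algebra.adjoin_range_eq_range_aeval] at hy
  exact hy

omit [DecidableEq Ω] [Fintype κ] in
/-- Clearing the denominators, abstract form. -/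
private theorem clear_abs71 {A F : Type*} [CommRing A] [IsDomain A] [Field F] [Algebra A F] [IsFractionRing A F]
    [Algebra F Ω] (z : κ → Ω) (hA : ∀ a : A, ∃ g : MvPolynomial κ K, aeval z g = algebraMap F Ω (algebraMap A F a))
    (p : MvPolynomial ι F) :
    ∃ (b : Ω) (q : MvPolynomial (κ ⊕ ι) K), b ≠ 0 ∧
      ∀ X : ι → Ω, aeval (Sum.elim z X) q = b * aeval X p := by
  classical
  obtain ⟨b, hb⟩ := IsLocalization.exist_integer_multiples_of_finset
    (nonZeroDivisors A) (p.support.image fun m => coeff m p)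
  have h1 : ∀ m : ι →₀ ℕ, ∃ g : MvPolynomial κ K, m ∈ p.support →
      aeval z g = algebraMap F Ω (algebraMap A F (b : A)) * algebraMap F Ω (coeff m p) := by
    intro m
    by_cases hm : m ∈ p.support
    · obtain ⟨a, ha⟩ := hb _ (Finset.mem_image_of_mem _ hm)
      obtain ⟨g, hg⟩ := hA a
      refine ⟨g, fun _ => ?_⟩
      rw [hg, ha, Algebra.smul_def, map_mul]
    · exact ⟨0, fun h => absurd h hm⟩
  choose g hg using h1
  refine ⟨algebraMap F Ω (algebraMap A F (b : A)),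
    ∑ m ∈ p.support, rename Sum.inl (g m) * rename Sum.inr (monomial m 1), ?_, fun X => ?_⟩
  · intro h0
    have h2 : algebraMap A F (b : A) = 0 := (algebraMap F Ω).injective (h0.trans (map_zero _).symm)
    have h3 : (b : A) = 0 := (IsFractionRing.injective A F) (h2.trans (map_zero _).symm)
    exact nonZeroDivisors.coe_ne_zero b h3
  · conv_rhs => rw [p.as_sum, map_sum, Finset.mul_sum]
    rw [map_sum]
    refine Finset.sum_congr rfl fun m hm => ?_
    rw [map_mul, aeval_rename, aeval_rename, Sum.elim_comp_inl, Sum.elim_comp_inr, hg m hm,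
      aeval_monomial, aeval_monomial, map_one, one_mul, mul_assoc]

open scoped IntermediateField.algebraAdjoinAdjoin in
/-- Clearing the denominators. -/
private theorem clear71 (z : κ → Ω)
    (p : MvPolynomial ι (IntermediateField.adjoin K ((rg z : Finset Ω) : Set Ω))) :
    ∃ (b : Ω) (q : MvPolynomial (κ ⊕ ι) K), b ≠ 0 ∧
      ∀ X : ι → Ω, aeval (Sum.elim z X) q = b * aeval X p :=
  clear_abs71 (A := Algebra.adjoin K ((rg z : Finset Ω) : Set Ω))
    (F := IntermediateField.adjoin K ((rg z : Finset Ω) : Set Ω)) z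
    (fun a => mem_adj71 z (a : Ω) a.2) p

private theorem spc_adjoin71 {z : κ → Ω} {P L : ι → Ω} (h : Spc K (Sum.elim z P) (Sum.elim z L)) :
    Spc (IntermediateField.adjoin K ((rg z : Finset Ω) : Set Ω)) P L := by
  intro p hp
  obtain ⟨b, q, hb, hq⟩ := clear71 z p
  have h1 := h q (by rw [hq P, hp, mul_zero])
  rw [hq L] at h1
  exact (mul_eq_zero.1 h1).resolve_left hb

omit [DecidableEq Ω] [Fintype κ] in
/-- Conversely. -/
private theorem spc_of71 [Algebra K K₀] [IsScalarTower K K₀ Ω] {z : κ → Ω} (z' : κ → K₀)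
    (hz' : ∀ k, algebraMap K₀ Ω (z' k) = z k) {P L : ι → Ω} (h : Spc K₀ P L) :
    Spc K (Sum.elim z P) (Sum.elim z L) := by
  have key : ∀ (Y : ι → Ω) (p : MvPolynomial (κ ⊕ ι) K),
      aeval Y (aeval (Sum.elim (fun k => C (z' k)) fun i => X i) p : MvPolynomial ι K₀) =
        aeval (Sum.elim z Y) p := by
    intro Y p
    have h1 : ((aeval Y : MvPolynomial ι K₀ →ₐ[K₀] Ω).restrictScalars K).comp
        (aeval (Sum.elim (fun k => C (z' k)) fun i => X i) : MvPolynomial (κ ⊕ ι) K →ₐ[K] MvPolynomial ι K₀) =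
        aeval (Sum.elim z Y) := by
      apply MvPolynomial.algHom_ext
      intro i
      rcases i with k | i
      · simp [hz']
      · simp
    exact DFunLike.congr_fun h1 p
  intro p hp
  rw [← key] at hp ⊢
  exact h _ hp

end aux71

theorem exists_lift_cl {K : Type*} {Ω : Type*} [Field K] [Field Ω] [Algebra K Ω] [IsAlgClosed Ω]
    [DecidableEq Ω] (hb : Big K Ω) {ι κ : Type*} [Fintype ι] [Fintype κ] {z : κ → Ω}
    {P L : ι → Ω} (h : Spc K (Sum.elim z P) (Sum.elim z L)) :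
    ∃ L' : ι → Ω, Spc K (Sum.elim z L) (Sum.elim z L') ∧ Spc K (Sum.elim z L') (Sum.elim z L) ∧
      Spc (cl K (rg z)) P L' := by
  have hK0E : ∀ c : IntermediateField.adjoin K ((rg z : Finset Ω) : Set Ω), (c : Ω) ∈ cl K (rg z) := by
    intro c
    rw [mem_cl_iff]
    exact isAlgebraic_algebraMap c
  have hz0 : ∀ k, z k ∈ IntermediateField.adjoin K ((rg z : Finset Ω) : Set Ω) := by
    intro k
    apply IntermediateField.subset_adjoin
    rw [coe_rg71]
    exact Set.mem_range_self k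
  obtain ⟨L', h1, h2, h3⟩ := abs_lift71 (K₀ := IntermediateField.adjoin K ((rg z : Finset Ω) : Set Ω))
    (E := cl K (rg z)) (big_cl K hb (rg z))
    ((algebraMap (IntermediateField.adjoin K ((rg z : Finset Ω) : Set Ω)) Ω).codRestrict (cl K (rg z)) hK0E)
    (fun c => rfl) (fun c => (mem_cl_iff K).1 c.2) (spc_adjoin71 h)
  obtain ⟨z', hz'⟩ : ∃ z' : κ → IntermediateField.adjoin K ((rg z : Finset Ω) : Set Ω),
      ∀ k, algebraMap (IntermediateField.adjoin K ((rg z : Finset Ω) : Set Ω)) Ω (z' k) = z k :=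
    ⟨fun k => ⟨z k, hz0 k⟩, fun k => rfl⟩
  refine ⟨L', ?_, ?_, h1⟩
  · exact spc_of71 (K := K) (K₀ := IntermediateField.adjoin K ((rg z : Finset Ω) : Set Ω)) z' hz' h2
  · exact spc_of71 (K := K) (K₀ := IntermediateField.adjoin K ((rg z : Finset Ω) : Set Ω)) z' hz' h3

end Pool.Agent.Helper30.RY
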