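import Mathlib
import Pool.Agent.Helper30.RY.Gdf
import Pool.Agent.Helper30.RY.Chn

/-!
# Block RY-FUL: chains of full rank on a good hypersurface

Only the fields `lay` and `smooth` of `Good` are used.  `c = bc Ω c₀`.

* `rk_bc`: the elements `algebraMap K Ω (c₀ μ)` are in `cl K ∅` (`rk_union_of_subset_cl`).
* `Good.bet_eq`: `bet c z = 0` if `z ≠ 0` and `f(z) = 0` (smoothness).
* `Good.curve_le`: `Lay` with `rho = 0` (`rho ≤ bet`), `rk_bc`.
* `Good.point_le`: `fm c ≠ 0` by smoothness (all points would be singular); `z` satisfies a non trivial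
  relation over `K`, so `rk K (rg z) ≤ n` (otherwise `z` is algebraically independent, e.g. by
  `algInd_of_generic` with `s = ∅`, or `eval_ne_zero_of_generic`).
* `Good.chain_le`: `chain_bound` with `E = e`, `rk_bc`; `bet c (a 0) = 0` (`a 0` is a nonzero point of the
  hypersurface: `pcc 0 e τ a 0 = a 0` and `eval_zero_of_vanp` for `j = 0`).
* reversal.  `fcp_rev`: with `τ' i = τ (e - i)`, `a' l = a (e - l)` one has for `j < e`, `l ≤ e`
  `pcc j e τ' a' l = pcc (e - 1 - j) e τ a (e - l)` (substitute `s = e - s'` in the products; the exponents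
  are `s' - l' = l - s` for `s' = e - s`, `l' = e - l`, truncated subtraction), and `vanp_rev`, `vanp_congr`.
  The remaining reversal lemmas: the map `i ↦ e - i` is a bijection of `Ico 1 e`, and of `range (e + 1)`.
* `Full.start`: `chain_le` and `point_le` give `rk (rg (a 0)) = n`.  `Full.stop`: reverse.
* `Full.split`: `fcp_left`, `fcp_right`, `nod_left`, `nod_right`, `brk_split`.  Put `P₁ = rgt τ j ∪ rga a j`,
  `P₂ = rgt (τ (· + j)) (e - j) ∪ rga (a (· + j)) (e - j)`.  `rgt τ e ∪ rga a e ⊆ P₁ ∪ P₂ ∪ {0}` and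
  `rg (a j) ⊆ P₁ ∩ P₂`, so by `rk_submod`: `rk P + rk (rg (a j)) ≤ rk P₁ + rk P₂` (`0` has rank zero).  By
  `chain_le` for `P₂`: `rk P₂ + #brk₂ ≤ rk (rg (a j)) + m (e - j) + (e - j - 1)`, by `chain_le` and
  `point_le` for `P₁`: `rk P₁ + #brk₁ ≤ n + m j + (j - 1)`.  As `P` is full all are equalities: `P₁` is full.
  In the same way for the reversed chain (`Full.rev`) the other part is full.
-/

namespace Pool.Agent.Helper30.RY

open MvPolynomial

section

variable {A : Type*} [CommRing A] {n q : ℕ}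

theorem pcc_rev {e j l : ℕ} (hj : j < e) (hl : l ≤ e) (τ : ℕ → A) (a : ℕ → Fin (n + 1) → A)
    (i : Fin (n + 1)) :
    pcc j e (fun s => τ (e - s)) (fun l => a (e - l)) l i = pcc (e - 1 - j) e τ a (e - l) i := by
  unfold pcc
  have h1 : ∏ s ∈ Finset.Ico 1 (j + 1), τ (e - s) ^ (s - l) =
      ∏ s ∈ Finset.Ico (e - 1 - j + 1) e, τ s ^ (e - l - s) := by
    refine Finset.prod_nbij' (fun s => e - s) (fun s => e - s) ?_ ?_ ?_ ?_ ?_
    · intro s hs
      rw [Finset.mem_Ico] at hs ⊢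
      omega
    · intro s hs
      rw [Finset.mem_Ico] at hs ⊢
      omega
    · intro s hs
      rw [Finset.mem_Ico] at hs
      omega
    · intro s hs
      rw [Finset.mem_Ico] at hs
      omega
    · intro s hs
      rw [Finset.mem_Ico] at hs
      have h2 : s - l = e - l - (e - s) := by omega
      rw [h2]
  have h3 : ∏ s ∈ Finset.Ico (j + 1) e, τ (e - s) ^ (l - s) =
      ∏ s ∈ Finset.Ico 1 (e - 1 - j + 1), τ s ^ (s - (e - l)) := by
    refine Finset.prod_nbij' (fun s => e - s) (fun s => e - s) ?_ ?_ ?_ ?_ ?_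
    · intro s hs
      rw [Finset.mem_Ico] at hs ⊢
      omega
    · intro s hs
      rw [Finset.mem_Ico] at hs ⊢
      omega
    · intro s hs
      rw [Finset.mem_Ico] at hs
      omega
    · intro s hs
      rw [Finset.mem_Ico] at hs
      omega
    · intro s hs
      rw [Finset.mem_Ico] at hs
      have h2 : l - s = e - s - (e - l) := by omega
      rw [h2]
  rw [h1, h3]
  ring

theorem fcp_rev {f : MvPolynomial (Fin (n + 1)) A} (hf : f.IsHomogeneous q) {τ : ℕ → A}
    {a : ℕ → Fin (n + 1) → A} {e : ℕ} (h : FCp f τ a e) :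
    FCp f (fun s => τ (e - s)) (fun l => a (e - l)) e := by
  intro j hj
  have h1 := vanp_rev hf (h (e - 1 - j) (by omega))
  exact (vanp_congr fun l hl i => (pcc_rev hj hl τ a i).symm).mp h1

end

section

variable {Ω : Type*} [Field Ω] [DecidableEq Ω] {n : ℕ}

theorem brk_rev (τ : ℕ → Ω) (e : ℕ) : (brk (fun s => τ (e - s)) e).card = (brk τ e).card := by
  refine Finset.card_bij (fun s _ => e - s) ?_ ?_ ?_
  · intro s hs
    rw [mem_brk] at hs ⊢
    exact ⟨by omega, by omega, hs.2.2⟩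
  · intro s hs s' hs' h
    rw [mem_brk] at hs hs'
    omega
  · intro s hs
    rw [mem_brk] at hs
    refine ⟨e - s, ?_, by omega⟩
    rw [mem_brk]
    refine ⟨by omega, by omega, ?_⟩
    rw [show e - (e - s) = s by omega]
    exact hs.2.2

theorem nod_rev {τ : ℕ → Ω} {a : ℕ → Fin (n + 1) → Ω} {e : ℕ} (h : Nod τ a e) :
    Nod (fun s => τ (e - s)) (fun l => a (e - l)) e := by
  refine ⟨?_, ?_, fun i hi => ?_⟩
  · change a (e - 0) ≠ 0
    rw [Nat.sub_zero]
    exact h.2.1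
  · change a (e - e) ≠ 0
    rw [Nat.sub_self]
    exact h.1
  · change a (e - i) ≠ 0
    rw [mem_brk] at hi
    exact h.2.2 (e - i) (mem_brk.mpr ⟨by omega, by omega, hi.2.2⟩)

theorem rgt_rev (τ : ℕ → Ω) (e : ℕ) : rgt (fun s => τ (e - s)) e = rgt τ e := by
  unfold rgt
  ext x
  rw [Finset.mem_image, Finset.mem_image]
  constructor
  · rintro ⟨s, hs, rfl⟩
    rw [Finset.mem_Ico] at hs
    exact ⟨e - s, Finset.mem_Ico.mpr ⟨by omega, by omega⟩, rfl⟩
  · rintro ⟨s, hs, rfl⟩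
    rw [Finset.mem_Ico] at hs
    refine ⟨e - s, Finset.mem_Ico.mpr ⟨by omega, by omega⟩, ?_⟩
    rw [show e - (e - s) = s by omega]

theorem rga_rev (a : ℕ → Fin (n + 1) → Ω) (e : ℕ) : rga (fun l => a (e - l)) e = rga a e := by
  unfold rga
  ext x
  rw [Finset.mem_biUnion, Finset.mem_biUnion]
  constructor
  · rintro ⟨s, hs, hx⟩
    rw [Finset.mem_range] at hs
    exact ⟨e - s, Finset.mem_range.mpr (by omega), hx⟩
  · rintro ⟨s, hs, hx⟩
    rw [Finset.mem_range] at hs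
    refine ⟨e - s, Finset.mem_range.mpr (by omega), ?_⟩
    change x ∈ rg (a (e - (e - s)))
    rw [show e - (e - s) = s by omega]
    exact hx

private theorem mem_rg38 {ι : Type*} [Fintype ι] (a : ι → Ω) (i : ι) : a i ∈ rg a :=
  Finset.mem_image_of_mem _ (Finset.mem_univ i)

private theorem mem_rga38 {a : ℕ → Fin (n + 1) → Ω} {e l : ℕ} (hl : l ≤ e) (i : Fin (n + 1)) :
    a l i ∈ rga a e :=
  Finset.mem_biUnion.2 ⟨l, Finset.mem_range.2 (by omega), mem_rg38 (a l) i⟩

private theorem rga_mem38 {a : ℕ → Fin (n + 1) → Ω} {e : ℕ} {x : Ω} (hx : x ∈ rga a e) :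
    ∃ l ≤ e, ∃ i, x = a l i := by
  obtain ⟨l, hl, hx⟩ := Finset.mem_biUnion.1 hx
  obtain ⟨i, _, rfl⟩ := Finset.mem_image.1 hx
  exact ⟨l, by have := Finset.mem_range.1 hl; omega, i, rfl⟩

private theorem mem_rgt38 {τ : ℕ → Ω} {e s : ℕ} (h1 : 1 ≤ s) (h2 : s < e) : τ s ∈ rgt τ e :=
  Finset.mem_image_of_mem _ (Finset.mem_Ico.2 ⟨h1, h2⟩)

private theorem rgt_mem38 {τ : ℕ → Ω} {e : ℕ} {x : Ω} (hx : x ∈ rgt τ e) :
    ∃ s, 1 ≤ s ∧ s < e ∧ x = τ s := by
  obtain ⟨s, hs, rfl⟩ := Finset.mem_image.1 hx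
  have := Finset.mem_Ico.1 hs
  exact ⟨s, this.1, this.2, rfl⟩

end

variable {K : Type*} [Field K] {Ω : Type*} [Field Ω] [Algebra K Ω] [DecidableEq Ω] {n d m : ℕ}
  {c₀ : Mon n d → K}

private theorem split38 {e j : ℕ} {τ : ℕ → Ω} {a : ℕ → Fin (n + 1) → Ω}
    (h1 : 1 ≤ j) (h2 : j < e) (h0 : τ j = 0) :
    rk K (rgt τ e ∪ rga a e) + rk K (rg (a j)) ≤
      rk K (rgt τ j ∪ rga a j) +
        rk K (rgt (fun s => τ (s + j)) (e - j) ∪ rga (fun l => a (l + j)) (e - j)) := by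
  set X := rgt τ j ∪ rga a j with hX
  set Y := rgt (fun s => τ (s + j)) (e - j) ∪ rga (fun l => a (l + j)) (e - j) with hY
  have h3 := rk_submod K (rg (a j)) X Y
  have hZX : rg (a j) ∪ X = X := by
    refine Finset.union_eq_right.2 fun x hx => ?_
    obtain ⟨i, _, rfl⟩ := Finset.mem_image.1 hx
    exact Finset.mem_union_right _ (mem_rga38 le_rfl i)
  have hZY : rg (a j) ∪ Y = Y := by
    refine Finset.union_eq_right.2 fun x hx => ?_
    obtain ⟨i, _, rfl⟩ := Finset.mem_image.1 hx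
    have h4 := mem_rga38 (a := fun l => a (l + j)) (Nat.zero_le (e - j)) i
    change a (0 + j) i ∈ _ at h4
    rw [zero_add] at h4
    exact Finset.mem_union_right _ h4
  rw [hZX, hZY] at h3
  have h5 : rk K (rgt τ e ∪ rga a e) ≤ rk K (X ∪ Y) := by
    refine rk_le_of_subset_cl K fun x hx => ?_
    rcases Finset.mem_union.1 hx with hx | hx
    · obtain ⟨s, hs1, hs2, rfl⟩ := rgt_mem38 hx
      rcases lt_trichotomy s j with h | h | h
      · exact subset_cl K _ _ (Finset.mem_union_left _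
          (Finset.mem_union_left _ (mem_rgt38 hs1 h)))
      · rw [h, h0]
        exact zero_mem _
      · have h6 := mem_rgt38 (τ := fun s => τ (s + j)) (e := e - j) (s := s - j) (by omega)
          (by omega)
        change τ (s - j + j) ∈ _ at h6
        rw [Nat.sub_add_cancel h.le] at h6
        exact subset_cl K _ _ (Finset.mem_union_right _ (Finset.mem_union_left _ h6))
    · obtain ⟨l, hl, i, rfl⟩ := rga_mem38 hx
      rcases Nat.lt_or_ge j l with h | h
      · have h6 := mem_rga38 (a := fun l => a (l + j)) (e := e - j) (l := l - j) (by omega) i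
        change a (l - j + j) i ∈ _ at h6
        rw [Nat.sub_add_cancel h.le] at h6
        exact subset_cl K _ _ (Finset.mem_union_right _ (Finset.mem_union_right _ h6))
      · exact subset_cl K _ _ (Finset.mem_union_left _
          (Finset.mem_union_right _ (mem_rga38 h i)))
  omega

theorem rk_bc (c₀ : Mon n d → K) (S : Finset Ω) : rk K (rg (bc Ω c₀) ∪ S) = rk K S := by
  rw [Finset.union_comm]
  refine rk_union_of_subset_cl K fun x hx => ?_
  obtain ⟨i, _, rfl⟩ := Finset.mem_image.1 hx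
  exact (cl K S).algebraMap_mem _

theorem Full.rev {e : ℕ} {c : Mon n d → Ω} {τ : ℕ → Ω} {a : ℕ → Fin (n + 1) → Ω}
    (h : Full K m e c τ a) : Full K m e c (fun s => τ (e - s)) (fun l => a (e - l)) := by
  refine ⟨fcp_rev (fm_hom c) h.fcp, nod_rev h.nod, ?_⟩
  rw [rgt_rev, rga_rev, brk_rev]
  exact h.rnk

theorem Good.bet_eq (hG : Good K Ω m c₀) {z : Fin (n + 1) → Ω} (hz : z ≠ 0)
    (h0 : eval z (fm (bc Ω c₀)) = 0) : bet (bc Ω c₀) z = 0 := by
  unfold bet
  exact if_neg (hG.smooth z hz h0)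

theorem Good.curve_le (hG : Good K Ω m c₀) {a : ℕ → Fin (n + 1) → Ω} {e : ℕ} (h0 : a 0 ≠ 0)
    (hV : Van (bc Ω c₀) a e) : rk K (rga a e) ≤ rk K (rg (a 0)) + m * e := by
  have h1 := hG.lay e e le_rfl a h0 hV
  have h2 : rho (bc Ω c₀) a e = 0 := by
    unfold rho
    exact if_neg fun h => hG.smooth (a 0) h0 (eval_zero_of_vanp hV) h.1
  rw [rk_bc, rk_bc, h2] at h1
  exact h1

theorem Good.point_le (hG : Good K Ω m c₀) {z : Fin (n + 1) → Ω} (hz : z ≠ 0)
    (h0 : eval z (fm (bc Ω c₀)) = 0) : rk K (rg z) ≤ n := by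
  by_contra hcon
  push Not at hcon
  have h1 : rk K (rg z) = n + 1 := by
    have h2 := rk_le_card K (rg z)
    have h3 : (rg z).card ≤ Fintype.card (Fin (n + 1)) := Finset.card_image_le
    rw [Fintype.card_fin] at h3
    omega
  have h4 : rk K (∅ ∪ rg z) = rk K (∅ : Finset Ω) + Fintype.card (Fin (n + 1)) := by
    rw [Finset.empty_union, h1, rk_empty, Fintype.card_fin, zero_add]
  refine eval_ne_zero_of_generic h4 (fm (bc Ω c₀)) ?_ ?_ h0
  · intro h5
    refine hG.smooth z hz h0 fun i => ?_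
    rw [h5, map_zero, map_zero]
  · intro μ
    by_cases hμ : μ.degree = d
    · have h6 := coeff_fm (bc Ω c₀) ⟨μ, hμ⟩
      change coeff μ (fm (bc Ω c₀)) = _ at h6
      rw [h6]
      exact (cl K (∅ : Finset Ω)).algebraMap_mem _
    · rw [(fm_hom (bc Ω c₀)).coeff_eq_zero hμ]
      exact zero_mem _

private theorem eval38 {e : ℕ} (he : 1 ≤ e) {f : MvPolynomial (Fin (n + 1)) Ω} {τ : ℕ → Ω}
    {a : ℕ → Fin (n + 1) → Ω} (hF : FCp f τ a e) : eval (a 0) f = 0 := by
  have h1 := eval_zero_of_vanp (hF 0 he)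
  have h2 : pcc 0 e τ a 0 = a 0 := by
    funext i
    unfold pcc
    rw [zero_add, Finset.Ico_self, Finset.prod_empty, mul_one,
      Finset.prod_eq_one fun s _ => by rw [Nat.zero_sub, pow_zero], mul_one]
  rw [h2] at h1
  exact h1

theorem Good.chain_le (hb : Big K Ω) (hG : Good K Ω m c₀) {e : ℕ} (he : 1 ≤ e) {τ : ℕ → Ω}
    {a : ℕ → Fin (n + 1) → Ω} (hF : FCp (fm (bc Ω c₀)) τ a e) (hN : Nod τ a e) :
    rk K (rgt τ e ∪ rga a e) + (brk τ e).card ≤ rk K (rg (a 0)) + m * e + (e - 1) := by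
  have h1 := chain_bound hb (hG.lay e) e he τ a (Or.inl le_rfl) hF hN
  rw [Finset.union_assoc, rk_bc, rk_bc, hG.bet_eq hN.1 (eval38 he hF)] at h1
  omega

theorem Full.start (hb : Big K Ω) (hG : Good K Ω m c₀) {e : ℕ} (he : 1 ≤ e) {τ : ℕ → Ω}
    {a : ℕ → Fin (n + 1) → Ω} (h : Full K m e (bc Ω c₀) τ a) : rk K (rg (a 0)) = n := by
  have h1 := hG.chain_le hb he h.fcp h.nod
  have h2 := hG.point_le h.nod.1 (eval38 he h.fcp)
  have h3 := h.rnk
  omega

theorem Full.stop (hb : Big K Ω) (hG : Good K Ω m c₀) {e : ℕ} (he : 1 ≤ e) {τ : ℕ → Ω}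
    {a : ℕ → Fin (n + 1) → Ω} (h : Full K m e (bc Ω c₀) τ a) : rk K (rg (a e)) = n := by
  have h1 := Full.start hb hG he h.rev
  change rk K (rg (a (e - 0))) = n at h1
  rw [Nat.sub_zero] at h1
  exact h1

theorem Full.split (hb : Big K Ω) (hG : Good K Ω m c₀) {e : ℕ} {τ : ℕ → Ω}
    {a : ℕ → Fin (n + 1) → Ω} (h : Full K m e (bc Ω c₀) τ a) {j : ℕ} (hj : j ∈ brk τ e) :
    Full K m j (bc Ω c₀) τ a ∧
      Full K m (e - j) (bc Ω c₀) (fun s => τ (s + j)) (fun l => a (l + j)) ∧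
      rk K (rgt τ e ∪ rga a e) + n = rk K (rgt τ j ∪ rga a j) +
        rk K (rgt (fun s => τ (s + j)) (e - j) ∪ rga (fun l => a (l + j)) (e - j)) := by
  obtain ⟨h1, h2, h0⟩ := mem_brk.1 hj
  have f1 := fcp_left h1 h2 h0 h.fcp
  have n1 := nod_left hj h.nod
  have f2 := fcp_right (fm_hom (bc Ω c₀)) h1 h2 h0 h.fcp
  have n2 := nod_right hj h.nod
  have c1 := hG.chain_le hb h1 f1 n1
  have c2 := hG.chain_le hb (show 1 ≤ e - j by omega) f2 n2
  change rk K (rgt (fun s => τ (s + j)) (e - j) ∪ rga (fun l => a (l + j)) (e - j)) +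
    (brk (fun s => τ (s + j)) (e - j)).card ≤ rk K (rg (a (0 + j))) + m * (e - j) + (e - j - 1) at c2
  rw [zero_add] at c2
  have s1 := split38 (K := K) (a := a) h1 h2 h0
  have b1 := brk_split hj
  have p1 := hG.point_le n1.1 (eval38 h1 f1)
  have r1 := h.rnk
  have m1 : m * j + m * (e - j) = m * e := by
    rw [← mul_add]
    congr 1
    omega
  have F1 : Full K m j (bc Ω c₀) τ a := ⟨f1, n1, by omega⟩
  have q1 := Full.stop hb hG h1 F1
  rw [q1] at c2 s1
  exact ⟨F1, ⟨f2, n2, by omega⟩, by omega⟩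

end Pool.Agent.Helper30.RY
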