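import Mathlib
import Pool.Agent.Helper30.RY.Ful
import Pool.Agent.Helper30.RY.Hqd

/-!
# Block RY-LCB: chains of lines

* `fcp_zero_iff`: for `τ = 0` and `i < e`, `l ≤ e` the vector `pcc i e 0 b l` is `b l` for `l = i`,
  `l = i + 1` and zero otherwise (if `l < i` the factor `0 ^ (i - l)` occurs, if `l > i + 1` (so
  `i + 1 < e`) the factor `0 ^ (l - (i + 1))` occurs; the other factors are `0 ^ 0`).  So
  the curve `pcc i` is `b_i T^i + b_{i+1} T^{i+1}`, and by `vanp_trunc` and `vanp_shift` (for the converse: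
  `vanp_rev`, `vanp_trunc`, `vanp_rev`) it is on the hypersurface iff the line `ln (b i) (b (i + 1))` is.
* `lc_full_iff`: `brk 0 e = Ico 1 e` has `e - 1` elements, `rgt 0 e ⊆ {0}` does not change ranks
  (`rk_union_of_subset_cl`).
* `LC.rev`, `LC.node`, `LC.take`, `LC.drop`: from `Full.rev`, `Full.start`, `Full.stop` and `Full.split`.
  `line_le`: `Good.curve_le` for `ln z y`.  `LC.line`: from `LC.take` and `LC.drop` (or: `rk_submod` and
  `line_le`); `LC.last`: `LC.take`, `rga b (e + 1) = rga b e ∪ rg (b (e + 1))`.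
* `LC.snoc`, `LC.join`: the rank is computed from the hypothesis.  For `LC.join`: `rga` of the joined chain is
  `rga b e ∪ rga b' e'` (since `b e = b' 0`).
-/

namespace Pool.Agent.Helper30.RY

open MvPolynomial

private theorem pcc_zero1 {A : Type*} [CommRing A] {n : ℕ} {e i l : ℕ} (hi : i < e) (hl : l ≤ e)
    (b : ℕ → Fin (n + 1) → A) (k : Fin (n + 1)) :
    pcc i e (fun _ => (0 : A)) b l k = if l = i ∨ l = i + 1 then b l k else 0 := by
  unfold pcc
  split_ifs with h
  · have h1 : ∏ s ∈ Finset.Ico 1 (i + 1), (0 : A) ^ (s - l) = 1 := by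
      refine Finset.prod_eq_one fun s hs => ?_
      rw [Finset.mem_Ico] at hs
      rw [Nat.sub_eq_zero_of_le (by omega), pow_zero]
    have h2 : ∏ s ∈ Finset.Ico (i + 1) e, (0 : A) ^ (l - s) = 1 := by
      refine Finset.prod_eq_one fun s hs => ?_
      rw [Finset.mem_Ico] at hs
      rw [Nat.sub_eq_zero_of_le (by omega), pow_zero]
    rw [h1, h2, mul_one, mul_one]
  · rcases Nat.lt_or_ge l i with h3 | h3
    · have h1 : ∏ s ∈ Finset.Ico 1 (i + 1), (0 : A) ^ (s - l) = 0 := by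
        refine Finset.prod_eq_zero (i := i) (Finset.mem_Ico.mpr ⟨by omega, by omega⟩) ?_
        rw [zero_pow (by omega)]
      rw [h1, mul_zero, zero_mul]
    · have h2 : ∏ s ∈ Finset.Ico (i + 1) e, (0 : A) ^ (l - s) = 0 := by
        refine Finset.prod_eq_zero (i := i + 1) (Finset.mem_Ico.mpr ⟨le_rfl, by omega⟩) ?_
        rw [zero_pow (by omega)]
      rw [h2, mul_zero]

private theorem unshift1 {A : Type*} [CommRing A] {n q : ℕ} {f : MvPolynomial (Fin (n + 1)) A}
    (hf : f.IsHomogeneous q) {a : ℕ → Fin (n + 1) → A} {e j : ℕ} (hj : j ≤ e)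
    (h0 : ∀ l < j, ∀ i, a l i = 0) (h : Vanp f (fun l => a (l + j)) (e - j)) : Vanp f a e := by
  have h1 := vanp_rev hf h
  have h2 : Vanp f (fun l => a (e - l)) (e - j) := by
    refine (vanp_congr fun l hl i => ?_).mp h1
    change a (e - j - l + j) i = a (e - l) i
    rw [show e - j - l + j = e - l by omega]
  have h3 : Vanp f (fun l => a (e - l)) e :=
    (vanp_trunc (Nat.sub_le e j) fun l h4 h5 i => h0 (e - l) (by omega) i).mpr h2
  have h4 := vanp_rev hf h3
  refine (vanp_congr fun l hl i => ?_).mp h4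
  change a (e - (e - l)) i = a l i
  rw [show e - (e - l) = l by omega]

theorem fcp_zero_iff {A : Type*} [CommRing A] {n q : ℕ} {f : MvPolynomial (Fin (n + 1)) A}
    (hf : f.IsHomogeneous q) {e : ℕ} (b : ℕ → Fin (n + 1) → A) :
    FCp f (fun _ => 0) b e ↔ ∀ i < e, Vanp f (ln (b i) (b (i + 1))) 1 := by
  have key : ∀ i < e, (Vanp f (pcc i e (fun _ => 0) b) e ↔ Vanp f (ln (b i) (b (i + 1))) 1) := by
    intro i hi
    have hz : ∀ l < i, ∀ k, pcc i e (fun _ => (0 : A)) b l k = 0 := fun l hl k => by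
      rw [pcc_zero1 hi (by omega), if_neg (by omega)]
    have h1 : Vanp f (fun l => pcc i e (fun _ => (0 : A)) b (l + i)) (e - i) ↔
        Vanp f (ln (b i) (b (i + 1))) 1 := by
      rw [vanp_trunc (j := 1) (by omega) (fun l h2 h3 k => by
        change pcc i e (fun _ => (0 : A)) b (l + i) k = 0
        rw [pcc_zero1 hi (by omega), if_neg (by omega)])]
      refine vanp_congr fun l hl k => ?_
      change pcc i e (fun _ => (0 : A)) b (l + i) k = ln (b i) (b (i + 1)) l k
      rw [pcc_zero1 hi (by omega), if_pos (by omega)]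
      unfold ln
      split_ifs with h4
      · rw [h4, zero_add]
      · rw [show l + i = i + 1 by omega]
    exact ⟨fun h => h1.mp (vanp_shift hf hi.le hz h), fun h => unshift1 hf hi.le hz (h1.mpr h)⟩
  exact ⟨fun h i hi => (key i hi).mp (h i hi), fun h i hi => (key i hi).mpr (h i hi)⟩

variable {K : Type*} [Field K] {Ω : Type*} [Field Ω] [Algebra K Ω] [DecidableEq Ω] {n d m : ℕ}
  {c₀ : Mon n d → K}

private theorem mem_rga1 {a : ℕ → Fin (n + 1) → Ω} {e : ℕ} {x : Ω} :
    x ∈ rga a e ↔ ∃ l ≤ e, ∃ i, a l i = x := by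
  unfold rga rg
  simp only [Finset.mem_biUnion, Finset.mem_range, Finset.mem_image, Finset.mem_univ, true_and]
  constructor
  · rintro ⟨l, hl, i, h⟩
    exact ⟨l, by omega, i, h⟩
  · rintro ⟨l, hl, i, h⟩
    exact ⟨l, by omega, i, h⟩

private theorem mem_rg1 {a : Fin (n + 1) → Ω} {x : Ω} : x ∈ rg a ↔ ∃ i, a i = x := by
  unfold rg
  simp only [Finset.mem_image, Finset.mem_univ, true_and]

private theorem rga_one1 (a : ℕ → Fin (n + 1) → Ω) : rga a 1 = rg (a 0) ∪ rg (a 1) := by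
  ext x
  rw [Finset.mem_union, mem_rga1, mem_rg1, mem_rg1]
  constructor
  · rintro ⟨l, hl, i, h⟩
    rcases Nat.le_one_iff_eq_zero_or_eq_one.mp hl with h1 | h1
    · exact Or.inl ⟨i, by rw [← h1]; exact h⟩
    · exact Or.inr ⟨i, by rw [← h1]; exact h⟩
  · rintro (⟨i, h⟩ | ⟨i, h⟩)
    · exact ⟨0, by omega, i, h⟩
    · exact ⟨1, le_rfl, i, h⟩

private theorem rga_succ1 (a : ℕ → Fin (n + 1) → Ω) (e : ℕ) :
    rga a (e + 1) = rga a e ∪ rg (a (e + 1)) := by
  ext x
  rw [Finset.mem_union, mem_rga1, mem_rga1, mem_rg1]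
  constructor
  · rintro ⟨l, hl, i, h⟩
    rcases Nat.lt_or_ge e l with h1 | h1
    · have h2 : l = e + 1 := by omega
      exact Or.inr ⟨i, by rw [← h2]; exact h⟩
    · exact Or.inl ⟨l, h1, i, h⟩
  · rintro (⟨l, hl, i, h⟩ | ⟨i, h⟩)
    · exact ⟨l, by omega, i, h⟩
    · exact ⟨e + 1, le_rfl, i, h⟩

private theorem van_rev1 {c : Mon n d → Ω} {x y : Fin (n + 1) → Ω} (h : Van c (ln x y) 1) :
    Van c (ln y x) 1 := by
  have h1 := vanp_rev (fm_hom c) h
  refine (vanp_congr fun l hl i => ?_).mp h1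
  change ln x y (1 - l) i = ln y x l i
  unfold ln
  rcases Nat.le_one_iff_eq_zero_or_eq_one.mp hl with h2 | h2
  · subst h2
    simp
  · subst h2
    simp

theorem lc_full_iff {e : ℕ} (he : 1 ≤ e) {c : Mon n d → Ω} {b : ℕ → Fin (n + 1) → Ω} :
    LC K m e c b ↔ Full K m e c (fun _ => 0) b ∧ ∀ i ≤ e, b i ≠ 0 := by
  have hb0 : (brk (fun _ => (0 : Ω)) e).card = e - 1 := by
    have h1 : brk (fun _ => (0 : Ω)) e = Finset.Ico 1 e := by
      ext j
      rw [mem_brk, Finset.mem_Ico]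
      simp
    rw [h1, Nat.card_Ico]
  have hr0 : rk K (rgt (fun _ => (0 : Ω)) e ∪ rga b e) = rk K (rga b e) := by
    rw [Finset.union_comm]
    refine rk_union_of_subset_cl K fun x hx => ?_
    obtain ⟨s, _, rfl⟩ := Finset.mem_image.1 hx
    exact zero_mem _
  constructor
  · intro h
    refine ⟨⟨(fcp_zero_iff (fm_hom c) b).mpr h.van, ⟨h.ne 0 (Nat.zero_le _), h.ne e le_rfl,
      fun i hi => h.ne i (by have := (mem_brk.mp hi).2.1; omega)⟩, ?_⟩, h.ne⟩
    rw [hr0, hb0, h.rnk]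
  · rintro ⟨h, h1⟩
    refine ⟨(fcp_zero_iff (fm_hom c) b).mp h.fcp, h1, ?_⟩
    have h2 := h.rnk
    rw [hr0, hb0] at h2
    omega

theorem LC.congr {e : ℕ} {c : Mon n d → Ω} {b b' : ℕ → Fin (n + 1) → Ω} (h : LC K m e c b)
    (hb : ∀ i ≤ e, b i = b' i) : LC K m e c b' := by
  refine ⟨fun i hi => ?_, fun i hi => ?_, ?_⟩
  · rw [← hb i hi.le, ← hb (i + 1) hi]
    exact h.van i hi
  · rw [← hb i hi]
    exact h.ne i hi
  · have h1 : rga b' e = rga b e := by
      unfold rga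
      refine Finset.biUnion_congr rfl fun l hl => ?_
      rw [hb l (by have := Finset.mem_range.mp hl; omega)]
    rw [h1]
    exact h.rnk

theorem LC.rev {e : ℕ} {c : Mon n d → Ω} {b : ℕ → Fin (n + 1) → Ω} (h : LC K m e c b) :
    LC K m e c (fun l => b (e - l)) := by
  refine ⟨fun i hi => ?_, fun i hi => h.ne _ (Nat.sub_le _ _), ?_⟩
  · have h1 := h.van (e - (i + 1)) (by omega)
    rw [show e - (i + 1) + 1 = e - i by omega] at h1
    exact van_rev1 h1
  · rw [rga_rev]
    exact h.rnk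

theorem line_le (hG : Good K Ω m c₀) {z y : Fin (n + 1) → Ω} (hz : z ≠ 0)
    (hV : Van (bc Ω c₀) (ln z y) 1) : rk K (rg z ∪ rg y) ≤ rk K (rg z) + m := by
  have h1 := hG.curve_le (a := ln z y) (e := 1) (by unfold ln; simpa using hz) hV
  rw [rga_one1, mul_one] at h1
  exact h1

theorem LC.take (hb : Big K Ω) (hG : Good K Ω m c₀) {e : ℕ} {b : ℕ → Fin (n + 1) → Ω}
    (h : LC K m e (bc Ω c₀) b) {j : ℕ} (hj : 1 ≤ j) (hje : j ≤ e) : LC K m j (bc Ω c₀) b := by
  rcases hje.eq_or_lt with h1 | h1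
  · rw [h1]
    exact h
  · have h2 := (lc_full_iff (by omega)).mp h
    have h3 := h2.1.split hb hG (j := j) (mem_brk.mpr ⟨hj, h1, rfl⟩)
    exact (lc_full_iff hj).mpr ⟨h3.1, fun i hi => h.ne i (by omega)⟩

theorem LC.drop (hb : Big K Ω) (hG : Good K Ω m c₀) {e : ℕ} {b : ℕ → Fin (n + 1) → Ω}
    (h : LC K m e (bc Ω c₀) b) {j : ℕ} (hje : j < e) :
    LC K m (e - j) (bc Ω c₀) (fun l => b (l + j)) := by
  rcases Nat.eq_zero_or_pos j with h1 | h1
  · subst h1
    exact h
  · have h2 := (lc_full_iff (by omega)).mp h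
    have h3 := h2.1.split hb hG (j := j) (mem_brk.mpr ⟨h1, hje, rfl⟩)
    exact (lc_full_iff (by omega)).mpr ⟨h3.2.1, fun i hi => h.ne (i + j) (by omega)⟩

private theorem node_zero1 (hb : Big K Ω) (hG : Good K Ω m c₀) {e : ℕ} (he : 1 ≤ e)
    {b : ℕ → Fin (n + 1) → Ω} (h : LC K m e (bc Ω c₀) b) :
    rk K (rg (b 0)) = n ∧ eval (b 0) (fm (bc Ω c₀)) = 0 := by
  refine ⟨((lc_full_iff he).mp h).1.start hb hG he, ?_⟩
  have h1 : Vanp (fm (bc Ω c₀)) (ln (b 0) (b (0 + 1))) 1 := h.van 0 he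
  have h2 := eval_zero_of_vanp h1
  have h3 : ln (b 0) (b (0 + 1)) 0 = b 0 := if_pos rfl
  rw [h3] at h2
  exact h2

theorem LC.node (hb : Big K Ω) (hG : Good K Ω m c₀) {e : ℕ} (he : 1 ≤ e)
    {b : ℕ → Fin (n + 1) → Ω} (h : LC K m e (bc Ω c₀) b) {i : ℕ} (hi : i ≤ e) :
    rk K (rg (b i)) = n ∧ eval (b i) (fm (bc Ω c₀)) = 0 := by
  rcases hi.eq_or_lt with h1 | h1
  · have h2 := node_zero1 hb hG he h.rev
    change rk K (rg (b (e - 0))) = n ∧ eval (b (e - 0)) (fm (bc Ω c₀)) = 0 at h2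
    rw [Nat.sub_zero] at h2
    rw [h1]
    exact h2
  · have h2 := node_zero1 hb hG (by omega) (h.drop hb hG h1)
    change rk K (rg (b (0 + i))) = n ∧ eval (b (0 + i)) (fm (bc Ω c₀)) = 0 at h2
    rw [zero_add] at h2
    exact h2

theorem LC.line (hb : Big K Ω) (hG : Good K Ω m c₀) {e : ℕ}
    {b : ℕ → Fin (n + 1) → Ω} (h : LC K m e (bc Ω c₀) b) {i : ℕ} (hi : i < e) :
    rk K (rg (b i) ∪ rg (b (i + 1))) = n + m := by
  have h1 := ((h.drop hb hG hi).take hb hG (j := 1) le_rfl (by omega)).rnk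
  rw [rga_one1] at h1
  change rk K (rg (b (0 + i)) ∪ rg (b (1 + i))) = m * 1 + n at h1
  rw [zero_add, mul_one, add_comm 1 i] at h1
  omega

theorem LC.last (hb : Big K Ω) (hG : Good K Ω m c₀) {e : ℕ} (he : 1 ≤ e)
    {b : ℕ → Fin (n + 1) → Ω} (h : LC K m (e + 1) (bc Ω c₀) b) :
    rk K (rga b e ∪ rg (b (e + 1))) = rk K (rga b e) + m := by
  have h1 := h.rnk
  have h2 := (h.take hb hG (j := e) he (by omega)).rnk
  rw [rga_succ1] at h1
  rw [h1, h2]
  ring

theorem LC.snoc {e : ℕ} {c : Mon n d → Ω} {b : ℕ → Fin (n + 1) → Ω}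
    (h : LC K m e c b) {y : Fin (n + 1) → Ω} (hy : y ≠ 0) (hV : Van c (ln (b e) y) 1)
    (hr : rk K (rga b e ∪ rg y) = rk K (rga b e) + m) :
    LC K m (e + 1) c (fun l => if l ≤ e then b l else y) := by
  refine ⟨fun i hi => ?_, fun i hi => ?_, ?_⟩
  · rcases Nat.lt_or_ge i e with h1 | h1
    · rw [if_pos (by omega), if_pos (by omega)]
      exact h.van i h1
    · have h2 : i = e := by omega
      subst h2
      rw [if_pos le_rfl, if_neg (by omega)]
      exact hV
  · split_ifs with h1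
    · exact h.ne i h1
    · exact hy
  · have h1 : rga (fun l => if l ≤ e then b l else y) (e + 1) = rga b e ∪ rg y := by
      ext x
      rw [Finset.mem_union, mem_rga1, mem_rga1, mem_rg1]
      constructor
      · rintro ⟨l, hl, i, h1⟩
        by_cases h2 : l ≤ e
        · rw [if_pos h2] at h1
          exact Or.inl ⟨l, h2, i, h1⟩
        · rw [if_neg h2] at h1
          exact Or.inr ⟨i, h1⟩
      · rintro (⟨l, hl, i, h1⟩ | ⟨i, h1⟩)
        · exact ⟨l, by omega, i, by rw [if_pos hl]; exact h1⟩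
        · exact ⟨e + 1, le_rfl, i, by rw [if_neg (by omega)]; exact h1⟩
    rw [h1, hr, h.rnk]
    ring

theorem LC.join {e e' : ℕ} {c : Mon n d → Ω} {b b' : ℕ → Fin (n + 1) → Ω}
    (h : LC K m e c b) (h' : LC K m e' c b') (h0 : b e = b' 0)
    (hr : rk K (rga b e ∪ rga b' e') + n = rk K (rga b e) + rk K (rga b' e')) :
    LC K m (e + e') c (fun l => if l ≤ e then b l else b' (l - e)) := by
  refine ⟨fun i hi => ?_, fun i hi => ?_, ?_⟩
  · rcases Nat.lt_trichotomy i e with h1 | h1 | h1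
    · rw [if_pos (by omega), if_pos (by omega)]
      exact h.van i h1
    · subst h1
      rw [if_pos le_rfl, if_neg (by omega), h0, show i + 1 - i = 0 + 1 by omega]
      exact h'.van 0 (by omega)
    · rw [if_neg (by omega), if_neg (by omega), show i + 1 - e = i - e + 1 by omega]
      exact h'.van (i - e) (by omega)
  · split_ifs with h1
    · exact h.ne i h1
    · exact h'.ne (i - e) (by omega)
  · have h1 : rga (fun l => if l ≤ e then b l else b' (l - e)) (e + e') = rga b e ∪ rga b' e' := by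
      ext x
      rw [Finset.mem_union, mem_rga1, mem_rga1, mem_rga1]
      constructor
      · rintro ⟨l, hl, i, h1⟩
        by_cases h2 : l ≤ e
        · rw [if_pos h2] at h1
          exact Or.inl ⟨l, h2, i, h1⟩
        · rw [if_neg h2] at h1
          exact Or.inr ⟨l - e, by omega, i, h1⟩
      · rintro (⟨l, hl, i, h1⟩ | ⟨l, hl, i, h1⟩)
        · exact ⟨l, by omega, i, by rw [if_pos hl]; exact h1⟩
        · rcases Nat.eq_zero_or_pos l with h2 | h2
          · subst h2
            exact ⟨e, by omega, i, by rw [if_pos le_rfl, h0]; exact h1⟩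
          · exact ⟨l + e, by omega, i, by
              rw [if_neg (by omega), Nat.add_sub_cancel]; exact h1⟩
    have h2 := h.rnk
    have h3 := h'.rnk
    rw [h1]
    rw [h2, h3] at hr
    have h4 : m * (e + e') = m * e + m * e' := mul_add _ _ _
    omega

end Pool.Agent.Helper30.RY
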