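import Mathlib
import Pool.Agent.Helper30.RY.Real

/-!
# Block RY-ICP: independent copies

Given a point `b` of `Ω` and a finite set `Y` there is a point `b'` with the same type as `b` over `K`
(`b ⟶ b'`, `b' ⟶ b`) and independent of `Y`: `rk (Y ∪ rg b') = rk Y + rk (rg b)`.
Proof: choose indices `I` such that `(b i)_{i ∈ I}` is a basis of `rg b` (`card I = rk (rg b)`), and `u` of
length `card I` generic over `Y`.  `K(b_I) ≅ K(u)` (both purely transcendental), extended to
`K(b) → Ω` (`IsAlgClosed.lift`, as in the proof of `exists_real` / `exists_real_over`: apply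
`exists_real_over` to the points `b_I`, `u` (each a specialisation of the other,
`Spc.elim_generic` or algebraic independence) and the remaining coordinates `c = b`): this gives `d`
with `(b_I, b) ~ (u, d)`; put `b' = d`.  Then `u_i = d_i` for `i ∈ I`, so
`rk (Y ∪ rg b') ≥ rk (Y ∪ rg u) = rk Y + card I`, and `≤` because `rk (rg b') = rk (rg b)`.
-/

namespace Pool.Agent.Helper30.RY

open MvPolynomial

/-- a basis among the coordinates -/
private theorem exists_basis_h54 {K : Type*} {Ω : Type*} [Field K] [Field Ω] [Algebra K Ω]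
    [DecidableEq Ω] {ι : Type*} [Fintype ι] (b : ι → Ω) :
    ∃ (r : ℕ) (g : Fin r → ι), rk K (rg (b ∘ g)) = r ∧ r = rk K (rg b) := by
  obtain ⟨B, hB⟩ := (AlgebraicIndependent.matroid K Ω).exists_isBasis (rg b : Set Ω)
  have hBs : B ⊆ (rg b : Set Ω) := hB.subset
  have hBf : B.Finite := (Finset.finite_toSet _).subset hBs
  have h0 : ∀ x : B, ∃ i, b i = x := by
    intro x
    obtain ⟨i, _, hi⟩ := Finset.mem_image.1 (Finset.mem_coe.1 (hBs x.2))
    exact ⟨i, hi⟩
  choose g hg using h0
  have : Fintype B := hBf.fintype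
  have e1 : ((rg (b ∘ (g ∘ (Fintype.equivFin B).symm)) : Finset Ω) : Set Ω) = B := by
    ext x
    simp only [rg, Finset.coe_image, Finset.coe_univ, Set.image_univ, Set.mem_range, Function.comp]
    constructor
    · rintro ⟨k, rfl⟩
      rw [hg]
      exact Subtype.coe_prop _
    · intro hx
      exact ⟨Fintype.equivFin B ⟨x, hx⟩, by rw [Equiv.symm_apply_apply, hg ⟨x, hx⟩]⟩
  have e2 : (AlgebraicIndependent.matroid K Ω).eRk B = (Fintype.card B : ℕ∞) := by
    rw [hB.indep.eRk_eq_encard, ← hBf.cast_ncard_eq, ← Nat.card_coe_set_eq, Nat.card_eq_fintype_card]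
  refine ⟨Fintype.card B, g ∘ (Fintype.equivFin B).symm, ?_, ?_⟩
  · have h1 := rk_coe K (rg (b ∘ (g ∘ (Fintype.equivFin B).symm)))
    rw [e1, e2] at h1
    exact_mod_cast h1
  · have h1 := rk_coe K (rg b)
    rw [← hB.eRk_eq_eRk, e2] at h1
    exact_mod_cast h1.symm

private theorem spc_of_generic_h54 {K : Type*} {Ω : Type*} [Field K] [Field Ω] [Algebra K Ω]
    [DecidableEq Ω] {κ : Type*} [Fintype κ] (t u : κ → Ω)
    (ht : rk K (rg t) = Fintype.card κ) : Spc K t u := by
  have h1 : Spc K (fun i : Fin 0 => (i.elim0 : Ω)) (fun i : Fin 0 => (i.elim0 : Ω)) := Spc.refl _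
  have e : rg (fun i : Fin 0 => (i.elim0 : Ω)) = ∅ := rfl
  have h2 := h1.elim_generic t (by
    rw [e, Finset.empty_union, rk_empty, zero_add]
    exact ht) u
  exact h2.comp Sum.inr

theorem exists_copy {K : Type*} {Ω : Type*} [Field K] [Field Ω] [Algebra K Ω] [IsAlgClosed Ω]
    [DecidableEq Ω] (hb : Big K Ω) {ι : Type*} [Fintype ι] (b : ι → Ω) (Y : Finset Ω) :
    ∃ b' : ι → Ω, Spc K b b' ∧ Spc K b' b ∧ rk K (Y ∪ rg b') = rk K Y + rk K (rg b) := by
  obtain ⟨r, g, hg⟩ := exists_basis_h54 (K := K) b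
  obtain ⟨u, hu⟩ := exists_generic K hb Y (Fin r)
  have h1 : Spc K (b ∘ g) u := spc_of_generic_h54 _ _ (by rw [hg.1, Fintype.card_fin])
  have hu0 : rk K (rg u) = Fintype.card (Fin r) := by
    have h2 := generic_of_subset_cl hu (s' := ∅) (fun x hx => absurd hx (Finset.notMem_empty x))
    rw [Finset.empty_union, rk_empty, zero_add] at h2
    exact h2
  have h2 : Spc K u (b ∘ g) := spc_of_generic_h54 _ _ hu0
  obtain ⟨d, hd1, hd2⟩ := exists_real_over hb h1 h2 b
  have h3 : Spc K b d := hd1.comp Sum.inr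
  have h4 : Spc K d b := hd2.comp Sum.inr
  have h5 : ∀ k, u k = d (g k) := by
    intro k
    have h6 := hd1 (X (Sum.inl k) - X (Sum.inr (g k))) (by
      rw [map_sub, aeval_X, aeval_X]
      exact sub_self _)
    rw [map_sub, aeval_X, aeval_X] at h6
    exact sub_eq_zero.1 h6
  refine ⟨d, h3, h4, le_antisymm ?_ ?_⟩
  · exact (rk_union_le K Y (rg d)).trans (Nat.add_le_add_left h3.rk_le _)
  · rw [← hg.2, ← Fintype.card_fin r, ← hu]
    refine rk_mono K (Finset.union_subset_union_right ?_)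
    intro x hx
    obtain ⟨k, _, rfl⟩ := Finset.mem_image.1 hx
    rw [h5 k]
    exact Finset.mem_image_of_mem d (Finset.mem_univ _)

end Pool.Agent.Helper30.RY
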