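import Mathlib

/-!
# Block RY-TDM: tensor products of domains over an algebraically closed field

`A` a domain of finite type over the algebraically closed field `K`, `B` a domain containing `K`.
Then `A ⊗[K] B` is a domain.  Proof: let `s t = 0`, write `s = ∑ a_i ⊗ b_i`, `t = ∑ a'_j ⊗ b_j` with a
finite family `b_j` of elements of `B` linearly independent over `K` (e.g. coordinates with respect to a
`K`-basis of `B`: `Basis.baseChange`, `A ⊗ B` is free over `A`).  For a maximal ideal `M` of `A` we have
`A / M = K` (Nullstellensatz), so there is a homomorphism `χ : A → K` with kernel `M`, and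
`χ ⊗ id : A ⊗ B → B` maps `s` to `∑ χ(a_i) b_i`, `t` to `∑ χ(a'_j) b_j`; the product is zero and `B` is a
domain, so all `a_i ∈ M` or all `a'_j ∈ M`.  Hence `a_i a'_j` is in all maximal ideals of `A`; `A` is a
Jacobson ring and a domain, so `a_i a'_j = 0` for all `i, j`, and `s = 0` or `t = 0`.
-/

namespace Pool.Agent.Helper30.RY

open TensorProduct

private lemma exists_chi47 {K : Type*} [Field K] [IsAlgClosed K] {A : Type*} [CommRing A]
    [Algebra K A] [Algebra.FiniteType K A] (M : Ideal A) [hM : M.IsMaximal] :
    ∃ χ : A →ₐ[K] K, ∀ a, χ a = 0 → a ∈ M := by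
  let := Ideal.Quotient.field M
  have : Module.Finite K (A ⧸ M) := finite_of_finite_type_of_isJacobsonRing K (A ⧸ M)
  have hb : Function.Bijective (algebraMap K (A ⧸ M)) :=
    IsAlgClosed.algebraMap_bijective_of_isIntegral
  let e : K ≃ₐ[K] (A ⧸ M) := AlgEquiv.ofBijective (Algebra.ofId K (A ⧸ M)) hb
  refine ⟨e.symm.toAlgHom.comp (Ideal.Quotient.mkₐ K M), fun a ha => ?_⟩
  have h1 : e.symm (Ideal.Quotient.mkₐ K M a) = 0 := ha
  have h2 : Ideal.Quotient.mkₐ K M a = 0 := by
    have := congrArg e h1
    simpa using this
  exact Ideal.Quotient.eq_zero_iff_mem.mp h2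

private lemma repr47 {K : Type*} [Field K] {A B : Type*} [CommRing A] [Algebra K A] [CommRing B] [Algebra K B]
    {ι : Type*} (b : Module.Basis ι K B) (χ : A →ₐ[K] K) (s : A ⊗[K] B) (i : ι) :
    b.repr (((Algebra.TensorProduct.lid K B).toAlgHom.comp (Algebra.TensorProduct.map χ (AlgHom.id K B))) s) i =
      χ ((b.baseChange A).repr s i) := by
  induction s using TensorProduct.induction_on with
  | zero => simp
  | tmul x y =>
    simp [Module.Basis.baseChange_repr_tmul, mul_comm]
  | add x y hx hy =>
    simp only [map_add, Finsupp.add_apply] at *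
    rw [hx, hy]

theorem tensor_isDomain {K : Type*} [Field K] [IsAlgClosed K] {A B : Type*} [CommRing A]
    [IsDomain A] [Algebra K A] [Algebra.FiniteType K A] [CommRing B] [IsDomain B] [Algebra K B] :
    IsDomain (A ⊗[K] B) := by
  classical
  have : IsJacobsonRing A := isJacobsonRing_of_finiteType (A := K)
  have : Nontrivial (A ⊗[K] B) :=
    (Algebra.TensorProduct.includeLeft_injective (S := K) (R := K) (A := A) (B := B)
      (algebraMap K B).injective).nontrivial
  have : NoZeroDivisors (A ⊗[K] B) := by
    refine ⟨fun {s t} hst => ?_⟩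
    by_contra hcon
    push Not at hcon
    obtain ⟨hs, ht⟩ := hcon
    let b := Module.Basis.ofVectorSpace K B
    let bA := b.baseChange A
    have hs' : ∃ i, bA.repr s i ≠ 0 := by
      by_contra h
      push Not at h
      exact hs (bA.repr.map_eq_zero_iff.mp (Finsupp.ext h))
    have ht' : ∃ i, bA.repr t i ≠ 0 := by
      by_contra h
      push Not at h
      exact ht (bA.repr.map_eq_zero_iff.mp (Finsupp.ext h))
    obtain ⟨i, hi⟩ := hs'
    obtain ⟨j, hj⟩ := ht'
    have hbot : (⊥ : Ideal A).jacobson = ⊥ :=
      IsJacobsonRing.out inferInstance (Ideal.IsPrime.isRadical Ideal.isPrime_bot)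
    have hmem : bA.repr s i * bA.repr t j ∈ (⊥ : Ideal A).jacobson := by
      rw [Ideal.jacobson, Ideal.mem_sInf]
      intro M hM
      have : M.IsMaximal := hM.2
      obtain ⟨χ, hχ⟩ := exists_chi47 (K := K) M
      apply hχ
      rw [map_mul]
      set φ := ((Algebra.TensorProduct.lid K B).toAlgHom.comp (Algebra.TensorProduct.map χ (AlgHom.id K B))) with hφ
      have h0 : φ s * φ t = 0 := by rw [← map_mul, hst, map_zero]
      rcases mul_eq_zero.mp h0 with h | h
      · have := repr47 b χ s i
        rw [← hφ, h, map_zero, Finsupp.zero_apply] at this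
        rw [← this, zero_mul]
      · have := repr47 b χ t j
        rw [← hφ, h, map_zero, Finsupp.zero_apply] at this
        rw [← this, mul_zero]
    rw [hbot, Ideal.mem_bot] at hmem
    exact (mul_ne_zero hi hj) hmem
  exact NoZeroDivisors.to_isDomain _

end Pool.Agent.Helper30.RY
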