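import Mathlib
import Pool.Agent.Helper30.RY.Tdm
import Pool.Agent.Helper30.RY.Icp
import Pool.Agent.Helper30.RY.Bcl

/-!
# Block RY-WFV: independence over an algebraically closed field

* `Spc.elim_of_indep`: `K` algebraically closed, `P₁`, `P₂` independent
  (`rk (rg P₁ ∪ rg P₂) = rk (rg P₁) + rk (rg P₂)`), `P₁ ⟶ L₁`, `P₂ ⟶ L₂`.  Then `(P₁, P₂) ⟶ (L₁, L₂)`.
  Proof: `A_i = K[P_i]` (`Algebra.adjoin`) are domains of finite type and `A₁ ⊗ A₂` is a domain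
  (`tensor_isDomain`), of finite type.  `exists_real` (for the zero ideal) gives an injective
  `φ : A₁ ⊗ A₂ → Ω`; let `Q_i` be the images of `P_i`.  `Q_i ~ P_i`, so
  `rk (rg Q₁ ∪ rg Q₂) ≤ rk (rg P₁) + rk (rg P₂) = rk (rg P₁ ∪ rg P₂)`.  `(Q₁, Q₂) ⟶ (P₁, P₂)` by the
  multiplication `A₁ ⊗ A₂ → Ω` (`Spc.of_hom`, `φ` injective), so by `Spc.symm_of_rk` also
  `(P₁, P₂) ⟶ (Q₁, Q₂)`, and `(Q₁, Q₂) ⟶ (L₁, L₂)` by the homomorphism `A₁ ⊗ A₂ → Ω` given by
  `P_i ⟶ L_i` (`Spc.exists_hom`, `Algebra.TensorProduct.lift`).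
* `spc_cl_of_indep`: `K` algebraically closed, `b` independent of `Y` over `K`, `b ⟶ b'` over `K`.  Then
  `b ⟶ b'` over `cl K Y`.  Proof: let `p` be a polynomial over `cl K Y` with `p(b) = 0`, `e` the tuple of its
  coefficients (finite: use the support); `rk (rg e ∪ rg b) = rk (rg e) + rk (rg b)` (`rk_submod`;
  `rg e ⊆ cl K Y`), so `(e, b) ⟶ (e, b')` over `K`, and `p(b) = 0` is a relation between `e` and `b` over `K`.
* `spc_lift`: `P ⟶ L` over `K` (algebraically closed), `Y` finite: there is a copy `P'` of `P` with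
  `P' ⟶ L` over `cl K Y`: `exists_copy` and `spc_cl_of_indep`.
-/

namespace Pool.Agent.Helper30.RY

open MvPolynomial

variable {K : Type*} {Ω : Type*} [Field K] [Field Ω] [Algebra K Ω] [IsAlgClosed K]
  [IsAlgClosed Ω] [DecidableEq Ω] {ι κ : Type*} [Fintype ι] [Fintype κ]

theorem Spc.elim_of_indep (hb : Big K Ω) {P₁ L₁ : ι → Ω} {P₂ L₂ : κ → Ω} (h₁ : Spc K P₁ L₁)
    (h₂ : Spc K P₂ L₂) (hi : rk K (rg P₁ ∪ rg P₂) = rk K (rg P₁) + rk K (rg P₂)) :
    Spc K (Sum.elim P₁ P₂) (Sum.elim L₁ L₂) := by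
  let A₁ := Algebra.adjoin K (Set.range P₁)
  let A₂ := Algebra.adjoin K (Set.range P₂)
  have hf₁ : Algebra.FiniteType K A₁ := (Subalgebra.fg_iff_finiteType _).1
    (Subalgebra.fg_def.2 ⟨_, Set.finite_range _, rfl⟩)
  have hf₂ : Algebra.FiniteType K A₂ := (Subalgebra.fg_iff_finiteType _).1
    (Subalgebra.fg_def.2 ⟨_, Set.finite_range _, rfl⟩)
  have hdom : IsDomain (TensorProduct K A₁ A₂) := tensor_isDomain
  have hft : Algebra.FiniteType K (TensorProduct K A₁ A₂) := by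
    have h1 : Algebra.FiniteType A₁ (TensorProduct K A₁ A₂) := Algebra.FiniteType.baseChange A₁
    exact Algebra.FiniteType.trans hf₁ h1
  have hpr : (⊥ : Ideal (TensorProduct K A₁ A₂)).IsPrime := Ideal.isPrime_bot
  obtain ⟨φ, hφ⟩ := exists_real (K := K) (Ω := Ω) hb (TensorProduct K A₁ A₂) ⊥
  have hφ' : ∀ x, φ x = 0 → x = 0 := fun x hx => (Ideal.mem_bot).1 ((hφ x).1 hx)
  let p₁ : ι → A₁ := fun i => ⟨P₁ i, Algebra.subset_adjoin (Set.mem_range_self i)⟩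
  let p₂ : κ → A₂ := fun i => ⟨P₂ i, Algebra.subset_adjoin (Set.mem_range_self i)⟩
  let w : ι ⊕ κ → TensorProduct K A₁ A₂ := Sum.elim (fun i => (p₁ i) ⊗ₜ[K] (1 : A₂))
    (fun j => (1 : A₁) ⊗ₜ[K] (p₂ j))
  obtain ⟨χ₁, hχ₁⟩ := h₁.exists_hom
  obtain ⟨χ₂, hχ₂⟩ := h₂.exists_hom
  let μ : TensorProduct K A₁ A₂ →ₐ[K] Ω := Algebra.TensorProduct.productMap A₁.val A₂.val
  let ν : TensorProduct K A₁ A₂ →ₐ[K] Ω := Algebra.TensorProduct.productMap χ₁ χ₂
  have hμ : (fun j => μ (w j)) = Sum.elim P₁ P₂ := by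
    funext j
    rcases j with j | j
    · change μ ((p₁ j) ⊗ₜ[K] (1 : A₂)) = P₁ j
      rw [Algebra.TensorProduct.productMap_apply_tmul, map_one, mul_one]
      rfl
    · change μ ((1 : A₁) ⊗ₜ[K] (p₂ j)) = P₂ j
      rw [Algebra.TensorProduct.productMap_apply_tmul, map_one, one_mul]
      rfl
  have hν : (fun j => ν (w j)) = Sum.elim L₁ L₂ := by
    funext j
    rcases j with j | j
    · change ν ((p₁ j) ⊗ₜ[K] (1 : A₂)) = L₁ j
      rw [Algebra.TensorProduct.productMap_apply_tmul, map_one, mul_one]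
      exact hχ₁ j
    · change ν ((1 : A₁) ⊗ₜ[K] (p₂ j)) = L₂ j
      rw [Algebra.TensorProduct.productMap_apply_tmul, map_one, one_mul]
      exact hχ₂ j
  have h3 : Spc K (fun j => φ (w j)) (Sum.elim P₁ P₂) := by
    rw [← hμ]
    exact Spc.of_hom φ μ (fun x hx => by rw [hφ' x hx, map_zero]) w
  have h4 : Spc K (fun j => φ (w j)) (Sum.elim L₁ L₂) := by
    rw [← hν]
    exact Spc.of_hom φ ν (fun x hx => by rw [hφ' x hx, map_zero]) w
  have h5 : Spc K P₁ (fun i => φ ((p₁ i) ⊗ₜ[K] (1 : A₂))) :=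
    Spc.of_hom A₁.val (φ.comp Algebra.TensorProduct.includeLeft) (fun x hx => by
      have h6 : x = 0 := Subtype.ext hx
      rw [h6, map_zero]) p₁
  have h6 : Spc K P₂ (fun j => φ ((1 : A₁) ⊗ₜ[K] (p₂ j))) :=
    Spc.of_hom A₂.val (φ.comp Algebra.TensorProduct.includeRight) (fun x hx => by
      have h6 : x = 0 := Subtype.ext hx
      rw [h6, map_zero]) p₂
  have h7 : (fun j => φ (w j)) = Sum.elim (fun i => φ ((p₁ i) ⊗ₜ[K] (1 : A₂)))
      (fun j => φ ((1 : A₁) ⊗ₜ[K] (p₂ j))) := by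
    funext j
    rcases j with j | j <;> rfl
  refine (h3.symm_of_rk ?_).trans h4
  rw [h7, rg_elim, rg_elim, hi]
  exact (rk_union_le K _ _).trans (Nat.add_le_add h5.rk_le h6.rk_le)

theorem spc_cl_of_indep (hb : Big K Ω) {b b' : ι → Ω} (h : Spc K b b') {Y : Finset Ω}
    (hi : rk K (Y ∪ rg b) = rk K Y + rk K (rg b)) : Spc (cl K Y) b b' := by
  intro p hp
  let κ : Type _ := {m : ι →₀ ℕ // m ∈ p.support}
  let e : κ → Ω := fun m => (coeff m.1 p : cl K Y)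
  have he : ∀ x ∈ rg e, x ∈ cl K Y := by
    intro x hx
    obtain ⟨m, -, rfl⟩ := Finset.mem_image.1 hx
    exact (coeff m.1 p).2
  have hi' : rk K (rg e ∪ rg b) = rk K (rg e) + rk K (rg b) := by
    refine le_antisymm (rk_union_le K _ _) ?_
    have h1 := rk_submod K (rg e) Y (rg b)
    have h2 : rk K (rg e ∪ Y) = rk K Y := by
      rw [Finset.union_comm]
      exact rk_union_of_subset_cl K he
    have h3 : rk K (Y ∪ rg b) ≤ rk K (rg e ∪ Y ∪ rg b) := by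
      rw [Finset.union_assoc]
      exact rk_mono K Finset.subset_union_right
    omega
  have h1 := (Spc.refl (K := K) e).elim_of_indep hb h hi'
  have key : ∀ c : ι → Ω, aeval (Sum.elim e c) (∑ m : κ, X (Sum.inl m) *
      ∏ i, X (Sum.inr i) ^ (m.1 i) : MvPolynomial (κ ⊕ ι) K) = aeval c p := by
    intro c
    rw [aeval_def c p, eval₂_eq', map_sum, ← Finset.sum_coe_sort p.support]
    refine Finset.sum_congr rfl fun m _ => ?_
    rw [map_mul, map_prod, aeval_X]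
    congr 1
    refine Finset.prod_congr rfl fun i _ => ?_
    rw [map_pow, aeval_X]
    rfl
  rw [← key]
  refine h1 _ ?_
  rw [key]
  exact hp

theorem spc_lift (hb : Big K Ω) {P L : ι → Ω} (h : Spc K P L) (Y : Finset Ω) :
    ∃ P' : ι → Ω, Spc K P P' ∧ Spc K P' P ∧ rk K (Y ∪ rg P') = rk K Y + rk K (rg P) ∧
      Spc (cl K Y) P' L := by
  obtain ⟨P', h1, h2, h3⟩ := exists_copy hb P Y
  refine ⟨P', h1, h2, h3, spc_cl_of_indep hb (h2.trans h) ?_⟩
  rw [h3, le_antisymm h1.rk_le h2.rk_le]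

end Pool.Agent.Helper30.RY
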