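import Mathlib
import Pool.Agent.Helper30.RY.Lcb
import Pool.Agent.Helper30.RY.Wfv

/-!
# Block RY-ULT: all chains of lines of full rank have the same type

* `Good.lc_start` by induction on `e`.  Put `z = b 0 = b' 0`, `E₀ = cl K (rg z)`.
  `e = 1`: `Good.lines` gives `b 1 ⟶ b' 1` over `E₀`, add the constant coordinates `z` (`spc_const`) and
  reindex (`Spc.comp`).
  `e → e + 1` (`e ≥ 1`): by induction `vt b e ⟶ vt b' e` and `vt b' e ⟶ vt b e` over `E₀`
  (`LC.take`).  By `exists_real_over` over the base field `E₀` (`big_cl`) there is `y` with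
  `(vt b e, b (e+1)) ~ (vt b' e, y)` over `E₀`.  So `y` is on a line through `w = b' e`
  (`Van (ln w y)`: `van_spc`, `Spc.of_cl`), and
  `rk K (rga b' e ∪ rg y) = rk K (rga b (e+1))` (`rk_cl` and `Spc.rk_le`), that is
  `rk K (rga b' e ∪ rg y) = rk K (rga b' e) + m` and (`rk_submod`, `line_le`) `rk K (rg w ∪ rg y) = n + m`.
  `Good.lines`: `y ⟶ b' (e+1)` over `E₁ = cl K (rg w)`.  As `y` is independent of `rga b' e` over `E₁` (`rk_cl`)
  `spc_cl_of_indep` gives `y ⟶ b' (e+1)` over `cl E₁ (rga b' e)`; add the constants `vt b' e` and restrict to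
  `E₀` (`Spc.restrict_alg`, `mem_cl_cl`): `(vt b' e, y) ⟶ (vt b' e, b' (e+1))` over `E₀`.  Compose.
* `Good.lc_stop`: reverse (`LC.rev`) and reindex.
* `Good.lc_move`: given `h : LC .. b`, `i ≤ e` and a point `z` of the hypersurface with `rk K (rg z) = n` there
  is `b'` with `b' i = z` and `vt b e ~ vt b' e` over `K`: `Good.pts` for `b i` and `z` in both directions and
  `exists_real_over` (with `c = vt b e`; the relation that the coordinates `(i, ·)` of `c` are those of `b i`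
  is preserved).
* `Good.lc_type`: `Good.lc_move` with `i = 0`, `z = b' 0`, then `Good.lc_start` and `Spc.of_cl`.
-/

namespace Pool.Agent.Helper30.RY

open MvPolynomial

private theorem vt_one26 {W : Type*} {n : ℕ} (b : ℕ → Fin (n + 1) → W) :
    vt b 1 = Sum.elim (b 0) (b 1) ∘
      fun p : Fin (1 + 1) × Fin (n + 1) => if p.1 = 0 then Sum.inl p.2 else Sum.inr p.2 := by
  funext ⟨l, k⟩
  change b l k = Sum.elim (b 0) (b 1) (if l = 0 then Sum.inl k else Sum.inr k)
  by_cases h : l = 0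
  · rw [if_pos h, h]
    rfl
  · rw [if_neg h]
    have h1 : (l : ℕ) = 1 := by
      have := l.2
      have h2 : (l : ℕ) ≠ 0 := fun h3 => h (Fin.ext h3)
      omega
    rw [h1]
    rfl

private theorem vt_ln26 {W : Type*} {n : ℕ} (b : ℕ → Fin (n + 1) → W) (e : ℕ) (y : Fin (n + 1) → W) :
    vt (ln (b e) y) 1 = Sum.elim (vt b e) y ∘
      fun p : Fin (1 + 1) × Fin (n + 1) => if p.1 = 0 then Sum.inl (Fin.last e, p.2) else Sum.inr p.2 := by
  funext ⟨l, k⟩
  change (if (l : ℕ) = 0 then b e else y) k =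
    Sum.elim (vt b e) y (if l = 0 then Sum.inl (Fin.last e, k) else Sum.inr k)
  by_cases h : l = 0
  · rw [if_pos h, h]
    rfl
  · rw [if_neg h, if_neg (show ¬ ((l : ℕ) = 0) from fun h3 => h (Fin.ext h3))]
    rfl

private theorem vt_succ26 {W : Type*} {n : ℕ} (b : ℕ → Fin (n + 1) → W) (e : ℕ) :
    vt b (e + 1) = Sum.elim (vt b e) (b (e + 1)) ∘ fun p : Fin (e + 1 + 1) × Fin (n + 1) =>
      if h : (p.1 : ℕ) < e + 1 then Sum.inl (⟨p.1, h⟩, p.2) else Sum.inr p.2 := by
  funext ⟨l, k⟩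
  change b l k = Sum.elim (vt b e) (b (e + 1))
    (if h : (l : ℕ) < e + 1 then Sum.inl (⟨l, h⟩, k) else Sum.inr k)
  by_cases h : (l : ℕ) < e + 1
  · rw [dif_pos h]
    rfl
  · rw [dif_neg h]
    have h1 : (l : ℕ) = e + 1 := by
      have := l.2
      omega
    rw [h1]
    rfl

private theorem vt_rev26 {W : Type*} {n : ℕ} (b : ℕ → Fin (n + 1) → W) (e : ℕ) :
    vt b e = vt (fun l => b (e - l)) e ∘ fun p : Fin (e + 1) × Fin (n + 1) =>
      ((⟨e - p.1, by omega⟩ : Fin (e + 1)), p.2) := by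
  funext ⟨l, k⟩
  change b l k = b (e - (e - l)) k
  have h1 : e - (e - (l : ℕ)) = l := by
    have := l.2
    omega
  rw [h1]

private theorem rg_sub26 {W : Type*} [DecidableEq W] {n : ℕ} (b : ℕ → Fin (n + 1) → W) {i e : ℕ} (hi : i ≤ e) : rg (b i) ⊆ rga b e := by
  intro x hx
  exact Finset.mem_biUnion.2 ⟨i, Finset.mem_range.2 (by omega), hx⟩

variable {K : Type*} [Field K] [IsAlgClosed K] {Ω : Type*} [Field Ω] [Algebra K Ω]
  [IsAlgClosed Ω] [DecidableEq Ω] {n d m : ℕ} {c₀ : Mon n d → K}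

omit [IsAlgClosed K] in
theorem Good.lc_start (hb : Big K Ω) (hG : Good K Ω m c₀) {e : ℕ} (he : 1 ≤ e)
    {b b' : ℕ → Fin (n + 1) → Ω} (h : LC K m e (bc Ω c₀) b) (h' : LC K m e (bc Ω c₀) b')
    (h0 : b' 0 = b 0) : Spc (cl K (rg (b 0))) (vt b e) (vt b' e) := by
  revert b b'
  induction e, he using Nat.le_induction with
  | base =>
    intro b b' h h' h0
    have h1 : Spc (cl K (rg (b 0))) (b 1) (b' 1) := by
      refine hG.lines (b 0) (b 1) (b' 1) (h.van 0 one_pos) ?_ (LC.line hb hG h one_pos) ?_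
      · have := h'.van 0 one_pos
        rwa [h0] at this
      · have := LC.line hb hG h' one_pos
        rwa [h0] at this
    have h2 := spc_const h1 (b 0) fun k => subset_cl K _ _ (Finset.mem_image_of_mem _ (Finset.mem_univ k))
    rw [vt_one26 b, vt_one26 b', h0]
    exact h2.comp _
  | succ e he ih =>
    intro b b' h h' h0
    have hb1 := LC.take hb hG h he (Nat.le_succ e)
    have hb1' := LC.take hb hG h' he (Nat.le_succ e)
    have ih1 := ih hb1 hb1' h0
    have ih2 := ih hb1' hb1 h0.symm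
    rw [h0] at ih2
    obtain ⟨y, hy1, hy2⟩ := exists_real_over (big_cl K hb (rg (b 0))) ih1 ih2 (b (e + 1))
    have hK1 := Spc.of_cl hy1
    have hK2 := Spc.of_cl hy2
    have hV : Van (bc Ω c₀) (ln (b' e) y) 1 := by
      refine van_spc ?_ (h.van e (Nat.lt_succ_self e))
      rw [vt_ln26 b e, vt_ln26 b' e]
      exact hK1.comp _
    have hr0 : rk K (rga b' e ∪ rg y) = rk K (rga b e ∪ rg (b (e + 1))) := by
      have h1 := le_antisymm hK1.rk_le hK2.rk_le
      rw [rg_elim, rg_elim, rg_vt, rg_vt] at h1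
      exact h1
    have hlast := LC.last hb hG he h
    have hrb := hb1.rnk
    have hrb' := hb1'.rnk
    have hnode := LC.node hb hG he hb1' le_rfl
    have hwy : rk K (rg (b' e) ∪ rg y) = n + m := by
      have h1 := line_le hG (hb1'.ne e le_rfl) hV
      have h2 := rk_submod K (rg (b' e)) (rga b' e) (rg y)
      have h3 : rg (b' e) ∪ rga b' e = rga b' e := Finset.union_eq_right.2 (rg_sub26 b' le_rfl)
      rw [h3] at h2
      have h4 := hnode.1
      omega
    have hsp : Spc (cl K (rg (b' e))) y (b' (e + 1)) :=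
      hG.lines (b' e) y (b' (e + 1)) hV (h'.van e (Nat.lt_succ_self e)) hwy
        (LC.line hb hG h' (Nat.lt_succ_self e))
    have hac : IsAlgClosed (cl K (rg (b' e))) := isAlgClosed_cl K (rg (b' e))
    have hsp2 : Spc (cl (cl K (rg (b' e))) (rga b' e)) y (b' (e + 1)) := by
      refine spc_cl_of_indep (big_cl K hb (rg (b' e))) hsp ?_
      have h1 := rk_cl K (rg (b' e)) (rga b' e ∪ rg y)
      have h2 := rk_cl K (rg (b' e)) (rga b' e)
      have h3 := rk_cl K (rg (b' e)) (rg y)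
      have h4 : rg (b' e) ∪ rga b' e = rga b' e := Finset.union_eq_right.2 (rg_sub26 b' le_rfl)
      rw [← Finset.union_assoc, h4] at h1
      rw [h4] at h2
      have h5 := hnode.1
      omega
    have hsp3 := spc_const hsp2 (vt b' e) fun p => by
      refine subset_cl (cl K (rg (b' e))) _ _ ?_
      rw [← rg_vt]
      exact Finset.mem_image_of_mem _ (Finset.mem_univ p)
    have hsp4 : Spc (cl K (rg (b 0))) (Sum.elim (vt b' e) y) (Sum.elim (vt b' e) (b' (e + 1))) := by
      refine Spc.restrict_alg (fun x => ?_) hsp3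
      have h1 : (x : Ω) ∈ cl (cl K (rg (b' e))) (rga b' e) := by
        rw [mem_cl_cl]
        refine cl_mono K ?_ x.2
        rw [← h0]
        exact (rg_sub26 b' (Nat.zero_le e)).trans Finset.subset_union_right
      exact ⟨⟨x, h1⟩, rfl⟩
    rw [vt_succ26 b, vt_succ26 b']
    exact (hy1.trans hsp4).comp _

omit [IsAlgClosed K] in
theorem Good.lc_stop (hb : Big K Ω) (hG : Good K Ω m c₀) {e : ℕ} (he : 1 ≤ e)
    {b b' : ℕ → Fin (n + 1) → Ω} (h : LC K m e (bc Ω c₀) b) (h' : LC K m e (bc Ω c₀) b')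
    (h0 : b' e = b e) : Spc (cl K (rg (b e))) (vt b e) (vt b' e) := by
  have h1 := hG.lc_start hb he h.rev h'.rev (by
    rw [Nat.sub_zero, h0])
  have h2 : Spc (cl K (rg (b e))) (vt (fun l => b (e - l)) e) (vt (fun l => b' (e - l)) e) := h1
  rw [vt_rev26 b, vt_rev26 b']
  exact h2.comp _

omit [IsAlgClosed K] in
theorem Good.lc_move (hb : Big K Ω) (hG : Good K Ω m c₀) {e : ℕ} (he : 1 ≤ e)
    {b : ℕ → Fin (n + 1) → Ω} (h : LC K m e (bc Ω c₀) b) {i : ℕ} (hi : i ≤ e)
    {z : Fin (n + 1) → Ω} (hr : rk K (rg z) = n) (h0 : eval z (fm (bc Ω c₀)) = 0) :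
    ∃ b' : ℕ → Fin (n + 1) → Ω, b' i = z ∧ Spc K (vt b e) (vt b' e) ∧
      Spc K (vt b' e) (vt b e) ∧ LC K m e (bc Ω c₀) b' := by
  have hn := LC.node hb hG he h hi
  have h1 := hG.pts (b i) z hn.2 h0 hn.1 hr
  have h2 := hG.pts z (b i) h0 hn.2 hr hn.1
  obtain ⟨D, hD1, hD2⟩ := exists_real_over hb h1 h2 (vt b e)
  let b' : ℕ → Fin (n + 1) → Ω := fun l k => if h : l < e + 1 then D (⟨l, h⟩, k) else 0
  have hv : vt b' e = D := by
    funext ⟨l, k⟩
    change (if h : (l : ℕ) < e + 1 then D (⟨l, h⟩, k) else 0) = D (l, k)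
    rw [dif_pos l.2]
  have hs1 : Spc K (vt b e) (vt b' e) := by
    rw [hv]
    exact hD1.comp Sum.inr
  have hs2 : Spc K (vt b' e) (vt b e) := by
    rw [hv]
    exact hD2.comp Sum.inr
  refine ⟨b', ?_, hs1, hs2, LC.of_spc hs1 hs2 h⟩
  funext k
  have hie : i < e + 1 := by omega
  have h3 := hD1 (X (Sum.inl k) - X (Sum.inr (⟨i, hie⟩, k))) (by
    rw [map_sub, aeval_X, aeval_X]
    exact sub_self _)
  rw [map_sub, aeval_X, aeval_X] at h3
  change (if h : i < e + 1 then D (⟨i, h⟩, k) else 0) = z k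
  rw [dif_pos hie]
  exact (sub_eq_zero.1 h3).symm

omit [IsAlgClosed K] in
theorem Good.lc_type (hb : Big K Ω) (hG : Good K Ω m c₀) {e : ℕ} (he : 1 ≤ e)
    {b b' : ℕ → Fin (n + 1) → Ω} (h : LC K m e (bc Ω c₀) b) (h' : LC K m e (bc Ω c₀) b') :
    Spc K (vt b e) (vt b' e) := by
  have hn := LC.node hb hG he h' (Nat.zero_le e)
  obtain ⟨b'', h1, h2, _, h4⟩ := hG.lc_move hb he h (Nat.zero_le e) hn.1 hn.2
  exact h2.trans (hG.lc_start hb he h4 h' h1.symm).of_cl

end Pool.Agent.Helper30.RY
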