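import Mathlib
import Pool.Agent.Helper30.RY.Ult
import Pool.Agent.Helper30.RY.Lyo

/-!
# Block RY-TSA: anchoring a specialisation to a chain of lines at a node

`P = (τ, a)` specialises over `K` to the chain of lines `(0, b)`, and the node `z = a i` is a point of rank
`n` of the hypersurface.  Then `P` specialises over `E = cl K (rg z)` to a chain of lines `(0, b')` with
`b' i = z`.

Proof.  `Good.lc_move` gives `b₁` with `b₁ i = z` and `vt b e ~ vt b₁ e` over `K`, so
`qt τ a e ⟶ qt 0 b e ⟶ qt 0 b₁ e` over `K`.  The coordinates `(i, ·)` of `qt τ a e` and of `qt 0 b₁ e` are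
those of `z`, so `(z, qt τ a e) ⟶ (z, qt 0 b₁ e)` over `K` (`Spc.comp`).  `exists_lift_cl` gives `L'` with
`(z, qt 0 b₁ e) ~ (z, L')` over `K` and `qt τ a e ⟶ L'` over `E`.  `L'` is of the form `qt 0 b' e`
(the coordinates `τ` are zero: `Spc.eq_zero`; define `b' l = L' (inr (l, ·))` for `l ≤ e`), `b' i = z`
(the relation between the coordinates of `z` and the coordinates `(i, ·)`), and `b'` is a chain of lines of
full rank by `LC.of_spc`.
-/

namespace Pool.Agent.Helper30.RY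

open MvPolynomial

variable {K : Type*} [Field K] [IsAlgClosed K] {Ω : Type*} [Field Ω] [Algebra K Ω]
  [IsAlgClosed Ω] [DecidableEq Ω] {n d m : ℕ} {c₀ : Mon n d → K}

theorem Good.anchor (hb : Big K Ω) (hG : Good K Ω m c₀) {e : ℕ} (he : 1 ≤ e) {τ : ℕ → Ω}
    {a b : ℕ → Fin (n + 1) → Ω} (h : LC K m e (bc Ω c₀) b)
    (hs : Spc K (qt τ a e) (qt (fun _ => 0) b e)) {i : ℕ} (hi : i ≤ e)
    (hr : rk K (rg (a i)) = n) (h0 : eval (a i) (fm (bc Ω c₀)) = 0) :
    ∃ b' : ℕ → Fin (n + 1) → Ω, LC K m e (bc Ω c₀) b' ∧ b' i = a i ∧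
      Spc (cl K (rg (a i))) (qt τ a e) (qt (fun _ => 0) b' e) := by
  have hie : i < e + 1 := by omega
  obtain ⟨b₁, hb₁, h1, h2, h3⟩ := hG.lc_move hb he h hi hr h0
  have hsq : Spc K (qt (fun _ => (0 : Ω)) b e) (qt (fun _ => (0 : Ω)) b₁ e) := by
    have h' := h1.poly (κ := Fin (e - 1) ⊕ (Fin (e + 1) × Fin (n + 1)))
      (Sum.elim (fun _ => 0) X)
    have e1 : ∀ c : ℕ → Fin (n + 1) → Ω,
        (fun j => aeval (vt c e) ((Sum.elim (fun _ => 0) X :
          Fin (e - 1) ⊕ (Fin (e + 1) × Fin (n + 1)) →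
            MvPolynomial (Fin (e + 1) × Fin (n + 1)) K) j)) = qt (fun _ => (0 : Ω)) c e := by
      intro c
      funext j
      rcases j with j | j
      · simp [qt]
      · simp [qt]
    rw [e1, e1] at h'
    exact h'
  have hPL : Spc K (qt τ a e) (qt (fun _ => (0 : Ω)) b₁ e) := hs.trans hsq
  have hzz : Spc K (Sum.elim (a i) (qt τ a e)) (Sum.elim (a i) (qt (fun _ => (0 : Ω)) b₁ e)) := by
    have h' := hPL.comp (Sum.elim (fun k => Sum.inr ((⟨i, hie⟩ : Fin (e + 1)), k)) id)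
    have e1 : ∀ (σ : ℕ → Ω) (c : ℕ → Fin (n + 1) → Ω), c i = a i →
        qt σ c e ∘ (Sum.elim (fun k => Sum.inr ((⟨i, hie⟩ : Fin (e + 1)), k)) id) =
          Sum.elim (a i) (qt σ c e) := by
      intro σ c hc
      funext j
      rcases j with j | j
      · simp only [Function.comp_apply, Sum.elim_inl, qt, Sum.elim_inr, vt, hc]
      · simp only [Function.comp_apply, Sum.elim_inr, id]
    rw [e1 τ a rfl, e1 _ b₁ hb₁] at h'
    exact h'
  obtain ⟨L, h4, h5, h6⟩ := exists_lift_cl hb hzz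
  let b' : ℕ → Fin (n + 1) → Ω := fun l k =>
    if hl : l < e + 1 then L (Sum.inr (⟨l, hl⟩, k)) else 0
  have hL : qt (fun _ => (0 : Ω)) b' e = L := by
    funext j
    rcases j with j | ⟨p, k⟩
    · have h' := h4.eq_zero (i := Sum.inr (Sum.inl j)) (by simp [qt])
      simp only [Sum.elim_inr] at h'
      rw [h']
      simp [qt]
    · simp only [qt, Sum.elim_inr, vt, b']
      rw [dif_pos p.2]
  have hvt : vt b' e = L ∘ Sum.inr := by
    rw [← hL]
    funext j
    simp [qt]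
  have hv1 : Spc K (vt b₁ e) (vt b' e) := by
    have h' := h4.comp (fun p : Fin (e + 1) × Fin (n + 1) => Sum.inr (Sum.inr p))
    rw [hvt]
    exact h'
  have hv2 : Spc K (vt b' e) (vt b₁ e) := by
    have h' := h5.comp (fun p : Fin (e + 1) × Fin (n + 1) => Sum.inr (Sum.inr p))
    rw [hvt]
    exact h'
  refine ⟨b', LC.of_spc hv1 hv2 h3, ?_, ?_⟩
  · funext k
    have h' := h4 (X (Sum.inl k) - X (Sum.inr (Sum.inr (⟨i, hie⟩, k)))) (by
      rw [map_sub, aeval_X, aeval_X]
      simp only [Sum.elim_inl, Sum.elim_inr, qt, vt, hb₁]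
      exact sub_self _)
    rw [map_sub, aeval_X, aeval_X] at h'
    simp only [Sum.elim_inl, Sum.elim_inr] at h'
    have h7 : b' i k = L (Sum.inr (⟨i, hie⟩, k)) := by
      simp only [b']
      rw [dif_pos hie]
    rw [h7]
    exact (sub_eq_zero.1 h').symm
  · rw [hL]
    exact h6

end Pool.Agent.Helper30.RY
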