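import Mathlib
import Pool.Agent.Helper30.RY.Tsa

/-!
# Block RY-TSB: every chain of full rank specialises to a chain of lines of full rank

`Good.join_spc`: let `τ j = 0`, `1 ≤ j < e`, and let the two parts `P₁ = (τ, a)` of degree `j` and
`P₂ = (τ (· + j), a (· + j))` of degree `e - j` specialise over `E = cl K (rg (a j))` to the chains of lines
`(0, b₁)` with `b₁ j = a j` and `(0, b₂)` with `b₂ 0 = a j`; `P₁` and `P₂` are independent over `K(a j)` (`hi`).
Then `(τ, a)` specialises over `K` to a chain of lines.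
Proof.  Let `z = a j`, `rk K (rg z) = n`.  By `exists_copy` over the base field `E` (`big_cl`) there is `b₂'` with
`vt b₂ (e - j) ~ vt b₂' (e - j)` over `E` and independent of `rga b₁ j` over `E`; with `rk_cl`:
`rk K (rga b₁ j ∪ rga b₂' (e-j)) + n = rk K (rga b₁ j) + rk K (rga b₂' (e-j))` (note `rg z ⊆ rga b₁ j`,
`b₂' 0 = z` since the coordinates of `z` are in `E`), so `LC.join` gives a chain of lines `b` of degree `e`.
`P₂ ⟶ (0, b₂')` over `E`.  `P₁`, `P₂` are independent over `E` (`rk_cl`, `hi`, `rg z ⊆ P₁, P₂`), so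
`Spc.elim_of_indep` over the base field `E` (`isAlgClosed_cl`, `big_cl`) gives
`(P₁, P₂) ⟶ ((0, b₁), (0, b₂'))` over `E`, hence over `K` (`Spc.of_cl`).  All coordinates of `qt τ a e` are
coordinates of `P₁` or `P₂`, or `τ j = 0` (`Spc.poly`).

`Good.full_spc` by strong induction on `e`.  `e = 1`: `b = a` (`pcc 0 1 τ a l = a l`; all products are
empty).  `e ≥ 2`: if `brk τ e = ∅` use `Good.brks` and transitivity, so that we can assume that there is
`j ∈ brk τ e`.  `Full.split`; by induction both parts specialise to chains of lines over `K`; `Good.anchor`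
(`Full.stop` for the first part with `i = j`, `Full.start` for the second one with `i = 0`) and
`Good.join_spc`.
-/

namespace Pool.Agent.Helper30.RY

open MvPolynomial

section aux4

variable {Ω : Type*} [DecidableEq Ω] {n : ℕ}

private theorem mem_rg4 {ι : Type*} [Fintype ι] (a : ι → Ω) (i : ι) : a i ∈ rg a :=
  Finset.mem_image_of_mem _ (Finset.mem_univ i)

private theorem mem_rga4 {a : ℕ → Fin (n + 1) → Ω} {e l : ℕ} (hl : l ≤ e) (i : Fin (n + 1)) :
    a l i ∈ rga a e :=
  Finset.mem_biUnion.2 ⟨l, Finset.mem_range.2 (by omega), mem_rg4 (a l) i⟩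

private theorem rg_rga4 {a : ℕ → Fin (n + 1) → Ω} {e l : ℕ} (hl : l ≤ e) : rg (a l) ⊆ rga a e := by
  intro x hx
  obtain ⟨i, _, rfl⟩ := Finset.mem_image.1 hx
  exact mem_rga4 hl i

private theorem rga_mem4 {a : ℕ → Fin (n + 1) → Ω} {e : ℕ} {x : Ω} (hx : x ∈ rga a e) :
    ∃ l ≤ e, ∃ i, x = a l i := by
  obtain ⟨l, hl, hx⟩ := Finset.mem_biUnion.1 hx
  obtain ⟨i, _, rfl⟩ := Finset.mem_image.1 hx
  exact ⟨l, by have := Finset.mem_range.1 hl; omega, i, rfl⟩

private theorem mem_rgt4 {τ : ℕ → Ω} {e s : ℕ} (h1 : 1 ≤ s) (h2 : s < e) : τ s ∈ rgt τ e :=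
  Finset.mem_image_of_mem _ (Finset.mem_Ico.2 ⟨h1, h2⟩)

private theorem rgt_mem4 {τ : ℕ → Ω} {e : ℕ} {x : Ω} (hx : x ∈ rgt τ e) :
    ∃ s, 1 ≤ s ∧ s < e ∧ x = τ s := by
  obtain ⟨s, hs, rfl⟩ := Finset.mem_image.1 hx
  have := Finset.mem_Ico.1 hs
  exact ⟨s, this.1, this.2, rfl⟩

end aux4

section aux4b

variable {K : Type*} [Field K] {Ω : Type*} [Field Ω] [Algebra K Ω] [DecidableEq Ω] {n : ℕ}

private theorem rk_split4 {e j : ℕ} {τ : ℕ → Ω} {a : ℕ → Fin (n + 1) → Ω}
    (h1 : 1 ≤ j) (h2 : j < e) (h0 : τ j = 0) :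
    rk K ((rgt τ j ∪ rga a j) ∪
        (rgt (fun s => τ (s + j)) (e - j) ∪ rga (fun l => a (l + j)) (e - j))) =
      rk K (rgt τ e ∪ rga a e) := by
  refine le_antisymm (rk_mono K fun x hx => ?_) (rk_le_of_subset_cl K fun x hx => ?_)
  · rcases Finset.mem_union.1 hx with hx | hx
    · rcases Finset.mem_union.1 hx with hx | hx
      · obtain ⟨s, hs1, hs2, rfl⟩ := rgt_mem4 hx
        exact Finset.mem_union_left _ (mem_rgt4 hs1 (by omega))
      · obtain ⟨l, hl, i, rfl⟩ := rga_mem4 hx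
        exact Finset.mem_union_right _ (mem_rga4 (by omega) i)
    · rcases Finset.mem_union.1 hx with hx | hx
      · obtain ⟨s, hs1, hs2, rfl⟩ := rgt_mem4 hx
        exact Finset.mem_union_left _ (mem_rgt4 (τ := τ) (s := s + j) (by omega) (by omega))
      · obtain ⟨l, hl, i, rfl⟩ := rga_mem4 hx
        exact Finset.mem_union_right _ (mem_rga4 (a := a) (l := l + j) (by omega) i)
  · rcases Finset.mem_union.1 hx with hx | hx
    · obtain ⟨s, hs1, hs2, rfl⟩ := rgt_mem4 hx
      rcases lt_trichotomy s j with h | h | h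
      · exact subset_cl K _ _ (Finset.mem_union_left _ (Finset.mem_union_left _ (mem_rgt4 hs1 h)))
      · rw [h, h0]
        exact zero_mem _
      · have h6 := mem_rgt4 (τ := fun s => τ (s + j)) (e := e - j) (s := s - j) (by omega)
          (by omega)
        change τ (s - j + j) ∈ _ at h6
        rw [Nat.sub_add_cancel h.le] at h6
        exact subset_cl K _ _ (Finset.mem_union_right _ (Finset.mem_union_left _ h6))
    · obtain ⟨l, hl, i, rfl⟩ := rga_mem4 hx
      rcases Nat.lt_or_ge j l with h | h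
      · have h6 := mem_rga4 (a := fun l => a (l + j)) (e := e - j) (l := l - j) (by omega) i
        change a (l - j + j) i ∈ _ at h6
        rw [Nat.sub_add_cancel h.le] at h6
        exact subset_cl K _ _ (Finset.mem_union_right _ (Finset.mem_union_right _ h6))
      · exact subset_cl K _ _ (Finset.mem_union_left _ (Finset.mem_union_right _ (mem_rga4 h i)))

variable (K n) in
private noncomputable def pc4 (e j : ℕ) : Fin (e - 1) ⊕ (Fin (e + 1) × Fin (n + 1)) →
    MvPolynomial ((Fin (j - 1) ⊕ (Fin (j + 1) × Fin (n + 1))) ⊕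
      (Fin (e - j - 1) ⊕ (Fin (e - j + 1) × Fin (n + 1)))) K
  | Sum.inl s => if h1 : (s : ℕ) < j - 1 then X (Sum.inl (Sum.inl ⟨s, h1⟩))
      else if h2 : j ≤ (s : ℕ) then X (Sum.inr (Sum.inl ⟨(s : ℕ) - j, by omega⟩)) else 0
  | Sum.inr q => if h1 : (q.1 : ℕ) ≤ j then X (Sum.inl (Sum.inr (⟨q.1, by omega⟩, q.2)))
      else X (Sum.inr (Sum.inr (⟨(q.1 : ℕ) - j, by omega⟩, q.2)))

omit [DecidableEq Ω] in
private theorem spc_pieces4 {e j : ℕ} (hj : 1 ≤ j) (hje : j < e) {τ : ℕ → Ω}
    {a b₁ b₂ : ℕ → Fin (n + 1) → Ω} (h0 : τ j = 0)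
    (h : Spc K (Sum.elim (qt τ a j) (qt (fun s => τ (s + j)) (fun l => a (l + j)) (e - j)))
      (Sum.elim (qt (fun _ => 0) b₁ j) (qt (fun _ => 0) b₂ (e - j)))) :
    Spc K (qt τ a e) (qt (fun _ => 0) (fun l => if l ≤ j then b₁ l else b₂ (l - j)) e) := by
  have h1 := h.poly (pc4 K n e j)
  have e1 : (fun k => aeval (Sum.elim (qt τ a j)
      (qt (fun s => τ (s + j)) (fun l => a (l + j)) (e - j))) (pc4 K n e j k)) = qt τ a e := by
    funext k
    rcases k with s | q
    · unfold pc4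
      change _ = τ (s + 1)
      simp only
      split_ifs with h2 h3
      · rw [aeval_X]
        rfl
      · rw [aeval_X]
        change τ ((s : ℕ) - j + 1 + j) = τ (s + 1)
        congr 1
        omega
      · rw [map_zero, ← h0]
        congr 1
        omega
    · unfold pc4
      change _ = a q.1 q.2
      simp only
      split_ifs with h2
      · rw [aeval_X]
        rfl
      · rw [aeval_X]
        change a ((q.1 : ℕ) - j + j) q.2 = a q.1 q.2
        rw [Nat.sub_add_cancel (by omega)]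
  have e2 : (fun k => aeval (Sum.elim (qt (fun _ => 0) b₁ j) (qt (fun _ => 0) b₂ (e - j)))
      (pc4 K n e j k)) =
      qt (fun _ => (0 : Ω)) (fun l => if l ≤ j then b₁ l else b₂ (l - j)) e := by
    funext k
    rcases k with s | q
    · unfold pc4
      change _ = (0 : Ω)
      simp only
      split_ifs with h2 h3
      · rw [aeval_X]
        rfl
      · rw [aeval_X]
        rfl
      · rw [map_zero]
    · unfold pc4
      change _ = (if (q.1 : ℕ) ≤ j then b₁ q.1 else b₂ ((q.1 : ℕ) - j)) q.2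
      simp only
      split_ifs with h2
      · rw [aeval_X]
        rfl
      · rw [aeval_X]
        rfl
  rw [e1, e2] at h1
  exact h1

omit [DecidableEq Ω] in
private theorem spc_qt4 {e : ℕ} {b b' : ℕ → Fin (n + 1) → Ω} (h : Spc K (vt b e) (vt b' e)) :
    Spc K (qt (fun _ => 0) b e) (qt (fun _ => 0) b' e) := by
  have h1 := h.poly (Sum.elim (fun _ : Fin (e - 1) => (0 : MvPolynomial _ K)) fun q => X q)
  have e1 : ∀ b : ℕ → Fin (n + 1) → Ω, (fun k => aeval (vt b e)
      (Sum.elim (fun _ : Fin (e - 1) => (0 : MvPolynomial _ K)) (fun q => X q) k)) =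
      qt (fun _ => 0) b e := by
    intro b
    funext k
    rcases k with s | q
    · change aeval (vt b e) (0 : MvPolynomial _ K) = 0
      rw [map_zero]
    · change aeval (vt b e) (X q : MvPolynomial _ K) = vt b e q
      rw [aeval_X]
  rw [e1, e1] at h1
  exact h1

end aux4b

variable {K : Type*} [Field K] [IsAlgClosed K] {Ω : Type*} [Field Ω] [Algebra K Ω]
  [IsAlgClosed Ω] [DecidableEq Ω] {n d m : ℕ} {c₀ : Mon n d → K}

theorem Good.join_spc (hb : Big K Ω) (hG : Good K Ω m c₀) {e j : ℕ} (hj : 1 ≤ j) (hje : j < e)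
    {τ : ℕ → Ω} {a b₁ b₂ : ℕ → Fin (n + 1) → Ω} (h0 : τ j = 0) (hr : rk K (rg (a j)) = n)
    (hi : rk K ((rgt τ j ∪ rga a j) ∪
        (rgt (fun s => τ (s + j)) (e - j) ∪ rga (fun l => a (l + j)) (e - j))) + n =
      rk K (rgt τ j ∪ rga a j) +
        rk K (rgt (fun s => τ (s + j)) (e - j) ∪ rga (fun l => a (l + j)) (e - j)))
    (h₁ : LC K m j (bc Ω c₀) b₁) (h₂ : LC K m (e - j) (bc Ω c₀) b₂) (hb₁ : b₁ j = a j)
    (hb₂ : b₂ 0 = a j)
    (hs₁ : Spc (cl K (rg (a j))) (qt τ a j) (qt (fun _ => 0) b₁ j))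
    (hs₂ : Spc (cl K (rg (a j))) (qt (fun s => τ (s + j)) (fun l => a (l + j)) (e - j))
      (qt (fun _ => 0) b₂ (e - j))) :
    ∃ b : ℕ → Fin (n + 1) → Ω, LC K m e (bc Ω c₀) b ∧
      Spc K (qt τ a e) (qt (fun _ => 0) b e) := by
  obtain ⟨z, hz⟩ : ∃ z, z = a j := ⟨_, rfl⟩
  rw [← hz] at hr hb₁ hb₂ hs₁ hs₂
  have hE := isAlgClosed_cl K (rg z)
  have hbE := big_cl K hb (rg z)
  obtain ⟨v, hv1, hv2, hv3⟩ := exists_copy hbE (vt b₂ (e - j)) (rga b₁ j)
  obtain ⟨b₂', hb₂'⟩ : ∃ b₂' : ℕ → Fin (n + 1) → Ω,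
      b₂' = fun l i => if h : l < e - j + 1 then v (⟨l, h⟩, i) else 0 := ⟨_, rfl⟩
  have hvt : vt b₂' (e - j) = v := by
    funext p
    obtain ⟨⟨l, hl⟩, i⟩ := p
    change b₂' l i = v (⟨l, hl⟩, i)
    rw [hb₂']
    exact dif_pos hl
  rw [← hvt] at hv1 hv2 hv3
  have hb0 : b₂' 0 = z := by
    funext i
    have h1 := hv1 (X (⟨0, by omega⟩, i) -
      C (⟨z i, subset_cl K (rg z) (z i) (mem_rg4 z i)⟩ : cl K (rg z))) (by
        rw [map_sub, aeval_X, aeval_C]
        change b₂ 0 i - z i = 0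
        rw [hb₂, sub_self])
    rw [map_sub, aeval_X, aeval_C] at h1
    exact sub_eq_zero.1 h1
  have hLC : LC K m (e - j) (bc Ω c₀) b₂' := LC.of_spc (Spc.of_cl hv1) (Spc.of_cl hv2) h₂
  have hrk : ∀ X : Finset Ω, rg z ⊆ X → rk (cl K (rg z)) X + n = rk K X := by
    intro X hX
    have h := rk_cl K (rg z) X
    rw [Finset.union_eq_right.2 hX, hr] at h
    exact h
  have hz1 : rg z ⊆ rga b₁ j := by
    rw [← hb₁]
    exact rg_rga4 le_rfl
  have hz2 : rg z ⊆ rga b₂' (e - j) := by
    rw [← hb0]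
    exact rg_rga4 (Nat.zero_le _)
  have hz3 : rg z ⊆ rgt τ j ∪ rga a j := by
    rw [hz]
    exact (rg_rga4 le_rfl).trans Finset.subset_union_right
  have hz4 : rg z ⊆ rgt (fun s => τ (s + j)) (e - j) ∪ rga (fun l => a (l + j)) (e - j) := by
    have h1 : z = (fun l => a (l + j)) 0 := by
      rw [hz]
      change a j = a (0 + j)
      rw [zero_add]
    rw [h1]
    exact (rg_rga4 (a := fun l => a (l + j)) (e := e - j) (l := 0) (Nat.zero_le _)).trans
      Finset.subset_union_right
  have hjoin := LC.join h₁ hLC (hb₁.trans hb0.symm) (by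
    have h1 := hrk _ (hz1.trans (Finset.subset_union_left (s₂ := rga b₂' (e - j))))
    have h2 := hrk _ hz1
    have h3 := hrk _ hz2
    have h4 := hv1.rk_le
    have h5 := hv2.rk_le
    rw [rg_vt b₂'] at hv3 h4 h5
    omega)
  have hje' : j + (e - j) = e := by omega
  rw [hje'] at hjoin
  refine ⟨_, hjoin, spc_pieces4 hj hje h0 ?_⟩
  have h1 := hrk _ (hz3.trans (Finset.subset_union_left
    (s₂ := rgt (fun s => τ (s + j)) (e - j) ∪ rga (fun l => a (l + j)) (e - j))))
  have h2 := hrk _ hz3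
  have h3 := hrk _ hz4
  have h4 := Spc.elim_of_indep hbE hs₁ (hs₂.trans (spc_qt4 hv1)) (by
    rw [rg_qt, rg_qt]
    omega)
  exact Spc.of_cl h4

theorem Good.full_spc (hb : Big K Ω) (hG : Good K Ω m c₀) (e : ℕ) (he : 1 ≤ e) (τ : ℕ → Ω)
    (a : ℕ → Fin (n + 1) → Ω) (h : Full K m e (bc Ω c₀) τ a) :
    ∃ b : ℕ → Fin (n + 1) → Ω, LC K m e (bc Ω c₀) b ∧
      Spc K (qt τ a e) (qt (fun _ => 0) b e) := by
  induction e using Nat.strong_induction_on generalizing τ a with
  | _ e ih =>
    rcases Nat.lt_or_ge 1 e with he1 | he1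
    · have key : ∀ (τ : ℕ → Ω) (a : ℕ → Fin (n + 1) → Ω), Full K m e (bc Ω c₀) τ a →
          (brk τ e).Nonempty → ∃ b : ℕ → Fin (n + 1) → Ω, LC K m e (bc Ω c₀) b ∧
            Spc K (qt τ a e) (qt (fun _ => 0) b e) := by
        intro τ a h hne
        obtain ⟨j, hj⟩ := hne
        obtain ⟨hj1, hj2, hj0⟩ := mem_brk.1 hj
        obtain ⟨F₁, F₂, hsum⟩ := Full.split hb hG h hj
        obtain ⟨b₁, hb₁, hs₁⟩ := ih j hj2 hj1 τ a F₁
        obtain ⟨b₂, hb₂, hs₂⟩ := ih (e - j) (by omega) (by omega) _ _ F₂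
        have hr := F₁.stop hb hG hj1
        have ha0 : a (0 + j) = a j := by
          rw [zero_add]
        have hev : eval (a j) (fm (bc Ω c₀)) = 0 := by
          have h1 := eval_zero_of_vanp (F₂.fcp 0 (by omega))
          have h2 : pcc 0 (e - j) (fun s => τ (s + j)) (fun l => a (l + j)) 0 = a j := by
            funext i
            unfold pcc
            have h3 : ∏ s ∈ Finset.Ico (0 + 1) (e - j), τ (s + j) ^ (0 - s) = 1 :=
              Finset.prod_eq_one fun s _ => by rw [Nat.zero_sub, pow_zero]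
            rw [h3, mul_one, zero_add, Finset.Ico_self, Finset.prod_empty, mul_one]
            change a (0 + j) i = a j i
            rw [zero_add]
          rw [h2] at h1
          exact h1
        obtain ⟨b₁', h1, h2, h3⟩ := hG.anchor hb hj1 hb₁ hs₁ (i := j) le_rfl hr hev
        obtain ⟨b₂', h4, h5, h6⟩ := hG.anchor hb (by omega) hb₂ hs₂ (i := 0) (Nat.zero_le _)
          (by rw [ha0]; exact hr) (by rw [ha0]; exact hev)
        rw [ha0] at h5 h6
        exact hG.join_spc hb hj1 hj2 hj0 hr (by rw [rk_split4 hj1 hj2 hj0]; exact hsum) h1 h4 h2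
          h5 h3 h6
      rcases (brk τ e).eq_empty_or_nonempty with hbr | hbr
      · obtain ⟨τ', a', h1, h2, h3⟩ := hG.brks e he1 τ a (fun i hi1 hi2 hi0 => by
          have h4 := mem_brk.2 ⟨hi1, hi2, hi0⟩
          rw [hbr] at h4
          exact Finset.notMem_empty _ h4) h
        obtain ⟨b, h4, h5⟩ := key τ' a' h3 h2
        exact ⟨b, h4, h1.trans h5⟩
      · exact key τ a h hbr
    · have he' : e = 1 := le_antisymm he1 he
      subst he'
      have hq : qt τ a 1 = qt (fun _ => 0) a 1 := by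
        funext k
        rcases k with s | q
        · exact absurd s.2 (by omega)
        · rfl
      refine ⟨a, ⟨fun i hi => ?_, fun i hi => ?_, ?_⟩, ?_⟩
      · have hi0 : i = 0 := by omega
        subst hi0
        refine (vanp_congr fun l hl i => ?_).mp (h.fcp 0 (by omega))
        unfold pcc
        rw [zero_add, Finset.Ico_self, Finset.prod_empty, mul_one, Finset.prod_empty, mul_one]
        unfold ln
        split_ifs with h1
        · rw [h1]
        · have h2 : l = 1 := by omega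
          rw [h2]
      · have hi0 : i = 0 ∨ i = 1 := by omega
        rcases hi0 with hi0 | hi0
        · rw [hi0]
          exact h.nod.1
        · rw [hi0]
          exact h.nod.2.1
      · have h1 := h.rnk
        have h2 : rgt τ 1 = ∅ := by
          unfold rgt
          rw [Finset.Ico_self, Finset.image_empty]
        have h3 : brk τ 1 = ∅ := by
          unfold brk
          rw [Finset.Ico_self, Finset.filter_empty]
        rw [h2, h3, Finset.empty_union, Finset.card_empty] at h1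
        exact h1
      · rw [hq]
        exact Spc.refl _

end Pool.Agent.Helper30.RY
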