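import Mathlib
import Pool.Agent.Helper30.RY.Tsb
import Pool.Agent.Helper30.RY.Jca
import Pool.Agent.Helper30.RY.Jcb
import Pool.Agent.Helper30.RY.Jcd
import Pool.Agent.Helper30.RY.Sml

/-!
# Block RY-UEF: all chains of full rank without breaks have the same type

* `Good.full_sur`: `Good.full_spc` gives a chain of lines `b`; each of its lines has full rank (`LC.line`), so
  by `Good.free` and `sur_lines` (over `Ω`) `Sur` holds for `(0, b)`; `sur_spc`.
* `Good.full_type`: let `b` be a chain of lines of full rank with `qt τ a e ⟶ qt 0 b e` (`Good.full_spc`); also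
  `qt τ' a' e ⟶ qt 0 b e`: `Good.full_spc` gives a chain of lines `b'`, and `vt b' e ⟶ vt b e` by
  `Good.lc_type`.  Put `Y = rga b e`, `E = cl K Y`.  `spc_lift` gives copies `P`, `P'` of `qt τ a e`,
  `qt τ' a' e` (same type over `K`), independent of `Y` and specialising over `E` to `L = qt 0 b e`.
  Apply `spc_of_smooth` over `E` to the polynomials `h_N = hq c₁ e (plc d e N) N`, `N ≤ d e`
  (`Fin (d * e + 1)`), where `c₁` is `c₀` as a form over `E`, and to the point `W` of `E` with image `L`: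
  - `h_N(W) = 0`, `h_N(P) = 0`, `h_N(P') = 0`: `fcp_iff_hq` (`plc d e N < e`), and `P` has the type of a chain;
    `hq c₁` is the image of `hq c₀` (or use `aeval_hq` over `E`, with `bc Ω c₁ = bc Ω c₀`);
  - the differential at `W` is surjective: `sur_lines` over `E`; `hfree` over `E` follows from `Good.free` by
    `free_descend` (`degree_line`, `pderiv_fm_hom`); then `dd_hq` with `Z = Sum.elim 0 (vt V e)`;
  - the number of variables is `(e - 1) + (e + 1) (n + 1) = (m e + n + (e - 1)) + (d e + 1)` because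
    `m + d = n + 1`; the rank over `E` of `P` is the rank over `K` of `qt τ a e` (`rk_cl` and independence),
    that is `m e + n + (e - 1)` (no breaks: `brk τ e = ∅`).
  So `P ⟶ P'` over `E`, and `qt τ a e ⟶ P ⟶ P' ⟶ qt τ' a' e` over `K` (`Spc.of_cl`).
-/

namespace Pool.Agent.Helper30.RY

open MvPolynomial

section aux42

private theorem map_aeval42 {σ A B : Type*} [CommRing A] [CommRing B] (φ : A →+* B)
    (g : σ → Polynomial A) (f : MvPolynomial σ A) :
    (aeval g f).map φ = aeval (fun i => (g i).map φ) (map φ f) := by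
  induction f using MvPolynomial.induction_on with
  | C a =>
    rw [map_C, aeval_C, aeval_C]
    exact Polynomial.map_C φ
  | add p q hp hq => rw [map_add, map_add, map_add, Polynomial.map_add, hp, hq]
  | mul_X p i hp => rw [map_mul, map_mul, map_mul, Polynomial.map_mul, hp, map_X, aeval_X, aeval_X]

private theorem map_line42 {A B : Type*} [CommRing A] [CommRing B] {n d : ℕ} (φ : A →+* B)
    (c : Mon n d → A) (x y : Fin (n + 1) → A) (k : Fin (n + 1)) :
    (aeval (cv (ln x y) 1) (pderiv k (fm c))).map φ =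
      aeval (cv (ln (fun i => φ (x i)) (fun i => φ (y i))) 1)
        (pderiv k (fm fun m => φ (c m))) := by
  rw [map_aeval42, ← pderiv_map, map_fm]
  have h1 : (fun i => (cv (ln x y) 1 i).map φ) =
      cv (ln (fun i => φ (x i)) (fun i => φ (y i))) 1 := by
    funext i
    rw [map_cv]
    congr 1
    funext l i
    unfold ln
    split_ifs <;> rfl
  rw [h1]

private theorem plc_lt42 {d e N : ℕ} (he : 1 ≤ e) : plc d e N < e := by
  unfold plc
  omega

/-- the curve with the given coordinates -/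
private def ta42 {A : Type*} [Zero A] {n e : ℕ}
    (P : Fin (e - 1) ⊕ (Fin (e + 1) × Fin (n + 1)) → A) (s : ℕ) : A :=
  if h : s - 1 < e - 1 then P (Sum.inl ⟨s - 1, h⟩) else 0

private def aa42 {A : Type*} [Zero A] {n e : ℕ}
    (P : Fin (e - 1) ⊕ (Fin (e + 1) × Fin (n + 1)) → A) (l : ℕ) (i : Fin (n + 1)) : A :=
  if h : l < e + 1 then P (Sum.inr (⟨l, h⟩, i)) else 0

private theorem qt42 {A : Type*} [Zero A] {n e : ℕ}
    (P : Fin (e - 1) ⊕ (Fin (e + 1) × Fin (n + 1)) → A) : qt (ta42 P) (aa42 P) e = P := by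
  funext k
  rcases k with s | q
  · change ta42 P ((s : ℕ) + 1) = _
    unfold ta42
    rw [dif_pos (by have := s.2; omega)]
    rfl
  · change aa42 P (q.1 : ℕ) q.2 = _
    unfold aa42
    rw [dif_pos q.1.2]

private theorem spc_qt42 {K : Type*} [Field K] {Ω : Type*} [Field Ω] [Algebra K Ω] {n e : ℕ}
    {b b' : ℕ → Fin (n + 1) → Ω} (h : Spc K (vt b e) (vt b' e)) :
    Spc K (qt (fun _ => 0) b e) (qt (fun _ => 0) b' e) := by
  have h1 := h.poly (Sum.elim (fun _ : Fin (e - 1) => (0 : MvPolynomial _ K)) fun q => X q)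
  have e1 : ∀ b : ℕ → Fin (n + 1) → Ω, (fun k => aeval (vt b e)
      (Sum.elim (fun _ : Fin (e - 1) => (0 : MvPolynomial _ K)) (fun q => X q) k)) =
      qt (fun _ => 0) b e := by
    intro b
    funext k
    rcases k with s | q
    · change aeval (vt b e) (0 : MvPolynomial _ K) = 0
      rw [map_zero]
    · change aeval (vt b e) (X q : MvPolynomial _ K) = vt b e q
      rw [aeval_X]
  rw [e1, e1] at h1
  exact h1

private theorem card42 {n d m e : ℕ} (hm : m + d = n + 1) :
    Fintype.card (Fin (e - 1) ⊕ (Fin (e + 1) × Fin (n + 1))) =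
      (m * e + n + (e - 1)) + (d * e + 1) := by
  rw [Fintype.card_sum, Fintype.card_prod, Fintype.card_fin, Fintype.card_fin, Fintype.card_fin]
  have h1 : (e + 1) * (n + 1) = m * e + d * e + (n + 1) := by
    rw [← add_mul, hm]
    ring
  omega

end aux42

variable {K : Type*} [Field K] [IsAlgClosed K] {Ω : Type*} [Field Ω] [Algebra K Ω]
  [IsAlgClosed Ω] [DecidableEq Ω] {n d m : ℕ} {c₀ : Mon n d → K}

theorem Good.full_sur (hb : Big K Ω) (hG : Good K Ω m c₀) (hd : 1 ≤ d) {e : ℕ} (he : 1 ≤ e)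
    {τ : ℕ → Ω} {a : ℕ → Fin (n + 1) → Ω} (h : Full K m e (bc Ω c₀) τ a) :
    Sur d (fm (bc Ω c₀)) τ a e := by
  have hinf : Infinite K := IsAlgClosed.instInfinite
  obtain ⟨b, hLC, hs⟩ := hG.full_spc hb e he τ a h
  refine sur_spc hs (sur_lines hd he (fm_hom _) b fun i hi => ?_)
  exact hG.free (b i) (b (i + 1)) (hLC.van i hi) (LC.line hb hG hLC hi)

theorem Good.full_type (hb : Big K Ω) (hG : Good K Ω m c₀) (hd : 1 ≤ d) (hm : m + d = n + 1)
    {e : ℕ} (he : 1 ≤ e) {τ τ' : ℕ → Ω} {a a' : ℕ → Fin (n + 1) → Ω}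
    (h : Full K m e (bc Ω c₀) τ a) (h' : Full K m e (bc Ω c₀) τ' a')
    (h0 : ∀ i, 1 ≤ i → i < e → τ i ≠ 0) (h0' : ∀ i, 1 ≤ i → i < e → τ' i ≠ 0) :
    Spc K (qt τ a e) (qt τ' a' e) := by
  obtain ⟨b, hLC, hs⟩ := hG.full_spc hb e he τ a h
  have hs' : Spc K (qt τ' a' e) (qt (fun _ => 0) b e) := by
    obtain ⟨b', hLC', hs'⟩ := hG.full_spc hb e he τ' a' h'
    exact hs'.trans (spc_qt42 (hG.lc_type hb he hLC' hLC))
  obtain ⟨Y, hY⟩ : ∃ Y, Y = rga b e := ⟨_, rfl⟩
  obtain ⟨P, hP1, hP2, hP3, hP4⟩ := spc_lift hb hs Y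
  obtain ⟨P', hP1', hP2', hP3', hP4'⟩ := spc_lift hb hs' Y
  have hφ : Function.Injective (algebraMap (cl K Y) Ω) := (algebraMap (cl K Y) Ω).injective
  have hbmem : ∀ l ≤ e, ∀ i, b l i ∈ cl K Y := by
    intro l hl i
    apply subset_cl K Y
    rw [hY]
    exact Finset.mem_biUnion.2 ⟨l, Finset.mem_range.2 (by omega),
      Finset.mem_image_of_mem _ (Finset.mem_univ i)⟩
  obtain ⟨bE, hbE⟩ : ∃ bE : ℕ → Fin (n + 1) → cl K Y, ∀ l ≤ e, ∀ i,
      algebraMap (cl K Y) Ω (bE l i) = b l i := by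
    classical
    refine ⟨fun l i => if hh : b l i ∈ cl K Y then ⟨b l i, hh⟩ else 0, fun l hl i => ?_⟩
    simp only
    rw [dif_pos (hbmem l hl i)]
    rfl
  have hc1 : (fun μ => algebraMap (cl K Y) Ω (bc (cl K Y) c₀ μ)) = bc Ω c₀ := by
    funext μ
    unfold bc
    exact (IsScalarTower.algebraMap_apply K (cl K Y) Ω (c₀ μ)).symm
  have hc1' : bc Ω (bc (cl K Y) c₀) = bc Ω c₀ := hc1
  have hW : (fun i => algebraMap (cl K Y) Ω (qt (fun _ => 0) bE e i)) = qt (fun _ => 0) b e := by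
    funext k
    rcases k with s | q
    · exact map_zero _
    · exact hbE q.1 (by have := q.1.2; omega) q.2
  have hFb : FCp (fm (bc Ω c₀)) (fun _ => 0) b e := fcp_spc hs h.fcp
  have hFE : FCp (fm (bc (cl K Y) c₀)) (fun _ => 0) bE e := by
    refine fcp_of_map (algebraMap (cl K Y) Ω) hφ ?_
    rw [map_fm, hc1, map_zero]
    intro j hj
    refine (vanp_congr fun l hl i => ?_).mp (hFb j hj)
    unfold pcc
    change b l i * _ * _ = algebraMap (cl K Y) Ω (bE l i) * _ * _
    rw [hbE l hl i]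
  have hline : ∀ i < e, ∀ k, (aeval (cv (ln (bE i) (bE (i + 1))) 1)
      (pderiv k (fm (bc (cl K Y) c₀)))).map (algebraMap (cl K Y) Ω) =
      aeval (cv (ln (b i) (b (i + 1))) 1) (pderiv k (fm (bc Ω c₀))) := by
    intro i hi k
    rw [map_line42, hc1]
    have e1 : (fun j => algebraMap (cl K Y) Ω (bE i j)) = b i := funext fun j => hbE i hi.le j
    have e2 : (fun j => algebraMap (cl K Y) Ω (bE (i + 1) j)) = b (i + 1) :=
      funext fun j => hbE (i + 1) hi j
    rw [e1, e2]
  have hSur : Sur d (fm (bc (cl K Y) c₀)) (fun _ => 0) bE e := by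
    refine sur_lines hd he (fm_hom _) bE fun i hi => ?_
    refine free_descend (E := Ω) _ (fun k => ?_) fun p hp => ?_
    · have h1 := degree_line (pderiv_fm_hom (bc (cl K Y) c₀) k) (bE i) (bE (i + 1))
      refine lt_of_le_of_lt Polynomial.degree_le_natDegree ?_
      exact_mod_cast (show _ < d by omega)
    · obtain ⟨t, ht⟩ := hG.free (b i) (b (i + 1)) (hLC.van i hi) (LC.line hb hG hLC hi) p hp
      refine ⟨t, ?_⟩
      rw [← ht]
      exact Finset.sum_congr rfl fun k _ => by rw [hline i hi k]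
  have hzero : ∀ Q : Fin (e - 1) ⊕ (Fin (e + 1) × Fin (n + 1)) → Ω,
      FCp (fm (bc Ω c₀)) (ta42 Q) (aa42 Q) e →
      ∀ N : Fin (d * e + 1), aeval Q (hq (bc (cl K Y) c₀) e (plc d e N) N) = 0 := by
    intro Q hQ N
    rw [← hc1'] at hQ
    have h1 := fcp_iff_hq.1 hQ (plc d e N) (plc_lt42 he) N
    rw [qt42] at h1
    exact h1
  have hrkP : ∀ (σ : ℕ → Ω) (u : ℕ → Fin (n + 1) → Ω)
      (Q : Fin (e - 1) ⊕ (Fin (e + 1) × Fin (n + 1)) → Ω), Full K m e (bc Ω c₀) σ u →
      (∀ i, 1 ≤ i → i < e → σ i ≠ 0) →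
      rk K (Y ∪ rg Q) = rk K Y + rk K (rg (qt σ u e)) →
      Fintype.card (Fin (e - 1) ⊕ (Fin (e + 1) × Fin (n + 1))) ≤
        rk (cl K Y) (rg Q) + (d * e + 1) := by
    intro σ u Q hF hσ hQ
    have h1 := hF.rnk
    have h2 : brk σ e = ∅ := by
      refine Finset.eq_empty_of_forall_notMem fun i hi => ?_
      unfold brk at hi
      rw [Finset.mem_filter, Finset.mem_Ico] at hi
      exact hσ i hi.1.1 hi.1.2 hi.2
    rw [h2, Finset.card_empty, ← rg_qt] at h1
    have h3 := rk_cl K Y (rg Q)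
    rw [card42 hm]
    omega
  have key : Spc (cl K Y) P P' := by
    refine spc_of_smooth (fun N : Fin (d * e + 1) => hq (bc (cl K Y) c₀) e (plc d e N) N)
      (qt (fun _ => 0) bE e) (fun N => ?_) (fun y => ?_) P P' (hzero P ?_) (hzero P' ?_) ?_ ?_
      (hrkP τ a P h h0 hP3) (hrkP τ' a' P' h' h0' hP3')
    · have h1 := aeval_hq (Ω := cl K Y) (bc (cl K Y) c₀) e (plc d e N) N (plc_lt42 he)
        (fun _ => 0) bE
      have h2 : bc (cl K Y) (bc (cl K Y) c₀) = bc (cl K Y) c₀ := rfl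
      rw [h2] at h1
      have h3 : aeval (cv (pcc (plc d e N) e (fun _ => 0) bE) e) (fm (bc (cl K Y) c₀)) = 0 :=
        hFE (plc d e N) (plc_lt42 he)
      rw [h3, Polynomial.coeff_zero] at h1
      exact h1
    · obtain ⟨V, hV⟩ := hSur fun N => if hN : N < d * e + 1 then y ⟨N, hN⟩ else 0
      refine ⟨Sum.elim (fun _ => 0) (vt V e), fun N => ?_⟩
      rw [dd_hq _ (plc_lt42 he), hV N (by have := N.2; omega), dif_pos N.2]
    · refine fcp_spc (K := K) (τ := τ) (a := a) ?_ h.fcp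
      rw [qt42]
      exact hP1
    · refine fcp_spc (K := K) (τ := τ') (a := a') ?_ h'.fcp
      rw [qt42]
      exact hP1'
    · rw [hW]
      exact hP4
    · rw [hW]
      exact hP4'
  exact hP1.trans ((Spc.of_cl key).trans hP2')

end Pool.Agent.Helper30.RY
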