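import Mathlib
import Pool.Agent.Helper30.RY.Uef

/-!
# Block RY-UCV: the space of curves on a good hypersurface is irreducible and generically smooth

Let `a` be a curve of degree `e ≥ 1` on the hypersurface, `a 0 ≠ 0`, with `rk K (rga a e) = m e + n`.

* `exists_full`: `a e ≠ 0`: otherwise `a` is a curve of degree `e - 1` (`vanp_trunc`), so
  `rk (rga a e) ≤ rk (rg (a 0)) + m (e - 1) ≤ n + m (e - 1)` (`Good.curve_le`, `Good.point_le`), a
  contradiction (`m ≥ 1`).  Choose `t : Fin (e - 1) → Ω` generic over `rga a e` (`exists_generic`), `τ s = t (s - 1)`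
  for `1 ≤ s < e`; these are not zero.  Put `b l = a l / wt e τ l` (`wt_ne_zero`).  Then
  `fcp_of_vanp` shows that `(τ, b)` is a chain, it has no breaks, and
  `rk (rgt τ e ∪ rga b e) = rk (rgt τ e ∪ rga a e) = m e + n + (e - 1)`.
* `Good.curve_type`: `exists_full` for both curves, `Good.full_type`, and
  `a l i = wt e τ l * b l i` is a polynomial over `K` in `qt τ b e` (`Spc.poly`).
* `Good.curve_sur`: `exists_full`, `Good.full_sur`, `sur_curve`.
-/

set_option linter.unusedSectionVars false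

namespace Pool.Agent.Helper30.RY

open MvPolynomial

variable {K : Type*} [Field K] [IsAlgClosed K] {Ω : Type*} [Field Ω] [Algebra K Ω]
  [IsAlgClosed Ω] [DecidableEq Ω] {n d m : ℕ} {c₀ : Mon n d → K}

private theorem mem_rga68 {a : ℕ → Fin (n + 1) → Ω} {e l : ℕ} (hl : l ≤ e) (i : Fin (n + 1)) :
    a l i ∈ rga a e :=
  Finset.mem_biUnion.2 ⟨l, Finset.mem_range.2 (by omega),
    Finset.mem_image.2 ⟨i, Finset.mem_univ i, rfl⟩⟩

private theorem rga_mem68 {a : ℕ → Fin (n + 1) → Ω} {e : ℕ} {x : Ω} (hx : x ∈ rga a e) :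
    ∃ l ≤ e, ∃ i, x = a l i := by
  obtain ⟨l, hl, hx⟩ := Finset.mem_biUnion.1 hx
  obtain ⟨i, _, hi⟩ := Finset.mem_image.1 hx
  exact ⟨l, by have := Finset.mem_range.1 hl; omega, i, hi.symm⟩

private theorem mem_rgt68 {τ : ℕ → Ω} {e s : ℕ} (h1 : 1 ≤ s) (h2 : s < e) : τ s ∈ rgt τ e :=
  Finset.mem_image.2 ⟨s, Finset.mem_Ico.2 ⟨h1, h2⟩, rfl⟩

private theorem wt_mem68 {τ : ℕ → Ω} {e : ℕ} {S : Finset Ω} (h : ∀ x ∈ rgt τ e, x ∈ cl K S) (l : ℕ) :
    wt e τ l ∈ cl K S := by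
  unfold wt
  refine prod_mem fun s hs => pow_mem (h _ ?_) _
  have hs' := Finset.mem_Ico.1 hs
  exact mem_rgt68 hs'.1 hs'.2

private theorem last_ne68 (hG : Good K Ω m c₀) (hm : 1 ≤ m) {e : ℕ} (he : 1 ≤ e)
    {a : ℕ → Fin (n + 1) → Ω} (h0 : a 0 ≠ 0) (hV : Van (bc Ω c₀) a e)
    (hr : rk K (rga a e) = m * e + n) : a e ≠ 0 := by
  intro hae
  have hV' : Van (bc Ω c₀) a (e - 1) := by
    refine (vanp_trunc (Nat.sub_le e 1) ?_).1 hV
    intro l h1 h2 i
    have h3 : l = e := by omega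
    rw [h3, hae]
    rfl
  have h1 := hG.curve_le h0 hV'
  have h2 := hG.point_le h0 (eval_zero_of_vanp hV)
  have h3 : rk K (rga a e) ≤ rk K (rga a (e - 1)) := by
    refine rk_le_of_subset_cl K fun x hx => ?_
    obtain ⟨l, hl, i, rfl⟩ := rga_mem68 hx
    rcases Nat.lt_or_ge (e - 1) l with h | h
    · have h4 : l = e := by omega
      rw [h4, hae]
      exact zero_mem _
    · exact subset_cl K _ _ (mem_rga68 h i)
  have h4 : m * e = m * (e - 1) + m := by
    obtain ⟨k, rfl⟩ := Nat.exists_eq_add_of_le' he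
    rw [Nat.add_sub_cancel]
    ring
  omega

theorem exists_full (hb : Big K Ω) (hG : Good K Ω m c₀) (hm : 1 ≤ m) {e : ℕ} (he : 1 ≤ e)
    {a : ℕ → Fin (n + 1) → Ω} (h0 : a 0 ≠ 0) (hV : Van (bc Ω c₀) a e)
    (hr : rk K (rga a e) = m * e + n) :
    ∃ (τ : ℕ → Ω) (b : ℕ → Fin (n + 1) → Ω), (∀ i, 1 ≤ i → i < e → τ i ≠ 0) ∧
      Full K m e (bc Ω c₀) τ b ∧ ∀ l ≤ e, ∀ i, a l i = wt e τ l * b l i := by
  have hae := last_ne68 hG hm he h0 hV hr
  obtain ⟨t, ht⟩ := exists_generic K hb (rga a e) (Fin (e - 1))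
  rw [Fintype.card_fin] at ht
  set τ : ℕ → Ω := fun s => if h : s - 1 < e - 1 then t ⟨s - 1, h⟩ else 0 with hτdef
  have hτt : ∀ s, ∀ h1 : 1 ≤ s, ∀ h : s < e, τ s = t ⟨s - 1, by omega⟩ := by
    intro s h1 h2
    rw [hτdef]
    dsimp only
    rw [dif_pos (by omega)]
  have hτ : ∀ s, 1 ≤ s → s < e → τ s ≠ 0 := by
    intro s h1 h2 h3
    rw [hτt s h1 h2] at h3
    have h4 := generic_notMem (K := K) (s := rga a e) (t := t) (by rw [Fintype.card_fin]; exact ht)
      ⟨s - 1, by omega⟩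
    rw [h3] at h4
    exact h4 (zero_mem _)
  have hrgt : rgt τ e = rg t := by
    ext x
    constructor
    · intro hx
      obtain ⟨s, hs, rfl⟩ := Finset.mem_image.1 hx
      have hs' := Finset.mem_Ico.1 hs
      rw [hτt s hs'.1 hs'.2]
      exact Finset.mem_image.2 ⟨_, Finset.mem_univ _, rfl⟩
    · intro hx
      obtain ⟨i, _, rfl⟩ := Finset.mem_image.1 hx
      have h1 : τ (i.1 + 1) = t i := by
        rw [hτt (i.1 + 1) (by omega) (by omega)]
        rfl
      rw [← h1]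
      exact mem_rgt68 (by omega) (by omega)
  set b : ℕ → Fin (n + 1) → Ω := fun l i => (wt e τ l)⁻¹ * a l i with hbdef
  have hab : ∀ l i, a l i = wt e τ l * b l i := by
    intro l i
    rw [hbdef]
    dsimp only
    rw [← mul_assoc, mul_inv_cancel₀ (wt_ne_zero hτ l), one_mul]
  have hbrk : brk τ e = ∅ := by
    rw [Finset.eq_empty_iff_forall_notMem]
    intro s hs
    obtain ⟨h1, h2, h3⟩ := mem_brk.1 hs
    exact hτ s h1 h2 h3
  have hbne : ∀ l, a l ≠ 0 → b l ≠ 0 := by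
    intro l hl hb0
    apply hl
    funext i
    rw [hab l i, hb0]
    exact mul_zero _
  refine ⟨τ, b, hτ, ⟨?_, ⟨hbne 0 h0, hbne e hae, ?_⟩, ?_⟩, fun l _ i => hab l i⟩
  · refine fcp_of_vanp (fm_hom _) hτ ?_
    exact (vanp_congr fun l _ i => hab l i).1 hV
  · intro i hi
    rw [hbrk] at hi
    exact absurd hi (Finset.notMem_empty i)
  · rw [hbrk, Finset.card_empty, add_zero]
    have h1 : rk K (rgt τ e ∪ rga b e) = rk K (rga a e ∪ rgt τ e) := by
      refine le_antisymm (rk_le_of_subset_cl K fun x hx => ?_)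
        (rk_le_of_subset_cl K fun x hx => ?_)
      · rcases Finset.mem_union.1 hx with hx | hx
        · exact subset_cl K _ x (Finset.mem_union_right _ hx)
        · obtain ⟨l, hl, i, rfl⟩ := rga_mem68 hx
          rw [hbdef]
          refine mul_mem (inv_mem (wt_mem68 (fun x hx => subset_cl K _ x
            (Finset.mem_union_right _ hx)) l)) ?_
          exact subset_cl K _ _ (Finset.mem_union_left _ (mem_rga68 hl i))
      · rcases Finset.mem_union.1 hx with hx | hx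
        · obtain ⟨l, hl, i, rfl⟩ := rga_mem68 hx
          rw [hab l i]
          refine mul_mem (wt_mem68 (fun x hx => subset_cl K _ x
            (Finset.mem_union_left _ hx)) l) ?_
          exact subset_cl K _ _ (Finset.mem_union_right _ (mem_rga68 hl i))
        · exact subset_cl K _ x (Finset.mem_union_left _ hx)
    rw [h1, hrgt, ht, hr]

private theorem poly68 {e : ℕ} {τ : ℕ → Ω} {a b : ℕ → Fin (n + 1) → Ω}
    (hab : ∀ l ≤ e, ∀ i, a l i = wt e τ l * b l i) :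
    (fun p : Fin (e + 1) × Fin (n + 1) =>
      aeval (qt τ b e) (wt e (ut K n e) p.1 * ua K n e p.1 p.2)) = vt a e := by
  funext ⟨l, i⟩
  have h1 : aeval (qt τ b e) (wt e (ut K n e) (l : ℕ)) = wt e τ l := by
    unfold wt
    rw [map_prod]
    refine Finset.prod_congr rfl fun s hs => ?_
    have hs' := Finset.mem_Ico.1 hs
    have h2 : s - 1 < e - 1 := by omega
    have h3 : aeval (qt τ b e) (ut K n e s) = τ s := by
      unfold ut
      rw [dif_pos h2, aeval_X]
      show τ (s - 1 + 1) = τ s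
      rw [Nat.sub_add_cancel hs'.1]
    rw [map_pow, h3]
  have h2 : aeval (qt τ b e) (ua K n e (l : ℕ) i) = b l i := by
    unfold ua
    rw [dif_pos l.2, aeval_X]
    rfl
  dsimp only
  rw [map_mul, h1, h2]
  exact (hab l (by omega) i).symm

theorem Good.curve_type (hb : Big K Ω) (hG : Good K Ω m c₀) (hd : 1 ≤ d) (hm : 1 ≤ m)
    (hmd : m + d = n + 1) {e : ℕ} (he : 1 ≤ e) {a a' : ℕ → Fin (n + 1) → Ω} (h0 : a 0 ≠ 0)
    (h0' : a' 0 ≠ 0) (hV : Van (bc Ω c₀) a e) (hV' : Van (bc Ω c₀) a' e)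
    (hr : rk K (rga a e) = m * e + n) (hr' : rk K (rga a' e) = m * e + n) :
    Spc K (vt a e) (vt a' e) := by
  obtain ⟨τ, b, hτ, hF, hab⟩ := exists_full hb hG hm he h0 hV hr
  obtain ⟨τ', b', hτ', hF', hab'⟩ := exists_full hb hG hm he h0' hV' hr'
  have h1 := hG.full_type hb hd hmd he hF hF' hτ hτ'
  have h2 := h1.poly (κ := Fin (e + 1) × Fin (n + 1))
    (fun p => wt e (ut K n e) p.1 * ua K n e p.1 p.2)
  rw [poly68 hab, poly68 hab'] at h2
  exact h2

theorem Good.curve_sur (hb : Big K Ω) (hG : Good K Ω m c₀) (hd : 1 ≤ d) (hm : 1 ≤ m)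
    {e : ℕ} (he : 1 ≤ e) {a : ℕ → Fin (n + 1) → Ω} (h0 : a 0 ≠ 0) (hV : Van (bc Ω c₀) a e)
    (hr : rk K (rga a e) = m * e + n) (y : ℕ → Ω) :
    ∃ V : ℕ → Fin (n + 1) → Ω, ∀ N ≤ d * e, (dcv (fm (bc Ω c₀)) a V e).coeff N = y N := by
  obtain ⟨τ, b, hτ, hF, hab⟩ := exists_full hb hG hm he h0 hV hr
  obtain ⟨V, hy⟩ := sur_curve he (fm_hom _) hτ (hG.full_sur hb hd he hF) y
  refine ⟨V, fun N hN => ?_⟩
  rw [← hy N hN]
  have h1 : cv a e = cv (fun l i => wt e τ l * b l i) e := by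
    funext i
    unfold cv
    refine Finset.sum_congr rfl fun l hl => ?_
    rw [hab l (by have := Finset.mem_range.1 hl; omega) i]
  unfold dcv
  rw [h1]

end Pool.Agent.Helper30.RY
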