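import Mathlib
import Pool.Agent.Helper30.RC.SurjB
import Pool.Agent.Helper30.RC.ThmB
import Pool.Agent.Helper30.RY.Ucv
import Pool.Agent.Helper30.RY.Dfi

/-!
# Block RY-FNA: the curve ideal of a good hypersurface has only one minimal prime

`I = RC.curveIdeal e (fm c₀)`, an ideal of `A = RC.CoeffRing K n e = K[X (i, l)]`.

1. Every minimal prime `P` of `I`: `exists_real` gives `φ : A →ₐ[K] Ω` with kernel `P`; let `a l i = φ (X (i, l))` for
   `l ≤ e` (and `0` for `l > e`).  Then `Van (bc Ω c₀) a e`, because `I ≤ P` (see the proof of `dim_curve` in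
   `Dfi.lean`), and `rk K (rga a e) = m e + n`: `dim_curve` (with `hQ` from `Good.curve_le`) and
   `rk_eq_trdeg` (Krull dimension of a domain of finite type = transcendence degree, as in `Dfi.lean`).
2. `a 0 ≠ 0`: otherwise, if `j ≥ 1` is minimal with `a j ≠ 0` (there is one: the rank is positive, as `n ≥ 1` or
   `m e ≥ 1`), `vanp_shift` and `Good.curve_le`, `Good.point_le` for the curve `l ↦ a (l + j)` of degree `e - j` give
   `rk K (rga a e) ≤ n + m (e - j) < m e + n`.
3. For two minimal primes `P`, `P'` and their points `a`, `a'`: `Good.curve_type` in both directions: a polynomial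
   vanishes at `a` iff it vanishes at `a'` (after swapping the indices `(i, l)` and `(l, i)`), so `P = P'`.  `I` has a
   minimal prime since `I ≠ ⊤` (all elements of `I` vanish at `0`: `d ≥ 1`, homogeneous equations).
4. `W`: `Good.curve_sur` at the point `a` of `P`: for all `y` there is a direction `V` with `(dcv (fm c) a V e).coeff N = y N`,
   `N ≤ d e`.  In terms of `RC.dd` over `Ω` (as `dd_hv`, or `RC.dd_pull` with `RC.ptup`, for the form over `Ω`): the
   matrix `J(a)`, `J = (pderiv t ((RC.pull e (fm c₀)).coeff j))` (`j : Fin (d e + 1)`, `t` a variable), with entries in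
   `A`, evaluated at `a`, has linearly independent rows.  So some maximal minor `D ∈ A` of `J` does not vanish at `a`
   (`Jcb.lean` has such an argument), `D ∉ P`, and `X t ∉ P` for some `t` (`a ≠ 0`).  By the Nullstellensatz
   (`K` algebraically closed, `P` is the intersection of the maximal ideals containing it: `A` is a Jacobson ring,
   `MvPolynomial.isMaximal_iff_eq_vanishingIdeal_singleton`, `MvPolynomial.vanishingIdeal_zeroLocus_eq_radical`)
   there is `W : _ → K` in the zero set of `P` with `D(W) X_t(W) ≠ 0`.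
   `D(W) ≠ 0` implies that `J(W)` has linearly independent rows, so `Z ↦ (RC.dd W Z (...))_j` is surjective.
-/

namespace Pool.Agent.Helper30.RY

open MvPolynomial

private theorem exists_minor26 {F : Type*} [Field F] {D : ℕ} {P : Type*} [Fintype P]
    (M : Matrix (Fin D) P F) (hM : Function.Surjective M.mulVec) :
    ∃ c : Fin D → P, (M.submatrix id c).det ≠ 0 := by
  obtain ⟨κ, a, _, hs, hl⟩ := exists_linearIndependent' F M.col
  have htop : Submodule.span F (Set.range M.col) = ⊤ := by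
    rw [← Matrix.range_mulVecLin, LinearMap.range_eq_top]
    exact hM
  rw [htop] at hs
  let b : Module.Basis κ F (Fin D → F) := Module.Basis.mk hl hs.ge
  let e : Fin D ≃ κ := (Pi.basisFun F (Fin D)).indexEquiv b
  refine ⟨fun k => a (e k), ?_⟩
  have h1 : LinearIndependent F (M.submatrix id (fun k => a (e k))).col := hl.comp e e.injective
  rw [Matrix.linearIndependent_cols_iff_isUnit, Matrix.isUnit_iff_isUnit_det] at h1
  exact h1.ne_zero

private theorem surj_of_minor26 {F : Type*} [Field F] {D : ℕ} {P : Type*} [Fintype P]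
    (M : Matrix (Fin D) P F) (c : Fin D → P) (hM : (M.submatrix id c).det ≠ 0) :
    Function.Surjective M.mulVec := by
  classical
  intro y
  obtain ⟨B, hB⟩ : ∃ B : Matrix (Fin D) (Fin D) F, B = M.submatrix id c := ⟨_, rfl⟩
  rw [← hB] at hM
  have h1 : B.mulVec (B⁻¹.mulVec y) = y := by
    rw [Matrix.mulVec_mulVec, Matrix.mul_nonsing_inv _ (isUnit_iff_ne_zero.2 hM), Matrix.one_mulVec]
  obtain ⟨w, hw⟩ : ∃ w : Fin D → F, w = B⁻¹.mulVec y := ⟨_, rfl⟩
  rw [← hw] at h1
  refine ⟨fun p => ∑ k, if c k = p then w k else 0, ?_⟩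
  rw [← h1]
  funext N
  unfold Matrix.mulVec dotProduct
  simp only [Finset.mul_sum, mul_ite, mul_zero]
  rw [Finset.sum_comm]
  refine Finset.sum_congr rfl fun k _ => ?_
  rw [Finset.sum_ite_eq, if_pos (Finset.mem_univ _), hB]
  rfl

/-- Specialisation of the coefficients. -/
private theorem specm26 {k S Ω : Type*} [Field k] [CommRing S] [Algebra k S] [CommRing Ω]
    [Algebra k Ω] (φ : S →+* Ω) (hφ : φ.comp (algebraMap k S) = algebraMap k Ω) {n : ℕ}
    (g : Fin (n + 1) → Polynomial S) (f : MvPolynomial (Fin (n + 1)) k) :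
    aeval (fun i => (g i).map φ) (map (algebraMap k Ω) f) = (aeval g f).map φ := by
  have h1 : (fun i => (g i).map φ) = fun i => Polynomial.mapRingHom φ (g i) := by
    funext i
    rfl
  rw [h1, aeval_def, eval₂_map, ← Polynomial.coe_mapRingHom, aeval_def, hom_eval₂]
  congr 1
  rw [← hφ]
  ext x
  simp

/-- the equations over the big field -/
private theorem pullm26 {K Ω : Type*} [Field K] [Field Ω] [Algebra K Ω] {n : ℕ} (e : ℕ)
    (f : MvPolynomial (Fin (n + 1)) K) :
    RC.pull e (map (algebraMap K Ω) f) = (RC.pull e f).map (map (algebraMap K Ω)) := by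
  unfold RC.pull
  rw [aeval_def, eval₂_map, ← Polynomial.coe_mapRingHom, aeval_def, hom_eval₂]
  congr 1
  · refine RingHom.ext fun r => ?_
    simp [Polynomial.algebraMap_apply, algebraMap_eq]
  · funext i
    change _ = Polynomial.map (map (algebraMap K Ω)) (RC.tup K n e i)
    unfold RC.tup
    rw [Polynomial.map_sum]
    refine Finset.sum_congr rfl fun l _ => ?_
    rw [Polynomial.map_mul, Polynomial.map_C, Polynomial.map_pow, Polynomial.map_X, map_X]

/-- the generic point of a minimal prime -/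
private theorem prime_pt26 {K : Type} [Field K] [IsAlgClosed K] {Ω : Type} [Field Ω]
    [Algebra K Ω] [IsAlgClosed Ω] [DecidableEq Ω] {n d m : ℕ} {c₀ : Mon n d → K}
    (hb : Big K Ω) (hG : Good K Ω m c₀) (hm : 1 ≤ m) (hmd : m + d = n + 1)
    (hc₀ : c₀ ≠ 0) {e : ℕ} (he : 1 ≤ e) (P : Ideal (RC.CoeffRing K n e))
    (hP : P ∈ (RC.curveIdeal e (fm c₀)).minimalPrimes) :
    ∃ a : ℕ → Fin (n + 1) → Ω,
      (∀ p : RC.CoeffRing K n e,
        aeval (fun q : Fin (n + 1) × Fin (e + 1) => a q.2 q.1) p = 0 ↔ p ∈ P) ∧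
      a 0 ≠ 0 ∧ Van (bc Ω c₀) a e ∧ rk K (rga a e) = m * e + n := by
  classical
  have hPp : P.IsPrime := hP.1.1
  have hIP : RC.curveIdeal e (fm c₀) ≤ P := hP.1.2
  have hdim := dim_curve hb hmd c₀ hc₀ e (fun e' _ a h0 hV => hG.curve_le h0 hV) P hP
  obtain ⟨φ, hφ⟩ := exists_real (K := K) (Ω := Ω) hb (RC.CoeffRing K n e) P
  obtain ⟨w, hw⟩ : ∃ w : Fin (n + 1) × Fin (e + 1) → Ω, w = fun j => φ (X j) := ⟨_, rfl⟩
  have hφw : φ = aeval w := by
    rw [hw]
    exact MvPolynomial.aeval_unique φ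
  have hlow : m * e + n ≤ rk K (rg w) := by
    let ψ : (RC.CoeffRing K n e ⧸ P) →ₐ[K] Ω := Ideal.Quotient.liftₐ P φ fun a ha => (hφ a).2 ha
    have hψm : ∀ a, ψ (Ideal.Quotient.mk P a) = φ a := fun a => rfl
    have hψ : Function.Injective ψ := by
      rw [injective_iff_map_eq_zero]
      intro a ha
      obtain ⟨a, rfl⟩ := Ideal.Quotient.mk_surjective a
      rw [hψm, hφ] at ha
      exact Ideal.Quotient.eq_zero_iff_mem.2 ha
    have h3 := rk_eq_trdeg ψ hψ (fun j : Fin (n + 1) × Fin (e + 1) => Ideal.Quotient.mk P (X j)) (by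
      have h4 : Set.range (fun j : Fin (n + 1) × Fin (e + 1) => Ideal.Quotient.mk P (X j)) =
          (Ideal.Quotient.mkₐ K P) '' Set.range
            (X : Fin (n + 1) × Fin (e + 1) → RC.CoeffRing K n e) := by
        rw [← Set.range_comp]
        rfl
      rw [h4, ← AlgHom.map_adjoin, MvPolynomial.adjoin_range_X, Algebra.map_top,
        AlgHom.range_eq_top]
      exact Ideal.Quotient.mkₐ_surjective K P)
    obtain ⟨s, h5, h6⟩ := Pool.Agent.Helper17.Irr.ringKrullDim_le_of_fg K (RC.CoeffRing K n e ⧸ P)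
    rw [Cardinal.lift_id] at h3
    rw [h3] at h6
    rw [hdim] at h5
    have h7 : s ≤ rk K (rg w) := by
      rw [hw]
      exact_mod_cast h6
    have h8 : m * e + n ≤ s := by exact_mod_cast h5
    exact h8.trans h7
  obtain ⟨a, hadef⟩ : ∃ a : ℕ → Fin (n + 1) → Ω,
      a = fun l i => if h : l < e + 1 then w (i, ⟨l, h⟩) else 0 := ⟨_, rfl⟩
  have has : ∀ l (h : l < e + 1) i, a l i = w (i, ⟨l, h⟩) := by
    intro l h i
    rw [hadef]
    change (if h : l < e + 1 then w (i, ⟨l, h⟩) else 0) = _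
    rw [dif_pos h]
  have hwa : (fun q : Fin (n + 1) × Fin (e + 1) => a q.2 q.1) = w := by
    funext ⟨i, l⟩
    exact has l l.2 i
  have hcv : cv a e = fun i => (RC.tup K n e i).map (aeval w : MvPolynomial _ K →ₐ[K] Ω).toRingHom := by
    funext i
    unfold cv RC.tup
    rw [Polynomial.map_sum, ← Fin.sum_univ_eq_sum_range (fun l => Polynomial.C (a l i) *
        Polynomial.X ^ l) (e + 1)]
    refine Finset.sum_congr rfl fun l _ => ?_
    rw [Polynomial.map_mul, Polynomial.map_C, Polynomial.map_pow, Polynomial.map_X, has l l.2 i]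
    congr 2
    change _ = aeval w (X (i, l))
    rw [aeval_X]
  have hvan : Van (bc Ω c₀) a e := by
    have hbc : fm (bc Ω c₀) = map (algebraMap K Ω) (fm c₀) := (map_fm _ _).symm
    unfold Van Vanp
    rw [hbc, hcv, specm26]
    · ext j
      rw [Polynomial.coeff_map, Polynomial.coeff_zero]
      have h1 := (hφ _).2 (hIP (Ideal.subset_span ⟨j, rfl⟩))
      rw [hφw] at h1
      exact h1
    · exact (aeval w : MvPolynomial _ K →ₐ[K] Ω).comp_algebraMap
  have hsub : rg w ⊆ rga a e := by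
    intro y hy
    obtain ⟨⟨i, l⟩, -, rfl⟩ := Finset.mem_image.1 hy
    rw [← has l l.2 i]
    exact Finset.mem_biUnion.2 ⟨(l : ℕ), Finset.mem_range.2 l.2,
      Finset.mem_image_of_mem _ (Finset.mem_univ i)⟩
  have hlow' : m * e + n ≤ rk K (rga a e) := hlow.trans (rk_mono K hsub)
  have hrga : ∀ y ∈ rga a e, ∃ l ≤ e, ∃ i, y = a l i := by
    intro y hy
    obtain ⟨l, hl, hy⟩ := Finset.mem_biUnion.1 hy
    obtain ⟨i, -, rfl⟩ := Finset.mem_image.1 hy
    exact ⟨l, by have := Finset.mem_range.1 hl; omega, i, rfl⟩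
  have h0 : a 0 ≠ 0 := by
    intro h00
    have hme : 1 ≤ m * e := Nat.mul_pos hm he
    by_cases hall : ∀ l ≤ e, a l = 0
    · have h3 : rk K (rga a e) ≤ rk K (∅ : Finset Ω) := by
        refine rk_le_of_subset_cl K fun y hy => ?_
        obtain ⟨l, hl, i, rfl⟩ := hrga y hy
        rw [hall l hl]
        exact zero_mem _
      rw [rk_empty] at h3
      omega
    · push Not at hall
      obtain ⟨j, ⟨hje, hj⟩, hmin⟩ : ∃ j, (j ≤ e ∧ a j ≠ 0) ∧ ∀ l < j, ¬ (l ≤ e ∧ a l ≠ 0) :=
        ⟨Nat.find hall, Nat.find_spec hall, fun l hl => Nat.find_min hall hl⟩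
      have hj1 : 1 ≤ j := by
        rcases Nat.eq_zero_or_pos j with h | h
        · rw [h] at hj
          exact absurd h00 hj
        · exact h
      have hz0 : ∀ l < j, ∀ i, a l i = 0 := by
        intro l hl i
        have h1 := hmin l hl
        push Not at h1
        rw [h1 (by omega)]
        rfl
      have h1 := vanp_shift (fm_hom _) hje hz0 hvan
      obtain ⟨b, hbdef⟩ : ∃ b : ℕ → Fin (n + 1) → Ω, b = fun l => a (l + j) := ⟨_, rfl⟩
      rw [← hbdef] at h1
      have hb0 : b 0 = a j := by rw [hbdef]; simp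
      have hb0' : b 0 ≠ 0 := by rw [hb0]; exact hj
      have h2 := hG.curve_le hb0' h1
      have h3 : rk K (rg (b 0)) ≤ n := hG.point_le hb0' (eval_zero_of_vanp h1)
      have h4 : rk K (rga a e) ≤ rk K (rga b (e - j)) := by
        refine rk_le_of_subset_cl K fun y hy => ?_
        obtain ⟨l, hl, i, rfl⟩ := hrga y hy
        rcases Nat.lt_or_ge l j with h5 | h5
        · rw [hz0 _ h5]
          exact zero_mem _
        · refine subset_cl K _ _ (Finset.mem_biUnion.2 ⟨l - j, ?_, ?_⟩)
          · rw [Finset.mem_range]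
            omega
          · have h6 : a l i = b (l - j) i := by
              rw [hbdef]
              change a l i = a (l - j + j) i
              rw [Nat.sub_add_cancel h5]
            rw [h6]
            exact Finset.mem_image_of_mem _ (Finset.mem_univ i)
      have h5 : m * e = m * (e - j) + m * j := by
        rw [← mul_add, Nat.sub_add_cancel hje]
      have h6 : 1 ≤ m * j := Nat.mul_pos hm hj1
      omega
  refine ⟨a, fun p => ?_, h0, hvan, le_antisymm ?_ hlow'⟩
  · rw [hwa, ← hφ p, hφw]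
  · have h1 := hG.curve_le h0 hvan
    have h2 := hG.point_le h0 (eval_zero_of_vanp hvan)
    omega

theorem Good.minimal_prime {K : Type} [Field K] [IsAlgClosed K] {Ω : Type} [Field Ω]
    [Algebra K Ω] [IsAlgClosed Ω] [DecidableEq Ω] {n d m : ℕ} {c₀ : Mon n d → K}
    (hb : Big K Ω) (hG : Good K Ω m c₀) (hd : 1 ≤ d) (hm : 1 ≤ m) (hmd : m + d = n + 1)
    (hc₀ : c₀ ≠ 0) {e : ℕ} (he : 1 ≤ e) :
    ∃ (P : Ideal (RC.CoeffRing K n e)) (W : Fin (n + 1) × Fin (e + 1) → K),
      (RC.curveIdeal e (fm c₀)).minimalPrimes = {P} ∧ W ≠ 0 ∧ (∀ p ∈ P, eval W p = 0) ∧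
      ∀ y : Fin (d * e + 1) → K, ∃ Z : Fin (n + 1) × Fin (e + 1) → K,
        ∀ j : Fin (d * e + 1), RC.dd W Z ((RC.pull e (fm c₀)).coeff j) = y j := by
  classical
  -- the ideal is proper
  have hne : RC.curveIdeal e (fm c₀) ≠ ⊤ := by
    have h1 : RC.curveIdeal e (fm c₀) ≤
        RingHom.ker (eval (0 : Fin (n + 1) × Fin (e + 1) → K)) := by
      unfold RC.curveIdeal
      rw [Ideal.span_le]
      rintro _ ⟨j, rfl⟩
      rw [SetLike.mem_coe, RingHom.mem_ker]
      change eval 0 ((RC.pull e (fm c₀)).coeff j) = 0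
      rw [← Polynomial.coeff_map, RC.map_pull]
      have h2 : RC.ptup (0 : Fin (n + 1) × Fin (e + 1) → K) = fun _ => 0 := by
        funext i
        simp [RC.ptup]
      have h3 : coeff 0 (fm c₀) = 0 := (fm_hom c₀).coeff_eq_zero (by
        rw [map_zero]
        omega)
      rw [h2, aeval_zero', constantCoeff_eq, h3, map_zero, Polynomial.coeff_zero]
    intro h2
    rw [h2, top_le_iff] at h1
    exact RingHom.ker_ne_top _ h1
  have hle : ∀ P ∈ (RC.curveIdeal e (fm c₀)).minimalPrimes,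
      ∀ P' ∈ (RC.curveIdeal e (fm c₀)).minimalPrimes, P ≤ P' := by
    intro P hP P' hP' x hx
    obtain ⟨a, ha, h0, hV, hr⟩ := prime_pt26 hb hG hm hmd hc₀ he P hP
    obtain ⟨a', ha', h0', hV', hr'⟩ := prime_pt26 hb hG hm hmd hc₀ he P' hP'
    have h1 := hG.curve_type hb hd hm hmd he h0 h0' hV hV' hr hr'
    have h2 := h1 (rename Prod.swap x) (by
      rw [aeval_rename]
      exact (ha x).2 hx)
    rw [aeval_rename] at h2
    exact (ha' x).1 h2
  obtain ⟨P, hP⟩ : ∃ P, P ∈ (RC.curveIdeal e (fm c₀)).minimalPrimes := by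
    obtain ⟨M, hM, hleM⟩ := Ideal.exists_le_maximal _ hne
    have := hM.isPrime
    obtain ⟨P, hP, -⟩ := Ideal.exists_minimalPrimes_le hleM
    exact ⟨P, hP⟩
  have hPp : P.IsPrime := hP.1.1
  obtain ⟨a, ha, h0, hV, hr⟩ := prime_pt26 hb hG hm hmd hc₀ he P hP
  obtain ⟨w, hw⟩ : ∃ w : Fin (n + 1) × Fin (e + 1) → Ω, w = fun q => a q.2 q.1 := ⟨_, rfl⟩
  rw [← hw] at ha
  obtain ⟨M, hM⟩ : ∃ M : Matrix (Fin (d * e + 1)) (Fin (n + 1) × Fin (e + 1))
      (RC.CoeffRing K n e), ∀ j t, M j t = pderiv t ((RC.pull e (fm c₀)).coeff j) :=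
    ⟨fun j t => pderiv t ((RC.pull e (fm c₀)).coeff j), fun _ _ => rfl⟩
  -- the differential at the generic point is onto
  have hsurj : Function.Surjective
      (M.map (aeval w : RC.CoeffRing K n e →ₐ[K] Ω)).mulVec := by
    intro y
    obtain ⟨V, hVy⟩ := hG.curve_sur hb hd hm he h0 hV hr
      (fun N => if h : N < d * e + 1 then y ⟨N, h⟩ else 0)
    obtain ⟨Z, hZ⟩ : ∃ Z : Fin (n + 1) × Fin (e + 1) → Ω, Z = fun q => V q.2 q.1 := ⟨_, rfl⟩
    refine ⟨Z, ?_⟩
    funext j
    have h1 := RC.dd_pull w Z (fm (bc Ω c₀)) j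
    have hcv : ∀ b : ℕ → Fin (n + 1) → Ω,
        RC.ptup (fun q : Fin (n + 1) × Fin (e + 1) => b q.2 q.1) = cv b e := by
      intro b
      funext i
      unfold RC.ptup cv
      rw [Fin.sum_univ_eq_sum_range (fun l => Polynomial.C (b l i) * Polynomial.X ^ l) (e + 1)]
    have h2 : RC.da (RC.ptup w) (RC.ptup Z) (fm (bc Ω c₀)) = dcv (fm (bc Ω c₀)) a V e := by
      unfold RC.da dcv
      rw [hw, hZ, hcv, hcv]
    have hbc : fm (bc Ω c₀) = map (algebraMap K Ω) (fm c₀) := (map_fm _ _).symm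
    have h3 := hVy j (by have := j.2; omega)
    rw [dif_pos j.2] at h3
    rw [h2, h3, hbc, pullm26, Polynomial.coeff_map] at h1
    have h4 : y ⟨(j : ℕ), j.2⟩ = y j := rfl
    rw [h4] at h1
    rw [← h1]
    unfold RC.dd Matrix.mulVec dotProduct
    refine Finset.sum_congr rfl fun t _ => ?_
    change (aeval w (M j t)) * Z t = _
    rw [hM, pderiv_map, eval_map, mul_comm]
    rfl
  obtain ⟨c, hc⟩ := exists_minor26 _ hsurj
  have hD : aeval w (M.submatrix id c).det ≠ 0 := by
    rw [AlgHom.map_det]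
    exact hc
  obtain ⟨i₀, hi₀⟩ := Function.ne_iff.1 h0
  have hwt : w (i₀, 0) ≠ 0 := by
    rw [hw]
    exact hi₀
  have hg : (M.submatrix id c).det * X (i₀, 0) ∉ P := by
    intro hcon
    have h1 := (ha _).2 hcon
    rw [map_mul, aeval_X] at h1
    exact mul_ne_zero hD hwt h1
  obtain ⟨W, hWP, hWg⟩ : ∃ W : Fin (n + 1) × Fin (e + 1) → K, (∀ p ∈ P, eval W p = 0) ∧
      eval W ((M.submatrix id c).det * X (i₀, 0)) ≠ 0 := by
    by_contra hcon
    push Not at hcon
    apply hg
    rw [← MvPolynomial.IsPrime.vanishingIdeal_zeroLocus (K := K) P]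
    intro W hW
    have h1 : ∀ p ∈ P, eval W p = 0 := by
      intro p hp
      have h2 := hW p hp
      rwa [aeval_eq_eval] at h2
    rw [aeval_eq_eval]
    exact hcon W h1
  rw [map_mul, eval_X] at hWg
  refine ⟨P, W, ?_, ?_, hWP, ?_⟩
  · refine Set.eq_singleton_iff_unique_mem.2 ⟨hP, fun P' hP' => ?_⟩
    exact le_antisymm (hle P' hP' P hP) (hle P hP P' hP')
  · intro h
    rw [h] at hWg
    exact hWg (mul_zero _)
  · intro y
    have h1 : ((M.map (eval W)).submatrix id c).det ≠ 0 := by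
      have h2 := left_ne_zero_of_mul hWg
      rw [RingHom.map_det] at h2
      exact h2
    obtain ⟨Z, hZ⟩ := surj_of_minor26 _ c h1 y
    refine ⟨Z, fun j => ?_⟩
    rw [← hZ]
    unfold RC.dd Matrix.mulVec dotProduct
    refine Finset.sum_congr rfl fun t _ => ?_
    change _ = (eval W (M j t)) * Z t
    rw [hM, mul_comm]

end Pool.Agent.Helper30.RY
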