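import Mathlib
import Pool.Agent.Helper30.RC.Choice

/-!
# Block RY-FNB: linear systems of parameters

`k` algebraically closed (infinite), `I` a homogeneous ideal of `A = k[X_τ]`, `τ` finite, `dim A / I ≤ r`.  Then
there are `r` linear forms `z` with `mx^E ≤ I + (z)`, where `mx = RC.mx τ k` is the ideal generated by the
variables (`RC/Opn.lean`, `RC/Gr.lean`).

Proof by induction on `r`.  If `I = ⊤` or `mx` is a minimal prime of `I` then the radical of `I` contains `mx`: the
minimal primes of `I` are homogeneous (`RC.minimalPrime_homogeneous`), so contained in `mx`; if one of them is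
`mx`, all are, so `radical I = mx` and (`A` noetherian) `mx^E ≤ I`; take `z = 0`.
`r = 0`: all minimal primes of `I` are maximal (dimension zero), homogeneous, so equal to `mx`: done.
`r → r + 1`: assume that no minimal prime is `mx`.  There are finitely many minimal primes `P_1, ..., P_s`
(`Ideal.finite_minimalPrimes_of_isNoetherianRing`); none contains all variables, so the linear forms in `P_i` are a
proper subspace of the space of linear forms, and since `k` is infinite there is a linear form `l` in none of the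
`P_i` (`Subspace.biUnion_ne_univ_of_top_notMem` or a generic choice).  `I' = I ⊔ (l)` is homogeneous and
`dim A / I' ≤ r`: a chain of primes over `I'` of length `r + 1` starts with a prime `Q ∋ l` over some `P_i`, so
`P_i < Q` gives a chain over `I` of length `r + 2`.  By induction there are `z' : Fin r → A` for `I'`; take
`z = Fin.cons l z'`.
-/

namespace Pool.Agent.Helper30.RY

open MvPolynomial

attribute [local instance] MvPolynomial.gradedAlgebra

section

variable {k : Type} [Field k] {τ : Type}

private theorem mx_eq_ker45 :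
    RC.mx τ k = RingHom.ker (constantCoeff : MvPolynomial τ k →+* k) := by
  ext p
  have h := mem_pow_idealOfVars_iff' (σ := τ) (R := k) 1 p
  rw [pow_one] at h
  rw [h, RingHom.mem_ker]
  constructor
  · intro h1
    exact h1 0 (by simp)
  · intro h1 x hx
    have h2 : x = 0 := by
      rw [← Finsupp.degree_eq_zero_iff]
      omega
    rw [h2]
    exact h1

private theorem mx_max45 : (RC.mx τ k).IsMaximal := by
  rw [mx_eq_ker45]
  exact RingHom.ker_isMaximal_of_surjective _ fun c => ⟨C c, constantCoeff_C _ c⟩

private theorem le_mx45 {P : Ideal (MvPolynomial τ k)}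
    (hP : P.IsHomogeneous (homogeneousSubmodule τ k)) (hne : P ≠ ⊤) : P ≤ RC.mx τ k := by
  intro p hp
  rw [mx_eq_ker45, RingHom.mem_ker]
  by_contra h
  have h1 := homogeneousComponent_mem_of_mem hP hp 0
  rw [homogeneousComponent_zero] at h1
  exact hne (Ideal.eq_top_of_isUnit_mem _ h1 ((isUnit_iff_ne_zero.2 h).map C))

end

/-- The dimension drops by one if the minimal primes are avoided. -/
private theorem dim_step45 {R : Type} [CommRing R] (I I' : Ideal R) (hII : I ≤ I') (r : ℕ)
    (hdim : ringKrullDim (R ⧸ I) ≤ ((r + 1 : ℕ) : WithBot ℕ∞))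
    (hP : ∀ P ∈ I.minimalPrimes, P.IsMaximal ∨ ¬ I' ≤ P) :
    ringKrullDim (R ⧸ I') ≤ ((r : ℕ) : WithBot ℕ∞) := by
  rw [ringKrullDim_quotient] at hdim ⊢
  refine iSup_le fun p => ?_
  have hQ : I' ≤ p.head.1.asIdeal := p.head.2
  have hQp : p.head.1.asIdeal.IsPrime := p.head.1.isPrime
  obtain ⟨P, hPm, hPQ⟩ := Ideal.exists_minimalPrimes_le (I := I) (J := p.head.1.asIdeal)
    (hII.trans hQ)
  rcases hP P hPm with hmax | hnot
  · have h0 : p.length = 0 := by
      by_contra hlen
      have h1 : p (0 : Fin (p.length + 1)) < p (Fin.last p.length) := by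
        apply p.strictMono
        rw [Fin.lt_def]
        exact Nat.pos_of_ne_zero hlen
      have h2 : p.head.1.asIdeal < (p (Fin.last p.length)).1.asIdeal := h1
      have h3 : P < (p (Fin.last p.length)).1.asIdeal := lt_of_le_of_lt hPQ h2
      exact (p (Fin.last p.length)).1.isPrime.ne_top (hmax.1.2 _ h3)
    rw [h0]
    exact_mod_cast Nat.zero_le r
  · have hlt : P < p.head.1.asIdeal := by
      refine lt_of_le_of_ne hPQ fun h => hnot ?_
      rw [h]
      exact hQ
    let incl : PrimeSpectrum.zeroLocus (I' : Set R) → PrimeSpectrum.zeroLocus (I : Set R) :=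
      fun q => ⟨q.1, fun _ hx => q.2 (hII hx)⟩
    have hmono : StrictMono incl := fun a b h => h
    let p' : LTSeries (PrimeSpectrum.zeroLocus (I : Set R)) :=
      (p.map incl hmono).cons ⟨⟨P, hPm.1.1⟩, hPm.1.2⟩ hlt
    have h1 : (p'.length : WithBot ℕ∞) ≤ ((r + 1 : ℕ) : WithBot ℕ∞) :=
      (Order.LTSeries.length_le_krullDim p').trans hdim
    have h2 : p'.length = p.length + 1 :=
      RelSeries.cons_length (p.map incl hmono) ⟨⟨P, hPm.1.1⟩, hPm.1.2⟩ hlt
    rw [h2] at h1
    have h3 : p.length + 1 ≤ r + 1 := by exact_mod_cast h1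
    have h4 : p.length ≤ r := by omega
    exact_mod_cast h4

theorem exists_hsop {k : Type} [Field k] [IsAlgClosed k] {τ : Type} [Fintype τ]
    (I : Ideal (MvPolynomial τ k)) (hI : I.IsHomogeneous (homogeneousSubmodule τ k)) (r : ℕ)
    (hdim : ringKrullDim (MvPolynomial τ k ⧸ I) ≤ (r : ℕ)) :
    ∃ z : Fin r → MvPolynomial τ k, (∀ i, (z i).IsHomogeneous 1) ∧
      ∃ E, (RC.mx τ k) ^ E ≤ I ⊔ Ideal.span (Set.range z) := by
  classical
  induction r generalizing I with
  | zero =>
    have hall : ∀ P ∈ I.minimalPrimes, P = RC.mx τ k := by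
      intro P hP
      have h1 : P ≤ RC.mx τ k := le_mx45 (RC.minimalPrime_homogeneous I hI P hP) hP.1.1.ne_top
      by_contra hne
      have h2 : P < RC.mx τ k := lt_of_le_of_ne h1 hne
      rw [ringKrullDim_quotient] at hdim
      have h3 : (1 : WithBot ℕ∞) ≤
          Order.krullDim (PrimeSpectrum.zeroLocus (I : Set (MvPolynomial τ k))) := by
        rw [Order.one_le_krullDim_iff]
        exact ⟨⟨⟨P, hP.1.1⟩, hP.1.2⟩, ⟨⟨RC.mx τ k, mx_max45.isPrime⟩, hP.1.2.trans h1⟩, h2⟩
      have h4 := h3.trans hdim
      have h5 : (1 : ℕ) ≤ 0 := by exact_mod_cast h4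
      omega
    obtain ⟨E, hE⟩ := RC.pow_le_of_zero I (by
      intro x hx
      have hpr : (RingHom.ker (eval x : MvPolynomial τ k →+* k)).IsPrime := RingHom.ker_isPrime _
      obtain ⟨P, hP, hPx⟩ := Ideal.exists_minimalPrimes_le (I := I)
        (J := RingHom.ker (eval x : MvPolynomial τ k →+* k)) (fun p hp => hx p hp)
      rw [hall P hP] at hPx
      funext t
      have h1 := hPx (Ideal.subset_span ⟨t, rfl⟩)
      rw [RingHom.mem_ker, eval_X] at h1
      exact h1)
    exact ⟨Fin.elim0, fun i => i.elim0, E, hE.trans le_sup_left⟩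
  | succ r ih =>
    have hinf : Infinite k := IsAlgClosed.instInfinite
    obtain ⟨L, hL⟩ : ∃ L : (τ → k) →ₗ[k] MvPolynomial τ k, ∀ a, L a = ∑ t, a t • X t :=
      ⟨Fintype.linearCombination k (X : τ → MvPolynomial τ k), fun a => rfl⟩
    have hLX : ∀ t, L (Pi.single t 1) = X t := by
      intro t
      rw [hL, Finset.sum_eq_single t]
      · rw [Pi.single_eq_same, one_smul]
      · intro s _ hs
        rw [Pi.single_eq_of_ne hs, zero_smul]
      · intro h
        exact absurd (Finset.mem_univ t) h
    have hLh : ∀ a, (L a).IsHomogeneous 1 := by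
      intro a
      rw [hL]
      refine IsHomogeneous.sum _ _ _ fun t _ => ?_
      rw [smul_eq_C_mul]
      exact isHomogeneous_C_mul_X _ _
    have hfin := Ideal.finite_minimalPrimes_of_isNoetherianRing (MvPolynomial τ k) I
    let S : Finset (Subspace k (τ → k)) :=
      (hfin.toFinset.filter fun P => P ≠ RC.mx τ k).image
        fun P => (P.restrictScalars k).comap L
    have hS : ⊤ ∉ S := by
      intro h
      rw [Finset.mem_image] at h
      obtain ⟨P, hP, hPt⟩ := h
      rw [Finset.mem_filter, Set.Finite.mem_toFinset] at hP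
      have h1 : RC.mx τ k ≤ P := by
        refine Ideal.span_le.2 ?_
        rintro _ ⟨t, rfl⟩
        have h2 : (Pi.single t 1 : τ → k) ∈ (P.restrictScalars k).comap L := by
          rw [hPt]
          exact Submodule.mem_top
        have h3 : L (Pi.single t 1) ∈ P := h2
        rw [hLX] at h3
        exact h3
      exact hP.2 (le_antisymm
        (le_mx45 (RC.minimalPrime_homogeneous I hI P hP.1) hP.1.1.1.ne_top) h1)
    obtain ⟨a, ha⟩ := (Set.ne_univ_iff_exists_notMem _).1
      (Subspace.biUnion_ne_univ_of_top_notMem hS)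
    have ha' : ∀ P ∈ I.minimalPrimes, P ≠ RC.mx τ k → L a ∉ P := by
      intro P hP hne hmem
      apply ha
      rw [Set.mem_iUnion₂]
      refine ⟨(P.restrictScalars k).comap L, ?_, hmem⟩
      rw [Finset.mem_image]
      exact ⟨P, Finset.mem_filter.2 ⟨hfin.mem_toFinset.2 hP, hne⟩, rfl⟩
    have hI' : (I ⊔ Ideal.span {L a}).IsHomogeneous (homogeneousSubmodule τ k) := by
      refine hI.sup ?_
      refine Ideal.homogeneous_span _ _ ?_
      rintro _ rfl
      exact ⟨1, hLh a⟩
    have hdim' : ringKrullDim (MvPolynomial τ k ⧸ (I ⊔ Ideal.span {L a})) ≤ ((r : ℕ) : WithBot ℕ∞) := by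
      refine dim_step45 I _ le_sup_left r hdim fun P hP => ?_
      by_cases h : P = RC.mx τ k
      · left
        rw [h]
        exact mx_max45
      · right
        intro hle
        exact ha' P hP h (hle (Ideal.mem_sup_right (Ideal.mem_span_singleton_self _)))
    obtain ⟨z, hz, E, hE⟩ := ih _ hI' hdim'
    refine ⟨Fin.cons (L a) z, fun i => ?_, E, ?_⟩
    · refine Fin.cases ?_ (fun i => ?_) i
      · exact hLh a
      · exact hz i
    · rw [Fin.range_cons, Ideal.span_insert, ← sup_assoc]
      exact hE

end Pool.Agent.Helper30.RY
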