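import Mathlib
import Pool.Agent.Helper30.RC.PrimeNear

/-!
# Block RY-FNC: the ideal of a linear family is prime near a point with one generically smooth component

This is `RC.prime_near` (`RC/PrimeNear.lean`) with weaker hypotheses: instead of the linear forms `z'` with `h1` we
are given a system of `r` linear parameters `z⁰` (`hE`), and that all minimal primes of the ideal at `x₀` vanish
at `W` (`hmin`).

`exists_choice'`: as `RC.exists_choice`, with the part (condition (a)) where `ζ₀` is constructed from `z'` replaced by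
the coefficients of the `z⁰ i` (`RC.linear_rep`); `RC.open_pow_le` then gives the open condition.
`prime_near'`: copy of the proof of `RC.prime_near` with `r` instead of `Fintype.card ρ + 1` and `hmin` in place of
`RC.comp_contains`.  `hcW` follows from `hmin` (there is a minimal prime, as the ideal is not `⊤`: it is contained in
the ideal of `0`, the equations are homogeneous of positive degree; and its elements vanish at `W`).
-/

namespace Pool.Agent.Helper30.RY

open MvPolynomial RC

attribute [local instance] MvPolynomial.gradedAlgebra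

variable {k : Type} [Field k] {τ : Type} [Fintype τ] {Γ : Type} [Fintype Γ] {q r : ℕ}

theorem exists_choice' [IsAlgClosed k]
    (c : Fin q → MvPolynomial τ k) (δ : Fin q → ℕ) (hc : ∀ j, (c j).IsHomogeneous (δ j))
    (z' : Fin r → MvPolynomial τ k) (hz' : ∀ i, (z' i).IsHomogeneous 1)
    (hcard : Fintype.card τ = q + r) (W : τ → k)
    (hE : ∃ E, (mx τ k) ^ E ≤ Ideal.span (Set.range c) ⊔ Ideal.span (Set.range z'))
    (hsurj : ∀ y : Fin q → k, ∃ Z : τ → k, ∀ j, dd W Z (c j) = y j) :
    ∃ z : Fin r → MvPolynomial τ k, (∀ i, (z i).IsHomogeneous 1) ∧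
      (∃ E, (mx τ k) ^ E ≤ Ideal.span (Set.range c) ⊔ Ideal.span (Set.range z)) ∧
      (∀ Z : τ → k, (∀ j, dd W Z (c j) = 0) → (∀ i, dd W Z (z i) = 0) → Z = 0) := by
  classical
  have hinf : Infinite k := IsAlgClosed.instInfinite
  -- the kernel of the differential
  let L : (τ → k) →ₗ[k] (Fin q → k) :=
    { toFun := fun Z j => dd W Z (c j)
      map_add' := by intro Z Z'; ext j; exact dd_add_right _ _ _ _
      map_smul' := by intro a Z; ext j; exact dd_smul_right _ _ _ _ }
  have hLs : Function.Surjective L := by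
    intro y
    obtain ⟨Z, hZ⟩ := hsurj y
    exact ⟨Z, funext hZ⟩
  have hker : Module.finrank k (LinearMap.ker L) = r := by
    have h2 := LinearMap.finrank_range_add_finrank_ker L
    rw [LinearMap.range_eq_top.mpr hLs, finrank_top, Module.finrank_fintype_fun_eq_card,
      Module.finrank_fintype_fun_eq_card, Fintype.card_fin, hcard] at h2
    omega
  let v : Module.Basis (Fin r) k (LinearMap.ker L) := Module.finBasisOfFinrankEq _ _ hker
  -- condition (b)
  let Mb : Matrix (Fin r) (Fin r) (MvPolynomial (Fin r × τ) k) :=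
    fun i j => ∑ t, X (i, t) * C ((v j : τ → k) t)
  have hMb : ∀ ζ : Fin r × τ → k, ∀ i j, eval ζ (Mb i j) = ∑ t, ζ (i, t) * (v j : τ → k) t := by
    intro ζ i j
    simp [Mb]
  have hb1 : ∀ ζ : Fin r × τ → k, eval ζ Mb.det ≠ 0 →
      ∀ Z : τ → k, (∀ j, dd W Z (c j) = 0) → (∀ i, dd W Z (lf ζ i) = 0) → Z = 0 := by
    intro ζ hζ Z hZ1 hZ2
    have hZk : Z ∈ LinearMap.ker L := by
      rw [LinearMap.mem_ker]
      exact funext hZ1
    have h2 : ((eval ζ).mapMatrix Mb).mulVec (v.repr ⟨Z, hZk⟩) = 0 := by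
      ext i
      rw [Pi.zero_apply, ← hZ2 i, dd_lf, Matrix.mulVec, dotProduct]
      simp only [RingHom.mapMatrix_apply, Matrix.map_apply, hMb]
      have h3 : Z = ∑ j, v.repr ⟨Z, hZk⟩ j • (v j : τ → k) := by
        have h4 := congrArg (Submodule.subtype _) (v.sum_repr ⟨Z, hZk⟩)
        rw [map_sum] at h4
        exact h4.symm
      have h5 : ∀ t, Z t = ∑ j, v.repr ⟨Z, hZk⟩ j * (v j : τ → k) t := by
        intro t
        have h6 := congrFun h3 t
        rw [Finset.sum_apply] at h6
        exact h6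
      simp only [Finset.sum_mul]
      rw [Finset.sum_comm]
      refine Finset.sum_congr rfl fun t _ => ?_
      rw [h5 t, Finset.mul_sum]
      refine Finset.sum_congr rfl fun j _ => ?_
      ring
    have h3 : ((eval ζ).mapMatrix Mb).det ≠ 0 := by
      rw [← RingHom.map_det]
      exact hζ
    have h4 := Matrix.eq_zero_of_mulVec_eq_zero h3 h2
    have h5 : v.repr ⟨Z, hZk⟩ = 0 := DFunLike.coe_injective h4
    have h6 : (⟨Z, hZk⟩ : LinearMap.ker L) = 0 := v.repr.map_eq_zero_iff.mp h5
    exact congrArg Subtype.val h6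
  have hb2 : ∃ ζ : Fin r × τ → k, eval ζ Mb.det ≠ 0 := by
    have h2 : ∀ i : Fin r, ∃ g : (τ → k) →ₗ[k] k, g.comp (LinearMap.ker L).subtype = v.coord i :=
      fun i => LinearMap.exists_extend (v.coord i)
    choose g hg using h2
    refine ⟨fun p => g p.1 (Pi.single p.2 1), ?_⟩
    rw [RingHom.map_det]
    have h3 : (eval fun p : Fin r × τ => g p.1 (Pi.single p.2 1)).mapMatrix Mb = 1 := by
      ext i j
      rw [RingHom.mapMatrix_apply, Matrix.map_apply, hMb]
      have h4 : ∑ t, g i (Pi.single t 1) * (v j : τ → k) t = g i (v j : τ → k) := by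
        conv_rhs => rw [pi_eq_sum_univ' (v j : τ → k)]
        rw [map_sum]
        refine Finset.sum_congr rfl fun t _ => ?_
        rw [map_smul, smul_eq_mul, mul_comm]
      rw [h4]
      have h5 := LinearMap.congr_fun (hg i) (v j)
      rw [LinearMap.comp_apply, Submodule.subtype_apply] at h5
      rw [h5, Module.Basis.coord_apply, Module.Basis.repr_self, Matrix.one_apply,
        Finsupp.single_apply]
      by_cases hij : i = j
      · rw [if_pos hij, if_pos hij.symm]
      · rw [if_neg hij, if_neg (fun e => hij e.symm)]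
    rw [h3, Matrix.det_one]
    exact one_ne_zero
  -- condition (a)
  have hrep : ∀ i, ∃ co : τ → k, z' i = ∑ t, C (co t) * X t := fun i => linear_rep (hz' i)
  choose co hco using hrep
  let ζ₀ : Fin r × τ → k := fun p => co p.1 p.2
  let c' : Fin r → (Fin r × τ) → MvPolynomial τ k := fun i p => if i = p.1 then X p.2 else 0
  have hlin : ∀ ζ : Fin r × τ → k, lin c' ζ = lf ζ := by
    intro ζ
    funext i
    rw [lin, lf, Fintype.sum_prod_type, Finset.sum_eq_single i]
    · refine Finset.sum_congr rfl fun t _ => ?_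
      simp [c']
    · intro i' _ hne
      refine Finset.sum_eq_zero fun t _ => ?_
      have : i ≠ i' := fun h => hne h.symm
      simp [c', this]
    · simp
  have hc' : ∀ i p, (c' i p).IsHomogeneous 1 := by
    intro i p
    simp only [c']
    split_ifs
    · exact isHomogeneous_X _ _
    · exact isHomogeneous_zero _ _ _
  obtain ⟨E, hE⟩ := hE
  have hz0 : lin c' ζ₀ = z' := by
    rw [hlin]
    funext i
    rw [hco i]
    rfl
  have hE : (mx τ k) ^ E ≤ Ideal.span (Set.range (lin c' ζ₀)) ⊔ Ideal.span (Set.range c) := by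
    rw [hz0, sup_comm]
    exact hE
  obtain ⟨Da, hDa0, hDa⟩ := open_pow_le c' (fun _ => 1) hc' c δ hc E ζ₀ hE
  -- combine
  have hDne : Da * Mb.det ≠ 0 := by
    obtain ⟨ζ, hζ⟩ := hb2
    refine mul_ne_zero ?_ ?_
    · rintro rfl
      exact hDa0 (map_zero _)
    · intro h
      rw [h] at hζ
      exact hζ (map_zero _)
  obtain ⟨ζ, hζ⟩ : ∃ ζ : Fin r × τ → k, eval ζ (Da * Mb.det) ≠ 0 := by
    by_contra hcon
    push Not at hcon
    exact hDne (MvPolynomial.funext fun ζ => by rw [hcon ζ, map_zero])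
  rw [map_mul] at hζ
  refine ⟨lf ζ, lf_hom ζ, ⟨E, ?_⟩, hb1 ζ (right_ne_zero_of_mul hζ)⟩
  have h2 := hDa ζ (left_ne_zero_of_mul hζ)
  rw [hlin, sup_comm] at h2
  exact h2

theorem prime_near' [IsAlgClosed k]
    (c : Fin q → Γ → MvPolynomial τ k) (δ : Fin q → ℕ) (hδ : ∀ j, 0 < δ j)
    (hc : ∀ j γ, (c j γ).IsHomogeneous (δ j))
    (z' : Fin r → MvPolynomial τ k) (hz' : ∀ i, (z' i).IsHomogeneous 1)
    (hcard : Fintype.card τ = q + r) (x₀ : Γ → k) (W : τ → k) (hW : W ≠ 0)
    (hE : ∃ E, (mx τ k) ^ E ≤ Ideal.span (Set.range (lin c x₀)) ⊔ Ideal.span (Set.range z'))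
    (hmin : ∀ P ∈ (Ideal.span (Set.range (lin c x₀))).minimalPrimes, ∀ p ∈ P, eval W p = 0)
    (hsurj : ∀ y : Fin q → k, ∃ Z : τ → k, ∀ j, dd W Z (lin c x₀ j) = y j) :
    Near x₀ (fun x => (Ideal.span (Set.range (lin c x))).IsPrime) := by
  classical
  have hcW : ∀ j, eval W (lin c x₀ j) = 0 := by
    have hne : Ideal.span (Set.range (lin c x₀)) ≠ ⊤ := by
      intro htop
      have h1 : Ideal.span (Set.range (lin c x₀)) ≤ mpt (0 : τ → k) := by
        rw [Ideal.span_le]
        rintro _ ⟨j, rfl⟩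
        have h2 := eval_smul_hom (lin_hom hc x₀ j) 0 (0 : τ → k)
        rw [zero_pow (hδ j).ne', zero_mul, zero_smul] at h2
        exact mem_mpt.mpr h2
      rw [htop] at h1
      have h2 := mem_mpt.mp (h1 (Submodule.mem_top (x := 1)))
      rw [map_one] at h2
      exact one_ne_zero h2
    obtain ⟨⟨P, hP⟩⟩ := Ideal.nonempty_minimalPrimes hne
    intro j
    exact hmin P hP _ (hP.1.2 (Ideal.subset_span (Set.mem_range_self j)))
  obtain ⟨z, hz, ⟨E, hE⟩, htan⟩ := exists_choice' (lin c x₀) δ (lin_hom hc x₀) z' hz' hcard W hE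
    hsurj
  obtain ⟨l, hl1, hlW, hl⟩ := exists_l (lin c x₀) δ (lin_hom hc x₀) z hz E hE W hW hcW
  have hcard' : Nat.card τ = q + r := by
    rw [Nat.card_eq_fintype_card, hcard]
  obtain ⟨β, _, _, b, dg, hb, hS, hcount⟩ := exists_graded_basis (Jx c z x₀) E hE
  have hrep : ∀ i : β, ∃ P : β → (Γ → k) → MvPolynomial (Fin r) k,
      (∀ j x, (P j x).IsHomogeneous (1 + dg i - dg j)) ∧
      (∀ j x, 1 + dg i < dg j → P j x = 0) ∧ (∀ j, RegP x₀ (P j)) ∧
      Near x₀ (fun x => l * b i - ∑ j, aeval z (P j x) * b j ∈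
        Ideal.span (Set.range (lin c x))) :=
    fun i => rep c δ hc x₀ z hz b dg hb hS (1 + dg i) (l * b i) (hl1.mul (hb i))
  choose P hP1 hP2 hP3 hP4 using hrep
  let M : (Γ → k) → Matrix β β (MvPolynomial (Fin r) k) :=
    fun x => Matrix.of fun j i => P i j x
  have hG : ∀ x, GMat (M x) dg := fun x j i => ⟨hP1 i j x, hP2 i j x⟩
  have hPnear : Near x₀ (fun x => ∀ i, l * b i - ∑ j, aeval z (P i j x) * b j ∈
        Ideal.span (Set.range (lin c x))) := Near.all hP4
  -- the basis at a point of the good neighbourhood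
  have hgood := near_spanMod c δ hc z hz E x₀ hE b dg hb hS
  have hBex : ∀ x, (mx τ k) ^ E ≤ Jx c z x ∧ SpanMod (Jx c z x) b dg →
      (∀ i, l * b i - ∑ j, aeval z (P i j x) * b j ∈ Ideal.span (Set.range (lin c x))) →
      ∃ B : Module.Basis β (MvPolynomial (Fin r) k)
        (QZ z (Ideal.span (Set.range (lin c x)))),
        Algebra.leftMulMatrix B (mkQZ z _ l) = M x := by
    intro x hx hPx
    have hcount' : ∀ D, (Finset.univ.filter (fun i => dg i = D)).card +
        Module.finrank k (gp (Jx c z x) D) = Module.finrank k (homogeneousSubmodule τ k D) := by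
      intro D
      rw [finrank_gp_eq hcard' c δ hδ hc z hz E x x₀ hx.1 hE D]
      exact hcount D
    refine ⟨basisQZ hcard' c δ hδ hc z hz E x hx.1 b dg hb hx.2 hcount', ?_⟩
    refine leftMul_eq _ z b _ ?_ l _ hPx
    intro i
    rw [basisQZ, Module.Basis.mk_apply]
  -- irreducibility at the special point
  have h0 : Irreducible (toOpt k (r) (M x₀).charpoly) := by
    obtain ⟨B, hB⟩ := hBex x₀ hgood.self hPnear.self
    have h2 := irr0 (lin c x₀) z W B l hcW hmin htan hlW hl
    rw [hB] at h2
    exact (MulEquiv.irreducible_iff (toOpt k r)).mpr h2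
  have hirr : Near x₀ (fun x => Irreducible (toOpt k (r) (M x).charpoly)) :=
    irreducible_near none (Fintype.card β) x₀ _
      (charpoly_regP M fun j i => hP3 i j)
      (Near.of_forall fun x => (charpoly_hom (hG x)).totalDegree_le)
      (Near.of_forall fun x => coeff_charpoly (M x)) h0
  refine ((hgood.and hPnear).and hirr).mono ?_
  rintro x ⟨⟨hx1, hx2⟩, hx3⟩
  obtain ⟨B, hB⟩ := hBex x hx1 hx2
  have h2 : Irreducible (Algebra.leftMulMatrix B (mkQZ z _ l)).charpoly := by
    rw [hB]
    exact (MulEquiv.irreducible_iff (toOpt k r)).mp hx3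
  have h3 : IsDomain (QZ z (Ideal.span (Set.range (lin c x)))) := isDomain_of_irreducible B _ h2
  have h4 : IsDomain (MvPolynomial τ k ⧸ Ideal.span (Set.range (lin c x))) := h3
  exact (Ideal.Quotient.isDomain_iff_prime _).mp h4

end Pool.Agent.Helper30.RY
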