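import Mathlib
import Pool.Agent.Helper30.RC.Fam
import Pool.Agent.Helper30.RY.Cur

/-!
# Block RY-FND: descent from an extension of the base field

* `descend_ne`: let `(b_s)` be a basis of `K` over `k` and `D = ∑ coeff`; expand all coefficients of `D` in the basis:
  `D = ∑_s b_s D_s` with `D_s` over `k` (`D_s = D.map`-like, coefficients `(basis.repr (coeff m D)) s`), and some
  `D_s` is not zero.  `eval x D = ∑ b_s (eval x D_s)`, so it is not zero if `eval x D_s ≠ 0`.
* `prime_descend`: `A_k = RC.CoeffRing k n e → A_K` (`MvPolynomial.map (algebraMap k K)`).  `curveIdeal e (fm (x over K))`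
  is the extension of `I = curveIdeal e (fm x)` (generators: `RC.pull` commutes with base change, coefficientwise).
  The contraction of the extension of `I` is `I`: `A_K = K ⊗ A_k` is free over `A_k` with a basis containing `1`
  (faithfully flat: `Module.FaithfullyFlat`, `Ideal.comap_map_eq_self_of_faithfullyFlat`); or directly: if
  `p ∈ A_k` is `∑ q_j h_j` with `q_j ∈ A_K`, apply a `k`-linear map `K → k` which maps `1` to `1`
  coefficientwise.  The contraction of a prime ideal is prime.
-/

namespace Pool.Agent.Helper30.RY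

open MvPolynomial

/-- apply a linear functional to all coefficients -/
private noncomputable def lf50 {k K ι : Type*} [Field k] [Field K] [Algebra k K] (ψ : K →ₗ[k] k)
    (q : MvPolynomial ι K) : MvPolynomial ι k := ∑ m ∈ q.support, monomial m (ψ (coeff m q))

private theorem coeff_lf50 {k K ι : Type*} [Field k] [Field K] [Algebra k K] (ψ : K →ₗ[k] k)
    (q : MvPolynomial ι K) (m : ι →₀ ℕ) : coeff m (lf50 ψ q) = ψ (coeff m q) := by
  classical
  unfold lf50
  rw [coeff_sum]
  by_cases hm : m ∈ q.support
  · rw [Finset.sum_eq_single m]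
    · rw [coeff_monomial, if_pos rfl]
    · intro b _ hb
      rw [coeff_monomial, if_neg hb]
    · intro h
      exact absurd hm h
  · rw [notMem_support_iff.1 hm, map_zero]
    refine Finset.sum_eq_zero fun b hb => ?_
    rw [coeff_monomial, if_neg]
    rintro rfl
    exact hm hb

private theorem lin50 {k K : Type*} [Field k] [Field K] [Algebra k K] (ψ : K →ₗ[k] k) (c : K)
    (y : k) : ψ (c * algebraMap k K y) = ψ c * y := by
  rw [mul_comm c, ← Algebra.smul_def, map_smul, smul_eq_mul, mul_comm]

private theorem lf_mul_map50 {k K ι : Type*} [Field k] [Field K] [Algebra k K] (ψ : K →ₗ[k] k)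
    (q : MvPolynomial ι K) (g : MvPolynomial ι k) :
    lf50 ψ (q * map (algebraMap k K) g) = lf50 ψ q * g := by
  classical
  ext m
  rw [coeff_lf50, coeff_mul, coeff_mul, map_sum]
  refine Finset.sum_congr rfl fun z _ => ?_
  rw [coeff_map, lin50, coeff_lf50]

private theorem lf_sum50 {k K ι κ : Type*} [Field k] [Field K] [Algebra k K] (ψ : K →ₗ[k] k)
    (s : Finset κ) (q : κ → MvPolynomial ι K) :
    lf50 ψ (∑ i ∈ s, q i) = ∑ i ∈ s, lf50 ψ (q i) := by
  ext m
  rw [coeff_lf50, coeff_sum, coeff_sum, map_sum]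
  exact Finset.sum_congr rfl fun i _ => (coeff_lf50 ψ (q i) m).symm

private theorem exists_lf50 {k K : Type*} [Field k] [Field K] [Algebra k K] {c : K} (hc : c ≠ 0) :
    ∃ ψ : K →ₗ[k] k, ψ c ≠ 0 := by
  by_contra h
  push Not at h
  exact hc ((Module.forall_dual_apply_eq_zero_iff k c).1 fun ψ => h ψ)

theorem descend_ne {k K ι : Type*} [Field k] [Field K] [Algebra k K] (D : MvPolynomial ι K)
    (hD : D ≠ 0) : ∃ D' : MvPolynomial ι k, D' ≠ 0 ∧ ∀ x : ι → k, eval x D' ≠ 0 →
      eval (fun i => algebraMap k K (x i)) D ≠ 0 := by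
  classical
  obtain ⟨m, hm⟩ := ne_zero_iff.1 hD
  obtain ⟨ψ, hψ⟩ := exists_lf50 (k := k) hm
  refine ⟨lf50 ψ D, ?_, ?_⟩
  · rw [ne_zero_iff]
    exact ⟨m, by rw [coeff_lf50]; exact hψ⟩
  · intro x hx hD0
    apply hx
    have h1 : eval x (lf50 ψ D) = ψ (eval (fun i => algebraMap k K (x i)) D) := by
      unfold lf50
      rw [map_sum, eval_eq, map_sum]
      refine Finset.sum_congr rfl fun a _ => ?_
      rw [eval_monomial, Finsupp.prod]
      have h2 : ∏ i ∈ a.support, algebraMap k K (x i) ^ a i =
          algebraMap k K (∏ i ∈ a.support, x i ^ a i) := by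
        rw [map_prod]
        exact Finset.prod_congr rfl fun i _ => (map_pow _ _ _).symm
      rw [h2, lin50]
    rw [h1, hD0, map_zero]

theorem prime_descend {k K : Type*} [Field k] [Field K] [Algebra k K] {n d e : ℕ}
    (x : Mon n d → k)
    (h : (RC.curveIdeal e (fm fun μ => algebraMap k K (x μ))).IsPrime) :
    (RC.curveIdeal e (fm x)).IsPrime := by
  classical
  set φ : RC.CoeffRing k n e →+* RC.CoeffRing K n e := MvPolynomial.map (algebraMap k K) with hφ
  have hpull : RC.pull e (fm fun μ => algebraMap k K (x μ)) =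
      Polynomial.mapRingHom φ (RC.pull e (fm x)) := by
    unfold RC.pull
    rw [← map_fm, aeval_def, eval₂_map, aeval_def, hom_eval₂]
    have ht : RC.tup K n e = fun i => Polynomial.mapRingHom φ (RC.tup k n e i) := by
      funext i
      unfold RC.tup
      rw [map_sum]
      refine Finset.sum_congr rfl fun l _ => ?_
      rw [map_mul, map_pow, Polynomial.coe_mapRingHom, Polynomial.map_C, Polynomial.map_X, hφ,
        map_X]
    have hc : (algebraMap K (Polynomial (RC.CoeffRing K n e))).comp (algebraMap k K) =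
        (Polynomial.mapRingHom φ).comp (algebraMap k (Polynomial (RC.CoeffRing k n e))) := by
      refine RingHom.ext fun c => ?_
      change Polynomial.C (C (algebraMap k K c)) = Polynomial.map φ (Polynomial.C (C c))
      rw [Polynomial.map_C, hφ, map_C]
    rw [ht, hc]
  have hcomap : Ideal.comap φ (RC.curveIdeal e (fm fun μ => algebraMap k K (x μ))) =
      RC.curveIdeal e (fm x) := by
    have hgen : ∀ j, (RC.pull e (fm fun μ => algebraMap k K (x μ))).coeff j =
        φ ((RC.pull e (fm x)).coeff j) := by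
      intro j
      rw [hpull, Polynomial.coe_mapRingHom, Polynomial.coeff_map]
    apply le_antisymm
    · intro p hp
      rw [Ideal.mem_comap] at hp
      unfold RC.curveIdeal at hp
      obtain ⟨c, hc⟩ := Finsupp.mem_span_range_iff_exists_finsupp.1 hp
      obtain ⟨ψ₀, hψ₀⟩ := exists_lf50 (k := k) (one_ne_zero (α := K))
      set ψ : K →ₗ[k] k := (ψ₀ 1)⁻¹ • ψ₀ with hψ
      have hψ1 : ψ 1 = 1 := by
        rw [hψ, LinearMap.smul_apply, smul_eq_mul, inv_mul_cancel₀ hψ₀]
      have hone : lf50 ψ (1 : RC.CoeffRing K n e) = 1 := by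
        ext m
        rw [coeff_lf50, coeff_one, coeff_one]
        split_ifs
        · exact hψ1
        · exact map_zero ψ
      have hp1 : lf50 ψ (φ p) = p := by
        have h3 := lf_mul_map50 ψ (1 : RC.CoeffRing K n e) p
        rw [one_mul, hone, one_mul] at h3
        exact h3
      have hp2 : lf50 ψ (φ p) = ∑ j ∈ c.support, lf50 ψ (c j) * (RC.pull e (fm x)).coeff j := by
        rw [← hc, Finsupp.sum, lf_sum50]
        refine Finset.sum_congr rfl fun j _ => ?_
        rw [smul_eq_mul, hgen, hφ, lf_mul_map50]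
      rw [hp1] at hp2
      rw [hp2]
      refine Ideal.sum_mem _ fun j _ => Ideal.mul_mem_left _ _ ?_
      exact Ideal.subset_span ⟨j, rfl⟩
    · unfold RC.curveIdeal
      rw [Ideal.span_le]
      rintro _ ⟨j, rfl⟩
      rw [SetLike.mem_coe, Ideal.mem_comap, ← hgen]
      exact Ideal.subset_span ⟨j, rfl⟩
  rw [← hcomap]
  exact Ideal.comap_isPrime φ _

end Pool.Agent.Helper30.RY
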