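import Mathlib
import Pool.Agent.Helper30.RY.Bcl
import Pool.Agent.Helper30.RY.Icp

/-!
# Block RY-FSQ: uniqueness of types from the fibre square

`s` a finite tuple, `S = rg s`, `E = cl K S`; `b`, `b'` are points of the same rank over `S`.  Suppose that for
all `b₁ ~ b'`, `b₂ ~ b` over `E` such that `b, b₁` and `b, b₂` are independent over `S`, the points
`(s, b, b₁)` and `(s, b, b₂)` have the same type over `K`.  Then `b ⟶ b'` over `E`.

Proof.  By `exists_copy` over the base field `E` (`big_cl`, `rk_cl`) choose `b₁ ~ b'` and `b₂ ~ b` over `E`,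
independent of `Y = rg b` over `E`.  Let `p` be a polynomial over `E` with `p(b) = 0`, and `e` the finite tuple of
its coefficients, elements of `E`.  As `(s, b, b₁) ~ (s, b, b₂)`, there is `e'` with
`(s, b, b₁, e) ~ (s, b, b₂, e')` over `K` (`exists_real_over`).  The elements of `e'` are again in `E` (they
are algebraic over `K(s)`: ranks of `S ∪ rg e` and `S ∪ rg e'` agree, `subset_cl_of_rk_le`).  Let `p'` be the
polynomial with coefficients `e'`.  `p(b) = 0` is a relation between `b` and `e` over `K`, so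
`p'(b) = 0`; `p'` is a polynomial over `E` and `b ⟶ b₂` over `E`, so `p'(b₂) = 0`; this is a relation
between `b₂` and `e'`, so `p(b₁) = 0`, and `b₁ ⟶ b'` over `E` gives `p(b') = 0`.
-/

namespace Pool.Agent.Helper30.RY

open MvPolynomial

/-- the universal polynomial with exponents in `F` -/
private noncomputable def uq32 (K : Type*) [Field K] {ι : Type*} (F : Finset (ι →₀ ℕ)) :
    MvPolynomial (ι ⊕ F) K :=
  ∑ m : F, X (Sum.inr m) * rename Sum.inl (monomial m.1 (1 : K))

private theorem uq_aeval32 {K : Type*} {Ω : Type*} [Field K] [Field Ω] [Algebra K Ω]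
    (E : IntermediateField K Ω) {ι : Type*} (F : Finset (ι →₀ ℕ)) (f : F → E) (v : ι → Ω) :
    aeval (Sum.elim v (fun m : F => (f m : Ω))) (uq32 K F) =
      aeval v (∑ m : F, monomial m.1 (f m)) := by
  unfold uq32
  rw [map_sum, map_sum]
  refine Finset.sum_congr rfl fun m _ => ?_
  rw [map_mul, aeval_X, Sum.elim_inr, aeval_rename, Sum.elim_comp_inl, aeval_monomial,
    aeval_monomial, map_one, one_mul]
  rfl

theorem fibre_square {K : Type*} {Ω : Type*} [Field K] [Field Ω] [Algebra K Ω] [IsAlgClosed Ω]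
    [DecidableEq Ω] (hb : Big K Ω) {ι κ : Type*} [Fintype ι] [Fintype κ] (s : κ → Ω)
    (b b' : ι → Ω) (hr : rk K (rg s ∪ rg b) = rk K (rg s ∪ rg b'))
    (H : ∀ b₁ b₂ : ι → Ω, Spc (cl K (rg s)) b' b₁ → Spc (cl K (rg s)) b₁ b' →
      Spc (cl K (rg s)) b b₂ → Spc (cl K (rg s)) b₂ b →
      rk K (rg s ∪ rg b ∪ rg b₁) + rk K (rg s) = 2 * rk K (rg s ∪ rg b) →
      rk K (rg s ∪ rg b ∪ rg b₂) + rk K (rg s) = 2 * rk K (rg s ∪ rg b) →
      Spc K (Sum.elim s (Sum.elim b b₁)) (Sum.elim s (Sum.elim b b₂)) ∧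
      Spc K (Sum.elim s (Sum.elim b b₂)) (Sum.elim s (Sum.elim b b₁))) :
    Spc (cl K (rg s)) b b' := by
  classical
  set E := cl K (rg s) with hE
  obtain ⟨b₁, h1, h1', r1⟩ := exists_copy (K := E) (big_cl K hb (rg s)) b' (rg b)
  obtain ⟨b₂, h2, h2', r2⟩ := exists_copy (K := E) (big_cl K hb (rg s)) b (rg b)
  have e0 := rk_cl K (rg s) (rg b)
  have e0' := rk_cl K (rg s) (rg b')
  have e1 := rk_cl K (rg s) (rg b ∪ rg b₁)
  have e2 := rk_cl K (rg s) (rg b ∪ rg b₂)
  rw [← Finset.union_assoc] at e1 e2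
  rw [← hE] at e0 e0' e1 e2
  obtain ⟨H1, H2⟩ := H b₁ b₂ h1 h1' h2 h2' (by omega) (by omega)
  intro p hp
  -- the coefficients
  obtain ⟨e, he⟩ : ∃ e : p.support → Ω, e = fun m => ((coeff m.1 p : E) : Ω) := ⟨_, rfl⟩
  obtain ⟨e', H3, H4⟩ := exists_real_over hb H1 H2 e
  have heE : ∀ x ∈ rg e, x ∈ cl K (rg s) := by
    intro x hx
    obtain ⟨m, _, rfl⟩ := Finset.mem_image.1 hx
    rw [he]
    exact (coeff m.1 p).2
  have he'E : ∀ m, e' m ∈ E := by
    have h3 : Spc K (Sum.elim s e) (Sum.elim s e') := by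
      have := H3.comp (Sum.elim (fun i => Sum.inl (Sum.inl i)) Sum.inr : κ ⊕ p.support → _)
      have u1 : (Sum.elim (Sum.elim s (Sum.elim b b₁)) e) ∘
          (Sum.elim (fun i => Sum.inl (Sum.inl i)) Sum.inr : κ ⊕ p.support → _) =
          Sum.elim s e := by
        funext x
        rcases x with x | x <;> rfl
      have u2 : (Sum.elim (Sum.elim s (Sum.elim b b₂)) e') ∘
          (Sum.elim (fun i => Sum.inl (Sum.inl i)) Sum.inr : κ ⊕ p.support → _) =
          Sum.elim s e' := by
        funext x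
        rcases x with x | x <;> rfl
      rwa [u1, u2] at this
    have h4 := h3.rk_le
    rw [rg_elim, rg_elim, rk_union_of_subset_cl K heE] at h4
    intro m
    exact subset_cl_of_rk_le K h4 (e' m) (Finset.mem_image_of_mem e' (Finset.mem_univ m))
  have hsub1 : Spc K (Sum.elim b e) (Sum.elim b e') := by
    have := H3.comp (Sum.elim (fun i => Sum.inl (Sum.inr (Sum.inl i))) Sum.inr :
      ι ⊕ p.support → _)
    have u1 : (Sum.elim (Sum.elim s (Sum.elim b b₁)) e) ∘
        (Sum.elim (fun i => Sum.inl (Sum.inr (Sum.inl i))) Sum.inr : ι ⊕ p.support → _) =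
        Sum.elim b e := by
      funext x
      rcases x with x | x <;> rfl
    have u2 : (Sum.elim (Sum.elim s (Sum.elim b b₂)) e') ∘
        (Sum.elim (fun i => Sum.inl (Sum.inr (Sum.inl i))) Sum.inr : ι ⊕ p.support → _) =
        Sum.elim b e' := by
      funext x
      rcases x with x | x <;> rfl
    rwa [u1, u2] at this
  have hsub2 : Spc K (Sum.elim b₂ e') (Sum.elim b₁ e) := by
    have := H4.comp (Sum.elim (fun i => Sum.inl (Sum.inr (Sum.inr i))) Sum.inr :
      ι ⊕ p.support → _)
    have u1 : (Sum.elim (Sum.elim s (Sum.elim b b₂)) e') ∘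
        (Sum.elim (fun i => Sum.inl (Sum.inr (Sum.inr i))) Sum.inr : ι ⊕ p.support → _) =
        Sum.elim b₂ e' := by
      funext x
      rcases x with x | x <;> rfl
    have u2 : (Sum.elim (Sum.elim s (Sum.elim b b₁)) e) ∘
        (Sum.elim (fun i => Sum.inl (Sum.inr (Sum.inr i))) Sum.inr : ι ⊕ p.support → _) =
        Sum.elim b₁ e := by
      funext x
      rcases x with x | x <;> rfl
    rwa [u1, u2] at this
  have hpsum : ∑ m : p.support, monomial m.1 (coeff m.1 p) = p := by
    conv_rhs => rw [← support_sum_monomial_coeff p]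
    exact Finset.sum_coe_sort p.support (fun m => monomial m (coeff m p))
  have key : ∀ v : ι → Ω, aeval (Sum.elim v e) (uq32 K p.support) = aeval v p := by
    intro v
    have := uq_aeval32 E p.support (fun m => coeff m.1 p) v
    rw [hpsum] at this
    rw [he]
    exact this
  have key' : ∀ v : ι → Ω, aeval (Sum.elim v e') (uq32 K p.support) =
      aeval v (∑ m : p.support, monomial m.1 (⟨e' m, he'E m⟩ : E)) := fun v =>
    uq_aeval32 E p.support (fun m => (⟨e' m, he'E m⟩ : E)) v
  have s1 : aeval (Sum.elim b e') (uq32 K p.support) = 0 := hsub1 _ (by rw [key, hp])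
  rw [key'] at s1
  have s2 := h2 _ s1
  rw [← key'] at s2
  have s3 := hsub2 _ s2
  rw [key] at s3
  exact h1' p s3

end Pool.Agent.Helper30.RY
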