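import Mathlib
import Pool.Agent.Helper30.RY.Spc

/-!
# Block RY-SPI: specialisations and denominators; matrices

* `Spc.inv`: let `p` be a polynomial in the variables `ι ⊕ Unit` with `p(a, 1/Q(a)) = 0` and let `N` be its
  degree in the last variable.  Then `Q(a)^N p(a, 1/Q(a)) = q(a)` for a polynomial `q` over `K` with
  `q(b) = Q(b)^N p(b, 1/Q(b))`.  `q(a) = 0` implies `q(b) = 0` and `Q(b) ≠ 0`.  (Note that
  `Q(a) ≠ 0` because `Q(b) ≠ 0`.)
* `Spc.inv_matrix`: if `(a, g) ⟶ (b, g')` (square matrices), `g' h' = 1`, `g h = 1`, then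
  `(a, g, h) ⟶ (b, g', h')`: the entries of `h` are those of the adjugate of `g` times `1 / det g`.
* `Spc.of_generic`: a generic point (over `∅`) specialises to every point: `a` is algebraically
  independent over `K`.
-/

namespace Pool.Agent.Helper30.RY

open MvPolynomial

variable {K : Type*} {Ω Ω' : Type*} [Field K] [Field Ω] [Algebra K Ω] [Field Ω'] [Algebra K Ω']
  {ι : Type*}

private theorem clear88 (Q : MvPolynomial ι K) (p : MvPolynomial (ι ⊕ Unit) K) :
    ∃ (N : ℕ) (q : MvPolynomial ι K) (r : MvPolynomial (ι ⊕ Unit) K),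
      rename Sum.inl q = rename Sum.inl Q ^ N * p +
        r * (1 - rename Sum.inl Q * X (Sum.inr ())) := by
  induction p using MvPolynomial.induction_on with
  | C c => exact ⟨0, C c, 0, by rw [rename_C]; ring⟩
  | add p₁ p₂ h₁ h₂ =>
    obtain ⟨N₁, q₁, r₁, e₁⟩ := h₁
    obtain ⟨N₂, q₂, r₂, e₂⟩ := h₂
    refine ⟨N₁ + N₂, Q ^ N₂ * q₁ + Q ^ N₁ * q₂,
      rename Sum.inl Q ^ N₂ * r₁ + rename Sum.inl Q ^ N₁ * r₂, ?_⟩
    rw [map_add, map_mul, map_mul, map_pow, map_pow, e₁, e₂]
    ring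
  | mul_X p i h =>
    obtain ⟨N, q, r, e⟩ := h
    cases i with
    | inl i =>
      refine ⟨N, q * X i, r * X (Sum.inl i), ?_⟩
      rw [map_mul, rename_X, e]
      ring
    | inr u =>
      refine ⟨N + 1, q, r + rename Sum.inl Q ^ N * p, ?_⟩
      rw [e]
      ring

private theorem clear_eval88 {L : Type*} [Field L] [Algebra K L] {Q : MvPolynomial ι K}
    {p : MvPolynomial (ι ⊕ Unit) K} {N : ℕ} {q : MvPolynomial ι K}
    {r : MvPolynomial (ι ⊕ Unit) K} (h : rename Sum.inl q = rename Sum.inl Q ^ N * p +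
      r * (1 - rename Sum.inl Q * X (Sum.inr ()))) (x : ι → L) (hx : aeval x Q ≠ 0) :
    aeval x q = aeval x Q ^ N * aeval (Sum.elim x fun _ : Unit => (aeval x Q)⁻¹) p := by
  have h1 := congrArg (aeval (Sum.elim x fun _ : Unit => (aeval x Q)⁻¹)) h
  have e1 : ∀ f : MvPolynomial ι K,
      aeval (Sum.elim x fun _ : Unit => (aeval x Q)⁻¹) (rename Sum.inl f) = aeval x f := by
    intro f
    rw [aeval_rename]
    rfl
  rw [map_add, map_mul, map_mul, map_pow, map_sub, map_mul, e1, e1, map_one, aeval_X] at h1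
  rw [h1]
  simp only [Sum.elim_inr]
  rw [mul_inv_cancel₀ hx, sub_self, mul_zero, add_zero]

theorem Spc.inv {a : ι → Ω} {b : ι → Ω'} (h : Spc K a b) (Q : MvPolynomial ι K)
    (hQ : aeval b Q ≠ 0) :
    Spc K (Sum.elim a fun _ : Unit => (aeval a Q)⁻¹) (Sum.elim b fun _ : Unit => (aeval b Q)⁻¹) := by
  intro p hp
  have hQa : aeval a Q ≠ 0 := fun h0 => hQ (h Q h0)
  obtain ⟨N, q, r, e⟩ := clear88 Q p
  have h1 := clear_eval88 e a hQa
  have h2 := clear_eval88 e b hQ
  rw [hp, mul_zero] at h1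
  rw [h q h1] at h2
  rcases mul_eq_zero.1 h2.symm with h3 | h3
  · exact absurd h3 (pow_ne_zero N hQ)
  · exact h3

private theorem det88 {L : Type*} [Field L] [Algebra K L] {N : ℕ} (x : ι → L)
    (g : Matrix (Fin N) (Fin N) L) :
    aeval (Sum.elim x fun p : Fin N × Fin N => g p.1 p.2)
      (Matrix.of fun i j => (X (Sum.inr (i, j)) : MvPolynomial (ι ⊕ (Fin N × Fin N)) K)).det =
      g.det := by
  rw [AlgHom.map_det]
  congr 1
  ext i j
  simp

private theorem adj88 {L : Type*} [Field L] [Algebra K L] {N : ℕ} (x : ι → L)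
    (g : Matrix (Fin N) (Fin N) L) (i j : Fin N) :
    aeval (Sum.elim x fun p : Fin N × Fin N => g p.1 p.2)
      ((Matrix.of fun i j =>
        (X (Sum.inr (i, j)) : MvPolynomial (ι ⊕ (Fin N × Fin N)) K)).adjugate i j) =
      g.adjugate i j := by
  have h := AlgHom.map_adjugate (aeval (R := K) (Sum.elim x fun p : Fin N × Fin N => g p.1 p.2))
    (Matrix.of fun i j => (X (Sum.inr (i, j)) : MvPolynomial (ι ⊕ (Fin N × Fin N)) K))
  have h2 := congrFun (congrFun h i) j
  have e : (aeval (R := K) (Sum.elim x fun p : Fin N × Fin N => g p.1 p.2)).mapMatrix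
      (Matrix.of fun i j => (X (Sum.inr (i, j)) : MvPolynomial (ι ⊕ (Fin N × Fin N)) K)) = g := by
    ext i j
    simp
  rw [e] at h2
  exact h2

private theorem inv_eq88 {L : Type*} [Field L] {N : ℕ} {g h : Matrix (Fin N) (Fin N) L}
    (hg : g * h = 1) (i j : Fin N) : h i j = g.det⁻¹ * g.adjugate i j := by
  have h1 : g⁻¹ = h := Matrix.inv_eq_right_inv hg
  rw [← h1, Matrix.inv_def, Ring.inverse_eq_inv', Matrix.smul_apply, smul_eq_mul]

/-- the generic matrix -/
private noncomputable def gm88 (K : Type*) [Field K] (ι : Type*) (N : ℕ) :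
    Matrix (Fin N) (Fin N) (MvPolynomial (ι ⊕ (Fin N × Fin N)) K) :=
  Matrix.of fun i j => X (Sum.inr (i, j))

/-- the polynomials for the entries of a matrix and its inverse -/
private noncomputable def pl88 (K : Type*) [Field K] (ι : Type*) (N : ℕ) :
    ι ⊕ ((Fin N × Fin N) ⊕ (Fin N × Fin N)) → MvPolynomial ((ι ⊕ (Fin N × Fin N)) ⊕ Unit) K :=
  Sum.elim (fun i => X (Sum.inl (Sum.inl i))) (Sum.elim (fun p => X (Sum.inl (Sum.inr p)))
    (fun p => X (Sum.inr ()) * rename Sum.inl ((gm88 K ι N).adjugate p.1 p.2)))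

private theorem key88 {L : Type*} [Field L] [Algebra K L] {N : ℕ} (x : ι → L)
    {g h : Matrix (Fin N) (Fin N) L} (hgh : g * h = 1) :
    (fun j => aeval (Sum.elim (Sum.elim x fun p : Fin N × Fin N => g p.1 p.2)
        fun _ : Unit => (aeval (Sum.elim x fun p : Fin N × Fin N => g p.1 p.2)
          (gm88 K ι N).det)⁻¹) (pl88 K ι N j)) =
      Sum.elim x (Sum.elim (fun p : Fin N × Fin N => g p.1 p.2)
        fun p : Fin N × Fin N => h p.1 p.2) := by
  funext j
  unfold pl88
  rcases j with j | p | p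
  · simp only [Sum.elim_inl, aeval_X]
  · simp only [Sum.elim_inl, Sum.elim_inr, aeval_X]
  · simp only [Sum.elim_inr, map_mul, aeval_X, aeval_rename]
    have e : (Sum.elim (Sum.elim x fun p : Fin N × Fin N => g p.1 p.2)
        fun _ : Unit => (aeval (Sum.elim x fun p : Fin N × Fin N => g p.1 p.2)
          (gm88 K ι N).det)⁻¹) ∘
        Sum.inl = Sum.elim x fun p : Fin N × Fin N => g p.1 p.2 := rfl
    rw [e]
    unfold gm88
    rw [det88, adj88, inv_eq88 hgh]

theorem Spc.inv_matrix {N : ℕ} {a : ι → Ω} {b : ι → Ω'} {g h : Matrix (Fin N) (Fin N) Ω}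
    {g' h' : Matrix (Fin N) (Fin N) Ω'} (hs : Spc K (Sum.elim a fun p : Fin N × Fin N => g p.1 p.2)
      (Sum.elim b fun p : Fin N × Fin N => g' p.1 p.2)) (hg : g * h = 1) (hg' : g' * h' = 1) :
    Spc K (Sum.elim a (Sum.elim (fun p : Fin N × Fin N => g p.1 p.2)
        fun p : Fin N × Fin N => h p.1 p.2))
      (Sum.elim b (Sum.elim (fun p : Fin N × Fin N => g' p.1 p.2)
        fun p : Fin N × Fin N => h' p.1 p.2)) := by
  have hdet : aeval (Sum.elim b fun p : Fin N × Fin N => g' p.1 p.2) (gm88 K ι N).det ≠ 0 := by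
    unfold gm88
    rw [det88]
    intro h0
    have h1 := congrArg Matrix.det hg'
    rw [Matrix.det_mul, h0, zero_mul, Matrix.det_one] at h1
    exact zero_ne_one h1
  have h1 := Spc.inv hs (gm88 K ι N).det hdet
  have h2 := Spc.poly h1 (pl88 K ι N)
  rw [key88 a hg, key88 b hg'] at h2
  exact h2

theorem Spc.of_generic [Fintype ι] [DecidableEq Ω] {a : ι → Ω}
    (ha : rk K (rg a) = Fintype.card ι) (b : ι → Ω') : Spc K a b := by
  intro p hp
  have h1 : rk K (∅ ∪ rg a) = rk K (∅ : Finset Ω) + Fintype.card ι := by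
    rw [Finset.empty_union, rk_empty, zero_add, ha]
  have h2 := algInd_of_generic h1
  have h3 : aeval a (map (algebraMap K (cl K (∅ : Finset Ω))) p) = 0 := by
    rw [aeval_map_algebraMap]
    exact hp
  have h4 := algebraicIndependent_iff.1 h2 _ h3
  have h5 : p = 0 := by
    apply map_injective (algebraMap K (cl K (∅ : Finset Ω)))
      (algebraMap K (cl K (∅ : Finset Ω))).injective
    rw [h4, map_zero]
  rw [h5, map_zero]

end Pool.Agent.Helper30.RY
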