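import Mathlib
import Pool.Agent.Helper30.RY.Act
import Pool.Agent.Helper30.RY.Lam
import Pool.Agent.Helper30.RY.Spi

/-!
# Block RY-NFG: normal forms of configurations on generic hypersurfaces

`v_0, ..., v_{r-1}` are linearly independent vectors, `c` is a form such that for every matrix `h`
whose first `r` columns are the `v_j` the coefficients of `f(h X)` at the monomials in `M₀` vanish, and the
rank of `(c, v)` is the maximal possible one, `N + r (n + 1) - card M₀` (or more), `N = card (Mon n d)`.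

* `nfg_exists`: let `w : {j : Fin (n + 1) // r ≤ j} × Fin (n + 1) → Ω` be generic over `rg c ∪ rgl v`
  (`exists_generic`), and `h` the matrix with columns `v_j` for `j < r` and `w (j, ·)` for `j ≥ r`.  `det h ≠ 0`:
  as a polynomial in `w` it is not zero (the `v_j` can be completed to a basis of `Ω^(n+1)`), its coefficients
  are in `cl K (rgl v)`, use `eval_ne_zero_of_generic`.  Put `g = h⁻¹`.  Let `c' = act h c`; `c = act g c'`
  (`act_act`, `act_one`).  All `c' μ` are in `cl K (rg c ∪ rg h)` and all `c μ` in `cl K (rg c' ∪ rg h)`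
  (`act_mem_cl`; the entries of `g` are in `cl K (rg h)`: adjugate and determinant).  So
  `rk (rg c' ∪ rg h) = rk (rg c ∪ rg h) = rk (rg c ∪ rgl v) + (n + 1 - r) (n + 1)`, which is
  `≥ N - card M₀ + (n + 1)^2`, the number of elements of the tuple; `c' μ = 0` for `μ ∈ M₀` does not contribute;
  `≤` is `rk_le_card` and `Finset.card_image_le`.
* `nfg_type`: take `h`, `g` for `(c, v)` and `h₁`, `g₁` for `(c₁, v₁)`.  The tuples of `nfg_exists` are generic,
  so `Spc.of_generic` (the first specialises to the second); adding the zero coordinates `μ ∈ M₀`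
  (`Spc.poly`): `(act h c, h) ⟶ (act h₁ c₁, h₁)`.  `Spc.inv_matrix` adds the inverse matrices, `spc_act`-like
  (`Spc.poly`, or `spc_act` and reindexing) gives `(c, h) ⟶ (c₁, h₁)`: `c = act g (act h c)` is a polynomial in
  `g` and `act h c`.  Finally restrict to the first `r` columns.
-/

namespace Pool.Agent.Helper30.RY

open MvPolynomial

/-- completing linearly independent vectors -/
private theorem extend26 {F : Type*} [Field F] {V : Type*} [AddCommGroup V] [Module F V]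
    [Module.Finite F V] {N : ℕ} (hN : Module.finrank F V = N) (k : ℕ) :
    ∀ (r : ℕ) (hr : r + k = N) (v : Fin r → V), LinearIndependent F v →
      ∃ b : Fin N → V, LinearIndependent F b ∧ ∀ j : Fin r, b ⟨j, by omega⟩ = v j := by
  induction k with
  | zero =>
    intro r hr v hv
    obtain rfl : r = N := by omega
    exact ⟨v, hv, fun j => rfl⟩
  | succ k ih =>
    intro r hr v hv
    obtain ⟨x, hx⟩ := exists_linearIndependent_snoc_of_lt_finrank hv (by omega)
    obtain ⟨b, hb, hb'⟩ := ih (r + 1) (by omega) _ hx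
    refine ⟨b, hb, fun j => ?_⟩
    have h1 := hb' j.castSucc
    rw [Fin.snoc_castSucc] at h1
    exact h1

private theorem exists_mat26 {F : Type*} [Field F] {N r : ℕ} (hr : r ≤ N) (v : Fin r → Fin N → F)
    (hv : LinearIndependent F v) : ∃ b : Fin N → Fin N → F,
      (Matrix.of fun i j => b j i).det ≠ 0 ∧ ∀ j : Fin r, b (Fin.castLE hr j) = v j := by
  obtain ⟨b, hb, hb'⟩ := extend26 (F := F) (V := Fin N → F) (N := N) (by simp) (N - r) r (by omega) v hv
  refine ⟨b, ?_, hb'⟩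
  have h1 : IsUnit (Matrix.of fun i j => b j i) := by
    rw [← Matrix.linearIndependent_cols_iff_isUnit]
    exact hb
  exact ((Matrix.isUnit_iff_isUnit_det _).1 h1).ne_zero

/-- the entries of the inverse matrix -/
private theorem inv_mem26 {K : Type*} [Field K] {Ω : Type*} [Field Ω] [Algebra K Ω]
    (F : IntermediateField K Ω) {N : ℕ} {h g : Matrix (Fin N) (Fin N) Ω} (hgh : g * h = 1)
    (hhg : h * g = 1) (hh : ∀ i j, h i j ∈ F) (i j : Fin N) : g i j ∈ F := by
  obtain ⟨h', hh'⟩ : ∃ h' : Matrix (Fin N) (Fin N) F, h' = Matrix.of fun i j => ⟨h i j, hh i j⟩ := ⟨_, rfl⟩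
  have h1 : h'.map (algebraMap F Ω) = h := by
    ext i j
    rw [hh']
    rfl
  have h2 : h'.det ≠ 0 := by
    intro h0
    have h3 : (algebraMap F Ω) h'.det = h.det := by
      rw [RingHom.map_det, RingHom.mapMatrix_apply, h1]
    have h4 := congrArg Matrix.det hhg
    rw [Matrix.det_mul, ← h3, h0, map_zero, zero_mul, Matrix.det_one] at h4
    exact zero_ne_one h4
  have h3 : h' * h'⁻¹ = 1 := Matrix.mul_nonsing_inv _ (isUnit_iff_ne_zero.2 h2)
  have h4 : h * (h'⁻¹).map (algebraMap F Ω) = 1 := by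
    have h5 := congrArg (fun M => M.map (algebraMap F Ω)) h3
    simp only [Matrix.map_mul] at h5
    rw [h1] at h5
    rw [h5]
    exact Matrix.map_one _ (map_zero _) (map_one _)
  have h5 : g = (h'⁻¹).map (algebraMap F Ω) := by
    calc g = g * (h * (h'⁻¹).map (algebraMap F Ω)) := by rw [h4, mul_one]
      _ = (g * h) * (h'⁻¹).map (algebraMap F Ω) := (mul_assoc _ _ _).symm
      _ = _ := by rw [hgh, one_mul]
  rw [h5]
  exact (h'⁻¹ i j).2

private theorem mem_rg26 {W : Type*} [DecidableEq W] {κ : Type*} [Fintype κ] (a : κ → W) (i : κ) :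
    a i ∈ rg a :=
  Finset.mem_image_of_mem _ (Finset.mem_univ i)

private theorem mem_rgl26 {W : Type*} [DecidableEq W] {κ : Type*} [Fintype κ] {σ : ℕ}
    (lam : Fin σ → κ → W) (i : Fin σ) (m : κ) : lam i m ∈ rgl lam :=
  Finset.mem_biUnion.2 ⟨i, Finset.mem_univ i, mem_rg26 _ m⟩

private theorem of_rgl26 {W : Type*} [DecidableEq W] {κ : Type*} [Fintype κ] {σ : ℕ}
    {lam : Fin σ → κ → W} {x : W} (h : x ∈ rgl lam) : ∃ i m, lam i m = x := by
  obtain ⟨i, _, hi⟩ := Finset.mem_biUnion.1 h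
  obtain ⟨m, _, hm⟩ := Finset.mem_image.1 hi
  exact ⟨i, m, hm⟩

/-- the matrix with the given first columns and the remaining columns `w` -/
private def mt26 {W : Type*} {N r : ℕ} (v : Fin r → Fin N → W)
    (w : {j : Fin N // r ≤ (j : ℕ)} × Fin N → W) : Matrix (Fin N) (Fin N) W :=
  Matrix.of fun i j => if hj : (j : ℕ) < r then v ⟨j, hj⟩ i else w (⟨j, not_lt.1 hj⟩, i)

private theorem mt_col26 {W : Type*} {N r : ℕ} (hr : r ≤ N) (v : Fin r → Fin N → W)
    (w : {j : Fin N // r ≤ (j : ℕ)} × Fin N → W) (j : Fin r) (i : Fin N) :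
    mt26 v w i (Fin.castLE hr j) = v j i := by
  unfold mt26
  rw [Matrix.of_apply, dif_pos (show ((Fin.castLE hr j : Fin N) : ℕ) < r from j.2)]
  rfl

private theorem mt_map26 {A B : Type*} [CommRing A] [CommRing B] (φ : A →+* B) {N r : ℕ}
    (v : Fin r → Fin N → A) (w : {j : Fin N // r ≤ (j : ℕ)} × Fin N → A) :
    (mt26 v w).map φ = mt26 (fun j i => φ (v j i)) (fun p => φ (w p)) := by
  ext i j
  unfold mt26
  rw [Matrix.map_apply, Matrix.of_apply, Matrix.of_apply]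
  split_ifs <;> rfl

/-- the determinant does not vanish for generic `w` -/
private theorem det_ne26 {K : Type*} [Field K] {Ω : Type*} [Field Ω] [Algebra K Ω] [DecidableEq Ω]
    {N r : ℕ} (hr : r ≤ N) {S : Finset Ω} (v : Fin r → Fin N → Ω) (hv : LinearIndependent Ω v)
    (hvS : ∀ j i, v j i ∈ cl K S) {w : {j : Fin N // r ≤ (j : ℕ)} × Fin N → Ω}
    (hw : rk K (S ∪ rg w) = rk K S + Fintype.card ({j : Fin N // r ≤ (j : ℕ)} × Fin N)) :
    (mt26 v w).det ≠ 0 := by
  obtain ⟨p', hp'⟩ : ∃ p' : MvPolynomial ({j : Fin N // r ≤ (j : ℕ)} × Fin N) (cl K S),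
      p' = (mt26 (fun j i => C ⟨v j i, hvS j i⟩) fun q => X q).det := ⟨_, rfl⟩
  have hev : ∀ w' : {j : Fin N // r ≤ (j : ℕ)} × Fin N → Ω,
      eval w' (map (algebraMap (cl K S) Ω) p') = (mt26 v w').det := by
    intro w'
    rw [hp', RingHom.map_det, RingHom.map_det, RingHom.mapMatrix_apply, RingHom.mapMatrix_apply, mt_map26,
      mt_map26]
    congr 2
    · funext j i
      rw [map_C, eval_C]
      rfl
    · funext q
      rw [map_X, eval_X]
  obtain ⟨b, hb, hb'⟩ := exists_mat26 hr v hv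
  rw [← hev]
  refine eval_ne_zero_of_generic hw _ ?_ (fun m => ?_)
  · intro h0
    apply hb
    have h1 := hev fun q => b q.1.1 q.2
    rw [h0, map_zero] at h1
    have h2 : (Matrix.of fun i j => b j i) = mt26 v fun q => b q.1.1 q.2 := by
      ext i j
      unfold mt26
      rw [Matrix.of_apply, Matrix.of_apply]
      split_ifs with hj
      · rw [← hb' ⟨j, hj⟩]
        rfl
      · rfl
    rw [h2, ← h1]
  · rw [coeff_map]
    exact (coeff m p').2

variable {K : Type*} [Field K] {Ω : Type*} [Field Ω] [Algebra K Ω] [IsAlgClosed Ω]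
  [DecidableEq Ω] {n d : ℕ}

omit [IsAlgClosed Ω] in
theorem nfg_exists (hb : Big K Ω) {r : ℕ} (hr : r ≤ n + 1) (M₀ : Finset (Mon n d))
    (c : Mon n d → Ω) (v : Fin r → Fin (n + 1) → Ω) (hv : LinearIndependent Ω v)
    (hM : ∀ h : Matrix (Fin (n + 1)) (Fin (n + 1)) Ω,
      (∀ (j : Fin r) (i : Fin (n + 1)), h i (Fin.castLE hr j) = v j i) →
      ∀ μ ∈ M₀, act h c μ = 0)
    (hrk : Fintype.card (Mon n d) + r * (n + 1) ≤ rk K (rg c ∪ rgl v) + M₀.card) :
    ∃ h g : Matrix (Fin (n + 1)) (Fin (n + 1)) Ω, h * g = 1 ∧ g * h = 1 ∧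
      (∀ (j : Fin r) (i : Fin (n + 1)), h i (Fin.castLE hr j) = v j i) ∧
      rk K (rg (Sum.elim (fun μ : {μ : Mon n d // μ ∉ M₀} => act h c μ.1)
        fun p : Fin (n + 1) × Fin (n + 1) => h p.1 p.2)) =
        Fintype.card ({μ : Mon n d // μ ∉ M₀} ⊕ (Fin (n + 1) × Fin (n + 1))) := by
  classical
  obtain ⟨w, hw⟩ := exists_generic K hb (rg c ∪ rgl v) ({j : Fin (n + 1) // r ≤ (j : ℕ)} × Fin (n + 1))
  obtain ⟨h, hh⟩ : ∃ h, h = mt26 v w := ⟨_, rfl⟩
  have hvS : ∀ j i, v j i ∈ cl K (rg c ∪ rgl v) := fun j i =>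
    subset_cl K _ _ (Finset.mem_union_right _ (mem_rgl26 v j i))
  have hdet : h.det ≠ 0 := by
    rw [hh]
    exact det_ne26 hr v hv hvS hw
  have hu : IsUnit h.det := isUnit_iff_ne_zero.2 hdet
  have hhg : h * h⁻¹ = 1 := Matrix.mul_nonsing_inv _ hu
  have hgh : h⁻¹ * h = 1 := Matrix.nonsing_inv_mul _ hu
  have hcol : ∀ (j : Fin r) (i : Fin (n + 1)), h i (Fin.castLE hr j) = v j i := by
    intro j i
    rw [hh]
    exact mt_col26 hr v w j i
  refine ⟨h, h⁻¹, hhg, hgh, hcol, ?_⟩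
  obtain ⟨T, hT⟩ : ∃ T, T = (Sum.elim (fun μ : {μ : Mon n d // μ ∉ M₀} => act h c μ.1)
        fun p : Fin (n + 1) × Fin (n + 1) => h p.1 p.2) := ⟨_, rfl⟩
  rw [← hT]
  have hTh : ∀ i j, h i j ∈ cl K (rg T) := by
    intro i j
    refine subset_cl K _ _ ?_
    have h1 := mem_rg26 T (Sum.inr (i, j))
    rw [hT] at h1 ⊢
    exact h1
  have hTc : ∀ μ, act h c μ ∈ cl K (rg T) := by
    intro μ
    by_cases hμ : μ ∈ M₀
    · rw [hM h hcol μ hμ]
      exact zero_mem _
    · refine subset_cl K _ _ ?_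
      have h1 := mem_rg26 T (Sum.inl ⟨μ, hμ⟩)
      rw [hT] at h1 ⊢
      exact h1
  have hTg : ∀ i j, h⁻¹ i j ∈ cl K (rg T) := inv_mem26 _ hgh hhg hTh
  have hc1 : ∀ μ, c μ ∈ cl K (rg T) := by
    intro μ
    have h1 : act h⁻¹ (act h c) = c := by rw [act_act, hhg, act_one]
    rw [← h1]
    exact act_mem_cl hTg hTc μ
  have hsub : ∀ x ∈ (rg c ∪ rgl v) ∪ rg w, x ∈ cl K (rg T) := by
    intro x hx
    rcases Finset.mem_union.1 hx with hx | hx
    · rcases Finset.mem_union.1 hx with hx | hx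
      · obtain ⟨μ, _, rfl⟩ := Finset.mem_image.1 hx
        exact hc1 μ
      · obtain ⟨j, i, rfl⟩ := of_rgl26 hx
        rw [← hcol j i]
        exact hTh _ _
    · obtain ⟨⟨⟨j, hj⟩, i⟩, _, rfl⟩ := Finset.mem_image.1 hx
      have h1 : h i j = w (⟨j, hj⟩, i) := by
        rw [hh]
        unfold mt26
        rw [Matrix.of_apply, dif_neg (not_lt.2 hj)]
      rw [← h1]
      exact hTh _ _
  have h1 := rk_le_of_subset_cl K hsub
  rw [hw] at h1
  have h2 : rk K (rg T) ≤ Fintype.card ({μ : Mon n d // μ ∉ M₀} ⊕ (Fin (n + 1) × Fin (n + 1))) :=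
    (rk_le_card K _).trans (Finset.card_image_le)
  refine le_antisymm h2 ?_
  rw [Fintype.card_sum, Fintype.card_prod, Fintype.card_fin]
  rw [Fintype.card_prod, Fintype.card_fin] at h1
  have h3 : Fintype.card {μ : Mon n d // μ ∉ M₀} = Fintype.card (Mon n d) - M₀.card := by
    rw [Fintype.card_of_subtype (Finset.univ \ M₀) (fun x => by simp), Finset.card_univ_sdiff]
  have h4 : Fintype.card {j : Fin (n + 1) // r ≤ (j : ℕ)} = n + 1 - r := by
    rw [Fintype.card_of_subtype (Finset.univ.filter fun j : Fin (n + 1) => r ≤ (j : ℕ)) (fun x => by simp)]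
    have h5 : (Finset.univ.filter fun j : Fin (n + 1) => r ≤ (j : ℕ)).card =
        (Finset.Ico r (n + 1)).card := by
      refine Finset.card_bij (fun j _ => (j : ℕ)) (fun j hj => ?_) (fun a _ b _ hab => Fin.ext hab)
        (fun b hb => ?_)
      · rw [Finset.mem_filter] at hj
        rw [Finset.mem_Ico]
        exact ⟨hj.2, j.2⟩
      · rw [Finset.mem_Ico] at hb
        exact ⟨⟨b, hb.2⟩, by simp [hb.1], rfl⟩
    rw [h5, Nat.card_Ico]
  have h5 : M₀.card ≤ Fintype.card (Mon n d) := Finset.card_le_univ M₀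
  rw [h4] at h1
  rw [h3]
  have h6 : (n + 1 - r) * (n + 1) + r * (n + 1) = (n + 1) * (n + 1) := by
    rw [← add_mul]
    congr 1
    omega
  omega

omit [IsAlgClosed Ω] in
theorem nfg_type (hb : Big K Ω) {r : ℕ} (hr : r ≤ n + 1) (M₀ : Finset (Mon n d))
    (c c₁ : Mon n d → Ω) (v v₁ : Fin r → Fin (n + 1) → Ω) (hv : LinearIndependent Ω v)
    (hv₁ : LinearIndependent Ω v₁)
    (hM : ∀ h : Matrix (Fin (n + 1)) (Fin (n + 1)) Ω,
      (∀ (j : Fin r) (i : Fin (n + 1)), h i (Fin.castLE hr j) = v j i) →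
      ∀ μ ∈ M₀, act h c μ = 0)
    (hM₁ : ∀ h : Matrix (Fin (n + 1)) (Fin (n + 1)) Ω,
      (∀ (j : Fin r) (i : Fin (n + 1)), h i (Fin.castLE hr j) = v₁ j i) →
      ∀ μ ∈ M₀, act h c₁ μ = 0)
    (hrk : Fintype.card (Mon n d) + r * (n + 1) ≤ rk K (rg c ∪ rgl v) + M₀.card)
    (hrk₁ : Fintype.card (Mon n d) + r * (n + 1) ≤ rk K (rg c₁ ∪ rgl v₁) + M₀.card) :
    Spc K (Sum.elim c fun p : Fin r × Fin (n + 1) => v p.1 p.2)
      (Sum.elim c₁ fun p : Fin r × Fin (n + 1) => v₁ p.1 p.2) := by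
  classical
  obtain ⟨h, g, hhg, hgh, hcol, hT⟩ := nfg_exists hb hr M₀ c v hv hM hrk
  obtain ⟨h₁, g₁, hhg₁, hgh₁, hcol₁, hT₁⟩ := nfg_exists hb hr M₀ c₁ v₁ hv₁ hM₁ hrk₁
  have e1 := Spc.of_generic (K := K) hT (Sum.elim (fun μ : {μ : Mon n d // μ ∉ M₀} => act h₁ c₁ μ.1)
        fun p : Fin (n + 1) × Fin (n + 1) => h₁ p.1 p.2)
  have e2 := Spc.poly e1 (Sum.elim
    (fun μ : Mon n d => if hμ : μ ∈ M₀ then (0 : MvPolynomial ({μ : Mon n d // μ ∉ M₀} ⊕
      (Fin (n + 1) × Fin (n + 1))) K) else X (Sum.inl ⟨μ, hμ⟩))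
    fun q : Fin (n + 1) × Fin (n + 1) => X (Sum.inr q))
  have key : ∀ (c : Mon n d → Ω) (h : Matrix (Fin (n + 1)) (Fin (n + 1)) Ω),
      (∀ μ ∈ M₀, act h c μ = 0) → (fun j => aeval (Sum.elim (fun μ : {μ : Mon n d // μ ∉ M₀} => act h c μ.1)
        fun p : Fin (n + 1) × Fin (n + 1) => h p.1 p.2) ((Sum.elim
    (fun μ : Mon n d => if hμ : μ ∈ M₀ then (0 : MvPolynomial ({μ : Mon n d // μ ∉ M₀} ⊕
      (Fin (n + 1) × Fin (n + 1))) K) else X (Sum.inl ⟨μ, hμ⟩))
    fun q : Fin (n + 1) × Fin (n + 1) => X (Sum.inr q)) j)) =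
      Sum.elim (act h c) fun p : Fin (n + 1) × Fin (n + 1) => h p.1 p.2 := by
    intro c h h0
    funext j
    rcases j with μ | q
    · simp only [Sum.elim_inl]
      split_ifs with hμ
      · rw [map_zero, h0 μ hμ]
      · rw [aeval_X, Sum.elim_inl]
    · simp only [Sum.elim_inr, aeval_X]
  rw [key c h (hM h hcol), key c₁ h₁ (hM₁ h₁ hcol₁)] at e2
  have e3 := Spc.inv_matrix e2 hhg hhg₁
  have e4 := Spc.poly e3 (Sum.elim
    (fun μ : Mon n d => act (Matrix.of fun i j => (X (Sum.inr (Sum.inr (i, j))) : MvPolynomial (Mon n d ⊕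
      ((Fin (n + 1) × Fin (n + 1)) ⊕ (Fin (n + 1) × Fin (n + 1)))) K)) (fun m => X (Sum.inl m)) μ)
    fun q : Fin r × Fin (n + 1) => X (Sum.inr (Sum.inl (q.2, Fin.castLE hr q.1))))
  have key2 : ∀ (c : Mon n d → Ω) (h g : Matrix (Fin (n + 1)) (Fin (n + 1)) Ω)
      (v : Fin r → Fin (n + 1) → Ω), h * g = 1 →
      (∀ (j : Fin r) (i : Fin (n + 1)), h i (Fin.castLE hr j) = v j i) →
      (fun j => aeval (Sum.elim (act h c) (Sum.elim (fun p : Fin (n + 1) × Fin (n + 1) => h p.1 p.2)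
        fun p : Fin (n + 1) × Fin (n + 1) => g p.1 p.2)) ((Sum.elim
    (fun μ : Mon n d => act (Matrix.of fun i j => (X (Sum.inr (Sum.inr (i, j))) : MvPolynomial (Mon n d ⊕
      ((Fin (n + 1) × Fin (n + 1)) ⊕ (Fin (n + 1) × Fin (n + 1)))) K)) (fun m => X (Sum.inl m)) μ)
    fun q : Fin r × Fin (n + 1) => X (Sum.inr (Sum.inl (q.2, Fin.castLE hr q.1)))) j)) =
      Sum.elim c fun p : Fin r × Fin (n + 1) => v p.1 p.2 := by
    intro c h g v hhg hcol
    funext j
    rcases j with μ | q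
    · simp only [Sum.elim_inl]
      have h1 := act_map (aeval (Sum.elim (act h c) (Sum.elim (fun p : Fin (n + 1) × Fin (n + 1) => h p.1 p.2)
        fun p : Fin (n + 1) × Fin (n + 1) => g p.1 p.2)) : MvPolynomial (Mon n d ⊕
      ((Fin (n + 1) × Fin (n + 1)) ⊕ (Fin (n + 1) × Fin (n + 1)))) K →ₐ[K] Ω).toRingHom
        (Matrix.of fun i j => (X (Sum.inr (Sum.inr (i, j))) : MvPolynomial (Mon n d ⊕
      ((Fin (n + 1) × Fin (n + 1)) ⊕ (Fin (n + 1) × Fin (n + 1)))) K)) (fun m => X (Sum.inl m)) μ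
      refine Eq.trans h1 ?_
      have h2 : (Matrix.of fun i j => (X (Sum.inr (Sum.inr (i, j))) : MvPolynomial (Mon n d ⊕
        ((Fin (n + 1) × Fin (n + 1)) ⊕ (Fin (n + 1) × Fin (n + 1)))) K)).map
        (aeval (Sum.elim (act h c) (Sum.elim (fun p : Fin (n + 1) × Fin (n + 1) => h p.1 p.2)
        fun p : Fin (n + 1) × Fin (n + 1) => g p.1 p.2)) : MvPolynomial (Mon n d ⊕
      ((Fin (n + 1) × Fin (n + 1)) ⊕ (Fin (n + 1) × Fin (n + 1)))) K →ₐ[K] Ω).toRingHom = g := by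
        ext i j
        rw [Matrix.map_apply, Matrix.of_apply]
        exact aeval_X _ _
      have h3 : (fun m => (aeval (Sum.elim (act h c) (Sum.elim (fun p : Fin (n + 1) × Fin (n + 1) => h p.1 p.2)
        fun p : Fin (n + 1) × Fin (n + 1) => g p.1 p.2)) : MvPolynomial (Mon n d ⊕
      ((Fin (n + 1) × Fin (n + 1)) ⊕ (Fin (n + 1) × Fin (n + 1)))) K →ₐ[K] Ω).toRingHom
        (X (Sum.inl m) : MvPolynomial (Mon n d ⊕
      ((Fin (n + 1) × Fin (n + 1)) ⊕ (Fin (n + 1) × Fin (n + 1)))) K)) = act h c := by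
        funext m
        exact aeval_X _ _
      rw [h2, h3, act_act, hhg, act_one]
    · simp only [Sum.elim_inr, Sum.elim_inl, aeval_X]
      exact hcol _ _
  rw [key2 c h g v hhg hcol, key2 c₁ h₁ g₁ v₁ hhg₁ hcol₁] at e4
  exact e4

end Pool.Agent.Helper30.RY
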