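import Mathlib
import Pool.Agent.Helper30.RY.Nfg
import Pool.Agent.Helper30.RY.Cln
import Pool.Agent.Helper30.RY.Fsq
import Pool.Agent.Helper30.RY.Bcl
import Pool.Agent.Helper30.RY.Hqd

/-!
# Block RY-GPL: points and lines on a generic hypersurface are of unique type

`rk k (rg c) = N`.  `S ∪ rg z` etc. denote unions of finite sets.

* `li_two`, `li_three`: if `z ≠ 0` and `rk (S ∪ rg z ∪ rg y) ≥ rk (S ∪ rg z) + 2` then `z, y` are linearly
  independent: otherwise `y = t z` and `rk (S ∪ rg z ∪ rg y) ≤ rk (S ∪ rg z ∪ {t}) ≤ rk (S ∪ rg z) + 1`.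
  In the same way for three vectors, with `y' = t z + u y`.
* `gen_pts`: `fibre_square` over `k` with `s = c`, `b = z`, `b' = z'`: given `b₁ ~ z'` and `b₂ ~ z` over
  `cl k (rg c)` one has `fm c (b_i) = 0` (`eval_spc` over `cl k (rg c)` with `c₀ μ = c μ`, `bc Ω c₀ = c`), and
  `rk (rg c ∪ rg z ∪ rg b_i) = 2 (N + n) - N = N + 2 n`.  `li_two` (`n ≥ 2`), `nfg_type` with `r = 2`,
  `v = ![z, b_i]`, `M₀ = {x_0^d, x_1^d}` (`act_pow`, `mp_injective`).
* `gen_lines`: `fibre_square` over `k` with `s = Sum.elim c z`, `b = y`, `b' = y'`: for the lines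
  `ln z b_i` one has (`van_spc` over `E = cl k (rg s)` for the curve `ln z b`; all coordinates of `z` and
  of `c` are in `E`: `spc_const`) `Van c (ln z b_i) 1`, and `rk (rg s ∪ rg y ∪ rg b_i) = 2 (N + n + m) - (N + n)
  = N + n + 2 m`.  `li_three` (`m ≥ 3`), `nfg_type` with `r = 3`, `v = ![z, y, b_i]`,
  `M₀ = lnM 1 ∪ lnM 2` (`act_line`, `card_lnM_union`); `N + 3 (n + 1) = N + n + 2 m + 2 d + 1`.
-/

namespace Pool.Agent.Helper30.RY

open MvPolynomial

set_option linter.unusedSectionVars false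

variable {k : Type*} [Field k] {Ω : Type*} [Field Ω] [Algebra k Ω] [IsAlgClosed Ω]
  [DecidableEq Ω] {n d m : ℕ}

omit [IsAlgClosed Ω] in
private theorem mem_rg61 {ι : Type*} [Fintype ι] (a : ι → Ω) (i : ι) : a i ∈ rg a :=
  Finset.mem_image_of_mem _ (Finset.mem_univ i)

omit [IsAlgClosed Ω] in
private theorem rgl_two61 (z y : Fin (n + 1) → Ω) : rgl ![z, y] = rg z ∪ rg y := by
  ext x
  unfold rgl
  simp only [Finset.mem_biUnion, Finset.mem_univ, true_and, Finset.mem_union]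
  constructor
  · rintro ⟨i, hi⟩
    fin_cases i
    · exact Or.inl hi
    · exact Or.inr hi
  · rintro (h | h)
    · exact ⟨0, h⟩
    · exact ⟨1, h⟩

omit [IsAlgClosed Ω] in
private theorem rgl_three61 (z y w : Fin (n + 1) → Ω) :
    rgl ![z, y, w] = rg z ∪ rg y ∪ rg w := by
  ext x
  unfold rgl
  simp only [Finset.mem_biUnion, Finset.mem_univ, true_and, Finset.mem_union]
  constructor
  · rintro ⟨i, hi⟩
    fin_cases i
    · exact Or.inl (Or.inl hi)
    · exact Or.inl (Or.inr hi)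
    · exact Or.inr hi
  · rintro ((h | h) | h)
    · exact ⟨0, h⟩
    · exact ⟨1, h⟩
    · exact ⟨2, h⟩

theorem li_two {S : Finset Ω} {z y : Fin (n + 1) → Ω} (hz : z ≠ 0)
    (h : rk k (S ∪ rg z) + 2 ≤ rk k (S ∪ rg z ∪ rg y)) : LinearIndependent Ω ![z, y] := by
  rw [LinearIndependent.pair_iff' hz]
  intro t ht
  have h1 : ∀ x ∈ S ∪ rg z ∪ rg y, x ∈ cl k (S ∪ rg z ∪ {t}) := by
    intro x hx
    rcases Finset.mem_union.1 hx with hx | hx
    · exact subset_cl k _ x (Finset.mem_union_left _ hx)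
    · obtain ⟨i, _, rfl⟩ := Finset.mem_image.1 hx
      rw [← ht]
      refine mul_mem (subset_cl k _ _ ?_) (subset_cl k _ _ ?_)
      · exact Finset.mem_union_right _ (Finset.mem_singleton_self t)
      · exact Finset.mem_union_left _ (Finset.mem_union_right _ (mem_rg61 z i))
  have h2 := rk_le_of_subset_cl k h1
  have h3 := rk_union_le_card k (S ∪ rg z) {t}
  rw [Finset.card_singleton] at h3
  omega

theorem li_three {S : Finset Ω} {z y y' : Fin (n + 1) → Ω} (hz : z ≠ 0)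
    (h : rk k (S ∪ rg z) + 2 ≤ rk k (S ∪ rg z ∪ rg y))
    (h' : rk k (S ∪ rg z ∪ rg y) + 3 ≤ rk k (S ∪ rg z ∪ rg y ∪ rg y')) :
    LinearIndependent Ω ![z, y, y'] := by
  have hzy := li_two hz h
  rw [LinearIndependent.pair_iff] at hzy
  rw [Fintype.linearIndependent_iff]
  intro g hg
  rw [Fin.sum_univ_three] at hg
  have hg' : g 0 • z + g 1 • y + g 2 • y' = 0 := hg
  have h2 : g 2 = 0 := by
    by_contra hne
    have e1 : ∀ i, y' i = -(g 0 / g 2) * z i + -(g 1 / g 2) * y i := by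
      intro i
      have h4 : g 0 * z i + g 1 * y i + g 2 * y' i = 0 := congrFun hg' i
      field_simp
      linear_combination h4
    have h1 : ∀ x ∈ S ∪ rg z ∪ rg y ∪ rg y',
        x ∈ cl k (S ∪ rg z ∪ rg y ∪ {g 0 / g 2, g 1 / g 2}) := by
      intro x hx
      rcases Finset.mem_union.1 hx with hx | hx
      · exact subset_cl k _ x (Finset.mem_union_left _ hx)
      · obtain ⟨i, _, rfl⟩ := Finset.mem_image.1 hx
        rw [e1]
        refine add_mem (mul_mem (neg_mem (subset_cl k _ _ ?_)) (subset_cl k _ _ ?_))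
          (mul_mem (neg_mem (subset_cl k _ _ ?_)) (subset_cl k _ _ ?_))
        · exact Finset.mem_union_right _ (Finset.mem_insert_self _ _)
        · exact Finset.mem_union_left _ (Finset.mem_union_left _
            (Finset.mem_union_right _ (mem_rg61 z i)))
        · exact Finset.mem_union_right _ (Finset.mem_insert_of_mem (Finset.mem_singleton_self _))
        · exact Finset.mem_union_left _ (Finset.mem_union_right _ (mem_rg61 y i))
    have h3 := rk_le_of_subset_cl k h1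
    have h4 := rk_union_le_card k (S ∪ rg z ∪ rg y) {g 0 / g 2, g 1 / g 2}
    have h5 : ({g 0 / g 2, g 1 / g 2} : Finset Ω).card ≤ 2 := Finset.card_le_two
    omega
  rw [h2, zero_smul, add_zero] at hg'
  obtain ⟨h3, h4⟩ := hzy _ _ hg'
  intro i
  fin_cases i
  · exact h3
  · exact h4
  · exact h2

theorem gen_pts (hb : Big k Ω) (hd : 1 ≤ d) (hn : 2 ≤ n) {c : Mon n d → Ω}
    (hc : rk k (rg c) = Fintype.card (Mon n d)) {z z' : Fin (n + 1) → Ω}
    (h0 : eval z (fm c) = 0) (h0' : eval z' (fm c) = 0)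
    (hr : rk k (rg c ∪ rg z) = Fintype.card (Mon n d) + n)
    (hr' : rk k (rg c ∪ rg z') = Fintype.card (Mon n d) + n) :
    Spc (cl k (rg c)) z z' := by
  classical
  have hcE : ∀ μ, c μ ∈ cl k (rg c) := fun μ => subset_cl k _ _ (mem_rg61 c μ)
  have hz : z ≠ 0 := by
    rintro rfl
    have h1 : rk k (rg c ∪ rg (0 : Fin (n + 1) → Ω)) = rk k (rg c) := by
      refine rk_union_of_subset_cl k fun x hx => ?_
      obtain ⟨i, _, rfl⟩ := Finset.mem_image.1 hx
      exact zero_mem _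
    omega
  have hr2 : 2 ≤ n + 1 := by omega
  have h10 : (Fin.castLE hr2 1 : Fin (n + 1)) ≠ 0 := by
    intro h
    have := congrArg Fin.val h
    simp at this
  have key : ∀ b₁ b₂ : Fin (n + 1) → Ω, eval b₁ (fm c) = 0 → eval b₂ (fm c) = 0 →
      rk k (rg c ∪ rg z ∪ rg b₁) + rk k (rg c) = 2 * rk k (rg c ∪ rg z) →
      rk k (rg c ∪ rg z ∪ rg b₂) + rk k (rg c) = 2 * rk k (rg c ∪ rg z) →
      Spc k (Sum.elim c (Sum.elim z b₁)) (Sum.elim c (Sum.elim z b₂)) := by
    intro b₁ b₂ hb₁ hb₂ r1 r2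
    have hcard : ({mp n d 0, mp n d (Fin.castLE hr2 1)} : Finset (Mon n d)).card = 2 :=
      Finset.card_pair fun h => h10 (mp_injective hd h).symm
    have hM : ∀ w : Fin (n + 1) → Ω, eval w (fm c) = 0 →
        ∀ h : Matrix (Fin (n + 1)) (Fin (n + 1)) Ω,
        (∀ (j : Fin 2) (i : Fin (n + 1)), h i (Fin.castLE hr2 j) = ![z, w] j i) →
        ∀ μ ∈ ({mp n d 0, mp n d (Fin.castLE hr2 1)} : Finset (Mon n d)), act h c μ = 0 := by
      intro w hw h hh μ hμ
      rw [Finset.mem_insert, Finset.mem_singleton] at hμ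
      rcases hμ with rfl | rfl
      · rw [act_pow]
        have e1 : (fun i => h i 0) = z := funext fun i => hh 0 i
        rw [e1, h0]
      · rw [act_pow]
        have e1 : (fun i => h i (Fin.castLE hr2 1)) = w := funext fun i => hh 1 i
        rw [e1, hw]
    have hrk : ∀ w : Fin (n + 1) → Ω,
        rk k (rg c ∪ rg z ∪ rg w) + rk k (rg c) = 2 * rk k (rg c ∪ rg z) →
        Fintype.card (Mon n d) + 2 * (n + 1) ≤ rk k (rg c ∪ rgl ![z, w]) +
          ({mp n d 0, mp n d (Fin.castLE hr2 1)} : Finset (Mon n d)).card := by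
      intro w hw
      rw [hcard, rgl_two61, ← Finset.union_assoc]
      omega
    have hli : ∀ w : Fin (n + 1) → Ω,
        rk k (rg c ∪ rg z ∪ rg w) + rk k (rg c) = 2 * rk k (rg c ∪ rg z) →
        LinearIndependent Ω ![z, w] := fun w hw => li_two hz (S := rg c) (k := k) (by omega)
    have h1 := nfg_type hb hr2 {mp n d 0, mp n d (Fin.castLE hr2 1)} c c ![z, b₁] ![z, b₂]
      (hli b₁ r1) (hli b₂ r2) (hM b₁ hb₁) (hM b₂ hb₂) (hrk b₁ r1) (hrk b₂ r2)
    have h2 := h1.comp (Sum.elim Sum.inl (Sum.elim (fun i => Sum.inr ((0 : Fin 2), i))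
      (fun i => Sum.inr ((1 : Fin 2), i))) :
      Mon n d ⊕ (Fin (n + 1) ⊕ Fin (n + 1)) → Mon n d ⊕ (Fin 2 × Fin (n + 1)))
    have e2 : ∀ w : Fin (n + 1) → Ω, (Sum.elim c fun p : Fin 2 × Fin (n + 1) => ![z, w] p.1 p.2) ∘
        (Sum.elim Sum.inl (Sum.elim (fun i => Sum.inr ((0 : Fin 2), i))
          (fun i => Sum.inr ((1 : Fin 2), i))) :
          Mon n d ⊕ (Fin (n + 1) ⊕ Fin (n + 1)) → Mon n d ⊕ (Fin 2 × Fin (n + 1))) =
        Sum.elim c (Sum.elim z w) := by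
      intro w
      funext x
      rcases x with x | x | x <;> rfl
    rw [e2, e2] at h2
    exact h2
  have hbc : bc Ω (fun μ => (⟨c μ, hcE μ⟩ : cl k (rg c))) = c := rfl
  refine fibre_square hb c z z' (hr.trans hr'.symm) fun b₁ b₂ h1 h1' h2 h2' r1 r2 => ?_
  have hb₁ : eval b₁ (fm c) = 0 := by
    have h3 := eval_spc (c₀ := fun μ => (⟨c μ, hcE μ⟩ : cl k (rg c))) h1 (by rw [hbc]; exact h0')
    rwa [hbc] at h3
  have hb₂ : eval b₂ (fm c) = 0 := by
    have h3 := eval_spc (c₀ := fun μ => (⟨c μ, hcE μ⟩ : cl k (rg c))) h2 (by rw [hbc]; exact h0)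
    rwa [hbc] at h3
  exact ⟨key b₁ b₂ hb₁ hb₂ r1 r2, key b₂ b₁ hb₂ hb₁ r2 r1⟩

theorem gen_lines (hb : Big k Ω) (hm : 3 ≤ m) (hmd : m + d = n + 1) (hn : 2 ≤ n)
    {c : Mon n d → Ω}
    (hc : rk k (rg c) = Fintype.card (Mon n d)) {z y y' : Fin (n + 1) → Ω} (hz : z ≠ 0)
    (hV : Van c (ln z y) 1) (hV' : Van c (ln z y') 1)
    (hrz : rk k (rg c ∪ rg z) = Fintype.card (Mon n d) + n)
    (hr : rk k (rg c ∪ rg z ∪ rg y) = Fintype.card (Mon n d) + n + m)
    (hr' : rk k (rg c ∪ rg z ∪ rg y') = Fintype.card (Mon n d) + n + m) :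
    Spc (cl k (rg c ∪ rg z)) y y' := by
  classical
  have hr3 : 3 ≤ n + 1 := by omega
  have h10 : (Fin.castLE hr3 1 : Fin (n + 1)) ≠ 0 := by
    intro h
    have := congrArg Fin.val h
    simp at this
  have h20 : (Fin.castLE hr3 2 : Fin (n + 1)) ≠ 0 := by
    intro h
    have := congrArg Fin.val h
    simp at this
  have h12 : (Fin.castLE hr3 1 : Fin (n + 1)) ≠ Fin.castLE hr3 2 := by
    intro h
    have := congrArg Fin.val h
    simp at this
  have key : ∀ b₁ b₂ : Fin (n + 1) → Ω, Van c (ln z b₁) 1 → Van c (ln z b₂) 1 →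
      rk k (rg c ∪ rg z ∪ rg y ∪ rg b₁) + rk k (rg c ∪ rg z) = 2 * rk k (rg c ∪ rg z ∪ rg y) →
      rk k (rg c ∪ rg z ∪ rg y ∪ rg b₂) + rk k (rg c ∪ rg z) = 2 * rk k (rg c ∪ rg z ∪ rg y) →
      Spc k (Sum.elim (Sum.elim c z) (Sum.elim y b₁)) (Sum.elim (Sum.elim c z) (Sum.elim y b₂)) := by
    intro b₁ b₂ hb₁ hb₂ r1 r2
    have hcard : (lnM n d (Fin.castLE hr3 1) ∪ lnM n d (Fin.castLE hr3 2)).card = 2 * d + 1 :=
      card_lnM_union h10 h20 h12
    have hM : ∀ w : Fin (n + 1) → Ω, Van c (ln z w) 1 →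
        ∀ h : Matrix (Fin (n + 1)) (Fin (n + 1)) Ω,
        (∀ (j : Fin 3) (i : Fin (n + 1)), h i (Fin.castLE hr3 j) = ![z, y, w] j i) →
        ∀ μ ∈ lnM n d (Fin.castLE hr3 1) ∪ lnM n d (Fin.castLE hr3 2), act h c μ = 0 := by
      intro w hw h hh μ hμ
      have e0 : (fun i => h i 0) = z := funext fun i => hh 0 i
      rcases Finset.mem_union.1 hμ with hμ | hμ
      · refine act_line h c h10 ?_ μ hμ
        have e1 : (fun i => h i (Fin.castLE hr3 1)) = y := funext fun i => hh 1 i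
        rw [e0, e1]
        exact hV
      · refine act_line h c h20 ?_ μ hμ
        have e1 : (fun i => h i (Fin.castLE hr3 2)) = w := funext fun i => hh 2 i
        rw [e0, e1]
        exact hw
    have hrk : ∀ w : Fin (n + 1) → Ω,
        rk k (rg c ∪ rg z ∪ rg y ∪ rg w) + rk k (rg c ∪ rg z) = 2 * rk k (rg c ∪ rg z ∪ rg y) →
        Fintype.card (Mon n d) + 3 * (n + 1) ≤ rk k (rg c ∪ rgl ![z, y, w]) +
          (lnM n d (Fin.castLE hr3 1) ∪ lnM n d (Fin.castLE hr3 2)).card := by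
      intro w hw
      rw [hcard, rgl_three61, ← Finset.union_assoc, ← Finset.union_assoc]
      omega
    have hli : ∀ w : Fin (n + 1) → Ω,
        rk k (rg c ∪ rg z ∪ rg y ∪ rg w) + rk k (rg c ∪ rg z) = 2 * rk k (rg c ∪ rg z ∪ rg y) →
        LinearIndependent Ω ![z, y, w] := fun w hw =>
      li_three hz (S := rg c) (k := k) (by omega) (by omega)
    have h1 := nfg_type hb hr3 (lnM n d (Fin.castLE hr3 1) ∪ lnM n d (Fin.castLE hr3 2)) c c
      ![z, y, b₁] ![z, y, b₂] (hli b₁ r1) (hli b₂ r2) (hM b₁ hb₁) (hM b₂ hb₂) (hrk b₁ r1)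
      (hrk b₂ r2)
    have h2 := h1.comp (Sum.elim (Sum.elim Sum.inl (fun i => Sum.inr ((0 : Fin 3), i)))
      (Sum.elim (fun i => Sum.inr ((1 : Fin 3), i)) (fun i => Sum.inr ((2 : Fin 3), i))) :
      (Mon n d ⊕ Fin (n + 1)) ⊕ (Fin (n + 1) ⊕ Fin (n + 1)) → Mon n d ⊕ (Fin 3 × Fin (n + 1)))
    have e2 : ∀ w : Fin (n + 1) → Ω,
        (Sum.elim c fun p : Fin 3 × Fin (n + 1) => ![z, y, w] p.1 p.2) ∘
        (Sum.elim (Sum.elim Sum.inl (fun i => Sum.inr ((0 : Fin 3), i)))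
          (Sum.elim (fun i => Sum.inr ((1 : Fin 3), i)) (fun i => Sum.inr ((2 : Fin 3), i))) :
          (Mon n d ⊕ Fin (n + 1)) ⊕ (Fin (n + 1) ⊕ Fin (n + 1)) →
            Mon n d ⊕ (Fin 3 × Fin (n + 1))) =
        Sum.elim (Sum.elim c z) (Sum.elim y w) := by
      intro w
      funext x
      rcases x with (x | x) | x | x <;> rfl
    rw [e2, e2] at h2
    exact h2
  have hs : rg (Sum.elim c z) = rg c ∪ rg z := rg_elim c z
  have hcE : ∀ μ, c μ ∈ cl k (rg (Sum.elim c z)) := fun μ => subset_cl k _ _ (by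
    rw [hs]
    exact Finset.mem_union_left _ (mem_rg61 c μ))
  have hzE : ∀ i, z i ∈ cl k (rg (Sum.elim c z)) := fun i => subset_cl k _ _ (by
    rw [hs]
    exact Finset.mem_union_right _ (mem_rg61 z i))
  have hbc : bc Ω (fun μ => (⟨c μ, hcE μ⟩ : cl k (rg (Sum.elim c z)))) = c := rfl
  -- the lines
  have hvan : ∀ w w' : Fin (n + 1) → Ω, Spc (cl k (rg (Sum.elim c z))) w w' →
      Van c (ln z w) 1 → Van c (ln z w') 1 := by
    intro w w' hw hV1
    have h3 := spc_const hw z hzE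
    have h4 := h3.comp (fun p : Fin (1 + 1) × Fin (n + 1) =>
      if (p.1 : ℕ) = 0 then Sum.inl p.2 else Sum.inr p.2)
    have e3 : ∀ u : Fin (n + 1) → Ω, Sum.elim z u ∘ (fun p : Fin (1 + 1) × Fin (n + 1) =>
        if (p.1 : ℕ) = 0 then Sum.inl p.2 else Sum.inr p.2) = vt (ln z u) 1 := by
      intro u
      funext p
      show Sum.elim z u (if (p.1 : ℕ) = 0 then Sum.inl p.2 else Sum.inr p.2) =
        (if (p.1 : ℕ) = 0 then z else u) p.2
      by_cases hp : (p.1 : ℕ) = 0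
      · rw [if_pos hp, if_pos hp]
        rfl
      · rw [if_neg hp, if_neg hp]
        rfl
    rw [e3, e3] at h4
    have h5 := van_spc (c₀ := fun μ => (⟨c μ, hcE μ⟩ : cl k (rg (Sum.elim c z)))) h4
      (by rw [hbc]; exact hV1)
    rwa [hbc] at h5
  have hmain : Spc (cl k (rg (Sum.elim c z))) y y' := by
    refine fibre_square hb (Sum.elim c z) y y' ?_ fun b₁ b₂ h1 h1' h2 h2' r1 r2 => ?_
    · rw [hs, hr, hr']
    · rw [hs] at r1 r2
      have hb₁ := hvan y' b₁ h1 hV'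
      have hb₂ := hvan y b₂ h2 hV
      exact ⟨key b₁ b₂ hb₁ hb₂ r1 r2, key b₂ b₁ hb₂ hb₁ r2 r1⟩
  rw [hs] at hmain
  exact hmain

end Pool.Agent.Helper30.RY
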