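import Mathlib
import Pool.Agent.Helper30.RY.Nfg
import Pool.Agent.Helper30.RY.Cln
import Pool.Agent.Helper30.RY.Gpl

/-!
# Block RY-GFR: generic lines on generic hypersurfaces are free

`(c, z, y)`: the line through `z`, `y` is on the hypersurface and the rank of `(c, z, y)` is
`N + n + m = N + 2 (n + 1) - (d + 1)`.  Then the restrictions to the line of the partial derivatives of the form
span all polynomials of degree less than `d`.

Proof.  `z, y` are linearly independent (`li_two` with `S = rg c`; `m ≥ 2`).  `nfg_exists` with `r = 2`,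
`v = ![z, y]`, `M₀ = lnM 1` (`act_line`, `card_lnM`): there is an invertible `h` with first columns `z`, `y` such
that the coefficients `c' μ = act h c μ`, `μ ∉ M₀`, (and the entries of `h`) are algebraically independent.
On the line `x_0 = 1, x_1 = T, x_2 = ... = x_n = 0` the derivative `∂_j f'` of `f' = fm c'`, for `j ≥ 2`, is
`∑_{b < d} c'(x_0^(d-1-b) x_1^b x_j) T^b` (`pderiv j` of a monomial `μ` restricted to this line is zero unless
`μ = x_0^a x_1^b x_j`; the factor `μ_j = 1`).  The `d × d` matrix `c'(x_0^(d-1-b) x_1^b x_{j})`,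
`b < d`, `2 ≤ j ≤ d + 1` (`d + 1 ≤ n`) consists of different coefficients outside `M₀`, algebraically independent
elements, so its determinant is not zero: the polynomial `det (X_{b j})` is not zero
(`Matrix.det_mvPolynomialX_ne_zero`, or take the value `1` at the unit matrix), use `eval_ne_zero_of_generic` or
algebraic independence.  Hence the `∂_j f'` restricted to the line span all polynomials
of degree `< d`.  `pderiv_sbs`: `∂_j f' = ∑_i h_{i j} (∂_i f)(h X)` (check the indices in the lemma), and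
`(∂_i f)(h X)` restricted to the line is `aeval (cv (ln z y) 1) (∂_i f)` (`h (1, T, 0, ...) = z + T y`).
So every polynomial of degree `< d` is a combination of these.
-/

namespace Pool.Agent.Helper30.RY

open MvPolynomial

variable {k : Type*} [Field k] {Ω : Type*} [Field Ω] [Algebra k Ω] [IsAlgClosed Ω]
  [DecidableEq Ω] {n d m : ℕ}

private theorem aeval_cv_sbs88 {A : Type*} [CommRing A] (g : Matrix (Fin (n + 1)) (Fin (n + 1)) A)
    (f : MvPolynomial (Fin (n + 1)) A) (a : ℕ → Fin (n + 1) → A) (e : ℕ) :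
    aeval (cv a e) (sbs g f) = aeval (cv (fun l => g.mulVec (a l)) e) f := by
  unfold sbs
  rw [comp_aeval_apply]
  congr 2
  funext i
  rw [map_sum]
  simp only [map_mul, aeval_X, aeval_C]
  unfold cv
  simp only [Finset.mul_sum, Matrix.mulVec, dotProduct, map_sum, Finset.sum_mul]
  rw [Finset.sum_comm]
  refine Finset.sum_congr rfl fun l _ => Finset.sum_congr rfl fun j _ => ?_
  rw [Polynomial.algebraMap_eq, Polynomial.C_mul, mul_assoc]

private theorem one_val88 (hn : 1 ≤ n) : ((1 : Fin (n + 1)) : ℕ) = 1 := by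
  rw [Fin.val_one', Nat.mod_eq_of_lt (by omega)]

private theorem zero_ne_one88 (hn : 1 ≤ n) : (0 : Fin (n + 1)) ≠ 1 := by
  intro h
  have h1 := congrArg Fin.val h
  rw [one_val88 hn, Fin.val_zero] at h1
  omega

/-- the line `(1, T, 0, ..., 0)` -/
private noncomputable def ev88 (A : Type*) [CommRing A] (n : ℕ) : Fin (n + 1) → Polynomial A :=
  fun i => if i = 0 then 1 else if i = 1 then Polynomial.X else 0

private theorem cv_ln88 {A : Type*} [CommRing A] (hn : 1 ≤ n) :
    cv (ln (Pi.single (0 : Fin (n + 1)) (1 : A)) (Pi.single 1 1)) 1 = ev88 A n := by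
  funext i
  unfold cv ln ev88
  rw [Finset.sum_range_succ, Finset.sum_range_one]
  by_cases h0 : i = 0
  · subst h0
    simp [zero_ne_one88 hn]
  · by_cases h1 : i = 1
    · subst h1
      simp [h0]
    · simp [h0, h1]

private theorem prod_ev88 {A : Type*} [CommRing A] (ν : Fin (n + 1) →₀ ℕ) (hn : 1 ≤ n)
    (h : ∀ i, i ≠ 0 → i ≠ 1 → ν i = 0) :
    ∏ i, ev88 A n i ^ ν i = Polynomial.X ^ ν 1 := by
  rw [Finset.prod_eq_single 1]
  · unfold ev88
    rw [if_neg (zero_ne_one88 hn).symm, if_pos rfl]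
  · intro i _ hi
    by_cases h0 : i = 0
    · unfold ev88
      rw [if_pos h0, one_pow]
    · rw [h i h0 hi, pow_zero]
  · intro hh
    exact absurd (Finset.mem_univ _) hh

private theorem prod_ev_zero88 {A : Type*} [CommRing A] (ν : Fin (n + 1) →₀ ℕ) {i : Fin (n + 1)}
    (h0 : i ≠ 0) (h1 : i ≠ 1) (h : ν i ≠ 0) :
    ∏ i, ev88 A n i ^ ν i = 0 := by
  refine Finset.prod_eq_zero (Finset.mem_univ i) ?_
  unfold ev88
  rw [if_neg h0, if_neg h1, zero_pow h]

/-- the index `j + 2` -/
private def jj88 (hn : d + 1 ≤ n) (j : Fin d) : Fin (n + 1) := ⟨j.1 + 2, by omega⟩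

private theorem jj_ne_zero88 (hn : d + 1 ≤ n) (j : Fin d) : jj88 hn j ≠ 0 := by
  intro h
  have h1 := congrArg Fin.val h
  change j.1 + 2 = 0 at h1
  omega

private theorem jj_ne_one88 (hn : d + 1 ≤ n) (j : Fin d) : jj88 hn j ≠ 1 := by
  intro h
  have h1 := congrArg Fin.val h
  rw [one_val88 (by omega)] at h1
  change j.1 + 2 = 1 at h1
  omega

private theorem jj_inj88 (hn : d + 1 ≤ n) {j j' : Fin d} (h : jj88 hn j = jj88 hn j') : j = j' := by
  have h1 := congrArg Fin.val h
  change j.1 + 2 = j'.1 + 2 at h1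
  exact Fin.ext (by omega)

/-- the monomial `x_0 ^ (d - 1 - b) x_1 ^ b x_(j + 2)` -/
private noncomputable def mo88 (hn : d + 1 ≤ n) (b j : Fin d) : Mon n d :=
  ⟨Finsupp.single 0 (d - 1 - b.1) + Finsupp.single 1 b.1 + Finsupp.single (jj88 hn j) 1, by
    rw [map_add, map_add, Finsupp.degree_single, Finsupp.degree_single, Finsupp.degree_single]
    have := b.2
    omega⟩

private theorem mo_one88 (hn : d + 1 ≤ n) (b j : Fin d) : (mo88 hn b j).1 1 = b.1 := by
  change (Finsupp.single 0 (d - 1 - b.1) + Finsupp.single 1 b.1 + Finsupp.single (jj88 hn j) 1 :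
    Fin (n + 1) →₀ ℕ) 1 = b.1
  rw [Finsupp.add_apply, Finsupp.add_apply, Finsupp.single_eq_same,
    Finsupp.single_eq_of_ne (zero_ne_one88 (by omega)).symm,
    Finsupp.single_eq_of_ne (jj_ne_one88 hn j).symm]
  omega

private theorem mo_jj88 (hn : d + 1 ≤ n) (b j : Fin d) : (mo88 hn b j).1 (jj88 hn j) = 1 := by
  change (Finsupp.single 0 (d - 1 - b.1) + Finsupp.single 1 b.1 + Finsupp.single (jj88 hn j) 1 :
    Fin (n + 1) →₀ ℕ) (jj88 hn j) = 1
  rw [Finsupp.add_apply, Finsupp.add_apply, Finsupp.single_eq_same,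
    Finsupp.single_eq_of_ne (jj_ne_zero88 hn j),
    Finsupp.single_eq_of_ne (jj_ne_one88 hn j)]
  omega

private theorem mo_ne88 (hn : d + 1 ≤ n) (b j : Fin d) {i : Fin (n + 1)} (h0 : i ≠ 0) (h1 : i ≠ 1)
    (h2 : i ≠ jj88 hn j) : (mo88 hn b j).1 i = 0 := by
  change (Finsupp.single 0 (d - 1 - b.1) + Finsupp.single 1 b.1 + Finsupp.single (jj88 hn j) 1 :
    Fin (n + 1) →₀ ℕ) i = 0
  rw [Finsupp.add_apply, Finsupp.add_apply, Finsupp.single_eq_of_ne h0,
    Finsupp.single_eq_of_ne h1, Finsupp.single_eq_of_ne h2]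
  omega

private theorem mo_inj88 (hn : d + 1 ≤ n) {p q : Fin d × Fin d}
    (h : mo88 hn p.1 p.2 = mo88 hn q.1 q.2) : p = q := by
  have h1 := mo_one88 hn p.1 p.2
  rw [h, mo_one88] at h1
  have h2 := mo_jj88 hn p.1 p.2
  rw [h] at h2
  have h3 : p.2 = q.2 := by
    by_contra h3
    rw [mo_ne88 hn q.1 q.2 (jj_ne_zero88 hn _) (jj_ne_one88 hn _)
      (fun h4 => h3 (jj_inj88 hn h4))] at h2
    omega
  exact Prod.ext (Fin.ext h1.symm) h3

private theorem mo_of88 (hn : d + 1 ≤ n) (j : Fin d) (μ : Mon n d)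
    (h : ∀ i, i ≠ 0 → i ≠ 1 → (μ.1 - Finsupp.single (jj88 hn j) 1 : Fin (n + 1) →₀ ℕ) i = 0)
    (hj : μ.1 (jj88 hn j) ≠ 0) : ∃ b : Fin d, μ = mo88 hn b j := by
  have h1 : μ.1 (jj88 hn j) = 1 := by
    have := h _ (jj_ne_zero88 hn j) (jj_ne_one88 hn j)
    rw [Finsupp.tsub_apply, Finsupp.single_eq_same] at this
    omega
  have h2 : ∀ i, i ≠ 0 → i ≠ 1 → i ≠ jj88 hn j → μ.1 i = 0 := by
    intro i h3 h4 h5
    have := h i h3 h4
    rw [Finsupp.tsub_apply, Finsupp.single_eq_of_ne h5] at this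
    omega
  have h3 : μ.1 = Finsupp.single 0 (μ.1 0) + Finsupp.single 1 (μ.1 1) +
      Finsupp.single (jj88 hn j) 1 := by
    ext i
    rw [Finsupp.add_apply, Finsupp.add_apply]
    by_cases i0 : i = 0
    · subst i0
      rw [Finsupp.single_eq_same, Finsupp.single_eq_of_ne (zero_ne_one88 (by omega)),
        Finsupp.single_eq_of_ne (jj_ne_zero88 hn j).symm]
      omega
    · by_cases i1 : i = 1
      · subst i1
        rw [Finsupp.single_eq_same, Finsupp.single_eq_of_ne (zero_ne_one88 (by omega)).symm,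
          Finsupp.single_eq_of_ne (jj_ne_one88 hn j).symm]
        omega
      · rw [Finsupp.single_eq_of_ne i0, Finsupp.single_eq_of_ne i1]
        by_cases i2 : i = jj88 hn j
        · subst i2
          rw [Finsupp.single_eq_same, h1]
          omega
        · rw [Finsupp.single_eq_of_ne i2, h2 i i0 i1 i2]
          omega
  have h4 := μ.2
  rw [h3, map_add, map_add, Finsupp.degree_single, Finsupp.degree_single,
    Finsupp.degree_single] at h4
  refine ⟨⟨μ.1 1, by omega⟩, Subtype.ext ?_⟩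
  change μ.1 = Finsupp.single 0 (d - 1 - μ.1 1) + Finsupp.single 1 (μ.1 1) +
    Finsupp.single (jj88 hn j) 1
  have h5 : d - 1 - μ.1 1 = μ.1 0 := by omega
  rw [h5]
  exact h3

omit [IsAlgClosed Ω] [DecidableEq Ω] in
/-- the derivative of a monomial restricted to the line -/
private theorem der88 (μ : Mon n d) (a : Ω) (j : Fin (n + 1)) :
    aeval (ev88 Ω n) (pderiv j (monomial μ.1 a)) =
      Polynomial.C (a * (μ.1 j : Ω)) * ∏ i, ev88 Ω n i ^ (μ.1 - Finsupp.single j 1 : Fin (n + 1) →₀ ℕ) i := by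
  rw [pderiv_monomial, aeval_monomial, Finsupp.prod_fintype _ _ (fun _ => pow_zero _)]
  rfl

omit [IsAlgClosed Ω] [DecidableEq Ω] in
private theorem restrict88 (hn : d + 1 ≤ n) (c : Mon n d → Ω) (j : Fin d) :
    aeval (ev88 Ω n) (pderiv (jj88 hn j) (fm c)) =
      ∑ b : Fin d, Polynomial.C (c (mo88 hn b j)) * Polynomial.X ^ b.1 := by
  unfold fm
  rw [map_sum, map_sum]
  symm
  refine Finset.sum_of_injOn (fun b : Fin d => mo88 hn b j) ?_ ?_ ?_ ?_
  · intro b _ b' _ h
    exact congrArg Prod.fst (mo_inj88 hn (p := (b, j)) (q := (b', j)) h)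
  · intro b _
    exact Finset.mem_coe.2 (Finset.mem_univ _)
  · intro μ _ hμ
    rw [der88]
    by_cases h0 : μ.1 (jj88 hn j) = 0
    · rw [h0, Nat.cast_zero, mul_zero, Polynomial.C_0, zero_mul]
    · by_cases h1 : ∀ i, i ≠ 0 → i ≠ 1 →
          (μ.1 - Finsupp.single (jj88 hn j) 1 : Fin (n + 1) →₀ ℕ) i = 0
      · obtain ⟨b, hb⟩ := mo_of88 hn j μ h1 h0
        exact absurd ⟨b, Finset.mem_coe.2 (Finset.mem_univ b), hb.symm⟩ hμ
      · push Not at h1
        obtain ⟨i, i0, i1, i2⟩ := h1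
        rw [prod_ev_zero88 _ i0 i1 i2, mul_zero]
  · intro b _
    rw [der88, mo_jj88, Nat.cast_one, mul_one, prod_ev88 _ (by omega)]
    · congr 2
      rw [Finsupp.tsub_apply, mo_one88, Finsupp.single_eq_of_ne (jj_ne_one88 hn j).symm,
        Nat.sub_zero]
    · intro i i0 i1
      rw [Finsupp.tsub_apply]
      by_cases i2 : i = jj88 hn j
      · subst i2
        rw [mo_jj88, Finsupp.single_eq_same]
      · rw [mo_ne88 hn b j i0 i1 i2, Nat.zero_sub]

omit [IsAlgClosed Ω] in
/-- the determinant of the generic coefficients -/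
private theorem det88 (hn : d + 1 ≤ n) (M₀ : Finset (Mon n d)) (c : Mon n d → Ω)
    (h : Matrix (Fin (n + 1)) (Fin (n + 1)) Ω)
    (hM : ∀ b j : Fin d, mo88 hn b j ∉ M₀)
    (hrk : rk k (rg (Sum.elim (fun μ : {μ : Mon n d // μ ∉ M₀} => c μ.1)
        fun p : Fin (n + 1) × Fin (n + 1) => h p.1 p.2)) =
        Fintype.card ({μ : Mon n d // μ ∉ M₀} ⊕ (Fin (n + 1) × Fin (n + 1)))) :
    (Matrix.of fun b j : Fin d => c (mo88 hn b j)).det ≠ 0 := by
  set t := Sum.elim (fun μ : {μ : Mon n d // μ ∉ M₀} => c μ.1)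
        fun p : Fin (n + 1) × Fin (n + 1) => h p.1 p.2 with ht
  have h1 : rk k (∅ ∪ rg t) = rk k (∅ : Finset Ω) +
      Fintype.card ({μ : Mon n d // μ ∉ M₀} ⊕ (Fin (n + 1) × Fin (n + 1))) := by
    rw [rk_empty, zero_add, Finset.empty_union]
    exact hrk
  let g : Fin d × Fin d → {μ : Mon n d // μ ∉ M₀} ⊕ (Fin (n + 1) × Fin (n + 1)) :=
    fun p => Sum.inl ⟨mo88 hn p.1 p.2, hM p.1 p.2⟩
  have hg : Function.Injective g := by
    intro p q hpq
    exact mo_inj88 hn (congrArg Subtype.val (Sum.inl_injective hpq))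
  have h2 := generic_comp h1 g hg
  have h3 := algInd_of_generic h2
  intro h4
  have h5 : aeval (t ∘ g) (Matrix.mvPolynomialX (Fin d) (Fin d) (cl k (∅ : Finset Ω))).det = 0 := by
    rw [AlgHom.map_det]
    rw [← h4]
    congr 1
    ext b j
    rw [AlgHom.mapMatrix_apply, Matrix.map_apply, Matrix.mvPolynomialX_apply, aeval_X]
    rfl
  exact Matrix.det_mvPolynomialX_ne_zero (Fin d) (cl k (∅ : Finset Ω))
    (algebraicIndependent_iff.1 h3 _ h5)

theorem gen_free (hb : Big k Ω) (hd : 1 ≤ d) (hm : 2 ≤ m) (hmd : m + d = n + 1)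
    (hn : d + 1 ≤ n) {c : Mon n d → Ω} {z y : Fin (n + 1) → Ω} (hz : z ≠ 0)
    (hV : Van c (ln z y) 1)
    (hr : rk k (rg c ∪ rg z) = Fintype.card (Mon n d) + n)
    (hr' : rk k (rg c ∪ rg z ∪ rg y) = Fintype.card (Mon n d) + n + m)
    (p : Polynomial Ω) (hp : p.degree < (d : ℕ)) :
    ∃ t : Fin (n + 1) → Ω,
      ∑ i, Polynomial.C (t i) * aeval (cv (ln z y) 1) (pderiv i (fm c)) = p := by
  have hli : LinearIndependent Ω ![z, y] := li_two (k := k) (S := rg c) hz (by omega)
  have hr2 : 2 ≤ n + 1 := by omega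
  have h01 : (1 : Fin (n + 1)) ≠ 0 := (zero_ne_one88 (by omega)).symm
  have hc0 : Fin.castLE hr2 0 = (0 : Fin (n + 1)) := Fin.ext rfl
  have hc1 : Fin.castLE hr2 1 = (1 : Fin (n + 1)) := by
    refine Fin.ext ?_
    rw [one_val88 (by omega)]
    rfl
  have hcol : ∀ h : Matrix (Fin (n + 1)) (Fin (n + 1)) Ω,
      (∀ (j : Fin 2) (i : Fin (n + 1)), h i (Fin.castLE hr2 j) =
        (![z, y] : Fin 2 → Fin (n + 1) → Ω) j i) →
      (fun i => h i 0) = z ∧ (fun i => h i 1) = y := by
    intro h hh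
    refine ⟨funext fun i => ?_, funext fun i => ?_⟩
    · have := hh 0 i
      rw [hc0] at this
      exact this
    · have := hh 1 i
      rw [hc1] at this
      exact this
  have hrgl : rg c ∪ rgl (![z, y] : Fin 2 → Fin (n + 1) → Ω) = rg c ∪ rg z ∪ rg y := by
    unfold rgl
    rw [Finset.union_assoc]
    congr 1
    ext x
    simp only [Finset.mem_biUnion, Finset.mem_univ, true_and, Fin.exists_fin_two,
      Finset.mem_union, Matrix.cons_val_zero, Matrix.cons_val_one]
  obtain ⟨h, g, hhg, -, hv, hrk⟩ := nfg_exists hb hr2 (lnM n d 1) c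
    (![z, y] : Fin 2 → Fin (n + 1) → Ω) hli (fun h hh μ hμ => by
      obtain ⟨e1, e2⟩ := hcol h hh
      refine act_line h c h01 ?_ μ hμ
      rw [e1, e2]
      exact hV) (by
      rw [hrgl, hr', card_lnM h01]
      omega)
  obtain ⟨e1, e2⟩ := hcol h hv
  have hM : ∀ b j : Fin d, mo88 hn b j ∉ lnM n d 1 := by
    intro b j hmem
    unfold lnM at hmem
    have := (Finset.mem_filter.1 hmem).2 _ (jj_ne_zero88 hn j) (jj_ne_one88 hn j)
    rw [mo_jj88] at this
    omega
  have hdet := det88 (k := k) hn (lnM n d 1) (act h c) h hM hrk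
  -- the restriction of the derivatives
  have hcv : cv (fun l => h.mulVec (ln (Pi.single (0 : Fin (n + 1)) (1 : Ω)) (Pi.single 1 1) l)) 1 =
      cv (ln z y) 1 := by
    congr 1
    funext l
    unfold ln
    by_cases hl : l = 0
    · rw [if_pos hl, if_pos hl, Matrix.mulVec_single_one, ← e1]
      rfl
    · rw [if_neg hl, if_neg hl, Matrix.mulVec_single_one, ← e2]
      rfl
  have hP : ∀ j : Fin d, ∑ i, Polynomial.C (h i (jj88 hn j)) *
      aeval (cv (ln z y) 1) (pderiv i (fm c)) =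
      ∑ b : Fin d, Polynomial.C (act h c (mo88 hn b j)) * Polynomial.X ^ b.1 := by
    intro j
    rw [← restrict88 hn (act h c) j, fm_act, pderiv_sbs, map_sum]
    refine Finset.sum_congr rfl fun i _ => ?_
    rw [map_mul, aeval_C, ← cv_ln88 (A := Ω) (n := n) (by omega), aeval_cv_sbs88, hcv]
    rfl
  -- solve the linear system
  set M : Matrix (Fin d) (Fin d) Ω := Matrix.of fun b j : Fin d => act h c (mo88 hn b j) with hMdef
  set s : Fin d → Ω := M⁻¹.mulVec fun b => p.coeff b.1 with hs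
  have hMs : M.mulVec s = fun b => p.coeff b.1 := by
    rw [hs, Matrix.mulVec_mulVec, Matrix.mul_nonsing_inv _ (isUnit_iff_ne_zero.mpr hdet),
      Matrix.one_mulVec]
  refine ⟨fun i => ∑ j, s j * h i (jj88 hn j), ?_⟩
  calc ∑ i, Polynomial.C (∑ j, s j * h i (jj88 hn j)) *
        aeval (cv (ln z y) 1) (pderiv i (fm c))
      = ∑ j, Polynomial.C (s j) * ∑ i, Polynomial.C (h i (jj88 hn j)) *
        aeval (cv (ln z y) 1) (pderiv i (fm c)) := by
        simp only [map_sum, Finset.sum_mul, Finset.mul_sum]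
        rw [Finset.sum_comm]
        refine Finset.sum_congr rfl fun j _ => Finset.sum_congr rfl fun i _ => ?_
        rw [Polynomial.C_mul, mul_assoc]
    _ = ∑ j, Polynomial.C (s j) * ∑ b : Fin d, Polynomial.C (act h c (mo88 hn b j)) *
        Polynomial.X ^ b.1 := by
        refine Finset.sum_congr rfl fun j _ => ?_
        rw [hP j]
    _ = ∑ b : Fin d, Polynomial.C ((M.mulVec s) b) * Polynomial.X ^ b.1 := by
        simp only [Finset.mul_sum, Matrix.mulVec, dotProduct, map_sum, Finset.sum_mul]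
        rw [Finset.sum_comm]
        refine Finset.sum_congr rfl fun b _ => Finset.sum_congr rfl fun j _ => ?_
        rw [hMdef, Matrix.of_apply, Polynomial.C_mul]
        ring
    _ = ∑ b : Fin d, Polynomial.C (p.coeff b.1) * Polynomial.X ^ b.1 := by
        rw [hMs]
    _ = p := by
        rw [Fin.sum_univ_eq_sum_range (fun b => Polynomial.C (p.coeff b) * Polynomial.X ^ b) d]
        refine (p.as_sum_range_C_mul_X_pow' ?_).symm
        by_cases p0 : p = 0
        · rw [p0, Polynomial.natDegree_zero]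
          exact hd
        · exact (Polynomial.natDegree_lt_iff_degree_lt p0).2 hp

end Pool.Agent.Helper30.RY
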