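import Mathlib
import Pool.Agent.Helper30.RY.Cur
import Pool.Agent.Helper30.RY.Spc

/-!
# Block RY-FPS: the chain conditions are closed conditions on `(c, τ, a)`

The coefficient of `T^N` in `aeval (cv (pcc j e τ a) e) (fm c)` (for `j < e`) is the value at `pt c τ a e` of a
polynomial over `k` in the variables `Mon n d ⊕ (Fin (e - 1) ⊕ (Fin (e + 1) × Fin (n + 1)))`: take the universal
form, the universal `τ` and the universal chain over `A = MvPolynomial _ k` (compare `aeval_hq` in `Hqd.lean`, where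
the form has coefficients in the base field), and apply the homomorphism `aeval (pt c τ a e) : A → Ω`
(`fcp_map`-like, `map_fm`, `map_cv`, `pcc_map`).
-/

namespace Pool.Agent.Helper30.RY

open MvPolynomial

private theorem fcp_congr50 {A : Type*} [CommRing A] {n : ℕ} {f : MvPolynomial (Fin (n + 1)) A}
    {τ τ' : ℕ → A} {a a' : ℕ → Fin (n + 1) → A} {e : ℕ} (hτ : ∀ s, 1 ≤ s → s < e → τ s = τ' s)
    (ha : ∀ l ≤ e, ∀ i, a l i = a' l i) (h : FCp f τ a e) : FCp f τ' a' e := by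
  intro j hj
  refine (vanp_congr ?_).1 (h j hj)
  intro l hl i
  unfold pcc
  rw [ha l hl i]
  congr 1
  · congr 1
    refine Finset.prod_congr rfl fun s hs => ?_
    rw [Finset.mem_Ico] at hs
    rw [hτ s hs.1 (by omega)]
  · refine Finset.prod_congr rfl fun s hs => ?_
    rw [Finset.mem_Ico] at hs
    rw [hτ s (by omega) hs.2]

theorem fcp_pt_spc {k Ω Ω' : Type*} [Field k] [Field Ω] [Algebra k Ω] [Field Ω'] [Algebra k Ω']
    {n d e : ℕ} {c : Mon n d → Ω} {τ : ℕ → Ω} {a : ℕ → Fin (n + 1) → Ω} {c' : Mon n d → Ω'}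
    {τ' : ℕ → Ω'} {a' : ℕ → Fin (n + 1) → Ω'} (h : Spc k (pt c τ a e) (pt c' τ' a' e))
    (hF : FCp (fm c) τ a e) : FCp (fm c') τ' a' e := by
  classical
  obtain ⟨R, _, hex⟩ : ∃ R : Subalgebra k Ω, R = Algebra.adjoin k (Set.range (pt c τ a e)) ∧
      ∃ (hm : ∀ i, pt c τ a e i ∈ R) (φ : R →ₐ[k] Ω'), ∀ i, φ ⟨pt c τ a e i, hm i⟩ = pt c' τ' a' e i := by
    obtain ⟨φ, hφ⟩ := h.exists_hom
    exact ⟨_, rfl, fun i => Algebra.subset_adjoin (Set.mem_range_self i), φ, hφ⟩
  obtain ⟨hmem, φ, hφ⟩ := hex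
  set cR : Mon n d → R := fun m => ⟨pt c τ a e (Sum.inl m), hmem _⟩ with hcR
  set τR : ℕ → R := fun s => if hs : s - 1 < e - 1 then
    ⟨pt c τ a e (Sum.inr (Sum.inl ⟨s - 1, hs⟩)), hmem _⟩ else 0 with hτR
  set aR : ℕ → Fin (n + 1) → R := fun l i => if hl : l < e + 1 then
    ⟨pt c τ a e (Sum.inr (Sum.inr (⟨l, hl⟩, i))), hmem _⟩ else 0 with haR
  have hF1 : FCp (fm cR) τR aR e := by
    refine fcp_of_map (R.val : R →+* Ω) Subtype.val_injective ?_
    rw [map_fm]
    have h1 : (fun m => (R.val : R →+* Ω) (cR m)) = c := by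
      funext m
      rfl
    rw [h1]
    refine fcp_congr50 ?_ ?_ hF
    · intro s hs hse
      have hs' : s - 1 < e - 1 := by omega
      rw [hτR]
      simp only [dif_pos hs']
      change τ s = τ (s - 1 + 1)
      rw [Nat.sub_add_cancel hs]
    · intro l hl i
      have hl' : l < e + 1 := by omega
      rw [haR]
      simp only [dif_pos hl']
      rfl
  have hF2 := fcp_map (φ : R →+* Ω') hF1
  rw [map_fm] at hF2
  have h2 : (fun m => (φ : R →+* Ω') (cR m)) = c' := by
    funext m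
    exact hφ (Sum.inl m)
  rw [h2] at hF2
  refine fcp_congr50 ?_ ?_ hF2
  · intro s hs hse
    have hs' : s - 1 < e - 1 := by omega
    rw [hτR]
    simp only [dif_pos hs']
    refine (hφ (Sum.inr (Sum.inl ⟨s - 1, hs'⟩))).trans ?_
    change τ' (s - 1 + 1) = τ' s
    rw [Nat.sub_add_cancel hs]
  · intro l hl i
    have hl' : l < e + 1 := by omega
    rw [haR]
    simp only [dif_pos hl']
    exact hφ (Sum.inr (Sum.inr (⟨l, hl'⟩, i)))

end Pool.Agent.Helper30.RY
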