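import Mathlib
import Pool.Agent.Helper30.RY.Fb2
import Pool.Agent.Helper30.RY.Cvc
import Pool.Agent.Helper30.RY.Gnl
import Pool.Agent.Helper30.RY.Chn

/-!
# Block RY-HFA: breaking a generic curve on a generic hypersurface

`N = card (Mon n d)`, `e = E + 1`, `c` generic over `k`, `F` a curve of degree `e` on the hypersurface of `c`
with `F 0 ≠ 0`, `F e ≠ 0` of maximal rank: `rk (rg c ∪ rga F e) ≥ N + m e + n`.

`lay_adjoin`: `Lay k m E c'` implies `Lay k' m E c'` for `k' = k(s)`: `rk_adjoin` and `rk_submod` (for the sets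
`rg c' ∪ rg (a 0) ⊆ rg c' ∪ rga a e'` and `s`).

Proof of `break_norm`.  Let `z = F 0`, `k' = IntermediateField.adjoin k (rg z)`, `x` the point `z` over `k'`;
`rk k' X + rk k (rg z) = rk k (rg z ∪ X)` (`rk_adjoin`).
1. `generic_bound`: `rk (rg c ∪ rga F e) ≤ rk (rg c ∪ rg z) + m e`, so `rk (rg c ∪ rg z) ≥ N + n`, and `=` by
   `zero_le`.  `point_condition`: `rk k (rg z) = n + 1`.
2. Choose `j` with `F e j ≠ 0` and `s` with `s^e = (F e j)⁻¹`; `A l = s^l F l`, so `A e j = 1`, `A 0 = z`,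
   `Van c A e` (`vanp_scale`) and `rk k (rg c ∪ rga A e) ≥ N + m e + n - 1` (`F` is algebraic over `A` and `s`).
3. `κ` from `codim_all` over `k`; `σ = N - κ - 1`; `G g := NL k m E g ∧ eval z (fm g) = 0`.  `hG`: `nl_smul`,
   `fm_smul`.  `hG1`: `nl_bound` gives `rk k (rg g) ≤ N - κ`, `zero_le`: `rk k (rg g ∪ rg z) ≤ N - κ + n`, so
   `rk k' (rg g) ≤ N - κ - 1`.  `¬ G c`: `nl_bound` and `rk k (rg c) = N`.
4. `hA`: `rk k' (rg (A e)) ≤ n` (`A e j = 1`).  `rk k' (rg (c / c α₀) ∪ rga A e) ≥ N + m e - 3` (adding `c α₀`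
   gives `c`, and `rk k (rg z) = n + 1`).  `n + σ < N + m e - 3` follows from `n + 3 ≤ κ + m e`.
5. `hNC`: `curve_conditions` for `(c, A)`: the vectors `A l` are not proportional: otherwise all `F l` are
   multiples of `z` and `rk (rg c ∪ rga F e) ≤ rk (rg c ∪ rg z) + e = N + n + e < N + m e + n` (`m ≥ 2`).  So
   `rk k (rga A e) ≥ m e + n + d`, `rk k' (rga A e) ≥ m e + d - 1 ≥ n + 1 > rk k' (rg (A e))`
   (`m (e - 1) ≥ 1` and `m + d = n + 1`).
6. `fam_break'` over `k'` (`big_adjoin`).  `θ_new = θ s`.  `eval z (fm c') = 0` (`FCp` for `j = 0`: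
   `pcc 0 e τ' a' 0 = a' 0 = z`, `eval_zero_of_vanp`), so `¬ NL k m E c'`, `Lay k m E c'` (`nl_of_not_lay`) and
   `Lay k' m E c'`.  `chain_bound` over `k'` (second alternative of `hE`):
   `rk k' (P') + card brk ≤ rk k' (rg c' ∪ rg z) + m e + (e - 1) + bet c' z`, with
   `P' = rg c' ∪ rgt τ' e ∪ rga a' e`, and `rk k' (rg c' ∪ rg z) = rk k' (rg c')`.  By `fam_break'`
   `rk k' P' + card brk ≥ rk k' (rg (c / c α) ∪ rga A e) + e ≥ N + m e - 3 + e`.
   So `rk k' (rg c') + bet c' z ≥ N - 2`.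
7. `bet c' z = 0`: otherwise let `γ` be generic over `rg c' ∪ rg z` (over `k`), `c* = γ c'`.
   `rk k' (rg c*) = rk k' (rg c') + 1` (`c' α = 1`).  `sing_conditions` for `c*`: `rk k' (rg c*) ≤ N - (n + 1)`, so
   `N - 2 ≤ N - (n + 1) - 1 + 1`, a contradiction to `n ≥ 2`.
8. So `rk k (rg c' ∪ rg z) ≥ N - 2 + (n + 1)`, and `zero_le` gives `rk k (rg c') ≥ N - 1`.
   `rk k P' + card brk = rk k' P' + (n + 1) + card brk ≥ N + m e + e + n - 2` (`rg z ⊆ P'`).
-/

namespace Pool.Agent.Helper30.RY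

open MvPolynomial

variable {k : Type*} [Field k] {Ω : Type*} [Field Ω] [Algebra k Ω] [IsAlgClosed Ω]
  [DecidableEq Ω] {n d m : ℕ}

omit [Field Ω] [IsAlgClosed Ω] in
private theorem mem_rg63 {ι : Type*} [Fintype ι] (a : ι → Ω) (i : ι) : a i ∈ rg a :=
  Finset.mem_image_of_mem _ (Finset.mem_univ i)

omit [Field Ω] [IsAlgClosed Ω] in
private theorem mem_rga63 {a : ℕ → Fin (n + 1) → Ω} {e l : ℕ} (hl : l ≤ e) (i : Fin (n + 1)) :
    a l i ∈ rga a e :=
  Finset.mem_biUnion.2 ⟨l, Finset.mem_range.2 (by omega), mem_rg63 (a l) i⟩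

omit [Field Ω] [IsAlgClosed Ω] in
private theorem rga_mem63 {a : ℕ → Fin (n + 1) → Ω} {e : ℕ} {x : Ω} (hx : x ∈ rga a e) :
    ∃ l ≤ e, ∃ i, x = a l i := by
  obtain ⟨l, hl, hx⟩ := Finset.mem_biUnion.1 hx
  obtain ⟨i, _, rfl⟩ := Finset.mem_image.1 hx
  exact ⟨l, by have := Finset.mem_range.1 hl; omega, i, rfl⟩

omit [IsAlgClosed Ω] in
theorem lay_adjoin (s : Finset Ω) {E : ℕ} {c : Mon n d → Ω} (h : Lay k m E c) :
    Lay (IntermediateField.adjoin k (s : Set Ω)) m E c := by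
  intro e' he' a h0 hV
  have h1 := h e' he' a h0 hV
  have h2 := rk_adjoin k s (rg c ∪ rga a e')
  have h3 := rk_adjoin k s (rg c ∪ rg (a 0))
  have h4 := rk_submod k (rg c ∪ rg (a 0)) (rga a e') s
  have h5 : rg (a 0) ∪ rga a e' = rga a e' := by
    refine Finset.union_eq_right.2 fun x hx => ?_
    obtain ⟨i, _, rfl⟩ := Finset.mem_image.1 hx
    exact mem_rga63 (Nat.zero_le e') i
  rw [Finset.union_assoc (rg c) (rg (a 0)) (rga a e'), h5,
    Finset.union_comm (rg c ∪ rga a e') s, Finset.union_comm (rg c ∪ rg (a 0)) s] at h4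
  omega

omit [IsAlgClosed Ω] in
/-- the rank of a scaled curve -/
private theorem scale63 (S : Finset Ω) {s : Ω} (hs : s ≠ 0) (F : ℕ → Fin (n + 1) → Ω) (e : ℕ) :
    rk k (S ∪ rga F e) ≤ rk k (S ∪ rga (fun l i => s ^ l * F l i) e) + 1 := by
  have h1 := rk_union_le_card k (S ∪ rga (fun l i => s ^ l * F l i) e) {s}
  rw [Finset.card_singleton] at h1
  refine le_trans (rk_le_of_subset_cl k fun x hx => ?_) h1
  rcases Finset.mem_union.1 hx with hx | hx
  · exact subset_cl k _ x (Finset.mem_union_left _ (Finset.mem_union_left _ hx))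
  · obtain ⟨l, hl, i, rfl⟩ := rga_mem63 hx
    have h2 : F l i = (s ^ l)⁻¹ * (s ^ l * F l i) := by
      rw [← mul_assoc, inv_mul_cancel₀ (pow_ne_zero l hs), one_mul]
    have h3 : s ∈ cl k (S ∪ rga (fun l i => s ^ l * F l i) e ∪ {s}) :=
      subset_cl k _ _ (Finset.mem_union_right _ (Finset.mem_singleton_self s))
    have h4 : s ^ l * F l i ∈ cl k (S ∪ rga (fun l i => s ^ l * F l i) e ∪ {s}) :=
      subset_cl k _ _ (Finset.mem_union_left _ (Finset.mem_union_right _
        (mem_rga63 (a := fun l i => s ^ l * F l i) hl i)))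
    rw [h2]
    exact mul_mem (inv_mem (pow_mem h3 l)) h4

omit [IsAlgClosed Ω] in
/-- the rank of a scaled form -/
private theorem norm63 (S : Finset Ω) (c : Mon n d → Ω) {t : Ω} (ht : t ≠ 0) :
    rk k (rg c ∪ S) ≤ rk k (rg (fun m => c m / t) ∪ S) + 1 := by
  have h1 := rk_union_le_card k (rg (fun m => c m / t) ∪ S) {t}
  rw [Finset.card_singleton] at h1
  refine le_trans (rk_le_of_subset_cl k fun x hx => ?_) h1
  rcases Finset.mem_union.1 hx with hx | hx
  · obtain ⟨i, _, rfl⟩ := Finset.mem_image.1 hx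
    have h2 : c i = c i / t * t := by
      rw [div_mul_cancel₀ _ ht]
    have h3 : t ∈ cl k (rg (fun m => c m / t) ∪ S ∪ {t}) :=
      subset_cl k _ _ (Finset.mem_union_right _ (Finset.mem_singleton_self t))
    have h4 : c i / t ∈ cl k (rg (fun m => c m / t) ∪ S ∪ {t}) :=
      subset_cl k _ _ (Finset.mem_union_left _ (Finset.mem_union_left _
        (mem_rg63 (fun m => c m / t) i)))
    rw [h2]
    exact mul_mem h4 h3
  · exact subset_cl k _ x (Finset.mem_union_left _ (Finset.mem_union_right _ hx))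

omit [IsAlgClosed Ω] in
/-- a vector with a coordinate `1` has rank at most `n` -/
private theorem one63 {K : Type*} [Field K] [Algebra K Ω] {v : Fin (n + 1) → Ω} {j : Fin (n + 1)}
    (hv : v j = 1) : rk K (rg v) ≤ n := by
  have h1 : rk K (rg v) ≤ rk K ((Finset.univ.erase j).image v) := by
    refine rk_le_of_subset_cl K fun x hx => ?_
    obtain ⟨i, _, rfl⟩ := Finset.mem_image.1 hx
    by_cases hij : i = j
    · rw [hij, hv]
      exact one_mem _
    · exact subset_cl K _ _ (Finset.mem_image_of_mem _ (Finset.mem_erase.2 ⟨hij, Finset.mem_univ i⟩))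
  have h2 := rk_le_card K ((Finset.univ.erase j).image v)
  have h3 : ((Finset.univ.erase j).image v).card ≤ (Finset.univ.erase j).card :=
    Finset.card_image_le
  rw [Finset.card_erase_of_mem (Finset.mem_univ j), Finset.card_univ, Fintype.card_fin] at h3
  omega

omit [IsAlgClosed Ω] in
/-- a curve all of whose vectors are proportional -/
private theorem prop63 (S : Finset Ω) {A : ℕ → Fin (n + 1) → Ω} {e : ℕ} (h0 : A 0 ≠ 0)
    (h : ∃ v : Fin (n + 1) → Ω, ∀ l ≤ e, ∃ t : Ω, ∀ i, A l i = t * v i) :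
    rk k (S ∪ rga A e) ≤ rk k (S ∪ rg (A 0)) + e := by
  obtain ⟨v, hv⟩ := h
  have hv' : ∀ l, ∃ t : Ω, l ≤ e → ∀ i, A l i = t * v i := fun l => by
    by_cases hl : l ≤ e
    · obtain ⟨t, ht⟩ := hv l hl
      exact ⟨t, fun _ => ht⟩
    · exact ⟨0, fun h => absurd h hl⟩
  choose t ht using hv'
  have ht0 : t 0 ≠ 0 := by
    intro h1
    apply h0
    funext i
    rw [ht 0 (Nat.zero_le e) i, h1, zero_mul]
    rfl
  have h1 := rk_union_le_card k (S ∪ rg (A 0)) ((Finset.Ico 1 (e + 1)).image fun l => t l / t 0)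
  have h2 : ((Finset.Ico 1 (e + 1)).image fun l => t l / t 0).card ≤ e := by
    refine Finset.card_image_le.trans ?_
    rw [Nat.card_Ico]
    omega
  refine le_trans (rk_le_of_subset_cl k fun x hx => ?_) (le_trans h1 (by omega))
  rcases Finset.mem_union.1 hx with hx | hx
  · exact subset_cl k _ x (Finset.mem_union_left _ (Finset.mem_union_left _ hx))
  · obtain ⟨l, hl, i, rfl⟩ := rga_mem63 hx
    rcases Nat.eq_zero_or_pos l with rfl | hl0
    · exact subset_cl k _ _ (Finset.mem_union_left _ (Finset.mem_union_right _ (mem_rg63 (A 0) i)))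
    · have h3 : A l i = t l / t 0 * A 0 i := by
        rw [ht l hl i, ht 0 (Nat.zero_le e) i]
        field_simp
      rw [h3]
      refine mul_mem (subset_cl k _ _ (Finset.mem_union_right _
        (Finset.mem_image_of_mem _ (Finset.mem_Ico.2 ⟨hl0, by omega⟩))))
        (subset_cl k _ _ (Finset.mem_union_left _ (Finset.mem_union_right _ (mem_rg63 (A 0) i))))

omit [IsAlgClosed Ω] in
/-- ranks over `k(z)` of sets containing `z` -/
private theorem over63 (k : Type*) [Field k] [Algebra k Ω] (z : Fin (n + 1) → Ω)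
    (hz : rk k (rg z) = n + 1) (X : Finset Ω) :
    rk (IntermediateField.adjoin k ((rg z : Finset Ω) : Set Ω)) X + (n + 1) = rk k (rg z ∪ X) := by
  rw [← rk_adjoin k (rg z) X, hz]

theorem break_norm (hb : Big k Ω) (hd : 2 ≤ d) (hn : d + 2 ≤ n) (hm : m + d = n + 1) {E : ℕ}
    (hE : 1 ≤ E) {c : Mon n d → Ω} (hc : rk k (rg c) = Fintype.card (Mon n d))
    {F : ℕ → Fin (n + 1) → Ω} (h0 : F 0 ≠ 0) (he : F (E + 1) ≠ 0) (hV : Van c F (E + 1))
    (hr : Fintype.card (Mon n d) + m * (E + 1) + n ≤ rk k (rg c ∪ rga F (E + 1))) :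
    ∃ (α : Mon n d) (θ : Ω) (τ : ℕ → Ω) (b : ℕ → Fin (n + 1) → Ω) (c' : Mon n d → Ω)
      (τ' : ℕ → Ω) (a' : ℕ → Fin (n + 1) → Ω),
      c α ≠ 0 ∧ θ ≠ 0 ∧ (∀ i, 1 ≤ i → i < E + 1 → τ i ≠ 0) ∧
      (∀ l ≤ E + 1, ∀ i, θ ^ l * F l i = wt (E + 1) τ l * b l i) ∧
      Spc k (pt (fun m => c m / c α) τ b (E + 1)) (pt c' τ' a' (E + 1)) ∧ c' α = 1 ∧
      (brk τ' (E + 1)).Nonempty ∧ FCp (fm c') τ' a' (E + 1) ∧ Nod τ' a' (E + 1) ∧
      Fintype.card (Mon n d) ≤ rk k (rg c') + 1 ∧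
      Fintype.card (Mon n d) + m * (E + 1) + n + E ≤
        rk k (rg c' ∪ rgt τ' (E + 1) ∪ rga a' (E + 1)) + (brk τ' (E + 1)).card + 1 := by
  have hd1 : 1 ≤ d := by omega
  -- step 1
  obtain ⟨κ, hκ3, hκn, hκN, hκ⟩ := codim_all (K := k) (Ω := Ω) hb hd hn hm E hE
  have hc0 : c ≠ 0 := by
    rintro rfl
    have h1 : rk k (rg (0 : Mon n d → Ω)) ≤ rk k (∅ : Finset Ω) := by
      refine rk_le_of_subset_cl k fun x hx => ?_
      obtain ⟨i, _, rfl⟩ := Finset.mem_image.1 hx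
      exact zero_mem _
    rw [rk_empty] at h1
    omega
  obtain ⟨α₀, hα₀⟩ : ∃ α₀, c α₀ ≠ 0 := by
    by_contra hcon
    push Not at hcon
    exact hc0 (funext hcon)
  have hz0 : eval (F 0) (fm c) = 0 := eval_zero_of_vanp hV
  have hgb := generic_bound hb hd1 hn hm hc (E + 1) F h0 hV
  have hzl := zero_le (K := k) hc0 (S := rg c) (le_refl _) hz0
  have hpc := point_condition (K := k) h0 hz0
  rw [Finset.union_comm (rg (F 0)) (rg c)] at hpc
  have hzc : rk k (rg (F 0)) ≤ n + 1 := by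
    refine (rk_le_card k _).trans (Finset.card_image_le.trans ?_)
    rw [Finset.card_univ, Fintype.card_fin]
  have hz : rk k (rg (F 0)) = n + 1 := by omega
  -- step 2
  obtain ⟨j, hj⟩ : ∃ j, F (E + 1) j ≠ 0 := by
    by_contra hcon
    push Not at hcon
    exact he (funext hcon)
  obtain ⟨s, hs⟩ := IsAlgClosed.exists_pow_nat_eq ((F (E + 1) j)⁻¹) (Nat.succ_pos E)
  have hs0 : s ≠ 0 := by
    rintro rfl
    rw [zero_pow (Nat.succ_ne_zero E)] at hs
    exact inv_ne_zero hj hs.symm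
  obtain ⟨A, hA⟩ : ∃ A : ℕ → Fin (n + 1) → Ω, A = fun l i => s ^ l * F l i := ⟨_, rfl⟩
  have hA0 : A 0 = F 0 := by
    rw [hA]
    funext i
    change s ^ 0 * F 0 i = F 0 i
    rw [pow_zero, one_mul]
  have hAj : A (E + 1) j = 1 := by
    rw [hA]
    change s ^ (E + 1) * F (E + 1) j = 1
    rw [hs, inv_mul_cancel₀ hj]
  have hVA : Van c A (E + 1) := by
    rw [hA]
    exact vanp_scale s hV
  have hrA : Fintype.card (Mon n d) + m * (E + 1) + n ≤ rk k (rg c ∪ rga A (E + 1)) + 1 := by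
    rw [hA]
    exact hr.trans (scale63 (rg c) hs0 F (E + 1))
  -- step 3
  obtain ⟨G, hGdef⟩ : ∃ G : (Mon n d → Ω) → Prop,
      G = fun g => NL k m E g ∧ eval (F 0) (fm g) = 0 := ⟨_, rfl⟩
  have hG : ∀ g, G g → ∀ t : Ω, t ≠ 0 → G fun m => t * g m := by
    intro g hg t ht
    rw [hGdef] at hg ⊢
    refine ⟨nl_smul hb hd1 ht hg.1, ?_⟩
    rw [fm_smul, map_mul, hg.2, mul_zero]
  have hG1 : ∀ g, G g → g ≠ 0 →
      rk (IntermediateField.adjoin k ((rg (F 0) : Finset Ω) : Set Ω)) (rg g) ≤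
        Fintype.card (Mon n d) - κ - 1 := by
    intro g hg hg0
    rw [hGdef] at hg
    have h1 := nl_bound hκ hg.1
    have h2 := zero_le (K := k) hg0 (S := rg g) (le_refl _) hg.2
    have h3 := over63 k (F 0) hz (rg g)
    rw [Finset.union_comm] at h3
    omega
  have hGc : ¬ G c := by
    intro h
    rw [hGdef] at h
    have h1 := nl_bound hκ h.1
    omega
  -- the point over the bigger field
  have hmul : m * (E + 1) = m * E + m := by ring
  have hmE : m ≤ m * E := Nat.le_mul_of_pos_right m hE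
  have hsub : rg (F 0) ⊆ rga A (E + 1) := by
    intro x hx
    obtain ⟨i, _, rfl⟩ := Finset.mem_image.1 hx
    rw [← hA0]
    exact mem_rga63 (Nat.zero_le _) i
  have hX : ∀ t : Ω, t ≠ 0 → Fintype.card (Mon n d) + m * (E + 1) ≤
      rk (IntermediateField.adjoin k ((rg (F 0) : Finset Ω) : Set Ω))
        (rg (fun m => c m / t) ∪ rga A (E + 1)) + 3 := by
    intro t ht
    have h1 := norm63 (k := k) (rga A (E + 1)) c ht
    have h2 := over63 k (F 0) hz (rg (fun m => c m / t) ∪ rga A (E + 1))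
    rw [Finset.union_eq_right.2 (hsub.trans Finset.subset_union_right)] at h2
    omega
  have hle : rk (IntermediateField.adjoin k ((rg (F 0) : Finset Ω) : Set Ω)) (rg (A (E + 1))) ≤ n :=
    one63 hAj
  have hA1 : rk (IntermediateField.adjoin k ((rg (F 0) : Finset Ω) : Set Ω)) (rg (A (E + 1))) +
      (Fintype.card (Mon n d) - κ - 1) <
      rk (IntermediateField.adjoin k ((rg (F 0) : Finset Ω) : Set Ω))
        (rg (fun m => c m / c α₀) ∪ rga A (E + 1)) := by
    have h1 := hX (c α₀) hα₀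
    omega
  have hNC : rk (IntermediateField.adjoin k ((rg (F 0) : Finset Ω) : Set Ω)) (rg (A (E + 1))) <
      rk (IntermediateField.adjoin k ((rg (F 0) : Finset Ω) : Set Ω)) (rga A (E + 1)) := by
    have hna : ¬ ∃ v : Fin (n + 1) → Ω, ∀ l ≤ E + 1, ∃ t : Ω, ∀ i, A l i = t * v i := by
      intro h
      have h1 := prop63 (k := k) (rg c) (by rw [hA0]; exact h0) h
      rw [hA0] at h1
      have h3 : E * 3 ≤ m * E := by
        rw [mul_comm]
        exact Nat.mul_le_mul_right E (by omega)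
      omega
    have h1 := curve_conditions (K := k) hVA hna
    rw [Finset.union_comm (rga A (E + 1)) (rg c)] at h1
    have h2 := over63 k (F 0) hz (rga A (E + 1))
    rw [Finset.union_eq_right.2 hsub] at h2
    omega
  obtain ⟨x, hxdef⟩ : ∃ x : Fin (n + 1) → IntermediateField.adjoin k ((rg (F 0) : Finset Ω) : Set Ω),
      ∀ i, algebraMap _ Ω (x i) = F 0 i :=
    ⟨fun i => ⟨F 0 i, IntermediateField.subset_adjoin k _ (Finset.mem_coe.2 (mem_rg63 (F 0) i))⟩,
      fun i => rfl⟩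
  have hx0 : x ≠ 0 := by
    rintro rfl
    apply h0
    funext i
    rw [← hxdef i]
    exact map_zero _
  have hbk := big_adjoin k hb (rg (F 0))
  obtain ⟨α, θ, τ, b, c', τ', a', η, hα, hθ, hτ, hab, hspc, hc'α, hGc', hbrk, hfc, hnod, ha'0, hη,
      ha'e, hr1, hr2⟩ := fam_break' hbk (by omega) G hG hG1 c hGc x hx0 A
    (by rw [hA0]; funext i; exact (hxdef i).symm) j hAj hVA α₀ hα₀ hA1 hNC
  have ha'z : a' 0 = F 0 := by
    rw [ha'0]
    funext i
    exact hxdef i
  -- `z` is a zero of `c'`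
  have hz' : eval (F 0) (fm c') = 0 := by
    have h1 := eval_zero_of_vanp (vanp_of_fcp (by omega) hfc)
    have h2 : (fun i => wt (E + 1) τ' 0 * a' 0 i) = F 0 := by
      funext i
      rw [wt_zero, one_mul, ha'z]
    rw [h2] at h1
    exact h1
  have hlay : Lay k m E c' := by
    by_contra h
    apply hGc'
    rw [hGdef]
    exact ⟨nl_of_not_lay h, hz'⟩
  have hc'0 : c' ≠ 0 := by
    rintro rfl
    exact zero_ne_one hc'α
  -- the dimension of the chain over `k(z)`
  have hch := chain_bound hbk (lay_adjoin (rg (F 0)) hlay) (E + 1) (by omega) τ' a'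
    (Or.inr ⟨le_refl _, hbrk⟩) hfc hnod
  rw [ha'z] at hch
  have h1 := over63 k (F 0) hz (rg c' ∪ rg (F 0))
  rw [Finset.union_comm (rg c') (rg (F 0)), ← Finset.union_assoc, Finset.union_self] at h1
  have h2 := over63 k (F 0) hz (rg c')
  rw [Finset.union_comm (rg c') (rg (F 0))] at hch
  have h3 := hX (c α) hα
  have hbet : bet c' (F 0) = 0 := by
    unfold bet
    rw [if_neg]
    intro hsing
    have h4 := sing_conditions (K := k) hd1 h0 hz' hsing
    have h5 : bet c' (F 0) ≤ 1 := by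
      unfold bet
      split_ifs
      all_goals omega
    omega
  have h6 := zero_le (K := k) hc'0 (S := rg c') (le_refl _) hz'
  rw [Finset.union_comm (rg c') (rg (F 0))] at h6
  have h7 := over63 k (F 0) hz (rg c' ∪ rgt τ' (E + 1) ∪ rga a' (E + 1))
  have h8 : rg (F 0) ⊆ rg c' ∪ rgt τ' (E + 1) ∪ rga a' (E + 1) := by
    intro y hy
    obtain ⟨i, _, rfl⟩ := Finset.mem_image.1 hy
    rw [← ha'z]
    exact Finset.mem_union_right _ (mem_rga63 (Nat.zero_le _) i)
  rw [Finset.union_eq_right.2 h8] at h7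
  refine ⟨α, θ * s, τ, b, c', τ', a', hα, mul_ne_zero hθ hs0, hτ, fun l hl i => ?_,
    Spc.restrict _ hspc, hc'α, hbrk, hfc, hnod, by omega, by omega⟩
  rw [← hab l hl i, hA]
  ring

end Pool.Agent.Helper30.RY
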