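import Mathlib
import Pool.Agent.Helper30.RY.Gnl
import Pool.Agent.Helper30.RY.Chn
import Pool.Agent.Helper30.RY.Cvc
import Pool.Agent.Helper30.RY.Spi

/-!
# Block RY-HFB: undoing the normalisations

`fcp_scale`: for `u i ≠ 0` put `τ₁ i = u i τ i` and `a₁ l = ϑ^l (∏_{1 ≤ i < e} (u i)⁻¹^(l - i)) a l` (truncated
subtraction).  For `j < e`, `l ≤ e` one has `pcc j e τ₁ a₁ l = C θ'^l pcc j e τ a l` with `C = ∏_{1≤s≤j} u_s^s`,
`θ' = ϑ ∏_{1≤s≤j} u_s⁻¹`, because `(s - l) - (l - s)` (truncated) is `s - l` as an integer.  So `FCp` is preserved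
(`vanp_smul`, `vanp_scale`, homogeneity of `f`).

`break_unnorm`.  `N = card (Mon n d)`; `ĉ = c / c α`.  Put `u₀ i = τ₀ i / τ i`, `ϑ₀ = θ⁻¹`, so that
`τ₀ i = u₀ i τ i` and `a₀ l = ϑ₀^l (∏ (u₀ i)⁻¹^(l-i)) b l` for `l ≤ e` (`hab`; `wt_ne_zero`).  For a scalar `γ`, `ϑ` and
`u : ℕ → Ω` with `u i ≠ 0` let `Φ(γ, ϑ, u; c, τ, a) = (γ c, u τ, ϑ^l (∏ (u i)⁻¹^(l-i)) a l)`.
So `P = (c, τ₀, a₀) = Φ(c α, ϑ₀, u₀; ĉ, τ, b)`.  Let `(γ, ϑ, u 1, ..., u (e-1))` be generic over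
`k` and all elements in sight (`exists_generic`), and
`P₁ = Φ(γ, ϑ, u; ĉ, τ, b)`, `P' = Φ(γ, ϑ, u; c', τ', a')`; the second is the point `(c₁, τ₁, a₁)` to be found.
1. `P₁ ⟶ P`: `Spc.elim_generic` gives `(ĉ, τ, b; γ, ϑ, u) ⟶ (ĉ, τ, b; c α, ϑ₀, u₀)`, `Spc.inv` with
   `Q = ∏ u i` adds the inverse of `∏ u i` (hence `(u i)⁻¹ = (∏ u)⁻¹ ∏_{j≠i} u j`), and `Φ` is polynomial in these.
   In the same way `P₁ ⟶ P'` (from `hs` and `Spc.elim_generic`).
2. `rk P₁ ≤ rk P`: `γ ĉ` is generic over `k`: `rk (rg ĉ) ≥ N - 1` (`c` is algebraic over `ĉ` and `c α`) and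
   `rk (rg (γ ĉ)) = rk (rg ĉ) + 1` (`ĉ α = 1`).  `(τ, b)` is a chain on `ĉ`: `fcp_of_vanp`, as
   `wt e τ l * b l = θ^l (wt e τ₀ l * a₀ l)` is a curve on `c`, hence on `ĉ` (`vanp_of_fcp`, `vanp_scale`,
   `fm_smul`).  By `fcp_scale` (and `fm_smul`) `P₁` is a chain on `γ ĉ`, with nonzero ends.
   `generic_lay`, `generic_smooth`, `chain_bound` and `zero_le` give `rk P₁ ≤ N + n + m e + (e - 1) = rk P`.
3. `Spc.symm_of_rk`: `P ⟶ P₁ ⟶ P'`.
4. `rk (rg c₁) = rk (rg c') + 1 ≥ N` (`c' α = 1`, `γ` generic).  `P'` is a chain on `c₁ = γ c'`: `fcp_scale`.  The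
   breaks of `τ₁ = u τ'` are those of `τ'`, the nodes are nonzero multiples.
5. `rk P'`: `P'` and the `e` elements `ϑ, u 1, ..., u (e-1)` generate `c'`, `γ` (`c' α = 1`), `τ'`, `a'`, so
   `rk P' + e ≥ rk (c', τ', a', γ, ϑ, u) = rk (c', τ', a') + 1 + e`.
   (If `e = 0`... `e ≥ 1` is assumed.)
-/

namespace Pool.Agent.Helper30.RY

open MvPolynomial

/-- the action of scalars on the vectors of a chain -/
def sca {Ω : Type*} [Field Ω] {n : ℕ} (e : ℕ) (ϑ : Ω) (u : ℕ → Ω) (a : ℕ → Fin (n + 1) → Ω)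
    (l : ℕ) (i : Fin (n + 1)) : Ω :=
  ϑ ^ l * (∏ s ∈ Finset.Ico 1 e, (u s)⁻¹ ^ (l - s)) * a l i

private theorem pw88 {F : Type*} [Field F] {x : F} (hx : x ≠ 0) (s l : ℕ) :
    x ^ (s - l) = x ^ s * x⁻¹ ^ l * x ^ (l - s) := by
  rcases Nat.le_total s l with h | h
  · rw [Nat.sub_eq_zero_of_le h, pow_zero]
    have h1 : x⁻¹ ^ l = x⁻¹ ^ s * x⁻¹ ^ (l - s) := by
      rw [← pow_add]
      congr 1
      omega
    rw [h1, ← mul_assoc, ← mul_pow, mul_inv_cancel₀ hx, one_pow, one_mul, ← mul_pow,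
      inv_mul_cancel₀ hx, one_pow]
  · rw [Nat.sub_eq_zero_of_le h, pow_zero, mul_one]
    have h1 : x ^ s = x ^ (s - l) * x ^ l := by
      rw [← pow_add]
      congr 1
      omega
    rw [h1, mul_assoc, ← mul_pow, mul_inv_cancel₀ hx, one_pow, mul_one]

private theorem pcc_sca88 {F : Type*} [Field F] {n e : ℕ} {τ : ℕ → F} {a : ℕ → Fin (n + 1) → F}
    (ϑ : F) {u : ℕ → F} (hu : ∀ s, 1 ≤ s → s < e → u s ≠ 0) {j : ℕ} (hj : j < e) (l : ℕ)
    (i : Fin (n + 1)) :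
    pcc j e (fun s => u s * τ s) (sca e ϑ u a) l i =
      (∏ s ∈ Finset.Ico 1 (j + 1), u s ^ s) *
        ((ϑ * ∏ s ∈ Finset.Ico 1 (j + 1), (u s)⁻¹) ^ l * pcc j e τ a l i) := by
  unfold pcc sca
  have h0 : ∏ s ∈ Finset.Ico 1 e, (u s)⁻¹ ^ (l - s) =
      (∏ s ∈ Finset.Ico 1 (j + 1), (u s)⁻¹ ^ (l - s)) *
        ∏ s ∈ Finset.Ico (j + 1) e, (u s)⁻¹ ^ (l - s) :=
    (Finset.prod_Ico_consecutive _ (by omega) hj).symm
  have h1 : (∏ s ∈ Finset.Ico 1 (j + 1), (u s)⁻¹ ^ (l - s)) *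
      (∏ s ∈ Finset.Ico 1 (j + 1), (u s * τ s) ^ (s - l)) =
      (∏ s ∈ Finset.Ico 1 (j + 1), u s ^ s) * (∏ s ∈ Finset.Ico 1 (j + 1), (u s)⁻¹) ^ l *
        ∏ s ∈ Finset.Ico 1 (j + 1), τ s ^ (s - l) := by
    rw [← Finset.prod_pow, ← Finset.prod_mul_distrib, ← Finset.prod_mul_distrib,
      ← Finset.prod_mul_distrib]
    refine Finset.prod_congr rfl fun s hs => ?_
    have hs' := Finset.mem_Ico.1 hs
    have hus := hu s hs'.1 (by omega)
    rw [mul_pow, pw88 hus s l]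
    have h2 : (u s)⁻¹ ^ (l - s) * u s ^ (l - s) = 1 := by
      rw [← mul_pow, inv_mul_cancel₀ hus, one_pow]
    calc (u s)⁻¹ ^ (l - s) * (u s ^ s * (u s)⁻¹ ^ l * u s ^ (l - s) * τ s ^ (s - l))
        = ((u s)⁻¹ ^ (l - s) * u s ^ (l - s)) * (u s ^ s * (u s)⁻¹ ^ l * τ s ^ (s - l)) := by ring
      _ = u s ^ s * (u s)⁻¹ ^ l * τ s ^ (s - l) := by rw [h2, one_mul]
  have h3 : (∏ s ∈ Finset.Ico (j + 1) e, (u s)⁻¹ ^ (l - s)) *
      (∏ s ∈ Finset.Ico (j + 1) e, (u s * τ s) ^ (l - s)) =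
      ∏ s ∈ Finset.Ico (j + 1) e, τ s ^ (l - s) := by
    rw [← Finset.prod_mul_distrib]
    refine Finset.prod_congr rfl fun s hs => ?_
    have hs' := Finset.mem_Ico.1 hs
    have hus := hu s (by omega) hs'.2
    rw [← mul_pow, ← mul_assoc, inv_mul_cancel₀ hus, one_mul]
  rw [h0]
  calc ϑ ^ l * ((∏ s ∈ Finset.Ico 1 (j + 1), (u s)⁻¹ ^ (l - s)) *
        ∏ s ∈ Finset.Ico (j + 1) e, (u s)⁻¹ ^ (l - s)) * a l i *
        (∏ s ∈ Finset.Ico 1 (j + 1), (u s * τ s) ^ (s - l)) *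
        (∏ s ∈ Finset.Ico (j + 1) e, (u s * τ s) ^ (l - s))
      = ϑ ^ l * a l i * ((∏ s ∈ Finset.Ico 1 (j + 1), (u s)⁻¹ ^ (l - s)) *
        (∏ s ∈ Finset.Ico 1 (j + 1), (u s * τ s) ^ (s - l))) *
        ((∏ s ∈ Finset.Ico (j + 1) e, (u s)⁻¹ ^ (l - s)) *
        (∏ s ∈ Finset.Ico (j + 1) e, (u s * τ s) ^ (l - s))) := by ring
    _ = _ := by
      rw [h1, h3, mul_pow]
      ring

theorem fcp_scale {Ω : Type*} [Field Ω] {n q e : ℕ} {f : MvPolynomial (Fin (n + 1)) Ω}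
    (hf : f.IsHomogeneous q) {τ : ℕ → Ω} {a : ℕ → Fin (n + 1) → Ω} (ϑ : Ω) {u : ℕ → Ω}
    (hu : ∀ s, 1 ≤ s → s < e → u s ≠ 0) (h : FCp f τ a e) :
    FCp f (fun s => u s * τ s) (sca e ϑ u a) e := by
  intro j hj
  have h1 := vanp_smul hf (∏ s ∈ Finset.Ico 1 (j + 1), u s ^ s)
    (vanp_scale (ϑ * ∏ s ∈ Finset.Ico 1 (j + 1), (u s)⁻¹) (h j hj))
  exact (vanp_congr fun l _ i => (pcc_sca88 ϑ hu hj l i).symm).mp h1

private theorem fcp_smul88 {F : Type*} [Field F] {n d e : ℕ} {c : Mon n d → F} {τ : ℕ → F}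
    {a : ℕ → Fin (n + 1) → F} (γ : F) (h : FCp (fm c) τ a e) :
    FCp (fm fun m => γ * c m) τ a e := by
  intro j hj
  have h1 := h j hj
  unfold Vanp at h1 ⊢
  rw [fm_smul, map_mul, h1, mul_zero]

/-- the action of scalars on points -/
private def phi88 {A : Type*} [CommRing A] {n d : ℕ} (e : ℕ) (γ ϑ V : A) (u : ℕ → A)
    (x : Mon n d ⊕ (Fin (e - 1) ⊕ (Fin (e + 1) × Fin (n + 1))) → A) :
    Mon n d ⊕ (Fin (e - 1) ⊕ (Fin (e + 1) × Fin (n + 1))) → A :=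
  Sum.elim (fun m => γ * x (Sum.inl m))
    (Sum.elim (fun i => u (i + 1) * x (Sum.inr (Sum.inl i)))
      fun p => ϑ ^ (p.1 : ℕ) * (∏ s ∈ Finset.Ico 1 e,
        (V * ∏ s' ∈ (Finset.Ico 1 e).erase s, u s') ^ ((p.1 : ℕ) - s)) * x (Sum.inr (Sum.inr p)))

private theorem map_phi88 {A B F : Type*} [CommRing A] [CommRing B] [FunLike F A B]
    [RingHomClass F A B] (f : F) {n d : ℕ} (e : ℕ)
    (γ ϑ V : A) (u : ℕ → A) (x : Mon n d ⊕ (Fin (e - 1) ⊕ (Fin (e + 1) × Fin (n + 1))) → A)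
    (i : Mon n d ⊕ (Fin (e - 1) ⊕ (Fin (e + 1) × Fin (n + 1)))) :
    f (phi88 e γ ϑ V u x i) =
      phi88 e (f γ) (f ϑ) (f V) (fun s => f (u s)) (fun j => f (x j)) i := by
  unfold phi88
  rcases i with i | i | i
  · simp only [Sum.elim_inl, map_mul]
  · simp only [Sum.elim_inl, Sum.elim_inr, map_mul]
  · simp only [Sum.elim_inr, map_mul, map_pow, map_prod]

/-- the scalars `u` -/
private def uu88 {A : Type*} [One A] (e : ℕ) (w : Fin 2 ⊕ Fin (e - 1) → A) (s : ℕ) : A :=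
  if h : 1 ≤ s ∧ s < e then w (Sum.inr ⟨s - 1, by omega⟩) else 1

private theorem map_uu88 {A B F : Type*} [CommRing A] [CommRing B] [FunLike F A B]
    [RingHomClass F A B] (f : F) (e : ℕ)
    (w : Fin 2 ⊕ Fin (e - 1) → A) (s : ℕ) : f (uu88 e w s) = uu88 e (fun k => f (w k)) s := by
  unfold uu88
  split_ifs
  · rfl
  · exact map_one f

private theorem aeval_uu88 {K F : Type*} [Field K] [Field F] [Algebra K F] {σ : Type*} (e : ℕ)
    (g : σ → F) (w : Fin 2 ⊕ Fin (e - 1) → σ) (s : ℕ) :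
    aeval g (uu88 e (fun k => (X (w k) : MvPolynomial σ K)) s) = uu88 e (fun k => g (w k)) s := by
  rw [map_uu88]
  simp only [aeval_X]

private theorem aeval_phi88 {K F : Type*} [Field K] [Field F] [Algebra K F] {n d e : ℕ}
    (y : Mon n d ⊕ (Fin (e - 1) ⊕ (Fin (e + 1) × Fin (n + 1))) → F)
    (v : Fin 2 ⊕ Fin (e - 1) → F) (r : F)
    (j : Mon n d ⊕ (Fin (e - 1) ⊕ (Fin (e + 1) × Fin (n + 1)))) :
    aeval (Sum.elim (Sum.elim y v) fun _ : Unit => r)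
        (phi88 e (X (Sum.inl (Sum.inr (Sum.inl 0))))
          (X (Sum.inl (Sum.inr (Sum.inl 1)))) (X (Sum.inr ()))
          (uu88 e fun k => X (Sum.inl (Sum.inr k)))
          (fun i => X (Sum.inl (Sum.inl i))) j : MvPolynomial (((Mon n d ⊕ (Fin (e - 1) ⊕
            (Fin (e + 1) × Fin (n + 1)))) ⊕ (Fin 2 ⊕ Fin (e - 1))) ⊕ Unit) K) =
        phi88 e (v (Sum.inl 0)) (v (Sum.inl 1)) r (uu88 e v) y j := by
  rw [map_phi88]
  simp only [aeval_X, aeval_uu88, Sum.elim_inl, Sum.elim_inr]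

private theorem spc_phi88 {K : Type*} [Field K] {Ω Ω' : Type*} [Field Ω] [Field Ω']
    [Algebra K Ω] [Algebra K Ω'] {n d e : ℕ}
    {x : Mon n d ⊕ (Fin (e - 1) ⊕ (Fin (e + 1) × Fin (n + 1))) → Ω}
    {x' : Mon n d ⊕ (Fin (e - 1) ⊕ (Fin (e + 1) × Fin (n + 1))) → Ω'}
    {w : Fin 2 ⊕ Fin (e - 1) → Ω} {w' : Fin 2 ⊕ Fin (e - 1) → Ω'}
    (h : Spc K (Sum.elim x w) (Sum.elim x' w'))
    (hw' : ∏ s ∈ Finset.Ico 1 e, uu88 e w' s ≠ 0) :
    Spc K (phi88 e (w (Sum.inl 0)) (w (Sum.inl 1)) (∏ s ∈ Finset.Ico 1 e, uu88 e w s)⁻¹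
        (uu88 e w) x)
      (phi88 e (w' (Sum.inl 0)) (w' (Sum.inl 1)) (∏ s ∈ Finset.Ico 1 e, uu88 e w' s)⁻¹
        (uu88 e w') x') := by
  set Q : MvPolynomial ((Mon n d ⊕ (Fin (e - 1) ⊕ (Fin (e + 1) × Fin (n + 1)))) ⊕
      (Fin 2 ⊕ Fin (e - 1))) K :=
    ∏ s ∈ Finset.Ico 1 e, uu88 e (fun k => X (Sum.inr k)) s with hQdef
  have hQ : aeval (Sum.elim x w) Q = ∏ s ∈ Finset.Ico 1 e, uu88 e w s := by
    rw [hQdef, map_prod]
    refine Finset.prod_congr rfl fun s _ => ?_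
    rw [aeval_uu88]
    rfl
  have hQ' : aeval (Sum.elim x' w') Q = ∏ s ∈ Finset.Ico 1 e, uu88 e w' s := by
    rw [hQdef, map_prod]
    refine Finset.prod_congr rfl fun s _ => ?_
    rw [aeval_uu88]
    rfl
  have h1 := Spc.inv h Q (by rw [hQ']; exact hw')
  rw [hQ, hQ'] at h1
  have h2 := Spc.poly h1 (phi88 e (X (Sum.inl (Sum.inr (Sum.inl 0))))
    (X (Sum.inl (Sum.inr (Sum.inl 1)))) (X (Sum.inr ())) (uu88 e fun k => X (Sum.inl (Sum.inr k)))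
    fun i => X (Sum.inl (Sum.inl i)))
  simp only [aeval_phi88] at h2
  exact h2

private theorem phi_pt88 {F : Type*} [Field F] {n d e : ℕ} (γ ϑ : F) {u : ℕ → F}
    (hu : ∀ s, 1 ≤ s → s < e → u s ≠ 0) (c : Mon n d → F) (τ : ℕ → F) (a : ℕ → Fin (n + 1) → F) :
    phi88 e γ ϑ (∏ s ∈ Finset.Ico 1 e, u s)⁻¹ u (pt c τ a e) =
      pt (fun m => γ * c m) (fun s => u s * τ s) (sca e ϑ u a) e := by
  funext i
  rcases i with i | i | i
  · rfl
  · rfl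
  · change ϑ ^ (i.1 : ℕ) * (∏ s ∈ Finset.Ico 1 e, ((∏ s ∈ Finset.Ico 1 e, u s)⁻¹ *
        ∏ s' ∈ (Finset.Ico 1 e).erase s, u s') ^ ((i.1 : ℕ) - s)) * a i.1 i.2 =
      ϑ ^ (i.1 : ℕ) * (∏ s ∈ Finset.Ico 1 e, (u s)⁻¹ ^ ((i.1 : ℕ) - s)) * a i.1 i.2
    congr 2
    refine Finset.prod_congr rfl fun s hs => ?_
    congr 1
    have hs' := Finset.mem_Ico.1 hs
    have h1 := Finset.mul_prod_erase (Finset.Ico 1 e) u hs
    have h2 : ∏ s ∈ Finset.Ico 1 e, u s ≠ 0 :=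
      Finset.prod_ne_zero_iff.2 fun s hs => hu s (Finset.mem_Ico.1 hs).1 (Finset.mem_Ico.1 hs).2
    have h3 := hu s hs'.1 hs'.2
    rw [← h1, mul_inv, mul_assoc, inv_mul_cancel₀, mul_one]
    intro h4
    rw [h4, mul_zero] at h1
    exact h2 h1.symm


variable {k : Type*} [Field k] {Ω : Type*} [Field Ω] [Algebra k Ω] [IsAlgClosed Ω]
  [DecidableEq Ω] {n d m : ℕ}

private theorem mem_rg88 {ι : Type*} [Fintype ι] (a : ι → Ω) (i : ι) : a i ∈ rg a :=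
  Finset.mem_image_of_mem _ (Finset.mem_univ i)

private theorem mem_rga88 {a : ℕ → Fin (n + 1) → Ω} {e l : ℕ} (hl : l ≤ e) (i : Fin (n + 1)) :
    a l i ∈ rga a e :=
  Finset.mem_biUnion.2 ⟨l, Finset.mem_range.2 (by omega), mem_rg88 (a l) i⟩

private theorem rga_mem88 {a : ℕ → Fin (n + 1) → Ω} {e : ℕ} {x : Ω} (hx : x ∈ rga a e) :
    ∃ l ≤ e, ∃ i, x = a l i := by
  obtain ⟨l, hl, hx⟩ := Finset.mem_biUnion.1 hx
  obtain ⟨i, _, rfl⟩ := Finset.mem_image.1 hx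
  exact ⟨l, by have := Finset.mem_range.1 hl; omega, i, rfl⟩

private theorem mem_rgt88 {τ : ℕ → Ω} {e s : ℕ} (h1 : 1 ≤ s) (h2 : s < e) : τ s ∈ rgt τ e :=
  Finset.mem_image_of_mem _ (Finset.mem_Ico.2 ⟨h1, h2⟩)

private theorem rgt_mem88 {τ : ℕ → Ω} {e : ℕ} {x : Ω} (hx : x ∈ rgt τ e) :
    ∃ s, 1 ≤ s ∧ s < e ∧ x = τ s := by
  obtain ⟨s, hs, rfl⟩ := Finset.mem_image.1 hx
  have := Finset.mem_Ico.1 hs
  exact ⟨s, this.1, this.2, rfl⟩

private theorem rk_rg_le88 (c : Mon n d → Ω) : rk k (rg c) ≤ Fintype.card (Mon n d) :=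
  (rk_le_card k _).trans Finset.card_image_le

/-- the rank of a multiple of a normalised tuple by a generic scalar -/
private theorem rk_scale88 {c : Mon n d → Ω} {α : Mon n d} (hα : c α = 1) {γ : Ω}
    (hγ : γ ∉ cl k (rg c)) : rk k (rg fun m => γ * c m) = rk k (rg c) + 1 := by
  have h0 : γ ≠ 0 := by
    rintro rfl
    exact hγ (zero_mem _)
  have hγm : γ ∈ cl k (rg fun m => γ * c m) := by
    have h1 := subset_cl k _ _ (mem_rg88 (fun m => γ * c m) α)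
    rw [hα, mul_one] at h1
    exact h1
  rw [← rk_insert_of_notMem k hγ]
  refine le_antisymm (rk_le_of_subset_cl k fun x hx => ?_) (rk_le_of_subset_cl k fun x hx => ?_)
  · obtain ⟨m, _, rfl⟩ := Finset.mem_image.1 hx
    exact mul_mem (subset_cl k _ _ (Finset.mem_insert_self _ _))
      (subset_cl k _ _ (Finset.mem_insert_of_mem (mem_rg88 c m)))
  · rcases Finset.mem_insert.1 hx with rfl | hx
    · exact hγm
    · obtain ⟨m, _, rfl⟩ := Finset.mem_image.1 hx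
      have h1 : c m = γ⁻¹ * (γ * c m) := by
        rw [← mul_assoc, inv_mul_cancel₀ h0, one_mul]
      rw [h1]
      exact mul_mem (inv_mem hγm) (subset_cl k _ _ (mem_rg88 (fun m => γ * c m) m))

omit [IsAlgClosed Ω] [DecidableEq Ω] [Algebra k Ω] [Field k] in
private theorem sca_zero88 {e : ℕ} (ϑ : Ω) (u : ℕ → Ω) (a : ℕ → Fin (n + 1) → Ω) :
    sca e ϑ u a 0 = a 0 := by
  funext i
  unfold sca
  rw [pow_zero, one_mul, Finset.prod_eq_one, one_mul]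
  intro s _
  rw [Nat.zero_sub, pow_zero]

omit [IsAlgClosed Ω] [DecidableEq Ω] [Algebra k Ω] [Field k] in
private theorem sc_ne88 {e : ℕ} {ϑ : Ω} {u : ℕ → Ω} (hϑ : ϑ ≠ 0)
    (hu : ∀ s, 1 ≤ s → s < e → u s ≠ 0) (l : ℕ) :
    ϑ ^ l * ∏ s ∈ Finset.Ico 1 e, (u s)⁻¹ ^ (l - s) ≠ 0 := by
  refine mul_ne_zero (pow_ne_zero _ hϑ) (Finset.prod_ne_zero_iff.2 fun s hs => ?_)
  have hs' := Finset.mem_Ico.1 hs
  exact pow_ne_zero _ (inv_ne_zero (hu s hs'.1 hs'.2))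

omit [IsAlgClosed Ω] [DecidableEq Ω] [Algebra k Ω] [Field k] in
private theorem sca_ne88 {e : ℕ} {ϑ : Ω} {u : ℕ → Ω} (hϑ : ϑ ≠ 0)
    (hu : ∀ s, 1 ≤ s → s < e → u s ≠ 0) {a : ℕ → Fin (n + 1) → Ω} {l : ℕ} (h : a l ≠ 0) :
    sca e ϑ u a l ≠ 0 := by
  intro h1
  apply h
  funext i
  have h2 := congrFun h1 i
  unfold sca at h2
  exact (mul_eq_zero.1 h2).resolve_left (sc_ne88 hϑ hu l)

omit [IsAlgClosed Ω] [Algebra k Ω] [Field k] in
private theorem brk_scale88 {e : ℕ} {u : ℕ → Ω} (hu : ∀ s, 1 ≤ s → s < e → u s ≠ 0)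
    (τ : ℕ → Ω) : brk (fun s => u s * τ s) e = brk τ e := by
  ext j
  rw [mem_brk, mem_brk]
  constructor
  · rintro ⟨h1, h2, h3⟩
    exact ⟨h1, h2, (mul_eq_zero.1 h3).resolve_left (hu j h1 h2)⟩
  · rintro ⟨h1, h2, h3⟩
    exact ⟨h1, h2, by rw [h3, mul_zero]⟩

omit [IsAlgClosed Ω] [Algebra k Ω] [Field k] in
private theorem nod_scale88 {e : ℕ} {ϑ : Ω} {u : ℕ → Ω} (hϑ : ϑ ≠ 0)
    (hu : ∀ s, 1 ≤ s → s < e → u s ≠ 0) {τ : ℕ → Ω} {a : ℕ → Fin (n + 1) → Ω}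
    (h : Nod τ a e) : Nod (fun s => u s * τ s) (sca e ϑ u a) e := by
  refine ⟨sca_ne88 hϑ hu h.1, sca_ne88 hϑ hu h.2.1, fun i hi => ?_⟩
  rw [brk_scale88 hu] at hi
  exact sca_ne88 hϑ hu (h.2.2 i hi)

private theorem t_ne88 {s : Finset Ω} {κ : Type*} [Fintype κ] [DecidableEq κ] {t : κ → Ω}
    (ht : rk k (s ∪ rg t) = rk k s + Fintype.card κ) (i : κ) : t i ≠ 0 := by
  intro h
  have h1 := generic_notMem ht i
  rw [h] at h1
  exact h1 (zero_mem _)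

omit [IsAlgClosed Ω] [DecidableEq Ω] [Algebra k Ω] [Field k] in
private theorem uu_val88 {e s : ℕ} (w : Fin 2 ⊕ Fin (e - 1) → Ω) (h1 : 1 ≤ s) (h2 : s < e) :
    uu88 e w s = w (Sum.inr ⟨s - 1, by omega⟩) := by
  unfold uu88
  rw [dif_pos ⟨h1, h2⟩]

omit [IsAlgClosed Ω] [DecidableEq Ω] [Algebra k Ω] [Field k] in
private theorem eval_start88 {q e : ℕ} {f : MvPolynomial (Fin (n + 1)) Ω} (_ : f.IsHomogeneous q)
    (he : 1 ≤ e) {τ : ℕ → Ω} {a : ℕ → Fin (n + 1) → Ω} (h : FCp f τ a e) : eval (a 0) f = 0 := by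
  have h1 := eval_zero_of_vanp (vanp_of_fcp he h)
  have h2 : (fun i => wt e τ 0 * a 0 i) = a 0 := by
    funext i
    rw [wt_zero, one_mul]
  rw [← h2]
  exact h1

/-- the rank of a chain on a generic form -/
private theorem chain_rk88 (hb : Big k Ω) (hd : 1 ≤ d) (hn : d + 2 ≤ n) (hm : m + d = n + 1)
    {e : ℕ} (he : 1 ≤ e) {c : Mon n d → Ω} (hc : rk k (rg c) = Fintype.card (Mon n d))
    (hc0 : c ≠ 0)
    {τ : ℕ → Ω} {a : ℕ → Fin (n + 1) → Ω} (hF : FCp (fm c) τ a e) (hN : Nod τ a e) :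
    rk k (rg c ∪ rgt τ e ∪ rga a e) + (brk τ e).card ≤
      Fintype.card (Mon n d) + m * e + n + (e - 1) := by
  have h0 := eval_start88 (fm_hom c) he hF
  have h1 := chain_bound hb (generic_lay hb hd hn hm hc e) e he τ a (Or.inl le_rfl) hF hN
  have h2 : bet c (a 0) = 0 := by
    unfold bet
    rw [if_neg (generic_smooth hb hd hc hN.1 h0)]
  have h3 := zero_le (K := k) hc0 (Finset.Subset.refl (rg c)) h0
  omega

theorem break_unnorm (hb : Big k Ω) (hd : 1 ≤ d) (hn : d + 2 ≤ n) (hm : m + d = n + 1) {e : ℕ}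
    (he : 1 ≤ e) {c : Mon n d → Ω} (hc : rk k (rg c) = Fintype.card (Mon n d))
    {τ₀ : ℕ → Ω} {a₀ : ℕ → Fin (n + 1) → Ω} (hτ₀ : ∀ i, 1 ≤ i → i < e → τ₀ i ≠ 0)
    (hF : FCp (fm c) τ₀ a₀ e) (hN : Nod τ₀ a₀ e)
    (hr : rk k (rg c ∪ rgt τ₀ e ∪ rga a₀ e) = Fintype.card (Mon n d) + m * e + n + (e - 1))
    {α : Mon n d} {θ : Ω} {τ : ℕ → Ω} {b : ℕ → Fin (n + 1) → Ω} {c' : Mon n d → Ω}
    {τ' : ℕ → Ω} {a' : ℕ → Fin (n + 1) → Ω} (hα : c α ≠ 0) (hθ : θ ≠ 0)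
    (hτ : ∀ i, 1 ≤ i → i < e → τ i ≠ 0)
    (hab : ∀ l ≤ e, ∀ i, θ ^ l * (wt e τ₀ l * a₀ l i) = wt e τ l * b l i)
    (hs : Spc k (pt (fun m => c m / c α) τ b e) (pt c' τ' a' e)) (hα' : c' α = 1)
    (hF' : FCp (fm c') τ' a' e) (hN' : Nod τ' a' e)
    (hrc' : Fintype.card (Mon n d) ≤ rk k (rg c') + 1)
    (hr' : Fintype.card (Mon n d) + m * e + n + (e - 1) ≤
      rk k (rg c' ∪ rgt τ' e ∪ rga a' e) + (brk τ' e).card + 1) :
    ∃ (c₁ : Mon n d → Ω) (τ₁ : ℕ → Ω) (a₁ : ℕ → Fin (n + 1) → Ω),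
      Spc k (pt c τ₀ a₀ e) (pt c₁ τ₁ a₁ e) ∧ rk k (rg c₁) = Fintype.card (Mon n d) ∧
      FCp (fm c₁) τ₁ a₁ e ∧ Nod τ₁ a₁ e ∧ brk τ₁ e = brk τ' e ∧
      Fintype.card (Mon n d) + m * e + n + (e - 1) ≤
        rk k (rg c₁ ∪ rgt τ₁ e ∪ rga a₁ e) + (brk τ₁ e).card := by
  classical
  set xh := pt (fun m => c m / c α) τ b e with hxh
  set x' := pt c' τ' a' e with hx'
  obtain ⟨t, ht⟩ := exists_generic k hb (rg xh ∪ rg x') (Fin 2 ⊕ Fin (e - 1))
  have hcard : Fintype.card (Fin 2 ⊕ Fin (e - 1)) = e + 1 := by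
    rw [Fintype.card_sum, Fintype.card_fin, Fintype.card_fin]
    omega
  have ht1 : rk k (rg xh ∪ rg t) = rk k (rg xh) + Fintype.card (Fin 2 ⊕ Fin (e - 1)) :=
    generic_of_subset_cl ht fun x hx => subset_cl k _ _ (Finset.mem_union_left _ hx)
  have ht2 : rk k (rg x' ∪ rg t) = rk k (rg x') + Fintype.card (Fin 2 ⊕ Fin (e - 1)) :=
    generic_of_subset_cl ht fun x hx => subset_cl k _ _ (Finset.mem_union_right _ hx)
  set γ := t (Sum.inl 0) with hγdef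
  set ϑ := t (Sum.inl 1) with hϑdef
  set u := uu88 e t with hudef
  have hγ0 : γ ≠ 0 := t_ne88 ht1 _
  have hϑ0 : ϑ ≠ 0 := t_ne88 ht1 _
  have hu : ∀ s, 1 ≤ s → s < e → u s ≠ 0 := by
    intro s h1 h2
    rw [hudef, uu_val88 t h1 h2]
    exact t_ne88 ht1 _
  have hrxh : rg xh = rg (fun m => c m / c α) ∪ rgt τ e ∪ rga b e := rg_pt _ _ _ _
  have hrx' : rg x' = rg c' ∪ rgt τ' e ∪ rga a' e := rg_pt _ _ _ _
  have hγ1 : γ ∉ cl k (rg fun m => c m / c α) := by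
    intro h
    refine generic_notMem ht1 (Sum.inl 0) (cl_mono k ?_ h)
    rw [hrxh]
    exact fun x hx => Finset.mem_union_left _ (Finset.mem_union_left _ (Finset.mem_union_left _ hx))
  have hγ2 : γ ∉ cl k (rg c') := by
    intro h
    refine generic_notMem ht2 (Sum.inl 0) (cl_mono k ?_ h)
    rw [hrx']
    exact fun x hx => Finset.mem_union_left _ (Finset.mem_union_left _ (Finset.mem_union_left _ hx))
  -- the normalised curve
  have hτ₀e : ∀ l, wt e τ₀ l ≠ 0 := wt_ne_zero hτ₀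
  have hτe : ∀ l, wt e τ l ≠ 0 := wt_ne_zero hτ
  have hb0 : b 0 = a₀ 0 := by
    funext i
    have := hab 0 (Nat.zero_le e) i
    rw [pow_zero, one_mul, wt_zero, wt_zero, one_mul, one_mul] at this
    exact this.symm
  have hbe : b e ≠ 0 := by
    intro h
    apply hN.2.1
    funext i
    have h1 := hab e le_rfl i
    rw [h, Pi.zero_apply, mul_zero] at h1
    exact ((mul_eq_zero.1 ((mul_eq_zero.1 h1).resolve_left (pow_ne_zero _ hθ))).resolve_left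
      (hτ₀e e))
  have hbrk : brk τ e = ∅ := by
    refine Finset.eq_empty_of_forall_notMem fun j hj => ?_
    obtain ⟨h1, h2, h3⟩ := mem_brk.1 hj
    exact hτ j h1 h2 h3
  have hNb : Nod τ b e := by
    refine ⟨by rw [hb0]; exact hN.1, hbe, fun i hi => ?_⟩
    rw [hbrk] at hi
    exact absurd hi (Finset.notMem_empty _)
  have hF1 : FCp (fm c) τ b e := by
    refine fcp_of_vanp (fm_hom c) hτ ?_
    exact (vanp_congr hab).mp (vanp_scale θ (vanp_of_fcp he hF))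
  have hF2 : FCp (fm fun m => c m / c α) τ b e := by
    have h1 := fcp_smul88 (c α)⁻¹ hF1
    have h2 : (fun m => (c α)⁻¹ * c m) = fun m => c m / c α := by
      funext m
      rw [div_eq_mul_inv, mul_comm]
    rw [h2] at h1
    exact h1
  -- step 1
  have hP1 : phi88 e γ ϑ (∏ s ∈ Finset.Ico 1 e, u s)⁻¹ u xh =
      pt (fun m => γ * (c m / c α)) (fun s => u s * τ s) (sca e ϑ u b) e :=
    phi_pt88 γ ϑ hu _ _ _
  have hP' : phi88 e γ ϑ (∏ s ∈ Finset.Ico 1 e, u s)⁻¹ u x' =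
      pt (fun m => γ * c' m) (fun s => u s * τ' s) (sca e ϑ u a') e :=
    phi_pt88 γ ϑ hu _ _ _
  have hu_prod : ∏ s ∈ Finset.Ico 1 e, u s ≠ 0 :=
    Finset.prod_ne_zero_iff.2 fun s hs => hu s (Finset.mem_Ico.1 hs).1 (Finset.mem_Ico.1 hs).2
  have s2 : Spc k (pt (fun m => γ * (c m / c α)) (fun s => u s * τ s) (sca e ϑ u b) e)
      (pt (fun m => γ * c' m) (fun s => u s * τ' s) (sca e ϑ u a') e) := by
    have h1 := spc_phi88 (Spc.elim_generic hs t ht1 t) hu_prod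
    rw [← hP1, ← hP']
    exact h1
  have s1 : Spc k (pt (fun m => γ * (c m / c α)) (fun s => u s * τ s) (sca e ϑ u b) e)
      (pt c τ₀ a₀ e) := by
    set w₀ : Fin 2 ⊕ Fin (e - 1) → Ω :=
      Sum.elim ![c α, θ⁻¹] fun i => τ₀ (i + 1) / τ (i + 1) with hw₀
    have hu₀ : ∀ s, 1 ≤ s → s < e → uu88 e w₀ s = τ₀ s / τ s := by
      intro s h1 h2
      rw [uu_val88 w₀ h1 h2, hw₀, Sum.elim_inr]
      change τ₀ (s - 1 + 1) / τ (s - 1 + 1) = _
      rw [Nat.sub_add_cancel h1]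
    have hu₀' : ∀ s, 1 ≤ s → s < e → uu88 e w₀ s ≠ 0 := by
      intro s h1 h2
      rw [hu₀ s h1 h2]
      exact div_ne_zero (hτ₀ s h1 h2) (hτ s h1 h2)
    have h1 := spc_phi88 (Spc.elim_generic (Spc.refl xh) t ht1 w₀)
      (Finset.prod_ne_zero_iff.2 fun s hs => hu₀' s (Finset.mem_Ico.1 hs).1 (Finset.mem_Ico.1 hs).2)
    have h2 : phi88 e (w₀ (Sum.inl 0)) (w₀ (Sum.inl 1))
        (∏ s ∈ Finset.Ico 1 e, uu88 e w₀ s)⁻¹ (uu88 e w₀) xh = pt c τ₀ a₀ e := by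
      rw [hxh, phi_pt88 _ _ hu₀']
      funext i
      rcases i with i | i | i
      · change w₀ (Sum.inl 0) * (c i / c α) = c i
        rw [hw₀, Sum.elim_inl, Matrix.cons_val_zero, mul_div_cancel₀ _ hα]
      · change uu88 e w₀ (i + 1) * τ (i + 1) = τ₀ (i + 1)
        have hi := i.2
        rw [hu₀ _ (by omega) (by omega), div_mul_cancel₀ _ (hτ _ (by omega) (by omega))]
      · change sca e (w₀ (Sum.inl 1)) (uu88 e w₀) b i.1 i.2 = a₀ i.1 i.2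
        have hi : (i.1 : ℕ) ≤ e := by have := i.1.2; omega
        have h3 := hab i.1 hi i.2
        unfold sca
        have h4 : (∏ s ∈ Finset.Ico 1 e, (uu88 e w₀ s)⁻¹ ^ ((i.1 : ℕ) - s)) * wt e τ₀ i.1 =
            wt e τ i.1 := by
          unfold wt
          rw [← Finset.prod_mul_distrib]
          refine Finset.prod_congr rfl fun s hs => ?_
          have hs' := Finset.mem_Ico.1 hs
          rw [hu₀ s hs'.1 hs'.2, ← mul_pow, inv_div,
            div_mul_cancel₀ _ (hτ₀ s hs'.1 hs'.2)]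
        have h5 : w₀ (Sum.inl 1) = θ⁻¹ := by
          rw [hw₀]
          rfl
        rw [h5]
        apply mul_left_cancel₀ (mul_ne_zero (pow_ne_zero (i.1 : ℕ) hθ) (hτ₀e i.1))
        calc θ ^ (i.1 : ℕ) * wt e τ₀ i.1 * (θ⁻¹ ^ (i.1 : ℕ) *
              (∏ s ∈ Finset.Ico 1 e, (uu88 e w₀ s)⁻¹ ^ ((i.1 : ℕ) - s)) * b i.1 i.2)
            = (θ ^ (i.1 : ℕ) * θ⁻¹ ^ (i.1 : ℕ)) *
              ((∏ s ∈ Finset.Ico 1 e, (uu88 e w₀ s)⁻¹ ^ ((i.1 : ℕ) - s)) * wt e τ₀ i.1) *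
                b i.1 i.2 := by ring
          _ = θ ^ (i.1 : ℕ) * wt e τ₀ i.1 * a₀ i.1 i.2 := by
              rw [← mul_pow, mul_inv_cancel₀ hθ, one_pow, one_mul, h4, ← h3, mul_assoc]
    rw [h2, hP1] at h1
    exact h1
  -- step 2
  have hch : Fintype.card (Mon n d) ≤ rk k (rg fun m => c m / c α) + 1 := by
    have h1 : rk k (rg c) ≤ rk k (insert (c α) (rg fun m => c m / c α)) := by
      refine rk_le_of_subset_cl k fun x hx => ?_
      obtain ⟨m, _, rfl⟩ := Finset.mem_image.1 hx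
      have h2 : c m = c α * (c m / c α) := by rw [mul_div_cancel₀ _ hα]
      rw [h2]
      exact mul_mem (subset_cl k _ _ (Finset.mem_insert_self _ _))
        (subset_cl k _ _ (Finset.mem_insert_of_mem (mem_rg88 (fun m => c m / c α) m)))
    have h2 : rk k (insert (c α) (rg fun m => c m / c α)) ≤
        rk k (rg fun m => c m / c α) + 1 := by
      have h3 := rk_union_le_card k (rg fun m => c m / c α) {c α}
      rw [Finset.union_comm, Finset.card_singleton] at h3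
      exact h3
    omega
  have hc1 : rk k (rg fun m => γ * (c m / c α)) = Fintype.card (Mon n d) := by
    have h1 := rk_scale88 (k := k) (c := fun m => c m / c α) (α := α) (div_self hα) hγ1
    have h2 := rk_rg_le88 (k := k) (fun m : Mon n d => γ * (c m / c α))
    omega
  have hc10 : (fun m => γ * (c m / c α)) ≠ 0 := by
    intro h
    have h1 := congrFun h α
    change γ * (c α / c α) = 0 at h1
    rw [div_self hα, mul_one] at h1
    exact hγ0 h1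
  have hrk1 := chain_rk88 hb hd hn hm he hc1 hc10
    (fcp_smul88 γ (fcp_scale (fm_hom _) ϑ hu hF2)) (nod_scale88 hϑ0 hu hNb)
  -- step 3
  have s3 : Spc k (pt c τ₀ a₀ e)
      (pt (fun m => γ * (c m / c α)) (fun s => u s * τ s) (sca e ϑ u b) e) := by
    refine Spc.symm_of_rk s1 ?_
    rw [rg_pt, rg_pt, hr]
    omega
  -- step 4
  have hc2 : rk k (rg fun m => γ * c' m) = Fintype.card (Mon n d) := by
    have h1 := rk_scale88 (k := k) (c := c') (α := α) hα' hγ2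
    have h2 := rk_rg_le88 (k := k) (fun m : Mon n d => γ * c' m)
    omega
  refine ⟨fun m => γ * c' m, fun s => u s * τ' s, sca e ϑ u a', s3.trans s2, hc2,
    fcp_smul88 γ (fcp_scale (fm_hom _) ϑ hu hF'), nod_scale88 hϑ0 hu hN', brk_scale88 hu τ', ?_⟩
  rw [brk_scale88 hu]
  -- step 5
  set P := rg (fun m => γ * c' m) ∪ rgt (fun s => u s * τ' s) e ∪ rga (sca e ϑ u a') e with hP
  set U : Finset Ω := insert ϑ ((Finset.univ : Finset (Fin (e - 1))).image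
    fun i => t (Sum.inr i)) with hU
  have hUc : U.card ≤ e := by
    have h1 := Finset.card_insert_le ϑ ((Finset.univ : Finset (Fin (e - 1))).image
      fun i => t (Sum.inr i))
    have h2 : ((Finset.univ : Finset (Fin (e - 1))).image fun i => t (Sum.inr i)).card ≤ e - 1 :=
      Finset.card_image_le.trans (by rw [Finset.card_univ, Fintype.card_fin])
    rw [hU]
    omega
  have hϑU : ϑ ∈ cl k (P ∪ U) :=
    subset_cl k _ _ (Finset.mem_union_right _ (Finset.mem_insert_self _ _))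
  have huU : ∀ s, 1 ≤ s → s < e → u s ∈ cl k (P ∪ U) := by
    intro s h1 h2
    rw [hudef, uu_val88 t h1 h2]
    exact subset_cl k _ _ (Finset.mem_union_right _ (Finset.mem_insert_of_mem
      (Finset.mem_image_of_mem _ (Finset.mem_univ _))))
  have hPc : ∀ m, γ * c' m ∈ cl k (P ∪ U) := fun m =>
    subset_cl k _ _ (Finset.mem_union_left _ (Finset.mem_union_left _ (Finset.mem_union_left _
      (mem_rg88 (fun m => γ * c' m) m))))
  have hγU : γ ∈ cl k (P ∪ U) := by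
    have h1 := hPc α
    rw [hα', mul_one] at h1
    exact h1
  have h1 : rk k (rg x' ∪ rg t) ≤ rk k (P ∪ U) := by
    refine rk_le_of_subset_cl k fun x hx => ?_
    rw [hrx'] at hx
    rcases Finset.mem_union.1 hx with hx | hx
    · rcases Finset.mem_union.1 hx with hx | hx
      · rcases Finset.mem_union.1 hx with hx | hx
        · obtain ⟨m, _, rfl⟩ := Finset.mem_image.1 hx
          have h2 : c' m = γ⁻¹ * (γ * c' m) := by
            rw [← mul_assoc, inv_mul_cancel₀ hγ0, one_mul]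
          rw [h2]
          exact mul_mem (inv_mem hγU) (hPc m)
        · obtain ⟨s, hs1, hs2, rfl⟩ := rgt_mem88 hx
          have h2 : τ' s = (u s)⁻¹ * (u s * τ' s) := by
            rw [← mul_assoc, inv_mul_cancel₀ (hu s hs1 hs2), one_mul]
          rw [h2]
          refine mul_mem (inv_mem (huU s hs1 hs2)) ?_
          exact subset_cl k _ _ (Finset.mem_union_left _ (Finset.mem_union_left _
            (Finset.mem_union_right _ (mem_rgt88 (τ := fun s => u s * τ' s) hs1 hs2))))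
      · obtain ⟨l, hl, i, rfl⟩ := rga_mem88 hx
        have h2 : a' l i = (ϑ ^ l * ∏ s ∈ Finset.Ico 1 e, (u s)⁻¹ ^ (l - s))⁻¹ *
            sca e ϑ u a' l i := by
          unfold sca
          rw [← mul_assoc, inv_mul_cancel₀ (sc_ne88 hϑ0 hu l), one_mul]
        rw [h2]
        refine mul_mem (inv_mem (mul_mem (pow_mem hϑU _) (prod_mem fun s hs => pow_mem
          (inv_mem (huU s (Finset.mem_Ico.1 hs).1 (Finset.mem_Ico.1 hs).2)) _))) ?_
        exact subset_cl k _ _ (Finset.mem_union_left _ (Finset.mem_union_right _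
          (mem_rga88 (a := sca e ϑ u a') hl i)))
    · obtain ⟨i, _, rfl⟩ := Finset.mem_image.1 hx
      rcases i with i | i
      · fin_cases i
        · exact hγU
        · exact hϑU
      · exact subset_cl k _ _ (Finset.mem_union_right _ (Finset.mem_insert_of_mem
          (Finset.mem_image_of_mem _ (Finset.mem_univ _))))
  have h2 := rk_union_le_card k P U
  rw [ht2, hcard, hrx'] at h1
  omega

end Pool.Agent.Helper30.RY
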