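import Mathlib
import Pool.Agent.Helper30.RY.Hfa
import Pool.Agent.Helper30.RY.Hfb
import Pool.Agent.Helper30.RY.Fps
import Pool.Agent.Helper30.RY.Lyo
import Pool.Agent.Helper30.RY.Gdf

/-!
# Block RY-HFC: chains on a generic hypersurface specialise to broken chains, over `cl k (rg c)`

`F l = wt e τ l * a l` is a curve on `c` (`vanp_of_fcp`), `F 0 = a 0 ≠ 0` (`wt_zero`), `F e ≠ 0` (`wt_ne_zero`), and
`rk (rg c ∪ rga F e) + (e - 1) ≥ rk (rg c ∪ rgt τ e ∪ rga a e)` because `a` is algebraic over `F` and `τ`.  Apply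
`break_norm` (`e = E + 1`) and `break_unnorm`: there is a broken chain `(c₁, τ₁, a₁)` with
`(c, τ, a) ⟶ (c₁, τ₁, a₁)` over `k` and `c₁` generic over `k`.  `c` and `c₁` have the same type over `k`
(`Spc.of_generic`).  `exists_real_over` gives `q` with `(c₁, qt τ₁ a₁ e) ~ (c, q)` over `k`
(`pt c τ a e = Sum.elim c (qt τ a e)`), so `(c, qt τ a e) ⟶ (c, q)` over `k`.
`exists_lift_cl` (with `z = c`) gives `L'` with `(c, q) ~ (c, L')` over `k` and `qt τ a e ⟶ L'` over `cl k (rg c)`.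
`L' = qt τ' a' e` for suitable `τ'`, `a'`.  All conditions are preserved by equality of types over `k`:
`fcp_pt_spc`; zeros of the coordinates agree, so `Nod` and `brk` do; the ranks agree (`Spc.rk_le`,
`rg (pt c τ a e) = rg c ∪ rgt τ e ∪ rga a e` is `rg_pt` in `BlB.lean`).
-/

namespace Pool.Agent.Helper30.RY

open MvPolynomial

variable {k : Type*} [Field k] {Ω : Type*} [Field Ω] [Algebra k Ω] [IsAlgClosed Ω]
  [DecidableEq Ω] {n d m : ℕ}

private theorem mem_rga_h54 {a : ℕ → Fin (n + 1) → Ω} {e l : ℕ} (hl : l ≤ e) (i : Fin (n + 1)) :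
    a l i ∈ rga a e :=
  Finset.mem_biUnion.2 ⟨l, Finset.mem_range.2 (by omega), Finset.mem_image_of_mem _ (Finset.mem_univ i)⟩

private theorem rga_mem_h54 {a : ℕ → Fin (n + 1) → Ω} {e : ℕ} {x : Ω} (hx : x ∈ rga a e) :
    ∃ l ≤ e, ∃ i, x = a l i := by
  obtain ⟨l, hl, hx⟩ := Finset.mem_biUnion.1 hx
  obtain ⟨i, _, rfl⟩ := Finset.mem_image.1 hx
  exact ⟨l, by have := Finset.mem_range.1 hl; omega, i, rfl⟩

private theorem mem_rgt_h54 {τ : ℕ → Ω} {e s : ℕ} (h1 : 1 ≤ s) (h2 : s < e) : τ s ∈ rgt τ e :=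
  Finset.mem_image_of_mem _ (Finset.mem_Ico.2 ⟨h1, h2⟩)

private theorem base_h54 {c : Mon n d → Ω} {e : ℕ} {τ : ℕ → Ω} {a : ℕ → Fin (n + 1) → Ω}
    (hτ : ∀ s, 1 ≤ s → s < e → τ s ≠ 0) :
    rk k (rg c ∪ rgt τ e ∪ rga a e) ≤
      rk k (rg c ∪ rga (fun l i => wt e τ l * a l i) e) + (e - 1) := by
  set b : ℕ → Fin (n + 1) → Ω := fun l i => wt e τ l * a l i with hbdef
  have h1 : rk k (rg c ∪ rgt τ e ∪ rga a e) ≤ rk k (rg c ∪ rga b e ∪ rgt τ e) := by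
    refine rk_le_of_subset_cl k fun x hx => ?_
    rcases Finset.mem_union.1 hx with hx | hx
    · rcases Finset.mem_union.1 hx with hx | hx
      · exact subset_cl k _ x (Finset.mem_union_left _ (Finset.mem_union_left _ hx))
      · exact subset_cl k _ x (Finset.mem_union_right _ hx)
    · obtain ⟨l, hl, i, rfl⟩ := rga_mem_h54 hx
      have hw : wt e τ l ∈ cl k (rg c ∪ rga b e ∪ rgt τ e) := by
        unfold wt
        refine prod_mem fun s hs => pow_mem ?_ _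
        have hs' := Finset.mem_Ico.1 hs
        exact subset_cl k _ _ (Finset.mem_union_right _ (mem_rgt_h54 hs'.1 hs'.2))
      have hbl : b l i ∈ cl k (rg c ∪ rga b e ∪ rgt τ e) :=
        subset_cl k _ _ (Finset.mem_union_left _ (Finset.mem_union_right _ (mem_rga_h54 hl i)))
      have h2 : a l i = (wt e τ l)⁻¹ * b l i := by
        rw [hbdef]
        change a l i = (wt e τ l)⁻¹ * (wt e τ l * a l i)
        rw [← mul_assoc, inv_mul_cancel₀ (wt_ne_zero hτ l), one_mul]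
      rw [h2]
      exact mul_mem (inv_mem hw) hbl
  have h2 := rk_union_le_card k (rg c ∪ rga b e) (rgt τ e)
  have h3 : (rgt τ e).card ≤ e - 1 := by
    refine Finset.card_image_le.trans ?_
    rw [Nat.card_Ico]
  omega

theorem gen_brks (hb : Big k Ω) (hd : 2 ≤ d) (hn : d + 2 ≤ n) (hm : m + d = n + 1) {e : ℕ}
    (he : 2 ≤ e) {c : Mon n d → Ω} (hc : rk k (rg c) = Fintype.card (Mon n d))
    {τ : ℕ → Ω} {a : ℕ → Fin (n + 1) → Ω} (hτ : ∀ i, 1 ≤ i → i < e → τ i ≠ 0)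
    (hF : FCp (fm c) τ a e) (hN : Nod τ a e)
    (hr : rk k (rg c ∪ rgt τ e ∪ rga a e) = Fintype.card (Mon n d) + m * e + n + (e - 1)) :
    ∃ (τ' : ℕ → Ω) (a' : ℕ → Fin (n + 1) → Ω),
      Spc (cl k (rg c)) (qt τ a e) (qt τ' a' e) ∧ (brk τ' e).Nonempty ∧
      FCp (fm c) τ' a' e ∧ Nod τ' a' e ∧
      Fintype.card (Mon n d) + m * e + n + (e - 1) ≤
        rk k (rg c ∪ rgt τ' e ∪ rga a' e) + (brk τ' e).card := by
  obtain ⟨E, rfl⟩ : ∃ E, e = E + 1 := ⟨e - 1, by omega⟩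
  have hE : 1 ≤ E := by omega
  obtain ⟨F, hFd⟩ : ∃ F : ℕ → Fin (n + 1) → Ω, F = fun l i => wt (E + 1) τ l * a l i := ⟨_, rfl⟩
  have hF0 : F 0 ≠ 0 := by
    have h1 : F 0 = a 0 := by
      rw [hFd]
      funext i
      simp only
      rw [wt_zero, one_mul]
    rw [h1]
    exact hN.1
  have hFe : F (E + 1) ≠ 0 := by
    intro h1
    apply hN.2.1
    funext i
    have h2 := congrFun h1 i
    rw [hFd] at h2
    exact (mul_eq_zero.1 h2).resolve_left (wt_ne_zero hτ _)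
  have hV : Van c F (E + 1) := by
    rw [hFd]
    exact vanp_of_fcp (by omega) hF
  have hr1 : Fintype.card (Mon n d) + m * (E + 1) + n ≤ rk k (rg c ∪ rga F (E + 1)) := by
    have h1 := base_h54 (k := k) (c := c) (a := a) hτ
    rw [hr, ← hFd] at h1
    omega
  obtain ⟨α, θ, τb, b, c', τ', a', hα, hθ, hτb, hab, hs, hα', hbrk, hF', hN', hrc', hr'⟩ :=
    break_norm hb hd hn hm hE hc hF0 hFe hV hr1
  have hab' : ∀ l ≤ E + 1, ∀ i, θ ^ l * (wt (E + 1) τ l * a l i) = wt (E + 1) τb l * b l i := by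
    intro l hl i
    have h1 := hab l hl i
    rw [hFd] at h1
    exact h1
  obtain ⟨c₁, τ₁, a₁, hs1, hrc1, hF1, hN1, hbrk1, hr1'⟩ := break_unnorm hb (by omega) hn hm
    (by omega) hc hτ hF hN hr hα hθ hτb hab' hs hα' hF' hN' hrc' (by
      rw [Nat.add_sub_cancel]
      exact hr')
  obtain ⟨q, hq1, hq2⟩ := exists_real_over hb (Spc.of_generic hrc1 c) (Spc.of_generic hc c₁)
    (qt τ₁ a₁ (E + 1))
  have hs2 : Spc k (Sum.elim c (qt τ a (E + 1))) (Sum.elim c q) := Spc.trans hs1 hq1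
  obtain ⟨L, hL1, hL2, hL3⟩ := exists_lift_cl hb hs2
  obtain ⟨τ₂, hτ₂⟩ : ∃ τ₂ : ℕ → Ω, ∀ i : Fin (E + 1 - 1), τ₂ (i + 1) = L (Sum.inl i) := by
    refine ⟨fun s => if h : s - 1 < E + 1 - 1 then L (Sum.inl ⟨s - 1, h⟩) else 1, fun i => ?_⟩
    have h1 : (i : ℕ) + 1 - 1 < E + 1 - 1 := by
      have := i.2
      omega
    simp only
    rw [dif_pos h1]
    congr 2
  obtain ⟨a₂, ha₂⟩ : ∃ a₂ : ℕ → Fin (n + 1) → Ω, ∀ p : Fin (E + 1 + 1) × Fin (n + 1),
      a₂ p.1 p.2 = L (Sum.inr p) := by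
    refine ⟨fun l i => if h : l < E + 1 + 1 then L (Sum.inr (⟨l, h⟩, i)) else 0, fun p => ?_⟩
    simp only
    rw [dif_pos p.1.2]
  have hqt : qt τ₂ a₂ (E + 1) = L := by
    funext x
    rcases x with i | p
    · exact hτ₂ i
    · exact ha₂ p
  have hA : Spc k (pt c₁ τ₁ a₁ (E + 1)) (pt c τ₂ a₂ (E + 1)) := by
    have h1 : pt c τ₂ a₂ (E + 1) = Sum.elim c L := by
      rw [← hqt]
      rfl
    rw [h1]
    exact Spc.trans hq1 hL1
  have hB : Spc k (pt c τ₂ a₂ (E + 1)) (pt c₁ τ₁ a₁ (E + 1)) := by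
    have h1 : pt c τ₂ a₂ (E + 1) = Sum.elim c L := by
      rw [← hqt]
      rfl
    rw [h1]
    exact Spc.trans hL2 hq2
  have hz : ∀ i, 1 ≤ i → i < E + 1 → (τ₂ i = 0 ↔ τ₁ i = 0) := by
    intro i h1 h2
    have e1 : ∀ (x : Mon n d → Ω) (t : ℕ → Ω) (v : ℕ → Fin (n + 1) → Ω),
        pt x t v (E + 1) (Sum.inr (Sum.inl ⟨i - 1, by omega⟩)) = t i := by
      intro x t v
      change t (i - 1 + 1) = t i
      rw [Nat.sub_add_cancel h1]
    constructor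
    · intro h
      have h3 := hB.eq_zero (i := Sum.inr (Sum.inl ⟨i - 1, by omega⟩)) (by rw [e1]; exact h)
      rwa [e1] at h3
    · intro h
      have h3 := hA.eq_zero (i := Sum.inr (Sum.inl ⟨i - 1, by omega⟩)) (by rw [e1]; exact h)
      rwa [e1] at h3
  have hbr : brk τ₂ (E + 1) = brk τ₁ (E + 1) := by
    ext i
    rw [mem_brk, mem_brk]
    constructor
    · rintro ⟨h1, h2, h3⟩
      exact ⟨h1, h2, (hz i h1 h2).1 h3⟩
    · rintro ⟨h1, h2, h3⟩
      exact ⟨h1, h2, (hz i h1 h2).2 h3⟩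
  have hv : ∀ l ≤ E + 1, a₁ l ≠ 0 → a₂ l ≠ 0 := by
    intro l hl h1 h2
    apply h1
    funext i
    have e1 : ∀ (x : Mon n d → Ω) (t : ℕ → Ω) (v : ℕ → Fin (n + 1) → Ω),
        pt x t v (E + 1) (Sum.inr (Sum.inr (⟨l, by omega⟩, i))) = v l i := fun _ _ _ => rfl
    have h3 := hB.eq_zero (i := Sum.inr (Sum.inr (⟨l, by omega⟩, i))) (by
      rw [e1, h2]
      rfl)
    rwa [e1] at h3
  refine ⟨τ₂, a₂, ?_, ?_, fcp_pt_spc hA hF1, ⟨?_, ?_, ?_⟩, ?_⟩
  · rw [hqt]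
    exact hL3
  · rw [hbr, hbrk1]
    exact hbrk
  · exact hv 0 (by omega) hN1.1
  · exact hv (E + 1) le_rfl hN1.2.1
  · intro i hi
    rw [hbr] at hi
    exact hv i (mem_brk.1 hi).2.1.le (hN1.2.2 i hi)
  · have h1 := hB.rk_le
    rw [rg_pt, rg_pt] at h1
    rw [hbr]
    omega

end Pool.Agent.Helper30.RY
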