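import Mathlib
import Pool.Agent.Helper30.RY.Hfc
import Pool.Agent.Helper30.RY.Gpl
import Pool.Agent.Helper30.RY.Gfr
import Pool.Agent.Helper30.RY.Bcl

/-!
# Block RY-GGD: generic hypersurfaces are good

`K = cl k (rg c)` and `c₀ μ = c μ ∈ K`, so `bc Ω c₀ = c` (by `rfl`).  `rk_cl` (with `Z = rg c`):
`rk K X + N = rk k (rg c ∪ X)`, where `N = card (Mon n d) = rk k (rg c)`.
* `lay`: `generic_lay` over `k` and `rk_cl` (both sides).
* `smooth`: `generic_smooth`.
* `pts`: `gen_pts`.
* `lines`: `gen_lines` gives a specialisation over `cl k (rg c ∪ rg z)`; `cl K (rg z)` has the same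
  elements (`mem_cl_cl`), `Spc.restrict_alg`.  `rk K (rg z) = n`: `rk K (rg z ∪ rg y) ≤ rk K (rg z) + m`
  (`generic_bound` for the curve `ln z y`, `z ≠ 0`) and `rk K (rg z) ≤ n` (`zero_le`).  `z ≠ 0`: otherwise
  `rk K (rg z ∪ rg y) = rk K (rg y) ≤ n < n + m` (`y` is on the hypersurface: `eval_top_of_vanp`, `zero_le`).
* `free`: `gen_free`, with the ranks as for `lines`.
* `brks`: `gen_brks`; the rank inequality is an equality: `chain_bound` over `k` with `generic_lay`,
  `generic_smooth` (`bet = 0` at the points `a' 0`), `zero_le`.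
-/

namespace Pool.Agent.Helper30.RY

open MvPolynomial

variable {k : Type*} [Field k] {Ω : Type*} [Field Ω] [Algebra k Ω] [IsAlgClosed Ω]
  [DecidableEq Ω] {n d m : ℕ}

/-- the generic form over the algebraic closure of the field of its coefficients -/
noncomputable def gfo (k : Type*) [Field k] {Ω : Type*} [Field Ω] [Algebra k Ω] [DecidableEq Ω]
    {n d : ℕ} (c : Mon n d → Ω) : Mon n d → cl k (rg c) :=
  fun μ => ⟨c μ, subset_cl k (rg c) (c μ) (Finset.mem_image_of_mem c (Finset.mem_univ μ))⟩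

section aux61

omit [IsAlgClosed Ω] in
private theorem rk61 {c : Mon n d → Ω} (hc : rk k (rg c) = Fintype.card (Mon n d))
    (X : Finset Ω) : rk (cl k (rg c)) X + Fintype.card (Mon n d) = rk k (rg c ∪ X) := by
  rw [← hc]
  exact rk_cl k (rg c) X

omit [Algebra k Ω] [IsAlgClosed Ω] [Field Ω] in
private theorem rga_ln61 (z y : Fin (n + 1) → Ω) : rga (ln z y) 1 = rg z ∪ rg y := by
  ext x
  simp only [rga, Finset.mem_biUnion, Finset.mem_range, Finset.mem_union]
  constructor
  · rintro ⟨l, hl, hx⟩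
    rcases Nat.eq_zero_or_pos l with h0 | h0
    · subst h0
      exact Or.inl hx
    · have h1 : l = 1 := by omega
      subst h1
      exact Or.inr hx
  · rintro (hx | hx)
    · exact ⟨0, by omega, hx⟩
    · exact ⟨1, by omega, hx⟩

omit [IsAlgClosed Ω] in
private theorem ne_zero61 {c : Mon n d → Ω} (hc : rk k (rg c) = Fintype.card (Mon n d)) :
    c ≠ 0 := by
  rintro rfl
  have hpos : 0 < Fintype.card (Mon n d) := by
    rw [card_mon]
    exact Nat.choose_pos (by omega)
  have h1 : rk k (rg (0 : Mon n d → Ω)) ≤ rk k (∅ : Finset Ω) := by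
    refine rk_le_of_subset_cl k fun x hx => ?_
    obtain ⟨μ, -, rfl⟩ := Finset.mem_image.1 hx
    exact (cl k (∅ : Finset Ω)).zero_mem
  rw [rk_empty] at h1
  omega

/-- the ranks for a line of the maximal rank -/
private theorem line61 (hb : Big k Ω) (hd : 1 ≤ d) (hn : d + 2 ≤ n) (hm : m + d = n + 1)
    {c : Mon n d → Ω} (hc : rk k (rg c) = Fintype.card (Mon n d)) {z y : Fin (n + 1) → Ω}
    (hV : Van c (ln z y) 1) (hr : rk (cl k (rg c)) (rg z ∪ rg y) = n + m) :
    z ≠ 0 ∧ rk k (rg c ∪ rg z) = Fintype.card (Mon n d) + n ∧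
      rk k (rg c ∪ rg z ∪ rg y) = Fintype.card (Mon n d) + n + m := by
  have hc0 := ne_zero61 hc
  have h1 : rk k (rg c ∪ rg z ∪ rg y) = Fintype.card (Mon n d) + n + m := by
    have := rk61 hc (rg z ∪ rg y)
    rw [hr] at this
    rw [Finset.union_assoc]
    omega
  have e0 : ln z y 0 = z := rfl
  have e1 : ln z y 1 = y := rfl
  have hz0 := eval_zero_of_vanp hV
  have hy0 := eval_top_of_vanp (fm_hom c) hV
  rw [e0] at hz0
  rw [e1] at hy0
  have hz : z ≠ 0 := by
    rintro rfl
    have h2 : rk k (rg c ∪ rg (0 : Fin (n + 1) → Ω) ∪ rg y) ≤ rk k (rg c ∪ rg y) := by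
      apply rk_le_of_subset_cl k
      intro x hx
      rcases Finset.mem_union.1 hx with hx | hx
      · rcases Finset.mem_union.1 hx with hx | hx
        · exact subset_cl k _ x (Finset.mem_union_left _ hx)
        · obtain ⟨μ, -, rfl⟩ := Finset.mem_image.1 hx
          exact (cl k (rg c ∪ rg y)).zero_mem
      · exact subset_cl k _ x (Finset.mem_union_right _ hx)
    have h3 := zero_le (K := k) hc0 (Finset.Subset.refl (rg c)) hy0
    omega
  refine ⟨hz, ?_, h1⟩
  have h4 := zero_le (K := k) hc0 (Finset.Subset.refl (rg c)) hz0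
  have h5 := generic_bound hb hd hn hm hc 1 (ln z y) hz hV
  rw [rga_ln61, ← Finset.union_assoc, h1] at h5
  rw [e0] at h5
  omega

end aux61

theorem good_of_generic (hb : Big k Ω) (hd : 2 ≤ d) (hn : d + 2 ≤ n) (hm : m + d = n + 1)
    {c : Mon n d → Ω} (hc : rk k (rg c) = Fintype.card (Mon n d)) :
    Good (cl k (rg c)) Ω m (gfo k c) := by
  have hc0 := ne_zero61 hc
  have hd1 : 1 ≤ d := by omega
  have hbc : bc Ω (gfo k c) = c := rfl
  refine ⟨?_, ?_, ?_, ?_, ?_, ?_⟩
  · intro e e' he' a h0 hV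
    rw [hbc] at hV ⊢
    have h1 := generic_lay hb hd1 hn hm hc e e' he' a h0 hV
    have h2 := rk61 hc (rg c ∪ rga a e')
    have h3 := rk61 hc (rg c ∪ rg (a 0))
    rw [← Finset.union_assoc, Finset.union_self] at h2 h3
    omega
  · intro z hz h0
    rw [hbc] at h0 ⊢
    exact generic_smooth hb hd1 hc hz h0
  · intro z z' h0 h0' hr hr'
    rw [hbc] at h0 h0'
    refine gen_pts hb hd1 (by omega) hc h0 h0' ?_ ?_
    · rw [← rk61 hc, hr, add_comm]
    · rw [← rk61 hc, hr', add_comm]
  · intro z y y' hV hV' hr hr'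
    rw [hbc] at hV hV'
    obtain ⟨hz, hrz, hrzy⟩ := line61 hb hd1 hn hm hc hV hr
    obtain ⟨-, -, hrzy'⟩ := line61 hb hd1 hn hm hc hV' hr'
    have h1 := gen_lines hb (by omega) hm (by omega) hc hz hV hV' hrz hrzy hrzy'
    refine Spc.restrict_alg (fun x => ?_) h1
    exact ⟨⟨x.1, (mem_cl_cl k (rg c) (rg z) x.1).1 x.2⟩, rfl⟩
  · intro z y hV hr p hp
    rw [hbc] at hV ⊢
    obtain ⟨hz, hrz, hrzy⟩ := line61 hb hd1 hn hm hc hV hr
    exact gen_free hb hd1 (by omega) hm (by omega) hz hV hrz hrzy p hp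
  · intro e he τ a hτ hF
    rw [hbc] at hF ⊢
    have hbr : brk τ e = ∅ := by
      rw [Finset.eq_empty_iff_forall_notMem]
      intro i hi
      obtain ⟨h1, h2⟩ := Finset.mem_filter.1 hi
      obtain ⟨h3, h4⟩ := Finset.mem_Ico.1 h1
      exact hτ i h3 h4 h2
    have hr := hF.rnk
    rw [hbr, Finset.card_empty] at hr
    have h1 : rk k (rg c ∪ rgt τ e ∪ rga a e) =
        Fintype.card (Mon n d) + m * e + n + (e - 1) := by
      have h2 := rk61 hc (rgt τ e ∪ rga a e)
      rw [← Finset.union_assoc] at h2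
      omega
    obtain ⟨τ', a', hS, hB, hF', hN', hr'⟩ := gen_brks hb hd hn hm he hc hτ hF.fcp hF.nod h1
    refine ⟨τ', a', hS, hB, hF', hN', ?_⟩
    have h3 := chain_bound hb (generic_lay hb hd1 hn hm hc e) e (by omega) τ' a'
      (Or.inl le_rfl) hF' hN'
    have h4 : eval (a' 0) (fm c) = 0 := by
      have h5 := eval_zero_of_vanp (hF' 0 (by omega))
      have h6 : pcc 0 e τ' a' 0 = a' 0 := by
        funext i
        unfold pcc
        rw [Finset.Ico_self, Finset.prod_empty, mul_one]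
        rw [Finset.prod_eq_one, mul_one]
        intro s _
        rw [Nat.zero_sub, pow_zero]
      rwa [h6] at h5
    have h7 : bet c (a' 0) = 0 := by
      unfold bet
      rw [if_neg (generic_smooth hb hd1 hc hN'.1 h4)]
    have h8 := zero_le (K := k) hc0 (Finset.Subset.refl (rg c)) h4
    have h9 := rk61 hc (rgt τ' e ∪ rga a' e)
    rw [← Finset.union_assoc] at h9
    omega

end Pool.Agent.Helper30.RY
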