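import Mathlib
import Pool.Agent.Helper30.RY.DimThm
import Pool.Agent.Helper30.RY.Ggd
import Pool.Agent.Helper30.RY.Fna
import Pool.Agent.Helper30.RY.Fnb
import Pool.Agent.Helper30.RY.Fnc
import Pool.Agent.Helper30.RY.Fnd

/-!
# Block RY-FNE: the curve ideal of a general hypersurface is prime (`d ≥ 2`)

`exists_big k` gives `Ω`, `exists_generic` a form `c : Mon n d → Ω` with `rk k (rg c) = card (Mon n d)`.
`K = cl k (rg c)` is algebraically closed (`isAlgClosed_cl`), `Big K Ω` (`big_cl`), `c₀ = gfo k c`;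
`good_of_generic` and `Good.minimal_prime`: `P`, `W`.
`RC.curveIdeal e (fm c₀) = span (range (lin (RC.cf K n d e) c₀))` (`RC.curveIdeal_eq`, `fm_hom`, `coeff_fm`).
`hE` of `prime_near'`: `exists_hsop` with `r = m e + n`; the ideal is homogeneous (`RC.isHomogeneous_span`), its
dimension is `m e + n` by `dim_curve` for the only minimal prime (`hQ`: `Good.curve_le`; the dimension of `A / I` is
the supremum over the minimal primes of `I`).
`hcard`: `(n + 1) (e + 1) = (d e + 1) + (m e + n)`.
`prime_near'` over `K` gives `D` over `K` with `D(c₀) ≠ 0` such that the ideal of the form `x` is prime for all `x` over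
`K` with `D(x) ≠ 0`.  `descend_ne` gives `D'` over `k`; for `x : Mon n d → k` with `D'(x) ≠ 0`, `prime_descend`
shows that `RC.curveIdeal e (fm x)` is prime.  `forGeneral_of_open`.
-/

namespace Pool.Agent.Helper30.RY

open MvPolynomial

attribute [local instance] MvPolynomial.gradedAlgebra

/-- The dimension of a quotient by an ideal with only one minimal prime. -/
private theorem dim97 {R : Type*} [CommRing R] (I P : Ideal R) (hP : I.minimalPrimes = {P})
    (q : WithBot ℕ∞) (h : ringKrullDim (R ⧸ P) ≤ q) : ringKrullDim (R ⧸ I) ≤ q := by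
  rw [ringKrullDim_quotient]
  refine iSup_le fun p => ?_
  have hPp : (p 0).1.asIdeal.IsPrime := (p 0).1.2
  have hIP : I ≤ (p 0).1.asIdeal := (p 0).2
  obtain ⟨Q, hQ, hQle⟩ := Ideal.exists_minimalPrimes_le hIP
  have hQP : Q = P := by
    rw [hP] at hQ
    exact hQ
  rw [hQP] at hQle
  refine le_trans ?_ h
  rw [ringKrullDim_quotient]
  let p' : LTSeries (PrimeSpectrum.zeroLocus (P : Set R)) :=
    { length := p.length
      toFun := fun i => ⟨(p i).1, by
        have h1 : p 0 ≤ p i := p.monotone (Fin.zero_le i)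
        exact hQle.trans h1⟩
      step := fun i => p.step i }
  exact le_iSup (fun q : LTSeries (PrimeSpectrum.zeroLocus (P : Set R)) =>
    ((q.length : ℕ∞) : WithBot ℕ∞)) p'

private theorem lin_congr97 {K : Type*} [Field K] {n d e : ℕ} (x : Mon n d → K) :
    RC.curveIdeal e (fm x) = Ideal.span (Set.range (RC.lin (Γ := Mon n d) (RC.cf K n d e) x)) := by
  rw [RC.curveIdeal_eq e (fm_hom x)]
  have h : (fun m : RC.Mon n d => coeff m.1 (fm x)) = x := funext fun m => coeff_fm x m
  rw [h]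

/-- the statement over the field of definition of a good form -/
private theorem near97 {K : Type} [Field K] [IsAlgClosed K] {Ω : Type} [Field Ω]
    [Algebra K Ω] [IsAlgClosed Ω] [DecidableEq Ω] {n d m : ℕ} {c₀ : Mon n d → K}
    (hb : Big K Ω) (hG : Good K Ω m c₀) (hd : 1 ≤ d) (hm : 1 ≤ m) (hmd : m + d = n + 1)
    (hc₀ : c₀ ≠ 0) {e : ℕ} (he : 1 ≤ e) :
    RC.Near c₀ (fun x => (RC.curveIdeal e (fm x)).IsPrime) := by
  classical
  obtain ⟨P, W, hP, hW, hPW, hsur⟩ := Good.minimal_prime hb hG hd hm hmd hc₀ he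
  have hdimP : ringKrullDim (RC.CoeffRing K n e ⧸ P) = (m * e + n : ℕ) :=
    dim_curve hb hmd c₀ hc₀ e (fun e' _ a h0 hV => hG.curve_le h0 hV) P (by
      rw [hP]
      exact Set.mem_singleton P)
  have hdim : ringKrullDim (RC.CoeffRing K n e ⧸ RC.curveIdeal e (fm c₀)) ≤
      ((m * e + n : ℕ) : WithBot ℕ∞) := dim97 _ P hP _ (le_of_eq hdimP)
  rw [lin_congr97 c₀] at hdim
  obtain ⟨z, hz, hE⟩ := exists_hsop _
    (RC.isHomogeneous_span _ (fun _ => d) (RC.lin_hom (RC.cf_hom n d e) c₀)) (m * e + n) hdim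
  have hcard : Fintype.card (Fin (n + 1) × Fin (e + 1)) = (d * e + 1) + (m * e + n) := by
    rw [Fintype.card_prod, Fintype.card_fin, Fintype.card_fin]
    have h4 : (n + 1) * e = m * e + d * e := by rw [← hmd, add_mul]
    rw [mul_add, h4]
    omega
  have h1 := prime_near' (RC.cf K n d e) (fun _ => d) (fun _ => by omega) (RC.cf_hom n d e) z hz
    hcard c₀ W hW hE (fun Q hQ p hp => by
      rw [← lin_congr97 c₀, hP] at hQ
      rw [Set.mem_singleton_iff] at hQ
      rw [hQ] at hp
      exact hPW p hp) (fun y => by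
      obtain ⟨Z, hZ⟩ := hsur y
      refine ⟨Z, fun j => ?_⟩
      rw [← hZ j, RC.pull_coeff e (fm_hom c₀) j]
      have h : (fun m : RC.Mon n d => coeff m.1 (fm c₀)) = c₀ := funext fun m => coeff_fm c₀ m
      rw [h])
  refine h1.mono fun x hx => ?_
  rw [lin_congr97 x]
  exact hx

theorem thmPrime (k : Type) [Field k] [IsAlgClosed k] (n d e : ℕ) (hd : 2 ≤ d)
    (hn : d + 2 ≤ n) (he : 1 ≤ e) :
    RC.ForGeneral (k := k) n d (fun f => (RC.curveIdeal e f).IsPrime) := by
  classical
  obtain ⟨Ω, _, _, hΩ, hb⟩ := exists_big k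
  have hinf : Infinite k := IsAlgClosed.instInfinite
  obtain ⟨c, hc⟩ := exists_generic k hb ∅ (Mon n d)
  rw [Finset.empty_union, rk_empty, zero_add] at hc
  obtain ⟨m, hm⟩ : ∃ m, m + d = n + 1 := ⟨n + 1 - d, by omega⟩
  have hG : Good (cl k (rg c)) Ω m (gfo k c) := good_of_generic hb hd hn hm hc
  have hK : IsAlgClosed (cl k (rg c)) := isAlgClosed_cl k (rg c)
  have hbK : Big (cl k (rg c)) Ω := big_cl k hb (rg c)
  have hc0 : gfo k c ≠ 0 := by
    intro h0
    have h1 : ∀ μ, c μ = 0 := fun μ => congrArg Subtype.val (congrFun h0 μ)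
    have h2 : rk k (rg c) ≤ rk k (∅ : Finset Ω) := by
      refine rk_le_of_subset_cl k fun y hy => ?_
      obtain ⟨i, -, rfl⟩ := Finset.mem_image.1 hy
      rw [h1]
      exact zero_mem _
    rw [rk_empty, hc] at h2
    have h3 : 0 < Fintype.card (Mon n d) := Fintype.card_pos_iff.2 ⟨m0 n d⟩
    omega
  obtain ⟨D, hD0, hD⟩ := near97 hbK hG (by omega) (by omega) hm hc0 he
  obtain ⟨D', hD'0, hD'⟩ := descend_ne (k := k) D (fun h => hD0 (by rw [h, map_zero]))
  exact forGeneral_of_open D' hD'0 fun x hx => prime_descend x (hD _ (hD' x hx))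

end Pool.Agent.Helper30.RY
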