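import Mathlib
import Pool.Agent.Helper30.RC.Fam
import Pool.Agent.Helper30.RC.GenDim
import Pool.Agent.Helper30.RC.ThmB

/-!
# Block RY-FNF: hyperplanes (`d = 1`)

For a non zero linear form `f = ∑ b_i x_i` the ideal `RC.curveIdeal e f` is generated by the linear forms
`∑_i b_i X (i, l)`, `l ≤ e`.  Let `b_{i₀} ≠ 0`.  The homomorphism of `k[X (i, l)]` to the polynomial ring in the variables
`(i, l)`, `i ≠ i₀` (a domain) which maps `X (i₀, l)` to `- b_{i₀}⁻¹ ∑_{i ≠ i₀} b_i X (i, l)` has this ideal as its kernel.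
So it is prime.  The condition `f ≠ 0` holds for the general form of degree one (take `D` = the coefficient of
`x_0`, and `i₀ = 0`).
-/

namespace Pool.Agent.Helper30.RY

open MvPolynomial

private theorem form_one4 {k : Type*} [Field k] {n : ℕ} {f : MvPolynomial (Fin (n + 1)) k}
    (hf : f.IsHomogeneous 1) :
    f = ∑ i : Fin (n + 1), C (coeff (Finsupp.single i 1) f) * X i := by
  classical
  ext a
  rw [coeff_sum]
  by_cases ha : ∃ i, a = Finsupp.single i 1
  · obtain ⟨i, rfl⟩ := ha
    rw [Finset.sum_eq_single i]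
    · rw [coeff_C_mul, coeff_X, if_pos rfl, mul_one]
    · intro j _ hj
      rw [coeff_C_mul, coeff_X, if_neg, mul_zero]
      intro h
      exact hj (Finsupp.single_left_injective one_ne_zero h)
    · intro h
      exact absurd (Finset.mem_univ i) h
  · rw [Finset.sum_eq_zero]
    · by_contra hne
      have h1 : a.degree = 1 := by
        by_contra hd
        exact hne (hf.coeff_eq_zero hd)
      refine ha ?_
      obtain ⟨i, hi⟩ := (Finsupp.sum_eq_one_iff a).1 (by
        rw [Finsupp.degree_apply] at h1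
        exact h1)
      exact ⟨i, hi⟩
    · intro i _
      rw [coeff_C_mul, coeff_X, if_neg, mul_zero]
      intro h
      exact ha ⟨i, h.symm⟩

private theorem pull_one4 {k : Type*} [Field k] {n e : ℕ} (b : Fin (n + 1) → k) (j : ℕ) :
    (RC.pull e (∑ i : Fin (n + 1), C (b i) * X i)).coeff j =
      if h : j < e + 1 then ∑ i : Fin (n + 1), C (b i) * X (i, (⟨j, h⟩ : Fin (e + 1))) else 0 := by
  classical
  rw [RC.pull, map_sum, Polynomial.finsetSum_coeff]
  have h1 : ∀ i : Fin (n + 1), ((aeval (RC.tup k n e)) (C (b i) * X i : MvPolynomial (Fin (n + 1)) k)).coeff j =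
      C (b i) * (RC.tup k n e i).coeff j := by
    intro i
    rw [map_mul, aeval_X, aeval_C]
    exact Polynomial.coeff_C_mul _
  rw [Finset.sum_congr rfl fun i _ => h1 i]
  have h2 : ∀ i : Fin (n + 1), (RC.tup k n e i).coeff j =
      if h : j < e + 1 then X (i, (⟨j, h⟩ : Fin (e + 1))) else 0 := by
    intro i
    rw [RC.tup, Polynomial.finsetSum_coeff]
    simp only [Polynomial.coeff_C_mul, Polynomial.coeff_X_pow]
    split_ifs with h
    · rw [Finset.sum_eq_single (⟨j, h⟩ : Fin (e + 1))]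
      · simp
      · intro l _ hl
        have : ¬ j = (l : ℕ) := fun h3 => hl (Fin.ext h3.symm)
        rw [if_neg this, mul_zero]
      · intro h3
        exact absurd (Finset.mem_univ _) h3
    · refine Finset.sum_eq_zero fun l _ => ?_
      have : ¬ j = (l : ℕ) := fun h3 => h (by have := l.2; omega)
      rw [if_neg this, mul_zero]
  split_ifs with h
  · refine Finset.sum_congr rfl fun i _ => ?_
    rw [h2 i, dif_pos h]
  · refine Finset.sum_eq_zero fun i _ => ?_
    rw [h2 i, dif_neg h, mul_zero]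

private theorem prime_one4 {k : Type*} [Field k] {n : ℕ} (e : ℕ) (b : Fin (n + 1) → k)
    (hb : b 0 ≠ 0) :
    (RC.curveIdeal e (∑ i : Fin (n + 1), C (b i) * X i : MvPolynomial (Fin (n + 1)) k)).IsPrime := by
  classical
  obtain ⟨I, hI⟩ : ∃ I : Ideal (RC.CoeffRing k n e),
      I = RC.curveIdeal e (∑ i : Fin (n + 1), C (b i) * X i : MvPolynomial (Fin (n + 1)) k) := ⟨_, rfl⟩
  obtain ⟨g, hg⟩ : ∃ g : Fin (e + 1) → RC.CoeffRing k n e,
      g = fun l => ∑ i : Fin (n + 1), C (b i) * X (i, l) := ⟨_, rfl⟩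
  have hgI : ∀ l, g l ∈ I := by
    intro l
    rw [hI, RC.curveIdeal]
    refine Ideal.subset_span ⟨(l : ℕ), ?_⟩
    show (RC.pull e _).coeff (l : ℕ) = _
    rw [pull_one4, dif_pos l.2, hg]
  obtain ⟨r, hr⟩ : ∃ r : Fin (e + 1) → RC.CoeffRing k n e,
      r = fun l => X (0, l) - C (b 0)⁻¹ * g l := ⟨_, rfl⟩
  obtain ⟨φ, hφ⟩ : ∃ φ : RC.CoeffRing k n e →ₐ[k] RC.CoeffRing k n e,
      φ = aeval (fun p : Fin (n + 1) × Fin (e + 1) => if p.1 = 0 then r p.2 else X p) := ⟨_, rfl⟩
  have hφ0 : ∀ l, φ (X (0, l)) = r l := by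
    intro l
    rw [hφ, aeval_X, if_pos rfl]
  have hφ1 : ∀ (i : Fin (n + 1)) (l : Fin (e + 1)), i ≠ 0 → φ (X (i, l)) = X (i, l) := by
    intro i l hi
    rw [hφ, aeval_X, if_neg hi]
  have hφg : ∀ l, φ (g l) = 0 := by
    intro l
    have h1 : g l = C (b 0) * X (0, l) + ∑ i ∈ Finset.univ.erase (0 : Fin (n + 1)), C (b i) * X (i, l) := by
      rw [hg]
      exact (Finset.add_sum_erase Finset.univ (fun i : Fin (n + 1) => C (b i) * X (i, l))
        (Finset.mem_univ 0)).symm
    have h2 : φ (∑ i ∈ Finset.univ.erase (0 : Fin (n + 1)), C (b i) * X (i, l)) =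
        ∑ i ∈ Finset.univ.erase (0 : Fin (n + 1)), C (b i) * X (i, l) := by
      rw [map_sum]
      refine Finset.sum_congr rfl fun i hi => ?_
      rw [map_mul, hφ1 i l (Finset.ne_of_mem_erase hi)]
      congr 1
      exact φ.commutes (b i)
    have h3 : φ (C (b 0)) = C (b 0) := φ.commutes (b 0)
    have h4 : (C (b 0) * C (b 0)⁻¹ : RC.CoeffRing k n e) = 1 := by
      rw [← C_mul, mul_inv_cancel₀ hb, C_1]
    calc φ (g l) = φ (C (b 0)) * φ (X (0, l)) +
          φ (∑ i ∈ Finset.univ.erase (0 : Fin (n + 1)), C (b i) * X (i, l)) := by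
          rw [h1, map_add, map_mul]
      _ = C (b 0) * r l + ∑ i ∈ Finset.univ.erase (0 : Fin (n + 1)), C (b i) * X (i, l) := by
          rw [h2, h3, hφ0]
      _ = (C (b 0) * X (0, l) + ∑ i ∈ Finset.univ.erase (0 : Fin (n + 1)), C (b i) * X (i, l)) -
          (C (b 0) * C (b 0)⁻¹) * g l := by
          rw [hr]
          ring
      _ = 0 := by rw [← h1, h4, one_mul, sub_self]
  have hIφ : I = RingHom.ker φ := by
    apply le_antisymm
    · rw [hI, RC.curveIdeal, Ideal.span_le]
      rintro _ ⟨j, rfl⟩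
      show (RC.pull e _).coeff j ∈ RingHom.ker φ
      rw [RingHom.mem_ker, pull_one4]
      split_ifs with h
      · have := hφg ⟨j, h⟩
        rw [hg] at this
        exact this
      · exact map_zero φ
    · intro p hp
      rw [RingHom.mem_ker] at hp
      have h5 : (Ideal.Quotient.mkₐ k I).comp φ = Ideal.Quotient.mkₐ k I := by
        apply MvPolynomial.algHom_ext
        rintro ⟨i, l⟩
        rw [AlgHom.comp_apply]
        by_cases hi : i = 0
        · subst hi
          rw [hφ0, hr, map_sub]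
          have h6 : Ideal.Quotient.mkₐ k I (C (b 0)⁻¹ * g l) = 0 := by
            rw [Ideal.Quotient.mkₐ_eq_mk]
            exact Ideal.Quotient.eq_zero_iff_mem.2 (Ideal.mul_mem_left _ _ (hgI l))
          rw [h6, sub_zero]
        · rw [hφ1 i l hi]
      have h7 : Ideal.Quotient.mkₐ k I p = 0 := by
        have h8 := congrArg (fun ψ : RC.CoeffRing k n e →ₐ[k] (RC.CoeffRing k n e ⧸ I) => ψ p) h5
        have h9 : Ideal.Quotient.mkₐ k I (φ p) = Ideal.Quotient.mkₐ k I p := h8
        rw [← h9, hp, map_zero]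
      rw [Ideal.Quotient.mkₐ_eq_mk] at h7
      exact Ideal.Quotient.eq_zero_iff_mem.1 h7
  rw [← hI, hIφ]
  exact RingHom.ker_isPrime _

theorem thmLinear (k : Type) [Field k] [IsAlgClosed k] (n e : ℕ) (hn : 1 ≤ n) :
    RC.ForGeneral (k := k) n 1 (fun f => (RC.curveIdeal e f).IsPrime) := by
  have _ := hn
  refine ⟨X (Finsupp.single 0 1), ⟨X 0, isHomogeneous_X _ _, ?_⟩, fun f hf hD => ?_⟩
  · rw [eval_X, coeff_X, if_pos rfl]
    exact one_ne_zero
  · rw [eval_X] at hD
    rw [form_one4 hf]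
    exact prime_one4 e (fun i => coeff (Finsupp.single i 1) f) hD

end Pool.Agent.Helper30.RY
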