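import Mathlib
import Pool.Agent.Helper30.RY.DimThm

/-!
# Block RY-FNH: there are honest maps of degree `e`

`x` is a form over `k` (nonzero) such that the bound `hQ` holds for all `e' ≤ e`, and the ideal `I = RC.curveIdeal e (fm x)` is
prime (or just: take a minimal prime `P`).  Then there is a map of degree exactly `e` without common zeros on
the hypersurface.

Proof.  `exists_real` for `P` gives a curve `a` over `Ω` on the hypersurface, and `rk k (rga a e) = m e + n` by
`dim_curve` and `rk_eq_trdeg` (compare `Dfi.lean`).  As in step 2 of `Fna.lean`: `a 0 ≠ 0` and `a e ≠ 0`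
(otherwise the rank is at most `n + m (e - 1)`: `vanp_shift`, `vanp_trunc`, `hQ`, and `rk (rg (a j)) ≤ n` for a nonzero
point of the hypersurface, `zero_le`-like).  The polynomials `F_i = cv a e i` have no common zero `t ∈ Ω`:
otherwise `F_i = (T - t) H_i`, `deg H_i ≤ e - 1`, `H` is a curve on the hypersurface
(`(T - t)^d f(H) = 0`), it is `H = cv h (e - 1)`, `h 0 ≠ 0` (after the same reduction: let `j` be minimal
with `h j ≠ 0`; `t = 0` is impossible as `a 0 ≠ 0`, so `h 0 = - a 0 / t ≠ 0`), and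
`rk (rga a e) ≤ rk (rga h (e - 1)) + 1 ≤ n + m (e - 1) + 1 < n + m e` since `m ≥ 2`.  So there are `U_i ∈ Ω[T]` with
`∑ U_i F_i = 1` (`Ω[T]` is a principal ideal domain).  Let `R ⊆ Ω` be the `k`-subalgebra generated by all `a l i`,
the coefficients of the `U_i`, and `(a e i₀)⁻¹` for some `i₀` with `a e i₀ ≠ 0`.  `R` is a finitely generated
nontrivial algebra over the algebraically closed field `k`, so there is a homomorphism `χ : R → k`
(Nullstellensatz).  The images of the `a l i` under `χ` define the tuple `F`: `f(F) = 0`, `∑ χ(U_i) F_i = 1`, so there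
are no common zeros, and the coefficient of `T^e` in `F_{i₀}` is not zero.
-/

namespace Pool.Agent.Helper30.RY

open MvPolynomial

section Aux14

private theorem deg14 {A : Type*} [CommRing A] {n : ℕ} (a : ℕ → Fin (n + 1) → A) (e : ℕ)
    (i : Fin (n + 1)) : (cv a e i).natDegree ≤ e := by
  unfold cv
  refine Polynomial.natDegree_sum_le_of_forall_le _ _ fun l hl => ?_
  rw [Finset.mem_range] at hl
  exact (Polynomial.natDegree_C_mul_X_pow_le _ _).trans (by omega)

private theorem coeff14 {A : Type*} [CommRing A] {n : ℕ} (a : ℕ → Fin (n + 1) → A) (e : ℕ)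
    (i : Fin (n + 1)) {l : ℕ} (hl : l ≤ e) : (cv a e i).coeff l = a l i := by
  unfold cv
  rw [Polynomial.finsetSum_coeff, Finset.sum_eq_single l]
  · rw [Polynomial.coeff_C_mul_X_pow, if_pos rfl]
  · intro b _ hb
    rw [Polynomial.coeff_C_mul_X_pow, if_neg (Ne.symm hb)]
  · intro h
    exact absurd (Finset.mem_range.mpr (by omega)) h

private theorem cvof14 {A : Type*} [CommRing A] {n : ℕ} (G : Fin (n + 1) → Polynomial A) (e : ℕ)
    (hG : ∀ i, (G i).natDegree ≤ e) : cv (fun l i => (G i).coeff l) e = G := by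
  funext i
  unfold cv
  have h := hG i
  exact (Polynomial.as_sum_range_C_mul_X_pow' (G i) (n := e + 1) (by omega)).symm

private theorem aev14 {A S : Type*} [CommRing A] [CommRing S] [Algebra A S] {n q : ℕ}
    {f : MvPolynomial (Fin (n + 1)) A} (hf : f.IsHomogeneous q) (t : S) (g : Fin (n + 1) → S) :
    aeval (fun i => t * g i) f = t ^ q * aeval g f := by
  rw [aeval_def, aeval_def, eval₂_eq', eval₂_eq', Finset.mul_sum]
  refine Finset.sum_congr rfl fun m hm => ?_
  have h1 : m.degree = q := by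
    by_contra hcon
    exact (mem_support_iff.mp hm) (hf.coeff_eq_zero hcon)
  have h2 : ∏ i, (t * g i) ^ m i = t ^ q * ∏ i, g i ^ m i := by
    simp only [mul_pow]
    rw [Finset.prod_mul_distrib, Finset.prod_pow_eq_pow_sum]
    congr 2
    rw [← h1, Finsupp.degree_eq_sum]
  rw [h2]
  ring

/-- Specialisation of the coefficients. -/
private theorem spec14 {k S Ω : Type*} [Field k] [CommRing S] [Algebra k S] [CommRing Ω]
    [Algebra k Ω] (φ : S →+* Ω) (hφ : φ.comp (algebraMap k S) = algebraMap k Ω) {n : ℕ}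
    (g : Fin (n + 1) → Polynomial S) (f : MvPolynomial (Fin (n + 1)) k) :
    aeval (fun i => (g i).map φ) (map (algebraMap k Ω) f) = (aeval g f).map φ := by
  have h1 : (fun i => (g i).map φ) = fun i => Polynomial.mapRingHom φ (g i) := by
    funext i
    rfl
  rw [h1, aeval_def, eval₂_map, ← Polynomial.coe_mapRingHom, aeval_def, hom_eval₂]
  congr 1
  rw [← hφ]
  ext x
  simp

/-- Nullstellensatz -/
private theorem null14 {k R : Type*} [Field k] [IsAlgClosed k] [CommRing R] [Nontrivial R]
    [Algebra k R] [Algebra.FiniteType k R] : Nonempty (R →ₐ[k] k) := by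
  obtain ⟨M, hM⟩ := Ideal.exists_maximal R
  let : Field (R ⧸ M) := Ideal.Quotient.field M
  have hfin : Module.Finite k (R ⧸ M) := finite_of_finite_type_of_isJacobsonRing k (R ⧸ M)
  have hbij : Function.Bijective (algebraMap k (R ⧸ M)) :=
    IsAlgClosed.algebraMap_bijective_of_isIntegral
  let E : k ≃ₐ[k] (R ⧸ M) := AlgEquiv.ofBijective (Algebra.ofId k (R ⧸ M)) hbij
  exact ⟨(E.symm : (R ⧸ M) →ₐ[k] k).comp (Ideal.Quotient.mkₐ k M)⟩

/-- Bezout -/
private theorem bez14 {Ω : Type*} [Field Ω] [IsAlgClosed Ω] {N : ℕ} (F : Fin N → Polynomial Ω)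
    (i₀ : Fin N) (h0 : F i₀ ≠ 0) (h : ∀ t, ∃ i, (F i).eval t ≠ 0) :
    ∃ U : Fin N → Polynomial Ω, ∑ i, U i * F i = 1 := by
  classical
  set I : Ideal (Polynomial Ω) := Ideal.span (Set.range F) with hI
  obtain ⟨g, hg⟩ : ∃ g, I = Ideal.span {g} :=
    ⟨Submodule.IsPrincipal.generator I, (Ideal.span_singleton_generator I).symm⟩
  have hdvd : ∀ i, g ∣ F i := by
    intro i
    have h1 : F i ∈ I := Ideal.subset_span ⟨i, rfl⟩
    rw [hg] at h1
    exact Ideal.mem_span_singleton.1 h1
  have hg0 : g ≠ 0 := by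
    rintro rfl
    exact h0 (zero_dvd_iff.1 (hdvd i₀))
  have hdeg : g.degree = 0 := by
    by_contra hcon
    obtain ⟨t, ht⟩ := IsAlgClosed.exists_root g hcon
    obtain ⟨i, hi⟩ := h t
    obtain ⟨q, hq⟩ := hdvd i
    apply hi
    rw [hq, Polynomial.eval_mul, Polynomial.IsRoot.def.1 ht, zero_mul]
  have hu : IsUnit g := Polynomial.isUnit_iff_degree_eq_zero.2 hdeg
  have htop : (1 : Polynomial Ω) ∈ I := by
    rw [hg, Ideal.span_singleton_eq_top.2 hu]
    exact Submodule.mem_top
  rw [hI, Ideal.mem_span_range_iff_exists_fun] at htop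
  exact htop

end Aux14

variable {k : Type} [Field k] [IsAlgClosed k] {Ω : Type} [Field Ω] [Algebra k Ω] [IsAlgClosed Ω]
  [DecidableEq Ω] {n d m : ℕ}

omit [IsAlgClosed k] [IsAlgClosed Ω] in
private theorem pt14 (x : Mon n d → k) (hx : x ≠ 0) (v : Fin (n + 1) → Ω)
    (hv : eval v (fm fun m => algebraMap k Ω (x m)) = 0) : rk k (rg v) ≤ n := by
  have hfm : map (algebraMap k Ω) (fm x) ≠ 0 := by
    intro h
    have h1 : fm x = 0 := (MvPolynomial.map_injective _ (algebraMap k Ω).injective) (by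
      rw [h, map_zero])
    apply hx
    funext m
    rw [← coeff_fm x m, h1, coeff_zero]
    rfl
  by_contra hcon
  have h1 : rk k (rg v) ≤ n + 1 := by
    refine (rk_le_card k (rg v)).trans ?_
    refine Finset.card_image_le.trans ?_
    rw [Finset.card_univ, Fintype.card_fin]
  have h2 : rk k (∅ ∪ rg v) = rk k (∅ : Finset Ω) + Fintype.card (Fin (n + 1)) := by
    rw [Finset.empty_union, rk_empty, Fintype.card_fin]
    omega
  refine eval_ne_zero_of_generic h2 _ hfm (fun m => ?_) ?_
  · rw [coeff_map]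
    exact (cl k (∅ : Finset Ω)).algebraMap_mem _
  · rw [map_fm]
    exact hv

omit [IsAlgClosed k] [IsAlgClosed Ω] in
private theorem rkc14 (x : Mon n d → k)
    (hpt : ∀ v : Fin (n + 1) → Ω, eval v (fm fun m => algebraMap k Ω (x m)) = 0 →
      rk k (rg v) ≤ n) (e : ℕ)
    (hQ : ∀ e' ≤ e, ∀ a : ℕ → Fin (n + 1) → Ω, a 0 ≠ 0 →
      Van (fun m => algebraMap k Ω (x m)) a e' → rk k (rga a e') ≤ rk k (rg (a 0)) + m * e')
    {e' : ℕ} (he' : e' ≤ e)
    (a : ℕ → Fin (n + 1) → Ω) (hvan : Van (fun m => algebraMap k Ω (x m)) a e') :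
    rk k (rga a e') ≤ m * e' + n := by
  classical
  by_cases hall : ∀ l ≤ e', a l = 0
  · have h3 : rk k (rga a e') ≤ rk k (∅ : Finset Ω) := by
      refine rk_le_of_subset_cl k fun y hy => ?_
      obtain ⟨l, hl, hy⟩ := Finset.mem_biUnion.1 hy
      obtain ⟨i, -, rfl⟩ := Finset.mem_image.1 hy
      rw [Finset.mem_range] at hl
      rw [hall l (by omega)]
      exact zero_mem _
    rw [rk_empty] at h3
    omega
  · push Not at hall
    obtain ⟨j, ⟨hje, hj⟩, hmin⟩ : ∃ j, (j ≤ e' ∧ a j ≠ 0) ∧ ∀ l < j, ¬ (l ≤ e' ∧ a l ≠ 0) :=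
      ⟨Nat.find hall, Nat.find_spec hall, fun l hl => Nat.find_min hall hl⟩
    have hz0 : ∀ l < j, ∀ i, a l i = 0 := by
      intro l hl i
      have h1 := hmin l hl
      push Not at h1
      rw [h1 (by omega)]
      rfl
    have h1 := vanp_shift (fm_hom _) hje hz0 hvan
    obtain ⟨b, hbdef⟩ : ∃ b : ℕ → Fin (n + 1) → Ω, b = fun l => a (l + j) := ⟨_, rfl⟩
    rw [← hbdef] at h1
    have hb0 : b 0 = a j := by rw [hbdef]; simp
    have h2 := hQ (e' - j) (by omega) b (by rw [hb0]; exact hj) h1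
    have h3 : rk k (rg (b 0)) ≤ n := hpt _ (eval_zero_of_vanp h1)
    have h4 : rk k (rga a e') ≤ rk k (rga b (e' - j)) := by
      refine rk_le_of_subset_cl k fun y hy => ?_
      obtain ⟨l, hl, hy⟩ := Finset.mem_biUnion.1 hy
      obtain ⟨i, -, rfl⟩ := Finset.mem_image.1 hy
      rw [Finset.mem_range] at hl
      rcases Nat.lt_or_ge l j with h5 | h5
      · rw [hz0 _ h5]
        exact zero_mem _
      · refine subset_cl k _ _ (Finset.mem_biUnion.2 ⟨l - j, ?_, ?_⟩)
        · rw [Finset.mem_range]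
          omega
        · have h6 : a l i = b (l - j) i := by
            rw [hbdef]
            change a l i = a (l - j + j) i
            rw [Nat.sub_add_cancel h5]
          rw [h6]
          exact Finset.mem_image_of_mem _ (Finset.mem_univ i)
    have h5 : m * (e' - j) ≤ m * e' := Nat.mul_le_mul_left m (Nat.sub_le e' j)
    omega

private theorem gen14 (hb : Big k Ω) (hd : 1 ≤ d) (hm : m + d = n + 1) (x : Mon n d → k)
    (hx : x ≠ 0) (e : ℕ)
    (hQ : ∀ e' ≤ e, ∀ a : ℕ → Fin (n + 1) → Ω, a 0 ≠ 0 →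
      Van (fun m => algebraMap k Ω (x m)) a e' → rk k (rga a e') ≤ rk k (rg (a 0)) + m * e') :
    ∃ a : ℕ → Fin (n + 1) → Ω, Van (fun m => algebraMap k Ω (x m)) a e ∧
      m * e + n ≤ rk k (rga a e) := by
  classical
  -- the ideal is proper
  have hne : RC.curveIdeal e (fm x) ≠ ⊤ := by
    have h1 : RC.curveIdeal e (fm x) ≤ RingHom.ker (eval (0 : Fin (n + 1) × Fin (e + 1) → k)) := by
      unfold RC.curveIdeal
      rw [Ideal.span_le]
      rintro _ ⟨j, rfl⟩
      rw [SetLike.mem_coe, RingHom.mem_ker]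
      have h2 := spec14 (eval (0 : Fin (n + 1) × Fin (e + 1) → k)) (by
        ext r
        simp) (RC.tup k n e) (fm x)
      have h3 : (fun i => (RC.tup k n e i).map (eval (0 : Fin (n + 1) × Fin (e + 1) → k))) =
          fun i => (0 : Polynomial k) * 0 := by
        funext i
        unfold RC.tup
        rw [Polynomial.map_sum, Finset.sum_eq_zero, mul_zero]
        intro l _
        simp
      rw [h3, Algebra.algebraMap_self, MvPolynomial.map_id,
        aev14 (fm_hom x), zero_pow (by omega), zero_mul] at h2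
      have h5 := congrArg (fun G : Polynomial k => G.coeff j) h2
      simp only [Polynomial.coeff_zero, Polynomial.coeff_map] at h5
      exact h5.symm
    intro h2
    rw [h2, top_le_iff] at h1
    exact RingHom.ker_ne_top _ h1
  obtain ⟨P, hP, hIP⟩ : ∃ P ∈ (RC.curveIdeal e (fm x)).minimalPrimes,
      RC.curveIdeal e (fm x) ≤ P := by
    obtain ⟨M, hM, hle⟩ := Ideal.exists_le_maximal _ hne
    have := hM.isPrime
    obtain ⟨P, hP, -⟩ := Ideal.exists_minimalPrimes_le hle
    exact ⟨P, hP, hP.1.2⟩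
  have hdim := dim_curve hb hm x hx e hQ P hP
  have hPp : P.IsPrime := hP.1.1
  obtain ⟨φ, hφ⟩ := exists_real (K := k) (Ω := Ω) hb (RC.CoeffRing k n e) P
  let ψ : (RC.CoeffRing k n e ⧸ P) →ₐ[k] Ω := Ideal.Quotient.liftₐ P φ fun a ha => (hφ a).2 ha
  have hψm : ∀ a, ψ (Ideal.Quotient.mk P a) = φ a := fun a => rfl
  have hψ : Function.Injective ψ := by
    rw [injective_iff_map_eq_zero]
    intro a ha
    obtain ⟨a, rfl⟩ := Ideal.Quotient.mk_surjective a
    rw [hψm, hφ] at ha
    exact Ideal.Quotient.eq_zero_iff_mem.2 ha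
  have h3 := rk_eq_trdeg ψ hψ
    (fun j : Fin (n + 1) × Fin (e + 1) => Ideal.Quotient.mk P (X j)) (by
    have h4 : Set.range (fun j : Fin (n + 1) × Fin (e + 1) => Ideal.Quotient.mk P (X j)) =
        (Ideal.Quotient.mkₐ k P) '' Set.range
          (X : Fin (n + 1) × Fin (e + 1) → RC.CoeffRing k n e) := by
      rw [← Set.range_comp]
      rfl
    rw [h4, ← AlgHom.map_adjoin, MvPolynomial.adjoin_range_X, Algebra.map_top,
      AlgHom.range_eq_top]
    exact Ideal.Quotient.mkₐ_surjective k P)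
  obtain ⟨s, h5, h6⟩ := Pool.Agent.Helper17.Irr.ringKrullDim_le_of_fg k (RC.CoeffRing k n e ⧸ P)
  rw [Cardinal.lift_id] at h3
  rw [h3] at h6
  have h7 : s ≤ rk k (rg fun j => φ (X j)) := by exact_mod_cast h6
  rw [hdim] at h5
  have h8 : m * e + n ≤ s := by exact_mod_cast h5
  obtain ⟨w, hwdef⟩ : ∃ w : Fin (n + 1) × Fin (e + 1) → Ω, w = fun j => φ (X j) := ⟨_, rfl⟩
  rw [← hwdef] at h7
  have hφw : φ = aeval w := by
    rw [hwdef]
    exact MvPolynomial.aeval_unique φ
  have hw : ∀ p ∈ RC.curveIdeal e (fm x), aeval w p = 0 := by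
    intro r hr
    rw [← hφw]
    exact (hφ r).2 (hIP hr)
  let a : ℕ → Fin (n + 1) → Ω := fun l i => if h : l < e + 1 then w (i, ⟨l, h⟩) else 0
  have has : ∀ l (h : l < e + 1) i, a l i = w (i, ⟨l, h⟩) := by
    intro l h i
    change (if h : l < e + 1 then w (i, ⟨l, h⟩) else 0) = _
    rw [dif_pos h]
  have hcv : cv a e = fun i =>
      (RC.tup k n e i).map (aeval w : MvPolynomial _ k →ₐ[k] Ω).toRingHom := by
    funext i
    unfold cv RC.tup
    rw [Polynomial.map_sum, ← Fin.sum_univ_eq_sum_range (fun l => Polynomial.C (a l i) *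
        Polynomial.X ^ l) (e + 1)]
    refine Finset.sum_congr rfl fun l _ => ?_
    rw [Polynomial.map_mul, Polynomial.map_C, Polynomial.map_pow, Polynomial.map_X, has l l.2 i]
    congr 2
    change _ = aeval w (X (i, l))
    rw [aeval_X]
  refine ⟨a, ?_, h8.trans (h7.trans (rk_mono k fun y hy => ?_))⟩
  · unfold Van Vanp
    rw [← map_fm, hcv, spec14]
    · ext j
      rw [Polynomial.coeff_map, Polynomial.coeff_zero]
      exact hw _ (Ideal.subset_span ⟨j, rfl⟩)
    · exact (aeval w : MvPolynomial _ k →ₐ[k] Ω).comp_algebraMap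
  · obtain ⟨⟨i, l⟩, -, rfl⟩ := Finset.mem_image.1 hy
    refine Finset.mem_biUnion.2 ⟨(l : ℕ), Finset.mem_range.2 l.2, ?_⟩
    rw [← has l l.2 i]
    exact Finset.mem_image_of_mem _ (Finset.mem_univ i)

theorem exists_honest {k : Type} [Field k] [IsAlgClosed k] {Ω : Type} [Field Ω] [Algebra k Ω]
    [IsAlgClosed Ω] [DecidableEq Ω] (hb : Big k Ω) {n d m : ℕ} (hd : 1 ≤ d) (hm : 2 ≤ m)
    (hmd : m + d = n + 1) (x : Mon n d → k) (hx : x ≠ 0) {e : ℕ} (he : 1 ≤ e)
    (hQ : ∀ e' ≤ e, ∀ a : ℕ → Fin (n + 1) → Ω, a 0 ≠ 0 →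
      Van (fun m => algebraMap k Ω (x m)) a e' → rk k (rga a e') ≤ rk k (rg (a 0)) + m * e') :
    ∃ F : Fin (n + 1) → Polynomial k, (∀ i, (F i).natDegree ≤ e) ∧
      (∃ i, (F i).natDegree = e) ∧ (∀ t, ∃ i, (F i).eval t ≠ 0) ∧ aeval F (fm x) = 0 := by
  classical
  have hpt := fun v hv => pt14 (Ω := Ω) x hx v hv
  obtain ⟨a, hvan, hrk⟩ := gen14 hb hd hmd x hx e hQ
  have hup := fun (e' : ℕ) (he' : e' ≤ e) (b : ℕ → Fin (n + 1) → Ω)
    (hV : Van (fun m => algebraMap k Ω (x m)) b e') => rkc14 x hpt e hQ he' b hV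
  have hme : m * (e - 1) + m = m * e := by
    obtain ⟨e1, rfl⟩ : ∃ e1, e = e1 + 1 := ⟨e - 1, by omega⟩
    rw [Nat.add_sub_cancel, mul_add, mul_one]
  -- the leading coefficient
  have htop : ∃ i, a e i ≠ 0 := by
    by_contra hcon
    push Not at hcon
    have h0 : ∀ l, e - 1 < l → l ≤ e → ∀ i, a l i = 0 := by
      intro l h1 h2 i
      have h3 : l = e := by omega
      rw [h3]
      exact hcon i
    have hV := (vanp_trunc (Nat.sub_le e 1) h0).1 hvan
    have h1 := hup (e - 1) (Nat.sub_le e 1) a hV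
    have h2 : rk k (rga a e) ≤ rk k (rga a (e - 1)) := by
      refine rk_le_of_subset_cl k fun y hy => ?_
      obtain ⟨l, hl, hy⟩ := Finset.mem_biUnion.1 hy
      obtain ⟨i, -, rfl⟩ := Finset.mem_image.1 hy
      rw [Finset.mem_range] at hl
      rcases Nat.lt_or_ge (e - 1) l with h5 | h5
      · rw [h0 l h5 (by omega)]
        exact zero_mem _
      · refine subset_cl k _ _ (Finset.mem_biUnion.2 ⟨l, ?_, ?_⟩)
        · rw [Finset.mem_range]
          omega
        · exact Finset.mem_image_of_mem _ (Finset.mem_univ i)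
    omega
  obtain ⟨i₀, hi₀⟩ := htop
  have hF0 : cv a e i₀ ≠ 0 := by
    intro h
    have h1 := coeff14 a e i₀ (le_refl e)
    rw [h, Polynomial.coeff_zero] at h1
    exact hi₀ h1.symm
  -- no common zeros
  have hno : ∀ t : Ω, ∃ i, (cv a e i).eval t ≠ 0 := by
    intro t
    by_contra hcon
    push Not at hcon
    have hdvd : ∀ i, ∃ q : Polynomial Ω, cv a e i = (Polynomial.X - Polynomial.C t) * q := by
      intro i
      exact Polynomial.dvd_iff_isRoot.2 (hcon i)
    choose H hH using hdvd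
    have hHd : ∀ i, (H i).natDegree ≤ e - 1 := by
      intro i
      by_cases h0 : H i = 0
      · rw [h0, Polynomial.natDegree_zero]
        exact Nat.zero_le _
      · have h1 := deg14 a e i
        rw [hH i, Polynomial.natDegree_mul (Polynomial.X_sub_C_ne_zero t) h0,
          Polynomial.natDegree_X_sub_C] at h1
        omega
    have hcv := cvof14 H (e - 1) hHd
    have hV : Van (fun m => algebraMap k Ω (x m)) (fun l i => (H i).coeff l) (e - 1) := by
      unfold Van Vanp at hvan ⊢
      rw [hcv]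
      have h1 : cv a e = fun i => (Polynomial.X - Polynomial.C t) * H i := funext hH
      rw [h1, aev14 (fm_hom _)] at hvan
      rcases mul_eq_zero.1 hvan with h2 | h2
      · exact absurd ((pow_eq_zero_iff (by omega : d ≠ 0)).1 h2)
          (Polynomial.X_sub_C_ne_zero t)
      · exact h2
    have h1 := hup (e - 1) (Nat.sub_le e 1) _ hV
    have h2 : rk k (rga a e) ≤ rk k (rga (fun l i => (H i).coeff l) (e - 1) ∪ {t}) := by
      refine rk_le_of_subset_cl k fun y hy => ?_
      obtain ⟨l, hl, hy⟩ := Finset.mem_biUnion.1 hy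
      obtain ⟨i, -, rfl⟩ := Finset.mem_image.1 hy
      rw [Finset.mem_range] at hl
      have hc : ∀ l, (H i).coeff l ∈
          cl k (rga (fun l i => (H i).coeff l) (e - 1) ∪ {t}) := by
        intro l
        rcases Nat.lt_or_ge (e - 1) l with h5 | h5
        · rw [Polynomial.coeff_eq_zero_of_natDegree_lt (lt_of_le_of_lt (hHd i) h5)]
          exact zero_mem _
        · refine subset_cl k _ _ (Finset.mem_union_left _ (Finset.mem_biUnion.2 ⟨l, ?_, ?_⟩))
          · rw [Finset.mem_range]
            omega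
          · exact Finset.mem_image.2 ⟨i, Finset.mem_univ i, rfl⟩
      have ht : t ∈ cl k (rga (fun l i => (H i).coeff l) (e - 1) ∪ {t}) :=
        subset_cl k _ _ (Finset.mem_union_right _ (Finset.mem_singleton_self t))
      rw [← coeff14 a e i (by omega : l ≤ e), hH i, sub_mul, Polynomial.coeff_sub,
        Polynomial.coeff_C_mul]
      refine sub_mem ?_ (mul_mem ht (hc l))
      rcases l with _ | l
      · rw [Polynomial.mul_coeff_zero, Polynomial.coeff_X_zero, zero_mul]
        exact zero_mem _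
      · rw [Polynomial.coeff_X_mul]
        exact hc l
    have h3 := rk_union_le_card k (rga (fun l i => (H i).coeff l) (e - 1)) {t}
    rw [Finset.card_singleton] at h3
    omega
  obtain ⟨U, hU⟩ := bez14 (cv a e) i₀ hF0 hno
  -- the finitely generated algebra
  obtain ⟨S, hS⟩ : ∃ S : Finset Ω, S = (rga a e ∪ {(a e i₀)⁻¹}) ∪
      Finset.univ.biUnion (fun i => (U i).support.image (U i).coeff) := ⟨_, rfl⟩
  let R : Subalgebra k Ω := Algebra.adjoin k (S : Set Ω)
  have hSR : ∀ y ∈ S, y ∈ R := fun y hy => Algebra.subset_adjoin (Finset.mem_coe.2 hy)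
  have hft : Algebra.FiniteType k R := (Subalgebra.fg_iff_finiteType _).1
    (Subalgebra.fg_def.2 ⟨_, S.finite_toSet, rfl⟩)
  obtain ⟨χ⟩ := null14 (k := k) (R := R)
  have haR : ∀ l ≤ e, ∀ i, a l i ∈ R := by
    intro l hl i
    refine hSR _ ?_
    rw [hS]
    refine Finset.mem_union_left _ (Finset.mem_union_left _ (Finset.mem_biUnion.2 ⟨l, ?_, ?_⟩))
    · rw [Finset.mem_range]
      omega
    · exact Finset.mem_image_of_mem _ (Finset.mem_univ i)
  have hinvR : (a e i₀)⁻¹ ∈ R := by
    refine hSR _ ?_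
    rw [hS]
    exact Finset.mem_union_left _ (Finset.mem_union_right _ (Finset.mem_singleton_self _))
  have hUR : ∀ i l, (U i).coeff l ∈ R := by
    intro i l
    by_cases h0 : (U i).coeff l = 0
    · rw [h0]
      exact zero_mem _
    · refine hSR _ ?_
      rw [hS]
      refine Finset.mem_union_right _ (Finset.mem_biUnion.2 ⟨i, Finset.mem_univ i, ?_⟩)
      exact Finset.mem_image_of_mem _ (Polynomial.mem_support_iff.2 h0)
  let b : ℕ → Fin (n + 1) → R := fun l i => if h : l ≤ e then ⟨a l i, haR l h i⟩ else 0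
  have hba : ∀ l ≤ e, ∀ i, algebraMap R Ω (b l i) = a l i := by
    intro l hl i
    change algebraMap R Ω (if h : l ≤ e then ⟨a l i, haR l h i⟩ else 0) = _
    rw [dif_pos hl]
    rfl
  have hinj : Function.Injective (algebraMap R Ω) := Subtype.val_injective
  have hcvb : ∀ i, (cv b e i).map (algebraMap R Ω) = cv a e i := by
    intro i
    rw [map_cv]
    unfold cv
    refine Finset.sum_congr rfl fun l hl => ?_
    rw [Finset.mem_range] at hl
    change Polynomial.C (algebraMap R Ω (b l i)) * Polynomial.X ^ l = _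
    rw [hba l (by omega) i]
  have hlift : ∀ i, ∃ V : Polynomial R, V.map (algebraMap R Ω) = U i := by
    intro i
    have h1 : U i ∈ Polynomial.lifts (algebraMap R Ω) := by
      rw [Polynomial.lifts_iff_coeff_lifts]
      intro l
      exact ⟨⟨(U i).coeff l, hUR i l⟩, rfl⟩
    exact h1
  choose V hV using hlift
  have hVb : ∑ i, V i * cv b e i = 1 := by
    apply Polynomial.map_injective (algebraMap R Ω) hinj
    rw [Polynomial.map_sum, Polynomial.map_one, ← hU]
    refine Finset.sum_congr rfl fun i _ => ?_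
    rw [Polynomial.map_mul, hV, hcvb]
  have hχ : (χ : R →+* k).comp (algebraMap k R) = algebraMap k k := χ.comp_algebraMap
  refine ⟨fun i => (cv b e i).map (χ : R →+* k), fun i => ?_, ⟨i₀, ?_⟩, fun t => ?_, ?_⟩
  · exact Polynomial.natDegree_map_le.trans (deg14 b e i)
  · refine le_antisymm (Polynomial.natDegree_map_le.trans (deg14 b e i₀)) ?_
    refine Polynomial.le_natDegree_of_ne_zero ?_
    rw [Polynomial.coeff_map, coeff14 b e i₀ (le_refl e)]
    intro h
    have h1 : b e i₀ * (⟨(a e i₀)⁻¹, hinvR⟩ : R) = 1 := by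
      apply hinj
      rw [map_mul, hba e (le_refl e), map_one]
      exact mul_inv_cancel₀ hi₀
    have h2 := congrArg (χ : R →+* k) h1
    rw [map_mul, h, zero_mul, map_one] at h2
    exact zero_ne_one h2
  · by_contra hcon
    push Not at hcon
    have h1 := congrArg (fun G : Polynomial R => (G.map (χ : R →+* k)).eval t) hVb
    simp only [Polynomial.map_sum, Polynomial.map_mul, Polynomial.map_one,
      Polynomial.eval_finsetSum, Polynomial.eval_mul, Polynomial.eval_one] at h1
    rw [Finset.sum_eq_zero fun i _ => by rw [hcon i, mul_zero]] at h1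
    exact zero_ne_one h1
  · have h1 : aeval (fun i => cv b e i) (fm x) = 0 := by
      apply Polynomial.map_injective (algebraMap R Ω) hinj
      rw [Polynomial.map_zero, ← spec14 (algebraMap R Ω) (by rfl) (fun i => cv b e i) (fm x)]
      have h2 : (fun i => (cv b e i).map (algebraMap R Ω)) = cv a e := funext hcvb
      rw [h2, map_fm]
      exact hvan
    have h2 := spec14 (χ : R →+* k) hχ (fun i => cv b e i) (fm x)
    rw [h1, Polynomial.map_zero, Algebra.algebraMap_self, MvPolynomial.map_id] at h2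
    exact h2

end Pool.Agent.Helper30.RY
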