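import Mathlib
import Pool.Agent.Helper30.RY.Fne
import Pool.Agent.Helper30.RY.Fnf
import Pool.Agent.Helper30.RY.Fnh

/-!
# The space of rational curves on a general hypersurface is irreducible of the expected dimension
-/

namespace Pool.Agent.Helper30.RY

open MvPolynomial

theorem thmHonest (k : Type) [Field k] [IsAlgClosed k] (n d e : ℕ) (hd : 1 ≤ d)
    (hn : d + 2 ≤ n) (he : 1 ≤ e) :
    RC.ForGeneral (k := k) n d (fun f => ∃ F : Fin (n + 1) → Polynomial k,
      (∀ i, (F i).natDegree ≤ e) ∧ (∃ i, (F i).natDegree = e) ∧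
      (∀ t, ∃ i, (F i).eval t ≠ 0) ∧ aeval F f = 0) := by
  classical
  obtain ⟨Ω, _, _, hΩ, hb⟩ := exists_big k
  have hinf : Infinite k := IsAlgClosed.instInfinite
  choose D hD0 hD using fun e' : ℕ => general_bound (k := k) (Ω := Ω) hb hd hn e'
  refine forGeneral_of_open ((∏ e' ∈ Finset.range (e + 1), D e') * ∏ m : Mon n d, X m) ?_ ?_
  · refine mul_ne_zero (Finset.prod_ne_zero_iff.mpr fun e' _ => hD0 e')
      (Finset.prod_ne_zero_iff.mpr fun m _ => X_ne_zero m)
  · intro x hx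
    rw [map_mul, map_prod, map_prod] at hx
    have h1 : ∀ e' ≤ e, eval x (D e') ≠ 0 := fun e' he' =>
      Finset.prod_ne_zero_iff.mp (left_ne_zero_of_mul hx) e' (Finset.mem_range.mpr (by omega))
    have h2 := Finset.prod_ne_zero_iff.mp (right_ne_zero_of_mul hx)
    have hx0 : x ≠ 0 := by
      rintro rfl
      exact h2 (m0 n d) (Finset.mem_univ _) (by simp)
    exact exists_honest hb hd (m := n + 1 - d) (by omega) (by omega) x hx0 he
      (fun e' he' a h0 hV => hD e' x (h1 e' he') a h0 hV)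

theorem thmFull (k : Type) [Field k] [IsAlgClosed k] (n d e : ℕ) (hd : 1 ≤ d)
    (hn : d + 2 ≤ n) (he : 1 ≤ e) :
    RC.ForGeneral (k := k) n d (fun f =>
      (RC.curveIdeal e f).IsPrime ∧
      ringKrullDim (RC.CoeffRing k n e ⧸ RC.curveIdeal e f) = ((n + 1 - d) * e + n : ℕ) ∧
      (∃ F : Fin (n + 1) → Polynomial k, (∀ i, (F i).natDegree ≤ e) ∧
        (∃ i, (F i).natDegree = e) ∧ (∀ t, ∃ i, (F i).eval t ≠ 0) ∧ aeval F f = 0) ∧
      ∀ e' ≤ e, ∀ z : Fin (n + 1) → k, z ≠ 0 → eval z f = 0 →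
        ringKrullDim (MvPolynomial (Fin (n + 1) × Fin e') k ⧸ fibIdeal e' z f) =
          ((n + 1 - d) * e' : ℕ)) := by
  classical
  have hinf : Infinite k := IsAlgClosed.instInfinite
  have hP : RC.ForGeneral (k := k) n d (fun f => (RC.curveIdeal e f).IsPrime) := by
    rcases Nat.lt_or_ge d 2 with h | h
    · obtain rfl : d = 1 := by omega
      exact thmLinear k n e (by omega)
    · exact thmPrime k n d e h hn he
  refine ((hP.and (thmDim k n d e hd hn)).and (thmHonest k n d e hd hn he)).mono ?_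
  rintro f hf ⟨⟨h1, h2, h3⟩, h4⟩
  refine ⟨h1, ?_, h4, h3⟩
  refine h2 (RC.curveIdeal e f) ?_
  rw [Ideal.minimalPrimes_eq_subsingleton_self]
  exact Set.mem_singleton _

end Pool.Agent.Helper30.RY
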