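import Mathlib
import Pool.Agent.Helper30.RY.Dmo

/-!
# The number of moduli of a map from the projective line
-/

namespace Pool.Agent.Helper30.RY

open Polynomial

/-- The number of moduli over `k` of the map of degree `e` from the projective line to projective space given by
the polynomials `G i` of degree at most `e` over `L`: the minimum, over all invertible
matrices `M`, of the transcendence degree over `k` of the field generated by the coefficients of
`G` composed with the Moebius transformation `M`. -/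
noncomputable def moduli (k : Type*) {L : Type*} [Field k] [Field L] [Algebra k L] {n : ℕ}
    (e : ℕ) (G : Fin (n + 1) → Polynomial L) : Cardinal :=
  ⨅ M : {M : Matrix (Fin 2) (Fin 2) L // M.det ≠ 0},
    Algebra.trdeg k (IntermediateField.adjoin k
      {c : L | ∃ i j, (rpm e (M.1 0 0) (M.1 0 1) (M.1 1 0) (M.1 1 1) G i).coeff j = c})

theorem natDegree_rpm {Ω : Type*} [Field Ω] {n : ℕ} (e : ℕ) (α β γ δ : Ω)
    (G : Fin (n + 1) → Polynomial Ω) (i : Fin (n + 1)) :
    (rpm e α β γ δ G i).natDegree ≤ e := by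
  refine natDegree_sum_le_of_forall_le _ _ fun j hj => ?_
  have hj' : j ≤ e := Nat.lt_succ_iff.mp (Finset.mem_range.mp hj)
  have h1 : ∀ u v : Ω, (C u * X + C v).natDegree ≤ 1 := fun u v => by
    refine (natDegree_add_le _ _).trans (max_le ((natDegree_C_mul_le _ _).trans ?_) ?_)
    · exact natDegree_X_le
    · rw [natDegree_C]
      exact Nat.zero_le _
  calc (C ((G i).coeff j) * (C α * X + C β) ^ j * (C γ * X + C δ) ^ (e - j)).natDegree
      ≤ (C ((G i).coeff j) * (C α * X + C β) ^ j).natDegree +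
          ((C γ * X + C δ) ^ (e - j)).natDegree := natDegree_mul_le
    _ ≤ j * 1 + (e - j) * 1 := by
        refine Nat.add_le_add ((natDegree_C_mul_le _ _).trans ?_) ?_
        · exact natDegree_pow_le.trans (Nat.mul_le_mul_left _ (h1 _ _))
        · exact natDegree_pow_le.trans (Nat.mul_le_mul_left _ (h1 _ _))
    _ = e := by omega

theorem adjoin_coeffs (K : Type*) [Field K] {Ω : Type*} [Field Ω] [Algebra K Ω] [DecidableEq Ω]
    {n e : ℕ} (H : Fin (n + 1) → Polynomial Ω) (hH : ∀ i, (H i).natDegree ≤ e) :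
    IntermediateField.adjoin K {c : Ω | ∃ i j, (H i).coeff j = c} =
      IntermediateField.adjoin K ((cfs e H : Finset Ω) : Set Ω) := by
  apply le_antisymm
  · rw [IntermediateField.adjoin_le_iff]
    rintro _ ⟨i, j, rfl⟩
    by_cases hj : j ≤ e
    · refine IntermediateField.subset_adjoin K _ ?_
      unfold cfs
      rw [Finset.mem_coe, Finset.mem_biUnion]
      exact ⟨i, Finset.mem_univ i, Finset.mem_image_of_mem _ (Finset.mem_range.mpr (by omega))⟩
    · rw [coeff_eq_zero_of_natDegree_lt (lt_of_le_of_lt (hH i) (by omega))]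
      exact zero_mem _
  · rw [IntermediateField.adjoin_le_iff]
    intro c hc
    unfold cfs at hc
    rw [Finset.mem_coe, Finset.mem_biUnion] at hc
    obtain ⟨i, _, hi⟩ := hc
    rw [Finset.mem_image] at hi
    obtain ⟨j, _, rfl⟩ := hi
    exact IntermediateField.subset_adjoin K _ ⟨i, j, rfl⟩

theorem moduli_eq {K : Type*} [Field K] {Ω : Type*} [Field Ω] [Algebra K Ω] [IsAlgClosed Ω]
    [DecidableEq Ω] (hb : Big K Ω) {n d m e : ℕ} (he : 1 ≤ e) {x : Mon n d → K} (hx : x ≠ 0)
    (hQ : ∀ a : ℕ → Fin (n + 1) → Ω, a 0 ≠ 0 → Van (bc Ω x) a e →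
      rk K (rga a e) ≤ rk K (rg (a 0)) + m * e)
    {G : Fin (n + 1) → Polynomial Ω} (hG : ∀ i, (G i).natDegree ≤ e)
    (h0 : ∀ t, ∃ i, (G i).eval t ≠ 0) (h1 : ∃ i, (G i).coeff e ≠ 0)
    (hV : MvPolynomial.aeval G (fm (bc Ω x)) = 0) (hr : m * e + n ≤ rk K (cfs e G)) :
    moduli K e G = (m * e + n - 4 : ℕ) := by
  have key : ∀ α β γ δ : Ω, Algebra.trdeg K (IntermediateField.adjoin K
      {c : Ω | ∃ i j, (rpm e α β γ δ G i).coeff j = c}) = (rk K (cfs e (rpm e α β γ δ G)) : ℕ) := by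
    intro α β γ δ
    rw [adjoin_coeffs K _ (natDegree_rpm e α β γ δ G), rk_trdeg]
  have hdet : ∀ M : Matrix (Fin 2) (Fin 2) Ω, M.det ≠ 0 →
      M 0 0 * M 1 1 - M 0 1 * M 1 0 ≠ 0 := fun M hM => by rwa [Matrix.det_fin_two] at hM
  obtain ⟨α, β, γ, δ, hM, hle⟩ := moduli_le hb he hx hQ hG h0 h1 hV
  have hMdet : (!![α, β; γ, δ] : Matrix (Fin 2) (Fin 2) Ω).det ≠ 0 := by
    rw [Matrix.det_fin_two_of]
    exact hM
  have : Nonempty {M : Matrix (Fin 2) (Fin 2) Ω // M.det ≠ 0} := ⟨⟨_, hMdet⟩⟩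
  apply le_antisymm
  · refine (ciInf_le' _ ⟨!![α, β; γ, δ], hMdet⟩).trans ?_
    change Algebra.trdeg K (IntermediateField.adjoin K
      {c : Ω | ∃ i j, (rpm e α β γ δ G i).coeff j = c}) ≤ _
    rw [key]
    exact_mod_cast (by omega : rk K (cfs e (rpm e α β γ δ G)) ≤ m * e + n - 4)
  · refine le_ciInf fun M => ?_
    rw [key]
    have h2 := moduli_ge (K := K) hG (hdet M.1 M.2)
    exact_mod_cast (by omega :
      m * e + n - 4 ≤ rk K (cfs e (rpm e (M.1 0 0) (M.1 0 1) (M.1 1 0) (M.1 1 1) G)))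

end Pool.Agent.Helper30.RY
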