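import Mathlib
import Pool.Agent.Helper30.RY.Trv

/-!
# Block RY-TRC: the relative coordinates at `τ = 0`

`hp`: different children of the same vertex have different positions.

`zw_zero` by strong induction on `y + v`.
* `y = v`: `ww = 1`, `zp = X`, `desc par y y`.
* `y < v`, `u = par v < v`: `zp y v = zp y u - C (ww y u * p v)`, `ww y v = 0`, and `¬ desc par v y`
  (`desc_le`).  If `desc par u y` then `ww y u = 1` and either `u = y`, `zp y v = X - C (p v)`: take `w = v`; or
  `zp y u = C (p w)` for a child `w` of `u` with `desc par w y`; `w ≠ v` (as `¬ desc par v y`), so `p w ≠ p v` and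
  `zp y v = C (p w - p v)`; `¬ desc par y v`, as otherwise `desc par y u`, `y ≤ u`, but `u ≤ y` and `u ≠ y`.
  If `¬ desc par u y` then `ww y u = 0`, `zp y v = zp y u`, use the induction hypothesis: `desc par w u` implies
  `desc par w v` (`w ≤ u < v`, `desc_iff`), and `desc par y v ↔ desc par y u`.
* `v < y`, `u = par y`: `zp y v = (zp u v).comp (C (p y) + C 0 * X) = C ((zp u v).eval (p y))`, `ww y v = ww u v`,
  `desc par v y ↔ desc par v u`, `¬ desc par y v`.  If `desc par v u`: `v = u`: `zp y v = C (p y)`, take `w = y`; or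
  `zp u v = C (p w)`, `desc par w u`, so `desc par w y`.  If `¬ desc par v u`: `zp u v = X - C (p w)` with a child `w` of `u`,
  `desc par w v`, so `w ≤ v < y`, `w ≠ y` and `p y ≠ p w`; or `zp u v = C z`.
-/

namespace Pool.Agent.Helper30.RY

open Polynomial

theorem zw_zero {A : Type*} [Field A] {par : ℕ → ℕ} {N : ℕ} {p : ℕ → A}
    (hpar : ∀ v, 1 ≤ v → v ≤ N → par v < v)
    (hp : ∀ v w, 1 ≤ v → v ≤ N → 1 ≤ w → w ≤ N → v ≠ w → par v = par w → p v ≠ p w)
    {y v : ℕ} (hy : y ≤ N) (hv : v ≤ N) :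
    (desc par v y → ww par (fun _ => 0) p y v = 1 ∧
      ((v = y ∧ zp par (fun _ => 0) p y v = X) ∨
        (v ≠ y ∧ ∃ w, 1 ≤ w ∧ w ≤ N ∧ par w = v ∧ desc par w y ∧
          zp par (fun _ => 0) p y v = C (p w)))) ∧
    (¬ desc par v y → ww par (fun _ => 0) p y v = 0 ∧
      ((∃ w, 1 ≤ w ∧ w ≤ N ∧ par w = y ∧ desc par w v ∧
          zp par (fun _ => 0) p y v = X - C (p w)) ∨
        (¬ desc par y v ∧ ∃ z, z ≠ 0 ∧ zp par (fun _ => 0) p y v = C z))) := by
  induction hn : y + v using Nat.strong_induction_on generalizing y v with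
  | _ n ih =>
    rcases lt_trichotomy y v with h | h | h
    · have h1 : 1 ≤ v := by omega
      have h2 := hpar v h1 hv
      have hu : par v ≤ N := by omega
      have ihu := ih (y + par v) (by omega) hy hu rfl
      have hnd : ¬ desc par v y := fun hd => by
        have := desc_le hd
        omega
      refine ⟨fun hd => absurd hd hnd, fun _ => ⟨by rw [ww_lt h h2, mul_zero], ?_⟩⟩
      rw [zp_lt h h2]
      by_cases hd : desc par (par v) y
      · obtain ⟨hw, hc⟩ := ihu.1 hd
        rw [hw, one_mul]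
        rcases hc with ⟨he, hz⟩ | ⟨he, w, hw1, hwN, hwp, hwd, hz⟩
        · left
          refine ⟨v, h1, hv, he, desc_self par v, ?_⟩
          rw [hz]
        · right
          refine ⟨fun hdy => ?_, p w - p v, ?_, ?_⟩
          · have h3 := desc_le ((desc_iff h h2).1 hdy)
            have h4 := desc_le hd
            exact he (le_antisymm h4 h3)
          · have h3 := desc_le hwd
            exact sub_ne_zero.2 (hp w v hw1 hwN h1 hv (by omega) hwp)
          · rw [hz, C_sub]
      · obtain ⟨hw, hc⟩ := ihu.2 hd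
        rw [hw, zero_mul, C_0, sub_zero]
        rcases hc with ⟨w, hw1, hwN, hwp, hwd, hz⟩ | ⟨hnd', z, hz0, hz⟩
        · left
          have h3 := desc_le hwd
          exact ⟨w, hw1, hwN, hwp, (desc_iff (by omega) h2).2 hwd, hz⟩
        · right
          exact ⟨fun hdy => hnd' ((desc_iff h h2).1 hdy), z, hz0, hz⟩
    · subst h
      exact ⟨fun _ => ⟨ww_self, Or.inl ⟨rfl, zp_self⟩⟩, fun hd => absurd (desc_self par y) hd⟩
    · have h1 : 1 ≤ y := by omega
      have h2 := hpar y h1 hy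
      have hu : par y ≤ N := by omega
      have ihu := ih (par y + v) (by omega) hu hv rfl
      have hnd : ¬ desc par y v := fun hd => by
        have := desc_le hd
        omega
      rw [zp_gt h h2, ww_gt h h2, C_0, zero_mul, add_zero]
      refine ⟨fun hd => ?_, fun hd => ?_⟩
      · obtain ⟨hw, hc⟩ := ihu.1 ((desc_iff h h2).1 hd)
        refine ⟨hw, Or.inr ⟨by omega, ?_⟩⟩
        rcases hc with ⟨he, hz⟩ | ⟨he, w, hw1, hwN, hwp, hwd, hz⟩
        · refine ⟨y, h1, hy, he.symm, desc_self par y, ?_⟩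
          rw [hz, X_comp]
        · have h3 := desc_le hwd
          refine ⟨w, hw1, hwN, hwp, (desc_iff (by omega) h2).2 hwd, ?_⟩
          rw [hz, C_comp]
      · obtain ⟨hw, hc⟩ := ihu.2 (fun hd' => hd ((desc_iff h h2).2 hd'))
        refine ⟨hw, Or.inr ⟨hnd, ?_⟩⟩
        rcases hc with ⟨w, hw1, hwN, hwp, hwd, hz⟩ | ⟨hnd', z, hz0, hz⟩
        · have h3 := desc_le hwd
          refine ⟨p y - p w, sub_ne_zero.2 (hp y w h1 hy hw1 hwN (by omega) hwp.symm), ?_⟩
          rw [hz, sub_comp, X_comp, C_comp, C_sub]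
        · refine ⟨z, hz0, ?_⟩
          rw [hz, C_comp]

/-- the points of different components, and different points of one component, are different -/
theorem dif_zero {A : Type*} [Field A] {par : ℕ → ℕ} {N : ℕ} {p : ℕ → A}
    (hpar : ∀ v, 1 ≤ v → v ≤ N → par v < v)
    (hp : ∀ v w, 1 ≤ v → v ≤ N → 1 ≤ w → w ≤ N → v ≠ w → par v = par w → p v ≠ p w)
    {y v : ℕ} (hy : y ≤ N) (hv : v ≤ N) {t t' : A}
    (ht : ∀ w, 1 ≤ w → w ≤ N → par w = y → t ≠ p w)
    (ht' : ∀ w, 1 ≤ w → w ≤ N → par w = v → t' ≠ p w) (hne : (y, t) ≠ (v, t')) :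
    (zp par (fun _ => 0) p y v).eval t - ww par (fun _ => 0) p y v * t' ≠ 0 := by
  have h := zw_zero hpar hp hy hv
  by_cases hd : desc par v y
  · obtain ⟨hw, hc⟩ := h.1 hd
    rw [hw, one_mul]
    rcases hc with ⟨he, hz⟩ | ⟨he, w, hw1, hwN, hwp, hwd, hz⟩
    · rw [hz, eval_X]
      refine sub_ne_zero.2 fun ht2 => hne ?_
      rw [he, ht2]
    · rw [hz, eval_C]
      exact sub_ne_zero.2 (Ne.symm (ht' w hw1 hwN hwp))
  · obtain ⟨hw, hc⟩ := h.2 hd
    rw [hw, zero_mul, sub_zero]
    rcases hc with ⟨w, hw1, hwN, hwp, hwd, hz⟩ | ⟨hnd', z, hz0, hz⟩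
    · rw [hz, eval_sub, eval_X, eval_C]
      exact sub_ne_zero.2 (ht w hw1 hwN hwp)
    · rw [hz, eval_C]
      exact hz0

end Pool.Agent.Helper30.RY
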