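import Mathlib
import Pool.Agent.Helper30.RY.Trc

/-!
# Block RY-TRW: the views at `τ = 0`

`gpl par deg N p y = ∏ (X - C (p w))^(sbd w)` over the children `w` of `y`.

`vw_zero`.  For `y ≤ N` the factors of `vw y i` at `τ = 0` are, by `zw_zero`:
* `v = y`: `hev (F y i) (deg y) X 1 = F y i`;
* `v` a descendant of `y`, `v ≠ y`: there is a child `w` of `y` (unique, `uniq`) with `desc par w v`, and the factor is
  `(X - C (p w))^(deg v)` (`hev_zero`; `¬ desc par v y` as `desc_le`);
* `v` not a descendant of `y`: the factor is a constant: `C (F v i).eval (p w)` (`v` an ancestor of `y`, `w` the child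
  of `v` with `desc par w y`), or `C (z^(deg v))`, `z ≠ 0` independent of `i`.
So `vw y i = C (κ y i) * gpl y * F y i` with `κ y i = c i * ∏ (constants)`; group the second kind by `w`.
`κ 0 = c` (all `v` are descendants of `0`).  For `y ≥ 1`, `u = par y`: the constants for `v` not a descendant of `u` are the same for
`y` and `u` (`zp_gt`, `ww_gt`, `zp_lt`.. : `zp_step`, `ww_step` with `¬ desc par y v`: `zp y v = (zp u v).comp (C (p y) + 0)`),
for `v = u` it is `(F u i).eval (p y)`, and for `v` a descendant of `u` but not of `y`, `v ≠ u`, it is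
`(p y - p w)^(deg v)`, `w ≠ y`, nonzero and independent of `i`.
-/

namespace Pool.Agent.Helper30.RY

open Polynomial

/-- the factor of the view from `y` which comes from the branches at the children of `y` -/
noncomputable def gpl {A : Type*} [CommRing A] (par deg : ℕ → ℕ) (N : ℕ) (p : ℕ → A) (y : ℕ) :
    A[X] :=
  ∏ w ∈ (Finset.Icc 1 N).filter (fun w => par w = y), (X - C (p w)) ^ sbd par deg N w

theorem desc_uniq {par : ℕ → ℕ} {N y v w w' : ℕ} (hpar : ∀ v, 1 ≤ v → v ≤ N → par v < v)
    (hv : v ≤ N) (hw1 : 1 ≤ w) (hw1' : 1 ≤ w') (hw : par w = y) (hw' : par w' = y)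
    (h : desc par w v) (h' : desc par w' v) : w = w' := by
  induction v using Nat.strong_induction_on with
  | _ v ih =>
    have h1 := desc_le h
    have h2 := desc_le h'
    rcases Nat.lt_or_ge w v with h3 | h3
    · rcases Nat.lt_or_ge w' v with h4 | h4
      · have h5 := hpar v (by omega) hv
        exact ih (par v) h5 (by omega) ((desc_iff h3 h5).mp h) ((desc_iff h4 h5).mp h')
      · have h5 : w' = v := le_antisymm h2 h4
        subst h5
        have h6 := hpar w' hw1' hv
        have h7 := desc_le ((desc_iff h3 h6).mp h)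
        have h8 := hpar w hw1 (by omega)
        omega
    · have h5 : w = v := le_antisymm h1 h3
      subst h5
      rcases Nat.lt_or_ge w' w with h4 | h4
      · have h6 := hpar w hw1 hv
        have h7 := desc_le ((desc_iff h4 h6).mp h')
        have h8 := hpar w' hw1' (by omega)
        omega
      · exact le_antisymm h4 h2

theorem desc_zero {par : ℕ → ℕ} {N v : ℕ} (hpar : ∀ v, 1 ≤ v → v ≤ N → par v < v)
    (hv : v ≤ N) : desc par 0 v := by
  induction v using Nat.strong_induction_on with
  | _ v ih =>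
    rcases Nat.eq_zero_or_pos v with h | h
    · subst h
      exact desc_self par 0
    · have h5 := hpar v h hv
      exact (desc_iff h h5).mpr (ih (par v) h5 (by omega))

private theorem desc_trans15 {par : ℕ → ℕ} {N y w v : ℕ} (hpar : ∀ v, 1 ≤ v → v ≤ N → par v < v)
    (hv : v ≤ N) (h : desc par y w) (h' : desc par w v) : desc par y v := by
  induction v using Nat.strong_induction_on with
  | _ v ih =>
    have h1 := desc_le h
    have h2 := desc_le h'
    rcases Nat.lt_or_ge w v with h3 | h3
    · have h5 := hpar v (by omega) hv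
      exact (desc_iff (lt_of_le_of_lt h1 h3) h5).mpr (ih (par v) h5 (by omega) ((desc_iff h3 h5).mp h'))
    · have h5 : w = v := le_antisymm h2 h3
      rw [← h5]
      exact h

private theorem desc_par15 {par : ℕ → ℕ} {N w : ℕ} (hpar : ∀ v, 1 ≤ v → v ≤ N → par v < v)
    (h1 : 1 ≤ w) (hw : w ≤ N) : desc par (par w) w :=
  (desc_iff (hpar w h1 hw) (hpar w h1 hw)).mpr (desc_self par _)

private theorem exists_child15 {par : ℕ → ℕ} {N y v : ℕ} (hpar : ∀ v, 1 ≤ v → v ≤ N → par v < v)
    (hv : v ≤ N) (h : desc par y v) (hne : v ≠ y) :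
    ∃ w, 1 ≤ w ∧ w ≤ N ∧ par w = y ∧ desc par w v := by
  induction v using Nat.strong_induction_on with
  | _ v ih =>
    have h1 : y < v := lt_of_le_of_ne (desc_le h) (Ne.symm hne)
    have h5 := hpar v (by omega) hv
    have h6 := (desc_iff h1 h5).mp h
    by_cases h7 : par v = y
    · exact ⟨v, by omega, hv, h7, desc_self par v⟩
    · obtain ⟨w, hw1, hw2, hw3, hw4⟩ := ih (par v) h5 (by omega) h6 h7
      exact ⟨w, hw1, hw2, hw3, (desc_iff (lt_of_le_of_lt (desc_le hw4) h5) h5).mpr hw4⟩

private theorem hev_const15 {A : Type*} [CommRing A] {G : A[X]} {ε : ℕ} (hG : G.natDegree ≤ ε) (a : A) :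
    hev G ε (C a) 1 = C (G.eval a) := by
  have h1 := hev_comp G ε X (C a) 1
  rw [X_comp, hev_one hG, comp_C] at h1
  exact h1.symm

theorem vw_zero {A : Type*} [Field A] {n : ℕ} {par deg : ℕ → ℕ} {N : ℕ} {p : ℕ → A}
    (hpar : ∀ v, 1 ≤ v → v ≤ N → par v < v)
    (hp : ∀ v w, 1 ≤ v → v ≤ N → 1 ≤ w → w ≤ N → v ≠ w → par v = par w → p v ≠ p w)
    (c : Fin (n + 1) → A) {F : ℕ → Fin (n + 1) → A[X]}
    (hF : ∀ v ≤ N, ∀ i, (F v i).Monic ∧ (F v i).natDegree = deg v) :
    ∃ κ : ℕ → Fin (n + 1) → A, κ 0 = c ∧
      (∀ y ≤ N, ∀ i, vw par deg N (fun _ => 0) p c F y i =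
        C (κ y i) * gpl par deg N p y * F y i) ∧
      ∀ y, 1 ≤ y → y ≤ N → ∃ s : A, s ≠ 0 ∧
        ∀ i, κ y i = s * (κ (par y) i * (F (par y) i).eval (p y)) := by
  classical
  set fac : ℕ → ℕ → Fin (n + 1) → A[X] := fun y v i =>
    hev (F v i) (deg v) (zp par (fun _ => 0) p y v) (ww par (fun _ => 0) p y v) with hfac
  -- the factors
  have f1 : ∀ y ≤ N, ∀ i, fac y y i = F y i := by
    intro y hy i
    have h1 := (zw_zero hpar hp hy hy).1 (desc_self par y)
    rw [hfac]
    beta_reduce
    rw [h1.1, zp_self, hev_one (hF y hy i).2.le]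
  have f2 : ∀ y ≤ N, ∀ v ≤ N, desc par y v → v ≠ y → ∃ w, 1 ≤ w ∧ w ≤ N ∧ par w = y ∧ desc par w v ∧
      zp par (fun _ => 0) p y v = X - C (p w) ∧ ww par (fun _ => 0) p y v = 0 ∧
      ∀ i, fac y v i = (X - C (p w)) ^ deg v := by
    intro y hy v hv hd hne
    have h0 : ¬ desc par v y := fun h => hne (le_antisymm (desc_le h) (desc_le hd))
    obtain ⟨h1, h2⟩ := (zw_zero hpar hp hy hv).2 h0
    rcases h2 with ⟨w, hw1, hw2, hw3, hw4, hw5⟩ | ⟨h3, -⟩
    · refine ⟨w, hw1, hw2, hw3, hw4, hw5, h1, fun i => ?_⟩
      rw [hfac]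
      beta_reduce
      rw [h1, hw5, hev_zero (hF v hv i).1 (hF v hv i).2]
    · exact absurd hd h3
  have f3 : ∀ y ≤ N, ∀ v ≤ N, ¬ desc par y v → (∃ z, zp par (fun _ => 0) p y v = C z) ∧
      ∀ i, fac y v i = C ((fac y v i).eval 0) := by
    intro y hy v hv hd
    have hne : v ≠ y := fun h => hd (h ▸ desc_self par v)
    by_cases h0 : desc par v y
    · obtain ⟨h1, h2⟩ := (zw_zero hpar hp hy hv).1 h0
      rcases h2 with ⟨h3, -⟩ | ⟨-, w, -, -, -, -, hw5⟩
      · exact absurd h3 hne
      · refine ⟨⟨_, hw5⟩, fun i => ?_⟩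
        have e : fac y v i = C ((F v i).eval (p w)) := by
          rw [hfac]
          beta_reduce
          rw [h1, hw5, hev_const15 (hF v hv i).2.le]
        rw [e, eval_C]
    · obtain ⟨h1, h2⟩ := (zw_zero hpar hp hy hv).2 h0
      rcases h2 with ⟨w, hw1, hw2, hw3, hw4, -⟩ | ⟨-, z, -, hz⟩
      · refine absurd ?_ hd
        rw [← hw3]
        exact desc_trans15 hpar hv (desc_par15 hpar hw1 hw2) hw4
      · refine ⟨⟨z, hz⟩, fun i => ?_⟩
        have e : fac y v i = C (z ^ deg v) := by
          rw [hfac]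
          beta_reduce
          rw [h1, hz, hev_zero (hF v hv i).1 (hF v hv i).2, C_pow]
        rw [e, eval_C]
  set κ : ℕ → Fin (n + 1) → A := fun y i =>
    c i * ∏ v ∈ (Finset.range (N + 1)).filter (fun v => ¬ desc par y v), (fac y v i).eval 0 with hκ
  refine ⟨κ, ?_, ?_, ?_⟩
  · funext i
    rw [hκ]
    beta_reduce
    rw [Finset.filter_false_of_mem, Finset.prod_empty, mul_one]
    intro v hv
    rw [not_not]
    exact desc_zero hpar (by rw [Finset.mem_range] at hv; omega)
  · intro y hy i
    have e0 : vw par deg N (fun _ => 0) p c F y i = C (c i) * ∏ v ∈ Finset.range (N + 1), fac y v i := rfl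
    have hyr : y ∈ (Finset.range (N + 1)).filter (fun v => desc par y v) := by
      rw [Finset.mem_filter, Finset.mem_range]
      exact ⟨by omega, desc_self par y⟩
    have e1 : ∏ v ∈ (Finset.range (N + 1)).filter (fun v => ¬ desc par y v), fac y v i =
        C (∏ v ∈ (Finset.range (N + 1)).filter (fun v => ¬ desc par y v), (fac y v i).eval 0) := by
      rw [map_prod]
      refine Finset.prod_congr rfl fun v hv => ?_
      rw [Finset.mem_filter, Finset.mem_range] at hv
      exact (f3 y hy v (by omega) hv.2).2 i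
    have e2 : ∏ v ∈ ((Finset.range (N + 1)).filter (fun v => desc par y v)).erase y, fac y v i =
        gpl par deg N p y := by
      unfold gpl
      have e3 : ∀ w, (X - C (p w)) ^ sbd par deg N w =
          ∏ v ∈ (Finset.range (N + 1)).filter (fun v => desc par w v), (X - C (p w)) ^ deg v := by
        intro w
        rw [Finset.prod_pow_eq_pow_sum]
        congr 1
      have e4 : ((Finset.range (N + 1)).filter (fun v => desc par y v)).erase y =
          ((Finset.Icc 1 N).filter (fun w => par w = y)).biUnion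
            (fun w => (Finset.range (N + 1)).filter (fun v => desc par w v)) := by
        ext v
        simp only [Finset.mem_erase, Finset.mem_filter, Finset.mem_range, Finset.mem_biUnion,
          Finset.mem_Icc]
        constructor
        · rintro ⟨h1, h2, h3⟩
          obtain ⟨w, hw1, hw2, hw3, hw4⟩ := exists_child15 hpar (by omega) h3 h1
          exact ⟨w, ⟨⟨hw1, hw2⟩, hw3⟩, h2, hw4⟩
        · rintro ⟨w, ⟨⟨hw1, hw2⟩, hw3⟩, h2, hw4⟩
          have h6 := desc_par15 hpar hw1 hw2
          rw [hw3] at h6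
          refine ⟨?_, h2, desc_trans15 hpar (by omega) h6 hw4⟩
          have h5 := hpar w hw1 hw2
          have h7 := desc_le hw4
          omega
      rw [e4, Finset.prod_biUnion]
      · refine Finset.prod_congr rfl fun w hw => ?_
        rw [e3 w]
        refine Finset.prod_congr rfl fun v hv => ?_
        rw [Finset.mem_filter, Finset.mem_Icc] at hw
        rw [Finset.mem_filter, Finset.mem_range] at hv
        have h6 := desc_par15 hpar hw.1.1 hw.1.2
        rw [hw.2] at h6
        have h5 := hpar w hw.1.1 hw.1.2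
        have h7 := desc_le hv.2
        obtain ⟨w', hw1', hw2', hw3', hw4', -, -, hw6'⟩ := f2 y hy v (by omega)
          (desc_trans15 hpar (by omega) h6 hv.2) (by omega)
        rw [hw6' i, desc_uniq hpar (by omega) hw1' hw.1.1 hw3' hw.2 hw4' hv.2]
      · intro w hw w' hw' hne
        rw [Finset.mem_coe, Finset.mem_filter, Finset.mem_Icc] at hw hw'
        rw [Function.onFun, Finset.disjoint_left]
        intro v hv hv'
        rw [Finset.mem_filter, Finset.mem_range] at hv hv'
        exact hne (desc_uniq hpar (by omega) hw.1.1 hw'.1.1 hw.2 hw'.2 hv.2 hv'.2)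
    rw [e0, ← Finset.prod_filter_mul_prod_filter_not (Finset.range (N + 1)) (fun v => desc par y v),
      e1, ← Finset.mul_prod_erase _ _ hyr, e2, f1 y hy i, hκ]
    beta_reduce
    rw [map_mul]
    ring
  · intro y hy1 hy
    set u := par y with hu
    have huy : u < y := hpar y hy1 hy
    have huN : u ≤ N := by omega
    have hduy : desc par u y := desc_par15 hpar hy1 hy
    have hndyu : ¬ desc par y u := fun h => by
      have := desc_le h
      omega
    have hzs : ∀ v ≤ N, ¬ desc par y v → zp par (fun _ => 0) p y v =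
        (zp par (fun _ => 0) p u v).comp (C (p y)) ∧
        ww par (fun _ => (0 : A)) p y v = ww par (fun _ => 0) p u v := by
      intro v hv hd
      have h1 := zp_step (τ := fun _ => (0 : A)) (p := p) hpar hy1 hy hv
      have h2 := ww_step (τ := fun _ => (0 : A)) (p := p) hpar hy1 hy hv
      rw [if_neg hd] at h1 h2
      rw [map_zero, zero_mul, add_zero, map_one, one_mul] at h1
      rw [one_mul] at h2
      exact ⟨h1.symm, h2.symm⟩
    set S := (Finset.range (N + 1)).filter (fun v => desc par u v ∧ ¬ desc par y v ∧ v ≠ u) with hS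
    have hsp : (Finset.range (N + 1)).filter (fun v => ¬ desc par y v) =
        insert u ((Finset.range (N + 1)).filter (fun v => ¬ desc par u v) ∪ S) := by
      ext v
      simp only [hS, Finset.mem_filter, Finset.mem_insert, Finset.mem_union, Finset.mem_range]
      constructor
      · rintro ⟨h1, h2⟩
        by_cases h3 : v = u
        · exact Or.inl h3
        · by_cases h4 : desc par u v
          · exact Or.inr (Or.inr ⟨h1, h4, h2, h3⟩)
          · exact Or.inr (Or.inl ⟨h1, h4⟩)
      · rintro (rfl | ⟨h1, h2⟩ | ⟨h1, -, h2, -⟩)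
        · exact ⟨by omega, hndyu⟩
        · exact ⟨h1, fun h => h2 (desc_trans15 hpar (by omega) hduy h)⟩
        · exact ⟨h1, h2⟩
    have hn1 : u ∉ (Finset.range (N + 1)).filter (fun v => ¬ desc par u v) ∪ S := by
      simp only [hS, Finset.mem_filter, Finset.mem_union, Finset.mem_range]
      rintro (⟨-, h⟩ | ⟨-, -, -, h⟩)
      · exact h (desc_self par u)
      · exact h rfl
    have hn2 : Disjoint ((Finset.range (N + 1)).filter (fun v => ¬ desc par u v)) S := by
      rw [Finset.disjoint_left]
      intro v hv hv'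
      rw [Finset.mem_filter] at hv
      rw [hS, Finset.mem_filter] at hv'
      exact hv.2 hv'.2.1
    refine ⟨∏ v ∈ S, ((zp par (fun _ => 0) p y v).eval 0) ^ deg v, ?_, fun i => ?_⟩
    · refine Finset.prod_ne_zero_iff.mpr fun v hv => pow_ne_zero _ ?_
      rw [hS, Finset.mem_filter, Finset.mem_range] at hv
      obtain ⟨h1, h2, h3, h4⟩ := hv
      obtain ⟨w, hw1, hw2, hw3, hw4, hw5, -, -⟩ := f2 u huN v (by omega) h2 h4
      rw [(hzs v (by omega) h3).1, hw5, sub_comp, X_comp, C_comp, eval_sub, eval_C, eval_C, sub_ne_zero]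
      refine hp y w hy1 hy hw1 hw2 ?_ (by rw [hw3])
      rintro rfl
      exact h3 hw4
    · rw [hκ]
      beta_reduce
      rw [hsp, Finset.prod_insert hn1, Finset.prod_union hn2]
      have g1 : (fac y u i).eval 0 = (F u i).eval (p y) := by
        obtain ⟨h1, h2⟩ := hzs u huN hndyu
        rw [zp_self, X_comp] at h1
        rw [ww_self] at h2
        rw [hfac]
        beta_reduce
        rw [h1, h2, hev_const15 (hF u huN i).2.le, eval_C]
      have g2 : ∏ v ∈ (Finset.range (N + 1)).filter (fun v => ¬ desc par u v), (fac y v i).eval 0 =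
          ∏ v ∈ (Finset.range (N + 1)).filter (fun v => ¬ desc par u v), (fac u v i).eval 0 := by
        refine Finset.prod_congr rfl fun v hv => ?_
        rw [Finset.mem_filter, Finset.mem_range] at hv
        have h3 : ¬ desc par y v := fun h => hv.2 (desc_trans15 hpar (by omega) hduy h)
        obtain ⟨h1, h2⟩ := hzs v (by omega) h3
        obtain ⟨⟨z, hz⟩, -⟩ := f3 u huN v (by omega) hv.2
        rw [hz, C_comp, ← hz] at h1
        rw [hfac]
        beta_reduce
        rw [h1, h2]
      have g3 : ∏ v ∈ S, (fac y v i).eval 0 = ∏ v ∈ S, ((zp par (fun _ => 0) p y v).eval 0) ^ deg v := by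
        refine Finset.prod_congr rfl fun v hv => ?_
        rw [hS, Finset.mem_filter, Finset.mem_range] at hv
        obtain ⟨h1, h2, h3, h4⟩ := hv
        obtain ⟨w, hw1, hw2, hw3, hw4, hw5, hw6, -⟩ := f2 u huN v (by omega) h2 h4
        rw [hfac]
        beta_reduce
        rw [(hzs v (by omega) h3).2, hw6, hev_zero (hF v (by omega) i).1 (hF v (by omega) i).2, eval_pow]
      rw [g1, g2, g3]
      ring

end Pool.Agent.Helper30.RY
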