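import Mathlib
import Pool.Agent.Helper30.RY.Trw

/-!
# Stable maps of genus zero and their deformations: definitions

A stable map of genus `0` and degree `e` (without marked points) to projective `n`-space over the algebraically
closed field `k` is a tree of projective lines with a morphism.  Choose a root among its components and
number the components `0, ..., N`, the root first and every other component after its parent; choose an affine
coordinate on every component such that the node shared with the parent is at infinity and all other
nodes are at finite points (on the root: all nodes are at finite points).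
-/

namespace Pool.Agent.Helper30.RY

open Polynomial

/-- A stable map of genus `0` and degree `e` to projective `n`-space.
The components are `0, ..., N`; the component `v ≥ 1` is attached to the component `par v`: its point at infinity
is glued to the point `pos v` of `par v`.  The morphism on the component `v` has degree `deg v` and is given by
the polynomials `F v i` of degree at most `deg v` without a common zero, also not at infinity. -/
structure StableMap (k : Type*) [Field k] (n e : ℕ) where
  N : ℕ
  par : ℕ → ℕ
  par_lt : ∀ v, 1 ≤ v → v ≤ N → par v < v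
  deg : ℕ → ℕ
  deg_sum : ∑ v ∈ Finset.range (N + 1), deg v = e
  pos : ℕ → k
  pos_ne : ∀ v w, 1 ≤ v → v ≤ N → 1 ≤ w → w ≤ N → v ≠ w → par v = par w → pos v ≠ pos w
  F : ℕ → Fin (n + 1) → Polynomial k
  natDegree_le : ∀ v ≤ N, ∀ i, (F v i).natDegree ≤ deg v
  top_ne : ∀ v ≤ N, ∃ i, (F v i).coeff (deg v) ≠ 0
  eval_ne : ∀ v ≤ N, ∀ t, ∃ i, (F v i).eval t ≠ 0
  glue : ∀ v, 1 ≤ v → v ≤ N → ∃ s : k, s ≠ 0 ∧
    ∀ i, (F v i).coeff (deg v) = s * (F (par v) i).eval (pos v)
  stable : ∀ v ≤ N, deg v = 0 →
    3 ≤ ((Finset.Icc 1 N).filter fun w => par w = v).card + if v = 0 then 0 else 1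

/-- the stable map has its image in the hypersurface `f = 0` -/
def StableMap.On {k : Type*} [Field k] {n e : ℕ} (φ : StableMap k n e)
    (f : MvPolynomial (Fin (n + 1)) k) : Prop :=
  ∀ v ≤ φ.N, MvPolynomial.aeval (φ.F v) f = 0

/-- The map of degree `e` given by the polynomials `G i` over the valued field `L` (with valuation ring `O`, which
contains `k`) specialises to the stable map `φ`: in the coordinate `x_v`, `x = a v + t v * x_v`, on the component `v`
and up to the factor `s v`, the polynomials `G i` reduce modulo the maximal ideal to the `F v i`, times the polynomial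
which vanishes at the nodes of `v`, of order the degree of `φ` on the branch; the coordinates are compatible with
the positions of the nodes. -/
def StableMap.LimitOf {k L : Type*} [Field k] [Field L] [Algebra k L] {n e : ℕ}
    (φ : StableMap k n e) (O : ValuationSubring L) (G : Fin (n + 1) → Polynomial L) : Prop :=
  ∃ a t s : ℕ → L, (∀ v ≤ φ.N, t v ≠ 0 ∧ s v ≠ 0) ∧
    (∀ v, 1 ≤ v → v ≤ φ.N →
      O.valuation ((a v - a (φ.par v)) / t (φ.par v) - algebraMap k L (φ.pos v)) < 1 ∧
      O.valuation (t v / t (φ.par v)) < 1) ∧
    ∀ v ≤ φ.N, ∀ i j, O.valuation (((G i).comp (C (a v) + C (t v) * X)).coeff j / s v -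
      algebraMap k L ((gpl φ.par φ.deg φ.N φ.pos v * φ.F v i).coeff j)) < 1

end Pool.Agent.Helper30.RY
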