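import Mathlib
import Pool.Agent.Helper30.RY.Td

/-!
# Block RY-TVA: a specialisation is the reduction modulo a valuation ring

`a : ι → Ω` specialises to `b : ι → k` over `k`.  There is a valuation ring `O` of `Ω`, containing `k`, such that all
`a i - b i` are in the maximal ideal of `O`.
Proof: let `R = Algebra.adjoin k (Set.range a)`, and `χ : R → k` the homomorphism with `χ (a i) = b i` (exists because of
`h`), `M` its kernel, a maximal ideal.  `LocalSubring.ofPrime R M` is contained in (dominated by) a valuation ring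
(`LocalSubring.exists_le_valuationSubring` in `Mathlib/RingTheory/Valuation/LocalSubring.lean`), so the elements of
`M` are in its maximal ideal (nonunits: `ValuationSubring.valuation_lt_one_iff`, `ValuationSubring.mem_nonunits_iff`).
`a i - b i ∈ M`.
-/

namespace Pool.Agent.Helper30.RY

theorem exists_center {k Ω ι : Type*} [Field k] [Field Ω] [Algebra k Ω] {a : ι → Ω} {b : ι → k}
    (h : ∀ p : MvPolynomial ι k, MvPolynomial.aeval a p = 0 → MvPolynomial.eval b p = 0) :
    ∃ O : ValuationSubring Ω, (∀ t : k, algebraMap k Ω t ∈ O) ∧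
      ∀ i, O.valuation (a i - algebraMap k Ω (b i)) < 1 := by
  obtain ⟨φ, hφ⟩ : ∃ φ : MvPolynomial ι k →+* Ω, ∀ p, φ p = MvPolynomial.aeval a p :=
    ⟨((MvPolynomial.aeval a : MvPolynomial ι k →ₐ[k] Ω) : MvPolynomial ι k →+* Ω), fun _ => rfl⟩
  have hs : Function.Surjective φ.rangeRestrict := φ.rangeRestrict_surjective
  obtain ⟨I, hI⟩ : ∃ I : Ideal φ.range,
      I = (RingHom.ker (MvPolynomial.eval b)).map φ.rangeRestrict := ⟨_, rfl⟩
  have hI1 : I ≠ ⊤ := by
    intro h1
    have h2 : (1 : φ.range) ∈ (RingHom.ker (MvPolynomial.eval b)).map φ.rangeRestrict := by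
      rw [← hI, h1]
      exact Submodule.mem_top
    obtain ⟨p, hp, hp1⟩ := (Ideal.mem_map_iff_of_surjective _ hs).1 h2
    rw [RingHom.mem_ker] at hp
    have h3 : φ p = 1 := congrArg Subtype.val hp1
    have h4 := h (p - 1) (by rw [map_sub, ← hφ, h3, map_one, sub_self])
    rw [map_sub, hp, map_one, zero_sub, neg_eq_zero] at h4
    exact one_ne_zero h4
  obtain ⟨O, hO1, hO2⟩ := Ideal.image_subset_nonunits_valuationSubring I hI1
  refine ⟨O, fun t => ?_, fun i => ?_⟩
  · refine hO1 ⟨MvPolynomial.C t, ?_⟩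
    rw [hφ, MvPolynomial.aeval_C]
  · rw [← ValuationSubring.mem_nonunits_iff]
    apply hO2
    refine ⟨φ.rangeRestrict (MvPolynomial.X i - MvPolynomial.C (b i)), ?_, ?_⟩
    · rw [hI]
      refine Ideal.mem_map_of_mem _ ?_
      rw [RingHom.mem_ker, map_sub, MvPolynomial.eval_X, MvPolynomial.eval_C, sub_self]
    · change φ (MvPolynomial.X i - MvPolynomial.C (b i)) = _
      rw [hφ, map_sub, MvPolynomial.aeval_X, MvPolynomial.aeval_C]

end Pool.Agent.Helper30.RY
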