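import Mathlib
import Pool.Agent.Helper30.RY.Trm
import Pool.Agent.Helper30.RY.Trc
import Pool.Agent.Helper30.RY.Tva
import Pool.Agent.Helper30.RY.KruB

/-!
# Block RY-TRE: smoothing a tree of curves on a hypersurface

The tree of curves over `k` is given by `par`, `deg`, `N`, the positions `p₀`, `c₀` and the monic polynomials `F₀`
(in general position: `hc₀`, `hgp`); it is on the hypersurface: `hX`.

1. `k` is infinite: choose finite sets `S₀ v ⊆ k`, `v ≤ N`, disjoint from `{p₀ w : par w = v}`, of cardinality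
   `d * deg v` (`+ 1` for `v = 0`).
2. `J = Fin N ⊕ (Fin N ⊕ (Fin (n + 1) ⊕ (Σ v : Fin (N + 1), Fin (n + 1) × Fin (deg v))))`, `R = MvPolynomial J k`, with the
   universal `τ`, `p`, `c` and the universal monic polynomials `F v i = X^(deg v) + ∑_{j < deg v} C (X_{v i j}) X^j` over `R`
   (for `v ≤ N`; `τ s`, `p s` are `0` outside `1 ≤ s ≤ N`, by `zw_congr` this does not matter).  `φ₀ : R → Ω`: a generic
   tuple (`exists_generic` with `s = ∅`; injective by algebraic independence, `algInd_of_generic` or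
   `eval_ne_zero_of_generic`).  `ψ : R → k` the evaluation at the given tree (`τ = 0`).
   The equations: for `v ≤ N`, `t ∈ S₀ v`: `h_{v,t} = eval (fun i => (vw .. v i).eval t) (fm x)` over `R`;
   there are at most `d e + 1` of them and `ψ (h_{v,t}) = 0` by `hX` (`vw_map`, homomorphisms commute with everything).
3. `exists_between` (`KruB.lean`) gives `φ : R →ₐ[k] Ω` with `φ (h_{v,t}) = 0`, `φ r = 0 → ψ r = 0`, and
   `card J ≤ rk k (rg fun j => φ (X j)) + (d e + 1)`.  Let `τ, p, c, F` be the images of the universal ones.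
   `rg (fun j => φ (X j)) ⊆ prm deg N τ p c F`, `card J = 2 N + (n + 1) (e + 1)`, so
   `rk k (prm ..) ≥ 2 N + m e + n`.
4. `tree_main` with `S v = (S₀ v).image (algebraMap k Ω)`.  All elements which have to be nonzero are images under `φ` of
   elements of `R` whose image under `ψ` is not zero: `c i` (`hc₀`); `hD`: `dif_zero`; `hκ` for `u = par y` and
   `¬ desc par y v`: by `zw_zero` for `(u, v)`: if `desc par v u` then `ww = 1` and `zp = X` (`v = u`; the value is
   `(F₀ v i).eval (p₀ y) ≠ 0`) or `zp = C (p₀ w)`, `w` a child of `v` (`(F₀ v i).eval (p₀ w) ≠ 0`) by `hgp` (`hev_one`, or the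
   definition of `hev` with `W = 1`); if `¬ desc par v u` then `ww = 0`, the value is `(zp.eval (p₀ y))^(deg v)` (`hev_zero`) and
   `zp.eval (p₀ y)` is `p₀ y - p₀ w`, `w ≠ y` a child of `u` (`desc par w v`, but `¬ desc par y v`), or `z ≠ 0`.
5. By (2) of `tree_main` the rank is at most `2 N + m e + n - card {τ = 0}`, so no `τ v` is zero; by (3)
   `rk k (cfs ..) ≥ m e + n`; by (1) for `y = 0` the curve is on the hypersurface.
6. `exists_center` for `φ ∘ X` and `ψ ∘ X`.
-/

namespace Pool.Agent.Helper30.RY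

open Polynomial

section aux74

variable {A B : Type*} [CommRing A] [CommRing B]

private theorem zp_map74 (φ : A →+* B) {par : ℕ → ℕ} {τ p : ℕ → A} (y v : ℕ) :
    (zp par τ p y v).map φ = zp par (fun s => φ (τ s)) (fun s => φ (p s)) y v := by
  unfold zp
  rw [zw_map, Polynomial.map_add, Polynomial.map_mul, Polynomial.map_C, Polynomial.map_C,
    Polynomial.map_X]

private theorem ww_map74 (φ : A →+* B) {par : ℕ → ℕ} {τ p : ℕ → A} (y v : ℕ) :
    φ (ww par τ p y v) = ww par (fun s => φ (τ s)) (fun s => φ (p s)) y v := by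
  unfold ww
  rw [zw_map]

private theorem dif_map74 (φ : A →+* B) {par : ℕ → ℕ} {τ p : ℕ → A} (y v : ℕ) (t t' : A) :
    φ ((zp par τ p y v).eval t - ww par τ p y v * t') =
      (zp par (fun s => φ (τ s)) (fun s => φ (p s)) y v).eval (φ t) -
        ww par (fun s => φ (τ s)) (fun s => φ (p s)) y v * φ t' := by
  rw [map_sub, map_mul, ww_map74, ← Polynomial.eval_map_apply, zp_map74]

private theorem hk_map74 (φ : A →+* B) (G : A[X]) (ε : ℕ) (Z : A[X]) (W a : A) :
    φ ((hev G ε Z W).eval a) = (hev (G.map φ) ε (Z.map φ) (φ W)).eval (φ a) := by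
  rw [← hev_map, Polynomial.eval_map_apply]

private theorem vw_congr74 {n : ℕ} {par deg : ℕ → ℕ} {N : ℕ} {τ τ' p p' : ℕ → A}
    {c : Fin (n + 1) → A} {F F' : ℕ → Fin (n + 1) → A[X]}
    (hpar : ∀ v, 1 ≤ v → v ≤ N → par v < v)
    (hτ : ∀ v, 1 ≤ v → v ≤ N → τ v = τ' v) (hp : ∀ v, 1 ≤ v → v ≤ N → p v = p' v)
    (hF : ∀ v ≤ N, F v = F' v) {y : ℕ} (hy : y ≤ N) :
    vw par deg N τ p c F y = vw par deg N τ' p' c F' y := by
  funext i
  unfold vw
  congr 1
  refine Finset.prod_congr rfl fun v hv => ?_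
  have hv' : v ≤ N := Nat.lt_succ_iff.1 (Finset.mem_range.1 hv)
  have h := zw_congr hpar hτ hp hy hv'
  have h1 : zp par τ p y v = zp par τ' p' y v := by
    unfold zp
    rw [h]
  have h2 : ww par τ p y v = ww par τ' p' y v := by
    unfold ww
    rw [h]
  rw [hF v hv', h1, h2]

private theorem eval_hom74 {σ : Type*} (φ : A →+* B) (z : σ → A) (f : MvPolynomial σ A) :
    φ (MvPolynomial.eval z f) = MvPolynomial.eval (fun i => φ (z i)) (MvPolynomial.map φ f) := by
  induction f using MvPolynomial.induction_on with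
  | C a => simp
  | add p q hp hq => simp only [map_add, hp, hq]
  | mul_X p i hp => simp only [map_mul, hp, MvPolynomial.eval_X, MvPolynomial.map_X]

private theorem eq_map74 {n d : ℕ} (φ : A →+* B) (x : Mon n d → A) (P : Fin (n + 1) → A[X])
    (t : A) : φ (MvPolynomial.eval (fun i => (P i).eval t) (fm x)) =
      MvPolynomial.eval (fun i => ((P i).map φ).eval (φ t)) (fm fun m => φ (x m)) := by
  rw [eval_hom74, map_fm]
  congr 2
  funext i
  rw [Polynomial.eval_map_apply]

private theorem ev_aeval74 {n : ℕ} (P : Fin (n + 1) → A[X]) (f : MvPolynomial (Fin (n + 1)) A)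
    (t : A) : (MvPolynomial.aeval P f).eval t = MvPolynomial.eval (fun i => (P i).eval t) f := by
  induction f using MvPolynomial.induction_on with
  | C a => simp
  | add p q hp hq => simp only [map_add, Polynomial.eval_add, hp, hq]
  | mul_X p i hp =>
    simp only [map_mul, Polynomial.eval_mul, hp, MvPolynomial.eval_X, MvPolynomial.aeval_X]

/-- the index set of the parameters -/
private abbrev JJ74 (deg : ℕ → ℕ) (N n : ℕ) : Type :=
  Fin N ⊕ (Fin N ⊕ (Fin (n + 1) ⊕ (Σ v : Fin (N + 1), Fin (n + 1) × Fin (deg v))))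

variable {deg : ℕ → ℕ} {N n : ℕ}

private def tU74 (a : JJ74 deg N n → A) (s : ℕ) : A :=
  if h : 1 ≤ s ∧ s ≤ N then a (Sum.inl ⟨s - 1, by omega⟩) else 0

private def pU74 (a : JJ74 deg N n → A) (s : ℕ) : A :=
  if h : 1 ≤ s ∧ s ≤ N then a (Sum.inr (Sum.inl ⟨s - 1, by omega⟩)) else 0

private def cU74 (a : JJ74 deg N n → A) (i : Fin (n + 1)) : A :=
  a (Sum.inr (Sum.inr (Sum.inl i)))

private noncomputable def fU74 (a : JJ74 deg N n → A) (v : ℕ) (i : Fin (n + 1)) : A[X] :=
  if h : v < N + 1 then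
    X ^ deg v + ∑ j : Fin (deg v), C (a (Sum.inr (Sum.inr (Sum.inr ⟨⟨v, h⟩, (i, j)⟩)))) * X ^ (j : ℕ)
  else 0

private noncomputable def vv74 (par : ℕ → ℕ) (a : JJ74 deg N n → A) (v : ℕ) (i : Fin (n + 1)) :
    A[X] :=
  vw par deg N (tU74 a) (pU74 a) (cU74 a) (fU74 a) v i

private theorem tU_map74 (φ : A →+* B) (a : JJ74 deg N n → A) :
    (fun s => φ (tU74 a s)) = tU74 (fun j => φ (a j)) := by
  funext s
  unfold tU74
  split_ifs
  · rfl
  · exact map_zero φ

private theorem pU_map74 (φ : A →+* B) (a : JJ74 deg N n → A) :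
    (fun s => φ (pU74 a s)) = pU74 (fun j => φ (a j)) := by
  funext s
  unfold pU74
  split_ifs
  · rfl
  · exact map_zero φ

private theorem fU_map74 (φ : A →+* B) (a : JJ74 deg N n → A) (v : ℕ) (i : Fin (n + 1)) :
    (fU74 a v i).map φ = fU74 (fun j => φ (a j)) v i := by
  unfold fU74
  split_ifs with h
  · rw [Polynomial.map_add, Polynomial.map_pow, Polynomial.map_X, Polynomial.map_sum]
    simp only [Polynomial.map_mul, Polynomial.map_C, Polynomial.map_pow, Polynomial.map_X]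
  · exact Polynomial.map_zero φ

private theorem vv_map74 (φ : A →+* B) (par : ℕ → ℕ) (a : JJ74 deg N n → A) (v : ℕ)
    (i : Fin (n + 1)) : (vv74 par a v i).map φ = vv74 par (fun j => φ (a j)) v i := by
  unfold vv74
  rw [vw_map, tU_map74, pU_map74]
  have h : (fun v i => (fU74 a v i).map φ) = fU74 (fun j => φ (a j)) := by
    funext v i
    exact fU_map74 φ a v i
  rw [h]
  rfl

private theorem fU_coeff74 (a : JJ74 deg N n → A) {v : ℕ} (h : v < N + 1) (i : Fin (n + 1))
    (j : Fin (deg v)) :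
    (fU74 a v i).coeff j = a (Sum.inr (Sum.inr (Sum.inr ⟨⟨v, h⟩, (i, j)⟩))) := by
  unfold fU74
  rw [dif_pos h, coeff_add, coeff_X_pow, if_neg (ne_of_lt j.2), zero_add, finsetSum_coeff,
    Finset.sum_eq_single j]
  · rw [coeff_C_mul, coeff_X_pow, if_pos rfl, mul_one]
  · intro b _ hb
    rw [coeff_C_mul, coeff_X_pow, if_neg (fun h => hb (Fin.ext h.symm)), mul_zero]
  · intro h
    exact absurd (Finset.mem_univ _) h

private theorem fU_monic74 [Nontrivial A] (a : JJ74 deg N n → A) {v : ℕ} (h : v < N + 1)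
    (i : Fin (n + 1)) : (fU74 a v i).Monic ∧ (fU74 a v i).natDegree = deg v := by
  unfold fU74
  rw [dif_pos h]
  have h1 := Polynomial.degree_sum_fin_lt fun j : Fin (deg v) =>
    a (Sum.inr (Sum.inr (Sum.inr ⟨⟨v, h⟩, (i, j)⟩)))
  refine ⟨Polynomial.monic_X_pow_add h1, ?_⟩
  rw [Polynomial.natDegree_add_eq_left_of_degree_lt (by rw [Polynomial.degree_X_pow]; exact h1),
    Polynomial.natDegree_X_pow]

private noncomputable def hU74 {k : Type*} [Field k] {d : ℕ} (par : ℕ → ℕ) (x : Mon n d → k)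
    (v : ℕ) (t : k) : MvPolynomial (JJ74 deg N n) k :=
  MvPolynomial.eval (fun i => (vv74 par (fun j : JJ74 deg N n => MvPolynomial.X j) v i).eval
    (MvPolynomial.C t)) (fm fun m => MvPolynomial.C (x m))

private theorem eq_alg74 {k : Type*} [Field k] [Algebra k B] {d : ℕ} (par : ℕ → ℕ)
    (χ : MvPolynomial (JJ74 deg N n) k →ₐ[k] B) (x : Mon n d → k) (v : ℕ) (t : k) :
    χ (hU74 par x v t) = MvPolynomial.eval
      (fun i => (vv74 par (fun j => χ (MvPolynomial.X j)) v i).eval (algebraMap k B t))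
      (fm fun m => algebraMap k B (x m)) := by
  have hC : ∀ t : k, χ.toRingHom (MvPolynomial.C t) = algebraMap k B t := fun t => by
    rw [← MvPolynomial.algebraMap_eq]
    exact χ.commutes t
  have h := eq_map74 χ.toRingHom (fun m => (MvPolynomial.C (x m) : MvPolynomial (JJ74 deg N n) k))
    (fun i => vv74 par (fun j : JJ74 deg N n => MvPolynomial.X j) v i) (MvPolynomial.C t)
  simp only [vv_map74, hC] at h
  exact h

private theorem card_JJ74 (deg : ℕ → ℕ) (N n : ℕ) : Fintype.card (JJ74 deg N n) =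
    N + (N + ((n + 1) + (n + 1) * ∑ v ∈ Finset.range (N + 1), deg v)) := by
  rw [Fintype.card_sum, Fintype.card_sum, Fintype.card_sum, Fintype.card_sigma, Fintype.card_fin,
    Fintype.card_fin, Finset.sum_range, Finset.mul_sum]
  simp only [Fintype.card_prod, Fintype.card_fin]

private def bp74 (p₀ : ℕ → A) (c₀ : Fin (n + 1) → A) (F₀ : ℕ → Fin (n + 1) → A[X]) :
    JJ74 deg N n → A
  | Sum.inl _ => 0
  | Sum.inr (Sum.inl s) => p₀ (s + 1)
  | Sum.inr (Sum.inr (Sum.inl i)) => c₀ i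
  | Sum.inr (Sum.inr (Sum.inr q)) => (F₀ q.1 q.2.1).coeff q.2.2

end aux74

private theorem kap_zero74 {A : Type*} [Field A] {par : ℕ → ℕ} {N : ℕ} {p : ℕ → A}
    (hpar : ∀ v, 1 ≤ v → v ≤ N → par v < v)
    (hp : ∀ v w, 1 ≤ v → v ≤ N → 1 ≤ w → w ≤ N → v ≠ w → par v = par w → p v ≠ p w)
    {n : ℕ} {deg : ℕ → ℕ} {F : ℕ → Fin (n + 1) → A[X]}
    (hF : ∀ v ≤ N, ∀ i, (F v i).Monic ∧ (F v i).natDegree = deg v)
    (hgp : ∀ w, 1 ≤ w → w ≤ N → ∀ i, (F (par w) i).eval (p w) ≠ 0)
    {y v : ℕ} (h1y : 1 ≤ y) (hy : y ≤ N) (hv : v ≤ N) (hdes : ¬ desc par y v) (i : Fin (n + 1)) :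
    (hev (F v i) (deg v) (zp par (fun _ => 0) p (par y) v)
      (ww par (fun _ => 0) p (par y) v)).eval (p y) ≠ 0 := by
  have hu : par y ≤ N := ((hpar y h1y hy).le).trans hy
  obtain ⟨hA, hB⟩ := zw_zero hpar hp hu hv
  by_cases hd : desc par v (par y)
  · obtain ⟨h1, h2⟩ := hA hd
    rw [h1]
    rcases h2 with ⟨h3, h4⟩ | ⟨h3, w, hw1, hw2, hw3, hw4, h4⟩
    · rw [h4, hev_one (hF v hv i).2.le, h3]
      exact hgp y h1y hy i
    · have h5 : hev (F v i) (deg v) (C (p w)) 1 = C ((F v i).eval (p w)) := by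
        have h6 := hev_comp (F v i) (deg v) X (C (p w)) 1
        rw [X_comp, hev_one (hF v hv i).2.le] at h6
        rw [← h6, Polynomial.comp_C]
      rw [h4, h5, eval_C]
      have h7 := hgp w hw1 hw2 i
      rw [hw3] at h7
      exact h7
  · obtain ⟨h1, h2⟩ := hB hd
    rw [h1, hev_zero (hF v hv i).1 (hF v hv i).2]
    rcases h2 with ⟨w, hw1, hw2, hw3, hw4, h4⟩ | ⟨h3, z, hz, h4⟩
    · rw [h4, eval_pow, eval_sub, eval_X, eval_C]
      refine pow_ne_zero _ (sub_ne_zero.2 (hp y w h1y hy hw1 hw2 ?_ hw3.symm))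
      rintro rfl
      exact hdes hw4
    · rw [h4, eval_pow, eval_C]
      exact pow_ne_zero _ hz

theorem exists_smoothing {k : Type} [Field k] [IsAlgClosed k] {Ω : Type} [Field Ω]
    [Algebra k Ω] [IsAlgClosed Ω] [DecidableEq Ω] (hb : Big k Ω) {n d m e : ℕ} (hd : 1 ≤ d)
    (hm : m + d = n + 1) {x : Mon n d → k} (hx : x ≠ 0)
    (hQ : ∀ e' ≤ e, ∀ a : ℕ → Fin (n + 1) → Ω, a 0 ≠ 0 → Van (bc Ω x) a e' →
      rk k (rga a e') ≤ rk k (rg (a 0)) + m * e')
    {par deg : ℕ → ℕ} {N : ℕ} (hpar : ∀ v, 1 ≤ v → v ≤ N → par v < v)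
    (hdeg : ∑ v ∈ Finset.range (N + 1), deg v = e) {p₀ : ℕ → k}
    (hp : ∀ v w, 1 ≤ v → v ≤ N → 1 ≤ w → w ≤ N → v ≠ w → par v = par w → p₀ v ≠ p₀ w)
    {c₀ : Fin (n + 1) → k} (hc₀ : ∀ i, c₀ i ≠ 0) {F₀ : ℕ → Fin (n + 1) → Polynomial k}
    (hF₀ : ∀ v ≤ N, ∀ i, (F₀ v i).Monic ∧ (F₀ v i).natDegree = deg v)
    (hgp : ∀ w, 1 ≤ w → w ≤ N → ∀ i, (F₀ (par w) i).eval (p₀ w) ≠ 0)
    (hX : ∀ y ≤ N, MvPolynomial.aeval (vw par deg N (fun _ => 0) p₀ c₀ F₀ y) (fm x) = 0) :
    ∃ (O : ValuationSubring Ω) (τ p : ℕ → Ω) (c : Fin (n + 1) → Ω)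
      (F : ℕ → Fin (n + 1) → Polynomial Ω),
      (∀ t : k, algebraMap k Ω t ∈ O) ∧
      (∀ v, 1 ≤ v → v ≤ N → τ v ≠ 0 ∧ O.valuation (τ v) < 1 ∧
        O.valuation (p v - algebraMap k Ω (p₀ v)) < 1) ∧
      (∀ i, O.valuation (c i - algebraMap k Ω (c₀ i)) < 1) ∧
      (∀ v ≤ N, ∀ i, (F v i).Monic ∧ (F v i).natDegree = deg v ∧
        ∀ j, O.valuation ((F v i).coeff j - algebraMap k Ω ((F₀ v i).coeff j)) < 1) ∧
      MvPolynomial.aeval (vw par deg N τ p c F 0) (fm (bc Ω x)) = 0 ∧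
      m * e + n ≤ rk k (cfs e (vw par deg N τ p c F 0)) := by
  classical
  have hinf : Infinite k := inferInstance
  have hS₀' : ∀ v : ℕ, ∃ S : Finset k, S.card = d * deg v + (if v = 0 then 1 else 0) ∧
      ∀ t ∈ S, ∀ w, 1 ≤ w → w ≤ N → t ≠ p₀ w := by
    intro v
    have h1 : ((((Finset.Icc 1 N).image p₀ : Finset k) : Set k)ᶜ).Infinite :=
      (Finset.finite_toSet _).infinite_compl
    obtain ⟨S, hS, hc⟩ := h1.exists_subset_card_eq (d * deg v + (if v = 0 then 1 else 0))
    refine ⟨S, hc, fun t ht w h1 h2 h3 => ?_⟩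
    exact hS ht (Finset.mem_coe.2 (Finset.mem_image.2 ⟨w, Finset.mem_Icc.2 ⟨h1, h2⟩, h3.symm⟩))
  choose S₀ hS₀c hS₀ using hS₀'
  -- the generic point
  obtain ⟨t, ht⟩ := exists_generic k hb (∅ : Finset Ω) (JJ74 deg N n)
  have hφ₀ : Function.Injective (MvPolynomial.aeval t : MvPolynomial (JJ74 deg N n) k →ₐ[k] Ω) := by
    rw [injective_iff_map_eq_zero]
    intro q hq
    by_contra hq0
    have h1 : MvPolynomial.map (algebraMap k Ω) q ≠ 0 := by
      intro h
      apply hq0
      apply MvPolynomial.map_injective _ (algebraMap k Ω).injective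
      rw [h, map_zero]
    refine eval_ne_zero_of_generic ht _ h1 (fun μ => ?_) ?_
    · rw [MvPolynomial.coeff_map]
      exact algebraMap_mem _ _
    · rw [MvPolynomial.eval_map]
      exact hq
  -- the given tree as a point
  obtain ⟨b, hb0⟩ : ∃ b : JJ74 deg N n → k, b = bp74 p₀ c₀ F₀ := ⟨_, rfl⟩
  have hbt : ∀ s, tU74 b s = 0 := by
    intro s
    unfold tU74
    split_ifs
    · rw [hb0]
      rfl
    · rfl
  have hbp : ∀ s, 1 ≤ s → s ≤ N → pU74 b s = p₀ s := by
    intro s h1 h2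
    unfold pU74
    rw [dif_pos ⟨h1, h2⟩, hb0]
    change p₀ (s - 1 + 1) = p₀ s
    rw [Nat.sub_add_cancel h1]
  have hbc : cU74 b = c₀ := by
    funext i
    unfold cU74
    rw [hb0]
    rfl
  have hbF : ∀ v ≤ N, fU74 b v = F₀ v := by
    intro v hv
    funext i
    obtain ⟨h1, h2⟩ := hF₀ v hv i
    have h3 := h1.as_sum
    rw [h2] at h3
    rw [h3, ← Fin.sum_univ_eq_sum_range (fun j => C ((F₀ v i).coeff j) * X ^ j) (deg v)]
    unfold fU74
    rw [dif_pos (Nat.lt_succ_of_le hv), hb0]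
    rfl
  have hbF' : ∀ v ≤ N, ∀ i, (fU74 b v i) = F₀ v i := fun v hv i => congrFun (hbF v hv) i
  obtain ⟨ψ, hψ⟩ : ∃ ψ : MvPolynomial (JJ74 deg N n) k →ₐ[k] k, ψ = MvPolynomial.aeval b := ⟨_, rfl⟩
  have hψX : ∀ j, ψ (MvPolynomial.X j) = b j := fun j => by rw [hψ, MvPolynomial.aeval_X]
  -- the equations
  have hψ0 : ∀ v ≤ N, ∀ t, ψ (hU74 par x v t) = 0 := by
    intro v hv t
    rw [eq_alg74]
    have h1 : vv74 par (fun j => ψ (MvPolynomial.X j)) v = vw par deg N (fun _ => 0) p₀ c₀ F₀ v := by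
      have h2 : (fun j => ψ (MvPolynomial.X j)) = b := funext hψX
      rw [h2]
      unfold vv74
      rw [hbc]
      exact vw_congr74 hpar (fun s _ _ => hbt s) hbp hbF hv
    rw [h1, ← ev_aeval74]
    have h3 := hX v hv
    simp only [Algebra.algebraMap_self, RingHom.id_apply]
    rw [h3, eval_zero]
  obtain ⟨S, hS⟩ : ∃ S : Finset (MvPolynomial (JJ74 deg N n) k), S =
      (Finset.range (N + 1)).biUnion fun v => (S₀ v).image (hU74 par x v) := ⟨_, rfl⟩
  have hScard : S.card ≤ d * e + 1 := by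
    rw [hS]
    refine Finset.card_biUnion_le.trans ((Finset.sum_le_sum fun v _ => Finset.card_image_le).trans ?_)
    simp only [hS₀c]
    rw [Finset.sum_add_distrib, ← Finset.mul_sum, hdeg, Finset.sum_ite_eq' (Finset.range (N + 1)) 0,
      if_pos (Finset.mem_range.2 (Nat.succ_pos N))]
  obtain ⟨φ, hφS, hφψ, hrk⟩ := exists_between hb (MvPolynomial.aeval t) hφ₀ ψ S (by
    intro q hq
    rw [hS, Finset.mem_biUnion] at hq
    obtain ⟨v, hv, hq⟩ := hq
    obtain ⟨t, _, rfl⟩ := Finset.mem_image.1 hq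
    exact hψ0 v (Nat.lt_succ_iff.1 (Finset.mem_range.1 hv)) t)
  have hrk' := hrk (J := JJ74 deg N n) (fun j => MvPolynomial.X j) MvPolynomial.adjoin_range_X
  simp only [MvPolynomial.aeval_X] at hrk'
  obtain ⟨a, ha⟩ : ∃ a : JJ74 deg N n → Ω, a = fun j => φ (MvPolynomial.X j) := ⟨_, rfl⟩
  rw [← ha] at hrk'
  have hcard := card_JJ74 deg N n
  rw [hdeg] at hcard
  rw [Finset.empty_union, rk_empty, zero_add, hcard] at ht
  have hφC : ∀ t : k, φ (MvPolynomial.C t) = algebraMap k Ω t := fun t => by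
    rw [← MvPolynomial.algebraMap_eq]
    exact φ.commutes t
  -- the images of the universal parameters
  have htφ : tU74 a = fun s => φ.toRingHom (tU74 (fun j : JJ74 deg N n => MvPolynomial.X j) s) := by
    rw [tU_map74, ha]
    rfl
  have hpφ : pU74 a = fun s => φ.toRingHom (pU74 (fun j : JJ74 deg N n => MvPolynomial.X j) s) := by
    rw [pU_map74, ha]
    rfl
  have htψ : tU74 b = fun s => ψ.toRingHom (tU74 (fun j : JJ74 deg N n => MvPolynomial.X j) s) := by
    rw [tU_map74]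
    exact congrArg tU74 (funext fun j => (hψX j).symm)
  have hpψ : pU74 b = fun s => ψ.toRingHom (pU74 (fun j : JJ74 deg N n => MvPolynomial.X j) s) := by
    rw [pU_map74]
    exact congrArg pU74 (funext fun j => (hψX j).symm)
  have htb : tU74 b = fun _ => 0 := funext hbt
  have hpb : ∀ v w, 1 ≤ v → v ≤ N → 1 ≤ w → w ≤ N → v ≠ w → par v = par w →
      pU74 b v ≠ pU74 b w := by
    intro v w h1 h2 h3 h4 h5 h6
    rw [hbp v h1 h2, hbp w h3 h4]
    exact hp v w h1 h2 h3 h4 h5 h6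
  have hc : ∀ i, cU74 a i ≠ 0 := by
    intro i h
    unfold cU74 at h
    rw [ha] at h
    have h1 := hφψ _ h
    rw [hψX] at h1
    have h2 : b (Sum.inr (Sum.inr (Sum.inl i))) = c₀ i := by
      rw [hb0]
      rfl
    rw [h2] at h1
    exact hc₀ i h1
  have hprm : rk k (rg a) ≤ rk k (prm deg N (tU74 a) (pU74 a) (cU74 a) (fU74 a)) := by
    refine rk_mono k fun y hy => ?_
    obtain ⟨j, _, rfl⟩ := Finset.mem_image.1 hy
    unfold prm
    rcases j with s | s | i | ⟨v, i, l⟩
    · refine Finset.mem_union_left _ (Finset.mem_union_left _ (Finset.mem_union_left _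
        (Finset.mem_image.2 ⟨s + 1, Finset.mem_Icc.2 ⟨by omega, s.2⟩, ?_⟩)))
      unfold tU74
      rw [dif_pos ⟨by omega, s.2⟩]
      rfl
    · refine Finset.mem_union_left _ (Finset.mem_union_left _ (Finset.mem_union_right _
        (Finset.mem_image.2 ⟨s + 1, Finset.mem_Icc.2 ⟨by omega, s.2⟩, ?_⟩)))
      unfold pU74
      rw [dif_pos ⟨by omega, s.2⟩]
      rfl
    · exact Finset.mem_union_left _ (Finset.mem_union_right _
        (Finset.mem_image.2 ⟨i, Finset.mem_univ i, rfl⟩))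
    · refine Finset.mem_union_right _ (Finset.mem_biUnion.2 ⟨v, Finset.mem_range.2 v.2,
        Finset.mem_biUnion.2 ⟨i, Finset.mem_univ i, Finset.mem_image.2 ⟨l, Finset.mem_range.2 l.2, ?_⟩⟩⟩)
      exact fU_coeff74 a v.2 i l
  -- the main theorem on trees
  have hmain := tree_main (K := k) (Ω := Ω) hd hx hQ par (tU74 a) (pU74 a) (cU74 a) hc N deg
    (fU74 a) (fun v => (S₀ v).image (algebraMap k Ω)) hpar
    (fun v hv i => fU_monic74 a (Nat.lt_succ_of_le hv) i) hdeg.le ?_ ?_ ?_ ?_ ?_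
  · obtain ⟨hm1, hm2, hm3⟩ := hmain
    rw [hdeg] at hm2 hm3
    have hrk2 : rk k (rg t) ≤ rk k (rg a) + S.card := hrk'
    have hge : 2 * N + m * e + n ≤ rk k (prm deg N (tU74 a) (pU74 a) (cU74 a) (fU74 a)) := by
      have h1 : (n + 1) * e = m * e + d * e := by rw [← hm, Nat.add_mul]
      omega
    have hcard0 : ((Finset.Icc 1 N).filter fun v => tU74 a v = 0).card = 0 := by omega
    have hτ : ∀ v, 1 ≤ v → v ≤ N → tU74 a v ≠ 0 := by
      intro v h1 h2 h3
      rw [Finset.card_eq_zero] at hcard0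
      have h4 : v ∈ (Finset.Icc 1 N).filter fun v => tU74 a v = 0 :=
        Finset.mem_filter.2 ⟨Finset.mem_Icc.2 ⟨h1, h2⟩, h3⟩
      rw [hcard0] at h4
      exact absurd h4 (Finset.notMem_empty _)
    have hfin := hm3 hτ
    obtain ⟨O, hO, hOa⟩ := exists_center (a := a) (b := b) (by
      intro q hq
      have h1 : φ q = MvPolynomial.aeval a q := by
        rw [ha]
        exact congrArg (fun f => f q) (MvPolynomial.aeval_unique φ)
      have h2 := hφψ q (h1.trans hq)
      rw [hψ] at h2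
      exact h2)
    refine ⟨O, tU74 a, pU74 a, cU74 a, fU74 a, hO, ?_, ?_, ?_, ?_, ?_⟩
    · intro v h1 h2
      refine ⟨hτ v h1 h2, ?_, ?_⟩
      · have h3 := hOa (Sum.inl ⟨v - 1, by omega⟩)
        have h4 : b (Sum.inl ⟨v - 1, by omega⟩) = 0 := by
          rw [hb0]
          rfl
        rw [h4, map_zero, sub_zero] at h3
        have h5 : tU74 a v = a (Sum.inl ⟨v - 1, by omega⟩) := by
          unfold tU74
          rw [dif_pos ⟨h1, h2⟩]
        rw [h5]
        exact h3
      · have h3 := hOa (Sum.inr (Sum.inl ⟨v - 1, by omega⟩))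
        have h4 : b (Sum.inr (Sum.inl ⟨v - 1, by omega⟩)) = p₀ v := by
          rw [hb0]
          change p₀ (v - 1 + 1) = p₀ v
          rw [Nat.sub_add_cancel h1]
        rw [h4] at h3
        have h5 : pU74 a v = a (Sum.inr (Sum.inl ⟨v - 1, by omega⟩)) := by
          unfold pU74
          rw [dif_pos ⟨h1, h2⟩]
        rw [h5]
        exact h3
    · intro i
      have h3 := hOa (Sum.inr (Sum.inr (Sum.inl i)))
      have h4 : b (Sum.inr (Sum.inr (Sum.inl i))) = c₀ i := by
        rw [hb0]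
        rfl
      rw [h4] at h3
      exact h3
    · intro v hv i
      obtain ⟨h1, h2⟩ := fU_monic74 a (Nat.lt_succ_of_le hv) i
      obtain ⟨h1', h2'⟩ := hF₀ v hv i
      refine ⟨h1, h2, fun j => ?_⟩
      rcases lt_trichotomy j (deg v) with h | h | h
      · have h3 := hOa (Sum.inr (Sum.inr (Sum.inr ⟨⟨v, Nat.lt_succ_of_le hv⟩, (i, ⟨j, h⟩)⟩)))
        have h4 := fU_coeff74 a (Nat.lt_succ_of_le hv) i ⟨j, h⟩
        have h5 : b (Sum.inr (Sum.inr (Sum.inr ⟨⟨v, Nat.lt_succ_of_le hv⟩, (i, ⟨j, h⟩)⟩))) =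
            (F₀ v i).coeff j := by
          rw [hb0]
          rfl
        rw [h5, ← h4] at h3
        exact h3
      · have h3 : (fU74 a v i).coeff j = 1 := by
          rw [h, ← h2]
          exact h1
        have h4 : (F₀ v i).coeff j = 1 := by
          rw [h, ← h2']
          exact h1'
        rw [h3, h4, map_one, sub_self, map_zero]
        exact zero_lt_one
      · rw [coeff_eq_zero_of_natDegree_lt (by rw [h2]; exact h),
          coeff_eq_zero_of_natDegree_lt (by rw [h2']; exact h), map_zero, sub_self, map_zero]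
        exact zero_lt_one
    · exact hm1 0 (Nat.zero_le N)
    · omega
  · rw [Finset.card_image_of_injective _ (algebraMap k Ω).injective, hS₀c, if_pos rfl]
  · intro v h1 _
    rw [Finset.card_image_of_injective _ (algebraMap k Ω).injective, hS₀c,
      if_neg (Nat.pos_iff_ne_zero.1 h1), add_zero]
  · intro v hv s hs
    obtain ⟨t, ht, rfl⟩ := Finset.mem_image.1 hs
    have h1 : hU74 par x v t ∈ S := by
      rw [hS]
      exact Finset.mem_biUnion.2 ⟨v, Finset.mem_range.2 (Nat.lt_succ_of_le hv),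
        Finset.mem_image.2 ⟨t, ht, rfl⟩⟩
    have h2 := hφS _ h1
    rw [eq_alg74, ← ha] at h2
    exact h2
  · intro y hy v hv s hs s' hs' hne h0
    obtain ⟨t, ht, rfl⟩ := Finset.mem_image.1 hs
    obtain ⟨t', ht', rfl⟩ := Finset.mem_image.1 hs'
    have h1 := dif_map74 φ.toRingHom (par := par)
      (τ := tU74 (fun j : JJ74 deg N n => MvPolynomial.X j))
      (p := pU74 (fun j : JJ74 deg N n => MvPolynomial.X j)) y v (MvPolynomial.C t)
      (MvPolynomial.C t')
    rw [← htφ, ← hpφ] at h1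
    have h2 : φ.toRingHom (MvPolynomial.C t) = algebraMap k Ω t := hφC t
    have h3 : φ.toRingHom (MvPolynomial.C t') = algebraMap k Ω t' := hφC t'
    rw [h2, h3, h0] at h1
    have h4 := hφψ _ h1
    have h5 := dif_map74 ψ.toRingHom (par := par)
      (τ := tU74 (fun j : JJ74 deg N n => MvPolynomial.X j))
      (p := pU74 (fun j : JJ74 deg N n => MvPolynomial.X j)) y v (MvPolynomial.C t)
      (MvPolynomial.C t')
    rw [← htψ, ← hpψ, htb] at h5
    have h6 : ∀ t : k, ψ.toRingHom (MvPolynomial.C t) = t := by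
      intro t
      rw [hψ]
      exact MvPolynomial.aeval_C _ _
    rw [h6, h6] at h5
    refine dif_zero hpar hpb hy hv (t := t) (t' := t') ?_ ?_ ?_ (h5.symm.trans h4)
    · intro w h7 h8 _
      rw [hbp w h7 h8]
      exact hS₀ y t ht w h7 h8
    · intro w h7 h8 _
      rw [hbp w h7 h8]
      exact hS₀ v t' ht' w h7 h8
    · intro h
      apply hne
      rw [Prod.mk.injEq] at h ⊢
      exact ⟨h.1, by rw [h.2]⟩
  · intro y h1y hy v hv hdes i h0
    have h1 := hk_map74 φ.toRingHom (fU74 (fun j : JJ74 deg N n => MvPolynomial.X j) v i) (deg v)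
      (zp par (tU74 (fun j : JJ74 deg N n => MvPolynomial.X j))
        (pU74 (fun j : JJ74 deg N n => MvPolynomial.X j)) (par y) v)
      (ww par (tU74 (fun j : JJ74 deg N n => MvPolynomial.X j))
        (pU74 (fun j : JJ74 deg N n => MvPolynomial.X j)) (par y) v)
      (pU74 (fun j : JJ74 deg N n => MvPolynomial.X j) y)
    rw [fU_map74, zp_map74, ww_map74, ← htφ, ← hpφ, ← congrFun hpφ y] at h1
    have h2 : (fun j : JJ74 deg N n => φ.toRingHom (MvPolynomial.X j)) = a := by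
      rw [ha]
      rfl
    rw [h2, h0] at h1
    have h4 := hφψ _ h1
    have h5 := hk_map74 ψ.toRingHom (fU74 (fun j : JJ74 deg N n => MvPolynomial.X j) v i) (deg v)
      (zp par (tU74 (fun j : JJ74 deg N n => MvPolynomial.X j))
        (pU74 (fun j : JJ74 deg N n => MvPolynomial.X j)) (par y) v)
      (ww par (tU74 (fun j : JJ74 deg N n => MvPolynomial.X j))
        (pU74 (fun j : JJ74 deg N n => MvPolynomial.X j)) (par y) v)
      (pU74 (fun j : JJ74 deg N n => MvPolynomial.X j) y)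
    rw [fU_map74, zp_map74, ww_map74, ← htψ, ← hpψ, ← congrFun hpψ y] at h5
    have h6 : (fun j : JJ74 deg N n => ψ.toRingHom (MvPolynomial.X j)) = b := funext hψX
    rw [h6, htb] at h5
    refine kap_zero74 (deg := deg) (F := fU74 b) hpar hpb ?_ ?_ h1y hy hv hdes i (h5.symm.trans h4)
    · intro v hv i
      rw [hbF' v hv i]
      exact hF₀ v hv i
    · intro w hw1 hw2 i
      have h7 : par w ≤ N := ((hpar w hw1 hw2).le).trans hw2
      rw [hbF' _ h7 i, hbp w hw1 hw2]
      exact hgp w hw1 hw2 i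

end Pool.Agent.Helper30.RY
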