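import Mathlib
import Pool.Agent.Helper30.RY.Stb
import Pool.Agent.Helper30.RY.Tre

/-!
# Block RY-TGA: stable maps in general position are limits

`φ` is in general position: `h1`, `h2`.  `f = fm x`.

Let `l v i = (φ.F v i).coeff (deg v)` (all nonzero for `v ≤ N`), `c₀ = l 0`, `F₀ v i = C (l v i)⁻¹ * φ.F v i`, monic of
degree `deg v`.
1. `vw_zero` gives `κ`; by strong induction on `y ≤ N` there is `r y ≠ 0` in `k` with `κ y i = r y * l y i` for all `i`
   (`κ 0 = l 0`; `κ y i = s (κ u i * (F₀ u i).eval (pos y)) = s r_u (φ.F u i).eval (pos y)`, and `φ.glue`).  So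
   `vw par deg N 0 pos c₀ F₀ y i = C (r y) * gpl .. y * φ.F y i`, and `hX` of `exists_smoothing` holds:
   `aeval (fun i => H * P i) f = H^d * aeval P f` for a form `f` of degree `d`.
2. `exists_smoothing`: `O`, `τ`, `p`, `c`, `F`; `G = vw par deg N τ p c F 0` (`vw_natDegree`).
3. `a v = - (zw par τ p 0 v).1`, `t v = ww par τ p 0 v`.  By induction (`zp_lt`, `ww_lt`, for `v ≥ 1`, `u = par v`):
   `zp par τ p 0 v = X - C (a v)`, `a v = a u + t u * p v`, `t v = t u * τ v ≠ 0`.  So `(a v - a u) / t u = p v`,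
   `t v / t u = τ v`.
4. By induction there is `σ v ≠ 0` with `(G i).comp (C (a v) + C (t v) * X) = C (σ v) * vw .. v i` (`v = 0`: `a 0 = 0`, `t 0 = 1`;
   `v ≥ 1`: `a v + t v X = a u + t u (p v + τ v X)` and `vw_step`).  Put `s v = σ v * r v`.
5. The coefficients of `vw par deg N τ p c F v i` and of `vw par deg N 0 pos c₀ F₀ v i` differ by elements of the maximal
   ideal: `τ`, `p`, `c` and the coefficients of `F` are in `O`; the two homomorphisms `O → Ω` and
   `O → residue field` commute with the construction (`vw_map`; lift the data to `O`, for `F` use `Polynomial.toSubring` or a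
   sum of monomials; set `τ s = p s = 0` outside `1 ≤ s ≤ N` and use `zw_congr`), and the reductions of the data agree with
   the reductions of the data over `k`.  Divide by `r v ∈ k`, which is a unit of `O`.
-/

namespace Pool.Agent.Helper30.RY

open Polynomial

private theorem aeval_smul38 {k A : Type*} [Field k] [CommRing A] [Algebra k A] {n d : ℕ}
    (x : Mon n d → k) (H : A) (P : Fin (n + 1) → A) :
    MvPolynomial.aeval (fun i => H * P i) (fm x) = H ^ d * MvPolynomial.aeval P (fm x) := by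
  unfold fm
  rw [map_sum, map_sum, Finset.mul_sum]
  refine Finset.sum_congr rfl fun m _ => ?_
  rw [MvPolynomial.aeval_monomial, MvPolynomial.aeval_monomial]
  have h : (m.1.prod fun i e => (H * P i) ^ e) = H ^ d * m.1.prod fun i e => P i ^ e := by
    have h2 : m.1.degree = d := m.2
    have h3 : H ^ d = H ^ m.1.degree := by rw [h2]
    rw [h3]
    simp only [Finsupp.prod, mul_pow, Finset.prod_mul_distrib, Finset.prod_pow_eq_pow_sum]
    rfl
  rw [h]
  ring

section red38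

variable {k Ω : Type} [Field k] [Field Ω] [Algebra k Ω]

private theorem vlt38 {O : ValuationSubring Ω} {x y : Ω} (hx : O.valuation x < 1)
    (hy : O.valuation y ≤ 1) : O.valuation (x * y) < 1 := by
  rw [map_mul]
  exact lt_of_le_of_lt (mul_le_of_le_one_right' hy) hx

private def RR38 (O : ValuationSubring Ω) (hk : ∀ t : k, algebraMap k Ω t ∈ O) : Subring (Ω × k) where
  carrier := {x | O.valuation (x.1 - algebraMap k Ω x.2) < 1}
  mul_mem' := by
    rintro ⟨a, b⟩ ⟨a', b'⟩ h h'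
    change O.valuation (a - algebraMap k Ω b) < 1 at h
    change O.valuation (a' - algebraMap k Ω b') < 1 at h'
    change O.valuation (a * a' - algebraMap k Ω (b * b')) < 1
    have ha : O.valuation a' ≤ 1 := by
      rw [O.valuation_le_one_iff]
      have h2 : a' - algebraMap k Ω b' ∈ O := (O.valuation_le_one_iff _).1 h'.le
      have h3 := O.add_mem _ _ h2 (hk b')
      rwa [sub_add_cancel] at h3
    have hb : O.valuation (algebraMap k Ω b) ≤ 1 := (O.valuation_le_one_iff _).2 (hk b)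
    have e : a * a' - algebraMap k Ω (b * b') = (a - algebraMap k Ω b) * a' +
        (a' - algebraMap k Ω b') * algebraMap k Ω b := by
      rw [map_mul]
      ring
    rw [e]
    exact O.valuation.map_add_lt (vlt38 h ha) (vlt38 h' hb)
  one_mem' := by
    change O.valuation (1 - algebraMap k Ω 1) < 1
    rw [map_one, sub_self, map_zero]
    exact zero_lt_one
  add_mem' := by
    rintro ⟨a, b⟩ ⟨a', b'⟩ h h'
    change O.valuation (a - algebraMap k Ω b) < 1 at h
    change O.valuation (a' - algebraMap k Ω b') < 1 at h'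
    change O.valuation (a + a' - algebraMap k Ω (b + b')) < 1
    have e : a + a' - algebraMap k Ω (b + b') = (a - algebraMap k Ω b) + (a' - algebraMap k Ω b') := by
      rw [map_add]
      ring
    rw [e]
    exact O.valuation.map_add_lt h h'
  zero_mem' := by
    change O.valuation (0 - algebraMap k Ω 0) < 1
    rw [map_zero, sub_self, map_zero]
    exact zero_lt_one
  neg_mem' := by
    rintro ⟨a, b⟩ h
    change O.valuation (a - algebraMap k Ω b) < 1 at h
    change O.valuation (-a - algebraMap k Ω (-b)) < 1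
    have e : -a - algebraMap k Ω (-b) = -(a - algebraMap k Ω b) := by
      rw [map_neg]
      ring
    rw [e, Valuation.map_neg]
    exact h

private theorem vw_congr38 {A : Type*} [CommRing A] {n : ℕ} {par deg : ℕ → ℕ} {N : ℕ}
    {τ p τ' p' : ℕ → A} {c c' : Fin (n + 1) → A} {F F' : ℕ → Fin (n + 1) → A[X]}
    (hpar : ∀ v, 1 ≤ v → v ≤ N → par v < v) (hτ : ∀ v, 1 ≤ v → v ≤ N → τ v = τ' v)
    (hp : ∀ v, 1 ≤ v → v ≤ N → p v = p' v) (hc : ∀ i, c i = c' i) (hF : ∀ v ≤ N, ∀ i, F v i = F' v i)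
    {y : ℕ} (hy : y ≤ N) (i : Fin (n + 1)) :
    vw par deg N τ p c F y i = vw par deg N τ' p' c' F' y i := by
  unfold vw
  rw [hc]
  congr 1
  refine Finset.prod_congr rfl fun v hv => ?_
  have hvN : v ≤ N := by
    rw [Finset.mem_range] at hv
    omega
  have h := zw_congr hpar hτ hp hy hvN
  unfold zp ww
  rw [h, hF v hvN]

private theorem red38 (O : ValuationSubring Ω) (hk : ∀ t : k, algebraMap k Ω t ∈ O) {n : ℕ}
    {par deg : ℕ → ℕ} {N : ℕ} (hpar : ∀ v, 1 ≤ v → v ≤ N → par v < v) {τ p : ℕ → Ω} {p₀ : ℕ → k}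
    {c : Fin (n + 1) → Ω} {c₀ : Fin (n + 1) → k} {F : ℕ → Fin (n + 1) → Polynomial Ω}
    {F₀ : ℕ → Fin (n + 1) → Polynomial k}
    (hτ : ∀ v, 1 ≤ v → v ≤ N → O.valuation (τ v) < 1)
    (hp : ∀ v, 1 ≤ v → v ≤ N → O.valuation (p v - algebraMap k Ω (p₀ v)) < 1)
    (hc : ∀ i, O.valuation (c i - algebraMap k Ω (c₀ i)) < 1)
    (hF : ∀ v ≤ N, ∀ i, (F v i).natDegree ≤ deg v ∧ (F₀ v i).natDegree ≤ deg v ∧
      ∀ j, O.valuation ((F v i).coeff j - algebraMap k Ω ((F₀ v i).coeff j)) < 1)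
    {y : ℕ} (hy : y ≤ N) (i : Fin (n + 1)) (j : ℕ) :
    O.valuation ((vw par deg N τ p c F y i).coeff j -
      algebraMap k Ω ((vw par deg N (fun _ => 0) p₀ c₀ F₀ y i).coeff j)) < 1 := by
  set R := RR38 O hk with hR
  have hmem : ∀ x : R, O.valuation (x.1.1 - algebraMap k Ω x.1.2) < 1 := fun x => x.2
  set f : R →+* Ω := (RingHom.fst Ω k).comp R.subtype with hf
  set g : R →+* k := (RingHom.snd Ω k).comp R.subtype with hg
  have hτR : ∀ s, ∃ r : R, 1 ≤ s → s ≤ N → f r = τ s ∧ g r = 0 := by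
    intro s
    by_cases h : 1 ≤ s ∧ s ≤ N
    · refine ⟨⟨(τ s, 0), ?_⟩, fun _ _ => ⟨rfl, rfl⟩⟩
      change O.valuation (τ s - algebraMap k Ω 0) < 1
      rw [map_zero, sub_zero]
      exact hτ s h.1 h.2
    · exact ⟨0, fun h1 h2 => absurd ⟨h1, h2⟩ h⟩
  have hpR : ∀ s, ∃ r : R, 1 ≤ s → s ≤ N → f r = p s ∧ g r = p₀ s := by
    intro s
    by_cases h : 1 ≤ s ∧ s ≤ N
    · exact ⟨⟨(p s, p₀ s), hp s h.1 h.2⟩, fun _ _ => ⟨rfl, rfl⟩⟩
    · exact ⟨0, fun h1 h2 => absurd ⟨h1, h2⟩ h⟩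
  have hcR : ∀ i, ∃ r : R, f r = c i ∧ g r = c₀ i := fun i => ⟨⟨(c i, c₀ i), hc i⟩, rfl, rfl⟩
  have hFR : ∀ v i, ∃ P : R[X], v ≤ N → P.map f = F v i ∧ P.map g = F₀ v i := by
    intro v i
    by_cases h : v ≤ N
    · obtain ⟨h1, h2, h3⟩ := hF v h i
      have h4 : ∀ j, ∃ r : R, f r = (F v i).coeff j ∧ g r = (F₀ v i).coeff j := fun j =>
        ⟨⟨((F v i).coeff j, (F₀ v i).coeff j), h3 j⟩, rfl, rfl⟩
      choose r hr using h4
      refine ⟨∑ j ∈ Finset.range (deg v + 1), C (r j) * X ^ j, fun _ => ⟨?_, ?_⟩⟩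
      · rw [Polynomial.map_sum]
        conv_rhs => rw [(F v i).as_sum_range_C_mul_X_pow' (n := deg v + 1) (by omega)]
        refine Finset.sum_congr rfl fun j _ => ?_
        rw [Polynomial.map_mul, Polynomial.map_C, Polynomial.map_pow, Polynomial.map_X, (hr j).1]
      · rw [Polynomial.map_sum]
        conv_rhs => rw [(F₀ v i).as_sum_range_C_mul_X_pow' (n := deg v + 1) (by omega)]
        refine Finset.sum_congr rfl fun j _ => ?_
        rw [Polynomial.map_mul, Polynomial.map_C, Polynomial.map_pow, Polynomial.map_X, (hr j).2]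
    · exact ⟨0, fun h1 => absurd h1 h⟩
  choose τR hτR using hτR
  choose pR hpR using hpR
  choose cR hcR using hcR
  choose FR hFR using hFR
  have e1 := vw_map f par deg N τR pR cR FR y i
  have e2 := vw_map g par deg N τR pR cR FR y i
  rw [vw_congr38 hpar (τ' := τ) (p' := p) (c' := c) (F' := F) (fun v h1 h2 => (hτR v h1 h2).1)
    (fun v h1 h2 => (hpR v h1 h2).1) (fun i => (hcR i).1) (fun v h1 i => (hFR v i h1).1) hy i] at e1
  rw [vw_congr38 hpar (τ' := fun _ => 0) (p' := p₀) (c' := c₀) (F' := F₀)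
    (fun v h1 h2 => (hτR v h1 h2).2) (fun v h1 h2 => (hpR v h1 h2).2) (fun i => (hcR i).2)
    (fun v h1 i => (hFR v i h1).2) hy i] at e2
  rw [← e1, ← e2, coeff_map, coeff_map]
  exact hmem _

end red38

theorem limit_gp {k : Type} [Field k] [IsAlgClosed k] {Ω : Type} [Field Ω]
    [Algebra k Ω] [IsAlgClosed Ω] [DecidableEq Ω] (hb : Big k Ω) {n d m e : ℕ} (hd : 1 ≤ d)
    (hm : m + d = n + 1) {x : Mon n d → k} (hx : x ≠ 0)
    (hQ : ∀ e' ≤ e, ∀ a : ℕ → Fin (n + 1) → Ω, a 0 ≠ 0 → Van (bc Ω x) a e' →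
      rk k (rga a e') ≤ rk k (rg (a 0)) + m * e')
    (φ : StableMap k n e) (hφ : φ.On (fm x))
    (h1 : ∀ v ≤ φ.N, ∀ i, (φ.F v i).coeff (φ.deg v) ≠ 0)
    (h2 : ∀ w, 1 ≤ w → w ≤ φ.N → ∀ i, (φ.F (φ.par w) i).eval (φ.pos w) ≠ 0) :
    ∃ (O : ValuationSubring Ω) (G : Fin (n + 1) → Polynomial Ω),
      (∀ t : k, algebraMap k Ω t ∈ O) ∧ (∀ i, (G i).natDegree ≤ e) ∧
      MvPolynomial.aeval G (fm (bc Ω x)) = 0 ∧ m * e + n ≤ rk k (cfs e G) ∧
      φ.LimitOf O G := by
  obtain ⟨l, hl⟩ : ∃ l : ℕ → Fin (n + 1) → k, l = fun v i => (φ.F v i).coeff (φ.deg v) := ⟨_, rfl⟩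
  have hl1 : ∀ v ≤ φ.N, ∀ i, l v i ≠ 0 := fun v hv i => by rw [hl]; exact h1 v hv i
  obtain ⟨F₀, hF₀⟩ : ∃ F₀ : ℕ → Fin (n + 1) → Polynomial k,
      F₀ = fun v i => C (l v i)⁻¹ * φ.F v i := ⟨_, rfl⟩
  have hnd : ∀ v ≤ φ.N, ∀ i, (φ.F v i).natDegree = φ.deg v := fun v hv i =>
    natDegree_eq_of_le_of_coeff_ne_zero (φ.natDegree_le v hv i) (h1 v hv i)
  have hmon : ∀ v ≤ φ.N, ∀ i, (F₀ v i).Monic ∧ (F₀ v i).natDegree = φ.deg v := by
    intro v hv i
    have e1 : (F₀ v i).natDegree = φ.deg v := by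
      rw [hF₀]
      beta_reduce
      rw [natDegree_C_mul (inv_ne_zero (hl1 v hv i)), hnd v hv i]
    refine ⟨monic_of_natDegree_le_of_coeff_eq_one (φ.deg v) e1.le ?_, e1⟩
    rw [hF₀]
    beta_reduce
    rw [coeff_C_mul]
    have : (φ.F v i).coeff (φ.deg v) = l v i := by rw [hl]
    rw [this]
    exact inv_mul_cancel₀ (hl1 v hv i)
  have hev : ∀ v ≤ φ.N, ∀ i t, (F₀ v i).eval t = (l v i)⁻¹ * (φ.F v i).eval t := by
    intro v _ i t
    rw [hF₀]
    beta_reduce
    rw [eval_mul, eval_C]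
  obtain ⟨κ, hκ0, hκ1, hκ2⟩ := vw_zero φ.par_lt φ.pos_ne (l 0) hmon
  -- the scalars
  have hr : ∀ y, y ≤ φ.N → ∃ r : k, r ≠ 0 ∧ ∀ i, κ y i = r * l y i := by
    intro y
    induction y using Nat.strong_induction_on with
    | _ y ih =>
      intro hy
      rcases Nat.eq_zero_or_pos y with h | h
      · subst h
        exact ⟨1, one_ne_zero, fun i => by rw [hκ0, one_mul]⟩
      · have hlt := φ.par_lt y h hy
        obtain ⟨r, hr0, hr⟩ := ih (φ.par y) hlt (by omega)
        obtain ⟨s, hs0, hs⟩ := hκ2 y h hy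
        obtain ⟨s', hs0', hs'⟩ := φ.glue y h hy
        refine ⟨s * r / s', div_ne_zero (mul_ne_zero hs0 hr0) hs0', fun i => ?_⟩
        have e1 : l y i = s' * (φ.F (φ.par y) i).eval (φ.pos y) := by
          rw [← hs' i, hl]
        have e2 := hl1 (φ.par y) (by omega) i
        rw [hs i, hr i, hev (φ.par y) (by omega), e1]
        field_simp
  choose! r hr0 hr1 using hr
  have hV : ∀ y ≤ φ.N, ∀ i, vw φ.par φ.deg φ.N (fun _ => 0) φ.pos (l 0) F₀ y i =
      C (r y) * (gpl φ.par φ.deg φ.N φ.pos y * φ.F y i) := by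
    intro y hy i
    rw [hκ1 y hy i, hr1 y hy i]
    have e1 : F₀ y i = C (l y i)⁻¹ * φ.F y i := by rw [hF₀]
    have e2 : C (l y i) * C (l y i)⁻¹ = (1 : k[X]) := by
      rw [← C_mul, mul_inv_cancel₀ (hl1 y hy i), C_1]
    rw [e1, C_mul]
    calc C (r y) * C (l y i) * gpl φ.par φ.deg φ.N φ.pos y * (C (l y i)⁻¹ * φ.F y i)
        = C (r y) * (gpl φ.par φ.deg φ.N φ.pos y * φ.F y i) * (C (l y i) * C (l y i)⁻¹) := by ring
      _ = _ := by rw [e2, mul_one]
  have hX : ∀ y ≤ φ.N, MvPolynomial.aeval (vw φ.par φ.deg φ.N (fun _ => 0) φ.pos (l 0) F₀ y)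
      (fm x) = 0 := by
    intro y hy
    have e1 : vw φ.par φ.deg φ.N (fun _ => 0) φ.pos (l 0) F₀ y =
        fun i => (C (r y) * gpl φ.par φ.deg φ.N φ.pos y) * φ.F y i := by
      funext i
      rw [hV y hy i, mul_assoc]
    rw [e1, aeval_smul38, hφ y hy, mul_zero]
  have hgp : ∀ w, 1 ≤ w → w ≤ φ.N → ∀ i, (F₀ (φ.par w) i).eval (φ.pos w) ≠ 0 := by
    intro w hw1 hw i
    have hlt := φ.par_lt w hw1 hw
    rw [hev (φ.par w) (by omega)]
    exact mul_ne_zero (inv_ne_zero (hl1 _ (by omega) i)) (h2 w hw1 hw i)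
  obtain ⟨O, τ, p, c, F, hk, hτp, hc, hF, hGX, hrk⟩ := exists_smoothing hb hd hm hx hQ φ.par_lt
    φ.deg_sum φ.pos_ne (hl1 0 (Nat.zero_le _)) hmon hgp hX
  refine ⟨O, vw φ.par φ.deg φ.N τ p c F 0, hk, fun i => ?_, hGX, hrk, ?_⟩
  · exact (vw_natDegree 0 i).trans (le_of_eq φ.deg_sum)
  -- the coordinates
  set t : ℕ → Ω := fun v => ww φ.par τ p 0 v with ht
  set a : ℕ → Ω := fun v => -(zp φ.par τ p 0 v).eval 0 with ha
  have hst : ∀ v, 1 ≤ v → v ≤ φ.N → t v = t (φ.par v) * τ v := fun v hv1 hv =>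
    ww_lt (by omega) (φ.par_lt v hv1 hv)
  have hzp : ∀ v, v ≤ φ.N → zp φ.par τ p 0 v = X - C (a v) ∧ t v ≠ 0 := by
    intro v
    induction v using Nat.strong_induction_on with
    | _ v ih =>
      intro hv
      rcases Nat.eq_zero_or_pos v with h | h
      · subst h
        have e1 : a 0 = 0 := by
          rw [ha]
          beta_reduce
          rw [zp_self, eval_X, neg_zero]
        rw [e1, C_0, sub_zero]
        refine ⟨zp_self, ?_⟩
        rw [ht]
        beta_reduce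
        rw [ww_self]
        exact one_ne_zero
      · have hlt := φ.par_lt v h hv
        obtain ⟨i1, i2⟩ := ih (φ.par v) hlt (by omega)
        have e1 : zp φ.par τ p 0 v = X - C (a (φ.par v) + t (φ.par v) * p v) := by
          rw [zp_lt (by omega) hlt, i1, C_add]
          ring
        have e2 : a v = a (φ.par v) + t (φ.par v) * p v := by
          have : a v = -(zp φ.par τ p 0 v).eval 0 := rfl
          rw [this, e1, eval_sub, eval_X, eval_C]
          ring
        refine ⟨by rw [e1, e2], ?_⟩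
        rw [hst v h hv]
        exact mul_ne_zero i2 (hτp v h hv).1
  have hsa : ∀ v, 1 ≤ v → v ≤ φ.N → a v = a (φ.par v) + t (φ.par v) * p v := by
    intro v hv1 hv
    have hlt := φ.par_lt v hv1 hv
    have : a v = -(zp φ.par τ p 0 v).eval 0 := rfl
    rw [this, zp_lt (by omega) hlt, (hzp (φ.par v) (by omega)).1, eval_sub, eval_sub, eval_X, eval_C,
      eval_C]
    ring
  have hσ : ∀ v, v ≤ φ.N → ∃ σ : Ω, σ ≠ 0 ∧ ∀ i,
      (vw φ.par φ.deg φ.N τ p c F 0 i).comp (C (a v) + C (t v) * X) =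
        C σ * vw φ.par φ.deg φ.N τ p c F v i := by
    intro v
    induction v using Nat.strong_induction_on with
    | _ v ih =>
      intro hv
      rcases Nat.eq_zero_or_pos v with h | h
      · subst h
        refine ⟨1, one_ne_zero, fun i => ?_⟩
        have e1 : a 0 = 0 := by
          rw [ha]
          beta_reduce
          rw [zp_self, eval_X, neg_zero]
        have e2 : t 0 = 1 := by
          rw [ht]
          beta_reduce
          rw [ww_self]
        rw [e1, e2, C_0, C_1, zero_add, one_mul, comp_X, one_mul]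
      · have hlt := φ.par_lt v h hv
        obtain ⟨σ, hσ0, hσ⟩ := ih (φ.par v) hlt (by omega)
        refine ⟨σ * τ v ^ sbd φ.par φ.deg φ.N v, mul_ne_zero hσ0 (pow_ne_zero _ (hτp v h hv).1),
          fun i => ?_⟩
        have e1 : C (a v) + C (t v) * X =
            (C (a (φ.par v)) + C (t (φ.par v)) * X).comp (C (p v) + C (τ v) * X) := by
          rw [hsa v h hv, hst v h hv, add_comp, mul_comp, C_comp, C_comp, X_comp, C_add, C_mul, C_mul]
          ring
        rw [e1, ← comp_assoc, hσ i, mul_comp, C_comp, vw_step φ.par_lt h hv, C_mul, mul_assoc]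
  choose! σ hσ0 hσ1 using hσ
  refine ⟨a, t, fun v => σ v * algebraMap k Ω (r v), fun v hv => ⟨(hzp v hv).2, ?_⟩,
    fun v hv1 hv => ⟨?_, ?_⟩, fun v hv i j => ?_⟩
  · refine mul_ne_zero (hσ0 v hv) ?_
    rw [Ne, map_eq_zero]
    exact hr0 v hv
  · have hlt := φ.par_lt v hv1 hv
    have h3 := (hzp (φ.par v) (by omega)).2
    rw [hsa v hv1 hv, add_sub_cancel_left, mul_div_cancel_left₀ _ h3]
    exact (hτp v hv1 hv).2.2
  · have hlt := φ.par_lt v hv1 hv
    have h3 := (hzp (φ.par v) (by omega)).2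
    rw [hst v hv1 hv, mul_div_cancel_left₀ _ h3]
    exact (hτp v hv1 hv).2.1
  · have h3 := red38 O hk φ.par_lt (fun v h1 h2 => (hτp v h1 h2).2.1)
      (fun v h1 h2 => (hτp v h1 h2).2.2) hc (fun v h1 i => ⟨(hF v h1 i).2.1.le, (hmon v h1 i).2.le,
      (hF v h1 i).2.2⟩) hv i j
    rw [hV v hv i, coeff_C_mul, map_mul] at h3
    rw [hσ1 v hv i, coeff_C_mul]
    have hrv : algebraMap k Ω (r v) ≠ 0 := by
      rw [Ne, map_eq_zero]
      exact hr0 v hv
    have e1 : σ v * (vw φ.par φ.deg φ.N τ p c F v i).coeff j / (σ v * algebraMap k Ω (r v)) -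
        algebraMap k Ω ((gpl φ.par φ.deg φ.N φ.pos v * φ.F v i).coeff j) =
        ((vw φ.par φ.deg φ.N τ p c F v i).coeff j - algebraMap k Ω (r v) *
          algebraMap k Ω ((gpl φ.par φ.deg φ.N φ.pos v * φ.F v i).coeff j)) *
          algebraMap k Ω (r v)⁻¹ := by
      rw [map_inv₀, mul_div_mul_left _ _ (hσ0 v hv)]
      field_simp
    rw [e1]
    exact vlt38 h3 ((O.valuation_le_one_iff _).2 (hk _))

end Pool.Agent.Helper30.RY
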