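import Mathlib
import Pool.Agent.Helper30.RY.Tga
import Pool.Agent.Helper30.RY.Act

/-!
# Block RY-TGB: every stable map is a limit

* `exists_gp`: the product over `y ∈ Y` and `i` of the linear forms `∑_j g i j y j` in the entries of `g`, times the
  determinant, is not the zero polynomial, and `k` is infinite.
* `limit_all`: apply `exists_gp` to the finitely many nonzero vectors `((φ.F v i).coeff (deg v))_i`, `v ≤ N`, and
  `((φ.F (par w) i).eval (pos w))_i`, `1 ≤ w ≤ N`.  `φ'` is `φ` with `F' v i = ∑_j C (g i j) * φ.F v j`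
  (a stable map: `h F' = F`), it is on the hypersurface with coefficients `x' = act h x` (`fm_act`, `f'(Y) = f(h Y)`).
  `hQ` holds for `x'`: `van_act` with `h` over `Ω`, the ranks do not change because `g`, `h` have entries in `k`
  (`bc Ω (act h x) = act (h.map (algebraMap k Ω)) (bc Ω x)`, `act_map`).  `x' ≠ 0` (`act_act`).
  `limit_gp` gives `O`, `G'`; put `G i = ∑_j C (h i j) * G' j`.  `aeval G f = 0`, the coefficients of `G` and
  `G'` generate the same field over `k`, and `LimitOf` is preserved: the difference of coefficients for `G`, `φ.F` is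
  the combination with coefficients `h i j ∈ k ⊆ O` of the ones for `G'`, `F'` (same `a`, `t`, `s`).
-/

namespace Pool.Agent.Helper30.RY

open Polynomial

private theorem vand2 {k : Type*} [Field k] [Infinite k] {n : ℕ} (Y : Finset (Fin (n + 1) → k))
    (hY : ∀ y ∈ Y, y ≠ 0) :
    ∃ t : Fin (n + 1) → k, Function.Injective t ∧ ∀ y ∈ Y, ∀ i, ∑ j : Fin (n + 1), t i ^ (j : ℕ) * y j ≠ 0 := by
  classical
  let P : (Fin (n + 1) → k) → k[X] := fun y => ∑ j : Fin (n + 1), C (y j) * X ^ (j : ℕ)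
  have hP : ∀ y : Fin (n + 1) → k, y ≠ 0 → P y ≠ 0 := by
    intro y hy h0
    obtain ⟨j, hj⟩ := Function.ne_iff.1 hy
    apply hj
    have h1 : (P y).coeff (j : ℕ) = y j := by
      simp only [P, finsetSum_coeff, coeff_C_mul, coeff_X_pow]
      rw [Finset.sum_eq_single j]
      · simp
      · intro b _ hb
        rw [if_neg, mul_zero]
        intro h
        exact hb (Fin.ext h.symm)
      · intro h
        exact absurd (Finset.mem_univ j) h
    rw [← h1, h0, coeff_zero]
    rfl
  let B : Finset k := Y.biUnion fun y => (P y).roots.toFinset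
  have hinf : Infinite {x : k // x ∉ B} := by
    have h := (Finset.finite_toSet B).infinite_compl
    exact h.to_subtype
  let e := Infinite.natEmbedding {x : k // x ∉ B}
  refine ⟨fun i => (e (i : ℕ)).1, ?_, ?_⟩
  · intro i j hij
    exact Fin.ext (e.injective (Subtype.ext hij))
  · intro y hy i h0
    apply (e (i : ℕ)).2
    refine Finset.mem_biUnion.2 ⟨y, hy, ?_⟩
    rw [Multiset.mem_toFinset, mem_roots (hP y (hY y hy)), IsRoot.def]
    rw [← h0]
    simp only [P, eval_finsetSum, eval_mul, eval_C, eval_pow, eval_X]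
    exact Finset.sum_congr rfl fun j _ => mul_comm _ _

theorem exists_gp {k : Type*} [Field k] [Infinite k] {n : ℕ} (Y : Finset (Fin (n + 1) → k))
    (hY : ∀ y ∈ Y, y ≠ 0) :
    ∃ g h : Matrix (Fin (n + 1)) (Fin (n + 1)) k, g * h = 1 ∧ h * g = 1 ∧
      ∀ y ∈ Y, ∀ i, g.mulVec y i ≠ 0 := by
  obtain ⟨t, ht, h⟩ := vand2 Y hY
  have hdet : IsUnit (Matrix.vandermonde t).det :=
    isUnit_iff_ne_zero.2 (Matrix.det_vandermonde_ne_zero_iff.2 ht)
  refine ⟨Matrix.vandermonde t, (Matrix.vandermonde t)⁻¹, Matrix.mul_nonsing_inv _ hdet,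
    Matrix.nonsing_inv_mul _ hdet, fun y hy i => ?_⟩
  exact h y hy i

section lin2

variable {A S : Type*} [CommRing A] [CommRing S] [Algebra A S] {n d : ℕ}

private theorem aeval_sbs2 (h : Matrix (Fin (n + 1)) (Fin (n + 1)) A)
    (f : MvPolynomial (Fin (n + 1)) A) (G : Fin (n + 1) → S) :
    MvPolynomial.aeval G (sbs h f) =
      MvPolynomial.aeval (fun i => ∑ j, algebraMap A S (h i j) * G j) f := by
  unfold sbs
  rw [MvPolynomial.comp_aeval_apply]
  congr 2
  funext i
  rw [map_sum]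
  refine Finset.sum_congr rfl fun j _ => ?_
  rw [map_mul, MvPolynomial.aeval_C, MvPolynomial.aeval_X]

/-- applying the matrix to a tuple of elements -/
private theorem inv2 {g h : Matrix (Fin (n + 1)) (Fin (n + 1)) A} (hgh : h * g = 1)
    (D : Fin (n + 1) → S) (i : Fin (n + 1)) :
    ∑ j, algebraMap A S (h i j) * ∑ l, algebraMap A S (g j l) * D l = D i := by
  simp only [Finset.mul_sum]
  rw [Finset.sum_comm]
  have h2 : ∀ l, ∑ j, algebraMap A S (h i j) * (algebraMap A S (g j l) * D l) =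
      algebraMap A S ((h * g) i l) * D l := by
    intro l
    rw [Matrix.mul_apply, map_sum, Finset.sum_mul]
    refine Finset.sum_congr rfl fun j _ => ?_
    rw [map_mul]
    ring
  rw [Finset.sum_congr rfl fun l _ => h2 l, hgh, Finset.sum_eq_single i]
  · rw [Matrix.one_apply_eq, map_one, one_mul]
  · intro j _ hj
    rw [Matrix.one_apply_ne (Ne.symm hj), map_zero, zero_mul]
  · intro h
    exact absurd (Finset.mem_univ i) h

end lin2

section rk2

variable {k Ω : Type*} [Field k] [Field Ω] [Algebra k Ω] {n : ℕ}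

private theorem lin_mem2 (h : Matrix (Fin (n + 1)) (Fin (n + 1)) k) {s : Finset Ω}
    {y : Fin (n + 1) → Ω} (hy : ∀ j, y j ∈ cl k s) (i : Fin (n + 1)) :
    ∑ j, algebraMap k Ω (h i j) * y j ∈ cl k s :=
  sum_mem fun j _ => mul_mem ((cl k s).algebraMap_mem _) (hy j)

end rk2

theorem limit_all {k : Type} [Field k] [IsAlgClosed k] {Ω : Type} [Field Ω]
    [Algebra k Ω] [IsAlgClosed Ω] [DecidableEq Ω] (hb : Big k Ω) {n d m e : ℕ} (hd : 1 ≤ d)
    (hm : m + d = n + 1) {x : Mon n d → k} (hx : x ≠ 0)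
    (hQ : ∀ e' ≤ e, ∀ a : ℕ → Fin (n + 1) → Ω, a 0 ≠ 0 → Van (bc Ω x) a e' →
      rk k (rga a e') ≤ rk k (rg (a 0)) + m * e')
    (φ : StableMap k n e) (hφ : φ.On (fm x)) :
    ∃ (O : ValuationSubring Ω) (G : Fin (n + 1) → Polynomial Ω),
      (∀ t : k, algebraMap k Ω t ∈ O) ∧ (∀ i, (G i).natDegree ≤ e) ∧
      MvPolynomial.aeval G (fm (bc Ω x)) = 0 ∧ m * e + n ≤ rk k (cfs e G) ∧
      φ.LimitOf O G := by
  classical
  have : Infinite k := IsAlgClosed.instInfinite
  let Y : Finset (Fin (n + 1) → k) :=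
    (Finset.range (φ.N + 1)).image (fun v i => (φ.F v i).coeff (φ.deg v)) ∪
      (Finset.Icc 1 φ.N).image fun w i => (φ.F (φ.par w) i).eval (φ.pos w)
  have hY : ∀ y ∈ Y, y ≠ 0 := by
    intro y hy
    rcases Finset.mem_union.1 hy with hy | hy
    · obtain ⟨v, hv, rfl⟩ := Finset.mem_image.1 hy
      obtain ⟨i, hi⟩ := φ.top_ne v (Nat.lt_succ_iff.1 (Finset.mem_range.1 hv))
      exact fun h => hi (congrFun h i)
    · obtain ⟨w, hw, rfl⟩ := Finset.mem_image.1 hy
      obtain ⟨hw1, hw2⟩ := Finset.mem_Icc.1 hw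
      obtain ⟨i, hi⟩ := φ.eval_ne (φ.par w) (((φ.par_lt w hw1 hw2).le).trans hw2) (φ.pos w)
      exact fun h => hi (congrFun h i)
  obtain ⟨g, h, hgh, hhg, hg⟩ := exists_gp Y hY
  obtain ⟨F', hF'⟩ : ∃ F' : ℕ → Fin (n + 1) → Polynomial k,
      F' = fun v i => ∑ j, C (g i j) * φ.F v j := ⟨_, rfl⟩
  have hF'c : ∀ v i l, (F' v i).coeff l = ∑ j, g i j * (φ.F v j).coeff l := by
    intro v i l
    rw [hF', finsetSum_coeff]
    simp only [coeff_C_mul]
  have hF'e : ∀ v i t, (F' v i).eval t = ∑ j, g i j * (φ.F v j).eval t := by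
    intro v i t
    rw [hF', eval_finsetSum]
    simp only [eval_mul, eval_C]
  have hFF : ∀ v i, φ.F v i = ∑ j, C (h i j) * F' v j := by
    intro v i
    rw [hF']
    exact (inv2 (S := Polynomial k) hhg (φ.F v) i).symm
  have hp1 : ∀ v ≤ φ.N, ∀ i, (F' v i).coeff (φ.deg v) ≠ 0 := by
    intro v hv i
    rw [hF'c]
    exact hg (fun i => (φ.F v i).coeff (φ.deg v)) (Finset.mem_union_left _
      (Finset.mem_image.2 ⟨v, Finset.mem_range.2 (Nat.lt_succ_of_le hv), rfl⟩)) i
  have hp2 : ∀ w, 1 ≤ w → w ≤ φ.N → ∀ i, (F' (φ.par w) i).eval (φ.pos w) ≠ 0 := by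
    intro w hw1 hw i
    rw [hF'e]
    exact hg (fun i => (φ.F (φ.par w) i).eval (φ.pos w)) (Finset.mem_union_right _
      (Finset.mem_image.2 ⟨w, Finset.mem_Icc.2 ⟨hw1, hw⟩, rfl⟩)) i
  let φ' : StableMap k n e :=
    { N := φ.N
      par := φ.par
      par_lt := φ.par_lt
      deg := φ.deg
      deg_sum := φ.deg_sum
      pos := φ.pos
      pos_ne := φ.pos_ne
      F := F'
      natDegree_le := by
        intro v hv i
        rw [hF']
        refine natDegree_sum_le_of_forall_le _ _ fun j _ => ?_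
        exact (natDegree_C_mul_le _ _).trans (φ.natDegree_le v hv j)
      top_ne := fun v hv => ⟨0, hp1 v hv 0⟩
      eval_ne := by
        intro v hv t
        by_contra hcon
        push Not at hcon
        obtain ⟨i, hi⟩ := φ.eval_ne v hv t
        apply hi
        rw [hFF v i, eval_finsetSum]
        refine Finset.sum_eq_zero fun j _ => ?_
        rw [eval_mul, hcon j, mul_zero]
      glue := by
        intro v hv1 hv
        obtain ⟨s, hs, hs'⟩ := φ.glue v hv1 hv
        refine ⟨s, hs, fun i => ?_⟩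
        rw [hF'c, hF'e, Finset.mul_sum]
        refine Finset.sum_congr rfl fun j _ => ?_
        rw [hs' j]
        ring
      stable := φ.stable }
  have hOn : φ'.On (fm (act h x)) := by
    intro v hv
    have h1 := hφ v hv
    rw [fm_act, aeval_sbs2]
    have h2 : (fun i => ∑ j, algebraMap k (Polynomial k) (h i j) * φ'.F v j) = φ.F v := by
      funext i
      exact (hFF v i).symm
    rw [h2]
    exact h1
  have hx' : act h x ≠ 0 := by
    intro h0
    apply hx
    have h1 : act g (act h x) = x := by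
      rw [act_act, hhg, act_one]
    rw [← h1, h0]
    funext μ
    unfold act fm sbs
    simp
  let hΩ : Matrix (Fin (n + 1)) (Fin (n + 1)) Ω := h.map (algebraMap k Ω)
  let gΩ : Matrix (Fin (n + 1)) (Fin (n + 1)) Ω := g.map (algebraMap k Ω)
  have hghΩ : gΩ * hΩ = 1 := by
    rw [← Matrix.map_mul, hgh, Matrix.map_one _ (map_zero _) (map_one _)]
  have hhgΩ : hΩ * gΩ = 1 := by
    rw [← Matrix.map_mul, hhg, Matrix.map_one _ (map_zero _) (map_one _)]
  have hbc : bc Ω (act h x) = act hΩ (bc Ω x) := by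
    funext μ
    exact act_map (algebraMap k Ω) h x μ
  have hmv : ∀ (M : Matrix (Fin (n + 1)) (Fin (n + 1)) k) (y : Fin (n + 1) → Ω) i,
      (M.map (algebraMap k Ω)).mulVec y i = ∑ j, algebraMap k Ω (M i j) * y j := by
    intro M y i
    simp only [Matrix.mulVec, dotProduct, Matrix.map_apply]
  have hQ' : ∀ e' ≤ e, ∀ a : ℕ → Fin (n + 1) → Ω, a 0 ≠ 0 → Van (bc Ω (act h x)) a e' →
      rk k (rga a e') ≤ rk k (rg (a 0)) + m * e' := by
    intro e' he' a ha hv
    rw [hbc, van_act] at hv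
    have hinj : ∀ y : Fin (n + 1) → Ω, gΩ.mulVec (hΩ.mulVec y) = y := by
      intro y
      rw [Matrix.mulVec_mulVec, hghΩ, Matrix.one_mulVec]
    have h0 : hΩ.mulVec (a 0) ≠ 0 := by
      intro h0
      apply ha
      rw [← hinj (a 0), h0, Matrix.mulVec_zero]
    have h1 := hQ e' he' (fun l => hΩ.mulVec (a l)) h0 hv
    have h2 : rk k (rga a e') ≤ rk k (rga (fun l => hΩ.mulVec (a l)) e') := by
      refine rk_le_of_subset_cl k fun z hz => ?_
      obtain ⟨l, hl, hz⟩ := Finset.mem_biUnion.1 hz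
      obtain ⟨i, _, rfl⟩ := Finset.mem_image.1 hz
      rw [← hinj (a l), hmv]
      refine lin_mem2 g (fun j => subset_cl k _ _ ?_) i
      exact Finset.mem_biUnion.2 ⟨l, hl, Finset.mem_image.2 ⟨j, Finset.mem_univ _, rfl⟩⟩
    have h3 : rk k (rg (hΩ.mulVec (a 0))) ≤ rk k (rg (a 0)) := by
      refine rk_le_of_subset_cl k fun z hz => ?_
      obtain ⟨i, _, rfl⟩ := Finset.mem_image.1 hz
      rw [hmv]
      refine lin_mem2 h (fun j => subset_cl k _ _ ?_) i
      exact Finset.mem_image.2 ⟨j, Finset.mem_univ _, rfl⟩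
    exact h2.trans (h1.trans (Nat.add_le_add_right h3 _))
  obtain ⟨O, G', hO, hG1, hG2, hG3, a, t, s, hs1, hs2, hs3⟩ :=
    limit_gp hb hd hm hx' hQ' φ' hOn hp1 hp2
  obtain ⟨G, hG⟩ : ∃ G : Fin (n + 1) → Polynomial Ω, G = fun i => ∑ j, C (hΩ i j) * G' j := ⟨_, rfl⟩
  have hGG : ∀ i, G' i = ∑ j, C (gΩ i j) * G j := by
    intro i
    rw [hG]
    exact (inv2 (S := Polynomial Ω) hghΩ G' i).symm
  refine ⟨O, G, hO, fun i => ?_, ?_, hG3.trans ?_, a, t, s, hs1, hs2, fun v hv i j => ?_⟩
  · rw [hG]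
    refine natDegree_sum_le_of_forall_le _ _ fun j _ => ?_
    exact (natDegree_C_mul_le _ _).trans (hG1 j)
  · rw [hbc, fm_act, aeval_sbs2] at hG2
    rw [hG]
    exact hG2
  · refine rk_le_of_subset_cl k fun z hz => ?_
    obtain ⟨i, _, hz⟩ := Finset.mem_biUnion.1 hz
    obtain ⟨l, hl, rfl⟩ := Finset.mem_image.1 hz
    rw [hGG i, finsetSum_coeff]
    simp only [coeff_C_mul]
    refine lin_mem2 g (fun j => subset_cl k _ _ ?_) i
    exact Finset.mem_biUnion.2 ⟨j, Finset.mem_univ _, Finset.mem_image.2 ⟨l, hl, rfl⟩⟩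
  · have e1 : ((G i).comp (C (a v) + C (t v) * X)).coeff j / s v -
        algebraMap k Ω ((gpl φ.par φ.deg φ.N φ.pos v * φ.F v i).coeff j) =
        ∑ l, algebraMap k Ω (h i l) * (((G' l).comp (C (a v) + C (t v) * X)).coeff j / s v -
          algebraMap k Ω ((gpl φ.par φ.deg φ.N φ.pos v * F' v l).coeff j)) := by
      have e0 : (G i).comp (C (a v) + C (t v) * X) =
          ∑ l, C (hΩ i l) * (G' l).comp (C (a v) + C (t v) * X) := by
        rw [hG, ← coe_compRingHom_apply, map_sum]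
        refine Finset.sum_congr rfl fun l _ => ?_
        rw [map_mul, coe_compRingHom_apply, coe_compRingHom_apply, C_comp]
      rw [hFF v i, e0, Finset.mul_sum, finsetSum_coeff, finsetSum_coeff, map_sum,
        Finset.sum_div, ← Finset.sum_sub_distrib]
      refine Finset.sum_congr rfl fun l _ => ?_
      rw [coeff_C_mul, mul_left_comm, coeff_C_mul, map_mul]
      simp only [hΩ, Matrix.map_apply]
      ring
    rw [e1]
    refine Valuation.map_sum_lt _ one_ne_zero fun l _ => ?_
    rw [map_mul]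
    refine lt_of_le_of_lt (mul_le_of_le_one_left' ((O.valuation_le_one_iff _).2 (hO _))) ?_
    exact hs3 v hv l j

end Pool.Agent.Helper30.RY
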