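import Mathlib
import Pool.Agent.Helper30.RY.Tgb
import Pool.Agent.Helper30.RY.Fnh

/-!
# Block RY-TGC: the curves of maximal rank are generic honest maps

`G` is a tuple of polynomials of degree `≤ e` over `Ω` with `f(G) = 0`, `f = fm x`, and `rk k (cfs e G) ≥ m e + n`.
* `generic_of_rank`: if `RC.curveIdeal e (fm x)` is prime, then the polynomials in the coefficients which vanish at `G` are
  exactly the elements of `RC.curveIdeal e (fm x)`: the kernel `P` of the evaluation at `G` is a prime ideal containing the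
  ideal (`RC.curveIdeal` is generated by the coefficients of `f` of the universal curve), the transcendence degree of
  `A / P` is `rk k (cfs e G) ≥ m e + n` (`rk_eq_trdeg`), and the dimension of `A / curveIdeal` is `m e + n` (`dim_curve`);
  if `P` were strictly bigger, the dimension would be smaller (a domain of finite type modulo a nonzero
  prime has smaller dimension).
* `honest_of_rank`: see `Fnh.lean` (steps 1 and 2 of the proof of `exists_honest`; copy the private lemmas if there
  are any): some `G i` has degree exactly `e`, and the `G i` have no common zero in `Ω`, otherwise the rank is at most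
  `n + m (e - 1) + 1 < m e + n`.
-/

namespace Pool.Agent.Helper30.RY

section

open MvPolynomial

section AuxTgc

private theorem degTgc {A : Type*} [CommRing A] {n : ℕ} (a : ℕ → Fin (n + 1) → A) (e : ℕ)
    (i : Fin (n + 1)) : (cv a e i).natDegree ≤ e := by
  unfold cv
  refine Polynomial.natDegree_sum_le_of_forall_le _ _ fun l hl => ?_
  rw [Finset.mem_range] at hl
  exact (Polynomial.natDegree_C_mul_X_pow_le _ _).trans (by omega)

private theorem coeffTgc {A : Type*} [CommRing A] {n : ℕ} (a : ℕ → Fin (n + 1) → A) (e : ℕ)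
    (i : Fin (n + 1)) {l : ℕ} (hl : l ≤ e) : (cv a e i).coeff l = a l i := by
  unfold cv
  rw [Polynomial.finsetSum_coeff, Finset.sum_eq_single l]
  · rw [Polynomial.coeff_C_mul_X_pow, if_pos rfl]
  · intro b _ hb
    rw [Polynomial.coeff_C_mul_X_pow, if_neg (Ne.symm hb)]
  · intro h
    exact absurd (Finset.mem_range.mpr (by omega)) h

private theorem cvofTgc {A : Type*} [CommRing A] {n : ℕ} (G : Fin (n + 1) → Polynomial A) (e : ℕ)
    (hG : ∀ i, (G i).natDegree ≤ e) : cv (fun l i => (G i).coeff l) e = G := by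
  funext i
  unfold cv
  have h := hG i
  exact (Polynomial.as_sum_range_C_mul_X_pow' (G i) (n := e + 1) (by omega)).symm

private theorem aevTgc {A S : Type*} [CommRing A] [CommRing S] [Algebra A S] {n q : ℕ}
    {f : MvPolynomial (Fin (n + 1)) A} (hf : f.IsHomogeneous q) (t : S) (g : Fin (n + 1) → S) :
    aeval (fun i => t * g i) f = t ^ q * aeval g f := by
  rw [aeval_def, aeval_def, eval₂_eq', eval₂_eq', Finset.mul_sum]
  refine Finset.sum_congr rfl fun m hm => ?_
  have h1 : m.degree = q := by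
    by_contra hcon
    exact (mem_support_iff.mp hm) (hf.coeff_eq_zero hcon)
  have h2 : ∏ i, (t * g i) ^ m i = t ^ q * ∏ i, g i ^ m i := by
    simp only [mul_pow]
    rw [Finset.prod_mul_distrib, Finset.prod_pow_eq_pow_sum]
    congr 2
    rw [← h1, Finsupp.degree_eq_sum]
  rw [h2]
  ring

/-- Specialisation of the coefficients. -/
private theorem specTgc {k S Ω : Type*} [Field k] [CommRing S] [Algebra k S] [CommRing Ω]
    [Algebra k Ω] (φ : S →+* Ω) (hφ : φ.comp (algebraMap k S) = algebraMap k Ω) {n : ℕ}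
    (g : Fin (n + 1) → Polynomial S) (f : MvPolynomial (Fin (n + 1)) k) :
    aeval (fun i => (g i).map φ) (map (algebraMap k Ω) f) = (aeval g f).map φ := by
  have h1 : (fun i => (g i).map φ) = fun i => Polynomial.mapRingHom φ (g i) := by
    funext i
    rfl
  rw [h1, aeval_def, eval₂_map, ← Polynomial.coe_mapRingHom, aeval_def, hom_eval₂]
  congr 1
  rw [← hφ]
  ext x
  simp

end AuxTgc

section

variable {k : Type} [Field k] {Ω : Type} [Field Ω] [Algebra k Ω]
  [DecidableEq Ω] {n d m : ℕ}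

private theorem ptTgc (x : Mon n d → k) (hx : x ≠ 0) (v : Fin (n + 1) → Ω)
    (hv : eval v (fm fun m => algebraMap k Ω (x m)) = 0) : rk k (rg v) ≤ n := by
  have hfm : map (algebraMap k Ω) (fm x) ≠ 0 := by
    intro h
    have h1 : fm x = 0 := (MvPolynomial.map_injective _ (algebraMap k Ω).injective) (by
      rw [h, map_zero])
    apply hx
    funext m
    rw [← coeff_fm x m, h1, coeff_zero]
    rfl
  by_contra hcon
  have h1 : rk k (rg v) ≤ n + 1 := by
    refine (rk_le_card k (rg v)).trans ?_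
    refine Finset.card_image_le.trans ?_
    rw [Finset.card_univ, Fintype.card_fin]
  have h2 : rk k (∅ ∪ rg v) = rk k (∅ : Finset Ω) + Fintype.card (Fin (n + 1)) := by
    rw [Finset.empty_union, rk_empty, Fintype.card_fin]
    omega
  refine eval_ne_zero_of_generic h2 _ hfm (fun m => ?_) ?_
  · rw [coeff_map]
    exact (cl k (∅ : Finset Ω)).algebraMap_mem _
  · rw [map_fm]
    exact hv

private theorem rkcTgc (x : Mon n d → k)
    (hpt : ∀ v : Fin (n + 1) → Ω, eval v (fm fun m => algebraMap k Ω (x m)) = 0 →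
      rk k (rg v) ≤ n) (e : ℕ)
    (hQ : ∀ e' ≤ e, ∀ a : ℕ → Fin (n + 1) → Ω, a 0 ≠ 0 →
      Van (fun m => algebraMap k Ω (x m)) a e' → rk k (rga a e') ≤ rk k (rg (a 0)) + m * e')
    {e' : ℕ} (he' : e' ≤ e)
    (a : ℕ → Fin (n + 1) → Ω) (hvan : Van (fun m => algebraMap k Ω (x m)) a e') :
    rk k (rga a e') ≤ m * e' + n := by
  classical
  by_cases hall : ∀ l ≤ e', a l = 0
  · have h3 : rk k (rga a e') ≤ rk k (∅ : Finset Ω) := by
      refine rk_le_of_subset_cl k fun y hy => ?_
      obtain ⟨l, hl, hy⟩ := Finset.mem_biUnion.1 hy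
      obtain ⟨i, -, rfl⟩ := Finset.mem_image.1 hy
      rw [Finset.mem_range] at hl
      rw [hall l (by omega)]
      exact zero_mem _
    rw [rk_empty] at h3
    omega
  · push Not at hall
    obtain ⟨j, ⟨hje, hj⟩, hmin⟩ : ∃ j, (j ≤ e' ∧ a j ≠ 0) ∧ ∀ l < j, ¬ (l ≤ e' ∧ a l ≠ 0) :=
      ⟨Nat.find hall, Nat.find_spec hall, fun l hl => Nat.find_min hall hl⟩
    have hz0 : ∀ l < j, ∀ i, a l i = 0 := by
      intro l hl i
      have h1 := hmin l hl
      push Not at h1
      rw [h1 (by omega)]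
      rfl
    have h1 := vanp_shift (fm_hom _) hje hz0 hvan
    obtain ⟨b, hbdef⟩ : ∃ b : ℕ → Fin (n + 1) → Ω, b = fun l => a (l + j) := ⟨_, rfl⟩
    rw [← hbdef] at h1
    have hb0 : b 0 = a j := by rw [hbdef]; simp
    have h2 := hQ (e' - j) (by omega) b (by rw [hb0]; exact hj) h1
    have h3 : rk k (rg (b 0)) ≤ n := hpt _ (eval_zero_of_vanp h1)
    have h4 : rk k (rga a e') ≤ rk k (rga b (e' - j)) := by
      refine rk_le_of_subset_cl k fun y hy => ?_
      obtain ⟨l, hl, hy⟩ := Finset.mem_biUnion.1 hy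
      obtain ⟨i, -, rfl⟩ := Finset.mem_image.1 hy
      rw [Finset.mem_range] at hl
      rcases Nat.lt_or_ge l j with h5 | h5
      · rw [hz0 _ h5]
        exact zero_mem _
      · refine subset_cl k _ _ (Finset.mem_biUnion.2 ⟨l - j, ?_, ?_⟩)
        · rw [Finset.mem_range]
          omega
        · have h6 : a l i = b (l - j) i := by
            rw [hbdef]
            change a l i = a (l - j + j) i
            rw [Nat.sub_add_cancel h5]
          rw [h6]
          exact Finset.mem_image_of_mem _ (Finset.mem_univ i)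
    have h5 : m * (e' - j) ≤ m * e' := Nat.mul_le_mul_left m (Nat.sub_le e' j)
    omega


/-- the curve of a point of the affine space -/
private theorem ptcTgc (x : Mon n d → k) (e : ℕ) (w : Fin (n + 1) × Fin (e + 1) → Ω)
    (hw : ∀ p ∈ RC.curveIdeal e (fm x), aeval w p = 0) :
    ∃ a : ℕ → Fin (n + 1) → Ω, Van (fun m => algebraMap k Ω (x m)) a e ∧
      rk k (rg w) ≤ rk k (rga a e) := by
  classical
  let a : ℕ → Fin (n + 1) → Ω := fun l i => if h : l < e + 1 then w (i, ⟨l, h⟩) else 0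
  have has : ∀ l (h : l < e + 1) i, a l i = w (i, ⟨l, h⟩) := by
    intro l h i
    change (if h : l < e + 1 then w (i, ⟨l, h⟩) else 0) = _
    rw [dif_pos h]
  have hcv : cv a e = fun i =>
      (RC.tup k n e i).map (aeval w : MvPolynomial _ k →ₐ[k] Ω).toRingHom := by
    funext i
    unfold cv RC.tup
    rw [Polynomial.map_sum, ← Fin.sum_univ_eq_sum_range (fun l => Polynomial.C (a l i) *
        Polynomial.X ^ l) (e + 1)]
    refine Finset.sum_congr rfl fun l _ => ?_
    rw [Polynomial.map_mul, Polynomial.map_C, Polynomial.map_pow, Polynomial.map_X, has l l.2 i]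
    congr 2
    change _ = aeval w (X (i, l))
    rw [aeval_X]
  refine ⟨a, ?_, rk_mono k fun y hy => ?_⟩
  · unfold Van Vanp
    rw [← map_fm, hcv, specTgc]
    · ext j
      rw [Polynomial.coeff_map, Polynomial.coeff_zero]
      exact hw _ (Ideal.subset_span ⟨j, rfl⟩)
    · exact (aeval w : MvPolynomial _ k →ₐ[k] Ω).comp_algebraMap
  · obtain ⟨⟨i, l⟩, -, rfl⟩ := Finset.mem_image.1 hy
    refine Finset.mem_biUnion.2 ⟨(l : ℕ), Finset.mem_range.2 l.2, ?_⟩
    rw [← has l l.2 i]
    exact Finset.mem_image_of_mem _ (Finset.mem_univ i)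

/-- the coefficients of a curve on the hypersurface are a zero of the ideal -/
private theorem zeroTgc (x : Mon n d → k) (e : ℕ) (G : Fin (n + 1) → Polynomial Ω)
    (hG : ∀ i, (G i).natDegree ≤ e)
    (hV : aeval G (fm fun m => algebraMap k Ω (x m)) = 0) :
    ∀ p ∈ RC.curveIdeal e (fm x),
      aeval (fun il : Fin (n + 1) × Fin (e + 1) => (G il.1).coeff il.2) p = 0 := by
  obtain ⟨w, hw⟩ : ∃ w : Fin (n + 1) × Fin (e + 1) → Ω, w = fun il => (G il.1).coeff il.2 :=
    ⟨_, rfl⟩
  rw [← hw]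
  have hcv : G = fun i =>
      (RC.tup k n e i).map (aeval w : MvPolynomial _ k →ₐ[k] Ω).toRingHom := by
    conv_lhs => rw [← cvofTgc G e hG]
    funext i
    unfold cv RC.tup
    rw [Polynomial.map_sum, ← Fin.sum_univ_eq_sum_range (fun l => Polynomial.C ((G i).coeff l) *
        Polynomial.X ^ l) (e + 1)]
    refine Finset.sum_congr rfl fun l _ => ?_
    rw [Polynomial.map_mul, Polynomial.map_C, Polynomial.map_pow, Polynomial.map_X]
    congr 2
    change _ = aeval w (X (i, l))
    rw [aeval_X, hw]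
  rw [← map_fm, hcv, specTgc] at hV
  · have hle : RC.curveIdeal e (fm x) ≤ RingHom.ker (aeval w : MvPolynomial _ k →ₐ[k] Ω) := by
      unfold RC.curveIdeal
      rw [Ideal.span_le]
      rintro _ ⟨j, rfl⟩
      rw [SetLike.mem_coe, RingHom.mem_ker]
      have h5 := congrArg (fun G : Polynomial Ω => G.coeff j) hV
      simp only [Polynomial.coeff_zero, Polynomial.coeff_map] at h5
      exact h5
    intro p hp
    exact hle hp
  · exact (aeval w : MvPolynomial _ k →ₐ[k] Ω).comp_algebraMap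

end

end

open Polynomial

theorem generic_of_rank {k : Type} [Field k] [IsAlgClosed k] {Ω : Type} [Field Ω]
    [Algebra k Ω] [IsAlgClosed Ω] [DecidableEq Ω] (hb : Big k Ω) {n d m e : ℕ}
    (hm : m + d = n + 1) {x : Mon n d → k} (hx : x ≠ 0)
    (hQ : ∀ e' ≤ e, ∀ a : ℕ → Fin (n + 1) → Ω, a 0 ≠ 0 → Van (bc Ω x) a e' →
      rk k (rga a e') ≤ rk k (rg (a 0)) + m * e')
    (hP : (RC.curveIdeal e (fm x)).IsPrime) {G : Fin (n + 1) → Polynomial Ω}
    (hG : ∀ i, (G i).natDegree ≤ e) (hV : MvPolynomial.aeval G (fm (bc Ω x)) = 0)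
    (hr : m * e + n ≤ rk k (cfs e G)) (P : RC.CoeffRing k n e) :
    MvPolynomial.aeval (fun il : Fin (n + 1) × Fin (e + 1) => (G il.1).coeff il.2) P = 0 ↔
      P ∈ RC.curveIdeal e (fm x) := by
  classical
  have hz := zeroTgc x e G hG hV
  refine ⟨fun h0 => ?_, fun h => hz P h⟩
  have hpt := fun v hv => ptTgc (Ω := Ω) x hx v hv
  obtain ⟨φ, hφ⟩ := exists_real (K := k) (Ω := Ω) hb (RC.CoeffRing k n e)
    (RC.curveIdeal e (fm x))
  obtain ⟨w, hwdef⟩ : ∃ w : Fin (n + 1) × Fin (e + 1) → Ω,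
    w = fun j => φ (MvPolynomial.X j) := ⟨_, rfl⟩
  have hφw : φ = MvPolynomial.aeval w := by
    rw [hwdef]
    exact MvPolynomial.aeval_unique φ
  have hw : ∀ p, MvPolynomial.aeval w p = 0 ↔ p ∈ RC.curveIdeal e (fm x) := by
    intro r
    rw [← hφw]
    exact hφ r
  obtain ⟨a, ha, hra⟩ := ptcTgc x e w fun p hp => (hw p).2 hp
  have h1 : rk k (rga a e) ≤ m * e + n := rkcTgc x hpt e hQ le_rfl a ha
  have hS : Spc k w (fun il : Fin (n + 1) × Fin (e + 1) => (G il.1).coeff il.2) := by
    intro p hp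
    exact hz p ((hw p).1 hp)
  have h2 : rk k (cfs e G) ≤
      rk k (rg fun il : Fin (n + 1) × Fin (e + 1) => (G il.1).coeff il.2) := by
    refine rk_mono k fun y hy => ?_
    obtain ⟨i, -, hy⟩ := Finset.mem_biUnion.1 hy
    obtain ⟨l, hl, rfl⟩ := Finset.mem_image.1 hy
    exact Finset.mem_image.2 ⟨(i, ⟨l, Finset.mem_range.1 hl⟩), Finset.mem_univ _, rfl⟩
  have h3 := hS.symm_of_rk (by omega)
  exact (hw P).1 (h3 P h0)

theorem honest_of_rank {k : Type} [Field k] [IsAlgClosed k] {Ω : Type} [Field Ω]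
    [Algebra k Ω] [IsAlgClosed Ω] [DecidableEq Ω] (hb : Big k Ω) {n d m e : ℕ} (hm2 : 2 ≤ m)
    (hm : m + d = n + 1) (he : 1 ≤ e) {x : Mon n d → k} (hx : x ≠ 0)
    (hQ : ∀ e' ≤ e, ∀ a : ℕ → Fin (n + 1) → Ω, a 0 ≠ 0 → Van (bc Ω x) a e' →
      rk k (rga a e') ≤ rk k (rg (a 0)) + m * e') {G : Fin (n + 1) → Polynomial Ω}
    (hG : ∀ i, (G i).natDegree ≤ e) (hV : MvPolynomial.aeval G (fm (bc Ω x)) = 0)
    (hr : m * e + n ≤ rk k (cfs e G)) :
    (∃ i, (G i).natDegree = e) ∧ ∀ t, ∃ i, (G i).eval t ≠ 0 := by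
  classical
  have hpt := fun v hv => ptTgc (Ω := Ω) x hx v hv
  obtain ⟨a, hadef⟩ : ∃ a : ℕ → Fin (n + 1) → Ω, a = fun l i => (G i).coeff l := ⟨_, rfl⟩
  have hcva : cv a e = G := by
    rw [hadef]
    exact cvofTgc G e hG
  have hvan : Van (bc Ω x) a e := by
    unfold Van Vanp
    rw [hcva]
    exact hV
  have hrk : m * e + n ≤ rk k (rga a e) := by
    refine hr.trans (rk_mono k fun y hy => ?_)
    obtain ⟨i, -, hy⟩ := Finset.mem_biUnion.1 hy
    obtain ⟨l, hl, rfl⟩ := Finset.mem_image.1 hy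
    refine Finset.mem_biUnion.2 ⟨l, hl, Finset.mem_image.2 ⟨i, Finset.mem_univ _, ?_⟩⟩
    rw [hadef]
  have hup := fun (e' : ℕ) (he' : e' ≤ e) (b : ℕ → Fin (n + 1) → Ω)
    (hV : Van (fun m => algebraMap k Ω (x m)) b e') => rkcTgc x hpt e hQ he' b hV
  have hme : m * (e - 1) + m = m * e := by
    obtain ⟨e1, rfl⟩ : ∃ e1, e = e1 + 1 := ⟨e - 1, by omega⟩
    rw [Nat.add_sub_cancel, mul_add, mul_one]
  -- the leading coefficient
  have htop : ∃ i, a e i ≠ 0 := by
    by_contra hcon
    push Not at hcon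
    have h0 : ∀ l, e - 1 < l → l ≤ e → ∀ i, a l i = 0 := by
      intro l h1 h2 i
      have h3 : l = e := by omega
      rw [h3]
      exact hcon i
    have hV := (vanp_trunc (Nat.sub_le e 1) h0).1 hvan
    have h1 := hup (e - 1) (Nat.sub_le e 1) a hV
    have h2 : rk k (rga a e) ≤ rk k (rga a (e - 1)) := by
      refine rk_le_of_subset_cl k fun y hy => ?_
      obtain ⟨l, hl, hy⟩ := Finset.mem_biUnion.1 hy
      obtain ⟨i, -, rfl⟩ := Finset.mem_image.1 hy
      rw [Finset.mem_range] at hl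
      rcases Nat.lt_or_ge (e - 1) l with h5 | h5
      · rw [h0 l h5 (by omega)]
        exact zero_mem _
      · refine subset_cl k _ _ (Finset.mem_biUnion.2 ⟨l, ?_, ?_⟩)
        · rw [Finset.mem_range]
          omega
        · exact Finset.mem_image_of_mem _ (Finset.mem_univ i)
    omega
  obtain ⟨i₀, hi₀⟩ := htop
  refine ⟨⟨i₀, le_antisymm (hG i₀) (Polynomial.le_natDegree_of_ne_zero ?_)⟩, ?_⟩
  · rw [hadef] at hi₀
    exact hi₀
  -- no common zeros
  intro t
  by_contra hcon
  push Not at hcon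
  have hdvd : ∀ i, ∃ q : Polynomial Ω, G i = (Polynomial.X - Polynomial.C t) * q := by
    intro i
    exact Polynomial.dvd_iff_isRoot.2 (hcon i)
  choose H hH using hdvd
  have hHd : ∀ i, (H i).natDegree ≤ e - 1 := by
    intro i
    by_cases h0 : H i = 0
    · rw [h0, Polynomial.natDegree_zero]
      exact Nat.zero_le _
    · have h1 := hG i
      rw [hH i, Polynomial.natDegree_mul (Polynomial.X_sub_C_ne_zero t) h0,
        Polynomial.natDegree_X_sub_C] at h1
      omega
  have hcv := cvofTgc H (e - 1) hHd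
  have hVH : Van (fun m => algebraMap k Ω (x m)) (fun l i => (H i).coeff l) (e - 1) := by
    unfold Van Vanp at hvan ⊢
    rw [hcv]
    have h1 : cv a e = fun i => (Polynomial.X - Polynomial.C t) * H i := by
      rw [hcva]
      exact funext hH
    rw [h1, aevTgc (fm_hom _)] at hvan
    rcases mul_eq_zero.1 hvan with h2 | h2
    · exact absurd h2 (pow_ne_zero _ (Polynomial.X_sub_C_ne_zero t))
    · exact h2
  have h1 := hup (e - 1) (Nat.sub_le e 1) _ hVH
  have h2 : rk k (rga a e) ≤ rk k (rga (fun l i => (H i).coeff l) (e - 1) ∪ {t}) := by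
    refine rk_le_of_subset_cl k fun y hy => ?_
    obtain ⟨l, hl, hy⟩ := Finset.mem_biUnion.1 hy
    obtain ⟨i, -, rfl⟩ := Finset.mem_image.1 hy
    rw [Finset.mem_range] at hl
    have hc : ∀ l, (H i).coeff l ∈
        cl k (rga (fun l i => (H i).coeff l) (e - 1) ∪ {t}) := by
      intro l
      rcases Nat.lt_or_ge (e - 1) l with h5 | h5
      · rw [Polynomial.coeff_eq_zero_of_natDegree_lt (lt_of_le_of_lt (hHd i) h5)]
        exact zero_mem _
      · refine subset_cl k _ _ (Finset.mem_union_left _ (Finset.mem_biUnion.2 ⟨l, ?_, ?_⟩))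
        · rw [Finset.mem_range]
          omega
        · exact Finset.mem_image.2 ⟨i, Finset.mem_univ i, rfl⟩
    have ht : t ∈ cl k (rga (fun l i => (H i).coeff l) (e - 1) ∪ {t}) :=
      subset_cl k _ _ (Finset.mem_union_right _ (Finset.mem_singleton_self t))
    have h6 : a l i = (G i).coeff l := by rw [hadef]
    rw [h6, hH i, sub_mul, Polynomial.coeff_sub, Polynomial.coeff_C_mul]
    refine sub_mem ?_ (mul_mem ht (hc l))
    rcases l with _ | l
    · rw [Polynomial.mul_coeff_zero, Polynomial.coeff_X_zero, zero_mul]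
      exact zero_mem _
    · rw [Polynomial.coeff_X_mul]
      exact hc l
  have h3 := rk_union_le_card k (rga (fun l i => (H i).coeff l) (e - 1)) {t}
  rw [Finset.card_singleton] at h3
  omega

end Pool.Agent.Helper30.RY
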