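import Mathlib
import Pool.Agent.Helper30.RY.Fin
import Pool.Agent.Helper30.RY.Tgc
import Pool.Agent.Helper30.RY.Mdl

/-!
# The Kontsevich space of a general hypersurface is irreducible
-/

namespace Pool.Agent.Helper30.RY

open MvPolynomial

theorem thmBound {k : Type} [Field k] [IsAlgClosed k] {Ω : Type} [Field Ω] [Algebra k Ω]
    [IsAlgClosed Ω] [DecidableEq Ω] (hb : Big k Ω) (n d e : ℕ) (hd : 1 ≤ d) (hn : d + 2 ≤ n) :
    RC.ForGeneral (k := k) n d (fun f => ∃ x : Mon n d → k, f = fm x ∧ x ≠ 0 ∧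
      ∀ e' ≤ e, ∀ a : ℕ → Fin (n + 1) → Ω, a 0 ≠ 0 → Van (bc Ω x) a e' →
        rk k (rga a e') ≤ rk k (rg (a 0)) + (n + 1 - d) * e') := by
  classical
  have hinf : Infinite k := IsAlgClosed.instInfinite
  choose D hD0 hD using fun e' : ℕ => general_bound (k := k) (Ω := Ω) hb hd hn e'
  refine forGeneral_of_open ((∏ e' ∈ Finset.range (e + 1), D e') * ∏ m : Mon n d, X m) ?_ ?_
  · refine mul_ne_zero (Finset.prod_ne_zero_iff.mpr fun e' _ => hD0 e')
      (Finset.prod_ne_zero_iff.mpr fun m _ => X_ne_zero m)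
  · intro x hx
    rw [map_mul, map_prod, map_prod] at hx
    have h1 : ∀ e' ≤ e, eval x (D e') ≠ 0 := fun e' he' =>
      Finset.prod_ne_zero_iff.mp (left_ne_zero_of_mul hx) e' (Finset.mem_range.mpr (by omega))
    have h2 := Finset.prod_ne_zero_iff.mp (right_ne_zero_of_mul hx)
    have hx0 : x ≠ 0 := by
      rintro rfl
      exact h2 (m0 n d) (Finset.mem_univ _) (by simp)
    exact ⟨x, rfl, hx0, fun e' he' a h0 hV => hD e' x (h1 e' he') a h0 hV⟩

theorem thmKontsevich (k : Type) [Field k] [IsAlgClosed k] (n d e : ℕ) (hd : 1 ≤ d)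
    (hn : d + 2 ≤ n) (he : 1 ≤ e) :
    RC.ForGeneral (k := k) n d (fun f =>
      (RC.curveIdeal e f).IsPrime ∧
      ringKrullDim (RC.CoeffRing k n e ⧸ RC.curveIdeal e f) = ((n + 1 - d) * e + n : ℕ) ∧
      (∃ F : Fin (n + 1) → Polynomial k, (∀ i, (F i).natDegree ≤ e) ∧
        (∃ i, (F i).natDegree = e) ∧ (∀ t, ∃ i, (F i).eval t ≠ 0) ∧ aeval F f = 0) ∧
      ∀ φ : StableMap k n e, φ.On f →
        ∃ (L : Type) (_ : Field L) (_ : Algebra k L) (O : ValuationSubring L)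
          (G : Fin (n + 1) → Polynomial L),
          IsAlgClosed L ∧ (∀ t : k, algebraMap k L t ∈ O) ∧
          ((∀ i, (G i).natDegree ≤ e) ∧ (∃ i, (G i).natDegree = e) ∧
            (∀ t, ∃ i, (G i).eval t ≠ 0)) ∧
          (∀ P : RC.CoeffRing k n e,
            aeval (fun il : Fin (n + 1) × Fin (e + 1) => (G il.1).coeff il.2) P = 0 ↔
              P ∈ RC.curveIdeal e f) ∧
          moduli k e G = ((n + 1 - d) * e + n - 4 : ℕ) ∧
          φ.LimitOf O G) := by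
  classical
  obtain ⟨Ω, i1, i2, hΩ, hb⟩ := exists_big k
  have hinf : Infinite k := IsAlgClosed.instInfinite
  refine ((thmFull k n d e hd hn he).and (thmBound hb n d e hd hn)).mono ?_
  rintro f hf ⟨⟨h1, h2, h3, -⟩, x, rfl, hx, hQ⟩
  refine ⟨h1, h2, h3, fun φ hφ => ?_⟩
  obtain ⟨O, G, g1, g2, g3, g4, g5⟩ := limit_all hb hd (m := n + 1 - d) (by omega) hx hQ φ hφ
  obtain ⟨g6, g7⟩ := honest_of_rank hb (m := n + 1 - d) (by omega) (by omega) he hx hQ g2 g3 g4
  have g8 : ∃ i, (G i).coeff e ≠ 0 := by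
    obtain ⟨i, hi⟩ := g6
    refine ⟨i, ?_⟩
    rw [← hi]
    have h9 : G i ≠ 0 := by
      intro h0
      rw [h0, Polynomial.natDegree_zero] at hi
      omega
    exact Polynomial.leadingCoeff_ne_zero.mpr h9
  exact ⟨Ω, i1, i2, O, G, hΩ, g1, ⟨g2, g6, g7⟩,
    fun P => generic_of_rank hb (m := n + 1 - d) (by omega) hx hQ h1 g2 g3 g4 P,
    moduli_eq hb he hx (hQ e le_rfl) g2 g7 g8 g3 g4, g5⟩

end Pool.Agent.Helper30.RY
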